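import Pool.Agent.H98.KB.Som

/-!
# Sol2 : identities for the soliton (only the statements of `Sol` are used)

`t=th k y`, `κ=k/2`.  Pointwise identities: write every function as `P(t,y) Q`, `t'=κ(1-t²)`, `Q'=-tQ`,
`Q^k = C0(1-t²)`, `C0=(1+κ)(2κ+1)`.
* `L Q' = 0` : differentiate `Q'' = Q - Q^{k+1}/(k+1)`, or by the polynomial identity.
* `L ΛQ = -2Q`;  `L φ₀ = -((1+κ)²-1) φ₀`;  `L Q = -(k/(k+1)) Q^{k+1}`.
* `(ΛQ,Q) = (2/k)|Q|² + ∫ y Q'Q = (2/k - 1/2)|Q|²` (`y Q'Q = (y Q²/2)' - Q²/2`).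
* parity: `ΛQ`, `Q`, `Q''` even, `Q'` odd; or exact derivatives (`Q Q' = (Q²/2)'`, ...);
  `(ΛQ,Q')=0`: integrand odd.
* `(L n, n) = s(-2|Q|² - s k/(k+1) ∫ Q^{k+2}) < 0`, `s = s_c`, since `(n,Q)=0`, `L n = -2Q + s LQ`,
  `(Ln,n) = s (LQ,n) = s(Q,Ln)`.
-/

open MeasureTheory Filter Topology Set
open scoped ContDiff

namespace H98KB

variable {k : ℕ}

theorem Sol2_k0 (hk : 1 ≤ k) : (k : ℝ) ≠ 0 := by
  have : (1 : ℝ) ≤ k := by exact_mod_cast hk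
  linarith

theorem Sol2_d1 (hk : 1 ≤ k) (y : ℝ) : HasDerivAt (fun y => -(th k y) * Qf k y)
    (((1 + (k : ℝ) / 2) * th k y ^ 2 - (k : ℝ) / 2) * Qf k y) y := by
  have h := (th_hd k y).neg.mul (Qf_hd hk y)
  refine h.congr_deriv ?_
  simp only [Pi.neg_apply]
  ring

theorem Sol2_dd (hk : 1 ≤ k) : deriv (deriv (Qf k)) =
    fun y => ((1 + (k : ℝ) / 2) * th k y ^ 2 - (k : ℝ) / 2) * Qf k y := by
  rw [Qf_deriv hk]
  funext y
  exact (Sol2_d1 hk y).deriv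

theorem Sol2_d2 (hk : 1 ≤ k) (y : ℝ) :
    HasDerivAt (fun y => ((1 + (k : ℝ) / 2) * th k y ^ 2 - (k : ℝ) / 2) * Qf k y)
    ((1 + (k : ℝ) / 2) * (2 * th k y * ((k : ℝ) / 2 * (1 - th k y ^ 2))) * Qf k y +
      ((1 + (k : ℝ) / 2) * th k y ^ 2 - (k : ℝ) / 2) * (-(th k y) * Qf k y)) y := by
  have h := ((((th_hd k y).pow 2).const_mul (1 + (k : ℝ) / 2)).sub_const ((k : ℝ) / 2)).mul
    (Qf_hd hk y)
  refine h.congr_deriv ?_
  simp only [Nat.cast_ofNat, Nat.add_one_sub_one, pow_one, Pi.pow_apply]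

theorem L_Qd (hk : 1 ≤ k) (y : ℝ) : Lop k (deriv (Qf k)) y = 0 := by
  unfold Lop
  rw [Sol2_dd hk, (Sol2_d2 hk y).deriv, Qf_pow hk y, Qf_deriv hk, C0]
  ring

/-- `f = (a - y t) Q` -/
theorem Sol2_f1 (hk : 1 ≤ k) (a y : ℝ) : HasDerivAt (fun y => (a - y * th k y) * Qf k y)
    ((-(th k y) - y * ((k : ℝ) / 2 * (1 - th k y ^ 2)) - a * th k y + y * th k y ^ 2) * Qf k y) y := by
  have h := (((hasDerivAt_id y).mul (th_hd k y)).const_sub a).mul (Qf_hd hk y)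
  refine h.congr_deriv ?_
  simp only [id, Pi.mul_apply]
  ring

theorem Sol2_f2 (hk : 1 ≤ k) (a y : ℝ) : HasDerivAt
    (fun y => (-(th k y) - y * ((k : ℝ) / 2 * (1 - th k y ^ 2)) - a * th k y + y * th k y ^ 2) * Qf k y)
    ((-((k : ℝ) * (1 - th k y ^ 2)) + (k : ℝ) ^ 2 / 2 * y * th k y * (1 - th k y ^ 2)
      - a * ((k : ℝ) / 2) * (1 - th k y ^ 2) + th k y ^ 2 + (k : ℝ) * y * th k y * (1 - th k y ^ 2)
      - th k y * (-(th k y) - y * ((k : ℝ) / 2 * (1 - th k y ^ 2)) - a * th k y + y * th k y ^ 2)) *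
      Qf k y) y := by
  have ht := th_hd k y
  have hi := hasDerivAt_id y
  have h := ((((ht.neg).sub (hi.mul (((ht.pow 2).const_sub 1).const_mul ((k : ℝ) / 2)))).sub
    (ht.const_mul a)).add (hi.mul (ht.pow 2))).mul (Qf_hd hk y)
  refine h.congr_deriv ?_
  simp only [id, Nat.cast_ofNat, Nat.add_one_sub_one, pow_one, Pi.neg_apply, Pi.sub_apply,
    Pi.mul_apply, Pi.add_apply, Pi.pow_apply]
  ring

theorem Sol2_L (hk : 1 ≤ k) (a y : ℝ) : Lop k (fun y => (a - y * th k y) * Qf k y) y =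
    (-2 + 2 * (1 - th k y ^ 2) * (1 + (k : ℝ) / 2) * (1 - a * ((k : ℝ) / 2))) * Qf k y := by
  unfold Lop
  have h1 : deriv (fun y => (a - y * th k y) * Qf k y) = fun y =>
      (-(th k y) - y * ((k : ℝ) / 2 * (1 - th k y ^ 2)) - a * th k y + y * th k y ^ 2) * Qf k y := by
    funext z
    exact (Sol2_f1 hk a z).deriv
  rw [h1, (Sol2_f2 hk a y).deriv, Qf_pow hk y, C0]
  ring

theorem Sol2_LamQ (hk : 1 ≤ k) : Lam k (Qf k) = fun y => (2 / (k : ℝ) - y * th k y) * Qf k y := by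
  funext y
  exact LamQ_eq hk y

theorem Sol2_nf (hk : 1 ≤ k) : nf k = fun y => (1 / 2 - y * th k y) * Qf k y := by
  funext y
  unfold nf
  rw [LamQ_eq hk y, sc]
  ring

theorem L_LamQ (hk : 1 ≤ k) (y : ℝ) : Lop k (Lam k (Qf k)) y = -2 * Qf k y := by
  rw [Sol2_LamQ hk, Sol2_L hk]
  have h := Sol2_k0 hk
  have h1 : 2 / (k : ℝ) * ((k : ℝ) / 2) = 1 := by field_simp
  rw [h1]
  ring

theorem L_ph0 (hk : 1 ≤ k) (y : ℝ) : Lop k (ph0 k) y = -((1 + (k : ℝ) / 2) ^ 2 - 1) * ph0 k y := by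
  unfold Lop
  have h1 : deriv (ph0 k) = fun y => -(1 + (k : ℝ) / 2) * th k y * ph0 k y := by
    funext z
    exact (ph0_hd hk z).deriv
  have h2 : HasDerivAt (fun y => -(1 + (k : ℝ) / 2) * th k y * ph0 k y)
      (-(1 + (k : ℝ) / 2) * ((k : ℝ) / 2 * (1 - th k y ^ 2)) * ph0 k y +
        -(1 + (k : ℝ) / 2) * th k y * (-(1 + (k : ℝ) / 2) * th k y * ph0 k y)) y :=
    ((th_hd k y).const_mul (-(1 + (k : ℝ) / 2))).mul (ph0_hd hk y)
  rw [h1, h2.deriv, Qf_pow hk y, C0]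
  ring

theorem L_Q (hk : 1 ≤ k) (y : ℝ) : Lop k (Qf k) y = -((k : ℝ) / (k + 1)) * Qf k y ^ (k + 1) := by
  unfold Lop
  rw [Qf_eq hk y, fl]
  have h : (k : ℝ) + 1 ≠ 0 := by positivity
  rw [pow_succ]
  field_simp
  ring

theorem sc_pos (hk : 5 ≤ k) : 0 < sc k := by
  unfold sc
  have h : (5 : ℝ) ≤ k := by exact_mod_cast hk
  have h1 : 2 / (k : ℝ) ≤ 2 / 5 := by
    apply div_le_div_of_nonneg_left (by norm_num) (by norm_num) h
  linarith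

theorem Sol2_C2 (hk : 1 ≤ k) : Cl 2 2 (fun y => Qf k y ^ 2) := by
  have h := Cl_pow (Cl_Qf hk) 2
  norm_num at h
  exact h

theorem Sol2_Cd (hk : 1 ≤ k) : Cl 1 1 (deriv (Qf k)) := Cl_der (Cl_Qf hk)

theorem Q2_pos (hk : 1 ≤ k) : 0 < ∫ y, (Qf k y) ^ 2 := by
  have h := Sol2_C2 hk
  refine integral_pos_of_integrable_nonneg_nonzero (x := 0) (Cl_cont h)
    (Cl_int h (by norm_num) (by norm_num)) (fun y => sq_nonneg _) ?_
  exact (pow_pos (Qf_pos k 0) 2).ne'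

theorem Sol2_th1 (hk : 1 ≤ k) : 0 < th k 1 := by
  have h : (1 : ℝ) ≤ k := by exact_mod_cast hk
  unfold th
  rw [Real.tanh_eq_sinh_div_cosh]
  exact div_pos (Real.sinh_pos_iff.2 (by linarith)) (Real.cosh_pos _)

theorem Qd2_pos (hk : 1 ≤ k) : 0 < ∫ y, (deriv (Qf k) y) ^ 2 := by
  have h : Cl 2 2 (fun y => deriv (Qf k) y ^ 2) := by
    have h := Cl_pow (Sol2_Cd hk) 2
    norm_num at h
    exact h
  refine integral_pos_of_integrable_nonneg_nonzero (x := 1) (Cl_cont h)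
    (Cl_int h (by norm_num) (by norm_num)) (fun y => sq_nonneg _) ?_
  refine pow_ne_zero 2 ?_
  rw [Qf_deriv hk]
  exact mul_ne_zero (neg_ne_zero.2 (Sol2_th1 hk).ne') (Qf_pos k 1).ne'

theorem kap_pos (hk : 5 ≤ k) : 0 < kap k :=
  div_pos (Qd2_pos (by omega)) (mul_pos (sc_pos hk) (Q2_pos (by omega)))

/-- `(y Q²)' = (1 - 2 y t) Q²` -/
theorem Sol2_yQ (hk : 1 ≤ k) (y : ℝ) : HasDerivAt (fun y => y * Qf k y ^ 2)
    ((1 - 2 * y * th k y) * Qf k y ^ 2) y := by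
  have h := (hasDerivAt_id y).mul ((Qf_hd hk y).pow 2)
  refine h.congr_deriv ?_
  simp only [id, Nat.cast_ofNat, Nat.add_one_sub_one, pow_one, Pi.pow_apply]
  ring

theorem Sol2_CyQ (hk : 1 ≤ k) : Cl 1 1 (fun y => y * Qf k y ^ 2) := by
  have h := Cl_mul (Cl_id (c := 1) one_pos) (Sol2_C2 hk)
  norm_num at h
  exact h

theorem ip_LamQ_Q (hk : 1 ≤ k) : ip (Lam k (Qf k)) (Qf k) = -sc k * ∫ y, (Qf k y) ^ 2 := by
  unfold ip
  have hC : Cl (1 / 2 + 1) (1 / 2 + 1) (fun y => Lam k (Qf k) y * Qf k y) :=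
    Cl_mul (Cl_LamQ hk (by norm_num)) (Cl_Qf hk)
  have hG := Sol2_C2 hk
  have h := Cl_int_eq (F := fun y => Lam k (Qf k) y * Qf k y) (G := fun y => -sc k * Qf k y ^ 2)
    (H := fun y => 1 / 2 * (y * Qf k y ^ 2)) (Cl_int hC (by norm_num) (by norm_num))
    ((Cl_int hG (by norm_num) (by norm_num)).const_mul _) (Cl_smul (1 / 2) (Sol2_CyQ hk)) one_pos one_pos
    (fun y => by
      rw [((Sol2_yQ hk y).const_mul (1 / 2)).deriv, LamQ_eq hk y, sc]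
      ring)
  rw [h, integral_const_mul]

theorem Sol2_odd {F : ℝ → ℝ} (h : ∀ y, F (-y) = -F y) : ∫ y, F y = 0 := by
  have h1 := integral_neg_eq_self F volume
  simp only [h, integral_neg] at h1
  linarith

theorem nf_neg (hk : 1 ≤ k) (y : ℝ) : nf k (-y) = nf k y := by
  rw [Sol2_nf hk]
  simp only [th_neg, Qf_neg]
  ring

theorem ip_LamQ_Qd (hk : 1 ≤ k) : ip (Lam k (Qf k)) (deriv (Qf k)) = 0 := by
  unfold ip
  rw [Sol2_LamQ hk, Qf_deriv hk]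
  refine Sol2_odd fun y => ?_
  simp only [th_neg, Qf_neg]
  ring

theorem ip_Q_Qd (hk : 1 ≤ k) : ip (Qf k) (deriv (Qf k)) = 0 := by
  unfold ip
  rw [Qf_deriv hk]
  refine Sol2_odd fun y => ?_
  simp only [th_neg, Qf_neg]
  ring

theorem ip_Qdd_Qd (hk : 1 ≤ k) : ip (deriv (deriv (Qf k))) (deriv (Qf k)) = 0 := by
  unfold ip
  rw [Sol2_dd hk, Qf_deriv hk]
  refine Sol2_odd fun y => ?_
  simp only [th_neg, Qf_neg]
  ring

theorem ip_Qdd_Q (hk : 1 ≤ k) : ip (deriv (deriv (Qf k))) (Qf k) = -∫ y, (deriv (Qf k) y) ^ 2 := by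
  unfold ip
  rw [Cl_ibp (Sol2_Cd hk) (Cl_Qf hk) (by norm_num) (by norm_num)]
  congr 1
  refine integral_congr_ae (Eventually.of_forall fun y => ?_)
  simp only
  ring

theorem ip_n_Q (hk : 1 ≤ k) : ip (nf k) (Qf k) = 0 := by
  unfold ip
  have hC : Cl (1 / 2 + 1) (1 / 2 + 1) (fun y => nf k y * Qf k y) :=
    Cl_mul (Cl_nf hk (by norm_num)) (Cl_Qf hk)
  have h := Cl_int_eq (F := fun y => nf k y * Qf k y) (G := fun _ => (0 : ℝ))
    (H := fun y => 1 / 2 * (y * Qf k y ^ 2)) (Cl_int hC (by norm_num) (by norm_num))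
    (integrable_zero _ _ _) (Cl_smul (1 / 2) (Sol2_CyQ hk)) one_pos one_pos
    (fun y => by
      rw [((Sol2_yQ hk y).const_mul (1 / 2)).deriv, Sol2_nf hk]
      ring)
  rw [h, integral_zero]

theorem ip_n_Qd (hk : 1 ≤ k) : ip (nf k) (deriv (Qf k)) = 0 := by
  unfold ip
  rw [Qf_deriv hk]
  refine Sol2_odd fun y => ?_
  simp only [nf_neg hk, th_neg, Qf_neg]
  ring

theorem Sol2_w (k : ℕ) : Cl 0 0 (fun y => 1 - th k y ^ 2) :=
  Cl_sub (Cl_const 1) (Cl_pow0 (Cl_th k) 2)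

/-- `(y w Q²)' = (1 - 2 (1 + κ) y t) w Q²` -/
theorem Sol2_ywQ (hk : 1 ≤ k) (y : ℝ) : HasDerivAt (fun y => (1 - th k y ^ 2) * (y * Qf k y ^ 2))
    ((1 - 2 * (1 + (k : ℝ) / 2) * y * th k y) * (1 - th k y ^ 2) * Qf k y ^ 2) y := by
  have h := (((th_hd k y).pow 2).const_sub 1).mul (Sol2_yQ hk y)
  refine h.congr_deriv ?_
  simp only [Nat.cast_ofNat, Nat.add_one_sub_one, pow_one, Pi.pow_apply]
  ring

theorem Sol2_wQ_pos (hk : 1 ≤ k) : 0 < ∫ y, (1 - th k y ^ 2) * Qf k y ^ 2 := by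
  have h : Cl 2 2 (fun y => (1 - th k y ^ 2) * Qf k y ^ 2) := Cl_mul0 (Sol2_w k) (Sol2_C2 hk)
  have hw : ∀ y, 0 < 1 - th k y ^ 2 := by
    intro y
    have h1 := th_abs_lt k y
    have h2 := (sq_lt_one_iff_abs_lt_one (th k y)).2 h1
    linarith
  refine integral_pos_of_integrable_nonneg_nonzero (x := 0) (Cl_cont h)
    (Cl_int h (by norm_num) (by norm_num)) (fun y => ?_) ?_
  · exact mul_nonneg (hw y).le (sq_nonneg _)
  · exact (mul_pos (hw 0) (pow_pos (Qf_pos k 0) 2)).ne'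

theorem ip_Ln_n (hk : 5 ≤ k) : ip (Lop k (nf k)) (nf k) < 0 := by
  have hk1 : 1 ≤ k := by omega
  unfold ip
  have hC : Cl (1 / 2 + 1 / 2) (1 / 2 + 1 / 2) (fun y => Lop k (nf k) y * nf k y) :=
    Cl_mul (Cl_Lop hk1 (Cl_nf hk1 (by norm_num))) (Cl_nf hk1 (by norm_num))
  have hG : Cl 2 2 (fun y => (1 - th k y ^ 2) * Qf k y ^ 2) := Cl_mul0 (Sol2_w k) (Sol2_C2 hk1)
  have hH : Cl 1 1 (fun y => (-1) * (y * Qf k y ^ 2) +
      (1 - (k : ℝ) / 4) * ((1 - th k y ^ 2) * (y * Qf k y ^ 2))) :=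
    Cl_add (Cl_smul (-1) (Sol2_CyQ hk1)) (Cl_smul _ (Cl_mul0 (Sol2_w k) (Sol2_CyQ hk1)))
  have h := Cl_int_eq (F := fun y => Lop k (nf k) y * nf k y)
    (G := fun y => (k : ℝ) / 2 * (1 - (k : ℝ) / 4) * ((1 - th k y ^ 2) * Qf k y ^ 2))
    (Cl_int hC (by norm_num) (by norm_num))
    ((Cl_int hG (by norm_num) (by norm_num)).const_mul _) hH one_pos one_pos
    (fun y => by
      have h1 : HasDerivAt (fun y => (-1) * (y * Qf k y ^ 2) +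
          (1 - (k : ℝ) / 4) * ((1 - th k y ^ 2) * (y * Qf k y ^ 2)))
          ((-1) * ((1 - 2 * y * th k y) * Qf k y ^ 2) + (1 - (k : ℝ) / 4) *
            ((1 - 2 * (1 + (k : ℝ) / 2) * y * th k y) * (1 - th k y ^ 2) * Qf k y ^ 2)) y :=
        ((Sol2_yQ hk1 y).const_mul (-1)).add ((Sol2_ywQ hk1 y).const_mul _)
      rw [h1.deriv, Sol2_nf hk1, Sol2_L hk1]
      ring)
  rw [h, integral_const_mul]
  have h5 : (5 : ℝ) ≤ k := by exact_mod_cast hk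
  have h6 := Sol2_wQ_pos hk1
  have h7 : (k : ℝ) / 2 * (1 - (k : ℝ) / 4) < 0 :=
    mul_neg_of_pos_of_neg (by linarith) (by linarith)
  exact mul_neg_of_neg_of_pos h7 h6

end H98KB
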