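import Pool.Agent.H98.KB.Cla

/-!
# Clb (second half of Cla) : calculus of the class `Cl p q`

`bd p q y = exp(-(p max(y,0)) - q max(-y,0))`, `Cl p q f` : `f` smooth and every derivative is `O(bd p q)`.
Everything is elementary.  `Cl_mul`: Leibniz (`iteratedDeriv` of a product; in Mathlib
`norm_iteratedFDeriv_mul_le` + `norm_iteratedFDeriv_eq_norm_iteratedDeriv`, or induction on `j` using
`deriv (f g) = f' g + f g'` and the fact that the class is closed under derivatives).  `Cl_ibp`: `f g` is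
in `Cl (p+p') (q+q')`, tends to `0` at `±∞`, use `integral_mul_deriv_eq_deriv_mul_of_integrable` or
`integral_of_hasDerivAt_of_tendsto`.
-/

open MeasureTheory Filter Topology Set
open scoped ContDiff

namespace H98KB

variable {p q p' q' : ℝ} {f g : ℝ → ℝ}

theorem bd_int {p q : ℝ} (hp : 0 < p) (hq : 0 < q) : Integrable (bd p q) := by
  rw [← integrableOn_univ, ← Set.Iic_union_Ioi (a := (0 : ℝ))]
  refine IntegrableOn.union ?_ ?_
  · refine (integrableOn_exp_mul_Iic hq 0).congr_fun ?_ measurableSet_Iic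
    intro y hy
    exact (bd_of_nonpos hy).symm
  · refine (exp_neg_integrableOn_Ioi 0 hp).congr_fun ?_ measurableSet_Ioi
    intro y hy
    have hy' : 0 < y := hy
    show Real.exp (-p * y) = bd p q y
    rw [bd_of_nonneg hy'.le]
    congr 1
    ring

/-- a continuous function dominated by `bd` is integrable -/
theorem Clb_int_of_bd {F : ℝ → ℝ} (hF : Continuous F) (hp : 0 < p) (hq : 0 < q)
    (h : ∃ C : ℝ, ∀ y, |F y| ≤ C * bd p q y) : Integrable F := by
  obtain ⟨C, hC⟩ := h
  refine ((bd_int hp hq).const_mul C).mono' hF.aestronglyMeasurable ?_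
  exact Eventually.of_forall fun y => by rw [Real.norm_eq_abs]; exact hC y

theorem Cl_int (h : Cl p q f) (hp : 0 < p) (hq : 0 < q) : Integrable f := by
  obtain ⟨C, _, hC⟩ := Cl_bnd h
  exact Clb_int_of_bd (Cl_cont h) hp hq ⟨C, hC⟩

theorem Cl_tendsto_top (h : Cl p q f) (hp : 0 < p) : Tendsto f atTop (𝓝 0) := by
  obtain ⟨C, _, hC⟩ := Cl_bnd h
  have h1 : Tendsto (fun y : ℝ => C * Real.exp (-(p * y))) atTop (𝓝 0) := by
    have h2 : Tendsto (fun y : ℝ => p * y) atTop atTop := tendsto_id.const_mul_atTop hp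
    have h3 := (Real.tendsto_exp_neg_atTop_nhds_zero.comp h2).const_mul C
    rw [mul_zero] at h3
    exact h3
  refine squeeze_zero_norm' ?_ h1
  filter_upwards [eventually_ge_atTop (0 : ℝ)] with y hy
  rw [Real.norm_eq_abs, ← bd_of_nonneg (q := q) hy]
  exact hC y

theorem Cl_tendsto_bot (h : Cl p q f) (hq : 0 < q) : Tendsto f atBot (𝓝 0) := by
  have h1 := Cl_tendsto_top (Cl_refl h) hq
  have h2 := h1.comp tendsto_neg_atBot_atTop
  refine h2.congr fun y => ?_
  simp

theorem Clb_der_int (h : Cl p q f) (hp : 0 < p) (hq : 0 < q) : Integrable (deriv f) :=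
  Cl_int (Cl_der h) hp hq

theorem Cl_int_deriv (h : Cl p q f) (hp : 0 < p) (hq : 0 < q) : ∫ y, deriv f y = 0 := by
  have h1 := integral_of_hasDerivAt_of_tendsto (fun y => Cl_hd h y) (Clb_der_int h hp hq)
    (Cl_tendsto_bot h hq) (Cl_tendsto_top h hp)
  rw [h1, sub_zero]

theorem Cl_ibp (hf : Cl p q f) (hg : Cl p' q' g) (hp : 0 < p + p') (hq : 0 < q + q') :
    ∫ y, deriv f y * g y = -∫ y, f y * deriv g y := by
  have h1 := Cl_int_deriv (Cl_mul hf hg) hp hq
  have h2 : (fun y => deriv (fun z => f z * g z) y) = fun y => deriv f y * g y + f y * deriv g y := by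
    funext y
    exact ((Cl_hd hf y).mul (Cl_hd hg y)).deriv
  have i1 : Integrable (fun y => deriv f y * g y) := Cl_int (Cl_mul (Cl_der hf) hg) hp hq
  have i2 : Integrable (fun y => f y * deriv g y) := Cl_int (Cl_mul hf (Cl_der hg)) hp hq
  rw [h2, integral_add i1 i2] at h1
  linarith

/-- the main tool for integrations by parts: exhibit a primitive `H` of the difference -/
theorem Cl_int_eq {F G H : ℝ → ℝ} (hF : Integrable F) (hG : Integrable G) (hH : Cl p q H)
    (hp : 0 < p) (hq : 0 < q) (h : ∀ y, F y - G y = deriv H y) : ∫ y, F y = ∫ y, G y := by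
  have h1 := Cl_int_deriv hH hp hq
  have h2 : (fun y => deriv H y) = fun y => F y - G y := by
    funext y
    exact (h y).symm
  rw [h2, integral_sub hF hG] at h1
  linarith

/-- same with an inequality -/
theorem Cl_int_le {F G H : ℝ → ℝ} (hF : Integrable F) (hG : Integrable G) (hH : Cl p q H)
    (hp : 0 < p) (hq : 0 < q) (h : ∀ y, F y ≤ G y + deriv H y) : ∫ y, F y ≤ ∫ y, G y := by
  have h1 := Cl_int_deriv hH hp hq
  have h2 : ∫ y, F y ≤ ∫ y, (G y + deriv H y) :=
    integral_mono hF (hG.add (Clb_der_int hH hp hq)) h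
  rw [integral_add hG (Clb_der_int hH hp hq), h1, add_zero] at h2
  exact h2

/-- a continuous function dominated by `bd` is integrable -/
theorem int_of_bd {F : ℝ → ℝ} (hF : Continuous F) (hp : 0 < p) (hq : 0 < q)
    (h : ∃ C : ℝ, ∀ y, |F y| ≤ C * bd p q y) : Integrable F :=
  Clb_int_of_bd hF hp hq h

/-- Cauchy-Schwarz for integrals of continuous functions -/
theorem cs_int {F G : ℝ → ℝ} (hF : Continuous F) (hG : Continuous G)
    (hF2 : Integrable (fun y => F y ^ 2)) (hG2 : Integrable (fun y => G y ^ 2)) :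
    Integrable (fun y => F y * G y) ∧ |∫ y, F y * G y| ≤ √(∫ y, F y ^ 2) * √(∫ y, G y ^ 2) := by
  have hI : Integrable (fun y => F y * G y) := by
    refine (hF2.add hG2).mono' (hF.mul hG).aestronglyMeasurable ?_
    refine Eventually.of_forall fun y => ?_
    rw [Real.norm_eq_abs, abs_mul]
    show |F y| * |G y| ≤ F y ^ 2 + G y ^ 2
    have h1 := sq_nonneg (|F y| - |G y|)
    have h2 := sq_abs (F y)
    have h3 := sq_abs (G y)
    nlinarith [mul_nonneg (abs_nonneg (F y)) (abs_nonneg (G y))]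
  refine ⟨hI, ?_⟩
  have hA : 0 ≤ ∫ y, F y ^ 2 := integral_nonneg fun y => sq_nonneg _
  have hd : discrim (∫ y, F y ^ 2) (-(2 * ∫ y, F y * G y)) (∫ y, G y ^ 2) ≤ 0 := by
    refine discrim_le_zero fun s => ?_
    have h1 : 0 ≤ ∫ y, (s * F y - G y) ^ 2 := integral_nonneg fun y => sq_nonneg _
    have h2 : ∫ y, (s * F y - G y) ^ 2 = ∫ y, (s ^ 2 * F y ^ 2 - 2 * s * (F y * G y) + G y ^ 2) := by
      congr 1
      funext y
      ring
    have i1 : Integrable (fun y => s ^ 2 * F y ^ 2 - 2 * s * (F y * G y)) :=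
      (hF2.const_mul (s ^ 2)).sub (hI.const_mul (2 * s))
    rw [h2, integral_add i1 hG2,
      integral_sub (hF2.const_mul (s ^ 2)) (hI.const_mul (2 * s)), integral_const_mul,
      integral_const_mul] at h1
    linarith
  have hd2 : (∫ y, F y * G y) ^ 2 ≤ (∫ y, F y ^ 2) * ∫ y, G y ^ 2 := by
    unfold discrim at hd
    nlinarith
  rw [← Real.sqrt_mul hA]
  exact Real.abs_le_sqrt hd2

/-- weighted Cauchy-Schwarz: `|∫ f φ| ≤ C √(∫ W f²)` when `φ² ≤ C₀ W * (integrable)`. -/
theorem cs_wt {F φ W : ℝ → ℝ} (hF : Continuous F) (hφ : Continuous φ) (hW : Continuous W)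
    (hWp : ∀ y, 0 < W y) (hF2 : Integrable (fun y => W y * F y ^ 2))
    (hφ2 : Integrable (fun y => φ y ^ 2 / W y)) :
    Integrable (fun y => F y * φ y) ∧
      |∫ y, F y * φ y| ≤ √(∫ y, φ y ^ 2 / W y) * √(∫ y, W y * F y ^ 2) := by
  have hs : Continuous (fun y => √(W y)) := Real.continuous_sqrt.comp hW
  have hs0 : ∀ y, 0 < √(W y) := fun y => Real.sqrt_pos.mpr (hWp y)
  have e1 : (fun y => (φ y / √(W y)) ^ 2) = fun y => φ y ^ 2 / W y := by
    funext y
    rw [div_pow, Real.sq_sqrt (hWp y).le]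
  have e2 : (fun y => (√(W y) * F y) ^ 2) = fun y => W y * F y ^ 2 := by
    funext y
    rw [mul_pow, Real.sq_sqrt (hWp y).le]
  have e3 : (fun y => (φ y / √(W y)) * (√(W y) * F y)) = fun y => F y * φ y := by
    funext y
    have := (hs0 y).ne'
    field_simp
  have h := cs_int (F := fun y => φ y / √(W y)) (G := fun y => √(W y) * F y)
    (hφ.div hs fun y => (hs0 y).ne') (hs.mul hF) (by rw [e1]; exact hφ2) (by rw [e2]; exact hF2)
  rw [e1, e2, e3] at h
  exact h

/-- one dimensional Sobolev inequality -/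
theorem sup_le (h : Cl p q f) (hp : 0 < p) (hq : 0 < q) (y : ℝ) :
    f y ^ 2 ≤ 2 * √(∫ z, f z ^ 2) * √(∫ z, deriv f z ^ 2) := by
  have hf2 : Integrable (fun z => f z ^ 2) := by
    have h1 := Cl_int (Cl_mul h h) (by linarith) (by linarith)
    refine h1.congr (Eventually.of_forall fun z => ?_)
    show f z * f z = f z ^ 2
    ring
  have hd2 : Integrable (fun z => deriv f z ^ 2) := by
    have h1 := Cl_int (Cl_mul (Cl_der h) (Cl_der h)) (by linarith) (by linarith)
    refine h1.congr (Eventually.of_forall fun z => ?_)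
    show deriv f z * deriv f z = deriv f z ^ 2
    ring
  have ha : Integrable (fun z => (|f z|) ^ 2) := hf2.congr (Eventually.of_forall fun z => (sq_abs _).symm)
  have hb : Integrable (fun z => (|deriv f z|) ^ 2) :=
    hd2.congr (Eventually.of_forall fun z => (sq_abs _).symm)
  obtain ⟨hI, hcs⟩ := cs_int (Cl_cont h).abs (Cl_cont (Cl_der h)).abs ha hb
  have hsq : ∀ z, HasDerivAt (fun w => f w * f w) (2 * (f z * deriv f z)) z := by
    intro z
    refine ((Cl_hd h z).mul (Cl_hd h z)).congr_deriv ?_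
    ring
  have hfd : Integrable (fun z => 2 * (f z * deriv f z)) :=
    (Cl_int (Cl_mul h (Cl_der h)) (by linarith) (by linarith)).const_mul 2
  have hbot : Tendsto (fun w => f w * f w) atBot (𝓝 0) :=
    Cl_tendsto_bot (Cl_mul h h) (by linarith)
  have h1 : ∫ z in Iic y, 2 * (f z * deriv f z) = f y * f y - 0 :=
    integral_Iic_of_hasDerivAt_of_tendsto (hsq y).continuousAt.continuousWithinAt
      (fun z _ => hsq z) hfd.integrableOn hbot
  have h2 : |∫ z in Iic y, 2 * (f z * deriv f z)| ≤ ∫ z in Iic y, |2 * (f z * deriv f z)| :=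
    abs_integral_le_integral_abs
  have h3 : ∫ z in Iic y, |2 * (f z * deriv f z)| ≤ ∫ z, |2 * (f z * deriv f z)| :=
    setIntegral_le_integral hfd.abs (Eventually.of_forall fun z => abs_nonneg _)
  have h4 : ∫ z, |2 * (f z * deriv f z)| = 2 * ∫ z, |f z| * |deriv f z| := by
    rw [← integral_const_mul]
    congr 1
    funext z
    rw [abs_mul, abs_mul, abs_two]
  have h5 : (fun z => (|f z|) ^ 2) = fun z => f z ^ 2 := by
    funext z
    exact sq_abs _
  have h6 : (fun z => (|deriv f z|) ^ 2) = fun z => deriv f z ^ 2 := by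
    funext z
    exact sq_abs _
  rw [h5, h6] at hcs
  have h7 := le_abs_self (∫ z, |f z| * |deriv f z|)
  have h8 := le_abs_self (∫ z in Iic y, 2 * (f z * deriv f z))
  nlinarith

end H98KB
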