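import Pool.Agent.H98.KB.Defs

/-!
# Cla : calculus of the class `Cl p q`

`bd p q y = exp(-(p max(y,0)) - q max(-y,0))`, `Cl p q f` : `f` smooth and every derivative is `O(bd p q)`.
Everything is elementary.  `Cl_mul`: Leibniz (`iteratedDeriv` of a product; in Mathlib
`norm_iteratedFDeriv_mul_le` + `norm_iteratedFDeriv_eq_norm_iteratedDeriv`, or induction on `j` using
`deriv (f g) = f' g + f g'` and the fact that the class is closed under derivatives).  `Cl_ibp`: `f g` is
in `Cl (p+p') (q+q')`, tends to `0` at `±∞`, use `integral_mul_deriv_eq_deriv_mul_of_integrable` or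
`integral_of_hasDerivAt_of_tendsto`.
-/

open MeasureTheory Filter Topology Set
open scoped ContDiff

namespace H98KB

theorem bd_pos (p q y : ℝ) : 0 < bd p q y := by
  exact Real.exp_pos _

theorem bd_mul (p q p' q' y : ℝ) : bd p q y * bd p' q' y = bd (p + p') (q + q') y := by
  unfold bd
  rw [← Real.exp_add]
  congr 1
  ring

theorem bd_mono {p q p' q' : ℝ} (hp : p' ≤ p) (hq : q' ≤ q) (y : ℝ) : bd p q y ≤ bd p' q' y := by
  unfold bd
  apply Real.exp_le_exp.mpr
  have h1 : 0 ≤ max y 0 := le_max_right _ _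
  have h2 : 0 ≤ max (-y) 0 := le_max_right _ _
  nlinarith [mul_nonneg (sub_nonneg.mpr hp) h1, mul_nonneg (sub_nonneg.mpr hq) h2]

theorem bd_zero (y : ℝ) : bd 0 0 y = 1 := by
  simp [bd]

theorem bd_abs (p y : ℝ) : bd p p y = Real.exp (-(p * |y|)) := by
  unfold bd
  congr 1
  rcases le_total 0 y with h | h
  · rw [max_eq_left h, max_eq_right (by linarith : -y ≤ 0), abs_of_nonneg h]
    ring
  · rw [max_eq_right h, max_eq_left (by linarith : (0:ℝ) ≤ -y), abs_of_nonpos h]
    ring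

theorem bd_of_nonneg {p q y : ℝ} (hy : 0 ≤ y) : bd p q y = Real.exp (-(p * y)) := by
  unfold bd
  rw [max_eq_left hy, max_eq_right (by linarith : -y ≤ 0)]
  congr 1
  ring

theorem bd_of_nonpos {p q y : ℝ} (hy : y ≤ 0) : bd p q y = Real.exp (q * y) := by
  unfold bd
  rw [max_eq_right hy, max_eq_left (by linarith : (0:ℝ) ≤ -y)]
  congr 1
  ring

theorem bd_cont (p q : ℝ) : Continuous (bd p q) := by
  unfold bd
  fun_prop

variable {p q p' q' : ℝ} {f g : ℝ → ℝ}

/-- constructor with nonnegative constants -/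
theorem Cl_bnd (h : Cl p q f) : ∃ C : ℝ, 0 ≤ C ∧ ∀ y, |f y| ≤ C * bd p q y := by
  obtain ⟨C, hC⟩ := h.2 0
  refine ⟨max C 0, le_max_right _ _, fun y => ?_⟩
  have h1 := hC y
  rw [iteratedDeriv_zero] at h1
  exact h1.trans (mul_le_mul_of_nonneg_right (le_max_left _ _) (bd_pos p q y).le)

theorem Cl_bndj (h : Cl p q f) (j : ℕ) : ∃ C : ℝ, 0 ≤ C ∧ ∀ y, |iteratedDeriv j f y| ≤ C * bd p q y := by
  obtain ⟨C, hC⟩ := h.2 j
  refine ⟨max C 0, le_max_right _ _, fun y => (hC y).trans ?_⟩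
  exact mul_le_mul_of_nonneg_right (le_max_left _ _) (bd_pos p q y).le

theorem Cl_mono (h : Cl p q f) (hp : p' ≤ p) (hq : q' ≤ q) : Cl p' q' f := by
  refine ⟨h.1, fun j => ?_⟩
  obtain ⟨C, hC0, hC⟩ := Cl_bndj h j
  exact ⟨C, fun y => (hC y).trans (mul_le_mul_of_nonneg_left (bd_mono hp hq y) hC0)⟩

theorem Cl_cont (h : Cl p q f) : Continuous f := by
  exact h.1.continuous

theorem Cl_hd (h : Cl p q f) (y : ℝ) : HasDerivAt f (deriv f y) y := by
  exact ((contDiff_infty_iff_deriv.mp h.1).1 y).hasDerivAt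

theorem Cl_der (h : Cl p q f) : Cl p q (deriv f) := by
  refine ⟨(contDiff_infty_iff_deriv.mp h.1).2, fun j => ?_⟩
  obtain ⟨C, hC⟩ := h.2 (j + 1)
  refine ⟨C, fun y => ?_⟩
  rw [← iteratedDeriv_succ']
  exact hC y

/-- the class can be checked on `f` and its derivative -/
theorem Cl_of_deriv {g : ℝ → ℝ} (hfg : ∀ y, HasDerivAt f (g y) y) (hg : Cl p q g)
    (hb : ∃ C : ℝ, ∀ y, |f y| ≤ C * bd p q y) : Cl p q f := by
  have hd : deriv f = g := funext fun y => (hfg y).deriv
  refine ⟨contDiff_infty_iff_deriv.mpr ⟨fun y => (hfg y).differentiableAt, hd ▸ hg.1⟩, fun j => ?_⟩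
  cases j with
  | zero =>
    obtain ⟨C, hC⟩ := hb
    refine ⟨C, fun y => ?_⟩
    rw [iteratedDeriv_zero]
    exact hC y
  | succ j =>
    rw [iteratedDeriv_succ', hd]
    exact hg.2 j

theorem Cl_add (hf : Cl p q f) (hg : Cl p q g) : Cl p q (fun y => f y + g y) := by
  refine ⟨hf.1.add hg.1, fun j => ?_⟩
  obtain ⟨C, hC⟩ := hf.2 j
  obtain ⟨D, hD⟩ := hg.2 j
  refine ⟨C + D, fun y => ?_⟩
  rw [iteratedDeriv_fun_add ((hf.1.of_le (by exact_mod_cast le_top)).contDiffAt)
    ((hg.1.of_le (by exact_mod_cast le_top)).contDiffAt), add_mul]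
  exact (abs_add_le _ _).trans (add_le_add (hC y) (hD y))

theorem Cla_neg (hf : Cl p q f) : Cl p q (fun y => -f y) := by
  refine ⟨hf.1.neg, fun j => ?_⟩
  obtain ⟨C, hC⟩ := hf.2 j
  refine ⟨C, fun y => ?_⟩
  rw [iteratedDeriv_fun_neg, abs_neg]
  exact hC y

theorem Cl_sub (hf : Cl p q f) (hg : Cl p q g) : Cl p q (fun y => f y - g y) := by
  have h := Cl_add hf (Cla_neg hg)
  simpa only [sub_eq_add_neg] using h

theorem Cl_neg (hf : Cl p q f) : Cl p q (fun y => -f y) := by
  refine ⟨hf.1.neg, fun j => ?_⟩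
  obtain ⟨C, hC⟩ := hf.2 j
  refine ⟨C, fun y => ?_⟩
  rw [iteratedDeriv_fun_neg, abs_neg]
  exact hC y

theorem Cl_smul (c : ℝ) (hf : Cl p q f) : Cl p q (fun y => c * f y) := by
  refine ⟨contDiff_const.mul hf.1, fun j => ?_⟩
  obtain ⟨C, hC⟩ := hf.2 j
  refine ⟨|c| * C, fun y => ?_⟩
  rw [iteratedDeriv_const_mul_field, abs_mul, mul_assoc]
  exact mul_le_mul_of_nonneg_left (hC y) (abs_nonneg c)

theorem Cl_mul (hf : Cl p q f) (hg : Cl p' q' g) : Cl (p + p') (q + q') (fun y => f y * g y) := by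
  refine ⟨hf.1.mul hg.1, fun j => ?_⟩
  induction j generalizing f g with
  | zero =>
    obtain ⟨C, hC0, hC⟩ := Cl_bnd hf
    obtain ⟨D, hD0, hD⟩ := Cl_bnd hg
    refine ⟨C * D, fun y => ?_⟩
    rw [iteratedDeriv_zero, abs_mul, ← bd_mul]
    calc |f y| * |g y| ≤ (C * bd p q y) * (D * bd p' q' y) :=
          mul_le_mul (hC y) (hD y) (abs_nonneg _) (mul_nonneg hC0 (bd_pos _ _ _).le)
      _ = C * D * (bd p q y * bd p' q' y) := by ring
  | succ j ih =>
    obtain ⟨C, hC⟩ := ih (Cl_der hf) hg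
    obtain ⟨D, hD⟩ := ih hf (Cl_der hg)
    refine ⟨C + D, fun y => ?_⟩
    have hd : deriv (fun y => f y * g y) = fun y => deriv f y * g y + f y * deriv g y := by
      funext y
      exact ((Cl_hd hf y).mul (Cl_hd hg y)).deriv
    rw [iteratedDeriv_succ', hd]
    have e1 : ContDiff ℝ ∞ (fun y => deriv f y * g y) := (Cl_der hf).1.mul hg.1
    have e2 : ContDiff ℝ ∞ (fun y => f y * deriv g y) := hf.1.mul (Cl_der hg).1
    rw [iteratedDeriv_fun_add ((e1.of_le (by exact_mod_cast le_top)).contDiffAt)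
      ((e2.of_le (by exact_mod_cast le_top)).contDiffAt), add_mul]
    exact (abs_add_le _ _).trans (add_le_add (hC y) (hD y))

/-- product with a bounded factor -/
theorem Cl_mul0 (hf : Cl 0 0 f) (hg : Cl p q g) : Cl p q (fun y => f y * g y) := by
  have h := Cl_mul hf hg
  simpa only [zero_add] using h

theorem Cl_const (c : ℝ) : Cl 0 0 (fun _ => c) := by
  refine ⟨contDiff_const, fun j => ?_⟩
  cases j with
  | zero =>
    refine ⟨|c|, fun y => ?_⟩
    rw [iteratedDeriv_zero, bd_zero, mul_one]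
  | succ j =>
    refine ⟨0, fun y => ?_⟩
    rw [iteratedDeriv_succ', deriv_const', iteratedDeriv_fun_const_zero]
    simp

theorem Cl_zero : Cl p q (fun _ => 0) := by
  refine ⟨contDiff_const, fun j => ⟨0, fun y => ?_⟩⟩
  rw [iteratedDeriv_fun_const_zero]
  simp

theorem Cl_pow (hf : Cl p q f) (n : ℕ) : Cl (n * p) (n * q) (fun y => f y ^ n) := by
  induction n with
  | zero =>
    simpa only [Nat.cast_zero, zero_mul, pow_zero] using Cl_const 1
  | succ n ih =>
    have h := Cl_mul ih hf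
    have e1 : (((n + 1 : ℕ) : ℝ)) * p = n * p + p := by
      push_cast
      ring
    have e2 : (((n + 1 : ℕ) : ℝ)) * q = n * q + q := by
      push_cast
      ring
    rw [e1, e2]
    simpa only [pow_succ] using h

theorem Cl_pow' (hf : Cl p q f) (hp : 0 ≤ p) (hq : 0 ≤ q) (n : ℕ) (hn : 1 ≤ n) :
    Cl p q (fun y => f y ^ n) := by
  refine Cl_mono (Cl_pow hf n) ?_ ?_
  · have : (1 : ℝ) ≤ n := by exact_mod_cast hn
    nlinarith
  · have : (1 : ℝ) ≤ n := by exact_mod_cast hn
    nlinarith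

theorem Cl_pow0 (hf : Cl 0 0 f) (n : ℕ) : Cl 0 0 (fun y => f y ^ n) := by
  have h := Cl_pow hf n
  simpa only [mul_zero] using h

theorem Cl_id {c : ℝ} (hc : 0 < c) : Cl (-c) (-c) (fun y => y) := by
  refine Cl_of_deriv (g := fun _ => 1) (fun y => hasDerivAt_id y) ?_ ?_
  · exact Cl_mono (Cl_const 1) (by linarith) (by linarith)
  · refine ⟨1 / c, fun y => ?_⟩
    rw [bd_abs]
    have h1 : c * |y| ≤ Real.exp (c * |y|) := by
      have := Real.add_one_le_exp (c * |y|)
      linarith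
    have h2 : -(-c * |y|) = c * |y| := by ring
    rw [h2, div_mul_eq_mul_div, one_mul, le_div_iff₀ hc, mul_comm]
    exact h1

theorem Cl_exp (c : ℝ) : Cl (-c) c (fun y => Real.exp (c * y)) := by
  refine ⟨by fun_prop, fun j => ⟨|c| ^ j, fun y => ?_⟩⟩
  have h1 : iteratedDeriv j (fun y => Real.exp (c * y)) y = c ^ j * Real.exp (c * y) := by
    induction j generalizing y with
    | zero => simp
    | succ j ih =>
      rw [iteratedDeriv_succ, funext ih]
      have h2 : HasDerivAt (fun y => c ^ j * Real.exp (c * y))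
          (c ^ j * (Real.exp (c * y) * (c * 1))) y :=
        (((hasDerivAt_id y).const_mul c).exp).const_mul _
      rw [h2.deriv]
      ring
  have h3 : Real.exp (c * y) = bd (-c) c y := by
    unfold bd
    congr 1
    rcases le_total 0 y with h | h
    · rw [max_eq_left h, max_eq_right (by linarith : -y ≤ 0)]
      ring
    · rw [max_eq_right h, max_eq_left (by linarith : (0:ℝ) ≤ -y)]
      ring
  rw [h1, abs_mul, abs_pow, Real.abs_exp, h3]

/-- reflection -/
theorem Cl_refl (hf : Cl p q f) : Cl q p (fun y => f (-y)) := by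
  refine ⟨hf.1.comp contDiff_neg, fun j => ?_⟩
  obtain ⟨C, hC⟩ := hf.2 j
  refine ⟨C, fun y => ?_⟩
  have h1 : bd q p y = bd p q (-y) := by
    unfold bd
    rw [neg_neg]
    congr 1
    ring
  rw [iteratedDeriv_comp_neg, h1, smul_eq_mul, abs_mul, abs_pow, abs_neg, abs_one, one_pow, one_mul]
  exact hC (-y)

end H98KB
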