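import Pool.Agent.H98.KB.Sol

/-!
# Som (second half of Sol) : the soliton

Write `t = th k y`, `κ = k/2`, `C0 = (k+1)(k+2)/2`; `t' = κ(1-t²)`.
* `Q' = -tQ` : `Q = A cosh(κy)^{-2/k}` (rpow), derivative `A (-(2/k)) cosh^{-2/k-1} sinh κ = -t Q`.
* `Q^k = C0 cosh(κ y)^{-2} = C0 (1-t²)` (`Real.rpow_natCast`, `Real.rpow_mul`).
* `Q'' = -t'Q + t²Q = (t² - κ(1-t²)) Q = Q - Q^{k+1}/(k+1)` since `C0/(k+1) = (k+2)/2 = 1+κ`.
* bounds: `e^{|κy|}/2 ≤ cosh(κy) ≤ e^{|κy|}` so `A e^{-|y|} ≤ Q ≤ A 2^{2/k} e^{-|y|}`.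
* `Cl_Qf`: `Cl_of_deriv`-type bootstrap: `Q' = -t Q` with `t ∈ Cl 0 0`: every iterated derivative of `Q` is
  (an element of `Cl 0 0`) times `Q` (induction).
-/

open MeasureTheory Filter Topology Set
open scoped ContDiff

namespace H98KB

variable {k : ℕ}

/-- `Λ Q = (2/k - y t) Q` -/
theorem LamQ_eq (hk : 1 ≤ k) (y : ℝ) : Lam k (Qf k) y = (2 / (k : ℝ) - y * th k y) * Qf k y := by
  unfold Lam
  rw [Qf_deriv hk]
  ring

theorem Som_Cl_Lam {p q c : ℝ} {f : ℝ → ℝ} (k : ℕ) (hf : Cl p q f) (hc : 0 < c) :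
    Cl (p - c) (q - c) (Lam k f) := by
  have h1 : Cl (p - c) (q - c) (fun y => 2 / (k : ℝ) * f y) :=
    Cl_mono (Cl_smul _ hf) (by linarith) (by linarith)
  have h2 : Cl (p - c) (q - c) (fun y => y * deriv f y) := by
    have h := Cl_mul (Cl_id hc) (Cl_der hf)
    have e1 : -c + p = p - c := by ring
    have e2 : -c + q = q - c := by ring
    rw [e1, e2] at h
    exact h
  exact Cl_add h1 h2

theorem Cl_LamQ (hk : 1 ≤ k) {c : ℝ} (hc : c < 1) : Cl c c (Lam k (Qf k)) := by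
  have h := Som_Cl_Lam k (Cl_Qf hk) (c := 1 - c) (by linarith)
  have e1 : (1 : ℝ) - (1 - c) = c := by ring
  rw [e1] at h
  exact h

theorem Cl_nf (hk : 1 ≤ k) {c : ℝ} (hc : c < 1) : Cl c c (nf k) :=
  Cl_add (Cl_LamQ hk hc) (Cl_smul _ (Cl_mono (Cl_Qf hk) hc.le hc.le))

theorem Cl_ph0 (hk : 1 ≤ k) : Cl (1 + (k : ℝ) / 2) (1 + (k : ℝ) / 2) (ph0 k) := by
  have hk' : (0 : ℝ) < (k : ℝ) / 2 := by
    have : (1 : ℝ) ≤ k := by exact_mod_cast hk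
    linarith
  have h := Cl_mul (Cl_Qf hk) (Cl_sech hk')
  have e : (fun y => Qf k y * (1 / Real.cosh ((k : ℝ) / 2 * y))) = ph0 k := by
    funext y
    unfold ph0
    rw [show (k : ℝ) / 2 * y = (k : ℝ) * y / 2 by ring]
    ring
  rw [e] at h
  exact h

theorem ph0_pos (k : ℕ) (y : ℝ) : 0 < ph0 k y :=
  div_pos (Qf_pos k y) (Real.cosh_pos _)

/-- `φ₀' = -(1+κ) t φ₀` -/
theorem ph0_hd (hk : 1 ≤ k) (y : ℝ) :
    HasDerivAt (ph0 k) (-(1 + (k : ℝ) / 2) * th k y * ph0 k y) y := by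
  have h0 : HasDerivAt (fun y : ℝ => (k : ℝ) * y / 2) ((k : ℝ) / 2) y := by
    have := ((hasDerivAt_id y).const_mul (k : ℝ)).div_const 2
    simpa using this
  have h1 : HasDerivAt (fun y => Real.cosh ((k : ℝ) * y / 2))
      (Real.sinh ((k : ℝ) * y / 2) * ((k : ℝ) / 2)) y := h0.cosh
  have hc : Real.cosh ((k : ℝ) * y / 2) ≠ 0 := (Real.cosh_pos _).ne'
  have h2 := (Qf_hd hk y).div h1 hc
  refine h2.congr_deriv ?_
  unfold ph0 th
  rw [Real.tanh_eq_sinh_div_cosh]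
  field_simp
  ring

theorem Cl_Lop {p q : ℝ} {f : ℝ → ℝ} (hk : 1 ≤ k) (hf : Cl p q f) : Cl p q (Lop k f) := by
  have hk0 : (0 : ℝ) ≤ k := by exact_mod_cast Nat.zero_le k
  have h1 : Cl 0 0 (fun y => Qf k y ^ k) := Cl_mono (Cl_Qk hk) hk0 hk0
  exact Cl_sub (Cl_add (Cl_neg (Cl_der (Cl_der hf))) hf) (Cl_mul0 h1 hf)

theorem Cl_Lam {p q c : ℝ} {f : ℝ → ℝ} (k : ℕ) (hf : Cl p q f) (hc : 0 < c) :
    Cl (p - c) (q - c) (Lam k f) := Som_Cl_Lam k hf hc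

theorem Lop_symm {p q p' q' : ℝ} {f g : ℝ → ℝ} (hk : 1 ≤ k) (hf : Cl p q f) (hg : Cl p' q' g)
    (hp : 0 < p + p') (hq : 0 < q + q') : ip (Lop k f) g = ip f (Lop k g) := by
  unfold ip
  have hH : Cl (p + p') (q + q') (fun y => f y * deriv g y - deriv f y * g y) :=
    Cl_sub (Cl_mul hf (Cl_der hg)) (Cl_mul (Cl_der hf) hg)
  refine Cl_int_eq (Cl_int (Cl_mul (Cl_Lop hk hf) hg) hp hq)
    (Cl_int (Cl_mul hf (Cl_Lop hk hg)) hp hq) hH hp hq ?_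
  intro y
  have h1 : HasDerivAt (fun y => f y * deriv g y - deriv f y * g y)
      ((deriv f y * deriv g y + f y * deriv (deriv g) y) -
        (deriv (deriv f) y * g y + deriv f y * deriv g y)) y :=
    ((Cl_hd hf y).mul (Cl_hd (Cl_der hg) y)).sub ((Cl_hd (Cl_der hf) y).mul (Cl_hd hg y))
  rw [h1.deriv]
  unfold Lop
  ring

end H98KB
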