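import Pool.Agent.H98.KB.Tan
import Pool.Agent.H98.KB.Clb

/-!
# Tbn (second half of Tan) : `tanh`, `sech` and the weights `Th`, `om`, `ch`, `loc` in the class `Cl`

`tanh(cy)' = c(1-tanh²)`, `1/cosh² = 1 - tanh²`, `1/cosh(cy) ≤ 2 e^{-c|y|}`.
`Cl_tanh`: by `Cl_of_deriv` bootstrapping, or: every iterated derivative of `T=tanh(c y)` is a polynomial in
`T` (induction) hence bounded; and it is a multiple of `1-T²` for `j ≥ 1`.
`Th B y = (1+tanh(y/(2B)))/2`, `Th ≤ e^{y/B}` for `y ≤ 0`.
-/

open MeasureTheory Filter Topology Set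
open scoped ContDiff

namespace H98KB

theorem Th_eq {B : ℝ} (hB : 0 < B) (y : ℝ) : Th B y = (1 + Real.tanh (y / (2 * B))) / 2 := by
  have h1 : Real.exp (-y / B) = Real.exp (-(y / (2 * B))) / Real.exp (y / (2 * B)) := by
    rw [← Real.exp_sub]
    congr 1
    field_simp
    ring
  have h2 := Real.exp_pos (y / (2 * B))
  have h3 := Real.exp_pos (-(y / (2 * B)))
  unfold Th
  rw [Real.tanh_eq_sinh_div_cosh, Real.sinh_eq, Real.cosh_eq, h1]
  have h4 : Real.exp (y / (2 * B)) + Real.exp (-(y / (2 * B))) ≠ 0 := by positivity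
  field_simp
  ring

theorem Th_pos (B y : ℝ) : 0 < Th B y := by
  unfold Th
  have := Real.exp_pos (-y / B)
  positivity

theorem Th_lt_one (B y : ℝ) : Th B y < 1 := by
  unfold Th
  have := Real.exp_pos (-y / B)
  rw [div_lt_one (by positivity)]
  linarith

theorem Th_neg {B : ℝ} (hB : 0 < B) (y : ℝ) : Th B y + Th B (-y) = 1 := by
  rw [Th_eq hB, Th_eq hB, neg_div, Real.tanh_neg]
  ring

theorem Th_hd {B : ℝ} (hB : 0 < B) (y : ℝ) : HasDerivAt (Th B) (Th B y * (1 - Th B y) / B) y := by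
  have e : Th B = fun y => (1 + Real.tanh (1 / (2 * B) * y)) / 2 := by
    funext z
    rw [Th_eq hB]
    congr 3
    field_simp
  have h := ((tanh_hd (1 / (2 * B)) y).const_add 1).div_const 2
  rw [e]
  refine h.congr_deriv ?_
  field_simp
  ring

theorem Cl_Th {B : ℝ} (hB : 0 < B) : Cl 0 (1 / B) (Th B) := by
  have e : ∀ y, Th B y = (1 + Real.tanh (1 / (2 * B) * y)) / 2 := by
    intro z
    rw [Th_eq hB]
    congr 3
    field_simp
  have h := Tan_Cl (c := 1 / (2 * B)) (p := 0) (q := 1 / B) (K := 1) (w := Th B)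
    (R := Polynomial.C (1 / (2 * B)) * (1 - Polynomial.X)) (fun y => by
      refine (Th_hd hB y).congr_deriv ?_
      simp only [Polynomial.eval_mul, Polynomial.eval_C, Polynomial.eval_X, Polynomial.eval_sub,
        Polynomial.eval_one]
      have h1 : Real.tanh (1 / (2 * B) * y) = 2 * Th B y - 1 := by
        rw [e y]
        ring
      rw [h1]
      field_simp
      ring) (fun y => by
      rw [abs_of_pos (Th_pos B y), one_mul]
      rcases le_total 0 y with hy | hy
      · rw [bd_of_nonneg hy, zero_mul, neg_zero, Real.exp_zero]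
        exact (Th_lt_one B y).le
      · rw [bd_of_nonpos hy]
        unfold Th
        have h1 := Real.exp_pos (-y / B)
        rw [div_le_iff₀ (by positivity)]
        have h2 : Real.exp (1 / B * y) * Real.exp (-y / B) = 1 := by
          rw [← Real.exp_add]
          have : 1 / B * y + -y / B = 0 := by
            field_simp
            ring
          rw [this, Real.exp_zero]
        have h3 := Real.exp_pos (1 / B * y)
        nlinarith) 1
  simpa using h

theorem Cl_om {B : ℝ} (hB : 0 < B) (ρ : ℝ) : Cl (-(2 * ρ)) (2 * ρ + 1 / B) (om B ρ) := by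
  have h := Cl_mul (Cl_Th hB) (Cl_exp (2 * ρ))
  have e1 : (0 : ℝ) + -(2 * ρ) = -(2 * ρ) := by ring
  have e2 : 1 / B + 2 * ρ = 2 * ρ + 1 / B := by ring
  rw [e1, e2] at h
  exact h

theorem om_pos (B ρ y : ℝ) : 0 < om B ρ y := by
  exact mul_pos (Th_pos B y) (Real.exp_pos _)

theorem om_hd {B : ℝ} (hB : 0 < B) (ρ y : ℝ) :
    HasDerivAt (om B ρ) ((Th B y * (1 - Th B y) / B + 2 * ρ * Th B y) * Real.exp (2 * ρ * y)) y := by
  have h1 : HasDerivAt (fun y : ℝ => 2 * ρ * y) (2 * ρ * 1) y := (hasDerivAt_id y).const_mul (2 * ρ)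
  have h2 := (Th_hd hB y).mul h1.exp
  refine h2.congr_deriv ?_
  ring

end H98KB
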