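import Pool.Agent.H98.KB.Defs

/-!
# Interface of the static part (sections 2-6 of the note): owner helper98

`Good k γ η δ M B c C` collects every static inequality needed by the bootstrap.  All constants
`γ η δ M B c C` depend on `k` only.
-/

open MeasureTheory Filter Topology Set
open scoped ContDiff

namespace H98KB

/-- hypotheses on a function `ε` (rescaled variable) for a weight with parameter `ρ` -/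
def Adm (ρ p q : ℝ) (ε : ℝ → ℝ) : Prop := ρ < p ∧ p ≤ 1 / 2 ∧ 0 < q ∧ q ≤ 1 / 2 ∧ Cl p q ε

/-- `b, m` solve the modulation system -/
def Orth (k : ℕ) (b m l : ℝ) (ε e : ℝ → ℝ) : Prop :=
  ip (zeta k b m l ε e) (Qf k) = 0 ∧ ip (zeta k b m l ε e) (deriv (Qf k)) = 0

structure Good (k : ℕ) (γ η δ M B c C : ℝ) : Prop where
  hγ : 0 < γ
  hη : 0 < η
  hδ : 0 < δ
  hM : 0 < M
  hB : 16 ≤ B
  hc : 0 < c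
  hc1 : c ≤ 1
  hC : 1 ≤ C
  /-- main differential inequality -/
  ML : ∀ R, C ≤ R → ∃ l₁ : ℝ, 0 < l₁ ∧ l₁ ≤ 1 ∧ ∀ l, 0 < l → l ≤ l₁ → ∀ (p q : ℝ) (ε e : ℝ → ℝ),
    Adm (R * l) p q ε → Adm (R * l) p q e → (∀ y, |ε y| ≤ c) → ln γ B ε ≤ c →
    Gn B (R * l) e ≤ c → ∀ b m, 0 ≤ b → b ≤ 2 * kap k * l → Orth k b m l ε e →
    M * DE k B (R * l) b ε (zeta k b m l ε e) + DV k η γ B δ ε (zeta k b m l ε e) ≤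
      -c * (Tn B (R * l) ε + ln γ B ε) - c * R * l * Gn B (R * l) ε
        + C * (l ^ 2 + (ip ε (Qf k)) ^ 2 + (ip ε (deriv (Qf k))) ^ 2) + C / l * Gn B (R * l) e
  /-- bounds for the modulation parameters -/
  BM : ∀ ρ, Slow B ρ → ∀ l, 0 < l → l ≤ 1 → ∀ (p q : ℝ) (ε e : ℝ → ℝ),
    Adm ρ p q ε → Adm ρ p q e → (∀ y, |ε y| ≤ c) → ln γ B ε ≤ c → Gn B ρ e ≤ c →
    ∀ b m, Orth k b m l ε e →
    |b - kap k * l| ≤ C * (l * √(ln γ B ε) + ln γ B ε + |ip ε (deriv (Qf k))| + √(Gn B ρ e)) ∧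
    |m| ≤ C * (√(ln γ B ε) + √(Gn B ρ e))
  /-- coercivity -/
  CO : ∀ ρ, Slow B ρ → ∀ (p q : ℝ) (ε : ℝ → ℝ), Adm ρ p q ε → (∀ y, |ε y| ≤ c) →
    Gn B ρ ε ≤ C * (LL k η γ δ M B ρ ε + C * ((ip ε (ph0 k)) ^ 2 + (ip ε (deriv (Qf k))) ^ 2)) ∧
    |LL k η γ δ M B ρ ε| ≤ C * Gn B ρ ε
  /-- the unstable direction -/
  DL : ∀ ρ, Slow B ρ → ∀ l, 0 < l → l ≤ 1 → ∀ (p q : ℝ) (ε e : ℝ → ℝ),
    Adm ρ p q ε → Adm ρ p q e → (∀ y, |ε y| ≤ c) → ln γ B ε ≤ c → Gn B ρ e ≤ c →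
    ∀ b m, 0 ≤ b → b ≤ 2 * kap k * l → Orth k b m l ε e →
    |ip (zeta k b m l ε e) (ph0 k)| ≤ C * (√(ln γ B ε) + l + √(Gn B ρ e))
  /-- the gradient norm -/
  DX : ∀ ρ, Slow B ρ → ∀ l, 0 < l → l ≤ 1 → ∀ (p q : ℝ) (ε e : ℝ → ℝ),
    Adm ρ p q ε → Adm ρ p q e → (∀ y, |ε y| ≤ c) → ln γ B ε ≤ c → Gn B ρ e ≤ c →
    (∀ y, |ε y| ^ (4 * (k - 1)) * (Xn ε) ^ 5 ≤ l ^ 7) →
    ∀ b m, 0 ≤ b → b ≤ 2 * kap k * l → Orth k b m l ε e →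
    ip (deriv ε) (deriv (zeta k b m l ε e)) ≤ -b * (1 - sc k) * Xn ε
      + C * (Tn B ρ ε + ln γ B ε) + C * l ^ 2 + C * Gn B ρ e + C / l * Xn e
  /-- local norms are controlled -/
  LN : ∀ ρ, Slow B ρ → ∀ (p q : ℝ) (ε : ℝ → ℝ), Adm ρ p q ε →
    ln γ B ε ≤ C * Gn B ρ ε ∧ |ip ε (ph0 k)| ≤ C * √(ln γ B ε) ∧
    |ip ε (Qf k)| ≤ C * √(ln γ B ε) ∧ |ip ε (deriv (Qf k))| ≤ C * √(ln γ B ε)
  /-- Lipschitz bound for the Lyapunov functional -/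
  LIP : ∀ ρ, Slow B ρ → ∀ (p q : ℝ) (ε ε' : ℝ → ℝ), Adm ρ p q ε → Adm ρ p q ε' →
    (∀ y, |ε y| ≤ c) → (∀ y, |ε' y| ≤ c) →
    |LL k η γ δ M B ρ ε - LL k η γ δ M B ρ ε'| ≤
      C * √(Gn B ρ (fun y => ε y - ε' y)) * (√(Gn B ρ ε) + √(Gn B ρ ε'))
  /-- initial data -/
  IN : ∃ cn : ℝ, 0 < cn ∧ ∀ ρ, Slow B ρ → ∀ a : ℝ, |a| ≤ c →
    |LL k η γ δ M B ρ (fun y => a * nf k y) + cn * a ^ 2| ≤ C * (ρ * a ^ 2 + |a| ^ 3)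

/-- what the static part delivers -/
def ThmG : Prop := ∀ k : ℕ, 5 ≤ k → ∃ γ η δ M B c C : ℝ, Good k γ η δ M B c C

/-- facts about `n` -/
def ThmN : Prop := ∀ k : ℕ, 5 ≤ k → Cl (1 / 2) (1 / 2) (nf k) ∧ ip (nf k) (Qf k) = 0 ∧
  ip (nf k) (deriv (Qf k)) = 0 ∧ ip (nf k) (ph0 k) ≠ 0

end H98KB
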