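import Pool.Agent.H98.KB.Nla

/-!
# Nlb (second half of Nla) : the nonlinear terms `D, R, bF, g, ζ`

`D = f(Q+ε)-f(Q)`, `R = D - Q^kε`, `bF = F(Q+ε)-F(Q)-f(Q)ε`, `F'=f`, `f'=u^k`.
* `D_le`: `|(Q+ε)^{k+1}-Q^{k+1}| ≤ (k+1)|ε|(Q+|ε|)^k`, `(Q+|ε|)^k ≤ 2^k(Q^k+|ε|^k)`.
* Taylor with `Q ≤ C`, `|ε| ≤ 1`: `|R| ≤ Cε²`; `R' = [f'(Q+ε)-Q^k]ε' + [f'(Q+ε)-f'(Q)-f''(Q)ε]Q'`, so
  `|R'| ≤ C|ε|(|ε|+|ε'|)`; `|bF| ≤ C(Q^k+|ε|^k)ε²`; `|bF-(1/2)Q^kε²| ≤ C|ε|³`.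
  (polynomial estimates: e.g. `u^{n}-v^{n}` factorisation, or the mean value theorem.)
* `bF_hd`: `bF' = D ε' + R Q'`.
* classes: `D = ε·(polynomial in Q, ε)`, use `(Q+ε)^{k+1}-Q^{k+1} = ε Σ (Q+ε)^i Q^{k-i}` (`Commute.geom_sum₂`/
  `sub_eq...`/`Finset.sum`), with `Q+ε ∈ Cl 0 0`-bounded; or `Cl_of_deriv`.  For `R`, `bF`: from `D` and products.
  All in `Cl p q` for `0 ≤ p,q`, (`p,q ≤ 1`).  Hint: it is enough that these functions are in `Cl p q`: each is a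
  finite sum of products of `Q`, `ε` with at least one factor `ε`.
* `zeta ∈ Cl p' q'` for `p'<p`, `q'<q`, `p',q' < 1` (because of `Λ`).
-/

open MeasureTheory Filter Topology Set
open scoped ContDiff

namespace H98KB

variable {k : ℕ} {p q : ℝ} {ε e : ℝ → ℝ}

/-- first order remainder -/
theorem Nlb_T1 {a x B : ℝ} (ha : |a| ≤ B) (hx : |a + x| ≤ B) (n : ℕ) :
    |(a + x) ^ (n + 1) - a ^ (n + 1)| ≤ ((n : ℝ) + 1) * B ^ n * |x| := by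
  have hB : 0 ≤ B := (abs_nonneg a).trans ha
  induction n with
  | zero => simp
  | succ n ih =>
    have e1 : (a + x) ^ (n + 1 + 1) - a ^ (n + 1 + 1) =
        (a + x) * ((a + x) ^ (n + 1) - a ^ (n + 1)) + x * a ^ (n + 1) := by ring
    rw [e1]
    refine (abs_add_le _ _).trans ?_
    rw [abs_mul, abs_mul, abs_pow]
    have h1 : |a + x| * |(a + x) ^ (n + 1) - a ^ (n + 1)| ≤ B * (((n : ℝ) + 1) * B ^ n * |x|) :=
      mul_le_mul hx ih (abs_nonneg _) hB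
    have h2 : |x| * |a| ^ (n + 1) ≤ |x| * B ^ (n + 1) :=
      mul_le_mul_of_nonneg_left (pow_le_pow_left₀ (abs_nonneg _) ha _) (abs_nonneg _)
    push_cast
    calc _ ≤ B * (((n : ℝ) + 1) * B ^ n * |x|) + |x| * B ^ (n + 1) := add_le_add h1 h2
      _ = _ := by ring

/-- second order remainder -/
theorem Nlb_T2 {a x B : ℝ} (ha : |a| ≤ B) (hx : |a + x| ≤ B) (n : ℕ) :
    |(a + x) ^ (n + 2) - a ^ (n + 2) - ((n : ℝ) + 2) * a ^ (n + 1) * x| ≤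
      ((n : ℝ) + 2) ^ 2 * B ^ n * x ^ 2 := by
  have hB : 0 ≤ B := (abs_nonneg a).trans ha
  induction n with
  | zero =>
    have e1 : (a + x) ^ (0 + 2) - a ^ (0 + 2) - (((0 : ℕ) : ℝ) + 2) * a ^ (0 + 1) * x = x ^ 2 := by
      push_cast; ring
    rw [e1, abs_of_nonneg (sq_nonneg x)]
    push_cast
    nlinarith [sq_nonneg x]
  | succ n ih =>
    have e1 : (a + x) ^ (n + 1 + 2) - a ^ (n + 1 + 2) - (((n + 1 : ℕ) : ℝ) + 2) * a ^ (n + 1 + 1) * x =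
        (a + x) * ((a + x) ^ (n + 2) - a ^ (n + 2) - ((n : ℝ) + 2) * a ^ (n + 1) * x)
          + ((n : ℝ) + 2) * a ^ (n + 1) * x ^ 2 := by
      push_cast; ring
    rw [e1]
    refine (abs_add_le _ _).trans ?_
    rw [abs_mul (a + x)]
    have h1 := mul_le_mul hx ih (abs_nonneg _) hB
    have h2 : |((n : ℝ) + 2) * a ^ (n + 1) * x ^ 2| ≤ ((n : ℝ) + 2) * B ^ (n + 1) * x ^ 2 := by
      rw [abs_mul, abs_mul, abs_pow, abs_of_nonneg (by positivity : (0 : ℝ) ≤ (n : ℝ) + 2),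
        abs_of_nonneg (sq_nonneg x)]
      gcongr
    have h3 : 0 ≤ B ^ (n + 1) * x ^ 2 := by positivity
    push_cast
    calc _ ≤ B * (((n : ℝ) + 2) ^ 2 * B ^ n * x ^ 2) + ((n : ℝ) + 2) * B ^ (n + 1) * x ^ 2 :=
          add_le_add h1 h2
      _ = (((n : ℝ) + 2) ^ 2 + ((n : ℝ) + 2)) * (B ^ (n + 1) * x ^ 2) := by ring
      _ ≤ ((n : ℝ) + 1 + 2) ^ 2 * (B ^ (n + 1) * x ^ 2) := by
          apply mul_le_mul_of_nonneg_right _ h3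
          have : (0 : ℝ) ≤ n := Nat.cast_nonneg n
          nlinarith
      _ = _ := by ring

/-- third order remainder -/
theorem Nlb_T3 {a x B : ℝ} (ha : |a| ≤ B) (hx : |a + x| ≤ B) (n : ℕ) :
    |(a + x) ^ (n + 3) - a ^ (n + 3) - ((n : ℝ) + 3) * a ^ (n + 2) * x
      - ((n : ℝ) + 3) * ((n : ℝ) + 2) / 2 * a ^ (n + 1) * x ^ 2| ≤
      ((n : ℝ) + 3) ^ 3 * B ^ n * |x| ^ 3 := by
  have hB : 0 ≤ B := (abs_nonneg a).trans ha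
  induction n with
  | zero =>
    have e1 : (a + x) ^ (0 + 3) - a ^ (0 + 3) - (((0 : ℕ) : ℝ) + 3) * a ^ (0 + 2) * x
        - (((0 : ℕ) : ℝ) + 3) * (((0 : ℕ) : ℝ) + 2) / 2 * a ^ (0 + 1) * x ^ 2 = x ^ 3 := by
      push_cast; ring
    rw [e1, abs_pow]
    push_cast
    have : 0 ≤ |x| ^ 3 := by positivity
    nlinarith
  | succ n ih =>
    have e1 : (a + x) ^ (n + 1 + 3) - a ^ (n + 1 + 3) - (((n + 1 : ℕ) : ℝ) + 3) * a ^ (n + 1 + 2) * x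
        - (((n + 1 : ℕ) : ℝ) + 3) * (((n + 1 : ℕ) : ℝ) + 2) / 2 * a ^ (n + 1 + 1) * x ^ 2 =
        (a + x) * ((a + x) ^ (n + 3) - a ^ (n + 3) - ((n : ℝ) + 3) * a ^ (n + 2) * x
          - ((n : ℝ) + 3) * ((n : ℝ) + 2) / 2 * a ^ (n + 1) * x ^ 2)
          + ((n : ℝ) + 3) * ((n : ℝ) + 2) / 2 * a ^ (n + 1) * x ^ 3 := by
      push_cast; ring
    rw [e1]
    refine (abs_add_le _ _).trans ?_
    rw [abs_mul (a + x)]
    have h1 := mul_le_mul hx ih (abs_nonneg _) hB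
    have h2 : |((n : ℝ) + 3) * ((n : ℝ) + 2) / 2 * a ^ (n + 1) * x ^ 3| ≤
        ((n : ℝ) + 3) * ((n : ℝ) + 2) / 2 * B ^ (n + 1) * |x| ^ 3 := by
      rw [abs_mul, abs_mul, abs_pow, abs_pow,
        abs_of_nonneg (by positivity : (0 : ℝ) ≤ ((n : ℝ) + 3) * ((n : ℝ) + 2) / 2)]
      gcongr
    have h3 : 0 ≤ B ^ (n + 1) * |x| ^ 3 := by positivity
    push_cast
    calc _ ≤ B * (((n : ℝ) + 3) ^ 3 * B ^ n * |x| ^ 3)
            + ((n : ℝ) + 3) * ((n : ℝ) + 2) / 2 * B ^ (n + 1) * |x| ^ 3 := add_le_add h1 h2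
      _ = (((n : ℝ) + 3) ^ 3 + ((n : ℝ) + 3) * ((n : ℝ) + 2) / 2) * (B ^ (n + 1) * |x| ^ 3) := by ring
      _ ≤ ((n : ℝ) + 1 + 3) ^ 3 * (B ^ (n + 1) * |x| ^ 3) := by
          apply mul_le_mul_of_nonneg_right _ h3
          have : (0 : ℝ) ≤ n := Nat.cast_nonneg n
          (first | linarith only [mul_nonneg this this] | nlinarith only [mul_nonneg this this])
      _ = _ := by ring

theorem Nlb_two {a b : ℝ} (ha : 0 ≤ a) (hb : 0 ≤ b) (k : ℕ) :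
    (a + b) ^ k ≤ 2 ^ k * (a ^ k + b ^ k) := by
  have h1 : a + b ≤ 2 * max a b := by
    have := le_max_left a b
    have := le_max_right a b
    linarith
  calc (a + b) ^ k ≤ (2 * max a b) ^ k := pow_le_pow_left₀ (by positivity) h1 k
    _ = 2 ^ k * (max a b) ^ k := by rw [mul_pow]
    _ ≤ 2 ^ k * (a ^ k + b ^ k) := by
        apply mul_le_mul_of_nonneg_left _ (by positivity)
        have hak : 0 ≤ a ^ k := by positivity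
        have hbk : 0 ≤ b ^ k := by positivity
        rcases le_total a b with h | h
        · rw [max_eq_right h]; linarith
        · rw [max_eq_left h]; linarith

theorem Nlb_bd (k : ℕ) (ε : ℝ → ℝ) (y : ℝ) : |Qf k y| ≤ Qf k y + |ε y| ∧
    |Qf k y + ε y| ≤ Qf k y + |ε y| := by
  have h := (Qf_pos k y).le
  constructor
  · rw [abs_of_nonneg h]
    linarith [abs_nonneg (ε y)]
  · refine (abs_add_le _ _).trans ?_
    rw [abs_of_nonneg h]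

theorem Nlb_max (hk : 1 ≤ k) : ∃ M : ℝ, 1 ≤ M ∧ (∀ y, Qf k y ≤ M) ∧ ∀ (ε : ℝ → ℝ) (y : ℝ),
    |ε y| ≤ 1 → |Qf k y| ≤ M ∧ |Qf k y + ε y| ≤ M := by
  obtain ⟨C, hC, h⟩ := Qf_hi hk
  have hQ : ∀ y, Qf k y ≤ C := fun y => (h y).trans (by
    have : Real.exp (-|y|) ≤ 1 := Real.exp_le_one_iff.mpr (by linarith [abs_nonneg y])
    nlinarith)
  refine ⟨C + 1, by linarith, fun y => by linarith [hQ y], fun ε y hε => ?_⟩
  obtain ⟨h1, h2⟩ := Nlb_bd k ε y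
  have := hQ y
  exact ⟨by linarith, by linarith⟩

theorem D_le (k : ℕ) (ε : ℝ → ℝ) (y : ℝ) :
    |Df k ε y| ≤ 2 ^ k * (Qf k y ^ k + |ε y| ^ k) * |ε y| := by
  obtain ⟨h1, h2⟩ := Nlb_bd k ε y
  have h3 := Nlb_T1 h1 h2 k
  have hk1 : (0 : ℝ) < (k : ℝ) + 1 := by positivity
  have e1 : Df k ε y = ((Qf k y + ε y) ^ (k + 1) - Qf k y ^ (k + 1)) / ((k : ℝ) + 1) := by
    simp only [Df, fl]
    ring
  rw [e1, abs_div, abs_of_pos hk1, div_le_iff₀ hk1]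
  have h4 := Nlb_two (Qf_pos k y).le (abs_nonneg (ε y)) k
  calc _ ≤ ((k : ℝ) + 1) * (Qf k y + |ε y|) ^ k * |ε y| := h3
    _ ≤ ((k : ℝ) + 1) * (2 ^ k * (Qf k y ^ k + |ε y| ^ k)) * |ε y| := by gcongr
    _ = _ := by ring

theorem Nlb_R_eq (j : ℕ) (ε : ℝ → ℝ) (y : ℝ) : Rf (j + 1) ε y =
    ((Qf (j + 1) y + ε y) ^ (j + 2) - Qf (j + 1) y ^ (j + 2)
      - ((j : ℝ) + 2) * Qf (j + 1) y ^ (j + 1) * ε y) / ((j : ℝ) + 2) := by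
  have h : (j : ℝ) + 2 ≠ 0 := by positivity
  have h' : (j : ℝ) + 1 + 1 ≠ 0 := by positivity
  simp only [Rf, Df, fl]
  push_cast
  field_simp
  ring

theorem R_le (k : ℕ) (hk : 2 ≤ k) : ∃ C : ℝ, 0 < C ∧ ∀ (ε : ℝ → ℝ) (y : ℝ), |ε y| ≤ 1 →
    |Rf k ε y| ≤ C * (ε y) ^ 2 := by
  obtain ⟨j, rfl⟩ : ∃ j, k = j + 1 := ⟨k - 1, by omega⟩
  obtain ⟨M, hM, -, hQ⟩ := Nlb_max (k := j + 1) (by omega)
  refine ⟨((j : ℝ) + 2) * M ^ j, by positivity, fun ε y hε => ?_⟩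
  obtain ⟨h1, h2⟩ := hQ ε y hε
  have h3 := Nlb_T2 h1 h2 j
  have hj : (0 : ℝ) < (j : ℝ) + 2 := by positivity
  rw [Nlb_R_eq, abs_div, abs_of_pos hj, div_le_iff₀ hj]
  calc _ ≤ ((j : ℝ) + 2) ^ 2 * M ^ j * (ε y) ^ 2 := h3
    _ = _ := by ring

theorem Nlb_Qhd (hk : 1 ≤ k) (y : ℝ) : HasDerivAt (Qf k) (deriv (Qf k) y) y :=
  (Qf_hd hk y).differentiableAt.hasDerivAt

theorem Nlb_fl_hd (k : ℕ) {u : ℝ → ℝ} {u' y : ℝ} (hu : HasDerivAt u u' y) :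
    HasDerivAt (fun z => fl k (u z)) (u y ^ k * u') y := by
  have hk1 : (k : ℝ) + 1 ≠ 0 := by positivity
  have := (hu.pow (k + 1)).div_const ((k : ℝ) + 1)
  refine this.congr_deriv ?_
  push_cast
  field_simp

theorem Nlb_Fl_hd (k : ℕ) {u : ℝ → ℝ} {u' y : ℝ} (hu : HasDerivAt u u' y) :
    HasDerivAt (fun z => Fl k (u z)) (fl k (u y) * u') y := by
  have hk1 : (k : ℝ) + 1 ≠ 0 := by positivity
  have hk2 : (k : ℝ) + 2 ≠ 0 := by positivity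
  have := (hu.pow (k + 2)).div_const (((k : ℝ) + 1) * ((k : ℝ) + 2))
  refine this.congr_deriv ?_
  push_cast
  rw [fl]
  field_simp

theorem Nlb_Rf_hd (hk : 1 ≤ k) {ε : ℝ → ℝ} {e' : ℝ} {y : ℝ} (hε : HasDerivAt ε e' y) :
    HasDerivAt (Rf k ε) (((Qf k y + ε y) ^ k - Qf k y ^ k) * e'
      + ((Qf k y + ε y) ^ k - Qf k y ^ k - (k : ℝ) * Qf k y ^ (k - 1) * ε y) * deriv (Qf k) y) y := by
  have hQ := Nlb_Qhd hk y
  have h1 := Nlb_fl_hd k (hQ.add hε)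
  have h2 := Nlb_fl_hd k hQ
  have h3 := ((hQ.pow k).mul hε)
  refine (((h1.sub h2).sub h3).congr_deriv ?_)
  simp only [Pi.add_apply, Pi.pow_apply]
  ring

theorem Rd_le (k : ℕ) (hk : 2 ≤ k) : ∃ C : ℝ, 0 < C ∧ ∀ (p q : ℝ) (ε : ℝ → ℝ), Cl p q ε →
    ∀ y : ℝ, |ε y| ≤ 1 →
    |deriv (Rf k ε) y| ≤ C * |ε y| * (|ε y| + |deriv ε y|) := by
  obtain ⟨j, rfl⟩ : ∃ j, k = j + 2 := ⟨k - 2, by omega⟩
  obtain ⟨M, hM, hQM, hQ⟩ := Nlb_max (k := j + 2) (by omega)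
  refine ⟨((j : ℝ) + 2) ^ 2 * M ^ (j + 1), by positivity, fun p q ε hcl y hε => ?_⟩
  obtain ⟨h1, h2⟩ := hQ ε y hε
  have h3 := Nlb_T2 h1 h2 j
  have h4 := Nlb_T1 h1 h2 (j + 1)
  rw [(Nlb_Rf_hd (by omega) (Cl_hd hcl y)).deriv]
  have hj : (0 : ℝ) ≤ (j : ℝ) := Nat.cast_nonneg j
  have hQ' : |deriv (Qf (j + 2)) y| ≤ M := by
    rw [Qf_deriv (by omega)]
    have ht : |th (j + 2) y| ≤ 1 := by
      unfold th
      rw [abs_le]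
      exact ⟨(Real.neg_one_lt_tanh _).le, (Real.tanh_lt_one _).le⟩
    show |(-(th (j + 2) y) * Qf (j + 2) y)| ≤ M
    rw [abs_mul, abs_neg]
    calc _ ≤ 1 * |Qf (j + 2) y| := by gcongr
      _ ≤ M := by rw [one_mul]; exact h1
  have e1 : j + 2 - 1 = j + 1 := by omega
  rw [e1]
  have hMj : M ^ j * M = M ^ (j + 1) := by ring
  refine (abs_add_le _ _).trans ?_
  rw [abs_mul, abs_mul]
  have hA : |(Qf (j + 2) y + ε y) ^ (j + 2) - Qf (j + 2) y ^ (j + 2)| * |deriv ε y| ≤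
      (((j : ℝ) + 2) * M ^ (j + 1) * |ε y|) * |deriv ε y| := by
    refine mul_le_mul_of_nonneg_right ?_ (abs_nonneg _)
    refine h4.trans (le_of_eq ?_)
    push_cast; ring
  have hB : |(Qf (j + 2) y + ε y) ^ (j + 2) - Qf (j + 2) y ^ (j + 2)
      - ((j + 2 : ℕ) : ℝ) * Qf (j + 2) y ^ (j + 1) * ε y| * |deriv (Qf (j + 2)) y| ≤
      (((j : ℝ) + 2) ^ 2 * M ^ j * (ε y) ^ 2) * M := by
    refine mul_le_mul ?_ hQ' (abs_nonneg _) (by positivity)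
    push_cast
    exact h3
  have hpos : 0 ≤ M ^ (j + 1) * |ε y| * |deriv ε y| := by positivity
  calc _ ≤ (((j : ℝ) + 2) * M ^ (j + 1) * |ε y|) * |deriv ε y|
        + (((j : ℝ) + 2) ^ 2 * M ^ j * (ε y) ^ 2) * M := add_le_add hA hB
    _ = ((j : ℝ) + 2) * (M ^ (j + 1) * |ε y| * |deriv ε y|)
        + ((j : ℝ) + 2) ^ 2 * M ^ (j + 1) * |ε y| * |ε y| := by
        rw [← sq_abs (ε y)]; ring
    _ ≤ ((j : ℝ) + 2) ^ 2 * (M ^ (j + 1) * |ε y| * |deriv ε y|)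
        + ((j : ℝ) + 2) ^ 2 * M ^ (j + 1) * |ε y| * |ε y| := by
        have : ((j : ℝ) + 2) ≤ ((j : ℝ) + 2) ^ 2 := by (first | linarith only [] | nlinarith only [])
        gcongr
    _ = _ := by ring

theorem Nlb_bF_eq (k : ℕ) (ε : ℝ → ℝ) (y : ℝ) : bF k ε y =
    ((Qf k y + ε y) ^ (k + 2) - Qf k y ^ (k + 2)
      - ((k : ℝ) + 2) * Qf k y ^ (k + 1) * ε y) / (((k : ℝ) + 1) * ((k : ℝ) + 2)) := by
  have h1 : (k : ℝ) + 1 ≠ 0 := by positivity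
  have h2 : (k : ℝ) + 2 ≠ 0 := by positivity
  simp only [bF, Fl, fl]
  field_simp

theorem bF_le (k : ℕ) (hk : 2 ≤ k) : ∃ C : ℝ, 0 < C ∧ ∀ (ε : ℝ → ℝ) (y : ℝ),
    |bF k ε y| ≤ C * (Qf k y ^ k + |ε y| ^ k) * (ε y) ^ 2 := by
  refine ⟨((k : ℝ) + 2) * 2 ^ k, by positivity, fun ε y => ?_⟩
  obtain ⟨h1, h2⟩ := Nlb_bd k ε y
  have h3 := Nlb_T2 h1 h2 k
  have hk1 : (0 : ℝ) < (k : ℝ) + 1 := by positivity
  have hk2 : (0 : ℝ) < (k : ℝ) + 2 := by positivity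
  rw [Nlb_bF_eq, abs_div, abs_of_pos (mul_pos hk1 hk2), div_le_iff₀ (mul_pos hk1 hk2)]
  have h4 := Nlb_two (Qf_pos k y).le (abs_nonneg (ε y)) k
  have h0 : 0 ≤ 2 ^ k * (Qf k y ^ k + |ε y| ^ k) * (ε y) ^ 2 := by
    have := (Qf_pos k y).le
    positivity
  have hk0 : (0 : ℝ) ≤ k := Nat.cast_nonneg k
  calc _ ≤ ((k : ℝ) + 2) ^ 2 * (Qf k y + |ε y|) ^ k * (ε y) ^ 2 := h3
    _ ≤ ((k : ℝ) + 2) ^ 2 * (2 ^ k * (Qf k y ^ k + |ε y| ^ k)) * (ε y) ^ 2 := by gcongr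
    _ = ((k : ℝ) + 2) ^ 2 * (2 ^ k * (Qf k y ^ k + |ε y| ^ k) * (ε y) ^ 2) := by ring
    _ ≤ (((k : ℝ) + 2) ^ 2 * ((k : ℝ) + 1)) * (2 ^ k * (Qf k y ^ k + |ε y| ^ k) * (ε y) ^ 2) := by
        apply mul_le_mul_of_nonneg_right _ h0
        nlinarith [sq_nonneg ((k : ℝ) + 2)]
    _ = _ := by ring

theorem bF_cub (k : ℕ) (hk : 2 ≤ k) : ∃ C : ℝ, 0 < C ∧ ∀ (ε : ℝ → ℝ) (y : ℝ), |ε y| ≤ 1 →
    |bF k ε y - 1 / 2 * (Qf k y ^ k * (ε y) ^ 2)| ≤ C * |ε y| ^ 3 := by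
  obtain ⟨j, rfl⟩ : ∃ j, k = j + 1 := ⟨k - 1, by omega⟩
  obtain ⟨M, hM, -, hQ⟩ := Nlb_max (k := j + 1) (by omega)
  refine ⟨((j : ℝ) + 3) ^ 3 * M ^ j, by positivity, fun ε y hε => ?_⟩
  obtain ⟨h1, h2⟩ := hQ ε y hε
  have h3 := Nlb_T3 h1 h2 j
  have hj2 : (0 : ℝ) < (j : ℝ) + 2 := by positivity
  have hj3 : (0 : ℝ) < (j : ℝ) + 3 := by positivity
  have e1 : bF (j + 1) ε y - 1 / 2 * (Qf (j + 1) y ^ (j + 1) * (ε y) ^ 2) =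
      ((Qf (j + 1) y + ε y) ^ (j + 3) - Qf (j + 1) y ^ (j + 3)
        - ((j : ℝ) + 3) * Qf (j + 1) y ^ (j + 2) * ε y
        - ((j : ℝ) + 3) * ((j : ℝ) + 2) / 2 * Qf (j + 1) y ^ (j + 1) * (ε y) ^ 2)
        / (((j : ℝ) + 2) * ((j : ℝ) + 3)) := by
    rw [Nlb_bF_eq]
    have e2 : (((j + 1 : ℕ) : ℝ) + 1) = (j : ℝ) + 2 := by push_cast; ring
    have e3 : (((j + 1 : ℕ) : ℝ) + 2) = (j : ℝ) + 3 := by push_cast; ring
    rw [e2, e3]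
    field_simp
  rw [e1, abs_div, abs_of_pos (mul_pos hj2 hj3)]
  refine (div_le_self (abs_nonneg _) ?_).trans h3
  have hj : (0 : ℝ) ≤ (j : ℝ) := Nat.cast_nonneg j
  nlinarith

theorem bF_hd (hk : 1 ≤ k) (hε : Cl p q ε) (y : ℝ) :
    HasDerivAt (bF k ε) (Df k ε y * deriv ε y + Rf k ε y * deriv (Qf k) y) y := by
  have hQ := Nlb_Qhd hk y
  have he := Cl_hd hε y
  have h1 := Nlb_Fl_hd k (hQ.add he)
  have h2 := Nlb_Fl_hd k hQ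
  have h3 := (Nlb_fl_hd k hQ).mul he
  refine (((h1.sub h2).sub h3).congr_deriv ?_)
  simp only [Pi.add_apply, Rf, Df]
  ring

/-- Lipschitz versions -/
theorem bF_lip (k : ℕ) (hk : 2 ≤ k) : ∃ C : ℝ, 0 < C ∧ ∀ (ε ε' : ℝ → ℝ) (y : ℝ), |ε y| ≤ 1 →
    |ε' y| ≤ 1 → |bF k ε y - bF k ε' y| ≤ C * |ε y - ε' y| * (|ε y| + |ε' y|) := by
  obtain ⟨M, hM, -, hQ⟩ := Nlb_max (k := k) (by omega)
  refine ⟨2 * (((k : ℝ) + 2) ^ 2 * M ^ k), by positivity, fun ε ε' y hε hε' => ?_⟩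
  obtain ⟨h1, h2⟩ := hQ ε y hε
  obtain ⟨h1', h2'⟩ := hQ ε' y hε'
  have e0 : Qf k y + ε' y + (ε y - ε' y) = Qf k y + ε y := by ring
  have h3 := Nlb_T2 (x := ε y - ε' y) h2' (by rw [e0]; exact h2) k
  rw [e0] at h3
  have h4 := Nlb_T1 h1' h2' k
  have hk1 : (0 : ℝ) < (k : ℝ) + 1 := by positivity
  have hk2 : (0 : ℝ) < (k : ℝ) + 2 := by positivity
  have hk0 : (0 : ℝ) ≤ (k : ℝ) := Nat.cast_nonneg k
  have e1 : bF k ε y - bF k ε' y =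
      (((Qf k y + ε y) ^ (k + 2) - (Qf k y + ε' y) ^ (k + 2)
          - ((k : ℝ) + 2) * (Qf k y + ε' y) ^ (k + 1) * (ε y - ε' y))
        + ((k : ℝ) + 2) * ((Qf k y + ε' y) ^ (k + 1) - Qf k y ^ (k + 1)) * (ε y - ε' y))
        / (((k : ℝ) + 1) * ((k : ℝ) + 2)) := by
    rw [Nlb_bF_eq, Nlb_bF_eq]
    field_simp
    ring
  rw [e1, abs_div, abs_of_pos (mul_pos hk1 hk2)]
  refine (div_le_self (abs_nonneg _) (by nlinarith)).trans ?_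
  refine (abs_add_le _ _).trans ?_
  have hA : ((k : ℝ) + 2) ^ 2 * M ^ k * (ε y - ε' y) ^ 2 ≤
      ((k : ℝ) + 2) ^ 2 * M ^ k * (|ε y - ε' y| * (|ε y| + |ε' y|)) := by
    apply mul_le_mul_of_nonneg_left _ (by positivity)
    rw [← sq_abs, sq]
    exact mul_le_mul_of_nonneg_left (abs_sub (ε y) (ε' y)) (abs_nonneg _)
  have hB : |((k : ℝ) + 2) * ((Qf k y + ε' y) ^ (k + 1) - Qf k y ^ (k + 1)) * (ε y - ε' y)| ≤
      ((k : ℝ) + 2) ^ 2 * M ^ k * (|ε y - ε' y| * (|ε y| + |ε' y|)) := by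
    rw [abs_mul, abs_mul, abs_of_pos hk2]
    calc _ ≤ ((k : ℝ) + 2) * (((k : ℝ) + 1) * M ^ k * |ε' y|) * |ε y - ε' y| := by gcongr
      _ ≤ ((k : ℝ) + 2) * (((k : ℝ) + 2) * M ^ k * (|ε y| + |ε' y|)) * |ε y - ε' y| := by
          have : 0 ≤ |ε y| := abs_nonneg _
          gcongr <;> linarith
      _ = _ := by ring
  calc _ ≤ _ := add_le_add (h3.trans hA) hB
    _ = _ := by ring

end H98KB
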