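import Pool.Agent.H98.KB.Coc
import Pool.Agent.H98.KB.Nlb
import Pool.Agent.H98.KB.Wts
import Pool.Agent.H98.KB.IfG

/-!
# Cos : coercivity of the energy `Ef`

Let `r = √om` (smooth, positive), `F = r ε ∈ Cl (p-ρ) (q+..)` (positive rates), `|r'| ≤ r/B` (`r'/r = om'/(2om)`, `om1_le`).
`Ef = (1/2)∫om(ε'²+ε²-Q^kε²) - ∫om(bF-(1/2)Q^kε²)`, second integral `≤ Cν∫omε²` (`bF_cub`).
`r ε' = F' - (r'/r)F`: `omε'² ≥ (1-1/B)F'² - (C/B)F²` so `∫om(ε'²+ε²-Q^kε²) ≥ ∫(F'²+F²-Q^kF²) - (C/B)∫(F²+F'²)`.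
`L_coer` for `F`.  `ip F φ₀ = r(0) ip ε φ₀ + ∫ F (1-r(0)/r) φ₀`, `|1-r(0)/r(y)| ≤ (|y|/B) e^{|y|/B}` (because `|(log r)'| ≤ 1/B`), so
`|ip F φ₀ - r(0) ip ε φ₀| ≤ (C/B)|F|_{L²}`; same for `Q'`.  `r(0)² = om 0 = 1/2`.  Also `∫(F²+F'²) ≥ (1/2)∫om(ε²+ε'²)`.
Take `B ≥ B₁` large, `ν` small.  Upper bound: `|bF| ≤ Cε²` for `|ε| ≤ 1`.
(To see `F` in `Cl`: `√om = √Th · e^{ρy}`; alternatively avoid `√om ∈ Cl` by `r := 1/√(e^{-2ρy}+e^{-(2ρ+1/B)y})`; since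
`Th = 1/(1+e^{-y/B})`, `√Th = (1+e^{-y/B})^{-1/2}`, derivative `(1/(2B))(1-Th)√Th`: bootstrap with `Cl_of_deriv`.)
-/

open MeasureTheory Filter Topology Set
open scoped ContDiff

namespace H98KB

/-- the square root of the weight -/
noncomputable def Cos_r (B ρ : ℝ) (y : ℝ) : ℝ := √(om B ρ y)

/-- logarithmic derivative of `Cos_r` -/
noncomputable def Cos_h (B ρ : ℝ) (y : ℝ) : ℝ := 1 / 2 * ((1 - Th B y) / B + 2 * ρ)

theorem Cos_r_pos (B ρ y : ℝ) : 0 < Cos_r B ρ y := Real.sqrt_pos.2 (om_pos B ρ y)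

theorem Cos_r_sq (B ρ y : ℝ) : Cos_r B ρ y ^ 2 = om B ρ y := Real.sq_sqrt (om_pos B ρ y).le

theorem Cos_r_hd {B : ℝ} (hB : 0 < B) (ρ y : ℝ) :
    HasDerivAt (Cos_r B ρ) (Cos_h B ρ y * Cos_r B ρ y) y := by
  have h1 := (om_hd hB ρ y).sqrt (om_pos B ρ y).ne'
  have h2 : Cos_r B ρ = fun y => √(om B ρ y) := rfl
  rw [h2]
  refine h1.congr_deriv ?_
  have h3 : √(om B ρ y) ≠ 0 := (Cos_r_pos B ρ y).ne'
  have h4 : (Th B y * (1 - Th B y) / B + 2 * ρ * Th B y) * Real.exp (2 * ρ * y) =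
      ((1 - Th B y) / B + 2 * ρ) * om B ρ y := by
    unfold om
    ring
  have h5 : om B ρ y = √(om B ρ y) * √(om B ρ y) := (Real.mul_self_sqrt (om_pos B ρ y).le).symm
  rw [h4, div_eq_iff (by positivity)]
  unfold Cos_h
  nth_rewrite 1 [h5]
  ring

theorem Cos_h_nonneg {B ρ : ℝ} (h : Slow B ρ) (y : ℝ) : 0 ≤ Cos_h B ρ y := by
  obtain ⟨h1, h2, h3⟩ := h
  have h4 := Th_lt_one B y
  unfold Cos_h
  have : 0 ≤ (1 - Th B y) / B := div_nonneg (by linarith) (by linarith)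
  linarith

theorem Cos_h_le {B ρ : ℝ} (h : Slow B ρ) (y : ℝ) : Cos_h B ρ y ≤ 1 / B := by
  obtain ⟨h1, h2, h3⟩ := h
  have hB : 0 < B := by linarith
  have h4 := Th_pos B y
  unfold Cos_h
  have h5 : (1 - Th B y) / B ≤ 1 / B := div_le_div_of_nonneg_right (by linarith) hB.le
  have h6 : 4 * ρ ≤ 1 / B := by
    rw [le_div_iff₀ hB]
    exact h3
  linarith

theorem Cos_Cl_h {B : ℝ} (hB : 0 < B) (ρ : ℝ) : Cl 0 0 (Cos_h B ρ) := by
  have h1 : Cl 0 0 (Th B) := Cl_mono (Cl_Th hB) le_rfl (by positivity)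
  have h2 := Cl_sub (Cl_const (1 / 2 * (1 / B + 2 * ρ))) (Cl_smul (1 / (2 * B)) h1)
  have e : Cos_h B ρ = fun y => 1 / 2 * (1 / B + 2 * ρ) - 1 / (2 * B) * Th B y := by
    funext y
    unfold Cos_h
    field_simp
    ring
  rw [e]
  exact h2

theorem Cos_bd_half (p q y : ℝ) : √(bd p q y) = bd (p / 2) (q / 2) y := by
  have h : bd (p / 2) (q / 2) y * bd (p / 2) (q / 2) y = bd p q y := by
    rw [bd_mul]
    congr 1 <;> ring
  rw [← h, Real.sqrt_mul_self (bd_pos _ _ _).le]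

theorem Cos_smooth {B : ℝ} (hB : 0 < B) (ρ : ℝ) : ContDiff ℝ ∞ (Cos_r B ρ) :=
  (Cl_om hB ρ).1.sqrt (fun y => (om_pos B ρ y).ne')

theorem Cos_iter {B : ℝ} (hB : 0 < B) (ρ : ℝ) (j : ℕ) :
    ∃ P : ℝ → ℝ, Cl 0 0 P ∧ ∀ y, iteratedDeriv j (Cos_r B ρ) y = P y * Cos_r B ρ y := by
  induction j with
  | zero => exact ⟨fun _ => 1, Cl_const 1, fun y => by simp⟩
  | succ j ih =>
    obtain ⟨P, hP, hj⟩ := ih
    refine ⟨fun y => deriv P y + P y * Cos_h B ρ y, Cl_add (Cl_der hP)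
      (Cl_mul0 hP (Cos_Cl_h hB ρ)), fun y => ?_⟩
    rw [iteratedDeriv_succ]
    have e : iteratedDeriv j (Cos_r B ρ) = fun y => P y * Cos_r B ρ y := funext hj
    rw [e]
    have h := ((Cl_hd hP y).mul (Cos_r_hd hB ρ y)).deriv
    have h' : deriv (fun y => P y * Cos_r B ρ y) y =
        deriv P y * Cos_r B ρ y + P y * (Cos_h B ρ y * Cos_r B ρ y) := h
    rw [h']
    ring

theorem Cos_Cl_r {B : ℝ} (hB : 0 < B) (ρ : ℝ) :
    Cl (-(2 * ρ) / 2) ((2 * ρ + 1 / B) / 2) (Cos_r B ρ) := by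
  refine ⟨Cos_smooth hB ρ, fun j => ?_⟩
  obtain ⟨P, hP, hj⟩ := Cos_iter hB ρ j
  obtain ⟨A, hA0, hA⟩ := Cl_bnd hP
  obtain ⟨D, hD0, hD⟩ := Cl_bnd (Cl_om hB ρ)
  refine ⟨A * √D, fun y => ?_⟩
  rw [hj, abs_mul, mul_assoc]
  have h1 : |P y| ≤ A := by
    have := hA y
    rwa [bd_zero, mul_one] at this
  have h2 : |Cos_r B ρ y| ≤ √D * bd (-(2 * ρ) / 2) ((2 * ρ + 1 / B) / 2) y := by
    rw [abs_of_pos (Cos_r_pos B ρ y), ← Cos_bd_half, ← Real.sqrt_mul hD0]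
    exact Real.sqrt_le_sqrt ((le_abs_self _).trans (hD y))
  exact mul_le_mul h1 h2 (abs_nonneg _) hA0

theorem Cos_r_mono {B ρ : ℝ} (h : Slow B ρ) : Monotone (Cos_r B ρ) := by
  have hB : 0 < B := by linarith [h.1]
  refine monotone_of_deriv_nonneg (fun y => (Cos_r_hd hB ρ y).differentiableAt) (fun y => ?_)
  rw [(Cos_r_hd hB ρ y).deriv]
  exact mul_nonneg (Cos_h_nonneg h y) (Cos_r_pos B ρ y).le

theorem Cos_r_anti {B ρ : ℝ} (h : Slow B ρ) :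
    Antitone (fun y => Real.exp (-(1 / B * y)) * Cos_r B ρ y) := by
  have hB : 0 < B := by linarith [h.1]
  have hd : ∀ y, HasDerivAt (fun y => Real.exp (-(1 / B * y)) * Cos_r B ρ y)
      (Real.exp (-(1 / B * y)) * (-(1 / B)) * Cos_r B ρ y +
        Real.exp (-(1 / B * y)) * (Cos_h B ρ y * Cos_r B ρ y)) y := by
    intro y
    have h1 : HasDerivAt (fun y : ℝ => -(1 / B * y)) (-(1 / B)) y := by
      have h0 := ((hasDerivAt_id y).const_mul (1 / B)).neg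
      rw [mul_one] at h0
      exact h0
    exact h1.exp.mul (Cos_r_hd hB ρ y)
  refine antitone_of_deriv_nonpos (fun y => (hd y).differentiableAt) (fun y => ?_)
  rw [(hd y).deriv]
  have h1 := Cos_h_le h y
  have h2 : 0 ≤ Real.exp (-(1 / B * y)) * Cos_r B ρ y :=
    mul_nonneg (Real.exp_pos _).le (Cos_r_pos B ρ y).le
  nlinarith

theorem Cos_exp_le (t : ℝ) : Real.exp t - 1 ≤ t * Real.exp t := by
  have h1 := Real.add_one_le_exp (-t)
  have h2 : Real.exp (-t) * Real.exp t = 1 := by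
    rw [← Real.exp_add]
    simp
  nlinarith [Real.exp_pos t]

theorem Cos_ratio {B ρ : ℝ} (h : Slow B ρ) (y : ℝ) :
    |1 - Cos_r B ρ 0 / Cos_r B ρ y| ≤ 1 / B * (|y| * Real.exp (|y| / 16)) := by
  have hB : 0 < B := by linarith [h.1]
  have hr := Cos_r_pos B ρ y
  have hr0 := Cos_r_pos B ρ 0
  have hexp : Real.exp (1 / B * |y|) ≤ Real.exp (|y| / 16) := by
    refine Real.exp_le_exp.2 ?_
    have h1 : 1 / B ≤ 1 / 16 := one_div_le_one_div_of_le (by norm_num) h.1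
    have := mul_le_mul_of_nonneg_right h1 (abs_nonneg y)
    linarith
  have hy0 : 0 ≤ |y| := abs_nonneg y
  have hBi : 0 < 1 / B := by positivity
  have key : 1 / B * |y| * Real.exp (1 / B * |y|) ≤ 1 / B * (|y| * Real.exp (|y| / 16)) := by
    rw [mul_assoc]
    exact mul_le_mul_of_nonneg_left (mul_le_mul_of_nonneg_left hexp hy0) hBi.le
  refine le_trans ?_ key
  have e0 : Real.exp (-(1 / B * 0)) * Cos_r B ρ 0 = Cos_r B ρ 0 := by simp
  rcases le_total 0 y with hy | hy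
  · have m1 := Cos_r_mono h hy
    have m2 : Real.exp (-(1 / B * y)) * Cos_r B ρ y ≤ Real.exp (-(1 / B * 0)) * Cos_r B ρ 0 :=
      Cos_r_anti h hy
    rw [e0] at m2
    have q1 : Cos_r B ρ 0 / Cos_r B ρ y ≤ 1 := (div_le_one hr).2 m1
    have q2 : Real.exp (-(1 / B * y)) ≤ Cos_r B ρ 0 / Cos_r B ρ y := (le_div_iff₀ hr).2 m2
    rw [abs_of_nonneg (by linarith), abs_of_nonneg hy]
    have h3 := Real.add_one_le_exp (-(1 / B * y))
    have h4 : 1 ≤ Real.exp (1 / B * y) := Real.one_le_exp (by positivity)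
    have h5 : 0 ≤ 1 / B * y := by positivity
    (first | linarith only [h3, h4, q1, q2] | nlinarith only [h3, h4, q1, q2])
  · have m1 := Cos_r_mono h hy
    have m2 : Real.exp (-(1 / B * 0)) * Cos_r B ρ 0 ≤ Real.exp (-(1 / B * y)) * Cos_r B ρ y :=
      Cos_r_anti h hy
    rw [e0] at m2
    have q1 : 1 ≤ Cos_r B ρ 0 / Cos_r B ρ y := (one_le_div hr).2 m1
    have q2 : Cos_r B ρ 0 / Cos_r B ρ y ≤ Real.exp (-(1 / B * y)) := (div_le_iff₀ hr).2 m2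
    rw [abs_of_nonpos (by linarith), abs_of_nonpos hy]
    have h3 := Cos_exp_le (1 / B * -y)
    have e1 : -(1 / B * y) = 1 / B * -y := by ring
    rw [e1] at q2
    linarith

/-- the weight `(|y| e^{|y|/16} e^{-|y|})²` is integrable -/
theorem Cos_w_int : Integrable (fun y : ℝ => (|y| * Real.exp (|y| / 16) * bd 1 1 y) ^ 2) := by
  refine int_of_bd (p := 1 / 2) (q := 1 / 2) (((continuous_abs.mul (by fun_prop)).mul
    (bd_cont 1 1)).pow 2) (by norm_num) (by norm_num) ⟨16, fun y => ?_⟩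
  rw [abs_of_nonneg (sq_nonneg _), bd_abs, bd_abs]
  have h1 : |y| ≤ 4 * Real.exp (|y| / 4) := by
    have := Real.add_one_le_exp (|y| / 4)
    linarith
  have h0 : 0 ≤ |y| := abs_nonneg y
  have h2 : |y| * Real.exp (|y| / 16) * Real.exp (-(1 * |y|)) ≤
      4 * Real.exp (-(1 / 4 * |y|)) := by
    have h3 : Real.exp (|y| / 16) * Real.exp (-(1 * |y|)) = Real.exp (-(15 / 16 * |y|)) := by
      rw [← Real.exp_add]
      congr 1
      ring
    rw [mul_assoc, h3]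
    calc |y| * Real.exp (-(15 / 16 * |y|)) ≤ 4 * Real.exp (|y| / 4) * Real.exp (-(15 / 16 * |y|)) :=
          mul_le_mul_of_nonneg_right h1 (Real.exp_pos _).le
      _ = 4 * Real.exp (-(11 / 16 * |y|)) := by
          rw [mul_assoc, ← Real.exp_add]
          congr 2
          ring
      _ ≤ 4 * Real.exp (-(1 / 4 * |y|)) := by
          refine mul_le_mul_of_nonneg_left (Real.exp_le_exp.2 ?_) (by norm_num)
          linarith
  have h4 : 0 ≤ |y| * Real.exp (|y| / 16) * Real.exp (-(1 * |y|)) := by positivity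
  calc (|y| * Real.exp (|y| / 16) * Real.exp (-(1 * |y|))) ^ 2 ≤ (4 * Real.exp (-(1 / 4 * |y|))) ^ 2 :=
        pow_le_pow_left₀ h4 h2 2
    _ = 16 * Real.exp (-(1 / 2 * |y|)) := by
        rw [mul_pow, ← Real.exp_nat_mul]
        norm_num
        ring_nf

/-- change of the test function -/
theorem Cos_ip {φ : ℝ → ℝ} (hφ : Cl 1 1 φ) : ∃ K : ℝ, 0 ≤ K ∧ ∀ B ρ : ℝ, Slow B ρ →
    ∀ (p q : ℝ) (ε : ℝ → ℝ), Adm ρ p q ε →
    (ip (fun y => Cos_r B ρ y * ε y) φ) ^ 2 ≤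
      (ip ε φ) ^ 2 + K / B * ∫ y, (Cos_r B ρ y * ε y) ^ 2 := by
  obtain ⟨A, hA0, hA⟩ := Cl_bnd hφ
  refine ⟨2 * (A ^ 2 * ∫ y, (|y| * Real.exp (|y| / 16) * bd 1 1 y) ^ 2), ?_, ?_⟩
  · have : 0 ≤ ∫ y, (|y| * Real.exp (|y| / 16) * bd 1 1 y) ^ 2 :=
      integral_nonneg (fun y => sq_nonneg _)
    positivity
  intro B ρ h p q ε hε
  obtain ⟨hp1, hp2, hq1, hq2, hcl⟩ := hε
  have hB : 0 < B := by linarith [h.1]
  have hρ : 0 < ρ := h.2.1
  have hBi : 0 < 1 / B := by positivity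
  have hF := Cl_mul (Cos_Cl_r hB ρ) hcl
  have hp' : 0 < -(2 * ρ) / 2 + p := by linarith
  have hq' : 0 < (2 * ρ + 1 / B) / 2 + q := by linarith
  set F : ℝ → ℝ := fun y => Cos_r B ρ y * ε y with hFdef
  have hFφ := Cl_int (Cl_mul hF hφ) (by linarith) (by linarith)
  have hεφ := Cl_int (Cl_mul hcl hφ) (by linarith) (by linarith)
  have hF2 : Integrable (fun y => F y ^ 2) := by
    have := Cl_int (Cl_mul hF hF) (by linarith) (by linarith)
    refine this.congr (Eventually.of_forall fun y => ?_)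
    show F y * F y = F y ^ 2
    ring
  set G : ℝ → ℝ := fun y => φ y * (1 - Cos_r B ρ 0 / Cos_r B ρ y) with hG
  have hGc : Continuous G := by
    refine (Cl_cont hφ).mul (continuous_const.sub (continuous_const.div ?_ ?_))
    · exact (Cos_smooth hB ρ).continuous
    · exact fun y => (Cos_r_pos B ρ y).ne'
  have hGle : ∀ y, G y ^ 2 ≤ (1 / B) ^ 2 * (A ^ 2 * (|y| * Real.exp (|y| / 16) * bd 1 1 y) ^ 2) := by
    intro y
    have h1 : |G y| ≤ 1 / B * (A * (|y| * Real.exp (|y| / 16) * bd 1 1 y)) := by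
      rw [hG]
      show |φ y * (1 - Cos_r B ρ 0 / Cos_r B ρ y)| ≤ _
      rw [abs_mul]
      calc |φ y| * |1 - Cos_r B ρ 0 / Cos_r B ρ y| ≤
            (A * bd 1 1 y) * (1 / B * (|y| * Real.exp (|y| / 16))) :=
            mul_le_mul (hA y) (Cos_ratio h y) (abs_nonneg _) (mul_nonneg hA0 (bd_pos _ _ _).le)
        _ = 1 / B * (A * (|y| * Real.exp (|y| / 16) * bd 1 1 y)) := by ring
    calc G y ^ 2 = |G y| ^ 2 := (sq_abs _).symm
      _ ≤ (1 / B * (A * (|y| * Real.exp (|y| / 16) * bd 1 1 y))) ^ 2 :=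
          pow_le_pow_left₀ (abs_nonneg _) h1 2
      _ = (1 / B) ^ 2 * (A ^ 2 * (|y| * Real.exp (|y| / 16) * bd 1 1 y) ^ 2) := by ring
  have hWi : Integrable (fun y : ℝ => (1 / B) ^ 2 *
      (A ^ 2 * (|y| * Real.exp (|y| / 16) * bd 1 1 y) ^ 2)) :=
    (Cos_w_int.const_mul (A ^ 2)).const_mul ((1 / B) ^ 2)
  have hG2 : Integrable (fun y => G y ^ 2) := by
    refine hWi.mono' (hGc.pow 2).aestronglyMeasurable (Eventually.of_forall fun y => ?_)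
    rw [Real.norm_eq_abs, abs_of_nonneg (sq_nonneg _)]
    exact hGle y
  have hG2le : ∫ y, G y ^ 2 ≤ (1 / B) ^ 2 *
      (A ^ 2 * ∫ y, (|y| * Real.exp (|y| / 16) * bd 1 1 y) ^ 2) := by
    refine (integral_mono hG2 hWi hGle).trans (le_of_eq ?_)
    rw [integral_const_mul, integral_const_mul]
  obtain ⟨-, hcs⟩ := cs_int (Cl_cont hF) hGc hF2 hG2
  have hdiff : ip F φ - Cos_r B ρ 0 * ip ε φ = ∫ y, F y * G y := by
    unfold ip
    rw [← integral_const_mul, ← integral_sub hFφ (hεφ.const_mul _)]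
    refine integral_congr_ae (Eventually.of_forall fun y => ?_)
    show F y * φ y - Cos_r B ρ 0 * (ε y * φ y) = F y * (φ y * (1 - Cos_r B ρ 0 / Cos_r B ρ y))
    rw [hFdef]
    have hr := (Cos_r_pos B ρ y).ne'
    show Cos_r B ρ y * ε y * φ y - Cos_r B ρ 0 * (ε y * φ y) =
      Cos_r B ρ y * ε y * (φ y * (1 - Cos_r B ρ 0 / Cos_r B ρ y))
    field_simp
  have hr0 : Cos_r B ρ 0 ^ 2 = 1 / 2 := by
    rw [Cos_r_sq]
    unfold om Th
    norm_num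
  have hsq : (ip F φ - Cos_r B ρ 0 * ip ε φ) ^ 2 ≤ (∫ y, F y ^ 2) * ∫ y, G y ^ 2 := by
    rw [hdiff, ← sq_abs]
    calc |∫ y, F y * G y| ^ 2 ≤ (√(∫ y, F y ^ 2) * √(∫ y, G y ^ 2)) ^ 2 :=
          pow_le_pow_left₀ (abs_nonneg _) hcs 2
      _ = (∫ y, F y ^ 2) * ∫ y, G y ^ 2 := by
          rw [mul_pow, Real.sq_sqrt (integral_nonneg fun y => sq_nonneg _),
            Real.sq_sqrt (integral_nonneg fun y => sq_nonneg _)]
  have hF0 : 0 ≤ ∫ y, F y ^ 2 := integral_nonneg fun y => sq_nonneg _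
  have hW0 : 0 ≤ A ^ 2 * ∫ y, (|y| * Real.exp (|y| / 16) * bd 1 1 y) ^ 2 :=
    mul_nonneg (sq_nonneg _) (integral_nonneg fun y => sq_nonneg _)
  set W := A ^ 2 * ∫ y, (|y| * Real.exp (|y| / 16) * bd 1 1 y) ^ 2 with hWdef
  have hB2 : (1 / B) ^ 2 ≤ 1 / B := by
    have : 1 / B ≤ 1 := by
      rw [div_le_one hB]
      linarith [h.1]
    (first | linarith only [hBi, hp1, hp2, hρ, this] | nlinarith only [hBi, hp1, hp2, hρ, this])
  have h9 : (∫ y, F y ^ 2) * ∫ y, G y ^ 2 ≤ 1 / B * W * ∫ y, F y ^ 2 := by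
    have : ∫ y, G y ^ 2 ≤ 1 / B * W := hG2le.trans (mul_le_mul_of_nonneg_right hB2 hW0)
    (first | linarith only [hF0, hp1, hp2, hρ, this] | nlinarith only [hF0, hp1, hp2, hρ, this])
  have h10 : (ip F φ) ^ 2 ≤ 2 * (Cos_r B ρ 0 * ip ε φ) ^ 2 +
      2 * (ip F φ - Cos_r B ρ 0 * ip ε φ) ^ 2 := by
    (first | linarith only [sq_nonneg (ip F φ - 2 * (Cos_r B ρ 0 * ip ε φ))] | nlinarith only [sq_nonneg (ip F φ - 2 * (Cos_r B ρ 0 * ip ε φ))])
  have h11 : (Cos_r B ρ 0 * ip ε φ) ^ 2 = 1 / 2 * (ip ε φ) ^ 2 := by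
    rw [mul_pow, hr0]
  have h12 : 2 * W / B * ∫ y, F y ^ 2 = 2 * (1 / B * W * ∫ y, F y ^ 2) := by ring
  rw [h11] at h10
  show (ip F φ) ^ 2 ≤ (ip ε φ) ^ 2 + 2 * W / B * ∫ y, F y ^ 2
  rw [h12]
  linarith

/-- lower bound of the quadratic form -/
theorem Cos_pt {δ a u v : ℝ} (hδ : 0 < δ) (ha : 0 ≤ a) (haδ : a ≤ δ) (hδ1 : δ ≤ 1) :
    (1 - δ) * u ^ 2 - δ * v ^ 2 ≤ (u - a * v) ^ 2 := by
  have h1 : 0 ≤ (δ * u - a * v) ^ 2 := sq_nonneg _
  have h2 : a ^ 2 ≤ δ ^ 2 := by nlinarith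
  have h3 : a ^ 2 * v ^ 2 ≤ δ ^ 2 * v ^ 2 := mul_le_mul_of_nonneg_right h2 (sq_nonneg v)
  have h4 : 0 ≤ δ * ((u - a * v) ^ 2 - ((1 - δ) * u ^ 2 - δ * v ^ 2)) := by
    nlinarith [mul_nonneg hδ.le (mul_nonneg (sq_nonneg a) (sq_nonneg v))]
  have h5 := nonneg_of_mul_nonneg_right h4 hδ
  linarith

theorem CO_E (k : ℕ) (hk : 5 ≤ k) : ∃ ν c C B₁ : ℝ, 0 < ν ∧ ν ≤ 1 ∧ 0 < c ∧ 0 < C ∧ 16 ≤ B₁ ∧
    ∀ B ρ : ℝ, Slow B ρ → B₁ ≤ B → ∀ (p q : ℝ) (ε : ℝ → ℝ), Adm ρ p q ε → (∀ y, |ε y| ≤ ν) →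
    c * Gn B ρ ε ≤ Ef k B ρ ε + C * ((ip ε (ph0 k)) ^ 2 + (ip ε (deriv (Qf k))) ^ 2) := by
  have hk1 : 1 ≤ k := by omega
  obtain ⟨c0, C0', hc0, hC0', hco⟩ := L_coer k (by omega)
  obtain ⟨C1, hC1, hcub⟩ := bF_cub k (by omega)
  have hph : Cl 1 1 (ph0 k) := by
    have hk0 : (0 : ℝ) ≤ (k : ℝ) := Nat.cast_nonneg k
    exact Cl_mono (Cl_ph0 hk1) (by linarith) (by linarith)
  obtain ⟨K1, hK1, hip1⟩ := Cos_ip hph
  obtain ⟨K2, hK2, hip2⟩ := Cos_ip (Cl_der (Cl_Qf hk1))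
  have hν0 : 0 < c0 / (8 * C1) := by positivity
  refine ⟨min 1 (c0 / (8 * C1)), c0 / 16, C0', 16 + 4 * C0' * (K1 + K2) / c0 + 4 / c0,
    lt_min one_pos hν0, min_le_left _ _, by positivity, hC0', ?_, ?_⟩
  · have : 0 ≤ 4 * C0' * (K1 + K2) / c0 := by positivity
    have : 0 ≤ 4 / c0 := by positivity
    linarith
  intro B ρ h hB1 p q ε hadm hεν
  have hadm' := hadm
  obtain ⟨hp1, hp2, hq1, hq2, hcl⟩ := hadm'
  have hB : 0 < B := by linarith [h.1]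
  have hρ : 0 < ρ := h.2.1
  have hBi : 0 < 1 / B := by positivity
  have hBi1 : 1 / B ≤ 1 := by
    rw [div_le_one hB]
    linarith [h.1]
  have hF := Cl_mul (Cos_Cl_r hB ρ) hcl
  have hp' : 0 < -(2 * ρ) / 2 + p := by linarith
  have hq' : 0 < (2 * ρ + 1 / B) / 2 + q := by linarith
  have hcoF := hco _ _ _ hp' hq' hF
  have hi1 := hip1 B ρ h p q ε hadm
  have hi2 := hip2 B ρ h p q ε hadm
  set F : ℝ → ℝ := fun y => Cos_r B ρ y * ε y with hFdef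
  have hFd : ∀ y, deriv F y = Cos_r B ρ y * deriv ε y + Cos_h B ρ y * F y := by
    intro y
    have := ((Cos_r_hd hB ρ y).mul (Cl_hd hcl y)).deriv
    have h' : deriv F y = Cos_h B ρ y * Cos_r B ρ y * ε y + Cos_r B ρ y * deriv ε y := this
    rw [h']
    show _ = Cos_r B ρ y * deriv ε y + Cos_h B ρ y * (Cos_r B ρ y * ε y)
    ring
  have hF2 : Integrable (fun y => F y ^ 2) := by
    refine (Cl_int (Cl_mul hF hF) (by linarith) (by linarith)).congr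
      (Eventually.of_forall fun y => ?_)
    show F y * F y = F y ^ 2
    ring
  have hFd2 : Integrable (fun y => deriv F y ^ 2) := by
    refine (Cl_int (Cl_mul (Cl_der hF) (Cl_der hF)) (by linarith) (by linarith)).congr
      (Eventually.of_forall fun y => ?_)
    show deriv F y * deriv F y = deriv F y ^ 2
    ring
  have hQF : Integrable (fun y => Qf k y ^ k * F y ^ 2) := by
    have hk0 : (0 : ℝ) ≤ (k : ℝ) := Nat.cast_nonneg k
    refine (Cl_int (Cl_mul (Cl_Qk hk1) (Cl_mul hF hF)) (by linarith) (by linarith)).congr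
      (Eventually.of_forall fun y => ?_)
    show Qf k y ^ k * (F y * F y) = Qf k y ^ k * F y ^ 2
    ring
  have hL : Integrable (fun y => om B ρ y * ((deriv ε y) ^ 2 + (ε y) ^ 2 - 2 * bF k ε y)) := by
    have h1 := Cl_mul (Cl_der hcl) (Cl_der hcl)
    have h2 := Cl_mul hcl hcl
    have h3 : Cl (p + p) (q + q) (bF k ε) :=
      Cl_mono (Cl_bF hk1 (by linarith) (by linarith) (by linarith) (by linarith) hcl)
        (by linarith) (by linarith)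
    have h4 := Cl_mul (Cl_om hB ρ) (Cl_sub (Cl_add h1 h2) (Cl_smul 2 h3))
    refine (Cl_int h4 (by linarith) (by linarith)).congr (Eventually.of_forall fun y => ?_)
    show om B ρ y * (deriv ε y * deriv ε y + ε y * ε y - 2 * bF k ε y) = _
    ring
  have hGi : Integrable (fun y => om B ρ y * ((ε y) ^ 2 + (deriv ε y) ^ 2)) := by
    have h1 := Cl_mul (Cl_der hcl) (Cl_der hcl)
    have h2 := Cl_mul hcl hcl
    have h4 := Cl_mul (Cl_om hB ρ) (Cl_add h2 h1)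
    refine (Cl_int h4 (by linarith) (by linarith)).congr (Eventually.of_forall fun y => ?_)
    show om B ρ y * (ε y * ε y + deriv ε y * deriv ε y) = _
    ring
  set ν := min 1 (c0 / (8 * C1)) with hν
  have hν1 : ν ≤ 1 := min_le_left _ _
  have hν2 : C1 * ν ≤ c0 / 8 := by
    have : ν ≤ c0 / (8 * C1) := min_le_right _ _
    calc C1 * ν ≤ C1 * (c0 / (8 * C1)) := mul_le_mul_of_nonneg_left this hC1.le
      _ = c0 / 8 := by
        field_simp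
  have hFsq : ∀ y, om B ρ y * (ε y) ^ 2 = F y ^ 2 := by
    intro y
    show om B ρ y * (ε y) ^ 2 = (Cos_r B ρ y * ε y) ^ 2
    rw [mul_pow, Cos_r_sq]
  have hFdsq : ∀ y, om B ρ y * (deriv ε y) ^ 2 = (deriv F y - Cos_h B ρ y * F y) ^ 2 := by
    intro y
    rw [hFd y, ← Cos_r_sq]
    ring
  -- pointwise lower bound
  have hpt : ∀ y, (deriv F y) ^ 2 + (F y) ^ 2 - Qf k y ^ k * (F y) ^ 2
      - (1 / B * ((F y) ^ 2 + (deriv F y) ^ 2) + 2 * (C1 * ν) * (F y) ^ 2) ≤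
      om B ρ y * ((deriv ε y) ^ 2 + (ε y) ^ 2 - 2 * bF k ε y) := by
    intro y
    have h1 := Cos_pt (δ := 1 / B) (a := Cos_h B ρ y) (u := deriv F y) (v := F y) hBi
      (Cos_h_nonneg h y) (Cos_h_le h y) hBi1
    have h2 := hcub ε y ((hεν y).trans hν1)
    have h3 : |ε y| ^ 3 ≤ ν * (ε y) ^ 2 := by
      have : |ε y| ^ 3 = |ε y| * (ε y) ^ 2 := by
        rw [← sq_abs (ε y)]
        ring
      rw [this]
      exact mul_le_mul_of_nonneg_right (hεν y) (sq_nonneg _)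
    have h4 : bF k ε y - 1 / 2 * (Qf k y ^ k * (ε y) ^ 2) ≤ C1 * ν * (ε y) ^ 2 := by
      refine (le_abs_self _).trans (h2.trans ?_)
      rw [mul_assoc]
      exact mul_le_mul_of_nonneg_left h3 hC1.le
    have h5 := mul_le_mul_of_nonneg_left h4 (om_pos B ρ y).le
    have e1 : om B ρ y * ((deriv ε y) ^ 2 + (ε y) ^ 2 - 2 * bF k ε y) =
        om B ρ y * (deriv ε y) ^ 2 + om B ρ y * (ε y) ^ 2
          - Qf k y ^ k * (om B ρ y * (ε y) ^ 2)
          - 2 * (om B ρ y * (bF k ε y - 1 / 2 * (Qf k y ^ k * (ε y) ^ 2))) := by ring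
    have e2 : om B ρ y * (C1 * ν * (ε y) ^ 2) = C1 * ν * (om B ρ y * (ε y) ^ 2) := by ring
    rw [e2] at h5
    rw [e1, hFdsq, hFsq]
    rw [hFsq] at h5
    linarith
  have hint := integral_mono (((hFd2.add hF2).sub hQF).sub
    (((hF2.add hFd2).const_mul (1 / B)).add (hF2.const_mul (2 * (C1 * ν))))) hL hpt
  have e3 : ∫ y, ((deriv F y) ^ 2 + (F y) ^ 2 - Qf k y ^ k * (F y) ^ 2
      - (1 / B * ((F y) ^ 2 + (deriv F y) ^ 2) + 2 * (C1 * ν) * (F y) ^ 2)) =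
      (∫ y, ((deriv F y) ^ 2 + (F y) ^ 2 - Qf k y ^ k * (F y) ^ 2))
      - (1 / B * (∫ y, ((F y) ^ 2 + (deriv F y) ^ 2)) + 2 * (C1 * ν) * ∫ y, (F y) ^ 2) := by
    have gA : Integrable (fun y => (deriv F y) ^ 2 + (F y) ^ 2 - Qf k y ^ k * (F y) ^ 2) :=
      (hFd2.add hF2).sub hQF
    have gB : Integrable (fun y => 1 / B * ((F y) ^ 2 + (deriv F y) ^ 2)) :=
      (hF2.add hFd2).const_mul (1 / B)
    have gC : Integrable (fun y => 2 * (C1 * ν) * (F y) ^ 2) := hF2.const_mul _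
    have gS : Integrable (fun y => 1 / B * ((F y) ^ 2 + (deriv F y) ^ 2)
        + 2 * (C1 * ν) * (F y) ^ 2) := gB.add gC
    rw [integral_sub gA gS, integral_add gB gC, integral_const_mul, integral_const_mul]
  have hint' : (∫ y, ((deriv F y) ^ 2 + (F y) ^ 2 - Qf k y ^ k * (F y) ^ 2))
      - (1 / B * (∫ y, ((F y) ^ 2 + (deriv F y) ^ 2)) + 2 * (C1 * ν) * ∫ y, (F y) ^ 2) ≤
      ∫ y, om B ρ y * ((deriv ε y) ^ 2 + (ε y) ^ 2 - 2 * bF k ε y) := by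
    rw [← e3]
    exact hint
  have hN2 : ∫ y, (F y) ^ 2 ≤ ∫ y, ((F y) ^ 2 + (deriv F y) ^ 2) :=
    integral_mono hF2 (hF2.add hFd2) (fun y => by
      show F y ^ 2 ≤ F y ^ 2 + deriv F y ^ 2
      linarith [sq_nonneg (deriv F y)])
  have hN20 : 0 ≤ ∫ y, (F y) ^ 2 := integral_nonneg fun y => sq_nonneg _
  have hG : Gn B ρ ε ≤ 2 * ∫ y, ((F y) ^ 2 + (deriv F y) ^ 2) := by
    unfold Gn
    rw [← integral_const_mul]
    refine integral_mono hGi ((hF2.add hFd2).const_mul 2) (fun y => ?_)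
    show om B ρ y * ((ε y) ^ 2 + (deriv ε y) ^ 2) ≤ 2 * (F y ^ 2 + deriv F y ^ 2)
    rw [mul_add, hFsq, hFdsq]
    have h1 := Cos_h_nonneg h y
    have h2 : Cos_h B ρ y ≤ 1 / 16 :=
      (Cos_h_le h y).trans (one_div_le_one_div_of_le (by norm_num) h.1)
    have h3 : Cos_h B ρ y ^ 2 ≤ 1 / 256 := by (first | linarith only [h1, h2, hp1, hp2, hρ] | nlinarith only [h1, h2, hp1, hp2, hρ])
    have h4 : Cos_h B ρ y ^ 2 * F y ^ 2 ≤ 1 / 256 * F y ^ 2 :=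
      mul_le_mul_of_nonneg_right h3 (sq_nonneg _)
    (first | linarith only [sq_nonneg (deriv F y + Cos_h B ρ y * F y), sq_nonneg (F y), h4] | nlinarith only [sq_nonneg (deriv F y + Cos_h B ρ y * F y), sq_nonneg (F y), h4])
  set N := ∫ y, ((F y) ^ 2 + (deriv F y) ^ 2) with hNdef
  set N2 := ∫ y, (F y) ^ 2 with hN2def
  set I1 := (ip ε (ph0 k)) ^ 2 with hI1
  set I2 := (ip ε (deriv (Qf k))) ^ 2 with hI2
  have hE : Ef k B ρ ε = 1 / 2 * ∫ y, om B ρ y * ((deriv ε y) ^ 2 + (ε y) ^ 2 - 2 * bF k ε y) := rfl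
  have hI0 : 0 ≤ I1 + I2 := add_nonneg (sq_nonneg _) (sq_nonneg _)
  have hN0 : 0 ≤ N := hN20.trans hN2
  -- smallness of the parameters
  have hb1 : C0' * ((K1 + K2) / B) ≤ c0 / 4 := by
    have h1 : 4 * C0' * (K1 + K2) / c0 ≤ B := by
      have : 0 ≤ 4 / c0 := by positivity
      linarith
    rw [div_le_iff₀ hc0] at h1
    rw [mul_div_assoc', div_le_iff₀ hB]
    linarith
  have hb2 : 1 / B ≤ c0 / 4 := by
    have h1 : 4 / c0 ≤ B := by
      have : 0 ≤ 4 * C0' * (K1 + K2) / c0 := by positivity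
      linarith
    rw [div_le_iff₀ hc0] at h1
    rw [div_le_iff₀ hB]
    linarith
  have hKN : (K1 + K2) / B * N2 ≤ (K1 + K2) / B * N :=
    mul_le_mul_of_nonneg_left hN2 (by positivity)
  have hs1 : C0' * ((K1 + K2) / B * N2) ≤ c0 / 4 * N := by
    calc C0' * ((K1 + K2) / B * N2) ≤ C0' * ((K1 + K2) / B * N) :=
          mul_le_mul_of_nonneg_left hKN hC0'.le
      _ = C0' * ((K1 + K2) / B) * N := by ring
      _ ≤ c0 / 4 * N := mul_le_mul_of_nonneg_right hb1 hN0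
  have hs2 : 1 / B * N ≤ c0 / 4 * N := mul_le_mul_of_nonneg_right hb2 hN0
  have hs3 : 2 * (C1 * ν) * N2 ≤ c0 / 4 * N := by
    have h1 : 2 * (C1 * ν) ≤ c0 / 4 := by linarith
    calc 2 * (C1 * ν) * N2 ≤ c0 / 4 * N2 := mul_le_mul_of_nonneg_right h1 hN20
      _ ≤ c0 / 4 * N := mul_le_mul_of_nonneg_left hN2 (by positivity)
  have hs4 : C0' * ((ip F (ph0 k)) ^ 2 + (ip F (deriv (Qf k))) ^ 2) ≤
      C0' * (I1 + I2) + C0' * ((K1 + K2) / B * N2) := by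
    rw [← mul_add]
    refine mul_le_mul_of_nonneg_left ?_ hC0'.le
    have e5 : (K1 + K2) / B * N2 = K1 / B * N2 + K2 / B * N2 := by ring
    rw [e5]
    linarith
  have hC0I : 0 ≤ C0' * (I1 + I2) := mul_nonneg hC0'.le hI0
  rw [hE]
  have hfin : c0 / 16 * Gn B ρ ε ≤ c0 / 8 * N := by
    calc c0 / 16 * Gn B ρ ε ≤ c0 / 16 * (2 * N) := mul_le_mul_of_nonneg_left hG (by positivity)
      _ = c0 / 8 * N := by ring
  linarith

end H98KB
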