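import Pool.Agent.H98.KB.Vid

/-!
# Vie (second half of Vid) : the virial form and its exact identities

`Hf k W v = ∫ (3/2)W'v'² + (1/2)(W'-W''')v² - (1/2)(W Q^k)' v²`.
* `vir_id`: `∫ W v L v' = ∫ W v(-v'''+v'-Q^kv') = -Hf k W v`
  (`W v v''' = (W v v'')' - W'v v'' - W v'v''`, etc.; the difference of the integrands is the derivative of
   `-(W v v'') + W' v v' ... `: find the primitive with coefficients
   `H = -W v v'' + W' v v' + (1/2) W v'² - (1/2) W'' v² + (1/2) W v² - (1/2) W Q^k v²` : check by `ring` that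
   `W v(-v'''+v'-Q^kv') + (3/2)W'v'²+(1/2)(W'-W''')v²-(1/2)(WQ^k)'v² = H'`).
* `vir_tanh`: with `t = th k`, `t'=κ(1-t²)`, `κ=k/2`, `Q^k=C0(1-t²)`, `C0=(k+1)(k+2)/2`:
  `(3/2)t'(v'+tv)² = (3/2)t'v'² + (3/2)(t't v²)' - (3/2)(t't)'v² + (3/2)t't²v²` and
  `-(3/2)(t't)'+(3/2)t't² = (1/2)(t'-t''') - (1/2)(tQ^k)'` is a polynomial identity in `t`
  (`t''=-2κ t t'`, `t'''=-2κ t'^2+4κ²t²t'`).
* `vir_split`: `vf k δ (Lε)' = L v' + Ed`, `v = vf k δ ε`, `Ed = δ Sm((Q^k)''v') - 2δ (Sm((Q^k)'v'))'`: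
  `(Lε) = v-δv''`, `L(w-δw'') = (Lw) - δ (Lw)'' - δ((Q^k)''w+2(Q^k)'w')` for `w=v'`, `Sm(x-δx'') = x`, and
  `(Q^k)''w+2(Q^k)'w' = 2((Q^k)'w)' - (Q^k)''w`.
-/

open MeasureTheory Filter Topology Set
open scoped ContDiff

namespace H98KB

variable {k : ℕ}

theorem Vie_PW (_hk : 1 ≤ k) {p q : ℝ} {P w : ℝ → ℝ} (hP : Cl k k P) (hw : Cl p q w) :
    Cl p q (fun z => P z * w z) := by
  have hk0 : (0 : ℝ) ≤ k := Nat.cast_nonneg k
  exact Cl_mono (Cl_mul hP hw) (by linarith) (by linarith)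

theorem Vie_alg (hk : 1 ≤ k) {p q : ℝ} {w : ℝ → ℝ} (hw : Cl p q w) (δ y : ℝ) :
    Lop k (fun y => w y - δ * deriv (deriv w) y) y =
      (Lop k w y + (-δ) * deriv (deriv (Lop k w)) y) +
      ((-(2 * δ)) * deriv (fun z => deriv (fun z => Qf k z ^ k) z * w z) y +
        δ * (deriv (deriv (fun z => Qf k z ^ k)) y * w y)) := by
  have hP := Cl_Qk hk
  have hP1 := Cl_der hP
  have hP2 := Cl_der hP1
  have hw1 := Cl_der hw
  have hw2 := Cl_der hw1
  have hw3 := Cl_der hw2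
  have hw4 := Cl_der hw3
  set P : ℝ → ℝ := fun z => Qf k z ^ k with hPdef
  have hL : ∀ f : ℝ → ℝ, Lop k f = fun y => -deriv (deriv f) y + f y - P y * f y :=
    fun f => rfl
  have a1 : deriv (fun y => w y - δ * deriv (deriv w) y) =
      fun y => deriv w y - δ * deriv (deriv (deriv w)) y := by
    funext z
    exact ((Cl_hd hw z).sub ((Cl_hd hw2 z).const_mul δ)).deriv
  have a2 : deriv (fun y => deriv w y - δ * deriv (deriv (deriv w)) y) =
      fun y => deriv (deriv w) y - δ * deriv (deriv (deriv (deriv w))) y := by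
    funext z
    exact ((Cl_hd hw1 z).sub ((Cl_hd hw3 z).const_mul δ)).deriv
  have b1 : deriv (fun y => -deriv (deriv w) y + w y - P y * w y) =
      fun y => -deriv (deriv (deriv w)) y + deriv w y - (deriv P y * w y + P y * deriv w y) := by
    funext z
    exact ((((Cl_hd hw2 z).neg).add (Cl_hd hw z)).sub ((Cl_hd hP z).mul (Cl_hd hw z))).deriv
  have b2 : deriv (fun y => -deriv (deriv (deriv w)) y + deriv w y -
      (deriv P y * w y + P y * deriv w y)) =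
      fun y => -deriv (deriv (deriv (deriv w))) y + deriv (deriv w) y -
        ((deriv (deriv P) y * w y + deriv P y * deriv w y) +
          (deriv P y * deriv w y + P y * deriv (deriv w) y)) := by
    funext z
    exact ((((Cl_hd hw3 z).neg).add (Cl_hd hw1 z)).sub
      (((Cl_hd hP1 z).mul (Cl_hd hw z)).add ((Cl_hd hP z).mul (Cl_hd hw1 z)))).deriv
  have c1 : deriv (fun z => deriv P z * w z) y = deriv (deriv P) y * w y +
      deriv P y * deriv w y := ((Cl_hd hP1 y).mul (Cl_hd hw y)).deriv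
  rw [c1, hL (fun y => w y - δ * deriv (deriv w) y), hL w, a1, a2, b1, b2]
  ring

theorem vir_split (hk : 1 ≤ k) {δ p q : ℝ} {ε : ℝ → ℝ} (hδ : 0 < δ) (hδ' : δ ≤ 1 / 16)
    (hp : |p| ≤ 2) (hq : |q| ≤ 2) (hε : Cl p q ε) (y : ℝ) :
    vf k δ (deriv (Lop k ε)) y = Lop k (deriv (vf k δ ε)) y + Ed k δ (vf k δ ε) y := by
  have hv := Cl_vf hk hδ hδ' hp hq hε
  set v := vf k δ ε with hvdef
  have hw := Cl_der hv
  have hLv : Lop k ε = fun y => v y - δ * deriv (deriv v) y :=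
    funext fun y => (vf_L hk hδ hδ' hp hq hε y).symm
  have hdL : deriv (Lop k ε) = fun y => deriv v y - δ * deriv (deriv (deriv v)) y := by
    rw [hLv]
    funext z
    exact ((Cl_hd hv z).sub ((Cl_hd (Cl_der hw) z).const_mul δ)).deriv
  have hP := Cl_Qk hk
  have hF : Cl p q (fun z => deriv (deriv (fun z => Qf k z ^ k)) z * deriv v z) :=
    Vie_PW hk (Cl_der (Cl_der hP)) hw
  have hG : Cl p q (fun z => deriv (fun z => Qf k z ^ k) z * deriv v z) :=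
    Vie_PW hk (Cl_der hP) hw
  have hx := Cl_Lop hk hw
  have hx2 := Cl_der (Cl_der hx)
  have hA := Cl_add hx (Cl_smul (-δ) hx2)
  have hB := Cl_add (Cl_smul (-(2 * δ)) (Cl_der hG)) (Cl_smul δ hF)
  have e1 : Lop k (fun y => deriv v y - δ * deriv (deriv (deriv v)) y) = fun y =>
      (Lop k (deriv v) y + (-δ) * deriv (deriv (Lop k (deriv v))) y) +
      ((-(2 * δ)) * deriv (fun z => deriv (fun z => Qf k z ^ k) z * deriv v z) y +
        δ * (deriv (deriv (fun z => Qf k z ^ k)) y * deriv v y)) :=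
    funext fun y => Vie_alg hk hw δ y
  have e2 : vf k δ (deriv (Lop k ε)) y = (Sm δ (Lop k (deriv v)) y +
      (-δ) * Sm δ (deriv (deriv (Lop k (deriv v)))) y) +
      ((-(2 * δ)) * Sm δ (deriv (fun z => deriv (fun z => Qf k z ^ k) z * deriv v z)) y +
        δ * Sm δ (fun z => deriv (deriv (fun z => Qf k z ^ k)) z * deriv v z) y) := by
    unfold vf
    rw [hdL, e1, Sm_add hδ hδ' hp hq hp hq hA hB,
      Sm_add hδ hδ' hp hq hp hq hx (Cl_smul (-δ) hx2),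
      Sm_add hδ hδ' hp hq hp hq (Cl_smul (-(2 * δ)) (Cl_der hG)) (Cl_smul δ hF),
      Sm_smul, Sm_smul, Sm_smul]
  have e3 : deriv (deriv (Sm δ (Lop k (deriv v)))) = Sm δ (deriv (deriv (Lop k (deriv v)))) := by
    rw [Sm_deriv hδ hδ' hp hq hx, Sm_deriv hδ hδ' hp hq (Cl_der hx)]
  have e4 := Sm_eq hδ hδ' hp hq hx y
  rw [e3] at e4
  unfold Ed
  rw [e2, Sm_deriv hδ hδ' hp hq hG, ← e4]
  ring

theorem Cl_Ed (hk : 1 ≤ k) {δ p q : ℝ} {v : ℝ → ℝ} (hδ : 0 < δ) (hδ' : δ ≤ 1 / 16)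
    (hp : |p| ≤ 2) (hq : |q| ≤ 2) (hv : Cl p q v) : Cl p q (Ed k δ v) := by
  have hw := Cl_der hv
  have hP := Cl_Qk hk
  have hF : Cl p q (fun z => deriv (deriv (fun z => Qf k z ^ k)) z * deriv v z) :=
    Vie_PW hk (Cl_der (Cl_der hP)) hw
  have hG : Cl p q (fun z => deriv (fun z => Qf k z ^ k) z * deriv v z) :=
    Vie_PW hk (Cl_der hP) hw
  exact Cl_sub (Cl_smul δ (Cl_Sm hδ hδ' hp hq hF))
    (Cl_smul (2 * δ) (Cl_der (Cl_Sm hδ hδ' hp hq hG)))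

theorem Cl_Gd (hk : 1 ≤ k) (δ : ℝ) {c : ℝ} (hc : c < 1) : Cl c c (Gd k δ) :=
  Cl_sub (Cl_LamQ hk hc) (Cl_smul δ (Cl_der (Cl_der (Cl_LamQ hk hc))))

theorem Cl_psi (k : ℕ) (η γ : ℝ) : Cl 0 0 (psi k η γ) :=
  Cl_add (Cl_th k) (Cl_smul η (Cl_tanh γ))

theorem Cl_Psi (k : ℕ) (η γ : ℝ) {B : ℝ} (hB : 0 < B) : Cl (2 / B) (2 / B) (Psi k η γ B) :=
  Cl_mul0 (Cl_psi k η γ) (Cl_ch hB)

theorem psi_abs {η : ℝ} (hη : 0 ≤ η) (γ y : ℝ) : |psi k η γ y| ≤ 1 + η := by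
  have h1 := th_abs_lt k y
  have h2 := tanh_abs_lt (γ * y)
  unfold psi
  calc |th k y + η * Real.tanh (γ * y)| ≤ |th k y| + |η * Real.tanh (γ * y)| := abs_add_le _ _
    _ = |th k y| + η * |Real.tanh (γ * y)| := by rw [abs_mul, abs_of_nonneg hη]
    _ ≤ 1 + η * 1 := add_le_add h1.le (mul_le_mul_of_nonneg_left h2.le hη)
    _ = 1 + η := by ring

end H98KB
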