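import Pool.Agent.H98.KB.Vie

/-!
# Vcu : cut-off of the virial weight (Lemma V5) and the commutator error (Lemma V6)

`ϱ = √χ = 1/cosh(y/B)`, `ϱ² = ch B`, `|ϱ'| ≤ ϱ/B`.  `ṽ = ϱ v`, `ṽ' = ϱ v'+ϱ' v`.
`cut_H`: `Hf k (ψ) (ϱv) = ∫χ[(3/2)ψ'v'²+(1/2)(ψ'-ψ''')v²-(1/2)(ψQ^k)'v²] + (3/2)∫ψ'(χ'vv'+ϱ'²v²)` and
`(ψχ)' = ψ'χ+ψχ'`, `(ψχ)''' = ψ'''χ+3ψ''χ'+3ψ'χ''+ψχ'''`, `(ψχQ^k)'=(ψQ^k)'χ+ψQ^kχ'`.  All functions
`ψ,ψ',ψ'',ψ''',Q^k` are bounded (constants depending on `k,η,γ`), `|χ'| ≤ (2/B)χ`, `|χ''| ≤ (8/B²)χ`, `|χ'''| ≤ (40/B³)χ`.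
Hence `|Hf k (ψχ) v - Hf k ψ (ϱv)| ≤ (C/B)∫χ(v²+v'²)`.
`cut_ip`: `ip (ϱv) G - ip v G = ∫ ϱ v (1-1/ϱ) G`, `|1-1/ϱ| = cosh(y/B)-1 ≤ (y²/(2B²))e^{|y|/B} ≤ (1/B) e^{|y|/4}·C`; Cauchy-Schwarz with
`w = se2 γ` (`γ ≤ 1/8`, `|G| ≤ C e^{-3|y|/4}`, uniformly in `δ ≤ 1/16`): `≤ (C/B)(∫ w (ϱv)²)^{1/2}`.
`cut_loc`: `∫loc(v²+v'²) ≤ 3∫w((ϱv)²+((ϱv)')²)` (`ϱv' = (ϱv)' - (ϱ'/ϱ)ϱv`).
`Ed_le`: `|∫ ψχ v Ed| ≤ C√δ ∫loc(v²+v'²)`:  first term: `δ|∫Ψ v Sm h| ≤ δ(1+η)(∫ wχ v²)^{1/2}(∫(χ/w)(Sm h)²)^{1/2}`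
with `h=(Q^k)''v'` and the weight `W=χ cosh²(γy) ∈ Cl`, `δ|W''| ≤ W/4` (`|W''| ≤ 4(2γ+2/B)²W ≤ W`, `δ ≤ 1/16`), so
`∫W(Sm h)² ≤ (4/3)∫W h² ≤ C∫ wχ v'²` because `|(Q^k)''| cosh²(γy) ≤ C`.  Second term the same with
`δ∫W((Sm h)')² ≤ ∫W h²`, which gives `2δ·δ^{-1/2} = 2√δ`.
-/

open MeasureTheory Filter Topology Set
open scoped ContDiff

namespace H98KB

/-- `sech(y/B)` -/
noncomputable def rh (B y : ℝ) : ℝ := 1 / Real.cosh (y / B)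

theorem Vcu_int {k : ℕ} (hk : 1 ≤ k) {p q : ℝ} {W v : ℝ → ℝ} (hW : Cl 0 0 W) (hv : Cl p q v)
    (hp : 0 < p) (hq : 0 < q) :
    Integrable (fun y => 3 / 2 * deriv W y * (deriv v y) ^ 2
      + 1 / 2 * (deriv W y - deriv (deriv (deriv W)) y) * (v y) ^ 2
      - 1 / 2 * deriv (fun z => W z * Qf k z ^ k) y * (v y) ^ 2) := by
  have hQ0 : Cl 0 0 (fun y => Qf k y ^ k) :=
    Cl_mono (Cl_Qk hk) (Nat.cast_nonneg k) (Nat.cast_nonneg k)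
  have hWQ : Cl 0 0 (fun z => W z * Qf k z ^ k) := Cl_mul0 hW hQ0
  have v2 : Cl (p + p) (q + q) (fun y => v y * v y) := Cl_mul hv hv
  have dv2 : Cl (p + p) (q + q) (fun y => deriv v y * deriv v y) := Cl_mul (Cl_der hv) (Cl_der hv)
  have h1 := Cl_mul0 (Cl_smul (3 / 2) (Cl_der hW)) dv2
  have h2 := Cl_mul0 (Cl_smul (1 / 2) (Cl_sub (Cl_der hW) (Cl_der (Cl_der (Cl_der hW))))) v2
  have h3 := Cl_mul0 (Cl_smul (1 / 2) (Cl_der hWQ)) v2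
  have h4 := Cl_int (Cl_sub (Cl_add h1 h2) h3) (by linarith) (by linarith)
  refine h4.congr (Eventually.of_forall fun y => ?_)
  simp only
  ring

theorem Vcu_rh {B : ℝ} (hB : 0 < B) : Cl (1 / B) (1 / B) (rh B) := by
  have h := Cl_sech (c := 1 / B) (by positivity)
  have e : rh B = fun y => 1 / Real.cosh (1 / B * y) := by
    funext y
    unfold rh
    rw [show y / B = 1 / B * y by ring]
  rw [e]
  exact h

theorem Vcu_rh_sq (B y : ℝ) : ch B y = rh B y * rh B y := by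
  unfold ch rh
  ring

/-- `ϱ' = -(1/B) tanh(y/B) ϱ` -/
theorem Vcu_rh_hd {B : ℝ} (y : ℝ) :
    HasDerivAt (rh B) (-(1 / B) * Real.tanh (y / B) * rh B y) y := by
  have h1 : HasDerivAt (fun y : ℝ => y / B) (1 / B) y := (hasDerivAt_id y).div_const B
  have h2 : HasDerivAt (fun y : ℝ => Real.cosh (y / B)) (Real.sinh (y / B) * (1 / B)) y :=
    (Real.hasDerivAt_cosh _).comp y h1
  have hc : Real.cosh (y / B) ≠ 0 := (Real.cosh_pos _).ne'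
  have h3 := h2.inv hc
  have e : rh B = fun y => (Real.cosh (y / B))⁻¹ := by
    funext y
    unfold rh
    rw [one_div]
  rw [e]
  refine h3.congr_deriv ?_
  rw [Real.tanh_eq_sinh_div_cosh]
  field_simp

theorem Vcu_est {B χ χ1 χ2 χ3 A0 A1 A2 q0 R1 v0 v1 K0 K1 K2 KQ : ℝ} (hB0 : 0 < B)
    (hc0 : 0 ≤ χ) (hK0 : 0 ≤ K0) (hK1 : 0 ≤ K1) (hK2 : 0 ≤ K2) (hKQ : 0 ≤ KQ)
    (b1 : |χ1| ≤ 2 / B * χ) (b2 : |χ2| ≤ 1 / B * χ) (b3 : |χ3| ≤ 1 / B * χ)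
    (hR1' : R1 ^ 2 ≤ 1 / B * χ) (a0 : |A0| ≤ K0) (a1 : |A1| ≤ K1) (a2 : |A2| ≤ K2)
    (aq : |q0| ≤ KQ) :
    |3 / 2 * A0 * χ1 * v1 ^ 2 + 1 / 2 * A0 * χ1 * v0 ^ 2 - 3 / 2 * A2 * χ1 * v0 ^ 2
        - 3 / 2 * A1 * χ2 * v0 ^ 2 - 1 / 2 * A0 * χ3 * v0 ^ 2 - 1 / 2 * A0 * q0 * χ1 * v0 ^ 2
        - 3 / 2 * A1 * χ1 * (v0 * v1) - 3 / 2 * A1 * R1 ^ 2 * v0 ^ 2| ≤
      (10 * (K0 + K1 + K2 + K0 * KQ) + 1) / B * (χ * (v0 ^ 2 + v1 ^ 2)) := by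
  have n2 : |v0 * v1| ≤ v0 ^ 2 + v1 ^ 2 := by
    rw [abs_le]
    constructor <;> nlinarith [sq_nonneg (v0 + v1), sq_nonneg (v0 - v1), sq_nonneg v0, sq_nonneg v1]
  have v0n : |v0 ^ 2| ≤ v0 ^ 2 + v1 ^ 2 := by
    rw [abs_of_nonneg (sq_nonneg _)]
    linarith [sq_nonneg v1]
  have v1n : |v1 ^ 2| ≤ v0 ^ 2 + v1 ^ 2 := by
    rw [abs_of_nonneg (sq_nonneg _)]
    linarith [sq_nonneg v0]
  have hN0 : 0 ≤ v0 ^ 2 + v1 ^ 2 := by positivity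
  have hY0 : 0 ≤ 1 / B * χ := by positivity
  have b1' : |χ1| ≤ 2 * (1 / B * χ) := b1.trans (le_of_eq (by ring))
  have g : (10 * (K0 + K1 + K2 + K0 * KQ) + 1) / B * (χ * (v0 ^ 2 + v1 ^ 2)) =
      (10 * (K0 + K1 + K2 + K0 * KQ) + 1) * ((1 / B * χ) * (v0 ^ 2 + v1 ^ 2)) := by
    ring
  rw [g]
  generalize v0 ^ 2 + v1 ^ 2 = N at n2 v0n v1n hN0 ⊢
  generalize 1 / B * χ = Y at hR1' b2 b3 b1' hY0 ⊢
  have M : ∀ {s t w S T : ℝ}, |s| ≤ S → |t| ≤ T → |w| ≤ N → |s * t * w| ≤ S * T * N := by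
    intro s t w S T hs ht hw'
    rw [abs_mul, abs_mul]
    have hS : 0 ≤ S := (abs_nonneg _).trans hs
    have hT : 0 ≤ T := (abs_nonneg _).trans ht
    gcongr
  have t1 := M a0 b1' v1n
  have t2 := M a0 b1' v0n
  have t3 := M a2 b1' v0n
  have t4 := M a1 b2 v0n
  have t5 := M a0 b3 v0n
  have t6 : |(A0 * q0) * χ1 * v0 ^ 2| ≤ (K0 * KQ) * (2 * Y) * N := by
    refine M ?_ b1' v0n
    rw [abs_mul]
    gcongr
  have t7 := M a1 b1' n2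
  have t8 : |A1 * R1 ^ 2 * v0 ^ 2| ≤ K1 * Y * N := by
    refine M a1 ?_ v0n
    rw [abs_of_nonneg (sq_nonneg _)]
    exact hR1'
  have z1 : 0 ≤ K0 * (Y * N) := by positivity
  have z2 : 0 ≤ K1 * (Y * N) := by positivity
  have z3 : 0 ≤ K2 * (Y * N) := by positivity
  have z4 : 0 ≤ K0 * KQ * (Y * N) := by positivity
  have z5 : 0 ≤ Y * N := by positivity
  rw [abs_le] at t1 t2 t3 t4 t5 t6 t7 t8 ⊢
  obtain ⟨l1, r1⟩ := t1
  obtain ⟨l2, r2⟩ := t2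
  obtain ⟨l3, r3⟩ := t3
  obtain ⟨l4, r4⟩ := t4
  obtain ⟨l5, r5⟩ := t5
  obtain ⟨l6, r6⟩ := t6
  obtain ⟨l7, r7⟩ := t7
  obtain ⟨l8, r8⟩ := t8
  constructor <;> linarith

theorem cut_H (k : ℕ) (hk : 1 ≤ k) (η γ : ℝ) : ∃ C : ℝ, 0 < C ∧ ∀ B : ℝ, 16 ≤ B →
    ∀ (p q : ℝ) (v : ℝ → ℝ), 0 < p → 0 < q → Cl p q v →
    |Hf k (Psi k η γ B) v - Hf k (psi k η γ) (fun y => rh B y * v y)| ≤
      C / B * ∫ y, ch B y * ((v y) ^ 2 + (deriv v y) ^ 2) := by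
  set a := psi k η γ with ha
  have h0 : Cl 0 0 a := Cl_psi k η γ
  have h1 := Cl_der h0
  have h2 := Cl_der h1
  have h3 := Cl_der h2
  obtain ⟨K0, hK0, k0⟩ := Cl_bnd h0
  obtain ⟨K1, hK1, k1⟩ := Cl_bnd h1
  obtain ⟨K2, hK2, k2⟩ := Cl_bnd h2
  have hQ0 : Cl 0 0 (fun y => Qf k y ^ k) :=
    Cl_mono (Cl_Qk hk) (Nat.cast_nonneg k) (Nat.cast_nonneg k)
  obtain ⟨KQ, hKQ, kQ⟩ := Cl_bnd hQ0
  simp only [bd_zero, mul_one] at k0 k1 k2 kQ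
  refine ⟨10 * (K0 + K1 + K2 + K0 * KQ) + 1, by positivity, ?_⟩
  intro B hB p q v hp hq hv
  have hB0 : 0 < B := by linarith
  have hB1 : 1 ≤ B := by linarith
  have c0 : Cl (2 / B) (2 / B) (ch B) := Cl_ch hB0
  have hPsi : Psi k η γ B = fun y => a y * ch B y := by
    funext y
    rfl
  have i1 := Vcu_int hk (Cl_mono (Cl_Psi k η γ hB0) (by positivity) (by positivity)) hv hp hq
  have r0 := Vcu_rh hB0
  have hw : Cl (1 / B + p) (1 / B + q) (fun y => rh B y * v y) := Cl_mul r0 hv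
  have i2 := Vcu_int hk h0 hw (by positivity) (by positivity)
  have i3 : Integrable (fun y => ch B y * ((v y) ^ 2 + (deriv v y) ^ 2)) := by
    have v2 : Cl (p + p) (q + q) (fun y => v y * v y) := Cl_mul hv hv
    have dv2 : Cl (p + p) (q + q) (fun y => deriv v y * deriv v y) :=
      Cl_mul (Cl_der hv) (Cl_der hv)
    have h4 := Cl_int (Cl_mul c0 (Cl_add v2 dv2)) (by positivity) (by positivity)
    refine h4.congr (Eventually.of_forall fun y => ?_)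
    simp only
    ring
  unfold Hf
  rw [← integral_sub i1 i2, ← integral_const_mul]
  refine (abs_integral_le_integral_abs).trans (integral_mono (i1.sub i2).abs (i3.const_mul _) ?_)
  intro y
  -- derivatives
  have d0 := fun y => Cl_hd h0 y
  have d1 := fun y => Cl_hd h1 y
  have d2 := fun y => Cl_hd h2 y
  have e0 := fun y => Cl_hd c0 y
  have e1 := fun y => Cl_hd (Cl_der c0) y
  have e2 := fun y => Cl_hd (Cl_der (Cl_der c0)) y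
  have P1 : deriv (Psi k η γ B) = fun y => deriv a y * ch B y + a y * deriv (ch B) y := by
    rw [hPsi]
    funext y
    exact ((d0 y).mul (e0 y)).deriv
  have P2 : deriv (deriv (Psi k η γ B)) = fun y => (deriv (deriv a) y * ch B y
      + deriv a y * deriv (ch B) y) + (deriv a y * deriv (ch B) y
      + a y * deriv (deriv (ch B)) y) := by
    rw [P1]
    funext y
    exact (((d1 y).mul (e0 y)).add ((d0 y).mul (e1 y))).deriv
  have P3 : deriv (deriv (deriv (Psi k η γ B))) y =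
      ((deriv (deriv (deriv a)) y * ch B y + deriv (deriv a) y * deriv (ch B) y)
        + (deriv (deriv a) y * deriv (ch B) y + deriv a y * deriv (deriv (ch B)) y))
      + ((deriv (deriv a) y * deriv (ch B) y + deriv a y * deriv (deriv (ch B)) y)
        + (deriv a y * deriv (deriv (ch B)) y + a y * deriv (deriv (deriv (ch B))) y)) := by
    rw [P2]
    exact ((((d2 y).mul (e0 y)).add ((d1 y).mul (e1 y))).add
      (((d1 y).mul (e1 y)).add ((d0 y).mul (e2 y)))).deriv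
  have PQ : deriv (fun z => Psi k η γ B z * Qf k z ^ k) y =
      deriv (fun z => a z * Qf k z ^ k) y * ch B y + (a y * Qf k y ^ k) * deriv (ch B) y := by
    have : (fun z => Psi k η γ B z * Qf k z ^ k) = fun z => (a z * Qf k z ^ k) * ch B z := by
      funext z
      rw [hPsi]
      ring
    rw [this]
    exact ((Cl_hd (Cl_mul0 h0 hQ0) y).mul (e0 y)).deriv
  -- the cut-off function
  set R : ℝ := rh B y with hR
  set R1 : ℝ := -(1 / B) * Real.tanh (y / B) * rh B y with hR1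
  have dR : HasDerivAt (rh B) R1 y := Vcu_rh_hd y
  have dv : HasDerivAt v (deriv v y) y := Cl_hd hv y
  have W1 : deriv (fun y => rh B y * v y) y = R1 * v y + R * deriv v y := (dR.mul dv).deriv
  have hc : ch B y = R * R := Vcu_rh_sq B y
  have hc1 : deriv (ch B) y = 2 * R * R1 := by
    have : ch B = fun y => rh B y * rh B y := funext fun y => Vcu_rh_sq B y
    rw [this]
    have := (dR.mul dR).deriv
    refine this.trans ?_
    rw [← hR]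
    ring
  have hR1' : R1 ^ 2 ≤ 1 / B * ch B y := by
    rw [hR1, hc, ← hR]
    have ht : (Real.tanh (y / B)) ^ 2 ≤ 1 := by
      have := (tanh_abs_lt (y / B)).le
      rw [← sq_abs]
      exact pow_le_one₀ (abs_nonneg _) this
    have hb : (1 / B) ^ 2 ≤ 1 / B := by
      have h5 : 1 / B ≤ 1 := by
        rw [div_le_one hB0]
        exact hB1
      have h6 : 0 ≤ 1 / B := by positivity
      (first | linarith only [h5, h6] | nlinarith only [h5, h6])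
    calc (-(1 / B) * Real.tanh (y / B) * R) ^ 2
        = (1 / B) ^ 2 * (Real.tanh (y / B)) ^ 2 * (R * R) := by ring
      _ ≤ (1 / B) * 1 * (R * R) := by
          have : 0 ≤ R * R := mul_self_nonneg R
          gcongr
      _ = _ := by ring
  have b1 : |deriv (ch B) y| ≤ 2 / B * ch B y := ch1_le hB1 y
  have b2 : |deriv (deriv (ch B)) y| ≤ 1 / B * ch B y := by
    refine (ch2_le hB1 y).trans ?_
    have hc0 : 0 ≤ ch B y := by rw [hc]; exact mul_self_nonneg R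
    refine mul_le_mul_of_nonneg_right ?_ hc0
    rw [div_le_div_iff₀ (by positivity) hB0]
    (first | linarith only [hB] | nlinarith only [hB])
  have b3 : |deriv (deriv (deriv (ch B))) y| ≤ 1 / B * ch B y := by
    refine (ch3_le hB1 y).trans ?_
    have hc0 : 0 ≤ ch B y := by rw [hc]; exact mul_self_nonneg R
    refine mul_le_mul_of_nonneg_right ?_ hc0
    rw [div_le_div_iff₀ (by positivity) hB0]
    (first | linarith only [mul_pos hB0 hB0, hB] | nlinarith only [mul_pos hB0 hB0, hB])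
  have hc0 : 0 ≤ ch B y := by rw [hc]; exact mul_self_nonneg R
  beta_reduce
  rw [P3, PQ, P1, W1]
  simp only
  set χ := ch B y with hχ
  set χ1 := deriv (ch B) y with hχ1
  set χ2 := deriv (deriv (ch B)) y with hχ2
  set χ3 := deriv (deriv (deriv (ch B))) y with hχ3
  set A0 := a y with hA0
  set A1 := deriv a y with hA1
  set A2 := deriv (deriv a) y with hA2
  set A3 := deriv (deriv (deriv a)) y with hA3
  set q0 := Qf k y ^ k with hq0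
  set D0 := deriv (fun z => a z * Qf k z ^ k) y with hD0
  set v0 := v y with hv0
  set v1 := deriv v y with hv1
  have key : (3 / 2 * (A1 * χ + A0 * χ1) * v1 ^ 2
      + 1 / 2 * ((A1 * χ + A0 * χ1) - (((A3 * χ + A2 * χ1) + (A2 * χ1 + A1 * χ2))
        + ((A2 * χ1 + A1 * χ2) + (A1 * χ2 + A0 * χ3)))) * v0 ^ 2
      - 1 / 2 * (D0 * χ + A0 * q0 * χ1) * v0 ^ 2)
      - (3 / 2 * A1 * (R1 * v0 + R * v1) ^ 2 + 1 / 2 * (A1 - A3) * (R * v0) ^ 2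
        - 1 / 2 * D0 * (R * v0) ^ 2)
      = 3 / 2 * A0 * χ1 * v1 ^ 2 + 1 / 2 * A0 * χ1 * v0 ^ 2 - 3 / 2 * A2 * χ1 * v0 ^ 2
        - 3 / 2 * A1 * χ2 * v0 ^ 2 - 1 / 2 * A0 * χ3 * v0 ^ 2 - 1 / 2 * A0 * q0 * χ1 * v0 ^ 2
        - 3 / 2 * A1 * χ1 * (v0 * v1) - 3 / 2 * A1 * R1 ^ 2 * v0 ^ 2 := by
    rw [hc1, hc]
    ring
  rw [key]
  exact Vcu_est hB0 hc0 hK0 hK1 hK2 hKQ b1 b2 b3 hR1' (k0 y) (k1 y) (k2 y) (kQ y)

end H98KB
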