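import Pool.Agent.H98.KB.Vcu

/-!
# Vcv (second half of Vcu) : cut-off of the virial weight (Lemma V5) and the commutator error (Lemma V6)

`ϱ = √χ = 1/cosh(y/B)`, `ϱ² = ch B`, `|ϱ'| ≤ ϱ/B`.  `ṽ = ϱ v`, `ṽ' = ϱ v'+ϱ' v`.
`cut_H`: `Hf k (ψ) (ϱv) = ∫χ[(3/2)ψ'v'²+(1/2)(ψ'-ψ''')v²-(1/2)(ψQ^k)'v²] + (3/2)∫ψ'(χ'vv'+ϱ'²v²)` and
`(ψχ)' = ψ'χ+ψχ'`, `(ψχ)''' = ψ'''χ+3ψ''χ'+3ψ'χ''+ψχ'''`, `(ψχQ^k)'=(ψQ^k)'χ+ψQ^kχ'`.  All functions
`ψ,ψ',ψ'',ψ''',Q^k` are bounded (constants depending on `k,η,γ`), `|χ'| ≤ (2/B)χ`, `|χ''| ≤ (8/B²)χ`, `|χ'''| ≤ (40/B³)χ`.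
Hence `|Hf k (ψχ) v - Hf k ψ (ϱv)| ≤ (C/B)∫χ(v²+v'²)`.
`cut_ip`: `ip (ϱv) G - ip v G = ∫ ϱ v (1-1/ϱ) G`, `|1-1/ϱ| = cosh(y/B)-1 ≤ (y²/(2B²))e^{|y|/B} ≤ (1/B) e^{|y|/4}·C`; Cauchy-Schwarz with
`w = se2 γ` (`γ ≤ 1/8`, `|G| ≤ C e^{-3|y|/4}`, uniformly in `δ ≤ 1/16`): `≤ (C/B)(∫ w (ϱv)²)^{1/2}`.
`cut_loc`: `∫loc(v²+v'²) ≤ 3∫w((ϱv)²+((ϱv)')²)` (`ϱv' = (ϱv)' - (ϱ'/ϱ)ϱv`).
`Ed_le`: `|∫ ψχ v Ed| ≤ C√δ ∫loc(v²+v'²)`:  first term: `δ|∫Ψ v Sm h| ≤ δ(1+η)(∫ wχ v²)^{1/2}(∫(χ/w)(Sm h)²)^{1/2}`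
with `h=(Q^k)''v'` and the weight `W=χ cosh²(γy) ∈ Cl`, `δ|W''| ≤ W/4` (`|W''| ≤ 4(2γ+2/B)²W ≤ W`, `δ ≤ 1/16`), so
`∫W(Sm h)² ≤ (4/3)∫W h² ≤ C∫ wχ v'²` because `|(Q^k)''| cosh²(γy) ≤ C`.  Second term the same with
`δ∫W((Sm h)')² ≤ ∫W h²`, which gives `2δ·δ^{-1/2} = 2√δ`.
-/

open MeasureTheory Filter Topology Set
open scoped ContDiff

namespace H98KB

theorem Vcv_rh_pos (B y : ℝ) : 0 < rh B y := by
  unfold rh
  exact one_div_pos.2 (Real.cosh_pos _)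

theorem Vcv_rh_le (B y : ℝ) : rh B y ≤ 1 := by
  unfold rh
  rw [div_le_one (Real.cosh_pos _)]
  exact Real.one_le_cosh _

theorem Vcv_ch (B y : ℝ) : ch B y = rh B y ^ 2 := rfl

theorem Vcv_ch_pos (B y : ℝ) : 0 < ch B y := by
  rw [Vcv_ch]
  exact pow_pos (Vcv_rh_pos B y) 2

theorem Vcv_rh_eq (B : ℝ) : rh B = fun y => 1 / Real.cosh (1 / B * y) := by
  funext y
  unfold rh
  rw [show y / B = 1 / B * y by ring]

theorem Vcv_Cl_rh {B : ℝ} (hB : 0 < B) : Cl (1 / B) (1 / B) (rh B) := by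
  rw [Vcv_rh_eq]
  exact Cl_sech (by positivity)

theorem Vcv_rh_hd (B y : ℝ) :
    HasDerivAt (rh B) (-(1 / B) * Real.tanh (1 / B * y) * rh B y) y := by
  rw [Vcv_rh_eq]
  have h1 : HasDerivAt (fun y : ℝ => 1 / B * y) (1 / B) y := by
    simpa using (hasDerivAt_id y).const_mul (1 / B)
  have h2 : HasDerivAt (fun y : ℝ => Real.cosh (1 / B * y)) (Real.sinh (1 / B * y) * (1 / B)) y :=
    (Real.hasDerivAt_cosh (1 / B * y)).comp y h1
  have hc := (Real.cosh_pos (1 / B * y)).ne'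
  have h3 := h2.inv hc
  have e : (fun y => 1 / Real.cosh (1 / B * y)) = fun y : ℝ => (Real.cosh (1 / B * y))⁻¹ := by
    funext y
    rw [one_div (Real.cosh (1 / B * y))]
  rw [e]
  refine h3.congr_deriv ?_
  rw [Real.tanh_eq_sinh_div_cosh]
  field_simp

/-- `cosh x - 1 ≤ (x²/2) e^{|x|}` -/
theorem Vcv_cosh (x : ℝ) : Real.cosh x - 1 ≤ x ^ 2 / 2 * Real.exp |x| := by
  obtain ⟨t, ht⟩ : ∃ t, t = |x| / 2 := ⟨_, rfl⟩
  have ht0 : 0 ≤ t := by rw [ht]; positivity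
  have hx : |x| = 2 * t := by rw [ht]; ring
  have h1 : Real.cosh x = 1 + 2 * Real.sinh t ^ 2 := by
    rw [← Real.cosh_abs, hx, Real.cosh_two_mul, Real.cosh_sq]
    ring
  have h2 : Real.sinh t ≤ t * Real.exp t := by
    rw [Real.sinh_eq]
    have h3 : 1 - 2 * t ≤ Real.exp (-(2 * t)) := by
      have := Real.add_one_le_exp (-(2 * t))
      linarith
    have h4 : Real.exp (-t) = Real.exp t * Real.exp (-(2 * t)) := by
      rw [← Real.exp_add]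
      congr 1
      ring
    have h5 := mul_le_mul_of_nonneg_left h3 (Real.exp_pos t).le
    rw [h4]
    (first | linarith only [h5] | nlinarith only [h5])
  have h3 : 0 ≤ Real.sinh t := Real.sinh_nonneg_iff.2 ht0
  have h4 : Real.sinh t ^ 2 ≤ (t * Real.exp t) ^ 2 := pow_le_pow_left₀ h3 h2 2
  have h5 : (t * Real.exp t) ^ 2 = t ^ 2 * Real.exp |x| := by
    rw [mul_pow, hx, ← Real.exp_nat_mul]
    norm_num
  have h6 : x ^ 2 = 4 * t ^ 2 := by rw [← sq_abs, hx]; ring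
  rw [h1, h6]
  rw [h5] at h4
  linarith

theorem Vcv_one {B : ℝ} (hB : 16 ≤ B) (y : ℝ) :
    |1 - Real.cosh (y / B)| ≤ 4 / B * Real.exp (|y| / 4) := by
  have hB0 : 0 < B := by linarith
  have h0 := Real.one_le_cosh (y / B)
  rw [abs_of_nonpos (by linarith), neg_sub]
  refine (Vcv_cosh (y / B)).trans ?_
  have hy := abs_nonneg y
  have h1 : y ^ 2 ≤ 128 * Real.exp (|y| / 8) := by
    have h := Real.quadratic_le_exp_of_nonneg (show 0 ≤ |y| / 8 by positivity)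
    have e : y ^ 2 = |y| ^ 2 := (sq_abs y).symm
    rw [e]
    (first | linarith only [h, hy] | nlinarith only [h, hy])
  have h2 : (y / B) ^ 2 / 2 ≤ 4 / B * Real.exp (|y| / 8) := by
    have e : (y / B) ^ 2 / 2 = y ^ 2 / (2 * B ^ 2) := by field_simp
    rw [e, div_le_iff₀ (by positivity)]
    have e2 : 4 / B * Real.exp (|y| / 8) * (2 * B ^ 2) = 8 * B * Real.exp (|y| / 8) := by
      field_simp
      ring
    rw [e2]
    have := Real.exp_pos (|y| / 8)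
    nlinarith
  have h3 : Real.exp |y / B| ≤ Real.exp (|y| / 8) := by
    apply Real.exp_le_exp.2
    rw [abs_div, abs_of_pos hB0]
    exact div_le_div_of_nonneg_left hy (by norm_num) (by linarith)
  calc (y / B) ^ 2 / 2 * Real.exp |y / B| ≤
      (4 / B * Real.exp (|y| / 8)) * Real.exp (|y| / 8) :=
        mul_le_mul h2 h3 (Real.exp_pos _).le (by positivity)
    _ = 4 / B * Real.exp (|y| / 4) := by
        rw [mul_assoc, ← Real.exp_add]
        congr 2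
        ring

theorem cut_ip (k : ℕ) (hk : 1 ≤ k) (γ : ℝ) (hγ : 0 < γ) (hγ' : γ ≤ 1 / 8) : ∃ C : ℝ, 0 < C ∧
    ∀ B : ℝ, 16 ≤ B → ∀ δ : ℝ, 0 < δ → δ ≤ 1 / 16 → ∀ (p q : ℝ) (v : ℝ → ℝ), 0 < p → 0 < q → Cl p q v →
    |ip (fun y => rh B y * v y) (Gd k δ) - ip v (Gd k δ)| ≤
      C / B * √(∫ y, se2 γ y * (rh B y * v y) ^ 2) := by
  obtain ⟨C1, hC1, h1⟩ := Cl_bnd (Cl_LamQ hk (c := 3 / 4) (by norm_num))
  obtain ⟨C2, hC2, h2⟩ := Cl_bnd (Cl_der (Cl_der (Cl_LamQ hk (c := 3 / 4) (by norm_num))))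
  refine ⟨4 * (C1 + C2) * √(∫ y, bd (3 / 4) (3 / 4) y) + 1, by positivity, ?_⟩
  intro B hB δ hδ hδ' p q v hp hq hv
  have hB0 : 0 < B := by linarith
  have hG : ∀ y, |Gd k δ y| ≤ (C1 + C2) * bd (3 / 4) (3 / 4) y := by
    intro y
    unfold Gd
    have a1 := h1 y
    have a2 := h2 y
    have a3 : |δ * deriv (deriv (Lam k (Qf k))) y| ≤ C2 * bd (3 / 4) (3 / 4) y := by
      rw [abs_mul, abs_of_pos hδ]
      have := abs_nonneg (deriv (deriv (Lam k (Qf k))) y)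
      nlinarith
    calc _ ≤ |Lam k (Qf k) y| + |δ * deriv (deriv (Lam k (Qf k))) y| := abs_sub _ _
      _ ≤ _ := by linarith
  have hGc : Cl (3 / 4) (3 / 4) (Gd k δ) := Cl_Gd hk δ (by norm_num)
  have hrv : Cl (1 / B + p) (1 / B + q) (fun y => rh B y * v y) := Cl_mul (Vcv_Cl_rh hB0) hv
  have hB1 : 0 < 1 / B := by positivity
  have i1 : Integrable (fun y => rh B y * v y * Gd k δ y) :=
    Cl_int (Cl_mul hrv hGc) (by linarith) (by linarith)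
  have i2 : Integrable (fun y => v y * Gd k δ y) :=
    Cl_int (Cl_mul hv hGc) (by linarith) (by linarith)
  have hcosh : Continuous (fun y : ℝ => Real.cosh (y / B)) :=
    Real.continuous_cosh.comp (continuous_id.div_const B)
  have hφ : Continuous (fun y => (1 - Real.cosh (y / B)) * Gd k δ y) :=
    (continuous_const.sub hcosh).mul (Cl_cont hGc)
  have e1 : ip (fun y => rh B y * v y) (Gd k δ) - ip v (Gd k δ) =
      ∫ y, (rh B y * v y) * ((1 - Real.cosh (y / B)) * Gd k δ y) := by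
    unfold ip
    rw [← integral_sub i1 i2]
    congr 1
    funext y
    have : rh B y * Real.cosh (y / B) = 1 := by
      unfold rh
      exact one_div_mul_cancel (Real.cosh_pos _).ne'
    change rh B y * v y * Gd k δ y - v y * Gd k δ y =
      rh B y * v y * ((1 - Real.cosh (y / B)) * Gd k δ y)
    linear_combination (v y * Gd k δ y) * this
  have hse := Cl_se2 hγ
  have hw : Continuous (se2 γ) := Cl_cont hse
  have i3 : Integrable (fun y => se2 γ y * (rh B y * v y) ^ 2) :=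
    Cl_int (Cl_mul hse (Cl_pow hrv 2)) (by push_cast; linarith) (by push_cast; linarith)
  have hb : ∀ y, ((1 - Real.cosh (y / B)) * Gd k δ y) ^ 2 / se2 γ y ≤
      (4 * (C1 + C2) / B) ^ 2 * bd (3 / 4) (3 / 4) y := by
    intro y
    have a1 := Vcv_one hB y
    have a2 := hG y
    rw [bd_abs] at a2
    have a3 : |(1 - Real.cosh (y / B)) * Gd k δ y| ≤
        4 * (C1 + C2) / B * Real.exp (-(|y| / 2)) := by
      rw [abs_mul]
      calc |1 - Real.cosh (y / B)| * |Gd k δ y| ≤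
          (4 / B * Real.exp (|y| / 4)) * ((C1 + C2) * Real.exp (-(3 / 4 * |y|))) :=
            mul_le_mul a1 a2 (abs_nonneg _) (by positivity)
        _ = 4 * (C1 + C2) / B * (Real.exp (|y| / 4) * Real.exp (-(3 / 4 * |y|))) := by ring
        _ = _ := by
            rw [← Real.exp_add]
            congr 2
            ring
    have a4 : ((1 - Real.cosh (y / B)) * Gd k δ y) ^ 2 ≤
        (4 * (C1 + C2) / B) ^ 2 * Real.exp (-|y|) := by
      have h := pow_le_pow_left₀ (abs_nonneg _) a3 2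
      have e : (4 * (C1 + C2) / B * Real.exp (-(|y| / 2))) ^ 2 =
          (4 * (C1 + C2) / B) ^ 2 * Real.exp (-|y|) := by
        rw [mul_pow, ← Real.exp_nat_mul]
        congr 2
        push_cast
        ring
      rw [sq_abs, e] at h
      exact h
    have a5 : Real.exp (-(|y| / 4)) ≤ se2 γ y := by
      refine le_trans (Real.exp_le_exp.2 ?_) (se2_lo γ y)
      rw [abs_mul, abs_of_pos hγ]
      have := abs_nonneg y
      (first | linarith only [hγ', this] | nlinarith only [hγ', this])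
    rw [div_le_iff₀ (se2_pos γ y), bd_abs]
    refine a4.trans ?_
    rw [mul_assoc]
    refine mul_le_mul_of_nonneg_left ?_ (by positivity)
    calc Real.exp (-|y|) = Real.exp (-(3 / 4 * |y|)) * Real.exp (-(|y| / 4)) := by
          rw [← Real.exp_add]
          congr 1
          ring
      _ ≤ _ := mul_le_mul_of_nonneg_left a5 (Real.exp_pos _).le
  have i4 : Integrable (fun y => ((1 - Real.cosh (y / B)) * Gd k δ y) ^ 2 / se2 γ y) := by
    refine int_of_bd (p := 3 / 4) (q := 3 / 4) ((hφ.pow 2).div hw fun y => (se2_pos γ y).ne')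
      (by norm_num) (by norm_num) ⟨(4 * (C1 + C2) / B) ^ 2, fun y => ?_⟩
    rw [abs_of_nonneg (div_nonneg (sq_nonneg _) (se2_pos γ y).le)]
    exact hb y
  have key := (cs_wt (Cl_cont hrv) hφ hw (se2_pos γ) i3 i4).2
  rw [e1]
  refine key.trans ?_
  have hJ : ∫ y, ((1 - Real.cosh (y / B)) * Gd k δ y) ^ 2 / se2 γ y ≤
      (4 * (C1 + C2) / B) ^ 2 * ∫ y, bd (3 / 4) (3 / 4) y := by
    rw [← integral_const_mul]
    exact integral_mono i4 ((bd_int (by norm_num) (by norm_num)).const_mul _) hb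
  have hJ2 : √(∫ y, ((1 - Real.cosh (y / B)) * Gd k δ y) ^ 2 / se2 γ y) ≤
      4 * (C1 + C2) / B * √(∫ y, bd (3 / 4) (3 / 4) y) := by
    refine (Real.sqrt_le_sqrt hJ).trans (le_of_eq ?_)
    rw [Real.sqrt_mul (sq_nonneg _), Real.sqrt_sq (by positivity)]
  refine mul_le_mul_of_nonneg_right (hJ2.trans ?_) (Real.sqrt_nonneg _)
  rw [add_div]
  have : 4 * (C1 + C2) / B * √(∫ y, bd (3 / 4) (3 / 4) y) =
      4 * (C1 + C2) * √(∫ y, bd (3 / 4) (3 / 4) y) / B := by ring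
  rw [this]
  linarith

theorem cut_loc {γ B p q : ℝ} {v : ℝ → ℝ} (hγ : 0 < γ) (hB : 16 ≤ B) (hp : 0 < p) (hq : 0 < q)
    (hv : Cl p q v) :
    ∫ y, loc γ B y * ((v y) ^ 2 + (deriv v y) ^ 2) ≤
      3 * ∫ y, se2 γ y * ((rh B y * v y) ^ 2 + (deriv (fun y => rh B y * v y) y) ^ 2) := by
  have hB0 : 0 < B := by linarith
  have hB1 : 0 < 1 / B := by positivity
  have hrv : Cl (1 / B + p) (1 / B + q) (fun y => rh B y * v y) := Cl_mul (Vcv_Cl_rh hB0) hv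
  have hse := Cl_se2 hγ
  have hch := Cl_ch hB0
  have i1 : Integrable (fun y => loc γ B y * ((v y) ^ 2 + (deriv v y) ^ 2)) := by
    have hloc : Cl (2 * γ + 2 / B) (2 * γ + 2 / B) (loc γ B) := Cl_mul hse hch
    have h2B : 0 < 2 / B := by positivity
    exact Cl_int (Cl_mul hloc (Cl_add (Cl_pow hv 2) (Cl_pow (Cl_der hv) 2)))
      (by push_cast; linarith) (by push_cast; linarith)
  have i2 : Integrable (fun y => se2 γ y * ((rh B y * v y) ^ 2 +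
      (deriv (fun y => rh B y * v y) y) ^ 2)) :=
    Cl_int (Cl_mul hse (Cl_add (Cl_pow hrv 2) (Cl_pow (Cl_der hrv) 2)))
      (by push_cast; linarith) (by push_cast; linarith)
  rw [← integral_const_mul]
  refine integral_mono i1 (i2.const_mul 3) fun y => ?_
  have hd : deriv (fun y => rh B y * v y) y =
      -(1 / B) * Real.tanh (1 / B * y) * rh B y * v y + rh B y * deriv v y :=
    ((Vcv_rh_hd B y).mul (Cl_hd hv y)).deriv
  change loc γ B y * ((v y) ^ 2 + (deriv v y) ^ 2) ≤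
    3 * (se2 γ y * ((rh B y * v y) ^ 2 + (deriv (fun y => rh B y * v y) y) ^ 2))
  rw [hd]
  have hse0 := se2_pos γ y
  have e : loc γ B y = se2 γ y * rh B y ^ 2 := rfl
  rw [e]
  obtain ⟨a, ha⟩ : ∃ a, a = rh B y * v y := ⟨_, rfl⟩
  obtain ⟨b, hb⟩ : ∃ b, b = rh B y * deriv v y := ⟨_, rfl⟩
  obtain ⟨τ, hτ⟩ : ∃ τ, τ = 1 / B * Real.tanh (1 / B * y) := ⟨_, rfl⟩
  have ht : |τ| ≤ 1 / 16 := by
    rw [hτ, abs_mul, abs_of_pos hB1]
    have h1 := (tanh_abs_lt (1 / B * y)).le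
    have h2 : 1 / B ≤ 1 / 16 := one_div_le_one_div_of_le (by norm_num) hB
    have h3 := abs_nonneg (Real.tanh (1 / B * y))
    (first | linarith only [h1, h2, hB1] | nlinarith only [h1, h2, hB1])
  have e1 : -(1 / B) * Real.tanh (1 / B * y) * rh B y * v y + rh B y * deriv v y = -τ * a + b := by
    rw [hτ, ha, hb]
    ring
  have e2 : se2 γ y * rh B y ^ 2 * ((v y) ^ 2 + (deriv v y) ^ 2) = se2 γ y * (a ^ 2 + b ^ 2) := by
    rw [ha, hb]
    ring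
  rw [e1, e2, ← ha]
  have h5 : a ^ 2 + b ^ 2 ≤ 3 * (a ^ 2 + (-τ * a + b) ^ 2) := by
    have h6 : τ ^ 2 ≤ 1 / 256 := by
      have := pow_le_pow_left₀ (abs_nonneg τ) ht 2
      rw [sq_abs] at this
      linarith
    have h7 : b ^ 2 ≤ 2 * (-τ * a + b) ^ 2 + 2 * (τ ^ 2 * a ^ 2) := by
      (first | linarith only [sq_nonneg ((-τ * a + b) - τ * a)] | nlinarith only [sq_nonneg ((-τ * a + b) - τ * a)])
    have h8 : τ ^ 2 * a ^ 2 ≤ 1 / 256 * a ^ 2 := mul_le_mul_of_nonneg_right h6 (sq_nonneg a)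
    (first | linarith only [sq_nonneg a, sq_nonneg (-τ * a + b), h7, h8] | nlinarith only [sq_nonneg a, sq_nonneg (-τ * a + b), h7, h8])
  (first | linarith only [h5, hse0] | nlinarith only [h5, hse0])

noncomputable def Vcv_E (γ y : ℝ) : ℝ :=
  1 / 2 + 1 / 4 * (Real.exp (2 * γ * y) + Real.exp (-(2 * γ) * y))

noncomputable def Vcv_E1 (γ y : ℝ) : ℝ :=
  γ / 2 * (Real.exp (2 * γ * y) - Real.exp (-(2 * γ) * y))

noncomputable def Vcv_E2 (γ y : ℝ) : ℝ :=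
  γ ^ 2 * (Real.exp (2 * γ * y) + Real.exp (-(2 * γ) * y))

theorem Vcv_E_pos (γ y : ℝ) : 0 < Vcv_E γ y := by
  unfold Vcv_E
  positivity

theorem Vcv_E_se2 (γ y : ℝ) : Vcv_E γ y * se2 γ y = 1 := by
  have h : Vcv_E γ y = Real.cosh (γ * y) ^ 2 := by
    unfold Vcv_E
    rw [Real.cosh_eq]
    have e1 : Real.exp (2 * γ * y) = Real.exp (γ * y) ^ 2 := by
      rw [← Real.exp_nat_mul]
      congr 1
      push_cast
      ring
    have e2 : Real.exp (-(2 * γ) * y) = Real.exp (-(γ * y)) ^ 2 := by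
      rw [← Real.exp_nat_mul]
      congr 1
      push_cast
      ring
    have e3 : Real.exp (γ * y) * Real.exp (-(γ * y)) = 1 := by
      rw [← Real.exp_add, add_neg_cancel, Real.exp_zero]
    rw [e1, e2]
    linear_combination (-1 / 2) * e3
  rw [h]
  unfold se2
  have hc := (Real.cosh_pos (γ * y)).ne'
  field_simp

theorem Vcv_E_hd (γ y : ℝ) : HasDerivAt (Vcv_E γ) (Vcv_E1 γ y) y := by
  have a (c : ℝ) : HasDerivAt (fun y : ℝ => Real.exp (c * y)) (Real.exp (c * y) * c) y := by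
    have h1 : HasDerivAt (fun y : ℝ => c * y) c y := by
      simpa using (hasDerivAt_id y).const_mul c
    exact h1.exp
  have h := (((a (2 * γ)).add (a (-(2 * γ)))).const_mul (1 / 4)).const_add (1 / 2)
  refine h.congr_deriv ?_
  unfold Vcv_E1
  ring

theorem Vcv_E1_hd (γ y : ℝ) : HasDerivAt (Vcv_E1 γ) (Vcv_E2 γ y) y := by
  have a (c : ℝ) : HasDerivAt (fun y : ℝ => Real.exp (c * y)) (Real.exp (c * y) * c) y := by
    have h1 : HasDerivAt (fun y : ℝ => c * y) c y := by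
      simpa using (hasDerivAt_id y).const_mul c
    exact h1.exp
  have h := ((a (2 * γ)).sub (a (-(2 * γ)))).const_mul (γ / 2)
  refine h.congr_deriv ?_
  unfold Vcv_E2
  ring

theorem Vcv_E1_le {γ : ℝ} (hγ : 0 < γ) (y : ℝ) : |Vcv_E1 γ y| ≤ 2 * γ * Vcv_E γ y := by
  unfold Vcv_E1 Vcv_E
  have h1 := Real.exp_pos (2 * γ * y)
  have h2 := Real.exp_pos (-(2 * γ) * y)
  have h3 := mul_pos hγ h1
  have h4 := mul_pos hγ h2
  rw [abs_le]
  constructor <;> nlinarith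

theorem Vcv_E2_le {γ : ℝ} (hγ : 0 < γ) (y : ℝ) : |Vcv_E2 γ y| ≤ 4 * γ ^ 2 * Vcv_E γ y := by
  have h0 : 0 ≤ Vcv_E2 γ y := by
    unfold Vcv_E2
    positivity
  rw [abs_of_nonneg h0]
  unfold Vcv_E2 Vcv_E
  have h5 : 0 < γ ^ 2 := by positivity
  nlinarith

theorem Vcv_Cl_E {γ : ℝ} (hγ : 0 < γ) : Cl (-(2 * γ)) (-(2 * γ)) (Vcv_E γ) := by
  have h1 : Cl (-(2 * γ)) (-(2 * γ)) (fun y => Real.exp (2 * γ * y)) :=
    Cl_mono (Cl_exp (2 * γ)) le_rfl (by linarith)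
  have h2 : Cl (-(2 * γ)) (-(2 * γ)) (fun y => Real.exp (-(2 * γ) * y)) :=
    Cl_mono (Cl_exp (-(2 * γ))) (by linarith) le_rfl
  have h3 : Cl (-(2 * γ)) (-(2 * γ)) (fun _ => (1 / 2 : ℝ)) :=
    Cl_mono (Cl_const (1 / 2)) (by linarith) (by linarith)
  exact Cl_add h3 (Cl_smul (1 / 4) (Cl_add h1 h2))

noncomputable def Vcv_W (γ B y : ℝ) : ℝ := ch B y * Vcv_E γ y

theorem Vcv_W_pos (γ B y : ℝ) : 0 < Vcv_W γ B y := mul_pos (Vcv_ch_pos B y) (Vcv_E_pos γ y)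

theorem Vcv_Cl_W {γ B : ℝ} (hγ : 0 < γ) (hB : 0 < B) :
    Cl (2 / B + -(2 * γ)) (2 / B + -(2 * γ)) (Vcv_W γ B) :=
  Cl_mul (Cl_ch hB) (Vcv_Cl_E hγ)

theorem Vcv_W2 {γ B δ : ℝ} (hγ : 0 < γ) (hγ' : γ ≤ 1 / 8) (hB : 16 ≤ B) (hδ : 0 < δ)
    (hδ' : δ ≤ 1 / 16) (y : ℝ) : δ * |deriv (deriv (Vcv_W γ B)) y| ≤ Vcv_W γ B y / 4 := by
  have hB0 : 0 < B := by linarith
  have hch := Cl_ch hB0
  have e1 : deriv (Vcv_W γ B) = fun y => deriv (ch B) y * Vcv_E γ y + ch B y * Vcv_E1 γ y := by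
    funext y
    exact ((Cl_hd hch y).mul (Vcv_E_hd γ y)).deriv
  have e2 : deriv (deriv (Vcv_W γ B)) y = (deriv (deriv (ch B)) y * Vcv_E γ y +
      deriv (ch B) y * Vcv_E1 γ y) + (deriv (ch B) y * Vcv_E1 γ y + ch B y * Vcv_E2 γ y) := by
    rw [e1]
    exact (((Cl_hd (Cl_der hch) y).mul (Vcv_E_hd γ y)).add
      ((Cl_hd hch y).mul (Vcv_E1_hd γ y))).deriv
  have hc := Vcv_ch_pos B y
  have hE := Vcv_E_pos γ y
  have hcE := mul_pos hc hE
  have hBi : 1 / B ≤ 1 / 16 := one_div_le_one_div_of_le (by norm_num) hB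
  have hBi0 : 0 < 1 / B := by positivity
  have c1 : |deriv (ch B) y| ≤ 1 / 8 * ch B y := by
    refine (ch1_le (by linarith) y).trans (mul_le_mul_of_nonneg_right ?_ hc.le)
    have : 2 / B = 2 * (1 / B) := by ring
    rw [this]
    linarith
  have c2 : |deriv (deriv (ch B)) y| ≤ 1 / 32 * ch B y := by
    refine (ch2_le (by linarith) y).trans (mul_le_mul_of_nonneg_right ?_ hc.le)
    have : 8 / B ^ 2 = 8 * (1 / B) ^ 2 := by ring
    rw [this]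
    nlinarith
  have d1 : |Vcv_E1 γ y| ≤ 1 / 4 * Vcv_E γ y :=
    (Vcv_E1_le hγ y).trans (mul_le_mul_of_nonneg_right (by linarith) hE.le)
  have d2 : |Vcv_E2 γ y| ≤ 1 / 16 * Vcv_E γ y :=
    (Vcv_E2_le hγ y).trans (mul_le_mul_of_nonneg_right (by (first | linarith only [hγ, hγ'] | nlinarith only [hγ, hγ'])) hE.le)
  have f1 : |deriv (deriv (ch B)) y * Vcv_E γ y| ≤ 1 / 32 * (ch B y * Vcv_E γ y) := by
    rw [abs_mul, abs_of_pos hE]
    have := mul_le_mul_of_nonneg_right c2 hE.le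
    linarith
  have f2 : |deriv (ch B) y * Vcv_E1 γ y| ≤ 1 / 32 * (ch B y * Vcv_E γ y) := by
    rw [abs_mul]
    have := mul_le_mul c1 d1 (abs_nonneg _) (by positivity)
    linarith
  have f3 : |ch B y * Vcv_E2 γ y| ≤ 1 / 16 * (ch B y * Vcv_E γ y) := by
    rw [abs_mul, abs_of_pos hc]
    have := mul_le_mul_of_nonneg_left d2 hc.le
    linarith
  have f4 : |deriv (deriv (Vcv_W γ B)) y| ≤ ch B y * Vcv_E γ y := by
    rw [e2]
    have g1 := abs_add_le (deriv (deriv (ch B)) y * Vcv_E γ y + deriv (ch B) y * Vcv_E1 γ y)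
      (deriv (ch B) y * Vcv_E1 γ y + ch B y * Vcv_E2 γ y)
    have g2 := abs_add_le (deriv (deriv (ch B)) y * Vcv_E γ y) (deriv (ch B) y * Vcv_E1 γ y)
    have g3 := abs_add_le (deriv (ch B) y * Vcv_E1 γ y) (ch B y * Vcv_E2 γ y)
    linarith
  change δ * |deriv (deriv (Vcv_W γ B)) y| ≤ ch B y * Vcv_E γ y / 4
  have := mul_le_mul hδ' f4 (abs_nonneg _) (by norm_num)
  linarith

theorem Vcv_pair {k : ℕ} {η γ M B p q : ℝ} {v S : ℝ → ℝ} (hγ : 0 < γ) (hγ' : γ ≤ 1 / 8)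
    (hB : 16 ≤ B) (hM : 0 ≤ M) (hpsi : ∀ y, |psi k η γ y| ≤ M) (hp : 0 < p) (hq : 0 < q)
    (hv : Cl p q v) (hS : Cl 2 2 S) :
    Integrable (fun y => Psi k η γ B y * (v y * S y)) ∧
    |∫ y, Psi k η γ B y * (v y * S y)| ≤
      M * √(∫ y, Vcv_W γ B y * (S y) ^ 2) * √(∫ y, loc γ B y * (v y) ^ 2) := by
  have hB0 : 0 < B := by linarith
  have hB1 : 0 < 2 / B := by positivity
  have hloc : Cl (2 * γ + 2 / B) (2 * γ + 2 / B) (loc γ B) := Cl_mul (Cl_se2 hγ) (Cl_ch hB0)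
  have hPsi := Cl_Psi k η γ hB0
  have hpsiC := Cl_psi k η γ
  have hlocp : ∀ y, 0 < loc γ B y := fun y => mul_pos (se2_pos γ y) (Vcv_ch_pos B y)
  have i1 : Integrable (fun y => loc γ B y * (v y) ^ 2) :=
    Cl_int (Cl_mul hloc (Cl_pow hv 2)) (by push_cast; linarith) (by push_cast; linarith)
  have i2 : Integrable (fun y => Vcv_W γ B y * (S y) ^ 2) :=
    Cl_int (Cl_mul (Vcv_Cl_W hγ hB0) (Cl_pow hS 2)) (by push_cast; linarith)
      (by push_cast; linarith)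
  have i3 : Integrable (fun y => (psi k η γ y) ^ 2 * (Vcv_W γ B y * (S y) ^ 2)) :=
    Cl_int (Cl_mul (Cl_pow0 hpsiC 2) (Cl_mul (Vcv_Cl_W hγ hB0) (Cl_pow hS 2)))
      (by push_cast; linarith) (by push_cast; linarith)
  have e : (fun y => (Psi k η γ B y * S y) ^ 2 / loc γ B y) =
      fun y => (psi k η γ y) ^ 2 * (Vcv_W γ B y * (S y) ^ 2) := by
    funext y
    rw [div_eq_iff (hlocp y).ne']
    have h1 := Vcv_E_se2 γ y
    change (psi k η γ y * ch B y * S y) ^ 2 =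
      (psi k η γ y) ^ 2 * (ch B y * Vcv_E γ y * (S y) ^ 2) * (se2 γ y * ch B y)
    linear_combination (-(psi k η γ y * ch B y * S y) ^ 2) * h1
  have key := cs_wt (F := v) (φ := fun y => Psi k η γ B y * S y) (W := loc γ B) (Cl_cont hv)
    ((Cl_cont hPsi).mul (Cl_cont hS)) (Cl_cont hloc) hlocp i1 (by rw [e]; exact i3)
  rw [e] at key
  have e2 : (fun y => v y * (Psi k η γ B y * S y)) = fun y => Psi k η γ B y * (v y * S y) := by
    funext y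
    ring
  rw [e2] at key
  refine ⟨key.1, key.2.trans (mul_le_mul_of_nonneg_right ?_ (Real.sqrt_nonneg _))⟩
  have h2 : ∫ y, (psi k η γ y) ^ 2 * (Vcv_W γ B y * (S y) ^ 2) ≤
      M ^ 2 * ∫ y, Vcv_W γ B y * (S y) ^ 2 := by
    rw [← integral_const_mul]
    refine integral_mono i3 (i2.const_mul _) fun y => ?_
    refine mul_le_mul_of_nonneg_right ?_ (mul_nonneg (Vcv_W_pos γ B y).le (sq_nonneg _))
    have := pow_le_pow_left₀ (abs_nonneg _) (hpsi y) 2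
    rwa [sq_abs] at this
  refine (Real.sqrt_le_sqrt h2).trans (le_of_eq ?_)
  rw [Real.sqrt_mul (sq_nonneg _), Real.sqrt_sq hM]

theorem Vcv_h {γ B D p q : ℝ} {g v : ℝ → ℝ} (hγ : 0 < γ) (hγ' : γ ≤ 1 / 8)
    (hB : 16 ≤ B) (hD : 0 ≤ D) (hg : Cl 1 1 g) (hgD : ∀ y, |g y| ≤ D * bd 1 1 y)
    (hp : 0 < p) (hq : 0 < q) (hv : Cl p q v) :
    ∫ y, Vcv_W γ B y * (g y * deriv v y) ^ 2 ≤ D ^ 2 * ∫ y, loc γ B y * (deriv v y) ^ 2 := by
  have hB0 : 0 < B := by linarith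
  have hB1 : 0 < 2 / B := by positivity
  have hloc : Cl (2 * γ + 2 / B) (2 * γ + 2 / B) (loc γ B) := Cl_mul (Cl_se2 hγ) (Cl_ch hB0)
  have i1 : Integrable (fun y => loc γ B y * (deriv v y) ^ 2) :=
    Cl_int (Cl_mul hloc (Cl_pow (Cl_der hv) 2)) (by push_cast; linarith) (by push_cast; linarith)
  have i2 : Integrable (fun y => Vcv_W γ B y * (g y * deriv v y) ^ 2) :=
    Cl_int (Cl_mul (Vcv_Cl_W hγ hB0) (Cl_pow (Cl_mul hg (Cl_der hv)) 2)) (by push_cast; linarith)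
      (by push_cast; linarith)
  rw [← integral_const_mul]
  refine integral_mono i2 (i1.const_mul _) fun y => ?_
  change ch B y * Vcv_E γ y * (g y * deriv v y) ^ 2 ≤
    D ^ 2 * (se2 γ y * ch B y * (deriv v y) ^ 2)
  have hy := abs_nonneg y
  have hse := se2_pos γ y
  have h1 : Real.exp (-(|y| / 4)) ≤ se2 γ y := by
    refine le_trans (Real.exp_le_exp.2 ?_) (se2_lo γ y)
    rw [abs_mul, abs_of_pos hγ]
    nlinarith
  have h2 : (g y) ^ 2 ≤ D ^ 2 * Real.exp (-(2 * |y|)) := by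
    have a1 := hgD y
    rw [bd_abs] at a1
    have a2 := pow_le_pow_left₀ (abs_nonneg _) a1 2
    have e : (D * Real.exp (-(1 * |y|))) ^ 2 = D ^ 2 * Real.exp (-(2 * |y|)) := by
      rw [mul_pow, ← Real.exp_nat_mul]
      congr 2
      push_cast
      ring
    rw [sq_abs, e] at a2
    exact a2
  have h3 : Real.exp (-(2 * |y|)) ≤ se2 γ y * se2 γ y := by
    refine le_trans ?_ (mul_le_mul h1 h1 (Real.exp_pos _).le hse.le)
    rw [← Real.exp_add]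
    exact Real.exp_le_exp.2 (by linarith)
  have h4 : Vcv_E γ y * (g y) ^ 2 ≤ D ^ 2 * se2 γ y := by
    have hD2 : 0 ≤ D ^ 2 := sq_nonneg D
    have a1 : (g y) ^ 2 ≤ D ^ 2 * (se2 γ y * se2 γ y) :=
      h2.trans (mul_le_mul_of_nonneg_left h3 hD2)
    have a2 := mul_le_mul_of_nonneg_left a1 (Vcv_E_pos γ y).le
    refine a2.trans (le_of_eq ?_)
    have := Vcv_E_se2 γ y
    linear_combination (D ^ 2 * se2 γ y) * this
  have h5 : 0 ≤ ch B y * (deriv v y) ^ 2 := mul_nonneg (Vcv_ch_pos B y).le (sq_nonneg _)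
  have h6 := mul_le_mul_of_nonneg_right h4 h5
  calc ch B y * Vcv_E γ y * (g y * deriv v y) ^ 2 =
      Vcv_E γ y * (g y) ^ 2 * (ch B y * (deriv v y) ^ 2) := by ring
    _ ≤ D ^ 2 * se2 γ y * (ch B y * (deriv v y) ^ 2) := h6
    _ = _ := by ring

theorem Ed_le (k : ℕ) (hk : 5 ≤ k) (η γ : ℝ) (hγ : 0 < γ) (hγ' : γ ≤ 1 / 8) : ∃ C : ℝ, 0 < C ∧
    ∀ B : ℝ, 16 ≤ B → ∀ δ : ℝ, 0 < δ → δ ≤ 1 / 16 → ∀ (p q : ℝ) (v : ℝ → ℝ), 0 < p → p ≤ 1 → 0 < q →
    q ≤ 1 → Cl p q v →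
    |∫ y, Psi k η γ B y * (v y * Ed k δ v y)| ≤
      C * √δ * ∫ y, loc γ B y * ((v y) ^ 2 + (deriv v y) ^ 2) := by
  have hk1 : 1 ≤ k := by omega
  have hkR : (5 : ℝ) ≤ k := by exact_mod_cast hk
  obtain ⟨M, hM, hM'⟩ := Cl_bnd (Cl_psi k η γ)
  have hpsi : ∀ y, |psi k η γ y| ≤ M := fun y => by
    have := hM' y
    rwa [bd_zero, mul_one] at this
  have hg1 : Cl k k (deriv (fun z => Qf k z ^ k)) := Cl_der (Cl_Qk hk1)
  have hg2 : Cl k k (deriv (deriv (fun z => Qf k z ^ k))) := Cl_der hg1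
  have hg1' : Cl 1 1 (deriv (fun z => Qf k z ^ k)) := Cl_mono hg1 (by linarith) (by linarith)
  have hg2' : Cl 1 1 (deriv (deriv (fun z => Qf k z ^ k))) :=
    Cl_mono hg2 (by linarith) (by linarith)
  obtain ⟨D1, hD1, hD1'⟩ := Cl_bnd hg1'
  obtain ⟨D2, hD2, hD2'⟩ := Cl_bnd hg2'
  refine ⟨M * (2 * D2 + 2 * D1) + 1, by positivity, ?_⟩
  intro B hB δ hδ hδ' p q v hp hp1 hq hq1 hv
  have hB0 : 0 < B := by linarith
  have hB1 : 0 < 2 / B := by positivity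
  obtain ⟨g1, eg1⟩ : ∃ g : ℝ → ℝ, g = deriv (fun z => Qf k z ^ k) := ⟨_, rfl⟩
  obtain ⟨g2, eg2⟩ : ∃ g : ℝ → ℝ, g = deriv (deriv (fun z => Qf k z ^ k)) := ⟨_, rfl⟩
  have hEd : ∀ y, Ed k δ v y = δ * Sm δ (fun z => g2 z * deriv v z) y -
      2 * δ * deriv (Sm δ (fun z => g1 z * deriv v z)) y := by
    intro y
    rw [eg1, eg2]
    rfl
  rw [← eg1] at hg1 hg1' hD1'
  rw [← eg2] at hg2 hg2' hD2'
  have hh1 : Cl 2 2 (fun z => g1 z * deriv v z) :=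
    Cl_mono (Cl_mul hg1 (Cl_der hv)) (by linarith) (by linarith)
  have hh2 : Cl 2 2 (fun z => g2 z * deriv v z) :=
    Cl_mono (Cl_mul hg2 (Cl_der hv)) (by linarith) (by linarith)
  have h22 : |(2 : ℝ)| ≤ 2 := by rw [abs_of_pos (by norm_num)]
  have hS1 := Cl_der (Cl_Sm hδ hδ' h22 h22 hh1)
  have hS2 := Cl_Sm hδ hδ' h22 h22 hh2
  obtain ⟨i1, p1⟩ := Vcv_pair hγ hγ' hB hM hpsi hp hq hv hS1
  obtain ⟨i2, p2⟩ := Vcv_pair hγ hγ' hB hM hpsi hp hq hv hS2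
  have w1 := (Sm_wt hδ hδ' h22 h22 hh1 (Vcv_Cl_W hγ hB0) (Vcv_W_pos γ B)
    (Vcv_W2 hγ hγ' hB hδ hδ') (by linarith) (by linarith)).2
  have w2 := (Sm_wt hδ hδ' h22 h22 hh2 (Vcv_Cl_W hγ hB0) (Vcv_W_pos γ B)
    (Vcv_W2 hγ hγ' hB hδ hδ') (by linarith) (by linarith)).1
  have z1 := Vcv_h hγ hγ' hB hD1 hg1' hD1' hp hq hv
  have z2 := Vcv_h hγ hγ' hB hD2 hg2' hD2' hp hq hv
  have hloc : Cl (2 * γ + 2 / B) (2 * γ + 2 / B) (loc γ B) := Cl_mul (Cl_se2 hγ) (Cl_ch hB0)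
  have hlocp : ∀ y, 0 < loc γ B y := fun y => mul_pos (se2_pos γ y) (Vcv_ch_pos B y)
  have j1 : Integrable (fun y => loc γ B y * (v y) ^ 2) :=
    Cl_int (Cl_mul hloc (Cl_pow hv 2)) (by push_cast; linarith) (by push_cast; linarith)
  have j2 : Integrable (fun y => loc γ B y * (deriv v y) ^ 2) :=
    Cl_int (Cl_mul hloc (Cl_pow (Cl_der hv) 2)) (by push_cast; linarith) (by push_cast; linarith)
  have eA : ∫ y, loc γ B y * ((v y) ^ 2 + (deriv v y) ^ 2) =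
      (∫ y, loc γ B y * (v y) ^ 2) + ∫ y, loc γ B y * (deriv v y) ^ 2 := by
    rw [← integral_add j1 j2]
    congr 1
    funext y
    ring
  obtain ⟨A, hA⟩ : ∃ A, A = ∫ y, loc γ B y * (v y) ^ 2 := ⟨_, rfl⟩
  obtain ⟨A', hA'⟩ : ∃ A, A = ∫ y, loc γ B y * (deriv v y) ^ 2 := ⟨_, rfl⟩
  have hA0 : 0 ≤ A := by
    rw [hA]
    exact integral_nonneg fun y => mul_nonneg (hlocp y).le (sq_nonneg _)
  have hA0' : 0 ≤ A' := by
    rw [hA']
    exact integral_nonneg fun y => mul_nonneg (hlocp y).le (sq_nonneg _)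
  rw [eA, ← hA, ← hA']
  rw [← hA'] at z1 z2
  rw [← hA] at p1 p2
  have eI : ∫ y, Psi k η γ B y * (v y * Ed k δ v y) =
      δ * (∫ y, Psi k η γ B y * (v y * Sm δ (fun z => g2 z * deriv v z) y)) -
      2 * δ * ∫ y, Psi k η γ B y * (v y * deriv (Sm δ (fun z => g1 z * deriv v z)) y) := by
    rw [← integral_const_mul, ← integral_const_mul, ← integral_sub (i2.const_mul _)
      (i1.const_mul _)]
    congr 1
    funext y
    rw [hEd]
    ring
  rw [eI]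
  obtain ⟨I1, eI1⟩ : ∃ I, I = ∫ y, Psi k η γ B y *
    (v y * deriv (Sm δ (fun z => g1 z * deriv v z)) y) := ⟨_, rfl⟩
  obtain ⟨I2, eI2⟩ : ∃ I, I = ∫ y, Psi k η γ B y *
    (v y * Sm δ (fun z => g2 z * deriv v z) y) := ⟨_, rfl⟩
  rw [← eI1] at p1 ⊢
  rw [← eI2] at p2 ⊢
  obtain ⟨s, hs⟩ : ∃ s, s = √δ := ⟨_, rfl⟩
  have hs0 : 0 < s := by rw [hs]; exact Real.sqrt_pos.2 hδ
  have hs2 : s ^ 2 = δ := by rw [hs]; exact Real.sq_sqrt hδ.le
  have hs1 : s ≤ 1 := by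
    by_contra h
    push_neg at h
    (first | linarith only [h, hs0, hs2, hδ, hδ'] | nlinarith only [h, hs0, hs2, hδ, hδ'])
  rw [← hs]
  have hAA : √A' * √A ≤ A + A' := by
    have a1 := Real.sq_sqrt hA0
    have a2 := Real.sq_sqrt hA0'
    (first | linarith only [sq_nonneg (√A' - √A), Real.sqrt_nonneg A, Real.sqrt_nonneg A', a1, a2, hA0, hA0'] | nlinarith only [sq_nonneg (√A' - √A), Real.sqrt_nonneg A, Real.sqrt_nonneg A', a1, a2, hA0, hA0'])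
  have b2 : √(∫ y, Vcv_W γ B y * (Sm δ (fun z => g2 z * deriv v z) y) ^ 2) ≤ 2 * D2 * √A' := by
    refine Real.sqrt_le_iff.2 ⟨by positivity, ?_⟩
    rw [mul_pow, mul_pow, Real.sq_sqrt hA0']
    have : 0 ≤ D2 ^ 2 * A' := by positivity
    linarith
  have b1 : s * √(∫ y, Vcv_W γ B y * (deriv (Sm δ (fun z => g1 z * deriv v z)) y) ^ 2) ≤
      D1 * √A' := by
    have e : s * √(∫ y, Vcv_W γ B y * (deriv (Sm δ (fun z => g1 z * deriv v z)) y) ^ 2) =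
        √(δ * ∫ y, Vcv_W γ B y * (deriv (Sm δ (fun z => g1 z * deriv v z)) y) ^ 2) := by
      rw [Real.sqrt_mul hδ.le, ← hs]
    rw [e]
    refine Real.sqrt_le_iff.2 ⟨by positivity, ?_⟩
    rw [mul_pow, Real.sq_sqrt hA0']
    exact w1.trans z1
  have q2 : |I2| ≤ M * (2 * D2) * (A + A') := by
    refine p2.trans ?_
    calc _ ≤ M * (2 * D2 * √A') * √A :=
          mul_le_mul_of_nonneg_right (mul_le_mul_of_nonneg_left b2 hM) (Real.sqrt_nonneg _)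
      _ = M * (2 * D2) * (√A' * √A) := by ring
      _ ≤ _ := mul_le_mul_of_nonneg_left hAA (by positivity)
  have q1 : s * |I1| ≤ M * D1 * (A + A') := by
    refine (mul_le_mul_of_nonneg_left p1 hs0.le).trans ?_
    calc _ = M * (s * √(∫ y, Vcv_W γ B y *
          (deriv (Sm δ (fun z => g1 z * deriv v z)) y) ^ 2)) * √A := by ring
      _ ≤ M * (D1 * √A') * √A :=
          mul_le_mul_of_nonneg_right (mul_le_mul_of_nonneg_left b1 hM) (Real.sqrt_nonneg _)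
      _ = M * D1 * (√A' * √A) := by ring
      _ ≤ _ := mul_le_mul_of_nonneg_left hAA (by positivity)
  have r : |δ * I2 - 2 * δ * I1| ≤ δ * |I2| + 2 * δ * |I1| := by
    refine (abs_sub _ _).trans (le_of_eq ?_)
    rw [abs_mul, abs_mul, abs_of_pos hδ, abs_of_pos (by positivity : (0:ℝ) < 2 * δ)]
  refine r.trans ?_
  have hAs : 0 ≤ A + A' := by linarith
  have t1 : 2 * δ * |I1| ≤ s * (2 * (M * D1 * (A + A'))) := by
    have : 2 * δ * |I1| = s * (2 * (s * |I1|)) := by rw [← hs2]; ring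
    rw [this]
    exact mul_le_mul_of_nonneg_left (by linarith) hs0.le
  have t2 : δ * |I2| ≤ s * (M * (2 * D2) * (A + A')) := by
    have a1 : δ ≤ s := by rw [← hs2]; (first | linarith only [hs0, hs1, hδ, hδ'] | nlinarith only [hs0, hs1, hδ, hδ'])
    exact mul_le_mul a1 q2 (abs_nonneg _) hs0.le
  have t3 : 0 ≤ s * (A + A') := mul_nonneg hs0.le hAs
  (first | linarith only [t1, t2, t3] | nlinarith only [t1, t2, t3])

end H98KB
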