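import Pool.Agent.H98.KB.Cob

/-!
# Coc : coercivity of `L` in `H¹` and the inverse estimate (uses the statement of `Cob`)

`φ₀` and `Q'` are orthogonal (`(φ₀,Q')=0` since `L` is symmetric with different eigenvalues `-μ₀`, `0`; or parity).
For `f ∈ Cl p q` (`0<p,q`; wlog `p,q ≤ 1` by `Cl_mono`) write `f = α φ₀ + β Q' + f₁`, `α=(f,φ₀)/|φ₀|²`,
`β=(f,Q')/|Q'|²`, `f₁ ⊥ φ₀,Q'`.  `L f = -μ₀ α φ₀ + L f₁`.
(1) `(L f,f) = -μ₀ α²|φ₀|² + (L f₁,f₁) ≥ -μ₀α²|φ₀|² + |f₁|² ≥ |f|² - C(f,φ₀)² - C(f,Q')²`.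
    Since `(Lf,f) ≥ |f'|² - C0|f|²`:  `(1+C0)... : (Lf,f) ≥ θ(|f'|²-C0|f|²)+(1-θ)(|f|²-C..)`, `θ=1/(2(1+C0))`.
(2) `|L f|² ` : `(L f,φ₀) = -μ₀ α |φ₀|²`, `(L f,f₁)=(L f₁,f₁) ≥ |f₁|²` so `|f₁| ≤ |L f|`, `|α| ≤ C|L f|`,
    `|f|² ≤ C|Lf|²+C(f,Q')²`; then `|f'|²+|f|² = (Lf,f)+∫Q^k f² ≤ |Lf||f|+C0|f|²`.
-/

open MeasureTheory Filter Topology Set
open scoped ContDiff

namespace H98KB

theorem Coc_int {p q : ℝ} {f g : ℝ → ℝ} (hp : 0 < p) (hq : 0 < q) (hf : Cl p q f)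
    (hg : Cl p q g) : Integrable (fun y => f y * g y) :=
  Cl_int (Cl_mul hf hg) (by linarith) (by linarith)

theorem Coc_add {p q : ℝ} {f g h : ℝ → ℝ} (c : ℝ) (hp : 0 < p) (hq : 0 < q) (hf : Cl p q f)
    (hg : Cl p q g) (hh : Cl p q h) :
    ip (fun y => f y + c * g y) h = ip f h + c * ip g h := by
  unfold ip
  rw [← integral_const_mul, ← integral_add (Coc_int hp hq hf hh)
    ((Coc_int hp hq hg hh).const_mul c)]
  congr 1
  funext y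
  ring

theorem Coc_comm (f g : ℝ → ℝ) : ip f g = ip g f := by
  unfold ip
  congr 1
  funext y
  ring

theorem Coc_lop {k : ℕ} {p q : ℝ} {f g : ℝ → ℝ} (c : ℝ) (hf : Cl p q f) (hg : Cl p q g) :
    Lop k (fun y => f y + c * g y) = fun y => Lop k f y + c * Lop k g y := by
  funext y
  have d1 : deriv (fun y => f y + c * g y) = fun y => deriv f y + c * deriv g y := by
    funext z
    exact ((Cl_hd hf z).add ((Cl_hd hg z).const_mul c)).deriv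
  have d2 : deriv (fun y => deriv f y + c * deriv g y) y =
      deriv (deriv f) y + c * deriv (deriv g) y :=
    ((Cl_hd (Cl_der hf) y).add ((Cl_hd (Cl_der hg) y).const_mul c)).deriv
  unfold Lop
  rw [d1, d2]
  ring

theorem Coc_sq (f : ℝ → ℝ) : ip f f = ∫ y, (f y) ^ 2 := by
  unfold ip
  congr 1
  funext y
  ring

theorem Coc_mu {k : ℕ} (hk : 2 ≤ k) : 0 < (1 + (k : ℝ) / 2) ^ 2 - 1 := by
  have : (2 : ℝ) ≤ (k : ℝ) := by exact_mod_cast hk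
  nlinarith

theorem Coc_phQ {k : ℕ} (hk : 2 ≤ k) : ip (ph0 k) (deriv (Qf k)) = 0 := by
  have hk1 : 1 ≤ k := by omega
  have h2 : (2 : ℝ) ≤ (k : ℝ) := by exact_mod_cast hk
  have hφ := Cl_ph0 hk1
  have hψ := Cl_der (Cl_Qf hk1)
  have h3 := Lop_symm hk1 hφ hψ (by linarith) (by linarith)
  have e1 : ip (ph0 k) (Lop k (deriv (Qf k))) = 0 := by
    unfold ip
    simp only [L_Qd hk1, mul_zero, integral_zero]
  have e2 : ip (Lop k (ph0 k)) (deriv (Qf k)) =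
      -((1 + (k : ℝ) / 2) ^ 2 - 1) * ip (ph0 k) (deriv (Qf k)) := by
    unfold ip
    rw [← integral_const_mul]
    congr 1
    funext y
    rw [L_ph0 hk1]
    ring
  rw [e1, e2] at h3
  have h4 := Coc_mu hk
  rcases mul_eq_zero.1 h3 with h | h
  · linarith
  · exact h

theorem Coc_N0 {k : ℕ} (hk : 2 ≤ k) : 0 < ip (ph0 k) (ph0 k) := by
  have hk1 : 1 ≤ k := by omega
  have h2 : (2 : ℝ) ≤ (k : ℝ) := by exact_mod_cast hk
  have hφ := Cl_ph0 hk1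
  rw [Coc_sq]
  have h0 : (0 : ℝ → ℝ) ≤ fun y => (ph0 k y) ^ 2 := fun y => sq_nonneg _
  have hi : Integrable (fun y => (ph0 k y) ^ 2) := by
    have := Coc_int (by linarith) (by linarith) hφ hφ
    refine this.congr (Eventually.of_forall fun y => ?_)
    simp only
    ring
  rw [integral_pos_iff_support_of_nonneg h0 hi]
  have hs : Function.support (fun y => (ph0 k y) ^ 2) = univ := by
    ext y
    simp only [Function.mem_support, mem_univ, iff_true]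
    exact (pow_pos (ph0_pos k y) 2).ne'
  rw [hs]
  simp

theorem Coc_N1 {k : ℕ} (hk : 2 ≤ k) : 0 < ip (deriv (Qf k)) (deriv (Qf k)) := by
  rw [Coc_sq]
  exact Qd2_pos (by omega)

theorem Coc_core {k : ℕ} (hk : 2 ≤ k) {p q : ℝ} {f : ℝ → ℝ} (hp : 0 < p) (hq : 0 < q)
    (hp1 : p ≤ 1) (hq1 : q ≤ 1) (hf : Cl p q f) :
    ∫ y, (f y) ^ 2 ≤ ip (Lop k f) f +
      ((1 + ((1 + (k : ℝ) / 2) ^ 2 - 1)) / ip (ph0 k) (ph0 k) * (ip f (ph0 k)) ^ 2 +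
        1 / ip (deriv (Qf k)) (deriv (Qf k)) * (ip f (deriv (Qf k))) ^ 2) := by
  have hk1 : 1 ≤ k := by omega
  have h2 : (2 : ℝ) ≤ (k : ℝ) := by exact_mod_cast hk
  have hφ : Cl p q (ph0 k) := Cl_mono (Cl_ph0 hk1) (by linarith) (by linarith)
  have hψ : Cl p q (deriv (Qf k)) := Cl_mono (Cl_der (Cl_Qf hk1)) hp1 hq1
  have hN0 := Coc_N0 hk
  have hN1 := Coc_N1 hk
  have h01 := Coc_phQ hk
  have h10 : ip (deriv (Qf k)) (ph0 k) = 0 := by rw [Coc_comm]; exact h01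
  obtain ⟨μ, hμ⟩ : ∃ μ : ℝ, μ = (1 + (k : ℝ) / 2) ^ 2 - 1 := ⟨_, rfl⟩
  have hLφ : Lop k (ph0 k) = fun y => -μ * ph0 k y := by
    funext y
    rw [L_ph0 hk1, hμ]
  have hLψ : Lop k (deriv (Qf k)) = fun _ => 0 := by
    funext y
    exact L_Qd hk1 y
  rw [← hμ]
  obtain ⟨φ, hφe⟩ : ∃ φ : ℝ → ℝ, φ = ph0 k := ⟨_, rfl⟩
  obtain ⟨ψ, hψe⟩ : ∃ ψ : ℝ → ℝ, ψ = deriv (Qf k) := ⟨_, rfl⟩
  rw [← hφe] at hφ hN0 h01 h10 hLφ ⊢
  rw [← hψe] at hψ hN1 h01 h10 hLψ ⊢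
  obtain ⟨α, hα⟩ : ∃ α : ℝ, α = ip f φ / ip φ φ := ⟨_, rfl⟩
  obtain ⟨β, hβ⟩ : ∃ β : ℝ, β = ip f ψ / ip ψ ψ := ⟨_, rfl⟩
  have hα' : α * ip φ φ = ip f φ := by rw [hα]; field_simp
  have hβ' : β * ip ψ ψ = ip f ψ := by rw [hβ]; field_simp
  have hf1 : Cl p q (fun y => f y + (-α) * φ y) := Cl_add hf (Cl_smul (-α) hφ)
  have hf2 : Cl p q (fun y => (f y + (-α) * φ y) + (-β) * ψ y) := Cl_add hf1 (Cl_smul (-β) hψ)
  obtain ⟨f1, hf1e⟩ : ∃ g : ℝ → ℝ, g = fun y => f y + (-α) * φ y := ⟨_, rfl⟩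
  obtain ⟨f2, hf2e⟩ : ∃ g : ℝ → ℝ, g = fun y => f1 y + (-β) * ψ y := ⟨_, rfl⟩
  have hf2' : f2 = fun y => (f y + (-α) * φ y) + (-β) * ψ y := by rw [hf2e, hf1e]
  rw [← hf1e] at hf1
  rw [← hf2'] at hf2
  have hLf := Cl_Lop hk1 hf
  have hLf2 := Cl_Lop hk1 hf2
  have hip1 : ∀ h : ℝ → ℝ, Cl p q h → ip f1 h = ip f h + (-α) * ip φ h := by
    intro h hh
    rw [hf1e]
    exact Coc_add (-α) hp hq hf hφ hh
  have hip2 : ∀ h : ℝ → ℝ, Cl p q h → ip f2 h = ip f h + (-α) * ip φ h + (-β) * ip ψ h := by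
    intro h hh
    rw [hf2e, Coc_add (-β) hp hq hf1 hψ hh, hip1 h hh]
  have e1 : ip f2 φ = 0 := by
    rw [hip2 φ hφ, h10]
    linarith
  have e2 : ip f2 ψ = 0 := by
    rw [hip2 ψ hψ, h01]
    linarith
  have hL2 : Lop k f2 = fun y => Lop k f y + (α * μ) * φ y := by
    rw [hf2e, Coc_lop (-β) hf1 hψ, hf1e, Coc_lop (-α) hf hφ, hLφ, hLψ]
    funext y
    ring
  have e3 : ip (Lop k f2) f2 = ip (Lop k f) f + μ * (α ^ 2 * ip φ φ) := by
    have e4 : ip (Lop k f2) f2 = ip (Lop k f2) f := by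
      rw [Coc_comm, hip2 _ hLf2, Coc_comm f (Lop k f2)]
      have e5 : ip φ (Lop k f2) = 0 := by
        rw [Coc_comm, Lop_symm hk1 hf2 hφ (by linarith) (by linarith), hLφ]
        have e6 : ip f2 (fun y => -μ * φ y) = -μ * ip f2 φ := by
          unfold ip
          rw [← integral_const_mul]
          congr 1
          funext y
          ring
        rw [e6, e1, mul_zero]
      have e7 : ip ψ (Lop k f2) = 0 := by
        rw [Coc_comm, Lop_symm hk1 hf2 hψ (by linarith) (by linarith), hLψ]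
        unfold ip
        simp
      rw [e5, e7]
      ring
    rw [e4, hL2, Coc_add (α * μ) hp hq hLf hφ hf, Coc_comm φ f, ← hα']
    ring
  have e8 : ip f2 f2 = ip f f - α ^ 2 * ip φ φ - β ^ 2 * ip ψ ψ := by
    rw [hip2 _ hf2, Coc_comm φ f2, Coc_comm ψ f2, e1, e2, Coc_comm f f2, hip2 _ hf,
      Coc_comm φ f, Coc_comm ψ f, ← hα', ← hβ']
    ring
  have h5 := L_ge_one hk hp hq hf2 (by rw [← hφe]; exact e1) (by rw [← hψe]; exact e2)
  rw [← Coc_sq, e3, e8] at h5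
  have e9 : α ^ 2 * ip φ φ = 1 / ip φ φ * (ip f φ) ^ 2 := by
    rw [hα]
    field_simp
  have e10 : β ^ 2 * ip ψ ψ = 1 / ip ψ ψ * (ip f ψ) ^ 2 := by
    rw [hβ]
    field_simp
  rw [← Coc_sq]
  have e11 : (1 + μ) / ip φ φ * (ip f φ) ^ 2 = (1 + μ) * (1 / ip φ φ * (ip f φ) ^ 2) := by
    ring
  rw [e11, ← e9, ← e10]
  linarith

theorem Coc_X {p q : ℝ} {f : ℝ → ℝ} (hp : 0 < p) (hq : 0 < q) (hf : Cl p q f) :
    Integrable (fun y => (f y) ^ 2) :=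
  (Coc_int hp hq hf hf).congr (Eventually.of_forall fun y => by simp only; ring)

theorem Coc_cs {p q : ℝ} {f g : ℝ → ℝ} (hp : 0 < p) (hq : 0 < q) (hf : Cl p q f)
    (hg : Cl p q g) {s : ℝ} (hs : 0 < s) :
    ip f g ≤ 1 / (2 * s) * (∫ y, (f y) ^ 2) + s / 2 * ∫ y, (g y) ^ 2 := by
  unfold ip
  rw [← integral_const_mul, ← integral_const_mul, ← integral_add
    ((Coc_X hp hq hf).const_mul _) ((Coc_X hp hq hg).const_mul _)]
  refine integral_mono (Coc_int hp hq hf hg) (((Coc_X hp hq hf).const_mul _).add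
    ((Coc_X hp hq hg).const_mul _)) fun y => ?_
  simp only
  have h1 : 1 / (2 * s) * f y ^ 2 + s / 2 * g y ^ 2 - f y * g y =
      1 / (2 * s) * (f y - s * g y) ^ 2 := by
    field_simp
    ring
  have h2 : 0 ≤ 1 / (2 * s) * (f y - s * g y) ^ 2 := by positivity
  linarith

theorem L_coer (k : ℕ) (hk : 2 ≤ k) : ∃ c C : ℝ, 0 < c ∧ 0 < C ∧ ∀ (p q : ℝ) (f : ℝ → ℝ),
    0 < p → 0 < q → Cl p q f →
    c * ∫ y, ((f y) ^ 2 + (deriv f y) ^ 2) ≤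
      (∫ y, ((deriv f y) ^ 2 + (f y) ^ 2 - Qf k y ^ k * (f y) ^ 2))
        + C * ((ip f (ph0 k)) ^ 2 + (ip f (deriv (Qf k))) ^ 2) := by
  have hk1 : 1 ≤ k := by omega
  have h2 : (2 : ℝ) ≤ (k : ℝ) := by exact_mod_cast hk
  have hN0 := Coc_N0 hk
  have hN1 := Coc_N1 hk
  have hμ := Coc_mu hk
  have hC0 : 0 < C0 k := by
    unfold C0
    positivity
  refine ⟨1 / (2 * (1 + C0 k)), (1 + ((1 + (k : ℝ) / 2) ^ 2 - 1)) / ip (ph0 k) (ph0 k) +
    1 / ip (deriv (Qf k)) (deriv (Qf k)), by positivity, by positivity, ?_⟩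
  intro p q f hp hq hf
  have hfm : Cl (min p 1) (min q 1) f := Cl_mono hf (min_le_left _ _) (min_le_left _ _)
  have hcore := Coc_core hk (lt_min hp one_pos) (lt_min hq one_pos) (min_le_right _ _)
    (min_le_right _ _) hfm
  have hdf := Cl_der hf
  have iX := Coc_X hp hq hdf
  have iY := Coc_X hp hq hf
  have iZ : Integrable (fun y => Qf k y ^ k * (f y) ^ 2) := by
    have hQ : Cl p q (fun y => Qf k y ^ k * f y) := by
      have := Cl_mul (Cl_Qk hk1) hf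
      exact Cl_mono this (by linarith) (by linarith)
    refine (Coc_int hp hq hQ hf).congr (Eventually.of_forall fun y => ?_)
    simp only
    ring
  have hb : ∫ y, ((deriv f y) ^ 2 + (f y) ^ 2 - Qf k y ^ k * (f y) ^ 2) =
      (∫ y, (deriv f y) ^ 2) + (∫ y, (f y) ^ 2) - ∫ y, Qf k y ^ k * (f y) ^ 2 := by
    have i1 : ∫ y, ((deriv f y) ^ 2 + (f y) ^ 2 - Qf k y ^ k * (f y) ^ 2) =
        (∫ y, ((deriv f y) ^ 2 + (f y) ^ 2)) - ∫ y, Qf k y ^ k * (f y) ^ 2 :=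
      integral_sub (iX.add iY) iZ
    rw [i1, integral_add iX iY]
  have hn : ∫ y, ((f y) ^ 2 + (deriv f y) ^ 2) = (∫ y, (f y) ^ 2) + ∫ y, (deriv f y) ^ 2 :=
    integral_add iY iX
  have hz : ∫ y, Qf k y ^ k * (f y) ^ 2 ≤ C0 k * ∫ y, (f y) ^ 2 := by
    rw [← integral_const_mul]
    refine integral_mono iZ (iY.const_mul _) fun y => ?_
    refine mul_le_mul_of_nonneg_right ?_ (sq_nonneg _)
    rw [Qf_pow hk1]
    nlinarith [sq_nonneg (th k y)]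
  rw [ip_L hk1 hp hq hf] at hcore
  have hBe : ∀ B : ℝ, B = ∫ y, ((deriv f y) ^ 2 + (f y) ^ 2 - Qf k y ^ k * (f y) ^ 2) →
      1 / (2 * (1 + C0 k)) * ∫ y, ((f y) ^ 2 + (deriv f y) ^ 2) ≤ B +
        ((1 + ((1 + (k : ℝ) / 2) ^ 2 - 1)) / ip (ph0 k) (ph0 k) +
          1 / ip (deriv (Qf k)) (deriv (Qf k))) *
            ((ip f (ph0 k)) ^ 2 + (ip f (deriv (Qf k))) ^ 2) := by
    intro B hB
    rw [← hB] at hcore hb
    rw [hn]
    have hX : 0 ≤ ∫ y, (deriv f y) ^ 2 := integral_nonneg fun y => sq_nonneg _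
    have hY : 0 ≤ ∫ y, (f y) ^ 2 := integral_nonneg fun y => sq_nonneg _
    have hu : 0 ≤ (ip f (ph0 k)) ^ 2 := sq_nonneg _
    have hv : 0 ≤ (ip f (deriv (Qf k))) ^ 2 := sq_nonneg _
    have hA : 0 ≤ (1 + ((1 + (k : ℝ) / 2) ^ 2 - 1)) / ip (ph0 k) (ph0 k) := by positivity
    have hA' : 0 ≤ 1 / ip (deriv (Qf k)) (deriv (Qf k)) := by positivity
    generalize (∫ y, (deriv f y) ^ 2) = X at *
    generalize (∫ y, (f y) ^ 2) = Y at *
    generalize (∫ y, Qf k y ^ k * (f y) ^ 2) = Z at *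
    generalize (1 + ((1 + (k : ℝ) / 2) ^ 2 - 1)) / ip (ph0 k) (ph0 k) = A at *
    generalize 1 / ip (deriv (Qf k)) (deriv (Qf k)) = A' at *
    generalize (ip f (ph0 k)) ^ 2 = u at *
    generalize (ip f (deriv (Qf k))) ^ 2 = v at *
    have h6 : A * u + A' * v ≤ (A + A') * (u + v) := by nlinarith [mul_nonneg hA hv, mul_nonneg hA' hu]
    generalize (A + A') * (u + v) = K at *
    have h7 : Y ≤ B + K := by linarith
    have h8 : X - C0 k * Y ≤ B := by linarith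
    have hK : 0 ≤ K := le_trans (by positivity) h6
    have hθ : 0 < 2 * (1 + C0 k) := by positivity
    rw [div_mul_eq_mul_div, one_mul, div_le_iff₀ hθ]
    (first | linarith only [mul_nonneg hC0.le hK, mul_nonneg hC0.le hY, mul_le_mul_of_nonneg_left h7 hC0.le, h7, hC0, hK, hX, hY, hb, hz] | nlinarith only [mul_nonneg hC0.le hK, mul_nonneg hC0.le hY, mul_le_mul_of_nonneg_left h7 hC0.le, h7, hC0, hK, hX, hY, hb, hz])
  exact hBe _ rfl

theorem L_inv (k : ℕ) (hk : 2 ≤ k) : ∃ C : ℝ, 0 < C ∧ ∀ (p q : ℝ) (f : ℝ → ℝ),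
    0 < p → 0 < q → Cl p q f →
    ∫ y, ((f y) ^ 2 + (deriv f y) ^ 2) ≤
      C * ((∫ y, (Lop k f y) ^ 2) + (ip f (deriv (Qf k))) ^ 2) := by
  have hk1 : 1 ≤ k := by omega
  have h2 : (2 : ℝ) ≤ (k : ℝ) := by exact_mod_cast hk
  obtain ⟨c, C, hc, hC, hco⟩ := L_coer k hk
  have hN0 := Coc_N0 hk
  have hμ := Coc_mu hk
  obtain ⟨μ, hμe⟩ : ∃ μ : ℝ, μ = (1 + (k : ℝ) / 2) ^ 2 - 1 := ⟨_, rfl⟩
  have hLφ : Lop k (ph0 k) = fun y => -μ * ph0 k y := by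
    funext y
    rw [L_ph0 hk1, hμe]
  rw [← hμe] at hμ
  refine ⟨2 / c * (1 / (2 * c) + C * (ip (ph0 k) (ph0 k) / μ ^ 2) + C), by positivity, ?_⟩
  intro p q f hp hq hf
  have h3 := hco p q f hp hq hf
  rw [← ip_L hk1 hp hq hf] at h3
  have hLf := Cl_Lop hk1 hf
  have h4 := Coc_cs hp hq hLf hf hc
  have hX : 0 ≤ ∫ y, (deriv f y) ^ 2 := integral_nonneg fun y => sq_nonneg _
  have hn : ∫ y, ((f y) ^ 2 + (deriv f y) ^ 2) = (∫ y, (f y) ^ 2) + ∫ y, (deriv f y) ^ 2 :=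
    integral_add (Coc_X hp hq hf) (Coc_X hp hq (Cl_der hf))
  have h5 : (ip f (ph0 k)) ^ 2 ≤ ip (ph0 k) (ph0 k) / μ ^ 2 * ∫ y, (Lop k f y) ^ 2 := by
    have hφ := Cl_ph0 hk1
    have e1 : ip (Lop k f) (ph0 k) = -μ * ip f (ph0 k) := by
      rw [Lop_symm hk1 hf hφ (by linarith) (by linarith), hLφ]
      unfold ip
      rw [← integral_const_mul]
      congr 1
      funext y
      ring
    have h6 := (cs_int (Cl_cont hLf) (Cl_cont hφ) (Coc_X hp hq hLf)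
      (Coc_X (by linarith) (by linarith) hφ)).2
    have h7 : |ip (Lop k f) (ph0 k)| ≤ √(∫ y, (Lop k f y) ^ 2) * √(∫ y, (ph0 k y) ^ 2) := h6
    have h8 : (ip (Lop k f) (ph0 k)) ^ 2 ≤ (∫ y, (Lop k f y) ^ 2) * ∫ y, (ph0 k y) ^ 2 := by
      have h9 := pow_le_pow_left₀ (abs_nonneg _) h7 2
      rw [sq_abs, mul_pow, Real.sq_sqrt (integral_nonneg fun y => sq_nonneg _),
        Real.sq_sqrt (integral_nonneg fun y => sq_nonneg _)] at h9
      exact h9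
    rw [e1, ← Coc_sq (ph0 k)] at h8
    rw [div_mul_eq_mul_div, le_div_iff₀ (by positivity)]
    (first | linarith only [h8] | nlinarith only [h8])
  rw [hn] at h3 ⊢
  have hW : 0 ≤ ∫ y, (Lop k f y) ^ 2 := integral_nonneg fun y => sq_nonneg _
  have hv : 0 ≤ (ip f (deriv (Qf k))) ^ 2 := sq_nonneg _
  have hD : 0 ≤ ip (ph0 k) (ph0 k) / μ ^ 2 := by positivity
  generalize (∫ y, (deriv f y) ^ 2) = X at *
  generalize (∫ y, (f y) ^ 2) = Y at *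
  generalize (∫ y, (Lop k f y) ^ 2) = W at *
  generalize (ip f (deriv (Qf k))) ^ 2 = v at *
  generalize (ip f (ph0 k)) ^ 2 = u at *
  generalize ip (Lop k f) f = B at *
  generalize ip (ph0 k) (ph0 k) / μ ^ 2 = D at *
  have h10 : c / 2 * (Y + X) ≤ (1 / (2 * c) + C * D) * W + C * v := by
    have h11 := mul_le_mul_of_nonneg_left h5 hC.le
    nlinarith [mul_nonneg hc.le hX]
  have h12 : (1 / (2 * c) + C * D) * W + C * v ≤ (1 / (2 * c) + C * D + C) * (W + v) := by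
    have h13 : 0 ≤ 1 / (2 * c) := by positivity
    have h14 : 0 ≤ C * D := by positivity
    nlinarith [mul_nonneg h13 hv, mul_nonneg h14 hv, mul_nonneg hC.le hW]
  have h15 : Y + X = 2 / c * (c / 2 * (Y + X)) := by
    field_simp
  rw [h15, mul_assoc]
  exact mul_le_mul_of_nonneg_left (h10.trans h12) (by positivity)

end H98KB
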