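import Pool.Agent.H98.KB.Smb
import Pool.Agent.H98.KB.Coc
import Pool.Agent.H98.KB.Wts

/-!
# Inv : the weighted inversion estimate (section 4 of the note)

Let `v = vf k δ ε` and `h = ε - δ v`.  Since `v-δv''=Lε` (`vf_L`):
`L h = Lε - δ(-v''+v-Q^kv) = (1-δ+δQ^k) v`, `|L h| ≤ (1+C0)|v|`.
Let `r = sech(γy) sech(y/B)` (so `r² = loc γ B`), `F = r h ∈ Cl p q`.  `|r'| ≤ γ' r`, `|r''| ≤ 3γ'^2 r`, `γ'=γ+1/B ≤ 2γ`.
`L F = r L h - 2r'h' - r''h`, `r' h' = (r'/r)F' - (r'/r)²F`, so `|LF| ≤ (1+C0) r|v| + 2γ'|F'| + 5γ'^2|F|`.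
`(F,Q') = (h,Q') + (F,(1-1/r)Q')`, `0 ≤ 1/r - 1 ≤ e^{γ'|y|}-1 ≤ γ'|y|e^{γ'|y|}`, so `|(F,Q')| ≤ |(h,Q')|+Cγ'|F|`.
`(h,Q') = (ε,Q')-δ(v,Q')`, `|(v,Q')| ≤ |r v| |Q'/r| ≤ C|rv|`.
`L_inv` applied to `F`: `|F|²_{H¹} ≤ C(|rv|² + γ'^2|F|²_{H¹} + (ε,Q')²)`; absorb for `γ ≤ γ₀`.
Finally `r ε = F + δ r v`, `r ε' = (F' - (r'/r)F) + δ r v'`.
-/

open MeasureTheory Filter Topology Set
open scoped ContDiff

namespace H98KB

noncomputable def Inv_r (γ B y : ℝ) : ℝ := 1 / Real.cosh (γ * y) * (1 / Real.cosh (1 / B * y))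

noncomputable def Inv_s (γ B y : ℝ) : ℝ :=
  γ * Real.tanh (γ * y) + 1 / B * Real.tanh (1 / B * y)

noncomputable def Inv_t (γ B y : ℝ) : ℝ :=
  γ * (γ * (1 - Real.tanh (γ * y) ^ 2)) + 1 / B * (1 / B * (1 - Real.tanh (1 / B * y) ^ 2))

noncomputable def Inv_ph (Q y : ℝ) : ℝ := Q * ((1 + |y|) * Real.exp (-(3 / 4 * |y|)))

theorem Inv_sech (c y : ℝ) : HasDerivAt (fun y => 1 / Real.cosh (c * y))
    (-(c * Real.tanh (c * y)) * (1 / Real.cosh (c * y))) y := by
  have h1 : HasDerivAt (fun y => c * y) c y := by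
    simpa using (hasDerivAt_id y).const_mul c
  have h2 : HasDerivAt (fun y => Real.cosh (c * y)) (Real.sinh (c * y) * c) y := h1.cosh
  have h3 := h2.inv (Real.cosh_pos (c * y)).ne'
  have h4 : (fun y => 1 / Real.cosh (c * y)) = (fun y => Real.cosh (c * y))⁻¹ := by
    funext z
    simp
  rw [h4]
  refine h3.congr_deriv ?_
  have h5 := (Real.cosh_pos (c * y)).ne'
  rw [Real.tanh_eq_sinh_div_cosh]
  field_simp

theorem Inv_rpos (γ B y : ℝ) : 0 < Inv_r γ B y :=
  mul_pos (one_div_pos.2 (Real.cosh_pos _)) (one_div_pos.2 (Real.cosh_pos _))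

theorem Inv_rhd (γ B y : ℝ) : HasDerivAt (Inv_r γ B) (-(Inv_s γ B y) * Inv_r γ B y) y := by
  refine ((Inv_sech γ y).mul (Inv_sech (1 / B) y)).congr_deriv ?_
  unfold Inv_s Inv_r
  ring

theorem Inv_shd (γ B y : ℝ) : HasDerivAt (Inv_s γ B) (Inv_t γ B y) y :=
  ((tanh_hd γ y).const_mul γ).add ((tanh_hd (1 / B) y).const_mul (1 / B))

theorem Inv_cosh (x : ℝ) : Real.cosh x ≤ Real.exp |x| := by
  rw [Real.cosh_eq]
  have h1 := Real.exp_le_exp.2 (le_abs_self x)
  have h2 := Real.exp_le_exp.2 (neg_le_abs x)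
  linarith

theorem Inv_loc (γ B y : ℝ) : loc γ B y = Inv_r γ B y ^ 2 := by
  have h : y / B = 1 / B * y := by ring
  unfold loc se2 ch Inv_r
  rw [h]
  ring

section bounds

variable {γ B : ℝ}

theorem Inv_Rle (hγ : 0 < γ) (hB : 0 < B) (y : ℝ) :
    1 ≤ 1 / Inv_r γ B y ∧ 1 / Inv_r γ B y ≤ Real.exp ((γ + 1 / B) * |y|) := by
  have h0 : 1 / Inv_r γ B y = Real.cosh (γ * y) * Real.cosh (1 / B * y) := by
    have h1 := (Real.cosh_pos (γ * y)).ne'
    have h2 := (Real.cosh_pos (1 / B * y)).ne'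
    unfold Inv_r
    rw [← one_div_mul_one_div, one_div_one_div, one_div_one_div]
  rw [h0]
  constructor
  · exact one_le_mul_of_one_le_of_one_le (Real.one_le_cosh _) (Real.one_le_cosh _)
  · have h3 := Inv_cosh (γ * y)
    have h4 := Inv_cosh (1 / B * y)
    have hB' : 0 < 1 / B := by positivity
    rw [abs_mul, abs_of_pos hγ] at h3
    rw [abs_mul, abs_of_pos hB'] at h4
    rw [add_mul, Real.exp_add]
    exact mul_le_mul h3 h4 (Real.cosh_pos _).le (Real.exp_pos _).le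

theorem Inv_sle (hγ : 0 < γ) (hB : 0 < B) (y : ℝ) : |Inv_s γ B y| ≤ γ + 1 / B := by
  have hB' : 0 < 1 / B := by positivity
  have h1 := (tanh_abs_lt (γ * y)).le
  have h2 := (tanh_abs_lt (1 / B * y)).le
  unfold Inv_s
  refine (abs_add_le _ _).trans ?_
  rw [abs_mul, abs_mul, abs_of_pos hγ, abs_of_pos hB']
  refine add_le_add ?_ ?_
  · simpa using mul_le_mul_of_nonneg_left h1 hγ.le
  · simpa using mul_le_mul_of_nonneg_left h2 hB'.le

theorem Inv_tle (hγ : 0 < γ) (hB : 0 < B) (y : ℝ) :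
    0 ≤ Inv_t γ B y ∧ Inv_t γ B y ≤ (γ + 1 / B) ^ 2 := by
  have hB' : 0 < 1 / B := by positivity
  have h1 := abs_lt.1 (tanh_abs_lt (γ * y))
  have h2 := abs_lt.1 (tanh_abs_lt (1 / B * y))
  have h3 : 0 ≤ 1 - Real.tanh (γ * y) ^ 2 := by nlinarith
  have h4 : 0 ≤ 1 - Real.tanh (1 / B * y) ^ 2 := by nlinarith
  have h5 : 1 - Real.tanh (γ * y) ^ 2 ≤ 1 := by nlinarith [sq_nonneg (Real.tanh (γ * y))]
  have h6 : 1 - Real.tanh (1 / B * y) ^ 2 ≤ 1 := by nlinarith [sq_nonneg (Real.tanh (1 / B * y))]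
  unfold Inv_t
  constructor
  · positivity
  · have h7 : γ * (γ * (1 - Real.tanh (γ * y) ^ 2)) ≤ γ * (γ * 1) :=
      mul_le_mul_of_nonneg_left (mul_le_mul_of_nonneg_left h5 hγ.le) hγ.le
    have h8 : 1 / B * (1 / B * (1 - Real.tanh (1 / B * y) ^ 2)) ≤ 1 / B * (1 / B * 1) :=
      mul_le_mul_of_nonneg_left (mul_le_mul_of_nonneg_left h6 hB'.le) hB'.le
    nlinarith [mul_pos hγ hB']

end bounds

/-- `L (r h)` -/
theorem Inv_Lop (k : ℕ) {γ B p q : ℝ} {h : ℝ → ℝ} (hh : Cl p q h) (y : ℝ) :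
    deriv (fun y => Inv_r γ B y * h y) y =
      -(Inv_s γ B y) * (Inv_r γ B y * h y) + Inv_r γ B y * deriv h y ∧
    Lop k (fun y => Inv_r γ B y * h y) y = Inv_r γ B y * Lop k h y +
      2 * Inv_s γ B y * deriv (fun y => Inv_r γ B y * h y) y +
      (Inv_s γ B y ^ 2 + Inv_t γ B y) * (Inv_r γ B y * h y) := by
  have d1 : ∀ z, HasDerivAt (fun y => Inv_r γ B y * h y)
      (-(Inv_s γ B z) * (Inv_r γ B z * h z) + Inv_r γ B z * deriv h z) z := by
    intro z
    refine ((Inv_rhd γ B z).mul (Cl_hd hh z)).congr_deriv ?_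
    ring
  have e1 : deriv (fun y => Inv_r γ B y * h y) =
      fun z => -(Inv_s γ B z) * (Inv_r γ B z * h z) + Inv_r γ B z * deriv h z :=
    funext fun z => (d1 z).deriv
  refine ⟨(d1 y).deriv, ?_⟩
  have d2 : HasDerivAt (fun z => -(Inv_s γ B z) * (Inv_r γ B z * h z) + Inv_r γ B z * deriv h z)
      ((-(Inv_t γ B y)) * (Inv_r γ B y * h y) + -(Inv_s γ B y) *
        (-(Inv_s γ B y) * (Inv_r γ B y * h y) + Inv_r γ B y * deriv h y) +
        ((-(Inv_s γ B y) * Inv_r γ B y) * deriv h y + Inv_r γ B y * deriv (deriv h) y)) y :=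
    ((Inv_shd γ B y).neg.mul (d1 y)).add ((Inv_rhd γ B y).mul (Cl_hd (Cl_der hh) y))
  unfold Lop
  rw [e1, d2.deriv]
  ring

theorem Inv_phc (Q : ℝ) : Continuous (Inv_ph Q) := by
  unfold Inv_ph
  fun_prop

theorem Inv_ph2 (Q : ℝ) : Integrable (fun y => Inv_ph Q y ^ 2) := by
  refine int_of_bd (p := 1) (q := 1) ((Inv_phc Q).pow 2) one_pos one_pos ⟨Q ^ 2 * 16, fun y => ?_⟩
  rw [bd_abs, abs_of_nonneg (sq_nonneg _)]
  unfold Inv_ph
  have h0 := abs_nonneg y
  have h1 : 1 + |y| ≤ 4 * Real.exp (|y| / 4) := by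
    have := Real.add_one_le_exp (|y| / 4)
    linarith
  have h2 : (1 + |y|) * Real.exp (-(3 / 4 * |y|)) ≤ 4 * Real.exp (-(|y| / 2)) := by
    refine (mul_le_mul_of_nonneg_right h1 (Real.exp_pos _).le).trans (le_of_eq ?_)
    rw [mul_assoc, ← Real.exp_add]
    congr 2
    ring
  have h3 : ((1 + |y|) * Real.exp (-(3 / 4 * |y|))) ^ 2 ≤ 16 * Real.exp (-(1 * |y|)) := by
    have h4 : 0 ≤ (1 + |y|) * Real.exp (-(3 / 4 * |y|)) := by positivity
    refine (pow_le_pow_left₀ h4 h2 2).trans (le_of_eq ?_)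
    rw [mul_pow, ← Real.exp_nat_mul]
    norm_num
    ring
  rw [mul_pow, mul_assoc]
  exact mul_le_mul_of_nonneg_left h3 (sq_nonneg Q)

theorem Inv_cs {Q c : ℝ} {F G : ℝ → ℝ} (hc : 0 ≤ c) (hF : Continuous F)
    (hF2 : Integrable (fun y => F y ^ 2)) (hG : ∀ y, |G y| ≤ c * (|F y| * Inv_ph Q y)) :
    (∫ y, G y) ^ 2 ≤ c ^ 2 * ((∫ y, F y ^ 2) * ∫ y, Inv_ph Q y ^ 2) := by
  have h1 : ∀ y, |F y| ^ 2 = F y ^ 2 := fun y => sq_abs _
  obtain ⟨i1, i2⟩ := cs_int (F := fun y => |F y|) (G := Inv_ph Q) hF.abs (Inv_phc Q)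
    (by simpa only [h1] using hF2) (Inv_ph2 Q)
  simp only [h1] at i2
  have h2 : |∫ y, G y| ≤ c * (√(∫ y, F y ^ 2) * √(∫ y, Inv_ph Q y ^ 2)) := by
    refine abs_integral_le_integral_abs.trans ?_
    refine (integral_mono_of_nonneg (Eventually.of_forall fun y => abs_nonneg _)
      (i1.const_mul c) (Eventually.of_forall hG)).trans ?_
    rw [integral_const_mul]
    exact mul_le_mul_of_nonneg_left ((le_abs_self _).trans i2) hc
  have h3 : 0 ≤ ∫ y, F y ^ 2 := integral_nonneg fun y => sq_nonneg _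
  have h4 : 0 ≤ ∫ y, Inv_ph Q y ^ 2 := integral_nonneg fun y => sq_nonneg _
  calc (∫ y, G y) ^ 2 = |∫ y, G y| ^ 2 := (sq_abs _).symm
    _ ≤ (c * (√(∫ y, F y ^ 2) * √(∫ y, Inv_ph Q y ^ 2))) ^ 2 :=
        pow_le_pow_left₀ (abs_nonneg _) h2 2
    _ = c ^ 2 * (√(∫ y, F y ^ 2) ^ 2 * √(∫ y, Inv_ph Q y ^ 2) ^ 2) := by ring
    _ = _ := by rw [Real.sq_sqrt h3, Real.sq_sqrt h4]

theorem Inv_sq3 (a b c : ℝ) : (a + b + c) ^ 2 ≤ 3 * a ^ 2 + 3 * b ^ 2 + 3 * c ^ 2 := by
  nlinarith [sq_nonneg (a - b), sq_nonneg (a - c), sq_nonneg (b - c)]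

theorem inv_loc (k : ℕ) (hk : 2 ≤ k) : ∃ γ₀ C : ℝ, 0 < γ₀ ∧ γ₀ ≤ 1 / 8 ∧ 0 < C ∧
    ∀ γ B δ : ℝ, 0 < γ → γ ≤ γ₀ → 16 ≤ B → 1 / γ ≤ B → 0 < δ → δ ≤ 1 / 16 →
    ∀ (p q : ℝ) (ε : ℝ → ℝ), 0 < p → p ≤ 1 → 0 < q → q ≤ 1 → Cl p q ε →
    ln γ B ε ≤ C * ((∫ y, loc γ B y * ((vf k δ ε y) ^ 2 + (deriv (vf k δ ε) y) ^ 2))
      + (ip ε (deriv (Qf k))) ^ 2) := by
  have hk1 : 1 ≤ k := by omega
  obtain ⟨CL, hCL, hL⟩ := L_inv k hk
  obtain ⟨Q, hQ, hQh⟩ := Qf_hi hk1
  set D : ℝ := ∫ y, Inv_ph Q y ^ 2 with hD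
  have hD0 : 0 ≤ D := integral_nonneg fun y => sq_nonneg _
  set K : ℝ := CL * (12 + 3 * D) with hK
  have hK0 : 0 < K := by positivity
  set A : ℝ := 3 * (1 + C0 k) ^ 2 + 3 * D with hA
  have hA0 : 0 ≤ A := by positivity
  have hC00 : 0 ≤ C0 k := by unfold C0; positivity
  -- the choice of `γ₀`
  set γ₀ : ℝ := min (1 / 8) (1 / (8 * (K + 1))) with hγ₀
  have hγ₀p : 0 < γ₀ := lt_min (by norm_num) (by positivity)
  refine ⟨γ₀, 5 * (2 * CL * (A + 3)) + 3, hγ₀p, min_le_left _ _, by positivity, ?_⟩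
  intro γ B δ hγ hγ' hB hγB hδ hδ' p q ε hp hp' hq hq' hε
  have hB0 : 0 < B := by linarith
  have hp2 : |p| ≤ 2 := by rw [abs_of_pos hp]; linarith
  have hq2 : |q| ≤ 2 := by rw [abs_of_pos hq]; linarith
  set g : ℝ := γ + 1 / B with hg
  have hB1 : 0 < 1 / B := by positivity
  have hg0 : 0 < g := by positivity
  have hg1 : g ≤ 2 * γ := by
    have h1 : 1 / B ≤ γ := by
      rw [div_le_iff₀ hB0]
      rw [div_le_iff₀ hγ] at hγB
      linarith
    linarith
  have hg2 : g ≤ 1 / 4 := by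
    have h1 : γ ≤ 1 / 8 := hγ'.trans (min_le_left _ _)
    linarith
  have hgK : 2 * (g ^ 2 * K) ≤ 1 := by
    have h1 : γ ≤ 1 / (8 * (K + 1)) := hγ'.trans (min_le_right _ _)
    have h2 : g ≤ 1 / (4 * (K + 1)) := by
      refine hg1.trans ((mul_le_mul_of_nonneg_left h1 (by norm_num)).trans (le_of_eq ?_))
      field_simp
      norm_num
    have h3 : g * (4 * (K + 1)) ≤ 1 := by
      rw [le_div_iff₀ (by positivity)] at h2
      exact h2
    (first | linarith only [mul_pos hg0 hK0, mul_nonneg hg0.le hK0.le, h3, hB1, hg2, hγ, hδ, hδ'] | nlinarith only [mul_pos hg0 hK0, mul_nonneg hg0.le hK0.le, h3, hB1, hg2, hγ, hδ, hδ'])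
  -- the functions
  set v : ℝ → ℝ := vf k δ ε with hv
  have hvC : Cl p q v := Cl_vf hk1 hδ hδ' hp2 hq2 hε
  set h : ℝ → ℝ := fun y => ε y - δ * v y with hh
  have hhC : Cl p q h := Cl_sub hε (Cl_smul δ hvC)
  have hr : Cl g g (Inv_r γ B) := by
    have h1 := Cl_mul (Cl_sech hγ) (Cl_sech hB1)
    exact h1
  set F : ℝ → ℝ := fun y => Inv_r γ B y * h y with hF
  have hFC : Cl p q F := Cl_mono (Cl_mul hr hhC) (by linarith) (by linarith)
  have hrv : Cl p q (fun y => Inv_r γ B y * v y) :=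
    Cl_mono (Cl_mul hr hvC) (by linarith) (by linarith)
  have hrv' : Cl p q (fun y => Inv_r γ B y * deriv v y) :=
    Cl_mono (Cl_mul hr (Cl_der hvC)) (by linarith) (by linarith)
  have sqi : ∀ {G : ℝ → ℝ}, Cl p q G → Integrable (fun y => G y ^ 2) := fun hG =>
    Cl_int (Cl_pow' hG hp.le hq.le 2 (by norm_num)) hp hq
  have iF := sqi hFC
  have iF' := sqi (Cl_der hFC)
  have irv := sqi hrv
  have irv' := sqi hrv'
  set N : ℝ := ∫ y, ((F y) ^ 2 + (deriv F y) ^ 2) with hN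
  set V0 : ℝ := ∫ y, (Inv_r γ B y * v y) ^ 2 with hV0
  set V : ℝ := ∫ y, loc γ B y * ((v y) ^ 2 + (deriv v y) ^ 2) with hV
  have hV0' : V0 ≤ V := by
    have e : (fun y => loc γ B y * ((v y) ^ 2 + (deriv v y) ^ 2)) = fun y =>
        (Inv_r γ B y * v y) ^ 2 + (Inv_r γ B y * deriv v y) ^ 2 := by
      funext y
      rw [Inv_loc]
      ring
    rw [hV, e, hV0]
    refine integral_mono irv (irv.add irv') fun y => ?_
    simp only
    (first | linarith only [sq_nonneg (Inv_r γ B y * deriv v y)] | nlinarith only [sq_nonneg (Inv_r γ B y * deriv v y)])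
  have hV00 : 0 ≤ V0 := integral_nonneg fun y => sq_nonneg _
  have hN0 : ∫ y, F y ^ 2 ≤ N := by
    refine integral_mono iF (iF.add iF') fun y => ?_
    simp only
    (first | linarith only [sq_nonneg (deriv F y)] | nlinarith only [sq_nonneg (deriv F y)])
  have hF20 : 0 ≤ ∫ y, F y ^ 2 := integral_nonneg fun y => sq_nonneg _
  have hN00 : 0 ≤ N := hF20.trans hN0
  -- `L h`
  have hLh : ∀ y, Lop k h y = (1 - δ + δ * Qf k y ^ k) * v y := by
    intro y
    have e1 : deriv h = fun z => deriv ε z - δ * deriv v z := funext fun z =>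
      ((Cl_hd hε z).sub ((Cl_hd hvC z).const_mul δ)).deriv
    have e2 : deriv (deriv h) y = deriv (deriv ε) y - δ * deriv (deriv v) y := by
      rw [e1]
      exact ((Cl_hd (Cl_der hε) y).sub ((Cl_hd (Cl_der hvC) y).const_mul δ)).deriv
    have e3 := vf_L hk1 hδ hδ' hp2 hq2 hε y
    rw [← hv] at e3
    unfold Lop at e3 ⊢
    rw [e2]
    simp only [hh]
    linear_combination -e3
  have hQk : ∀ y, 0 ≤ Qf k y ^ k ∧ Qf k y ^ k ≤ C0 k := by
    intro y
    have h1 := Qf_pow hk1 y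
    have h2 := sq_nonneg (th k y)
    refine ⟨pow_nonneg (Qf_pos k y).le k, ?_⟩
    rw [h1]
    (first | linarith only [mul_nonneg hC00 h2, h2, hC00] | nlinarith only [mul_nonneg hC00 h2, h2, hC00])
  have hLhb : ∀ y, |Lop k h y| ≤ (1 + C0 k) * |v y| := by
    intro y
    rw [hLh, abs_mul]
    refine mul_le_mul_of_nonneg_right ?_ (abs_nonneg _)
    obtain ⟨h1, h2⟩ := hQk y
    have h3 : 0 ≤ δ * Qf k y ^ k := mul_nonneg hδ.le h1
    have h4 : δ * Qf k y ^ k ≤ 1 * C0 k := mul_le_mul (by linarith) h2 h1 zero_le_one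
    rw [abs_of_nonneg (by linarith)]
    linarith
  -- `L F`
  have hLF : ∀ y, (Lop k F y) ^ 2 ≤ 3 * (1 + C0 k) ^ 2 * (Inv_r γ B y * v y) ^ 2 +
      12 * g ^ 2 * ((F y) ^ 2 + (deriv F y) ^ 2) := by
    intro y
    obtain ⟨-, h2⟩ := Inv_Lop k (γ := γ) (B := B) hhC y
    have h2' : Lop k F y = Inv_r γ B y * Lop k h y + 2 * Inv_s γ B y * deriv F y +
      (Inv_s γ B y ^ 2 + Inv_t γ B y) * F y := h2
    rw [h2']
    refine (Inv_sq3 _ _ _).trans ?_
    have b1 : (Inv_r γ B y * Lop k h y) ^ 2 ≤ (1 + C0 k) ^ 2 * (Inv_r γ B y * v y) ^ 2 := by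
      have h3 : (Lop k h y) ^ 2 ≤ ((1 + C0 k) * |v y|) ^ 2 := by
        rw [← sq_abs (Lop k h y)]
        exact pow_le_pow_left₀ (abs_nonneg _) (hLhb y) 2
      rw [mul_pow, mul_pow, sq_abs] at *
      (first | linarith only [mul_le_mul_of_nonneg_left h3 (sq_nonneg (Inv_r γ B y)), h3] | nlinarith only [mul_le_mul_of_nonneg_left h3 (sq_nonneg (Inv_r γ B y)), h3])
    have hs := Inv_sle hγ hB0 y
    have hs2 : Inv_s γ B y ^ 2 ≤ g ^ 2 := by
      rw [← sq_abs (Inv_s γ B y)]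
      exact pow_le_pow_left₀ (abs_nonneg _) hs 2
    have b2 : (2 * Inv_s γ B y * deriv F y) ^ 2 ≤ 4 * g ^ 2 * (deriv F y) ^ 2 := by
      (first | linarith only [mul_le_mul_of_nonneg_right hs2 (sq_nonneg (deriv F y)), hs2] | nlinarith only [mul_le_mul_of_nonneg_right hs2 (sq_nonneg (deriv F y)), hs2])
    obtain ⟨t1, t2⟩ := Inv_tle hγ hB0 y
    have b3 : ((Inv_s γ B y ^ 2 + Inv_t γ B y) * F y) ^ 2 ≤ 4 * g ^ 2 * (F y) ^ 2 := by
      have h5 : 0 ≤ Inv_s γ B y ^ 2 + Inv_t γ B y := add_nonneg (sq_nonneg _) t1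
      have h6 : Inv_s γ B y ^ 2 + Inv_t γ B y ≤ 2 * g := by
        have h7 : g ^ 2 ≤ g := by (first | linarith only [hB1, hg1, hg2, hγ, hδ, hδ'] | nlinarith only [hB1, hg1, hg2, hγ, hδ, hδ'])
        have t2' : Inv_t γ B y ≤ g ^ 2 := t2
        linarith
      have h8 : (Inv_s γ B y ^ 2 + Inv_t γ B y) ^ 2 ≤ (2 * g) ^ 2 := pow_le_pow_left₀ h5 h6 2
      rw [mul_pow]
      (first | linarith only [mul_le_mul_of_nonneg_right h8 (sq_nonneg (F y)), h8] | nlinarith only [mul_le_mul_of_nonneg_right h8 (sq_nonneg (F y)), h8])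
    (first | linarith only [b1, b2, b3, b1, b2, b3] | nlinarith only [b1, b2, b3, b1, b2, b3])
  have hLF2 : ∫ y, (Lop k F y) ^ 2 ≤ 3 * (1 + C0 k) ^ 2 * V0 + 12 * g ^ 2 * N := by
    have e := integral_add (irv.const_mul (3 * (1 + C0 k) ^ 2))
      ((iF.add iF').const_mul (12 * g ^ 2))
    rw [integral_const_mul, integral_const_mul] at e
    exact (integral_mono_of_nonneg (Eventually.of_forall fun y => sq_nonneg _)
      ((irv.const_mul _).add ((iF.add iF').const_mul _)) (Eventually.of_forall hLF)).trans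
        (le_of_eq e)
  -- the scalar products
  have hQd : Cl 1 1 (deriv (Qf k)) := Cl_der (Cl_Qf hk1)
  have hQdb : ∀ y, |deriv (Qf k) y| ≤ Q * Real.exp (-|y|) := by
    intro y
    rw [Qf_deriv hk1]
    simp only
    rw [abs_mul, abs_neg, abs_of_pos (Qf_pos k y)]
    have h1 := (th_abs_lt k y).le
    have h2 := mul_le_mul_of_nonneg_right h1 (Qf_pos k y).le
    rw [one_mul] at h2
    exact h2.trans (hQh y)
  have hRle : ∀ y, 1 / Inv_r γ B y ≤ Real.exp (|y| / 4) := by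
    intro y
    refine (Inv_Rle hγ hB0 y).2.trans (Real.exp_le_exp.2 ?_)
    have := mul_le_mul_of_nonneg_right hg2 (abs_nonneg y)
    rw [← hg]
    linarith
  have hipv : (ip v (deriv (Qf k))) ^ 2 ≤ V0 * D := by
    have h1 := Inv_cs (Q := Q) (c := 1) (F := fun y => Inv_r γ B y * v y)
      (G := fun y => v y * deriv (Qf k) y) zero_le_one (Cl_cont hrv) irv (by
        intro y
        have r0 := Inv_rpos γ B y
        have e1 : |v y * deriv (Qf k) y| = |Inv_r γ B y * v y| *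
            (1 / Inv_r γ B y * |deriv (Qf k) y|) := by
          rw [abs_mul, abs_mul, abs_of_pos r0]
          field_simp
        rw [e1, one_mul]
        refine mul_le_mul_of_nonneg_left ?_ (abs_nonneg _)
        have h3 : 1 / Inv_r γ B y * |deriv (Qf k) y| ≤
            Real.exp (|y| / 4) * (Q * Real.exp (-|y|)) :=
          mul_le_mul (hRle y) (hQdb y) (abs_nonneg _) (Real.exp_pos _).le
        refine h3.trans ?_
        have h4 : Real.exp (|y| / 4) * (Q * Real.exp (-|y|)) =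
            Q * (1 * Real.exp (-(3 / 4 * |y|))) := by
          rw [one_mul, mul_left_comm, ← Real.exp_add]
          congr 2
          ring
        rw [h4]
        unfold Inv_ph
        refine mul_le_mul_of_nonneg_left ?_ hQ.le
        refine mul_le_mul_of_nonneg_right ?_ (Real.exp_pos _).le
        linarith [abs_nonneg y])
    rw [one_pow, one_mul] at h1
    exact h1
  have iFQ : Integrable (fun y => F y * deriv (Qf k) y) :=
    Cl_int (Cl_mul hFC hQd) (by linarith) (by linarith)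
  have ihQ : Integrable (fun y => h y * deriv (Qf k) y) :=
    Cl_int (Cl_mul hhC hQd) (by linarith) (by linarith)
  have ieQ : Integrable (fun y => ε y * deriv (Qf k) y) :=
    Cl_int (Cl_mul hε hQd) (by linarith) (by linarith)
  have ivQ : Integrable (fun y => v y * deriv (Qf k) y) :=
    Cl_int (Cl_mul hvC hQd) (by linarith) (by linarith)
  have hipF : (ip F (deriv (Qf k)) - ip h (deriv (Qf k))) ^ 2 ≤ g ^ 2 * (N * D) := by
    have e0 : ip F (deriv (Qf k)) - ip h (deriv (Qf k)) =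
        ∫ y, (F y - h y) * deriv (Qf k) y := by
      unfold ip
      rw [← integral_sub iFQ ihQ]
      refine integral_congr_ae (Eventually.of_forall fun y => ?_)
      simp only
      ring
    rw [e0]
    have h1 := Inv_cs (Q := Q) (c := g) (F := F)
      (G := fun y => (F y - h y) * deriv (Qf k) y) hg0.le (Cl_cont hFC) iF (by
        intro y
        have r0 := Inv_rpos γ B y
        obtain ⟨R1, R2⟩ := Inv_Rle hγ hB0 y
        have e1 : F y - h y = -((1 / Inv_r γ B y - 1) * F y) := by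
          simp only [hF]
          field_simp
          ring
        rw [e1, neg_mul, abs_neg, abs_mul, abs_mul, abs_of_nonneg (by linarith)]
        have h3 : 1 / Inv_r γ B y - 1 ≤ g * |y| * Real.exp (|y| / 4) := by
          have hx0 : 0 ≤ g * |y| := by positivity
          have h4 := Real.add_one_le_exp (-(g * |y|))
          have h5 : Real.exp (g * |y|) - 1 ≤ g * |y| * Real.exp (g * |y|) := by
            have h6 := mul_le_mul_of_nonneg_right h4 (Real.exp_pos (g * |y|)).le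
            rw [← Real.exp_add, neg_add_cancel, Real.exp_zero] at h6
            linarith
          have h7 : Real.exp (g * |y|) ≤ Real.exp (|y| / 4) := by
            refine Real.exp_le_exp.2 ?_
            have := mul_le_mul_of_nonneg_right hg2 (abs_nonneg y)
            linarith
          have h8 := mul_le_mul_of_nonneg_left h7 hx0
          have R2' : 1 / Inv_r γ B y ≤ Real.exp (g * |y|) := R2
          linarith
        have h9 : (1 / Inv_r γ B y - 1) * |deriv (Qf k) y| ≤ g * Inv_ph Q y := by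
          have h10 : (1 / Inv_r γ B y - 1) * |deriv (Qf k) y| ≤
              (g * |y| * Real.exp (|y| / 4)) * (Q * Real.exp (-|y|)) :=
            mul_le_mul h3 (hQdb y) (abs_nonneg _) (by positivity)
          refine h10.trans ?_
          have h11 : (g * |y| * Real.exp (|y| / 4)) * (Q * Real.exp (-|y|)) =
              g * (Q * (|y| * Real.exp (-(3 / 4 * |y|)))) := by
            have h12 : Real.exp (-(3 / 4 * |y|)) = Real.exp (|y| / 4) * Real.exp (-|y|) := by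
              rw [← Real.exp_add]
              congr 1
              ring
            rw [h12]
            ring
          rw [h11]
          unfold Inv_ph
          refine mul_le_mul_of_nonneg_left ?_ hg0.le
          refine mul_le_mul_of_nonneg_left ?_ hQ.le
          refine mul_le_mul_of_nonneg_right ?_ (Real.exp_pos _).le
          linarith
        have h13 := mul_le_mul_of_nonneg_right h9 (abs_nonneg (F y))
        calc (1 / Inv_r γ B y - 1) * |F y| * |deriv (Qf k) y|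
            = (1 / Inv_r γ B y - 1) * |deriv (Qf k) y| * |F y| := by ring
          _ ≤ g * Inv_ph Q y * |F y| := h13
          _ = g * (|F y| * Inv_ph Q y) := by ring)
    refine h1.trans ?_
    refine mul_le_mul_of_nonneg_left ?_ (sq_nonneg _)
    exact mul_le_mul_of_nonneg_right hN0 hD0
  have hiph : ip h (deriv (Qf k)) = ip ε (deriv (Qf k)) - δ * ip v (deriv (Qf k)) := by
    unfold ip
    rw [← integral_const_mul, ← integral_sub ieQ (ivQ.const_mul δ)]
    refine integral_congr_ae (Eventually.of_forall fun y => ?_)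
    simp only [hh]
    ring
  set P : ℝ := ip ε (deriv (Qf k)) with hP
  have hipF2 : (ip F (deriv (Qf k))) ^ 2 ≤ 3 * P ^ 2 + 3 * (V0 * D) + 3 * (g ^ 2 * (N * D)) := by
    have e : ip F (deriv (Qf k)) = P + (-(δ * ip v (deriv (Qf k)))) +
        (ip F (deriv (Qf k)) - ip h (deriv (Qf k))) := by
      rw [hiph]
      ring
    rw [e]
    refine (Inv_sq3 _ _ _).trans ?_
    have h1 : (-(δ * ip v (deriv (Qf k)))) ^ 2 ≤ V0 * D := by
      have h2 : δ ^ 2 ≤ 1 := by (first | linarith only [hB1, hg2, hγ, hδ, hδ'] | nlinarith only [hB1, hg2, hγ, hδ, hδ'])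
      have h3 : (-(δ * ip v (deriv (Qf k)))) ^ 2 = δ ^ 2 * (ip v (deriv (Qf k))) ^ 2 := by ring
      rw [h3]
      have h4 := mul_le_mul_of_nonneg_right h2 (sq_nonneg (ip v (deriv (Qf k))))
      linarith
    linarith
  -- absorb
  have hmain := hL p q F hp hq hFC
  rw [← hN] at hmain
  have hNle : N ≤ 2 * CL * (A * V0 + 3 * P ^ 2) := by
    have h1 : N ≤ CL * ((3 * (1 + C0 k) ^ 2 * V0 + 12 * g ^ 2 * N) +
        (3 * P ^ 2 + 3 * (V0 * D) + 3 * (g ^ 2 * (N * D)))) :=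
      hmain.trans (mul_le_mul_of_nonneg_left (add_le_add hLF2 hipF2) hCL.le)
    have h2 : CL * ((3 * (1 + C0 k) ^ 2 * V0 + 12 * g ^ 2 * N) +
        (3 * P ^ 2 + 3 * (V0 * D) + 3 * (g ^ 2 * (N * D)))) =
        CL * (A * V0 + 3 * P ^ 2) + (g ^ 2 * K) * N := by
      rw [hA, hK]
      ring
    rw [h2] at h1
    have h3 := mul_le_mul_of_nonneg_right hgK hN00
    (first | linarith only [h1, h3] | nlinarith only [h1, h3])
  -- the conclusion
  have hpt : ∀ y, loc γ B y * ((ε y) ^ 2 + (deriv ε y) ^ 2) ≤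
      5 * ((F y) ^ 2 + (deriv F y) ^ 2) + 3 * (loc γ B y * ((v y) ^ 2 + (deriv v y) ^ 2)) := by
    intro y
    obtain ⟨h1, -⟩ := Inv_Lop k (γ := γ) (B := B) hhC y
    have h1' : deriv F y = -(Inv_s γ B y) * F y + Inv_r γ B y * deriv h y := h1
    have e1 : deriv h y = deriv ε y - δ * deriv v y :=
      ((Cl_hd hε y).sub ((Cl_hd hvC y).const_mul δ)).deriv
    have e2 : Inv_r γ B y * ε y = F y + δ * (Inv_r γ B y * v y) := by
      simp only [hF, hh]
      ring
    have e3 : Inv_r γ B y * deriv ε y = deriv F y + Inv_s γ B y * F y +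
        δ * (Inv_r γ B y * deriv v y) := by
      rw [h1', e1]
      ring
    have hs := Inv_sle hγ hB0 y
    have hs2 : Inv_s γ B y ^ 2 ≤ 1 := by
      rw [← sq_abs (Inv_s γ B y)]
      have h4 : |Inv_s γ B y| ≤ 1 := hs.trans (by linarith)
      exact pow_le_one₀ (abs_nonneg _) h4
    have hd2 : δ ^ 2 ≤ 1 := by (first | linarith only [hB1, hg2, hγ, hδ, hδ'] | nlinarith only [hB1, hg2, hγ, hδ, hδ'])
    rw [Inv_loc]
    have e4 : Inv_r γ B y ^ 2 * ((ε y) ^ 2 + (deriv ε y) ^ 2) =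
        (Inv_r γ B y * ε y) ^ 2 + (Inv_r γ B y * deriv ε y) ^ 2 := by ring
    have e5 : Inv_r γ B y ^ 2 * ((v y) ^ 2 + (deriv v y) ^ 2) =
        (Inv_r γ B y * v y) ^ 2 + (Inv_r γ B y * deriv v y) ^ 2 := by ring
    rw [e4, e5, e2, e3]
    have a1 : (F y + δ * (Inv_r γ B y * v y)) ^ 2 ≤
        2 * (F y) ^ 2 + 2 * (δ * (Inv_r γ B y * v y)) ^ 2 := by
      (first | linarith only [sq_nonneg (F y - δ * (Inv_r γ B y * v y))] | nlinarith only [sq_nonneg (F y - δ * (Inv_r γ B y * v y))])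
    have a2 := Inv_sq3 (deriv F y) (Inv_s γ B y * F y) (δ * (Inv_r γ B y * deriv v y))
    have a3 : (δ * (Inv_r γ B y * v y)) ^ 2 ≤ (Inv_r γ B y * v y) ^ 2 := by
      rw [mul_pow]
      exact mul_le_of_le_one_left (sq_nonneg _) hd2
    have a4 : (δ * (Inv_r γ B y * deriv v y)) ^ 2 ≤ (Inv_r γ B y * deriv v y) ^ 2 := by
      rw [mul_pow]
      exact mul_le_of_le_one_left (sq_nonneg _) hd2
    have a5 : (Inv_s γ B y * F y) ^ 2 ≤ (F y) ^ 2 := by
      rw [mul_pow]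
      exact mul_le_of_le_one_left (sq_nonneg _) hs2
    (first | linarith only [sq_nonneg (Inv_r γ B y * v y), sq_nonneg (deriv F y), a1, a2, a3, a4, a5] | nlinarith only [sq_nonneg (Inv_r γ B y * v y), sq_nonneg (deriv F y), a1, a2, a3, a4, a5])
  have iV : Integrable (fun y => loc γ B y * ((v y) ^ 2 + (deriv v y) ^ 2)) := by
    refine (irv.add irv').congr (Eventually.of_forall fun y => ?_)
    simp only [Pi.add_apply]
    rw [Inv_loc]
    ring
  have hfin : ln γ B ε ≤ 5 * N + 3 * V := by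
    unfold ln
    have e := integral_add ((iF.add iF').const_mul 5) (iV.const_mul 3)
    rw [integral_const_mul, integral_const_mul] at e
    refine (integral_mono_of_nonneg (Eventually.of_forall fun y => ?_)
      (((iF.add iF').const_mul 5).add (iV.const_mul 3)) (Eventually.of_forall hpt)).trans
        (le_of_eq e)
    have := loc_pos γ B y
    positivity
  have hVV : 0 ≤ V := hV00.trans hV0'
  have hAV : A * V0 ≤ A * V := mul_le_mul_of_nonneg_left hV0' hA0
  have hP2 := sq_nonneg P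
  calc ln γ B ε ≤ 5 * N + 3 * V := hfin
    _ ≤ 5 * (2 * CL * (A * V + 3 * P ^ 2)) + 3 * V := by
        have h1 : 2 * CL * (A * V0 + 3 * P ^ 2) ≤ 2 * CL * (A * V + 3 * P ^ 2) :=
          mul_le_mul_of_nonneg_left (by linarith) (by positivity)
        linarith
    _ ≤ (5 * (2 * CL * (A + 3)) + 3) * (V + P ^ 2) := by
        have h2 : 0 ≤ CL * V := mul_nonneg hCL.le hVV
        have h3 : 0 ≤ CL * A * P ^ 2 := by positivity
        (first | linarith only [h2, h3, hVV, hP2, h2, h3] | nlinarith only [h2, h3, hVV, hP2, h2, h3])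

end H98KB
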