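import Pool.Agent.H98.KB.Cla

/-!
# Tan : `tanh`, `sech` and the weights `Th`, `om`, `ch`, `loc` in the class `Cl`

`tanh(cy)' = c(1-tanh²)`, `1/cosh² = 1 - tanh²`, `1/cosh(cy) ≤ 2 e^{-c|y|}`.
`Cl_tanh`: by `Cl_of_deriv` bootstrapping, or: every iterated derivative of `T=tanh(c y)` is a polynomial in
`T` (induction) hence bounded; and it is a multiple of `1-T²` for `j ≥ 1`.
`Th B y = (1+tanh(y/(2B)))/2`, `Th ≤ e^{y/B}` for `y ≤ 0`.
-/

open MeasureTheory Filter Topology Set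
open scoped ContDiff

namespace H98KB

theorem Tan_sub_sq (x : ℝ) : 1 - Real.tanh x ^ 2 = 1 / Real.cosh x ^ 2 := by
  have hc : Real.cosh x ≠ 0 := (Real.cosh_pos x).ne'
  rw [Real.tanh_eq_sinh_div_cosh]
  have h := Real.cosh_sq x
  field_simp
  linarith

theorem Tan_sub_pos (x : ℝ) : 0 < 1 - Real.tanh x ^ 2 := by
  rw [Tan_sub_sq]
  have := Real.cosh_pos x
  positivity

theorem Tan_hd0 (x : ℝ) : HasDerivAt Real.tanh (1 - Real.tanh x ^ 2) x := by
  have hc : Real.cosh x ≠ 0 := (Real.cosh_pos x).ne'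
  have h := (Real.hasDerivAt_sinh x).div (Real.hasDerivAt_cosh x) hc
  have e : Real.tanh = fun y => Real.sinh y / Real.cosh y := funext Real.tanh_eq_sinh_div_cosh
  have e2 : 1 - Real.tanh x ^ 2
      = (Real.cosh x * Real.cosh x - Real.sinh x * Real.sinh x) / Real.cosh x ^ 2 := by
    rw [Real.tanh_eq_sinh_div_cosh]
    field_simp
  rw [e2, e]
  exact h

theorem tanh_hd (c y : ℝ) : HasDerivAt (fun y => Real.tanh (c * y)) (c * (1 - Real.tanh (c * y) ^ 2)) y := by
  have h1 : HasDerivAt (fun y : ℝ => c * y) (c * 1) y := (hasDerivAt_id y).const_mul c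
  have h2 := (Tan_hd0 (c * y)).comp y h1
  refine h2.congr_deriv ?_
  ring

theorem tanh_abs_lt (x : ℝ) : |Real.tanh x| < 1 := by
  have h := Tan_sub_pos x
  rw [← sq_lt_one_iff_abs_lt_one]
  linarith

theorem se2_eq (c y : ℝ) : se2 c y = 1 - Real.tanh (c * y) ^ 2 := by
  rw [Tan_sub_sq, se2, div_pow, one_pow]

theorem ch_eq (B y : ℝ) : ch B y = 1 - Real.tanh (y / B) ^ 2 := by
  rw [Tan_sub_sq, ch, div_pow, one_pow]

theorem ch_eq' (B y : ℝ) : ch B y = se2 (1 / B) y := by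
  unfold ch se2
  rw [div_mul_eq_mul_div, one_mul]

theorem th_eq (k : ℕ) (y : ℝ) : th k y = Real.tanh ((k : ℝ) / 2 * y) := by
  unfold th
  congr 1
  ring

theorem th_hd (k : ℕ) (y : ℝ) : HasDerivAt (th k) ((k : ℝ) / 2 * (1 - th k y ^ 2)) y := by
  have e : th k = fun y => Real.tanh ((k : ℝ) / 2 * y) := funext (th_eq k)
  rw [th_eq k y, e]
  exact tanh_hd _ _

theorem th_abs_lt (k : ℕ) (y : ℝ) : |th k y| < 1 := by
  rw [th_eq]
  exact tanh_abs_lt _

theorem th_neg (k : ℕ) (y : ℝ) : th k (-y) = -th k y := by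
  rw [th_eq, th_eq, mul_neg, Real.tanh_neg]

theorem se2_pos (c y : ℝ) : 0 < se2 c y := by
  rw [se2_eq]
  exact Tan_sub_pos _

theorem se2_le_one (c y : ℝ) : se2 c y ≤ 1 := by
  rw [se2_eq]
  nlinarith [sq_nonneg (Real.tanh (c * y))]

theorem se2_neg (c y : ℝ) : se2 c (-y) = se2 c y := by
  rw [se2_eq, se2_eq, mul_neg, Real.tanh_neg, neg_sq]

theorem se2_hd (c y : ℝ) : HasDerivAt (se2 c) (-2 * c * Real.tanh (c * y) * se2 c y) y := by
  have e : se2 c = fun y => 1 - Real.tanh (c * y) ^ 2 := funext (se2_eq c)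
  have h := ((tanh_hd c y).pow 2).const_sub 1
  rw [se2_eq c y, e]
  refine h.congr_deriv ?_
  ring

theorem Tan_cosh_le (x : ℝ) : Real.cosh x ≤ Real.exp |x| := by
  rw [Real.cosh_eq]
  have h1 : Real.exp x ≤ Real.exp |x| := Real.exp_le_exp.mpr (le_abs_self x)
  have h2 : Real.exp (-x) ≤ Real.exp |x| := Real.exp_le_exp.mpr (neg_le_abs x)
  linarith

theorem Tan_le_cosh (x : ℝ) : Real.exp |x| ≤ 2 * Real.cosh x := by
  rw [Real.cosh_eq]
  have h1 := Real.exp_abs_le x
  linarith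

/-- `e^{-2|c y|} ≤ se2 c y ≤ 4 e^{-2|c y|}` -/
theorem se2_lo (c y : ℝ) : Real.exp (-(2 * |c * y|)) ≤ se2 c y := by
  have h0 := Real.cosh_pos (c * y)
  have h1 := Tan_cosh_le (c * y)
  have h2 : Real.exp (-(2 * |c * y|)) = (1 / Real.exp |c * y|) ^ 2 := by
    rw [one_div, ← Real.exp_neg, ← Real.exp_nat_mul]
    congr 1
    push_cast
    ring
  rw [h2, se2]
  have h3 : 1 / Real.exp |c * y| ≤ 1 / Real.cosh (c * y) := one_div_le_one_div_of_le h0 h1
  have h4 : 0 ≤ 1 / Real.exp |c * y| := by positivity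
  exact pow_le_pow_left₀ h4 h3 2

theorem Tan_sech_le (x : ℝ) : 1 / Real.cosh x ≤ 2 * Real.exp (-|x|) := by
  have h0 := Real.cosh_pos x
  have h1 := Tan_le_cosh x
  rw [div_le_iff₀ h0]
  have h2 : Real.exp (-|x|) * Real.exp |x| = 1 := by
    rw [← Real.exp_add]
    simp
  have h3 : 0 < Real.exp (-|x|) := Real.exp_pos _
  nlinarith

theorem se2_hi (c y : ℝ) : se2 c y ≤ 4 * Real.exp (-(2 * |c * y|)) := by
  have h0 := Real.cosh_pos (c * y)
  have h1 := Tan_sech_le (c * y)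
  have h2 : Real.exp (-(2 * |c * y|)) = (Real.exp (-|c * y|)) ^ 2 := by
    rw [← Real.exp_nat_mul]
    congr 1
    push_cast
    ring
  rw [h2, se2]
  have h4 : 0 ≤ 1 / Real.cosh (c * y) := by positivity
  have h5 := pow_le_pow_left₀ h4 h1 2
  calc (1 / Real.cosh (c * y)) ^ 2 ≤ (2 * Real.exp (-|c * y|)) ^ 2 := h5
    _ = 4 * Real.exp (-|c * y|) ^ 2 := by ring

/-! general principle: `w' = w R(T)` -/

theorem Tan_step (c : ℝ) (w : ℝ → ℝ) (R : Polynomial ℝ)
    (hw : ∀ y, HasDerivAt w (w y * R.eval (Real.tanh (c * y))) y) (P : Polynomial ℝ) (y : ℝ) :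
    HasDerivAt (fun y => w y * P.eval (Real.tanh (c * y)))
      (w y * (R * P + Polynomial.C c * (1 - Polynomial.X ^ 2) * Polynomial.derivative P).eval
        (Real.tanh (c * y))) y := by
  have h1 : HasDerivAt (fun y => P.eval (Real.tanh (c * y)))
      ((Polynomial.derivative P).eval (Real.tanh (c * y)) * (c * (1 - Real.tanh (c * y) ^ 2))) y :=
    HasDerivAt.comp (h₂ := fun t => P.eval t) y (P.hasDerivAt (Real.tanh (c * y))) (tanh_hd c y)
  have h2 := (hw y).mul h1
  refine h2.congr_deriv ?_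
  simp only [Polynomial.eval_add, Polynomial.eval_mul, Polynomial.eval_sub, Polynomial.eval_one,
    Polynomial.eval_pow, Polynomial.eval_X, Polynomial.eval_C]
  ring

theorem Tan_iter (c : ℝ) (w : ℝ → ℝ) (R : Polynomial ℝ)
    (hw : ∀ y, HasDerivAt w (w y * R.eval (Real.tanh (c * y))) y) (j : ℕ) :
    ∀ P : Polynomial ℝ, ∃ Q : Polynomial ℝ,
      iteratedDeriv j (fun y => w y * P.eval (Real.tanh (c * y)))
        = fun y => w y * Q.eval (Real.tanh (c * y)) := by
  induction j with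
  | zero =>
    intro P
    exact ⟨P, iteratedDeriv_zero⟩
  | succ j ih =>
    intro P
    obtain ⟨Q, hQ⟩ := ih (R * P + Polynomial.C c * (1 - Polynomial.X ^ 2) * Polynomial.derivative P)
    refine ⟨Q, ?_⟩
    rw [iteratedDeriv_succ', ← hQ]
    congr 1
    funext y
    exact (Tan_step c w R hw P y).deriv

theorem Tan_bdd (P : Polynomial ℝ) : ∃ C : ℝ, ∀ x : ℝ, |x| ≤ 1 → |P.eval x| ≤ C := by
  obtain ⟨C, hC⟩ := (isCompact_Icc (a := (-1 : ℝ)) (b := 1)).exists_bound_of_continuousOn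
    (f := fun x => P.eval x) P.continuous.continuousOn
  refine ⟨C, fun x hx => ?_⟩
  exact hC x (abs_le.mp hx)

theorem Tan_Cl {c p q K : ℝ} {w : ℝ → ℝ} {R : Polynomial ℝ}
    (hw : ∀ y, HasDerivAt w (w y * R.eval (Real.tanh (c * y))) y)
    (hb : ∀ y, |w y| ≤ K * bd p q y) (P : Polynomial ℝ) :
    Cl p q (fun y => w y * P.eval (Real.tanh (c * y))) := by
  constructor
  · have h := contDiff_of_differentiable_iteratedDeriv (n := ⊤)
      (f := fun y => w y * P.eval (Real.tanh (c * y))) (𝕜 := ℝ) ?_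
    · exact h
    · intro m _
      obtain ⟨Q, hQ⟩ := Tan_iter c w R hw m P
      rw [hQ]
      exact fun y => (Tan_step c w R hw Q y).differentiableAt
  · intro j
    obtain ⟨Q, hQ⟩ := Tan_iter c w R hw j P
    obtain ⟨C, hC⟩ := Tan_bdd Q
    refine ⟨C * K, fun y => ?_⟩
    rw [hQ]
    show |w y * Q.eval (Real.tanh (c * y))| ≤ _
    rw [abs_mul]
    have h1 := hC _ (tanh_abs_lt (c * y)).le
    have h2 := hb y
    have h3 : 0 ≤ |w y| := abs_nonneg _
    have h4 : 0 ≤ |Q.eval (Real.tanh (c * y))| := abs_nonneg _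
    calc |w y| * |Q.eval (Real.tanh (c * y))| ≤ (K * bd p q y) * C :=
          mul_le_mul h2 h1 h4 (h3.trans h2)
      _ = C * K * bd p q y := by ring

theorem Cl_tanh (c : ℝ) : Cl 0 0 (fun y => Real.tanh (c * y)) := by
  have h := Tan_Cl (c := c) (p := 0) (q := 0) (K := 1) (w := fun _ => 1) (R := 0)
    (fun y => by simpa using hasDerivAt_const y (1 : ℝ)) (fun y => by simp [bd_zero]) Polynomial.X
  simpa using h

theorem Cl_th (k : ℕ) : Cl 0 0 (th k) := by
  have e : th k = fun y => Real.tanh ((k : ℝ) / 2 * y) := funext (th_eq k)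
  rw [e]
  exact Cl_tanh _

theorem Cl_se2 {c : ℝ} (hc : 0 < c) : Cl (2 * c) (2 * c) (se2 c) := by
  have h := Tan_Cl (c := c) (p := 2 * c) (q := 2 * c) (K := 4) (w := se2 c)
    (R := Polynomial.C (-2 * c) * Polynomial.X) (fun y => by
      refine (se2_hd c y).congr_deriv ?_
      simp only [Polynomial.eval_mul, Polynomial.eval_C, Polynomial.eval_X]
      ring) (fun y => by
      rw [abs_of_pos (se2_pos c y), bd_abs]
      refine (se2_hi c y).trans (le_of_eq ?_)
      rw [abs_mul, abs_of_pos hc]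
      congr 3
      ring) 1
  simpa using h

theorem Cl_ch {B : ℝ} (hB : 0 < B) : Cl (2 / B) (2 / B) (ch B) := by
  have e : ch B = se2 (1 / B) := funext (ch_eq' B)
  have h := Cl_se2 (c := 1 / B) (by positivity)
  rw [e]
  have e2 : 2 * (1 / B) = 2 / B := by ring
  rw [e2] at h
  exact h

theorem Cl_sech {c : ℝ} (hc : 0 < c) : Cl c c (fun y => 1 / Real.cosh (c * y)) := by
  have h := Tan_Cl (c := c) (p := c) (q := c) (K := 2) (w := fun y => 1 / Real.cosh (c * y))
    (R := Polynomial.C (-c) * Polynomial.X) (fun y => by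
      have h0 : Real.cosh (c * y) ≠ 0 := (Real.cosh_pos _).ne'
      have h1 : HasDerivAt (fun y : ℝ => c * y) (c * 1) y := (hasDerivAt_id y).const_mul c
      have h2 := ((Real.hasDerivAt_cosh (c * y)).comp y h1).inv h0
      have h3 : (fun y => 1 / Real.cosh (c * y)) = (Real.cosh ∘ fun y => c * y)⁻¹ := by
        funext y
        simp
      rw [h3]
      refine h2.congr_deriv ?_
      simp only [Polynomial.eval_mul, Polynomial.eval_C, Polynomial.eval_X, Function.comp]
      rw [Real.tanh_eq_sinh_div_cosh]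
      field_simp) (fun y => by
      have h0 := Real.cosh_pos (c * y)
      rw [abs_of_pos (by positivity), bd_abs]
      refine (Tan_sech_le (c * y)).trans (le_of_eq ?_)
      rw [abs_mul, abs_of_pos hc]) 1
  simpa using h

end H98KB
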