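import Pool.Agent.H98.KB.Som

/-!
# Nla : the nonlinear terms `D, R, bF, g, ζ`

`D = f(Q+ε)-f(Q)`, `R = D - Q^kε`, `bF = F(Q+ε)-F(Q)-f(Q)ε`, `F'=f`, `f'=u^k`.
* `D_le`: `|(Q+ε)^{k+1}-Q^{k+1}| ≤ (k+1)|ε|(Q+|ε|)^k`, `(Q+|ε|)^k ≤ 2^k(Q^k+|ε|^k)`.
* Taylor with `Q ≤ C`, `|ε| ≤ 1`: `|R| ≤ Cε²`; `R' = [f'(Q+ε)-Q^k]ε' + [f'(Q+ε)-f'(Q)-f''(Q)ε]Q'`, so
  `|R'| ≤ C|ε|(|ε|+|ε'|)`; `|bF| ≤ C(Q^k+|ε|^k)ε²`; `|bF-(1/2)Q^kε²| ≤ C|ε|³`.
  (polynomial estimates: e.g. `u^{n}-v^{n}` factorisation, or the mean value theorem.)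
* `bF_hd`: `bF' = D ε' + R Q'`.
* classes: `D = ε·(polynomial in Q, ε)`, use `(Q+ε)^{k+1}-Q^{k+1} = ε Σ (Q+ε)^i Q^{k-i}` (`Commute.geom_sum₂`/
  `sub_eq...`/`Finset.sum`), with `Q+ε ∈ Cl 0 0`-bounded; or `Cl_of_deriv`.  For `R`, `bF`: from `D` and products.
  All in `Cl p q` for `0 ≤ p,q`, (`p,q ≤ 1`).  Hint: it is enough that these functions are in `Cl p q`: each is a
  finite sum of products of `Q`, `ε` with at least one factor `ε`.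
* `zeta ∈ Cl p' q'` for `p'<p`, `q'<q`, `p',q' < 1` (because of `Λ`).
-/

open MeasureTheory Filter Topology Set
open scoped ContDiff

namespace H98KB

variable {k : ℕ} {p q : ℝ} {ε e : ℝ → ℝ}

/-- `Σ a^i b^(n-1-i)` -/
noncomputable def Nla_H (n : ℕ) (a b : ℝ → ℝ) (y : ℝ) : ℝ :=
  ∑ i ∈ Finset.range n, a y ^ i * b y ^ (n - 1 - i)

theorem Nla_sum {ι : Type*} (s : Finset ι) (f : ι → ℝ → ℝ) (h : ∀ i ∈ s, Cl 0 0 (f i)) :
    Cl 0 0 (fun y => ∑ i ∈ s, f i y) := by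
  classical
  induction s using Finset.induction_on with
  | empty => simpa using (Cl_zero (p := 0) (q := 0))
  | insert a s ha ih =>
    have h1 := Cl_add (h a (Finset.mem_insert_self a s))
      (ih fun i hi => h i (Finset.mem_insert_of_mem hi))
    simpa only [Finset.sum_insert ha] using h1

theorem Nla_H_cl (n : ℕ) {a b : ℝ → ℝ} (ha : Cl 0 0 a) (hb : Cl 0 0 b) : Cl 0 0 (Nla_H n a b) :=
  Nla_sum _ (fun i y => a y ^ i * b y ^ (n - 1 - i)) fun _ _ =>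
    Cl_mul0 (Cl_pow0 ha _) (Cl_pow0 hb _)

theorem Nla_H_eq (n : ℕ) (a b : ℝ → ℝ) (y : ℝ) :
    (a y - b y) * Nla_H n a b y = a y ^ n - b y ^ n :=
  (Commute.all (a y) (b y)).mul_geom_sum₂ n

theorem Nla_Q (hk : 1 ≤ k) : Cl 0 0 (Qf k) := Cl_mono (Cl_Qf hk) zero_le_one zero_le_one

theorem Nla_Qe (hk : 1 ≤ k) (hp : 0 ≤ p) (hq : 0 ≤ q) (hε : Cl p q ε) :
    Cl 0 0 (fun y => Qf k y + ε y) := Cl_add (Nla_Q hk) (Cl_mono hε hp hq)

theorem Nla_mulr {f g : ℝ → ℝ} (hf : Cl p q f) (hg : Cl 0 0 g) : Cl p q (fun y => f y * g y) := by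
  have h := Cl_mul hf hg
  simpa only [add_zero] using h

theorem Nla_Df (hk : 1 ≤ k) (ε : ℝ → ℝ) (y : ℝ) : Df k ε y =
    ε y * (1 / ((k : ℝ) + 1) * Nla_H (k + 1) (fun y => Qf k y + ε y) (Qf k) y) := by
  have h := Nla_H_eq (k + 1) (fun y => Qf k y + ε y) (Qf k) y
  simp only [add_sub_cancel_left] at h
  rw [Df, fl, fl]
  have h1 : (Qf k y + ε y) ^ (k + 1) / ((k : ℝ) + 1) - Qf k y ^ (k + 1) / ((k : ℝ) + 1) =
      1 / ((k : ℝ) + 1) * ((Qf k y + ε y) ^ (k + 1) - Qf k y ^ (k + 1)) := by ring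
  rw [h1, ← h]
  ring

theorem Cl_Df (hk : 1 ≤ k) (hp : 0 ≤ p) (hq : 0 ≤ q) (hε : Cl p q ε) : Cl p q (Df k ε) := by
  have h : Df k ε = fun y => ε y *
      (1 / ((k : ℝ) + 1) * Nla_H (k + 1) (fun y => Qf k y + ε y) (Qf k) y) :=
    funext fun y => Nla_Df hk ε y
  rw [h]
  exact Nla_mulr hε (Cl_smul _ (Nla_H_cl _ (Nla_Qe hk hp hq hε) (Nla_Q hk)))

theorem Cl_Rf (hk : 1 ≤ k) (hp : 0 ≤ p) (hq : 0 ≤ q) (hε : Cl p q ε) : Cl p q (Rf k ε) := by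
  have h2 : Cl p q (fun y => Qf k y ^ k * ε y) := Cl_mul0 (Cl_pow0 (Nla_Q hk) k) hε
  exact Cl_sub (Cl_Df hk hp hq hε) h2

theorem Nla_bF (hk : 1 ≤ k) (ε : ℝ → ℝ) (y : ℝ) : bF k ε y =
    (ε y * ε y) * (1 / (((k : ℝ) + 1) * ((k : ℝ) + 2)) *
      ∑ i ∈ Finset.range (k + 2), Nla_H i (fun y => Qf k y + ε y) (Qf k) y *
        Qf k y ^ (k + 1 - i)) := by
  have h := Nla_H_eq (k + 2) (fun y => Qf k y + ε y) (Qf k) y
  simp only [add_sub_cancel_left] at h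
  have h2 : ε y * ∑ i ∈ Finset.range (k + 2), Nla_H i (fun y => Qf k y + ε y) (Qf k) y *
        Qf k y ^ (k + 1 - i) =
      Nla_H (k + 2) (fun y => Qf k y + ε y) (Qf k) y - ((k : ℝ) + 2) * Qf k y ^ (k + 1) := by
    have h3 : ((k : ℝ) + 2) * Qf k y ^ (k + 1) =
        ∑ i ∈ Finset.range (k + 2), Qf k y ^ i * Qf k y ^ (k + 1 - i) := by
      have h4 : ∀ i ∈ Finset.range (k + 2), Qf k y ^ i * Qf k y ^ (k + 1 - i) = Qf k y ^ (k + 1) := by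
        intro i hi
        rw [← pow_add]
        congr 1
        have := Finset.mem_range.1 hi
        omega
      rw [Finset.sum_congr rfl h4]
      simp
    rw [h3, Nla_H, Finset.mul_sum, ← Finset.sum_sub_distrib]
    refine Finset.sum_congr rfl fun i hi => ?_
    have h5 := Nla_H_eq i (fun y => Qf k y + ε y) (Qf k) y
    simp only [add_sub_cancel_left] at h5
    have h6 : k + 2 - 1 - i = k + 1 - i := by omega
    rw [← mul_assoc, h5, h6]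
    ring
  have hk1 : (k : ℝ) + 1 ≠ 0 := by positivity
  have hk2 : (k : ℝ) + 2 ≠ 0 := by positivity
  have h7 : (ε y * ε y) * (1 / (((k : ℝ) + 1) * ((k : ℝ) + 2)) *
      ∑ i ∈ Finset.range (k + 2), Nla_H i (fun y => Qf k y + ε y) (Qf k) y *
        Qf k y ^ (k + 1 - i)) =
      1 / (((k : ℝ) + 1) * ((k : ℝ) + 2)) * (ε y * (ε y * ∑ i ∈ Finset.range (k + 2),
        Nla_H i (fun y => Qf k y + ε y) (Qf k) y * Qf k y ^ (k + 1 - i))) := by ring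
  rw [h7, h2, bF, Fl, Fl, fl, mul_sub, h]
  field_simp

theorem Cl_bF (hk : 1 ≤ k) (hp : 0 ≤ p) (hq : 0 ≤ q) (hp1 : p ≤ 1) (hq1 : q ≤ 1) (hε : Cl p q ε) :
    Cl (2 * p) (2 * q) (bF k ε) := by
  have h : bF k ε = fun y => (ε y * ε y) * (1 / (((k : ℝ) + 1) * ((k : ℝ) + 2)) *
      ∑ i ∈ Finset.range (k + 2), Nla_H i (fun y => Qf k y + ε y) (Qf k) y *
        Qf k y ^ (k + 1 - i)) :=
    funext fun y => Nla_bF hk ε y
  rw [h, two_mul, two_mul]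
  refine Nla_mulr (Cl_mul hε hε) (Cl_smul _ (Nla_sum _ (fun i y =>
    Nla_H i (fun y => Qf k y + ε y) (Qf k) y * Qf k y ^ (k + 1 - i)) fun i _ => ?_))
  exact Cl_mul0 (Nla_H_cl i (Nla_Qe hk hp hq hε) (Nla_Q hk)) (Cl_pow0 (Nla_Q hk) _)

theorem Cl_gf (hk : 1 ≤ k) (hp : 0 ≤ p) (hq : 0 ≤ q) (hε : Cl p q ε) : Cl p q (gf k ε) :=
  Cl_sub (Cl_add (Cl_neg (Cl_der (Cl_der hε))) hε) (Cl_Df hk hp hq hε)

theorem Cl_zeta (hk : 1 ≤ k) (hp : 0 < p) (hq : 0 < q) (hp1 : p ≤ 1) (hq1 : q ≤ 1)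
    (hε : Cl p q ε) (he : Cl p q e) (b m l : ℝ) {p' q' : ℝ} (hp' : p' < p) (hq' : q' < q) :
    Cl p' q' (zeta k b m l ε e) := by
  have hg : Cl p' q' (deriv (gf k ε)) :=
    Cl_mono (Cl_der (Cl_gf hk hp.le hq.le hε)) hp'.le hq'.le
  have he' : Cl p' q' (deriv e) := Cl_mono (Cl_der he) hp'.le hq'.le
  have hLQ : Cl p' q' (Lam k (Qf k)) := by
    have hc : max p' q' < 1 := max_lt (lt_of_lt_of_le hp' hp1) (lt_of_lt_of_le hq' hq1)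
    exact Cl_mono (Cl_LamQ hk hc) (le_max_left _ _) (le_max_right _ _)
  have hQ1 : Cl p' q' (deriv (Qf k)) :=
    Cl_mono (Cl_der (Cl_Qf hk)) (by linarith) (by linarith)
  have hQ2 : Cl p' q' (deriv (deriv (Qf k))) :=
    Cl_mono (Cl_der (Cl_der (Cl_Qf hk))) (by linarith) (by linarith)
  have hLe : Cl p' q' (Lam k ε) := by
    have hc : 0 < min (p - p') (q - q') := lt_min (by linarith) (by linarith)
    refine Cl_mono (Cl_Lam k hε hc) ?_ ?_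
    · have := min_le_left (p - p') (q - q')
      linarith
    · have := min_le_right (p - p') (q - q')
      linarith
  have he1 : Cl p' q' (deriv ε) := Cl_mono (Cl_der hε) hp'.le hq'.le
  have he2 : Cl p' q' (deriv (deriv ε)) := Cl_mono (Cl_der (Cl_der hε)) hp'.le hq'.le
  have hN : Cl p' q' (Nf k b m l ε) :=
    Cl_add (Cl_add (Cl_sub (Cl_add (Cl_add (Cl_smul (-b) hLQ) (Cl_smul m hQ1)) (Cl_smul l hQ2))
      (Cl_smul b hLe)) (Cl_smul m he1)) (Cl_smul l he2)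
  exact Cl_sub (Cl_add hg hN) he'

theorem gf_eq (k : ℕ) (ε : ℝ → ℝ) (y : ℝ) : gf k ε y = Lop k ε y - Rf k ε y := by
  rw [gf, Lop, Rf]
  ring

end H98KB
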