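import Mathlib

/-!
# MP_95be7d : blow-up for `u_t + u^k u_x + u_xxx - u_xx = 0`, `k ≥ 5`  (definitions)

Note with the complete proof: `/team-store/H98_95be7d.md`.
-/

open MeasureTheory Filter Topology Set
open scoped ContDiff

noncomputable section

namespace H98KB

/-! ## The problem -/

/-- `f ∈ H¹(ℝ)` (continuous representative) with weak derivative `p`. -/
def IsH1 (f p : ℝ → ℝ) : Prop :=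
  MemLp f 2 volume ∧ MemLp p 2 volume ∧ ∀ x y : ℝ, f y - f x = ∫ z in x..y, p z

/-- `u ∈ C([0,∞); H¹(ℝ))` (`p = u_x`) is a (weak) solution of
`u_t + u^k u_x + u_xxx - u_xx = 0` with `u(0) = φ`. -/
structure IsGlobalSol (k : ℕ) (φ : ℝ → ℝ) (u p : ℝ → ℝ → ℝ) : Prop where
  h1 : ∀ t, 0 ≤ t → IsH1 (u t) (p t)
  init : ∀ x, u 0 x = φ x
  cont : ∀ t₀, 0 ≤ t₀ → Tendsto (fun t => (∫ x, (u t x - u t₀ x) ^ 2) + ∫ x, (p t x - p t₀ x) ^ 2)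
    (𝓝[Ici 0] t₀) (𝓝 0)
  weak : ∀ θ : ℝ → ℝ, ContDiff ℝ ∞ θ → HasCompactSupport θ → ∀ t, 0 ≤ t →
    (∫ x, u t x * θ x) - (∫ x, φ x * θ x) =
      ∫ τ in (0:ℝ)..t, ∫ x, (u τ x * (iteratedDeriv 2 θ x + iteratedDeriv 3 θ x)
        + (u τ x) ^ (k + 1) / (k + 1) * deriv θ x)

/-! ## Exponentially decaying smooth functions -/

/-- `e^{-p y}` for `y ≥ 0`, `e^{q y}` for `y ≤ 0`. -/
def bd (p q y : ℝ) : ℝ := Real.exp (-(p * max y 0) - q * max (-y) 0)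

/-- smooth, all derivatives are `O(bd p q)` -/
def Cl (p q : ℝ) (f : ℝ → ℝ) : Prop :=
  ContDiff ℝ ∞ f ∧ ∀ j : ℕ, ∃ C : ℝ, ∀ y, |iteratedDeriv j f y| ≤ C * bd p q y

/-! ## The soliton -/

/-- `tanh (k y / 2)` -/
def th (k : ℕ) (y : ℝ) : ℝ := Real.tanh ((k : ℝ) * y / 2)

/-- the soliton `Q` -/
def Qf (k : ℕ) (y : ℝ) : ℝ :=
  (((k : ℝ) + 1) * ((k : ℝ) + 2) / 2) ^ (1 / (k : ℝ)) *
    (Real.cosh ((k : ℝ) * y / 2)) ^ (-(2 / (k : ℝ)))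

/-- `f(u) = u^{k+1}/(k+1)` -/
def fl (k : ℕ) (u : ℝ) : ℝ := u ^ (k + 1) / ((k : ℝ) + 1)

/-- `F(u) = u^{k+2}/((k+1)(k+2))` -/
def Fl (k : ℕ) (u : ℝ) : ℝ := u ^ (k + 2) / (((k : ℝ) + 1) * ((k : ℝ) + 2))

/-- `L f = -f'' + f - Q^k f` -/
def Lop (k : ℕ) (f : ℝ → ℝ) (y : ℝ) : ℝ := -deriv (deriv f) y + f y - (Qf k y) ^ k * f y

/-- `Λ f = (2/k) f + y f'` -/
def Lam (k : ℕ) (f : ℝ → ℝ) (y : ℝ) : ℝ := 2 / (k : ℝ) * f y + y * deriv f y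

/-- `D = f(Q+ε) - f(Q)` -/
def Df (k : ℕ) (ε : ℝ → ℝ) (y : ℝ) : ℝ := fl k (Qf k y + ε y) - fl k (Qf k y)

/-- `R = f(Q+ε) - f(Q) - Q^k ε` -/
def Rf (k : ℕ) (ε : ℝ → ℝ) (y : ℝ) : ℝ := Df k ε y - (Qf k y) ^ k * ε y

/-- `F(Q+ε) - F(Q) - f(Q) ε` -/
def bF (k : ℕ) (ε : ℝ → ℝ) (y : ℝ) : ℝ :=
  Fl k (Qf k y + ε y) - Fl k (Qf k y) - fl k (Qf k y) * ε y

/-- `g = -ε'' + ε - D` -/
def gf (k : ℕ) (ε : ℝ → ℝ) (y : ℝ) : ℝ := -deriv (deriv ε) y + ε y - Df k ε y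

/-- `N = -bΛQ + mQ' + lQ'' - bΛε + mε' + lε''` -/
def Nf (k : ℕ) (b m l : ℝ) (ε : ℝ → ℝ) (y : ℝ) : ℝ :=
  -b * Lam k (Qf k) y + m * deriv (Qf k) y + l * deriv (deriv (Qf k)) y
    - b * Lam k ε y + m * deriv ε y + l * deriv (deriv ε) y

/-- `ζ = g' + N - e'` : the right hand side `λ³ ε_t` -/
def zeta (k : ℕ) (b m l : ℝ) (ε e : ℝ → ℝ) (y : ℝ) : ℝ :=
  deriv (gf k ε) y + Nf k b m l ε y - deriv e y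

/-- `s_c = 1/2 - 2/k` -/
def sc (k : ℕ) : ℝ := 1 / 2 - 2 / (k : ℝ)

/-- `κ = |Q'|²/(s_c |Q|²)` -/
def kap (k : ℕ) : ℝ := (∫ y, (deriv (Qf k) y) ^ 2) / (sc k * ∫ y, (Qf k y) ^ 2)

/-- `φ₀ = Q sech(ky/2)` -/
def ph0 (k : ℕ) (y : ℝ) : ℝ := Qf k y / Real.cosh ((k : ℝ) * y / 2)

/-- `n = ΛQ + s_c Q` -/
def nf (k : ℕ) (y : ℝ) : ℝ := Lam k (Qf k) y + sc k * Qf k y

/-! ## Smoothing -/

/-- `(1 - δ ∂²)^{-1} h` -/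
def Sm (δ : ℝ) (h : ℝ → ℝ) (y : ℝ) : ℝ :=
  ∫ z, Real.exp (-|z| / √δ) / (2 * √δ) * h (y - z)

/-- `v = (1 - δ ∂²)^{-1} L ε` -/
def vf (k : ℕ) (δ : ℝ) (ε : ℝ → ℝ) : ℝ → ℝ := Sm δ (Lop k ε)

/-! ## Weights -/

def Th (B y : ℝ) : ℝ := 1 / (1 + Real.exp (-y / B))

def om (B ρ y : ℝ) : ℝ := Th B y * Real.exp (2 * ρ * y)

/-- `sech²(c y)` -/
def se2 (c y : ℝ) : ℝ := (1 / Real.cosh (c * y)) ^ 2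

/-- `χ = sech²(y/B)` -/
def ch (B y : ℝ) : ℝ := (1 / Real.cosh (y / B)) ^ 2

/-- `loc = sech²(γ y) sech²(y/B)` -/
def loc (γ B y : ℝ) : ℝ := se2 γ y * ch B y

/-- `ψ = tanh(ky/2) + η tanh(γ y)` -/
def psi (k : ℕ) (η γ y : ℝ) : ℝ := th k y + η * Real.tanh (γ * y)

/-- `Ψ = ψ χ` -/
def Psi (k : ℕ) (η γ B y : ℝ) : ℝ := psi k η γ y * ch B y

/-- slowness of the weight `om` -/
def Slow (B ρ : ℝ) : Prop := 16 ≤ B ∧ 0 < ρ ∧ 4 * ρ * B ≤ 1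

/-! ## Functionals -/

def Ef (k : ℕ) (B ρ : ℝ) (ε : ℝ → ℝ) : ℝ :=
  1 / 2 * ∫ y, om B ρ y * ((deriv ε y) ^ 2 + (ε y) ^ 2 - 2 * bF k ε y)

def Vf (k : ℕ) (η γ B δ : ℝ) (ε : ℝ → ℝ) : ℝ :=
  1 / 2 * ∫ y, Psi k η γ B y * (vf k δ ε y) ^ 2

/-- the Lyapunov functional -/
def LL (k : ℕ) (η γ δ M B ρ : ℝ) (ε : ℝ → ℝ) : ℝ := M * Ef k B ρ ε + Vf k η γ B δ ε

/-- `λ³ dE/dt` (note `λ³ ∂_t om = -2 b ρ y om`) -/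
def DE (k : ℕ) (B ρ b : ℝ) (ε ζ : ℝ → ℝ) : ℝ :=
  (∫ y, om B ρ y * (deriv ε y * deriv ζ y + (ε y - Df k ε y) * ζ y))
    - b * ρ * ∫ y, y * om B ρ y * ((deriv ε y) ^ 2 + (ε y) ^ 2 - 2 * bF k ε y)

/-- `λ³ dV/dt` -/
def DV (k : ℕ) (η γ B δ : ℝ) (ε ζ : ℝ → ℝ) : ℝ :=
  ∫ y, Psi k η γ B y * (vf k δ ε y * vf k δ ζ y)

/-- `∫ om (ε² + ε'²)` -/
def Gn (B ρ : ℝ) (ε : ℝ → ℝ) : ℝ := ∫ y, om B ρ y * ((ε y) ^ 2 + (deriv ε y) ^ 2)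

/-- `∫ om' (ε² + ε'² + ε''²)` -/
def Tn (B ρ : ℝ) (ε : ℝ → ℝ) : ℝ :=
  ∫ y, deriv (om B ρ) y * ((ε y) ^ 2 + (deriv ε y) ^ 2 + (deriv (deriv ε) y) ^ 2)

/-- `∫ loc (ε² + ε'²)` -/
def ln (γ B : ℝ) (ε : ℝ → ℝ) : ℝ := ∫ y, loc γ B y * ((ε y) ^ 2 + (deriv ε y) ^ 2)

/-- `∫ ε'²` -/
def Xn (ε : ℝ → ℝ) : ℝ := ∫ y, (deriv ε y) ^ 2

/-- `L²` pairing -/
def ip (f g : ℝ → ℝ) : ℝ := ∫ y, f y * g y

/-! ## The weighted `H¹` norm in the physical variable and smooth approximate solutions -/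

/-- `wt = e^{α x} + e^{-x/8}` -/
def wt (α x : ℝ) : ℝ := Real.exp (α * x) + Real.exp (-x / 8)

/-- `∫ wt (f² + f'²)` for smooth `f` -/
def nw (α : ℝ) (f : ℝ → ℝ) : ℝ := ∫ x, wt α x * ((f x) ^ 2 + (deriv f x) ^ 2)

/-- the initial datum `φ_a = λ₀^{-2/k} (Q + a n)(x/λ₀)` -/
def dat (k : ℕ) (l₀ a x : ℝ) : ℝ := l₀ ^ (-(2 / (k : ℝ))) * (Qf k (x / l₀) + a * nf k (x / l₀))

/-- `U_t = -U_xxx + U_xx - (f(U))_x - e_x` on `[0,T]`, everything smooth and exponentially decaying in `x`,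
uniformly in `t`. -/
structure App (k : ℕ) (T α : ℝ) (U e : ℝ → ℝ → ℝ) : Prop where
  smooth : ∀ t ∈ Icc 0 T, ContDiff ℝ ∞ (U t)
  smooth' : ∀ t ∈ Icc 0 T, ContDiff ℝ ∞ (e t)
  bound : ∀ j : ℕ, ∃ C : ℝ, ∀ t ∈ Icc 0 T, ∀ x, |iteratedDeriv j (U t) x| ≤ C * bd (α / 2) (1 / 16) x
  bound' : ∀ j : ℕ, ∃ C : ℝ, ∀ t ∈ Icc 0 T, ∀ x, |iteratedDeriv j (e t) x| ≤ C * bd (α / 2) (1 / 16) x
  cont : ∀ j : ℕ, ∀ x, ContinuousOn (fun t => iteratedDeriv j (U t) x) (Icc 0 T)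
  cont' : ∀ j : ℕ, ∀ x, ContinuousOn (fun t => iteratedDeriv j (e t) x) (Icc 0 T)
  int : ∀ t ∈ Icc 0 T, Integrable (fun x => wt α x * ((U t x) ^ 2 + (deriv (U t) x) ^ 2))
  int' : ∀ t ∈ Icc 0 T, Integrable (fun x => wt α x * ((e t x) ^ 2 + (deriv (e t) x) ^ 2))
  evol : ∀ j : ℕ, ∀ t ∈ Ioo 0 T, ∀ x, HasDerivAt (fun τ => iteratedDeriv j (U τ) x)
    (iteratedDeriv j (fun z => -iteratedDeriv 3 (U t) z + iteratedDeriv 2 (U t) z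
      - deriv (fun z' => fl k (U t z')) z - deriv (e t) z) x) t

end H98KB

end
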