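import Pool.Agent.H98.KB.Nlb
import Pool.Agent.H98.KB.Wts
import Pool.Agent.H98.KB.Sol2
import Pool.Agent.H98.KB.IfG

/-!
# Bms : bounds for the modulation parameters and for `(ζ, φ₀)`

Integrating by parts (all functions in `Cl`), with `p₀=(ε,Q)`, `q₀=(ε,Q')`:
`(ζ,Q) = -(g,Q') - b(ΛQ,Q) - l|Q'|² - b(Λε,Q) + m(ε',Q) + l(ε,Q'') + (e,Q')`,
`(g,Q') = -(R,Q')` (`LQ'=0`), `(ΛQ,Q)=-s_c|Q|²`, `(ε',Q) = -q₀`, `(Λε,Q) = ∫((2/k)Q - (yQ)')ε`.
Hence `b(s_c|Q|² - (Λε,Q)) = l|Q'|² - l(ε,Q'') - (R,Q') - (e,Q') + m q₀`   (1)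
`(ζ,Q') = -(g,Q'') + m|Q'|² - b(Λε,Q') + m(ε',Q') + l(ε'',Q') + (e,Q'')`, i.e.
`m(|Q'|² - (ε,Q'')) = (g,Q'') + b(Λε,Q') + l... - (e,Q'')` with `(g,Q'')=(ε,LQ'')-(R,Q'')`, `l(ε'',Q')=l(ε,Q''')`   (2)
Every pairing of `ε` with a function `O(e^{-3|y|/4})` is `≤ C(∫loc ε²)^{1/2} ≤ C√ln` (`loc ≥ e^{-|y|/2}`), every pairing of
`R` is `≤ C ln` (`|R| ≤ Cε²`), of `e` is `≤ C√Gn e` (`om ≥ e^{-|y|/2}/2`); constants depend on `k` only.
Choose `c` so small that `C√c` is `≤` half of `s_c|Q|²` and of `|Q'|²`.  From (1),(2): `|b|,|m| ≤ C` first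
(`|b| ≤ C(l+√ln+√Gn e+|m|√ln)`, `|m| ≤ C(√ln+|b|√ln+l√ln+√Gn e)`), then `|m| ≤ C(√ln+√Gn e)`, then (1) gives
`|b - κl| ≤ C(l√ln + ln + |q₀| + √Gn e)` (`κ=|Q'|²/(s_c|Q|²)`; `|b||(Λε,Q)| ≤ C|b|√ln`, `|b| ≤ C(l + ln + |q₀||m| + √Gn e)`).
`(ζ,φ₀)`: `-(g,φ₀')`, `-b(ΛQ,φ₀)`, `m(Q',φ₀)=0`-or bounded, `l(Q'',φ₀)`, `-b(Λε,φ₀)`, `-m(ε,φ₀')`, `l(ε,φ₀'')`, `(e,φ₀')`; `b ≤ 2κl`.
-/

open MeasureTheory Filter Topology Set
open scoped ContDiff

namespace H98KB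

theorem Bms_loc {γ B : ℝ} (hγ : 0 < γ) (hB : 0 < B) :
    Cl (2 * γ + 2 / B) (2 * γ + 2 / B) (loc γ B) :=
  Cl_mul (Cl_se2 hγ) (Cl_ch hB)

theorem Bms_intl {γ B p q : ℝ} (hγ : 0 < γ) (hB : 0 < B) (hp : 0 < p) (hq : 0 < q)
    {f : ℝ → ℝ} (hf : Cl p q f) : Integrable (fun y => loc γ B y * f y ^ 2) := by
  have h1 := Cl_mul (Bms_loc hγ hB) (Cl_pow hf 2)
  refine Cl_int h1 ?_ ?_
  · positivity
  · positivity

theorem Bms_into {B ρ p q : ℝ} (h : Slow B ρ) {f : ℝ → ℝ} (hρ : ρ < p) (hq : 0 < q)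
    (hf : Cl p q f) : Integrable (fun y => om B ρ y * f y ^ 2) := by
  obtain ⟨hB, hρ0, -⟩ := h
  have hB0 : 0 < B := by linarith
  have h1 := Cl_mul (Cl_om hB0 ρ) (Cl_pow hf 2)
  refine Cl_int h1 ?_ ?_
  · push_cast
    linarith
  · push_cast
    have h2 : 0 < 1 / B := by positivity
    linarith

theorem Bms_ln_ge {γ B p q : ℝ} (hγ : 0 < γ) (hB : 0 < B) (hp : 0 < p) (hq : 0 < q)
    {f : ℝ → ℝ} (hf : Cl p q f) : ∫ y, loc γ B y * f y ^ 2 ≤ ln γ B f := by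
  have i1 := Bms_intl hγ hB hp hq hf
  have i2 := Bms_intl hγ hB hp hq (Cl_der hf)
  unfold ln
  refine integral_mono i1 ?_ ?_
  · refine (i1.add i2).congr (Eventually.of_forall fun y => ?_)
    show loc γ B y * f y ^ 2 + loc γ B y * deriv f y ^ 2 =
      loc γ B y * (f y ^ 2 + deriv f y ^ 2)
    ring
  · intro y
    show loc γ B y * f y ^ 2 ≤ loc γ B y * (f y ^ 2 + deriv f y ^ 2)
    have h1 := loc_pos γ B y
    refine mul_le_mul_of_nonneg_left ?_ h1.le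
    linarith [sq_nonneg (deriv f y)]

theorem Bms_Gn_ge {B ρ p q : ℝ} (h : Slow B ρ) {f : ℝ → ℝ} (hρ : ρ < p) (hq : 0 < q)
    (hf : Cl p q f) : ∫ y, om B ρ y * f y ^ 2 ≤ Gn B ρ f := by
  have i1 := Bms_into h hρ hq hf
  have i2 := Bms_into h hρ hq (Cl_der hf)
  unfold Gn
  refine integral_mono i1 ?_ ?_
  · refine (i1.add i2).congr (Eventually.of_forall fun y => ?_)
    show om B ρ y * f y ^ 2 + om B ρ y * deriv f y ^ 2 =
      om B ρ y * (f y ^ 2 + deriv f y ^ 2)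
    ring
  · intro y
    show om B ρ y * f y ^ 2 ≤ om B ρ y * (f y ^ 2 + deriv f y ^ 2)
    have h1 := om_pos B ρ y
    refine mul_le_mul_of_nonneg_left ?_ h1.le
    linarith [sq_nonneg (deriv f y)]

theorem Bms_pair {W Φ f : ℝ → ℝ} {C : ℝ} (hf : Continuous f) (hΦ : Continuous Φ)
    (hW : Continuous W) (hWp : ∀ y, 0 < W y) (hlo : ∀ y, bd (1 / 2) (1 / 2) y ≤ 2 * W y)
    (hf2 : Integrable (fun y => W y * f y ^ 2)) (hC : 0 ≤ C)
    (hb : ∀ y, |Φ y| ≤ C * bd (3 / 4) (3 / 4) y) :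
    |ip f Φ| ≤ (C * √(2 * ∫ y, bd 1 1 y)) * √(∫ y, W y * f y ^ 2) := by
  have hpt : ∀ y, Φ y ^ 2 / W y ≤ 2 * C ^ 2 * bd 1 1 y := by
    intro y
    rw [div_le_iff₀ (hWp y)]
    have h1 : Φ y ^ 2 ≤ (C * bd (3 / 4) (3 / 4) y) ^ 2 := by
      rw [← sq_abs]
      exact pow_le_pow_left₀ (abs_nonneg _) (hb y) 2
    have h2 : bd (3 / 4) (3 / 4) y * bd (3 / 4) (3 / 4) y = bd 1 1 y * bd (1 / 2) (1 / 2) y := by
      rw [bd_mul, bd_mul]
      norm_num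
    have h3 := mul_le_mul_of_nonneg_left (hlo y) (bd_pos 1 1 y).le
    calc Φ y ^ 2 ≤ (C * bd (3 / 4) (3 / 4) y) ^ 2 := h1
      _ = C ^ 2 * (bd (3 / 4) (3 / 4) y * bd (3 / 4) (3 / 4) y) := by ring
      _ = C ^ 2 * (bd 1 1 y * bd (1 / 2) (1 / 2) y) := by rw [h2]
      _ ≤ C ^ 2 * (bd 1 1 y * (2 * W y)) := mul_le_mul_of_nonneg_left h3 (sq_nonneg _)
      _ = 2 * C ^ 2 * bd 1 1 y * W y := by ring
  have hI1 : Integrable (fun y => 2 * C ^ 2 * bd 1 1 y) :=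
    (bd_int one_pos one_pos).const_mul _
  have hI2 : Integrable (fun y => Φ y ^ 2 / W y) := by
    refine hI1.mono' ?_ ?_
    · exact ((hΦ.pow 2).div hW (fun y => (hWp y).ne')).aestronglyMeasurable
    · refine Eventually.of_forall fun y => ?_
      rw [Real.norm_eq_abs, abs_of_nonneg (div_nonneg (sq_nonneg _) (hWp y).le)]
      exact hpt y
  obtain ⟨-, h4⟩ := cs_wt hf hΦ hW hWp hf2 hI2
  refine h4.trans (mul_le_mul_of_nonneg_right ?_ (Real.sqrt_nonneg _))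
  have h5 : ∫ y, Φ y ^ 2 / W y ≤ C ^ 2 * (2 * ∫ y, bd 1 1 y) := by
    calc ∫ y, Φ y ^ 2 / W y ≤ ∫ y, 2 * C ^ 2 * bd 1 1 y := integral_mono hI2 hI1 hpt
      _ = C ^ 2 * (2 * ∫ y, bd 1 1 y) := by
        rw [integral_const_mul]
        ring
  calc √(∫ y, Φ y ^ 2 / W y) ≤ √(C ^ 2 * (2 * ∫ y, bd 1 1 y)) := Real.sqrt_le_sqrt h5
    _ = C * √(2 * ∫ y, bd 1 1 y) := by
      rw [Real.sqrt_mul (sq_nonneg C), Real.sqrt_sq hC]

theorem Bms_bd12 (y : ℝ) : bd (1 / 2) (1 / 2) y = Real.exp (-(|y| / 2)) := by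
  rw [bd_abs]
  congr 1
  ring

theorem Bms_A {Φ : ℝ → ℝ} (hΦ : Cl (3 / 4) (3 / 4) Φ) : ∃ C : ℝ, 0 ≤ C ∧
    ∀ γ : ℝ, 0 < γ → γ ≤ 1 / 8 → ∀ B : ℝ, 16 ≤ B → ∀ (p q : ℝ) (ε : ℝ → ℝ), 0 < p → 0 < q →
    Cl p q ε → |ip ε Φ| ≤ C * √(ln γ B ε) := by
  obtain ⟨C, hC, hb⟩ := Cl_bnd hΦ
  refine ⟨C * √(2 * ∫ y, bd 1 1 y), by positivity, ?_⟩
  intro γ hγ hγ' B hB p q ε hp hq hε
  have hB0 : 0 < B := by linarith
  have h1 := Bms_pair (W := loc γ B) (Cl_cont hε) (Cl_cont hΦ) (Cl_cont (Bms_loc hγ hB0))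
    (loc_pos γ B) (fun y => by
      rw [Bms_bd12]
      have h2 := ex_le_loc hγ hγ' hB y
      have h3 := loc_pos γ B y
      linarith) (Bms_intl hγ hB0 hp hq hε) hC hb
  refine h1.trans (mul_le_mul_of_nonneg_left ?_ (by positivity))
  exact Real.sqrt_le_sqrt (Bms_ln_ge hγ hB0 hp hq hε)

theorem Bms_B {Φ : ℝ → ℝ} (hΦ : Cl (3 / 4) (3 / 4) Φ) : ∃ C : ℝ, 0 ≤ C ∧
    ∀ B ρ : ℝ, Slow B ρ → ∀ (p q : ℝ) (e : ℝ → ℝ), Adm ρ p q e →
    |ip e Φ| ≤ C * √(Gn B ρ e) := by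
  obtain ⟨C, hC, hb⟩ := Cl_bnd hΦ
  refine ⟨C * √(2 * ∫ y, bd 1 1 y), by positivity, ?_⟩
  intro B ρ hS p q e he
  obtain ⟨a1, a2, a3, a4, a5⟩ := he
  have hB0 : 0 < B := by linarith [hS.1]
  have h1 := Bms_pair (W := om B ρ) (Cl_cont a5) (Cl_cont hΦ) (Cl_cont (Cl_om hB0 ρ))
    (om_pos B ρ) (fun y => by
      rw [Bms_bd12]
      exact ex_le_om hS y) (Bms_into hS a1 a3 a5) hC hb
  refine h1.trans (mul_le_mul_of_nonneg_left ?_ (by positivity))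
  exact Real.sqrt_le_sqrt (Bms_Gn_ge hS a1 a3 a5)

theorem Bms_C {k : ℕ} (hk : 2 ≤ k) {Φ : ℝ → ℝ} (hΦ : Cl (3 / 4) (3 / 4) Φ) : ∃ C : ℝ, 0 ≤ C ∧
    ∀ γ : ℝ, 0 < γ → γ ≤ 1 / 8 → ∀ B : ℝ, 16 ≤ B → ∀ (p q : ℝ) (ε : ℝ → ℝ), 0 < p → 0 < q →
    Cl p q ε → (∀ y, |ε y| ≤ 1) → |ip (Rf k ε) Φ| ≤ C * ln γ B ε := by
  obtain ⟨C, hC, hb⟩ := Cl_bnd hΦ
  obtain ⟨C', hC', hR⟩ := R_le k hk
  refine ⟨C' * C, by positivity, ?_⟩
  intro γ hγ hγ' B hB p q ε hp hq hε h1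
  have hB0 : 0 < B := by linarith
  have hI := Bms_intl hγ hB0 hp hq hε
  have h2 : ‖∫ y, Rf k ε y * Φ y‖ ≤ ∫ y, C' * C * (loc γ B y * ε y ^ 2) := by
    refine norm_integral_le_of_norm_le (hI.const_mul _) (Eventually.of_forall fun y => ?_)
    rw [Real.norm_eq_abs, abs_mul]
    have h3 := hR ε y (h1 y)
    have h4 : |Φ y| ≤ C * loc γ B y := by
      refine (hb y).trans (mul_le_mul_of_nonneg_left ?_ hC)
      refine (bd_mono (p' := 1 / 2) (q' := 1 / 2) (by norm_num) (by norm_num) y).trans ?_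
      rw [Bms_bd12]
      exact ex_le_loc hγ hγ' hB y
    calc |Rf k ε y| * |Φ y| ≤ C' * ε y ^ 2 * (C * loc γ B y) :=
          mul_le_mul h3 h4 (abs_nonneg _) (by positivity)
      _ = C' * C * (loc γ B y * ε y ^ 2) := by ring
  rw [integral_const_mul, Real.norm_eq_abs] at h2
  refine h2.trans (mul_le_mul_of_nonneg_left ?_ (by positivity))
  exact Bms_ln_ge hγ hB0 hp hq hε

/-- `(2/k - 1) φ - y φ'` -/
noncomputable def Bms_psi (k : ℕ) (φ : ℝ → ℝ) (y : ℝ) : ℝ :=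
  (2 / (k : ℝ) - 1) * φ y - y * deriv φ y

theorem Bms_psi_cl (k : ℕ) {φ : ℝ → ℝ} (hφ : Cl 1 1 φ) : Cl (3 / 4) (3 / 4) (Bms_psi k φ) := by
  have h1 : Cl (3 / 4) (3 / 4) (fun y => (2 / (k : ℝ) - 1) * φ y) :=
    Cl_smul _ (Cl_mono hφ (by norm_num) (by norm_num))
  have h2 : Cl (3 / 4) (3 / 4) (fun y => y * deriv φ y) :=
    Cl_mono (Cl_mul (Cl_id (c := 1 / 4) (by norm_num)) (Cl_der hφ)) (by norm_num) (by norm_num)
  exact Cl_sub h1 h2

theorem Bms_Lam {k : ℕ} {p q : ℝ} {φ ε : ℝ → ℝ} (hφ : Cl 1 1 φ) (hp : 0 < p) (hq : 0 < q)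
    (hε : Cl p q ε) : ip (Lam k ε) φ = ip ε (Bms_psi k φ) := by
  have hL : Cl (p - 1 / 2) (q - 1 / 2) (Lam k ε) := Cl_Lam k hε (by norm_num)
  have hH : Cl (-(1 / 2) + (p + 1)) (-(1 / 2) + (q + 1)) (fun y => y * (ε y * φ y)) :=
    Cl_mul (Cl_id (c := 1 / 2) (by norm_num)) (Cl_mul hε hφ)
  unfold ip
  refine Cl_int_eq (Cl_int (Cl_mul hL hφ) (by linarith) (by linarith))
    (Cl_int (Cl_mul hε (Bms_psi_cl k hφ)) (by linarith) (by linarith)) hH (by linarith)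
    (by linarith) (fun y => ?_)
  have h1 : HasDerivAt (fun y => y * (ε y * φ y))
      (1 * (ε y * φ y) + y * (deriv ε y * φ y + ε y * deriv φ y)) y :=
    (hasDerivAt_id y).mul ((Cl_hd hε y).mul (Cl_hd hφ y))
  rw [h1.deriv]
  unfold Lam Bms_psi
  ring

theorem Bms_id {k : ℕ} {p q : ℝ} (hk : 1 ≤ k) (hp : 0 < p) (hp1 : p ≤ 1 / 2) (hq : 0 < q)
    (hq1 : q ≤ 1 / 2) {φ ε e : ℝ → ℝ} (hφ : Cl 1 1 φ) (hε : Cl p q ε) {p' q' : ℝ} (hp' : 0 < p')
    (hq' : 0 < q') (he : Cl p' q' e) (b m l : ℝ) :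
    ip (zeta k b m l ε e) φ = -ip ε (Lop k (deriv φ)) + ip (Rf k ε) (deriv φ)
      - b * ip (Lam k (Qf k)) φ + m * ip (deriv (Qf k)) φ + l * ip (deriv (deriv (Qf k))) φ
      - b * ip ε (Bms_psi k φ) - m * ip ε (deriv φ) + l * ip ε (deriv (deriv φ))
      + ip e (deriv φ) := by
  have hφ' := Cl_der hφ
  have hQ := Cl_Qf (k := k) hk
  have hg : Cl p q (gf k ε) := Cl_gf hk hp.le hq.le hε
  have hRf : Cl p q (Rf k ε) := Cl_Rf hk hp.le hq.le hε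
  have hLQ : Cl (1 / 2) (1 / 2) (Lam k (Qf k)) := Cl_LamQ hk (by norm_num)
  have hLe : Cl (p - 1 / 2) (q - 1 / 2) (Lam k ε) := Cl_Lam k hε (by norm_num)
  have i1 : Integrable (fun y => deriv (gf k ε) y * φ y) :=
    Cl_int (Cl_mul (Cl_der hg) hφ) (by linarith) (by linarith)
  have i2 : Integrable (fun y => Lam k (Qf k) y * φ y) :=
    Cl_int (Cl_mul hLQ hφ) (by norm_num) (by norm_num)
  have i3 : Integrable (fun y => deriv (Qf k) y * φ y) :=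
    Cl_int (Cl_mul (Cl_der hQ) hφ) (by norm_num) (by norm_num)
  have i4 : Integrable (fun y => deriv (deriv (Qf k)) y * φ y) :=
    Cl_int (Cl_mul (Cl_der (Cl_der hQ)) hφ) (by norm_num) (by norm_num)
  have i5 : Integrable (fun y => Lam k ε y * φ y) :=
    Cl_int (Cl_mul hLe hφ) (by linarith) (by linarith)
  have i6 : Integrable (fun y => deriv ε y * φ y) :=
    Cl_int (Cl_mul (Cl_der hε) hφ) (by linarith) (by linarith)
  have i7 : Integrable (fun y => deriv (deriv ε) y * φ y) :=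
    Cl_int (Cl_mul (Cl_der (Cl_der hε)) hφ) (by linarith) (by linarith)
  have i8 : Integrable (fun y => deriv e y * φ y) :=
    Cl_int (Cl_mul (Cl_der he) hφ) (by linarith) (by linarith)
  have e0 : ip (zeta k b m l ε e) φ = (∫ y, deriv (gf k ε) y * φ y)
      - b * (∫ y, Lam k (Qf k) y * φ y) + m * (∫ y, deriv (Qf k) y * φ y)
      + l * (∫ y, deriv (deriv (Qf k)) y * φ y) - b * (∫ y, Lam k ε y * φ y)
      + m * (∫ y, deriv ε y * φ y) + l * (∫ y, deriv (deriv ε) y * φ y)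
      - ∫ y, deriv e y * φ y := by
    have j1 : Integrable (fun y => deriv (gf k ε) y * φ y - b * (Lam k (Qf k) y * φ y)) :=
      i1.sub (i2.const_mul b)
    have j2 : Integrable (fun y => deriv (gf k ε) y * φ y - b * (Lam k (Qf k) y * φ y) +
        m * (deriv (Qf k) y * φ y)) := j1.add (i3.const_mul m)
    have j3 : Integrable (fun y => deriv (gf k ε) y * φ y - b * (Lam k (Qf k) y * φ y) +
        m * (deriv (Qf k) y * φ y) + l * (deriv (deriv (Qf k)) y * φ y)) :=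
      j2.add (i4.const_mul l)
    have j4 : Integrable (fun y => deriv (gf k ε) y * φ y - b * (Lam k (Qf k) y * φ y) +
        m * (deriv (Qf k) y * φ y) + l * (deriv (deriv (Qf k)) y * φ y) -
        b * (Lam k ε y * φ y)) := j3.sub (i5.const_mul b)
    have j5 : Integrable (fun y => deriv (gf k ε) y * φ y - b * (Lam k (Qf k) y * φ y) +
        m * (deriv (Qf k) y * φ y) + l * (deriv (deriv (Qf k)) y * φ y) -
        b * (Lam k ε y * φ y) + m * (deriv ε y * φ y)) := j4.add (i6.const_mul m)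
    have j6 : Integrable (fun y => deriv (gf k ε) y * φ y - b * (Lam k (Qf k) y * φ y) +
        m * (deriv (Qf k) y * φ y) + l * (deriv (deriv (Qf k)) y * φ y) -
        b * (Lam k ε y * φ y) + m * (deriv ε y * φ y) + l * (deriv (deriv ε) y * φ y)) :=
      j5.add (i7.const_mul l)
    have hz : (fun y => zeta k b m l ε e y * φ y) = fun y => deriv (gf k ε) y * φ y -
        b * (Lam k (Qf k) y * φ y) + m * (deriv (Qf k) y * φ y) +
        l * (deriv (deriv (Qf k)) y * φ y) - b * (Lam k ε y * φ y) + m * (deriv ε y * φ y) +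
        l * (deriv (deriv ε) y * φ y) - deriv e y * φ y := by
      funext y
      unfold zeta Nf
      ring
    unfold ip
    rw [hz, integral_sub j6 i8, integral_add j5 (i7.const_mul l),
      integral_add j4 (i6.const_mul m), integral_sub j3 (i5.const_mul b),
      integral_add j2 (i4.const_mul l), integral_add j1 (i3.const_mul m),
      integral_sub i1 (i2.const_mul b), integral_const_mul, integral_const_mul,
      integral_const_mul, integral_const_mul, integral_const_mul, integral_const_mul]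
  have e1 : ∫ y, deriv (gf k ε) y * φ y = -ip ε (Lop k (deriv φ)) + ip (Rf k ε) (deriv φ) := by
    rw [Cl_ibp hg hφ (by linarith) (by linarith)]
    have j1 : Integrable (fun y => Lop k ε y * deriv φ y) :=
      Cl_int (Cl_mul (Cl_Lop hk hε) hφ') (by linarith) (by linarith)
    have j2 : Integrable (fun y => Rf k ε y * deriv φ y) :=
      Cl_int (Cl_mul hRf hφ') (by linarith) (by linarith)
    have j3 : ∫ y, gf k ε y * deriv φ y =
        (∫ y, Lop k ε y * deriv φ y) - ∫ y, Rf k ε y * deriv φ y := by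
      rw [← integral_sub j1 j2]
      refine integral_congr_ae (Eventually.of_forall fun y => ?_)
      show gf k ε y * deriv φ y = Lop k ε y * deriv φ y - Rf k ε y * deriv φ y
      rw [gf_eq]
      ring
    have j4 : ∫ y, Lop k ε y * deriv φ y = ip ε (Lop k (deriv φ)) :=
      Lop_symm hk hε hφ' (by linarith) (by linarith)
    rw [j3, j4]
    unfold ip
    ring
  have e5 : ∫ y, Lam k ε y * φ y = ip ε (Bms_psi k φ) := Bms_Lam hφ hp hq hε
  have e6 : ∫ y, deriv ε y * φ y = -ip ε (deriv φ) :=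
    Cl_ibp hε hφ (by linarith) (by linarith)
  have e7 : ∫ y, deriv (deriv ε) y * φ y = ip ε (deriv (deriv φ)) := by
    rw [Cl_ibp (Cl_der hε) hφ (by linarith) (by linarith),
      Cl_ibp hε hφ' (by linarith) (by linarith), neg_neg]
    rfl
  have e8 : ∫ y, deriv e y * φ y = -ip e (deriv φ) :=
    Cl_ibp he hφ (by linarith) (by linarith)
  rw [e0, e1, e5, e6, e7, e8]
  unfold ip
  ring

theorem Bms_num {A P K : ℝ} (hA : 0 < A) (hP : 0 < P) (hK : 1 ≤ K) :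
    ∃ c C : ℝ, 0 < c ∧ c ≤ 1 ∧ 0 < C ∧ ∀ S G l q₀ b m : ℝ, 0 ≤ S → S ^ 2 ≤ c → 0 ≤ G → G ≤ 1 →
      0 ≤ l → l ≤ 1 → 0 ≤ q₀ → q₀ ≤ K * S →
      |b * A - l * P| ≤ K * S ^ 2 + |b| * (K * S) + |m| * q₀ + l * (K * S) + K * G →
      |m| * P ≤ K * S + K * S ^ 2 + |b| * (K * S) + |m| * (K * S) + l * (K * S) + K * G →
      |b - P / A * l| ≤ C * (l * S + S ^ 2 + q₀ + G) ∧ |m| ≤ C * (S + G) := by
  obtain ⟨D, hD⟩ : ∃ D, D = min A P := ⟨_, rfl⟩
  have hD0 : 0 < D := by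
    rw [hD]
    exact lt_min hA hP
  have hDA : D ≤ A := by
    rw [hD]
    exact min_le_left _ _
  have hDP : D ≤ P := by
    rw [hD]
    exact min_le_right _ _
  have hK0 : 0 < K := by linarith
  obtain ⟨s, hs⟩ : ∃ s, s = min 1 (D / (8 * K)) := ⟨_, rfl⟩
  have hs0 : 0 < s := by
    rw [hs]
    exact lt_min one_pos (by positivity)
  have hs1 : s ≤ 1 := by
    rw [hs]
    exact min_le_left _ _
  have hs2 : s ≤ D / (8 * K) := by
    rw [hs]
    exact min_le_right _ _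
  have hKs : K * s ≤ D / 8 := by
    calc K * s ≤ K * (D / (8 * K)) := mul_le_mul_of_nonneg_left hs2 hK0.le
      _ = D / 8 := by
        field_simp
  obtain ⟨M, hM⟩ : ∃ M, M = 2 * (P + 7 * K) / D := ⟨_, rfl⟩
  have hM0 : 0 < M := by
    rw [hM]
    positivity
  have hMD : M * D = 2 * (P + 7 * K) := by
    rw [hM]
    field_simp
  obtain ⟨C₁, hC₁⟩ : ∃ C₁, C₁ = 2 * (3 * K + M * K) / D := ⟨_, rfl⟩
  have hC₁0 : 0 < C₁ := by
    rw [hC₁]
    positivity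
  have hC₁D : C₁ * D = 2 * (3 * K + M * K) := by
    rw [hC₁]
    field_simp
  obtain ⟨C₂, hC₂⟩ : ∃ C₂, C₂ = 2 * (P + 2 * K + M) / D := ⟨_, rfl⟩
  have hC₂0 : 0 < C₂ := by
    rw [hC₂]
    positivity
  have hC₂D : C₂ * D = 2 * (P + 2 * K + M) := by
    rw [hC₂]
    field_simp
  obtain ⟨C₃, hC₃⟩ : ∃ C₃, C₃ = (K + M + K * C₂) / A := ⟨_, rfl⟩
  have hC₃0 : 0 < C₃ := by
    rw [hC₃]
    positivity
  refine ⟨s ^ 2, C₁ + C₃, by positivity, pow_le_one₀ hs0.le hs1, by positivity, ?_⟩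
  intro S G l q₀ b m hS hSs hG hG1 hl hl1 hq hqS h1 h2
  have hSs' : S ≤ s := (pow_le_pow_iff_left₀ hS hs0.le two_ne_zero).1 hSs
  have hS1 : S ≤ 1 := hSs'.trans hs1
  have hKS : K * S ≤ D / 8 := (mul_le_mul_of_nonneg_left hSs' hK0.le).trans hKs
  have hKS0 : 0 ≤ K * S := by positivity
  have hSS : S ^ 2 ≤ S := by (first | linarith only [hS, hSs', hs0, hs1] | nlinarith only [hS, hSs', hs0, hs1])
  have hb0 := abs_nonneg b
  have hm0 := abs_nonneg m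
  have t1 : K * S ^ 2 ≤ K * S := mul_le_mul_of_nonneg_left hSS hK0.le
  have t2 : |m| * (K * S) ≤ |m| * (D / 8) := mul_le_mul_of_nonneg_left hKS hm0
  have t3 : |b| * (K * S) ≤ |b| * (D / 8) := mul_le_mul_of_nonneg_left hKS hb0
  have t4 : l * (K * S) ≤ K * S := by
    calc l * (K * S) ≤ 1 * (K * S) := mul_le_mul_of_nonneg_right hl1 hKS0
      _ = K * S := one_mul _
  have t5 : K * G ≤ K := by
    calc K * G ≤ K * 1 := mul_le_mul_of_nonneg_left hG1 hK0.le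
      _ = K := mul_one _
  have t6 : K * S ≤ K := by
    calc K * S ≤ K * 1 := mul_le_mul_of_nonneg_left hS1 hK0.le
      _ = K := mul_one _
  have t7 : |m| * q₀ ≤ |m| * (D / 8) :=
    (mul_le_mul_of_nonneg_left hqS hm0).trans t2
  have t8 : |m| * D ≤ |m| * P := mul_le_mul_of_nonneg_left hDP hm0
  have t9 : |b| * D ≤ |b| * A := mul_le_mul_of_nonneg_left hDA hb0
  have t10 : |b| * A ≤ l * P + |b * A - l * P| := by
    have h3 : |b * A| ≤ |l * P| + |b * A - l * P| := by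
      have h4 := abs_add_le (l * P) (b * A - l * P)
      rwa [add_sub_cancel] at h4
    rw [abs_mul, abs_of_pos hA, abs_of_nonneg (mul_nonneg hl hP.le)] at h3
    exact h3
  have t11 : l * P ≤ P := by
    calc l * P ≤ 1 * P := mul_le_mul_of_nonneg_right hl1 hP.le
      _ = P := one_mul _
  -- crude bound
  have c1 : |m| + |b| ≤ M := by
    have h5 : (|m| + |b|) * D ≤ M * D := by
      rw [hMD]
      (first | linarith only [h1, h2, hDP, hK, hKS, t1, t10, t11, t2, t3, t4, t5, t6, t7, t8, t9] | nlinarith only [h1, h2, hDP, hK, hKS, t1, t10, t11, t2, t3, t4, t5, t6, t7, t8, t9])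
    exact le_of_mul_le_mul_right h5 hD0
  -- bound for m
  have c2 : |m| ≤ C₁ * (S + G) := by
    have h6 : |b| * (K * S) ≤ M * (K * S) := mul_le_mul_of_nonneg_right (by linarith) hKS0
    have h7 : M * K * G ≥ 0 := by positivity
    have h8 : K * G ≥ 0 := by positivity
    have h5 : |m| * D ≤ C₁ * (S + G) * D := by
      have h9 : C₁ * (S + G) * D = 2 * (3 * K + M * K) * (S + G) := by
        rw [← hC₁D]
        ring
      rw [h9]
      have h10 : 2 * (3 * K + M * K) * (S + G) = 6 * (K * S) + 6 * (K * G) + 2 * (M * (K * S))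
        + 2 * (M * K * G) := by ring
      rw [h10]
      (first | linarith only [h2, h6, h7, h8, hP, hm0, t1, t2, t4, t8] | nlinarith only [h2, h6, h7, h8, hP, hm0, t1, t2, t4, t8])
    exact le_of_mul_le_mul_right h5 hD0
  obtain ⟨X, hX⟩ : ∃ X, X = l * S + S ^ 2 + q₀ + G := ⟨_, rfl⟩
  have x1 : 0 ≤ l * S := by positivity
  have x2 : 0 ≤ S ^ 2 := by positivity
  have hX0 : 0 ≤ X := by
    rw [hX]
    positivity
  have m1 : |m| * q₀ ≤ M * q₀ := mul_le_mul_of_nonneg_right (by linarith) hq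
  -- bound for b S
  have c3 : |b| * S ≤ C₂ * X := by
    have h5 : |b| * S * D ≤ C₂ * X * D := by
      have h9 : C₂ * X * D = 2 * (P + 2 * K + M) * X := by
        rw [← hC₂D]
        ring
      rw [h9]
      have h11 : |b| * D ≤ 2 * (l * P + K * S ^ 2 + M * q₀ + l * (K * S) + K * G) := by
        (first | linarith only [h1, hA, hb0, m1, t10, t3, t9] | nlinarith only [h1, hA, hb0, m1, t10, t3, t9])
      have h12 : |b| * S * D ≤ 2 * (l * P + K * S ^ 2 + M * q₀ + l * (K * S) + K * G) * S := by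
        calc |b| * S * D = |b| * D * S := by ring
          _ ≤ _ := mul_le_mul_of_nonneg_right h11 hS
      refine h12.trans ?_
      have y1 : K * S ^ 2 * S ≤ K * S ^ 2 := by
        calc K * S ^ 2 * S ≤ K * S ^ 2 * 1 := mul_le_mul_of_nonneg_left hS1 (by positivity)
          _ = _ := mul_one _
      have y2 : M * q₀ * S ≤ M * q₀ := by
        calc M * q₀ * S ≤ M * q₀ * 1 := mul_le_mul_of_nonneg_left hS1 (by positivity)
          _ = _ := mul_one _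
      have y3 : l * (K * S) * S ≤ l * (K * S) := by
        calc l * (K * S) * S ≤ l * (K * S) * 1 :=
              mul_le_mul_of_nonneg_left hS1 (by positivity)
          _ = _ := mul_one _
      have y4 : K * G * S ≤ K * G := by
        calc K * G * S ≤ K * G * 1 := mul_le_mul_of_nonneg_left hS1 (by positivity)
          _ = _ := mul_one _
      have z1 : P * (l * S) ≤ P * X := by
        refine mul_le_mul_of_nonneg_left ?_ hP.le
        rw [hX]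
        linarith
      have z2 : K * (S ^ 2 + l * S + G) ≤ K * X := by
        refine mul_le_mul_of_nonneg_left ?_ hK0.le
        rw [hX]
        linarith
      have z3 : M * q₀ ≤ M * X := by
        refine mul_le_mul_of_nonneg_left ?_ hM0.le
        rw [hX]
        linarith
      have z4 : 0 ≤ K * X := by positivity
      (first | linarith only [y1, y2, y3, y4, z1, z2, z3, z4] | nlinarith only [y1, y2, y3, y4, z1, z2, z3, z4])
    exact le_of_mul_le_mul_right h5 hD0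
  have c4 : |b * A - l * P| ≤ (K + M + K * C₂) * X := by
    have h13 : |b| * (K * S) ≤ K * (C₂ * X) := by
      calc |b| * (K * S) = K * (|b| * S) := by ring
        _ ≤ K * (C₂ * X) := mul_le_mul_of_nonneg_left c3 hK0.le
    have z2 : K * (S ^ 2 + l * S + G) ≤ K * X := by
      refine mul_le_mul_of_nonneg_left ?_ hK0.le
      rw [hX]
      linarith
    have z3 : M * q₀ ≤ M * X := by
      refine mul_le_mul_of_nonneg_left ?_ hM0.le
      rw [hX]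
      linarith
    (first | linarith only [h1, h13, m1, z2, z3] | nlinarith only [h1, h13, m1, z2, z3])
  refine ⟨?_, ?_⟩
  · have h14 : b - P / A * l = (b * A - l * P) / A := by
      field_simp
    rw [h14, abs_div, abs_of_pos hA]
    have h15 : |b * A - l * P| / A ≤ C₃ * X := by
      rw [hC₃, div_mul_eq_mul_div]
      exact div_le_div_of_nonneg_right c4 hA.le
    refine h15.trans ?_
    rw [← hX]
    exact mul_le_mul_of_nonneg_right (by linarith) hX0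
  · refine c2.trans (mul_le_mul_of_nonneg_right (by linarith) (by positivity))

theorem BM_st (k : ℕ) (hk : 5 ≤ k) : ∃ c C : ℝ, 0 < c ∧ c ≤ 1 ∧ 0 < C ∧ ∀ γ : ℝ, 0 < γ → γ ≤ 1 / 8 →
    ∀ B ρ : ℝ, Slow B ρ → ∀ l : ℝ, 0 < l → l ≤ 1 → ∀ (p q : ℝ) (ε e : ℝ → ℝ),
    Adm ρ p q ε → Adm ρ p q e → (∀ y, |ε y| ≤ 1) → ln γ B ε ≤ c → Gn B ρ e ≤ 1 →
    ∀ b m, Orth k b m l ε e →
    |b - kap k * l| ≤ C * (l * √(ln γ B ε) + ln γ B ε + |ip ε (deriv (Qf k))| + √(Gn B ρ e)) ∧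
    |m| ≤ C * (√(ln γ B ε) + √(Gn B ρ e)) := by
  have hk1 : 1 ≤ k := by omega
  have hk2 : 2 ≤ k := by omega
  have hQ : Cl 1 1 (Qf k) := Cl_Qf hk1
  have hQ1 := Cl_der hQ
  have hQ2 := Cl_der hQ1
  have hQ3 := Cl_der hQ2
  have w : ∀ {f : ℝ → ℝ}, Cl 1 1 f → Cl (3 / 4) (3 / 4) f := fun h =>
    Cl_mono h (by norm_num) (by norm_num)
  obtain ⟨A, hA⟩ : ∃ A, A = sc k * ∫ y, (Qf k y) ^ 2 := ⟨_, rfl⟩
  obtain ⟨P, hP⟩ : ∃ P, P = ∫ y, (deriv (Qf k) y) ^ 2 := ⟨_, rfl⟩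
  have hA0 : 0 < A := by
    rw [hA]
    exact mul_pos (sc_pos hk) (Q2_pos hk1)
  have hP0 : 0 < P := by
    rw [hP]
    exact Qd2_pos hk1
  obtain ⟨K1, k1, a1⟩ := Bms_A (w hQ1)
  obtain ⟨K2, k2, a2⟩ := Bms_A (w hQ2)
  obtain ⟨K3, k3, a3⟩ := Bms_A (w hQ3)
  obtain ⟨K4, k4, a4⟩ := Bms_A (Bms_psi_cl k hQ)
  obtain ⟨K5, k5, a5⟩ := Bms_A (Bms_psi_cl k hQ1)
  obtain ⟨K6, k6, a6⟩ := Bms_A (w (Cl_Lop hk1 hQ2))
  obtain ⟨K7, k7, a7⟩ := Bms_B (w hQ1)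
  obtain ⟨K8, k8, a8⟩ := Bms_B (w hQ2)
  obtain ⟨K9, k9, a9⟩ := Bms_C hk2 (w hQ1)
  obtain ⟨K0, k0, a0⟩ := Bms_C hk2 (w hQ2)
  obtain ⟨K, hK⟩ : ∃ K, K = 1 + K1 + K2 + K3 + K4 + K5 + K6 + K7 + K8 + K9 + K0 := ⟨_, rfl⟩
  have hK1 : 1 ≤ K := by
    rw [hK]
    linarith
  obtain ⟨c, C, hc, hc1, hC, hmain⟩ := Bms_num hA0 hP0 hK1
  refine ⟨c, C, hc, hc1, hC, ?_⟩
  intro γ hγ hγ' B ρ hS l hl hl1 p q ε e hε he hε1 hln hGn b m hO
  obtain ⟨r1, r2, r3, r4, r5⟩ := hε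
  have he' := he
  obtain ⟨s1, s2, s3, s4, s5⟩ := he
  have hρ := hS.2.1
  have hp : 0 < p := by linarith
  have hB := hS.1
  have hB0 : 0 < B := by linarith
  have hln0 : 0 ≤ ln γ B ε := by
    unfold ln
    refine integral_nonneg fun y => ?_
    exact mul_nonneg (loc_pos γ B y).le (by positivity)
  obtain ⟨S, hSd⟩ : ∃ S, S = √(ln γ B ε) := ⟨_, rfl⟩
  obtain ⟨G, hGd⟩ : ∃ G, G = √(Gn B ρ e) := ⟨_, rfl⟩
  have hS0 : 0 ≤ S := by
    rw [hSd]
    exact Real.sqrt_nonneg _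
  have hG0 : 0 ≤ G := by
    rw [hGd]
    exact Real.sqrt_nonneg _
  have hS2 : S ^ 2 = ln γ B ε := by
    rw [hSd]
    exact Real.sq_sqrt hln0
  have hG1 : G ≤ 1 := by
    rw [hGd]
    rw [← Real.sqrt_one]
    exact Real.sqrt_le_sqrt hGn
  have v1 := a1 γ hγ hγ' B hB p q ε hp r3 r5
  have v2 := a2 γ hγ hγ' B hB p q ε hp r3 r5
  have v3 := a3 γ hγ hγ' B hB p q ε hp r3 r5
  have v4 := a4 γ hγ hγ' B hB p q ε hp r3 r5
  have v5 := a5 γ hγ hγ' B hB p q ε hp r3 r5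
  have v6 := a6 γ hγ hγ' B hB p q ε hp r3 r5
  have v7 := a7 B ρ hS p q e he'
  have v8 := a8 B ρ hS p q e he'
  have v9 := a9 γ hγ hγ' B hB p q ε hp r3 r5 hε1
  have v0 := a0 γ hγ hγ' B hB p q ε hp r3 r5 hε1
  rw [← hSd] at v1 v2 v3 v4 v5 v6
  rw [← hGd] at v7 v8
  rw [← hS2] at v9 v0
  have up : ∀ {x Ki Z : ℝ}, 0 ≤ Z → Ki ≤ K → x ≤ Ki * Z → x ≤ K * Z := fun hZ hi hx =>
    hx.trans (mul_le_mul_of_nonneg_right hi hZ)
  have u1 := up hS0 (by rw [hK]; linarith) v1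
  have u2 := up hS0 (by rw [hK]; linarith) v2
  have u3 := up hS0 (by rw [hK]; linarith) v3
  have u4 := up hS0 (by rw [hK]; linarith) v4
  have u5 := up hS0 (by rw [hK]; linarith) v5
  have u6 := up hS0 (by rw [hK]; linarith) v6
  have u7 := up hG0 (by rw [hK]; linarith) v7
  have u8 := up hG0 (by rw [hK]; linarith) v8
  have u9 := up (sq_nonneg S) (by rw [hK]; linarith) v9
  have u0 := up (sq_nonneg S) (by rw [hK]; linarith) v0
  obtain ⟨o1, o2⟩ := hO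
  rw [Bms_id hk1 hp r2 r3 r4 hQ r5 hp r3 s5 b m l] at o1
  rw [Bms_id hk1 hp r2 r3 r4 hQ1 r5 hp r3 s5 b m l] at o2
  have z1 : ip ε (Lop k (deriv (Qf k))) = 0 := by
    unfold ip
    have : (fun y => ε y * Lop k (deriv (Qf k)) y) = fun _ => 0 := by
      funext y
      rw [L_Qd hk1, mul_zero]
    rw [this, integral_zero]
  have z2 : ip (deriv (Qf k)) (Qf k) = 0 := by
    rw [← ip_Q_Qd hk1]
    unfold ip
    refine integral_congr_ae (Eventually.of_forall fun y => ?_)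
    exact mul_comm _ _
  have z3 : ip (deriv (Qf k)) (deriv (Qf k)) = P := by
    rw [hP]
    unfold ip
    refine integral_congr_ae (Eventually.of_forall fun y => ?_)
    exact (sq _).symm
  rw [z1, z2, ip_LamQ_Q hk1, ip_Qdd_Q hk1] at o1
  rw [ip_LamQ_Qd hk1, z3, ip_Qdd_Qd hk1] at o2
  rw [← hP] at o1
  have hA' : sc k * ∫ y, (Qf k y) ^ 2 = A := hA.symm
  have q1 : b * A - l * P = -ip (Rf k ε) (deriv (Qf k)) + b * ip ε (Bms_psi k (Qf k)) +
      m * ip ε (deriv (Qf k)) - l * ip ε (deriv (deriv (Qf k))) - ip e (deriv (Qf k)) := by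
    rw [← hA']
    linarith
  have q2 : m * P = ip ε (Lop k (deriv (deriv (Qf k)))) - ip (Rf k ε) (deriv (deriv (Qf k))) +
      b * ip ε (Bms_psi k (deriv (Qf k))) + m * ip ε (deriv (deriv (Qf k))) -
      l * ip ε (deriv (deriv (deriv (Qf k)))) - ip e (deriv (deriv (Qf k))) := by
    linarith
  have tri : ∀ a₁ a₂ a₃ a₄ a₅ : ℝ, |-a₁ + a₂ + a₃ - a₄ - a₅| ≤ |a₁| + |a₂| + |a₃| + |a₄| + |a₅| := by
    intro a₁ a₂ a₃ a₄ a₅
    have j1 := abs_sub (-a₁ + a₂ + a₃ - a₄) a₅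
    have j2 := abs_sub (-a₁ + a₂ + a₃) a₄
    have j3 := abs_add_le (-a₁ + a₂) a₃
    have j4 := abs_add_le (-a₁) a₂
    rw [abs_neg] at j4
    linarith
  have g1 : |b * A - l * P| ≤ K * S ^ 2 + |b| * (K * S) + |m| * |ip ε (deriv (Qf k))| +
      l * (K * S) + K * G := by
    rw [q1]
    refine (tri _ _ _ _ _).trans ?_
    rw [abs_mul b, abs_mul m, abs_mul l, abs_of_pos hl]
    have n1 := mul_le_mul_of_nonneg_left u4 (abs_nonneg b)
    have n2 := mul_le_mul_of_nonneg_left u2 hl.le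
    linarith
  have g2 : |m| * P ≤ K * S + K * S ^ 2 + |b| * (K * S) + |m| * (K * S) + l * (K * S) +
      K * G := by
    have n0 : |m| * P = |m * P| := by rw [abs_mul, abs_of_pos hP0]
    rw [n0, q2]
    have n1 := mul_le_mul_of_nonneg_left u5 (abs_nonneg b)
    have n2 := mul_le_mul_of_nonneg_left u3 hl.le
    have n3 := mul_le_mul_of_nonneg_left u2 (abs_nonneg m)
    have n4 : ∀ a₀ a₁ a₂ a₃ a₄ a₅ : ℝ,
        |a₀ - a₁ + a₂ + a₃ - a₄ - a₅| ≤ |a₀| + (|a₁| + |a₂| + |a₃| + |a₄| + |a₅|) := by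
      intro a₀ a₁ a₂ a₃ a₄ a₅
      have j0 : a₀ - a₁ + a₂ + a₃ - a₄ - a₅ = a₀ + (-a₁ + a₂ + a₃ - a₄ - a₅) := by ring
      rw [j0]
      exact (abs_add_le _ _).trans (add_le_add le_rfl (tri _ _ _ _ _))
    refine (n4 _ _ _ _ _ _).trans ?_
    rw [abs_mul b, abs_mul m, abs_mul l, abs_of_pos hl]
    linarith
  have hfin := hmain S G l (|ip ε (deriv (Qf k))|) b m hS0 (by rw [hS2]; exact hln) hG0 hG1
    hl.le hl1 (abs_nonneg _) u1 g1 g2
  have hkap : kap k = P / A := by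
    rw [hP, hA]
    rfl
  rw [hkap, ← hSd, ← hGd]
  rw [← hS2]
  exact hfin

end H98KB
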