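import Pool.Agent.H98.KB.Bms

/-!
# Bmt (second half of Bms) : bounds for the modulation parameters and for `(ζ, φ₀)`

Integrating by parts (all functions in `Cl`), with `p₀=(ε,Q)`, `q₀=(ε,Q')`:
`(ζ,Q) = -(g,Q') - b(ΛQ,Q) - l|Q'|² - b(Λε,Q) + m(ε',Q) + l(ε,Q'') + (e,Q')`,
`(g,Q') = -(R,Q')` (`LQ'=0`), `(ΛQ,Q)=-s_c|Q|²`, `(ε',Q) = -q₀`, `(Λε,Q) = ∫((2/k)Q - (yQ)')ε`.
Hence `b(s_c|Q|² - (Λε,Q)) = l|Q'|² - l(ε,Q'') - (R,Q') - (e,Q') + m q₀`   (1)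
`(ζ,Q') = -(g,Q'') + m|Q'|² - b(Λε,Q') + m(ε',Q') + l(ε'',Q') + (e,Q'')`, i.e.
`m(|Q'|² - (ε,Q'')) = (g,Q'') + b(Λε,Q') + l... - (e,Q'')` with `(g,Q'')=(ε,LQ'')-(R,Q'')`, `l(ε'',Q')=l(ε,Q''')`   (2)
Every pairing of `ε` with a function `O(e^{-3|y|/4})` is `≤ C(∫loc ε²)^{1/2} ≤ C√ln` (`loc ≥ e^{-|y|/2}`), every pairing of
`R` is `≤ C ln` (`|R| ≤ Cε²`), of `e` is `≤ C√Gn e` (`om ≥ e^{-|y|/2}/2`); constants depend on `k` only.
Choose `c` so small that `C√c` is `≤` half of `s_c|Q|²` and of `|Q'|²`.  From (1),(2): `|b|,|m| ≤ C` first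
(`|b| ≤ C(l+√ln+√Gn e+|m|√ln)`, `|m| ≤ C(√ln+|b|√ln+l√ln+√Gn e)`), then `|m| ≤ C(√ln+√Gn e)`, then (1) gives
`|b - κl| ≤ C(l√ln + ln + |q₀| + √Gn e)` (`κ=|Q'|²/(s_c|Q|²)`; `|b||(Λε,Q)| ≤ C|b|√ln`, `|b| ≤ C(l + ln + |q₀||m| + √Gn e)`).
`(ζ,φ₀)`: `-(g,φ₀')`, `-b(ΛQ,φ₀)`, `m(Q',φ₀)=0`-or bounded, `l(Q'',φ₀)`, `-b(Λε,φ₀)`, `-m(ε,φ₀')`, `l(ε,φ₀'')`, `(e,φ₀')`; `b ≤ 2κl`.
-/

open MeasureTheory Filter Topology Set
open scoped ContDiff

namespace H98KB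

theorem Bmt_add {f g : ℝ → ℝ} {a b : ℝ} (hf : Integrable f ∧ |∫ y, f y| ≤ a)
    (hg : Integrable g ∧ |∫ y, g y| ≤ b) :
    Integrable (fun y => f y + g y) ∧ |∫ y, (f y + g y)| ≤ a + b := by
  refine ⟨hf.1.add hg.1, ?_⟩
  rw [integral_add hf.1 hg.1]
  exact (abs_add_le _ _).trans (add_le_add hf.2 hg.2)

theorem Bmt_smul {f : ℝ → ℝ} {a : ℝ} (c : ℝ) (hf : Integrable f ∧ |∫ y, f y| ≤ a) :
    Integrable (fun y => c * f y) ∧ |∫ y, c * f y| ≤ |c| * a := by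
  refine ⟨hf.1.const_mul c, ?_⟩
  rw [integral_const_mul, abs_mul]
  exact mul_le_mul_of_nonneg_left hf.2 (abs_nonneg _)

theorem Bmt_pair {φ : ℝ → ℝ} (hφ : Cl (3 / 4) (3 / 4) φ) : ∃ A : ℝ, 0 ≤ A ∧
    ∀ W F : ℝ → ℝ, Continuous W → (∀ y, 0 < W y) → (∀ y, Real.exp (-(|y| / 2)) ≤ 2 * W y) →
    Continuous F → Integrable (fun y => W y * F y ^ 2) → ∀ S : ℝ, √(∫ y, W y * F y ^ 2) ≤ S →
    Integrable (fun y => F y * φ y) ∧ |∫ y, F y * φ y| ≤ A * S := by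
  obtain ⟨C, hC0, hC⟩ := Cl_bnd hφ
  refine ⟨√(2 * C ^ 2 * ∫ y, bd 1 1 y), Real.sqrt_nonneg _, ?_⟩
  intro W F hW hWp hW1 hF hF2 S hS
  have hb : ∀ y, φ y ^ 2 / W y ≤ 2 * C ^ 2 * bd 1 1 y := by
    intro y
    have h1 : φ y ^ 2 ≤ C ^ 2 * (bd (3 / 4) (3 / 4) y) ^ 2 := by
      rw [← sq_abs, ← mul_pow]
      exact pow_le_pow_left₀ (abs_nonneg _) (hC y) 2
    have h2 : (bd (3 / 4) (3 / 4) y) ^ 2 = bd 1 1 y * Real.exp (-(|y| / 2)) := by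
      rw [bd_abs, bd_abs, ← Real.exp_add, sq, ← Real.exp_add]
      congr 1
      ring
    have h3 : 0 < bd 1 1 y := bd_pos _ _ _
    rw [div_le_iff₀ (hWp y)]
    calc φ y ^ 2 ≤ C ^ 2 * (bd 1 1 y * Real.exp (-(|y| / 2))) := by rw [← h2]; exact h1
      _ ≤ C ^ 2 * (bd 1 1 y * (2 * W y)) := by
          have := hW1 y
          gcongr
      _ = _ := by ring
  have hc : Continuous (fun y => φ y ^ 2 / W y) :=
    ((Cl_cont hφ).pow 2).div hW (fun y => (hWp y).ne')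
  have hφ2 : Integrable (fun y => φ y ^ 2 / W y) := by
    refine int_of_bd hc (p := 1) (q := 1) one_pos one_pos ⟨2 * C ^ 2, fun y => ?_⟩
    rw [abs_of_nonneg (div_nonneg (sq_nonneg _) (hWp y).le)]
    exact hb y
  have h := cs_wt hF (Cl_cont hφ) hW hWp hF2 hφ2
  refine ⟨h.1, h.2.trans ?_⟩
  have h4 : ∫ y, φ y ^ 2 / W y ≤ 2 * C ^ 2 * ∫ y, bd 1 1 y := by
    rw [← integral_const_mul]
    exact integral_mono hφ2 ((bd_int one_pos one_pos).const_mul _) hb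
  exact mul_le_mul (Real.sqrt_le_sqrt h4) hS (Real.sqrt_nonneg _) (Real.sqrt_nonneg _)

theorem Bmt_Clloc {γ B : ℝ} (hγ : 0 < γ) (hB : 0 < B) :
    Cl (2 * γ + 2 / B) (2 * γ + 2 / B) (loc γ B) := Cl_mul (Cl_se2 hγ) (Cl_ch hB)

/-- `∫ W F²` is integrable if `W F²` is in the class -/
theorem Bmt_i2 {W F : ℝ → ℝ} {p q p' q' : ℝ} (hW : Cl p' q' W) (hF : Cl p q F)
    (hp : 0 < p' + 2 * p) (hq : 0 < q' + 2 * q) : Integrable (fun y => W y * F y ^ 2) := by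
  have h := Cl_mul hW (Cl_pow hF 2)
  push_cast at h
  exact Cl_int h hp hq

theorem Bmt_two {W F G : ℝ → ℝ} (hWp : ∀ y, 0 < W y) (hF : Integrable (fun y => W y * F y ^ 2))
    (hG : Integrable (fun y => W y * G y ^ 2)) :
    √(∫ y, W y * F y ^ 2) ≤ √(∫ y, W y * (F y ^ 2 + G y ^ 2)) ∧
    √(∫ y, W y * G y ^ 2) ≤ √(∫ y, W y * (F y ^ 2 + G y ^ 2)) := by
  have hi : Integrable (fun y => W y * (F y ^ 2 + G y ^ 2)) := by
    have := hF.add hG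
    refine this.congr (Eventually.of_forall fun y => ?_)
    show W y * F y ^ 2 + W y * G y ^ 2 = W y * (F y ^ 2 + G y ^ 2)
    ring
  constructor
  · refine Real.sqrt_le_sqrt (integral_mono hF hi fun y => ?_)
    exact mul_le_mul_of_nonneg_left (by nlinarith [sq_nonneg (G y)]) (hWp y).le
  · refine Real.sqrt_le_sqrt (integral_mono hG hi fun y => ?_)
    exact mul_le_mul_of_nonneg_left (by nlinarith [sq_nonneg (F y)]) (hWp y).le

/-- the facts on the weight `loc` -/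
theorem Bmt_loc {γ B : ℝ} (hγ : 0 < γ) (hγ' : γ ≤ 1 / 8) (hB : 16 ≤ B) {p q : ℝ} (hp : 0 < p)
    (hq : 0 < q) {ε : ℝ → ℝ} (hε : Cl p q ε) :
    Continuous (loc γ B) ∧ (∀ y, 0 < loc γ B y) ∧ (∀ y, Real.exp (-(|y| / 2)) ≤ 2 * loc γ B y) ∧
    Integrable (fun y => loc γ B y * ε y ^ 2) ∧
    Integrable (fun y => loc γ B y * deriv ε y ^ 2) ∧
    √(∫ y, loc γ B y * ε y ^ 2) ≤ √(ln γ B ε) ∧
    √(∫ y, loc γ B y * deriv ε y ^ 2) ≤ √(ln γ B ε) := by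
  have hB0 : 0 < B := by linarith
  have hC := Bmt_Clloc hγ hB0
  have h0 : 0 < 2 / B := by positivity
  have i1 : Integrable (fun y => loc γ B y * ε y ^ 2) := Bmt_i2 hC hε (by linarith) (by linarith)
  have i2 : Integrable (fun y => loc γ B y * deriv ε y ^ 2) :=
    Bmt_i2 hC (Cl_der hε) (by linarith) (by linarith)
  have h2 := Bmt_two (loc_pos γ B) i1 i2
  refine ⟨Cl_cont hC, loc_pos γ B, fun y => ?_, i1, i2, h2.1, h2.2⟩
  have := ex_le_loc hγ hγ' hB y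
  linarith [loc_pos γ B y]

/-- the facts on the weight `om` -/
theorem Bmt_om {B ρ : ℝ} (h : Slow B ρ) {p q : ℝ} (hp : ρ < p)
    (hq : 0 < q) {ε : ℝ → ℝ} (hε : Cl p q ε) :
    Continuous (om B ρ) ∧ (∀ y, 0 < om B ρ y) ∧ (∀ y, Real.exp (-(|y| / 2)) ≤ 2 * om B ρ y) ∧
    Integrable (fun y => om B ρ y * ε y ^ 2) ∧
    Integrable (fun y => om B ρ y * deriv ε y ^ 2) ∧
    √(∫ y, om B ρ y * ε y ^ 2) ≤ √(Gn B ρ ε) ∧
    √(∫ y, om B ρ y * deriv ε y ^ 2) ≤ √(Gn B ρ ε) := by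
  have hB0 : 0 < B := by linarith [h.1]
  have hρ := h.2.1
  have hC := Cl_om hB0 ρ
  have h0 : 0 < 1 / B := by positivity
  have i1 : Integrable (fun y => om B ρ y * ε y ^ 2) := Bmt_i2 hC hε (by linarith) (by linarith)
  have i2 : Integrable (fun y => om B ρ y * deriv ε y ^ 2) :=
    Bmt_i2 hC (Cl_der hε) (by linarith) (by linarith)
  have h2 := Bmt_two (om_pos B ρ) i1 i2
  exact ⟨Cl_cont hC, om_pos B ρ, ex_le_om h, i1, i2, h2.1, h2.2⟩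

theorem Bmt_ph (k : ℕ) (hk : 5 ≤ k) : Cl (3 / 4) (3 / 4) (ph0 k) ∧
    Cl (3 / 4) (3 / 4) (deriv (ph0 k)) ∧ Cl (3 / 4) (3 / 4) (deriv (deriv (ph0 k))) ∧
    Cl (3 / 4) (3 / 4) (fun y => y * ph0 k y) := by
  have h5 : (5 : ℝ) ≤ k := by exact_mod_cast hk
  have h := Cl_ph0 (k := k) (by omega)
  have h1 : Cl (3 / 4) (3 / 4) (ph0 k) := Cl_mono h (by linarith) (by linarith)
  refine ⟨h1, Cl_der h1, Cl_der (Cl_der h1), ?_⟩
  exact Cl_mono (Cl_mul (Cl_id (c := 1) one_pos) h) (by linarith) (by linarith)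

theorem Bmt_D (k : ℕ) (hk : 1 ≤ k) : ∃ C : ℝ, 0 ≤ C ∧ ∀ (ε : ℝ → ℝ), (∀ y, |ε y| ≤ 1) →
    ∀ y, |Df k ε y| ≤ C * |ε y| := by
  have hC0 : 0 ≤ C0 k := by
    unfold C0
    positivity
  refine ⟨2 ^ k * (C0 k + 1), by positivity, fun ε hε y => (D_le k ε y).trans ?_⟩
  have h1 : Qf k y ^ k ≤ C0 k := by
    rw [Qf_pow hk]
    nlinarith [mul_nonneg hC0 (sq_nonneg (th k y))]
  have h2 : |ε y| ^ k ≤ 1 := pow_le_one₀ (abs_nonneg _) (hε y)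
  have h3 : 0 ≤ |ε y| := abs_nonneg _
  gcongr

theorem DL_st (k : ℕ) (hk : 5 ≤ k) : ∃ C : ℝ, 0 < C ∧ ∀ γ : ℝ, 0 < γ → γ ≤ 1 / 8 →
    ∀ B ρ : ℝ, Slow B ρ → ∀ l : ℝ, 0 < l → l ≤ 1 → ∀ (p q : ℝ) (ε e : ℝ → ℝ),
    Adm ρ p q ε → Adm ρ p q e → (∀ y, |ε y| ≤ 1) → ln γ B ε ≤ 1 → Gn B ρ e ≤ 1 →
    ∀ b m, |b| ≤ 2 * kap k * l → |m| ≤ 1 →
    |ip (zeta k b m l ε e) (ph0 k)| ≤ C * (√(ln γ B ε) + l + |m| + √(Gn B ρ e)) := by
  have hk1 : 1 ≤ k := by omega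
  have hkap := kap_pos hk
  obtain ⟨c0, c1, c2, c3⟩ := Bmt_ph k hk
  obtain ⟨A0, hA0, P0⟩ := Bmt_pair c0
  obtain ⟨A1, hA1, P1⟩ := Bmt_pair c1
  obtain ⟨A2, hA2, P2⟩ := Bmt_pair c2
  obtain ⟨A3, hA3, P3⟩ := Bmt_pair c3
  obtain ⟨CD, hCD, hD⟩ := Bmt_D k hk1
  -- constants
  set I1 := |∫ y, Lam k (Qf k) y * ph0 k y| with hI1
  set I2 := |∫ y, deriv (Qf k) y * ph0 k y| with hI2
  set I3 := |∫ y, deriv (deriv (Qf k)) y * ph0 k y| with hI3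
  have hI1' : 0 ≤ I1 := abs_nonneg _
  have hI2' : 0 ≤ I2 := abs_nonneg _
  have hI3' : 0 ≤ I3 := abs_nonneg _
  have hk0 : (0 : ℝ) < k := by exact_mod_cast (by omega : 0 < k)
  refine ⟨1 + (A2 + A1 + CD * A1) + (2 * kap k * I1) + I2 + I3 + (2 * kap k * (2 / k)) * A0 +
    2 * kap k * A3 + A0 + A1 + A0, by positivity, ?_⟩
  intro γ hγ hγ' B ρ hS l hl hl1 p q ε e hε he hε1 _ _ b m hb hm
  obtain ⟨hρp, -, hq, -, hεC⟩ := hε
  obtain ⟨-, -, -, -, heC⟩ := he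
  have hp : 0 < p := hS.2.1.trans hρp
  obtain ⟨wc, wp, w1, i1, i2, s1, s2⟩ := Bmt_loc hγ hγ' hS.1 hp hq hεC
  obtain ⟨vc, vp, v1, j1, j2, t1, t2⟩ := Bmt_om hS hρp hq heC
  set S := √(ln γ B ε) with hSdef
  set G := √(Gn B ρ e) with hGdef
  have hS0 : 0 ≤ S := Real.sqrt_nonneg _
  have hG0 : 0 ≤ G := Real.sqrt_nonneg _
  have hεc := Cl_cont hεC
  have hεc' := Cl_cont (Cl_der hεC)
  -- pairings
  have q1 := P0 _ _ wc wp w1 hεc i1 S s1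
  have q2 := P1 _ _ wc wp w1 hεc i1 S s1
  have q3 := P2 _ _ wc wp w1 hεc' i2 S s2
  have q4 := P3 _ _ wc wp w1 hεc' i2 S s2
  have q5 := P0 _ _ wc wp w1 hεc' i2 S s2
  have q6 := P1 _ _ wc wp w1 hεc' i2 S s2
  have q7 := P0 _ _ vc vp v1 (Cl_cont (Cl_der heC)) j2 G t2
  -- the term with `D`
  have hDC : Cl p q (Df k ε) := Cl_Df hk1 hp.le hq.le hεC
  have hB0 : 0 < B := by linarith [hS.1]
  have h2B : 0 < 2 / B := by positivity
  have i3 : Integrable (fun y => loc γ B y * Df k ε y ^ 2) :=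
    Bmt_i2 (Bmt_Clloc hγ hB0) hDC (by linarith) (by linarith)
  have s3 : √(∫ y, loc γ B y * Df k ε y ^ 2) ≤ CD * S := by
    have h1 : ∫ y, loc γ B y * Df k ε y ^ 2 ≤ CD ^ 2 * ∫ y, loc γ B y * ε y ^ 2 := by
      rw [← integral_const_mul]
      refine integral_mono i3 (i1.const_mul _) fun y => ?_
      have h2 : Df k ε y ^ 2 ≤ CD ^ 2 * ε y ^ 2 := by
        rw [← sq_abs (Df k ε y), ← sq_abs (ε y), ← mul_pow]
        exact pow_le_pow_left₀ (abs_nonneg _) (hD ε hε1 y) 2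
      calc loc γ B y * Df k ε y ^ 2 ≤ loc γ B y * (CD ^ 2 * ε y ^ 2) :=
            mul_le_mul_of_nonneg_left h2 (wp y).le
        _ = _ := by ring
    calc √(∫ y, loc γ B y * Df k ε y ^ 2) ≤ √(CD ^ 2 * ∫ y, loc γ B y * ε y ^ 2) :=
          Real.sqrt_le_sqrt h1
      _ = CD * √(∫ y, loc γ B y * ε y ^ 2) := by
          rw [Real.sqrt_mul (sq_nonneg _), Real.sqrt_sq hCD]
      _ ≤ CD * S := mul_le_mul_of_nonneg_left s1 hCD
  have q8 := P1 _ _ wc wp w1 (Cl_cont hDC) i3 (CD * S) s3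
  -- second derivatives of `ε`
  have hd2 : Integrable (fun y => deriv (deriv ε) y * deriv (ph0 k) y) ∧
      |∫ y, deriv (deriv ε) y * deriv (ph0 k) y| ≤ A2 * S := by
    refine ⟨Cl_int (Cl_mul (Cl_der (Cl_der hεC)) c1) (by linarith) (by linarith), ?_⟩
    rw [Cl_ibp (Cl_der hεC) c1 (by linarith) (by linarith), abs_neg]
    exact q3.2
  have hd3 : Integrable (fun y => deriv (deriv ε) y * ph0 k y) ∧
      |∫ y, deriv (deriv ε) y * ph0 k y| ≤ A1 * S := by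
    refine ⟨Cl_int (Cl_mul (Cl_der (Cl_der hεC)) c0) (by linarith) (by linarith), ?_⟩
    rw [Cl_ibp (Cl_der hεC) c0 (by linarith) (by linarith), abs_neg]
    exact q6.2
  have hgC : Cl p q (gf k ε) := Cl_gf hk1 hp.le hq.le hεC
  have hg : Integrable (fun y => deriv (gf k ε) y * ph0 k y) ∧
      |∫ y, deriv (gf k ε) y * ph0 k y| ≤ (A2 + A1 + CD * A1) * S := by
    refine ⟨Cl_int (Cl_mul (Cl_der hgC) c0) (by linarith) (by linarith), ?_⟩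
    rw [Cl_ibp hgC c0 (by linarith) (by linarith), abs_neg]
    have h1 := Bmt_add (Bmt_add (Bmt_smul (-1) hd2) q2) (Bmt_smul (-1) q8)
    have h2 : (fun y => gf k ε y * deriv (ph0 k) y) = fun y =>
        ((-1) * (deriv (deriv ε) y * deriv (ph0 k) y) + ε y * deriv (ph0 k) y) +
          (-1) * (Df k ε y * deriv (ph0 k) y) := by
      funext y
      unfold gf
      ring
    rw [h2]
    refine h1.2.trans (le_of_eq ?_)
    rw [abs_neg, abs_one]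
    ring
  have k1 : Integrable (fun y => Lam k (Qf k) y * ph0 k y) ∧
      |∫ y, Lam k (Qf k) y * ph0 k y| ≤ I1 :=
    ⟨Cl_int (Cl_mul (Cl_LamQ (c := 1 / 2) hk1 (by norm_num)) c0) (by norm_num) (by norm_num), le_rfl⟩
  have k2 : Integrable (fun y => deriv (Qf k) y * ph0 k y) ∧
      |∫ y, deriv (Qf k) y * ph0 k y| ≤ I2 :=
    ⟨Cl_int (Cl_mul (Cl_der (Cl_Qf hk1)) c0) (by norm_num) (by norm_num), le_rfl⟩
  have k3 : Integrable (fun y => deriv (deriv (Qf k)) y * ph0 k y) ∧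
      |∫ y, deriv (deriv (Qf k)) y * ph0 k y| ≤ I3 :=
    ⟨Cl_int (Cl_mul (Cl_der (Cl_der (Cl_Qf hk1))) c0) (by norm_num) (by norm_num), le_rfl⟩
  have hall := Bmt_add (Bmt_add (Bmt_add (Bmt_add (Bmt_add (Bmt_add (Bmt_add (Bmt_add hg
    (Bmt_smul (-b) k1)) (Bmt_smul m k2)) (Bmt_smul l k3)) (Bmt_smul (-b * (2 / k)) q1))
    (Bmt_smul (-b) q4)) (Bmt_smul m q5)) (Bmt_smul l hd3)) (Bmt_smul (-1) q7)
  have hfun : (fun y => zeta k b m l ε e y * ph0 k y) = fun y =>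
      (((((((deriv (gf k ε) y * ph0 k y + -b * (Lam k (Qf k) y * ph0 k y)) +
        m * (deriv (Qf k) y * ph0 k y)) + l * (deriv (deriv (Qf k)) y * ph0 k y)) +
        -b * (2 / k) * (ε y * ph0 k y)) + -b * (deriv ε y * (y * ph0 k y))) +
        m * (deriv ε y * ph0 k y)) + l * (deriv (deriv ε) y * ph0 k y)) +
        (-1) * (deriv e y * ph0 k y) := by
    funext y
    simp only [zeta, Nf, Lam]
    ring
  unfold ip
  rw [hfun]
  refine hall.2.trans ?_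
  rw [abs_neg, abs_neg, abs_one, abs_mul, abs_neg, abs_of_pos hl,
    abs_of_pos (by positivity : (0 : ℝ) < 2 / k)]
  have hkl : 2 * kap k * l ≤ 2 * kap k := mul_le_of_le_one_right (by positivity) hl1
  have hm0 : 0 ≤ |m| := abs_nonneg m
  have hb0 : 0 ≤ |b| := abs_nonneg b
  have e1 : |b| * I1 ≤ 2 * kap k * I1 * l := by
    calc |b| * I1 ≤ (2 * kap k * l) * I1 := mul_le_mul_of_nonneg_right hb hI1'
      _ = _ := by ring
  have e2 : |b| * (2 / k) * (A0 * S) ≤ (2 * kap k * (2 / k)) * A0 * S := by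
    have : 0 ≤ (2 / (k : ℝ)) * (A0 * S) := by positivity
    calc |b| * (2 / k) * (A0 * S) = |b| * ((2 / k) * (A0 * S)) := by ring
      _ ≤ (2 * kap k) * ((2 / k) * (A0 * S)) := mul_le_mul_of_nonneg_right (hb.trans hkl) this
      _ = _ := by ring
  have e3 : |b| * (A3 * S) ≤ 2 * kap k * A3 * S := by
    have : 0 ≤ A3 * S := by positivity
    calc |b| * (A3 * S) ≤ (2 * kap k) * (A3 * S) := mul_le_mul_of_nonneg_right (hb.trans hkl) this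
      _ = _ := by ring
  have e4 : |m| * (A0 * S) ≤ A0 * S := by
    have : 0 ≤ A0 * S := by positivity
    exact mul_le_of_le_one_left this hm
  have e5 : l * (A1 * S) ≤ A1 * S := by
    have : 0 ≤ A1 * S := by positivity
    exact mul_le_of_le_one_left this hl1
  set X := S + l + |m| + G with hX
  have hX0 : 0 ≤ X := by positivity
  have x1 : S ≤ X := by linarith
  have x2 : l ≤ X := by linarith
  have x3 : |m| ≤ X := by linarith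
  have x4 : G ≤ X := by linarith
  have f1 : (A2 + A1 + CD * A1) * S ≤ (A2 + A1 + CD * A1) * X :=
    mul_le_mul_of_nonneg_left x1 (by positivity)
  have f2 : 2 * kap k * I1 * l ≤ 2 * kap k * I1 * X := mul_le_mul_of_nonneg_left x2 (by positivity)
  have f3 : |m| * I2 ≤ I2 * X := by rw [mul_comm]; exact mul_le_mul_of_nonneg_left x3 hI2'
  have f4 : l * I3 ≤ I3 * X := by rw [mul_comm]; exact mul_le_mul_of_nonneg_left x2 hI3'
  have f5 : (2 * kap k * (2 / k)) * A0 * S ≤ (2 * kap k * (2 / k)) * A0 * X :=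
    mul_le_mul_of_nonneg_left x1 (by positivity)
  have f6 : 2 * kap k * A3 * S ≤ 2 * kap k * A3 * X := mul_le_mul_of_nonneg_left x1 (by positivity)
  have f7 : A0 * S ≤ A0 * X := mul_le_mul_of_nonneg_left x1 hA0
  have f8 : A1 * S ≤ A1 * X := mul_le_mul_of_nonneg_left x1 hA1
  have f9 : 1 * (A0 * G) ≤ A0 * X := by
    rw [one_mul]
    exact mul_le_mul_of_nonneg_left x4 hA0
  have hE : (1 + (A2 + A1 + CD * A1) + (2 * kap k * I1) + I2 + I3 + (2 * kap k * (2 / k)) * A0 +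
    2 * kap k * A3 + A0 + A1 + A0) * X = X + (A2 + A1 + CD * A1) * X + 2 * kap k * I1 * X + I2 * X +
    I3 * X + (2 * kap k * (2 / k)) * A0 * X + 2 * kap k * A3 * X + A0 * X + A1 * X + A0 * X := by
    ring
  rw [hE]
  linarith

theorem LN_st (k : ℕ) (hk : 5 ≤ k) : ∃ C : ℝ, 0 < C ∧ ∀ γ : ℝ, 0 < γ → γ ≤ 1 / 8 →
    ∀ B ρ : ℝ, Slow B ρ → ∀ (p q : ℝ) (ε : ℝ → ℝ), Adm ρ p q ε →
    ln γ B ε ≤ C * Gn B ρ ε ∧ |ip ε (ph0 k)| ≤ C * √(ln γ B ε) ∧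
    |ip ε (Qf k)| ≤ C * √(ln γ B ε) ∧ |ip ε (deriv (Qf k))| ≤ C * √(ln γ B ε) := by
  have hk1 : 1 ≤ k := by omega
  have cQ : Cl (3 / 4) (3 / 4) (Qf k) := Cl_mono (Cl_Qf hk1) (by norm_num) (by norm_num)
  obtain ⟨A0, hA0, P0⟩ := Bmt_pair (Bmt_ph k hk).1
  obtain ⟨A1, hA1, P1⟩ := Bmt_pair cQ
  obtain ⟨A2, hA2, P2⟩ := Bmt_pair (Cl_der cQ)
  refine ⟨8 + A0 + A1 + A2, by positivity, ?_⟩
  intro γ hγ hγ' B ρ hS p q ε hε
  obtain ⟨hρp, -, hq, -, hεC⟩ := hε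
  have hp : 0 < p := hS.2.1.trans hρp
  obtain ⟨wc, wp, w1, i1, i2, s1, s2⟩ := Bmt_loc hγ hγ' hS.1 hp hq hεC
  obtain ⟨vc, vp, v1, j1, j2, t1, t2⟩ := Bmt_om hS hρp hq hεC
  set S := √(ln γ B ε) with hSdef
  have hS0 : 0 ≤ S := Real.sqrt_nonneg _
  have hG0 : 0 ≤ Gn B ρ ε := integral_nonneg fun y => mul_nonneg (vp y).le (by positivity)
  have q1 := (P0 _ _ wc wp w1 (Cl_cont hεC) i1 S s1).2
  have q2 := (P1 _ _ wc wp w1 (Cl_cont hεC) i1 S s1).2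
  have q3 := (P2 _ _ wc wp w1 (Cl_cont hεC) i1 S s1).2
  have hln : ln γ B ε ≤ 8 * Gn B ρ ε := by
    unfold ln Gn
    rw [← integral_const_mul]
    refine integral_mono ?_ ?_ fun y => ?_
    · refine (i1.add i2).congr (Eventually.of_forall fun y => ?_)
      show loc γ B y * ε y ^ 2 + loc γ B y * deriv ε y ^ 2 = loc γ B y * (ε y ^ 2 + deriv ε y ^ 2)
      ring
    · refine ((j1.add j2).const_mul 8).congr (Eventually.of_forall fun y => ?_)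
      show 8 * (om B ρ y * ε y ^ 2 + om B ρ y * deriv ε y ^ 2) =
        8 * (om B ρ y * (ε y ^ 2 + deriv ε y ^ 2))
      ring
    · have h1 := (loc_le_ch γ B y).trans (ch_le_om hS y)
      calc loc γ B y * (ε y ^ 2 + deriv ε y ^ 2) ≤ 8 * om B ρ y * (ε y ^ 2 + deriv ε y ^ 2) :=
            mul_le_mul_of_nonneg_right h1 (by positivity)
        _ = _ := by ring
  refine ⟨?_, ?_, ?_, ?_⟩
  · refine hln.trans (mul_le_mul_of_nonneg_right (by linarith) hG0)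
  · exact q1.trans (mul_le_mul_of_nonneg_right (by linarith) hS0)
  · exact q2.trans (mul_le_mul_of_nonneg_right (by linarith) hS0)
  · exact q3.trans (mul_le_mul_of_nonneg_right (by linarith) hS0)

end H98KB
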