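import Pool.Agent.H98.KB.Sol

/-!
# Coa : the first order inverse (factorisation of `L`)

Let `c > 0`, `Φ > 0` with `Φ' = -c t Φ`, `t = th k y`, `Φ` comparable with `e^{-c|y|}`
(`a e^{-c|y|} ≤ Φ ≤ A e^{-c|y|}`).  If `f ∈ Cl p q` with `0 < p,q` and `∫ f Φ = 0`, put
`h(y) = Φ(y)^{-1} ∫_y^∞ Φ f = -Φ(y)^{-1} ∫_{-∞}^y Φ f`.
`(Φh)' = -Φ f` gives `h' = c t h - f`, i.e. `f = -h' + c t h`.
Bound: for `y ≥ 0`: `|h| ≤ (1/a) e^{cy} ∫_y^∞ A e^{-cz} C e^{-pz} dz ≤ C' e^{-py}`; for `y ≤ 0` use the
other formula: `|h| ≤ C' e^{-q|y|}`.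
Class: `h' = c t h - f` with `t ∈ Cl 0 0`: by induction every `iteratedDeriv j h` exists and is `O(bd p q)`
(`h ∈ C^∞` because `h' = c t h - f`; for the bounds use Leibniz, or show by induction on `j` that
`iteratedDeriv j h` is a combination of `Cl 0 0`-multiples of `h` and an element of `Cl p q`).
-/

open MeasureTheory Filter Topology Set
open scoped ContDiff

namespace H98KB

variable {k : ℕ}

theorem Coa_rep {c p q : ℝ} {f h : ℝ → ℝ} (hh : ∀ y, HasDerivAt h (c * th k y * h y - f y) y)
    (hf : Cl p q f) (j : ℕ) : ∃ α β : ℝ → ℝ, Cl 0 0 α ∧ Cl p q β ∧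
      iteratedDeriv j h = fun y => α y * h y + β y := by
  induction j with
  | zero =>
    refine ⟨fun _ => 1, fun _ => 0, Cl_const 1, Cl_zero, ?_⟩
    rw [iteratedDeriv_zero]
    funext y
    ring
  | succ j ih =>
    obtain ⟨α, β, hα, hβ, e⟩ := ih
    refine ⟨fun y => deriv α y + α y * (c * th k y), fun y => deriv β y - α y * f y, ?_, ?_, ?_⟩
    · exact Cl_add (Cl_der hα) (Cl_mul0 hα (Cl_smul c (Cl_th k)))
    · exact Cl_sub (Cl_der hβ) (Cl_mul0 hα hf)
    · rw [iteratedDeriv_succ, e]
      funext y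
      have h1 := ((Cl_hd hα y).mul (hh y)).add (Cl_hd hβ y)
      have h2 : deriv (fun y => α y * h y + β y) y =
          deriv α y * h y + α y * (c * th k y * h y - f y) + deriv β y := h1.deriv
      rw [h2]
      ring

theorem Coa_cl {c p q : ℝ} {f h : ℝ → ℝ} (hh : ∀ y, HasDerivAt h (c * th k y * h y - f y) y)
    (hf : Cl p q f) {C : ℝ} (hC0 : 0 ≤ C) (hC : ∀ y, |h y| ≤ C * bd p q y) : Cl p q h := by
  have hd : Differentiable ℝ h := fun y => (hh y).differentiableAt
  refine ⟨?_, fun j => ?_⟩
  · refine contDiff_of_differentiable_iteratedDeriv fun j _ => ?_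
    obtain ⟨α, β, hα, hβ, e⟩ := Coa_rep hh hf j
    rw [e]
    intro y
    exact (((Cl_hd hα y).differentiableAt).mul (hd y)).add (Cl_hd hβ y).differentiableAt
  · obtain ⟨α, β, hα, hβ, e⟩ := Coa_rep hh hf j
    obtain ⟨A, hA0, hA⟩ := Cl_bnd hα
    obtain ⟨B, hB0, hB⟩ := Cl_bnd hβ
    refine ⟨A * C + B, fun y => ?_⟩
    rw [e]
    have h1 := hA y
    rw [bd_zero, mul_one] at h1
    calc |α y * h y + β y| ≤ |α y * h y| + |β y| := abs_add_le _ _
      _ = |α y| * |h y| + |β y| := by rw [abs_mul]
      _ ≤ A * (C * bd p q y) + B * bd p q y :=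
        add_le_add (mul_le_mul h1 (hC y) (abs_nonneg _) hA0) (hB y)
      _ = (A * C + B) * bd p q y := by ring

theorem first_inv {c p q : ℝ} {Φ f : ℝ → ℝ} (hc : 0 < c) (hp : 0 < p) (hq : 0 < q)
    (hΦ : ∀ y, HasDerivAt Φ (-(c * th k y) * Φ y) y)
    (hlo : ∃ a : ℝ, 0 < a ∧ ∀ y, a * Real.exp (-(c * |y|)) ≤ Φ y)
    (hhi : ∃ A : ℝ, 0 < A ∧ ∀ y, Φ y ≤ A * Real.exp (-(c * |y|)))
    (hf : Cl p q f) (h0 : ip f Φ = 0) :
    ∃ h : ℝ → ℝ, Cl p q h ∧ ∀ y, f y = -deriv h y + c * th k y * h y := by
  obtain ⟨a, ha, hlo⟩ := hlo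
  obtain ⟨A, hA, hhi⟩ := hhi
  obtain ⟨C, hC0, hC⟩ := Cl_bnd hf
  have hΦp : ∀ y, 0 < Φ y := fun y => lt_of_lt_of_le (mul_pos ha (Real.exp_pos _)) (hlo y)
  have hΦc : Continuous Φ := continuous_iff_continuousAt.mpr fun y => (hΦ y).continuousAt
  have hgc : Continuous (fun z => f z * Φ z) := (Cl_cont hf).mul hΦc
  have hb : ∀ z, |f z * Φ z| ≤ C * A * bd (p + c) (q + c) z := by
    intro z
    rw [abs_mul, abs_of_pos (hΦp z), ← bd_mul, bd_abs c]
    calc |f z| * Φ z ≤ (C * bd p q z) * (A * Real.exp (-(c * |z|))) :=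
          mul_le_mul (hC z) (hhi z) (hΦp z).le (mul_nonneg hC0 (bd_pos _ _ _).le)
      _ = C * A * (bd p q z * Real.exp (-(c * |z|))) := by ring
  have hint : Integrable (fun z => f z * Φ z) := by
    have e1 : Integrable (bd (p + c) (q + c)) := by
      rw [← integrableOn_univ, ← Set.Iic_union_Ioi (a := (0 : ℝ))]
      refine IntegrableOn.union ?_ ?_
      · refine (integrableOn_exp_mul_Iic (show 0 < q + c by linarith) 0).congr_fun ?_ measurableSet_Iic
        intro y hy
        exact (bd_of_nonpos hy).symm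
      · refine (exp_neg_integrableOn_Ioi 0 (show 0 < p + c by linarith)).congr_fun ?_
          measurableSet_Ioi
        intro y hy
        have hy' : 0 < y := hy
        show Real.exp (-(p + c) * y) = bd (p + c) (q + c) y
        rw [bd_of_nonneg hy'.le]
        congr 1
        ring
    refine (e1.const_mul (C * A)).mono' hgc.aestronglyMeasurable ?_
    exact Eventually.of_forall fun z => by rw [Real.norm_eq_abs]; exact hb z
  have htot : ∫ z, f z * Φ z = 0 := h0
  -- the primitive
  have hspl : ∀ y, (∫ z in Iic y, f z * Φ z) + ∫ z in Ioi y, f z * Φ z = 0 := by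
    intro y
    rw [intervalIntegral.integral_Iic_add_Ioi hint.integrableOn hint.integrableOn, htot]
  have hgd : ∀ y, HasDerivAt (fun w => ∫ z in Ioi w, f z * Φ z) (-(f y * Φ y)) y := by
    intro y
    have e1 : ∀ w, ∫ z in Ioi w, f z * Φ z = -((∫ z in Iic (0 : ℝ), f z * Φ z) + ∫ z in (0 : ℝ)..w, f z * Φ z) := by
      intro w
      have h1 := hspl w
      have h2 := intervalIntegral.integral_Iic_sub_Iic (a := (0 : ℝ)) (b := w) (μ := volume)
        (f := fun z => f z * Φ z) hint.integrableOn hint.integrableOn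
      linarith
    have e2 : (fun w => ∫ z in Ioi w, f z * Φ z) =
        fun w => -((∫ z in Iic (0 : ℝ), f z * Φ z) + ∫ z in (0 : ℝ)..w, f z * Φ z) := funext e1
    rw [e2]
    have h3 := intervalIntegral.integral_hasDerivAt_right (a := (0 : ℝ)) (b := y)
      (f := fun z => f z * Φ z) (hint.intervalIntegrable)
      (hgc.stronglyMeasurableAtFilter _ _) hgc.continuousAt
    exact (h3.const_add _).neg
  have hh : ∀ y, HasDerivAt (fun w => (∫ z in Ioi w, f z * Φ z) / Φ w)
      (c * th k y * ((∫ z in Ioi y, f z * Φ z) / Φ y) - f y) y := by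
    intro y
    have h1 := (hgd y).div (hΦ y) (hΦp y).ne'
    refine h1.congr_deriv ?_
    have h2 := (hΦp y).ne'
    field_simp
    ring
  have hbd : ∀ y, |(∫ z in Ioi y, f z * Φ z) / Φ y| ≤
      (C * A / (p + c) / a + C * A / (q + c) / a) * bd p q y := by
    intro y
    have hpc : 0 < p + c := by linarith
    have hqc : 0 < q + c := by linarith
    have hCA : 0 ≤ C * A := mul_nonneg hC0 hA.le
    rw [abs_div, abs_of_pos (hΦp y), div_le_iff₀ (hΦp y)]
    have hlo' := hlo y
    have hbp := bd_pos p q y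
    rcases le_total 0 y with hy | hy
    · have h1 : |∫ z in Ioi y, f z * Φ z| ≤ ∫ z in Ioi y, C * A * Real.exp (-(p + c) * z) := by
        refine (abs_integral_le_integral_abs).trans ?_
        refine setIntegral_mono_on hint.abs.integrableOn
          ((integrableOn_exp_mul_Ioi (neg_lt_zero.mpr hpc) y).const_mul _) measurableSet_Ioi ?_
        intro z hz
        have hz0 : 0 ≤ z := hy.trans (le_of_lt hz)
        have h2 := hb z
        rw [bd_of_nonneg hz0] at h2
        rw [neg_mul]
        exact h2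
      rw [integral_const_mul, integral_exp_mul_Ioi (neg_lt_zero.mpr hpc)] at h1
      refine h1.trans ?_
      have h3 : C * A * (-Real.exp (-(p + c) * y) / -(p + c)) =
          C * A / (p + c) / a * bd p q y * (a * Real.exp (-(c * |y|))) := by
        rw [bd_of_nonneg hy, abs_of_nonneg hy]
        have h4 : Real.exp (-(p + c) * y) = Real.exp (-(p * y)) * Real.exp (-(c * y)) := by
          rw [← Real.exp_add]
          congr 1
          ring
        rw [h4]
        field_simp
      rw [h3]
      have h5 : 0 ≤ C * A / (p + c) / a * bd p q y := by positivity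
      have h6 : 0 ≤ C * A / (q + c) / a * bd p q y * Φ y := by
        have := hΦp y
        positivity
      calc C * A / (p + c) / a * bd p q y * (a * Real.exp (-(c * |y|)))
          ≤ C * A / (p + c) / a * bd p q y * Φ y := mul_le_mul_of_nonneg_left hlo' h5
        _ ≤ C * A / (p + c) / a * bd p q y * Φ y + C * A / (q + c) / a * bd p q y * Φ y := by
            linarith
        _ = (C * A / (p + c) / a + C * A / (q + c) / a) * bd p q y * Φ y := by ring
    · have e0 : ∫ z in Ioi y, f z * Φ z = -∫ z in Iic y, f z * Φ z := by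
        have := hspl y
        linarith
      rw [e0, abs_neg]
      have h1 : |∫ z in Iic y, f z * Φ z| ≤ ∫ z in Iic y, C * A * Real.exp ((q + c) * z) := by
        refine (abs_integral_le_integral_abs).trans ?_
        refine setIntegral_mono_on hint.abs.integrableOn
          ((integrableOn_exp_mul_Iic hqc y).const_mul _) measurableSet_Iic ?_
        intro z hz
        have hz0 : z ≤ 0 := le_trans hz hy
        have h2 := hb z
        rw [bd_of_nonpos hz0] at h2
        exact h2
      rw [integral_const_mul, integral_exp_mul_Iic hqc] at h1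
      refine h1.trans ?_
      have h3 : C * A * (Real.exp ((q + c) * y) / (q + c)) =
          C * A / (q + c) / a * bd p q y * (a * Real.exp (-(c * |y|))) := by
        rw [bd_of_nonpos hy, abs_of_nonpos hy]
        have h4 : Real.exp ((q + c) * y) = Real.exp (q * y) * Real.exp (-(c * -y)) := by
          rw [← Real.exp_add]
          congr 1
          ring
        rw [h4]
        field_simp
      rw [h3]
      have h5 : 0 ≤ C * A / (q + c) / a * bd p q y := by positivity
      have h6 : 0 ≤ C * A / (p + c) / a * bd p q y * Φ y := by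
        have := hΦp y
        positivity
      calc C * A / (q + c) / a * bd p q y * (a * Real.exp (-(c * |y|)))
          ≤ C * A / (q + c) / a * bd p q y * Φ y := mul_le_mul_of_nonneg_left hlo' h5
        _ ≤ C * A / (p + c) / a * bd p q y * Φ y + C * A / (q + c) / a * bd p q y * Φ y := by
            linarith
        _ = (C * A / (p + c) / a + C * A / (q + c) / a) * bd p q y * Φ y := by ring
  refine ⟨fun w => (∫ z in Ioi w, f z * Φ z) / Φ w, ?_, fun y => ?_⟩
  · exact Coa_cl hh hf (by positivity) hbd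
  · rw [(hh y).deriv]
    ring

end H98KB
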