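import Pool.Agent.H98.KB.Coa
import Pool.Agent.H98.KB.Sol2

/-!
# Cob : `(L f, f) ≥ |f|²` on `{φ₀, Q'}^⊥` (uses the statements of `Coa`, `Sol`, `Sol2`)

`t=th k y`, `κ=k/2`, `c=1+κ` (so `c(c+κ) = (k+1)(k+2)/2 = C0`), `Q^k=C0(1-t²)`.
For `f ∈ Cl p q`, `0<p,q`, and a real number `a`:
(i) `∫ (f'+a t f)² = ∫ f'² + a² f² - a(a+κ)(1-t²) f²`      (`2 a t f f' = (a t f²)' - aκ(1-t²) f²`)
(ii) `∫ (-f'+a t f)² = ∫ f'² + a² f² - a(a-κ)(1-t²) f²`.
Hence `ip (L f) f = ∫ f'²+f²-Q^k f² = ∫ (f'+c t f)² - (c²-1) ∫ f²`.   (c(c+κ)=C0)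
Let `f ⊥ φ₀`, `f ⊥ Q'`.  `first_inv` with `Φ=φ₀` (`φ₀'=-c t φ₀`): `f = -h'+c t h`, `h ∈ Cl p q`.
Let `N h := -h''+c² h - c(c-κ)(1-t²)h = -h''+c²h-c(1-t²)h` (`c-κ=1`); then `N h = (∂+c t)(-h'+c t h) = f'+c t f`
and `ip (N h) h = ∫ f²` by (ii) (with `a=c`) [direct: `ip (N h) h = ∫ h'^2+c²h²-c(1-t²)h²`].
`(h,Q)=0`: `Q'=-tQ`, and `-Q'+c t Q = (1+c) t Q = -(1+c) Q'`, so
`0 = (f,Q') = -(1/(1+c)) ∫ (-h'+c t h)(-Q'+c t Q) = -(1/(1+c)) ip h (N Q)` and `N Q = (c²-1) Q`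
(because `-Q''+Q-c(1-t²)Q=0`, see `Qf_deriv2`), `c²-1>0`.
`first_inv` with `Φ=Q`, `c:=1`: `h = -r' + t r`, `r ∈ Cl p q`.
Let `N₁ r = -r''+r-(1-κ)(1-t²) r = -r''+r+(κ-1)(1-t²)r`; `N₁ r = h'+t h`, `ip (N₁ r) r = ∫ h²`, and since `κ ≥ 1`
`ip (N₁ r) r ≥ ∫ r²`.  So `|N₁r||r| ≥ (N₁r,r) ≥ |r|²`, `|N₁ r| ≥ |r|`, `|N₁r|² ≥ |N₁r||r| ≥ (N₁ r,r) = |h|²`:
`∫ (h'+t h)² ≥ ∫ h²`.  With (i), `a=1`: `ip (N h) h = ∫ (h'+t h)² + (c²-1)∫h² ≥ c² ∫ h²`
(`c(c-κ)=c=1+κ=1(1+κ)`).  Same trick: `|N h|² ≥ c² (N h,h)`, i.e. `∫ (f'+c t f)² ≥ c² ∫ f²`.  Done.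
-/

open MeasureTheory Filter Topology Set
open scoped ContDiff

namespace H98KB

variable {k : ℕ}

private theorem Cob_I {F G : ℝ → ℝ} (hG : Integrable G) (h : ∀ y, F y = G y) : Integrable F := by
  rwa [show F = G from funext h]

private theorem Cob_int2 {p q : ℝ} {u v : ℝ → ℝ} (hp : 0 < p) (hq : 0 < q) (hu : Cl p q u)
    (hv : Cl p q v) : Integrable (fun y => u y * v y) :=
  Cl_int (Cl_mul hu hv) (by linarith) (by linarith)

private theorem Cob_sqI {p q : ℝ} {u : ℝ → ℝ} (hp : 0 < p) (hq : 0 < q) (hu : Cl p q u) :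
    Integrable (fun y => (u y) ^ 2) :=
  Cob_I (Cob_int2 hp hq hu hu) (fun y => sq _)

/-- `ip (L f) f = ∫ f'² + f² - Q^k f²` -/
theorem ip_L (hk : 1 ≤ k) {p q : ℝ} {f : ℝ → ℝ} (hp : 0 < p) (hq : 0 < q) (hf : Cl p q f) :
    ip (Lop k f) f = ∫ y, ((deriv f y) ^ 2 + (f y) ^ 2 - Qf k y ^ k * (f y) ^ 2) := by
  have hf' := Cl_der hf
  have hk0 : (0 : ℝ) ≤ k := Nat.cast_nonneg k
  have hQ : Cl 0 0 (fun y => Qf k y ^ k) := Cl_mono (Cl_Qk hk) hk0 hk0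
  have hQf : Cl p q (fun y => Qf k y ^ k * f y) := Cl_mul0 hQ hf
  refine Cl_int_eq (H := fun y => -(deriv f y * f y)) (Cob_int2 hp hq (Cl_Lop hk hf) hf)
    (Cob_I (((Cob_int2 hp hq hf' hf').add (Cob_int2 hp hq hf hf)).sub (Cob_int2 hp hq hQf hf))
      (fun y => by simp only [Pi.add_apply, Pi.sub_apply]; ring))
    (Cl_neg (Cl_mul hf' hf)) (by linarith) (by linarith) (fun y => ?_)
  have h1 : HasDerivAt (fun y => -(deriv f y * f y))
      (-(deriv (deriv f) y * f y + deriv f y * deriv f y)) y :=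
    ((Cl_hd hf' y).mul (Cl_hd hf y)).neg
  rw [h1.deriv]
  unfold Lop
  ring

private theorem Cob_sq {p q : ℝ} {f : ℝ → ℝ} (hp : 0 < p) (hq : 0 < q) (hf : Cl p q f) (a : ℝ) :
    ∫ y, (deriv f y + a * th k y * f y) ^ 2 =
      ∫ y, ((deriv f y) ^ 2 + a ^ 2 * (f y) ^ 2 -
        a * (a + (k : ℝ) / 2) * (1 - th k y ^ 2) * (f y) ^ 2) := by
  have hf' := Cl_der hf
  have hT := Cl_th k
  have hTf : Cl p q (fun y => th k y * f y) := Cl_mul0 hT hf
  have hu : Cl p q (fun y => deriv f y + a * (th k y * f y)) := Cl_add hf' (Cl_smul a hTf)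
  refine Cl_int_eq (H := fun y => a * (th k y * (f y * f y)))
    (Cob_I (Cob_int2 hp hq hu hu) (fun y => by ring))
    (Cob_I (((Cob_int2 hp hq hf' hf').add ((Cob_int2 hp hq hf hf).const_mul (a ^ 2))).sub
      (((Cob_int2 hp hq hf hf).sub (Cob_int2 hp hq hTf hTf)).const_mul (a * (a + (k : ℝ) / 2))))
      (fun y => by simp only [Pi.add_apply, Pi.sub_apply]; ring))
    (Cl_smul a (Cl_mul0 hT (Cl_mul hf hf))) (by linarith) (by linarith) (fun y => ?_)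
  have h1 : HasDerivAt (fun y => a * (th k y * (f y * f y)))
      (a * ((k : ℝ) / 2 * (1 - th k y ^ 2) * (f y * f y) +
        th k y * (deriv f y * f y + f y * deriv f y))) y :=
    ((th_hd k y).mul ((Cl_hd hf y).mul (Cl_hd hf y))).const_mul a
  rw [h1.deriv]
  ring

private theorem Cob_A {p q : ℝ} {r g : ℝ → ℝ} (hp : 0 < p) (hq : 0 < q) (hr : Cl p q r)
    (hg : Cl p q g) (a : ℝ) (h : ∀ y, g y = -deriv r y + a * th k y * r y) :
    ∫ y, (deriv g y + a * th k y * g y) * r y = ∫ y, (g y) ^ 2 := by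
  have hg' := Cl_der hg
  have hT := Cl_th k
  have hM : Cl p q (fun y => deriv g y + a * (th k y * g y)) :=
    Cl_add hg' (Cl_smul a (Cl_mul0 hT hg))
  refine Cl_int_eq (H := fun y => g y * r y)
    (Cob_I (Cob_int2 hp hq hM hr) (fun y => by ring)) (Cob_sqI hp hq hg)
    (Cl_mul hg hr) (by linarith) (by linarith) (fun y => ?_)
  have h1 : HasDerivAt (fun y => g y * r y) (deriv g y * r y + g y * deriv r y) y :=
    (Cl_hd hg y).mul (Cl_hd hr y)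
  rw [h1.deriv]
  have h2 := h y
  have h3 : deriv r y = a * th k y * r y - g y := by linarith
  rw [h3]
  ring

private theorem Cob_B {p q : ℝ} {r g : ℝ → ℝ} (hp : 0 < p) (hq : 0 < q) (hr : Cl p q r)
    (hg : Cl p q g) (a μ : ℝ) (hμ : 0 < μ) (h : ∀ y, g y = -deriv r y + a * th k y * r y)
    (hle : μ * ∫ y, (r y) ^ 2 ≤ ∫ y, (g y) ^ 2) :
    μ * ∫ y, (g y) ^ 2 ≤ ∫ y, (deriv g y + a * th k y * g y) ^ 2 := by
  have hA := Cob_A hp hq hr hg a h
  have hT := Cl_th k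
  have hM : Cl p q (fun y => deriv g y + a * th k y * g y) := by
    have := Cl_add (Cl_der hg) (Cl_smul a (Cl_mul0 hT hg))
    rwa [show (fun y => deriv g y + a * (th k y * g y)) = fun y => deriv g y + a * th k y * g y from
      funext fun y => by ring] at this
  have hcs := (cs_int (Cl_cont hM) (Cl_cont hr) (Cob_sqI hp hq hM) (Cob_sqI hp hq hr)).2
  rw [hA] at hcs
  have hX : 0 ≤ ∫ y, (g y) ^ 2 := integral_nonneg fun y => sq_nonneg _
  have hAA : 0 ≤ ∫ y, (deriv g y + a * th k y * g y) ^ 2 := integral_nonneg fun y => sq_nonneg _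
  have hBB : 0 ≤ ∫ y, (r y) ^ 2 := integral_nonneg fun y => sq_nonneg _
  set X := ∫ y, (g y) ^ 2 with hXd
  set A := ∫ y, (deriv g y + a * th k y * g y) ^ 2 with hAd
  set B := ∫ y, (r y) ^ 2 with hBd
  rw [abs_of_nonneg hX] at hcs
  have h1 : X ^ 2 ≤ A * B := by
    calc X ^ 2 ≤ (√A * √B) ^ 2 := by gcongr
      _ = A * B := by rw [mul_pow, Real.sq_sqrt hAA, Real.sq_sqrt hBB]
  rcases hX.eq_or_lt with h0 | h0
  · rw [← h0, mul_zero]
    exact hAA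
  · have h2 : μ * X * X ≤ A * X := by
      calc μ * X * X = μ * X ^ 2 := by ring
        _ ≤ μ * (A * B) := by gcongr
        _ = A * (μ * B) := by ring
        _ ≤ A * X := by gcongr
    exact le_of_mul_le_mul_right h2 h0

private theorem Cob_cosh (x : ℝ) : Real.cosh x ≤ Real.exp |x| := by
  rw [Real.cosh_eq]
  have h1 : Real.exp x ≤ Real.exp |x| := Real.exp_le_exp.2 (le_abs_self x)
  have h2 : Real.exp (-x) ≤ Real.exp |x| := Real.exp_le_exp.2 (neg_le_abs x)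
  linarith

private theorem Cob_ph0_lo (hk : 1 ≤ k) : ∃ a : ℝ, 0 < a ∧ ∀ y,
    a * Real.exp (-((1 + (k : ℝ) / 2) * |y|)) ≤ ph0 k y := by
  obtain ⟨c, hc, h⟩ := Qf_lo hk
  refine ⟨c, hc, fun y => ?_⟩
  have h1 := h y
  have hk0 : (0 : ℝ) ≤ k := Nat.cast_nonneg k
  have h2 : Real.cosh ((k : ℝ) * y / 2) ≤ Real.exp ((k : ℝ) / 2 * |y|) := by
    refine (Cob_cosh _).trans (le_of_eq ?_)
    congr 1
    rw [abs_div, abs_mul, abs_of_nonneg hk0, abs_of_pos (by norm_num : (0 : ℝ) < 2)]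
    ring
  unfold ph0
  rw [le_div_iff₀ (Real.cosh_pos _)]
  calc c * Real.exp (-((1 + (k : ℝ) / 2) * |y|)) * Real.cosh ((k : ℝ) * y / 2)
      ≤ c * Real.exp (-((1 + (k : ℝ) / 2) * |y|)) * Real.exp ((k : ℝ) / 2 * |y|) := by
        gcongr
    _ = c * Real.exp (-|y|) := by
        rw [mul_assoc, ← Real.exp_add]
        congr 2
        ring
    _ ≤ Qf k y := h1

private theorem Cob_ph0_hi (hk : 1 ≤ k) : ∃ A : ℝ, 0 < A ∧ ∀ y,
    ph0 k y ≤ A * Real.exp (-((1 + (k : ℝ) / 2) * |y|)) := by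
  obtain ⟨C, hC, h⟩ := Cl_bnd (Cl_ph0 hk)
  refine ⟨C + 1, by linarith, fun y => ?_⟩
  have h1 := (le_abs_self _).trans (h y)
  rw [bd_abs] at h1
  have h2 := Real.exp_pos (-((1 + (k : ℝ) / 2) * |y|))
  linarith

private theorem Cob_hQ {p q : ℝ} {f h : ℝ → ℝ} (hk : 1 ≤ k) (hp : 0 < p) (hq : 0 < q)
    (hf : Cl p q f) (hh : Cl p q h)
    (e : ∀ y, f y = -deriv h y + (1 + (k : ℝ) / 2) * th k y * h y)
    (h1 : ip f (deriv (Qf k)) = 0) : ip h (Qf k) = 0 := by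
  have hT := Cl_th k
  have hQ := Cl_Qf (k := k) hk
  have hTQ : Cl 1 1 (fun y => th k y * Qf k y) := Cl_mul0 hT hQ
  have hk0 : (0 : ℝ) < k := by exact_mod_cast hk
  have hF : Integrable (fun y => f y * (th k y * Qf k y)) :=
    Cl_int (Cl_mul hf hTQ) (by linarith) (by linarith)
  have hG : Integrable (fun y => (k : ℝ) / 2 * (h y * Qf k y)) :=
    (Cl_int (Cl_mul hh hQ) (by linarith) (by linarith)).const_mul _
  have h2 : ∫ y, f y * (th k y * Qf k y) = ∫ y, (k : ℝ) / 2 * (h y * Qf k y) := by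
    refine Cl_int_eq (H := fun y => -(h y * (th k y * Qf k y))) hF hG (Cl_neg (Cl_mul hh hTQ))
      (by linarith) (by linarith) (fun y => ?_)
    have h3 : HasDerivAt (fun y => -(h y * (th k y * Qf k y)))
        (-(deriv h y * (th k y * Qf k y) + h y * ((k : ℝ) / 2 * (1 - th k y ^ 2) * Qf k y +
          th k y * (-(th k y) * Qf k y)))) y :=
      ((Cl_hd hh y).mul ((th_hd k y).mul (Qf_hd hk y))).neg
    rw [h3.deriv, e y]
    ring
  have h4 : ∫ y, f y * (th k y * Qf k y) = 0 := by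
    have h5 : ip f (deriv (Qf k)) = -∫ y, f y * (th k y * Qf k y) := by
      unfold ip
      rw [Qf_deriv hk, ← integral_neg]
      congr 1
      funext y
      ring
    rw [h1] at h5
    linarith
  rw [h4, integral_const_mul] at h2
  have h6 := (mul_eq_zero.1 h2.symm).resolve_left (by positivity)
  exact h6

theorem L_ge_one (hk : 2 ≤ k) {p q : ℝ} {f : ℝ → ℝ} (hp : 0 < p) (hq : 0 < q) (hf : Cl p q f)
    (h0 : ip f (ph0 k) = 0) (h1 : ip f (deriv (Qf k)) = 0) :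
    ∫ y, (f y) ^ 2 ≤ ip (Lop k f) f := by
  have hk1 : 1 ≤ k := by omega
  have hkr : (2 : ℝ) ≤ k := by exact_mod_cast hk
  have hT := Cl_th k
  -- first ladder step
  obtain ⟨h, hh, eh⟩ := first_inv (k := k) (c := 1 + (k : ℝ) / 2) (Φ := ph0 k) (f := f)
    (by positivity) hp hq (fun y => by
      have := ph0_hd (k := k) hk1 y
      rwa [show -(1 + (k : ℝ) / 2) * th k y * ph0 k y = -((1 + (k : ℝ) / 2) * th k y) * ph0 k y by
        ring] at this) (Cob_ph0_lo hk1) (Cob_ph0_hi hk1) hf h0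
  have hhQ := Cob_hQ hk1 hp hq hf hh eh h1
  -- second ladder step
  obtain ⟨r, hr, er⟩ := first_inv (k := k) (c := 1) (Φ := Qf k) (f := h)
    one_pos hp hq (fun y => by
      have := Qf_hd (k := k) hk1 y
      rwa [show -(th k y) * Qf k y = -(1 * th k y) * Qf k y by ring] at this)
    (by simpa only [one_mul] using Qf_lo (k := k) hk1)
    (by simpa only [one_mul] using Qf_hi (k := k) hk1) hh hhQ
  -- step 1
  have hr' := Cl_der hr
  have s1 : (1 : ℝ) * ∫ y, (r y) ^ 2 ≤ ∫ y, (h y) ^ 2 := by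
    have h2 := Cob_sq (k := k) hp hq hr (-1)
    have h3 : ∫ y, (h y) ^ 2 = ∫ y, (deriv r y + -1 * th k y * r y) ^ 2 := by
      congr 1
      funext y
      rw [er y]
      ring
    rw [h3, h2, one_mul]
    have hTr : Cl p q (fun y => th k y * r y) := Cl_mul0 hT hr
    refine integral_mono (Cob_sqI hp hq hr) (Cob_I (((Cob_int2 hp hq hr' hr').add
      ((Cob_int2 hp hq hr hr).const_mul ((-1) ^ 2))).sub
      (((Cob_int2 hp hq hr hr).sub (Cob_int2 hp hq hTr hTr)).const_mul (-1 * (-1 + (k : ℝ) / 2))))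
      (fun y => by simp only [Pi.add_apply, Pi.sub_apply]; ring)) (fun y => ?_)
    have h4 : th k y ^ 2 ≤ 1 := by
      have := (th_abs_lt k y).le
      rw [← sq_abs]
      exact pow_le_one₀ (abs_nonneg _) this
    have h5 : 0 ≤ (-1 + (k : ℝ) / 2) * ((1 - th k y ^ 2) * (r y) ^ 2) := by
      have : (0 : ℝ) ≤ -1 + (k : ℝ) / 2 := by linarith
      have : (0 : ℝ) ≤ 1 - th k y ^ 2 := by linarith
      positivity
    have h6 := sq_nonneg (deriv r y)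
    show (r y) ^ 2 ≤ (deriv r y) ^ 2 + (-1) ^ 2 * (r y) ^ 2 -
      -1 * (-1 + (k : ℝ) / 2) * (1 - th k y ^ 2) * (r y) ^ 2
    nlinarith
  have s2 := Cob_B hp hq hr hh 1 1 one_pos er s1
  rw [one_mul] at s2
  -- step 2
  have hh' := Cl_der hh
  have hTh : Cl p q (fun y => th k y * h y) := Cl_mul0 hT hh
  have s3 : ∫ y, (f y) ^ 2 = (∫ y, (deriv h y + 1 * th k y * h y) ^ 2) +
      ((1 + (k : ℝ) / 2) ^ 2 - 1) * ∫ y, (h y) ^ 2 := by
    have h2 := Cob_sq (k := k) hp hq hh (-(1 + (k : ℝ) / 2))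
    have h3 : ∫ y, (f y) ^ 2 = ∫ y, (deriv h y + -(1 + (k : ℝ) / 2) * th k y * h y) ^ 2 := by
      congr 1
      funext y
      rw [eh y]
      ring
    rw [h3, h2, Cob_sq (k := k) hp hq hh 1, ← integral_const_mul, ← integral_add]
    · congr 1
      funext y
      ring
    · exact Cob_I (((Cob_int2 hp hq hh' hh').add ((Cob_int2 hp hq hh hh).const_mul (1 ^ 2))).sub
        (((Cob_int2 hp hq hh hh).sub (Cob_int2 hp hq hTh hTh)).const_mul (1 * (1 + (k : ℝ) / 2))))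
        (fun y => by simp only [Pi.add_apply, Pi.sub_apply]; ring)
    · exact (Cob_sqI hp hq hh).const_mul _
  have s4 : (1 + (k : ℝ) / 2) ^ 2 * ∫ y, (h y) ^ 2 ≤ ∫ y, (f y) ^ 2 := by
    rw [s3]
    linarith
  have s5 := Cob_B hp hq hh hf (1 + (k : ℝ) / 2) ((1 + (k : ℝ) / 2) ^ 2) (by positivity) eh s4
  -- step 3
  have hf' := Cl_der hf
  have hTf : Cl p q (fun y => th k y * f y) := Cl_mul0 hT hf
  have s6 : ip (Lop k f) f = (∫ y, (deriv f y + (1 + (k : ℝ) / 2) * th k y * f y) ^ 2) -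
      ((1 + (k : ℝ) / 2) ^ 2 - 1) * ∫ y, (f y) ^ 2 := by
    rw [ip_L hk1 hp hq hf, Cob_sq (k := k) hp hq hf, ← integral_const_mul, ← integral_sub]
    · congr 1
      funext y
      rw [Qf_pow hk1, C0]
      ring
    · exact Cob_I (((Cob_int2 hp hq hf' hf').add ((Cob_int2 hp hq hf hf).const_mul
        ((1 + (k : ℝ) / 2) ^ 2))).sub
        (((Cob_int2 hp hq hf hf).sub (Cob_int2 hp hq hTf hTf)).const_mul
          ((1 + (k : ℝ) / 2) * ((1 + (k : ℝ) / 2) + (k : ℝ) / 2))))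
        (fun y => by simp only [Pi.add_apply, Pi.sub_apply]; ring)
    · exact (Cob_sqI hp hq hf).const_mul _
  rw [s6]
  linarith

end H98KB
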