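import Pool.Agent.H98.KB.Nlb
import Pool.Agent.H98.KB.Wts
import Pool.Agent.H98.KB.IfG

/-!
# Cot (second half of Cos) : coercivity of the energy `Ef`

Let `r = √om` (smooth, positive), `F = r ε ∈ Cl (p-ρ) (q+..)` (positive rates), `|r'| ≤ r/B` (`r'/r = om'/(2om)`, `om1_le`).
`Ef = (1/2)∫om(ε'²+ε²-Q^kε²) - ∫om(bF-(1/2)Q^kε²)`, second integral `≤ Cν∫omε²` (`bF_cub`).
`r ε' = F' - (r'/r)F`: `omε'² ≥ (1-1/B)F'² - (C/B)F²` so `∫om(ε'²+ε²-Q^kε²) ≥ ∫(F'²+F²-Q^kF²) - (C/B)∫(F²+F'²)`.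
`L_coer` for `F`.  `ip F φ₀ = r(0) ip ε φ₀ + ∫ F (1-r(0)/r) φ₀`, `|1-r(0)/r(y)| ≤ (|y|/B) e^{|y|/B}` (because `|(log r)'| ≤ 1/B`), so
`|ip F φ₀ - r(0) ip ε φ₀| ≤ (C/B)|F|_{L²}`; same for `Q'`.  `r(0)² = om 0 = 1/2`.  Also `∫(F²+F'²) ≥ (1/2)∫om(ε²+ε'²)`.
Take `B ≥ B₁` large, `ν` small.  Upper bound: `|bF| ≤ Cε²` for `|ε| ≤ 1`.
(To see `F` in `Cl`: `√om = √Th · e^{ρy}`; alternatively avoid `√om ∈ Cl` by `r := 1/√(e^{-2ρy}+e^{-(2ρ+1/B)y})`; since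
`Th = 1/(1+e^{-y/B})`, `√Th = (1+e^{-y/B})^{-1/2}`, derivative `(1/(2B))(1-Th)√Th`: bootstrap with `Cl_of_deriv`.)
-/

open MeasureTheory Filter Topology Set
open scoped ContDiff

namespace H98KB

theorem Cot_om {B ρ p q : ℝ} (h : Slow B ρ) {f : ℝ → ℝ} (hf : Cl (2 * p) (2 * q) f) (hp : ρ < p)
    (hq : 0 < q) : Integrable (fun y => om B ρ y * f y) := by
  have hB : 0 < B := by linarith [h.1]
  have hB' : 0 < 1 / B := by positivity
  have hρ := h.2.1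
  exact Cl_int (Cl_mul (Cl_om hB ρ) hf) (by linarith) (by linarith)

theorem Cot_sq {p q : ℝ} {f : ℝ → ℝ} (hf : Cl p q f) : Cl (2 * p) (2 * q) (fun y => f y ^ 2) := by
  simpa using Cl_pow hf 2

theorem Cot_cs {B ρ p q : ℝ} (h : Slow B ρ) {f g : ℝ → ℝ} (hf : Cl p q f) (hg : Cl p q g)
    (hp : ρ < p) (hq : 0 < q) :
    Integrable (fun y => om B ρ y * (|f y| * |g y|)) ∧
      ∫ y, om B ρ y * (|f y| * |g y|) ≤
        √(∫ y, om B ρ y * f y ^ 2) * √(∫ y, om B ρ y * g y ^ 2) := by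
  have hB : 0 < B := by linarith [h.1]
  have hc : Continuous (om B ρ) := Cl_cont (Cl_om hB ρ)
  have i1 : Integrable (fun y => om B ρ y * (|f y|) ^ 2) := by
    simpa only [sq_abs] using Cot_om h (Cot_sq hf) hp hq
  have e2 : ∀ y, (om B ρ y * |g y|) ^ 2 / om B ρ y = om B ρ y * g y ^ 2 := by
    intro y
    have := (om_pos B ρ y).ne'
    rw [← sq_abs (g y)]
    field_simp
  have i2 : Integrable (fun y => (om B ρ y * |g y|) ^ 2 / om B ρ y) := by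
    simp only [e2]
    exact Cot_om h (Cot_sq hg) hp hq
  obtain ⟨h1, h2⟩ := cs_wt (F := fun y => |f y|) (φ := fun y => om B ρ y * |g y|) (W := om B ρ)
    (Cl_cont hf).abs (hc.mul (Cl_cont hg).abs) hc (om_pos B ρ) i1 i2
  simp only [e2, sq_abs] at h2
  have e3 : (fun y => |f y| * (om B ρ y * |g y|)) = fun y => om B ρ y * (|f y| * |g y|) := by
    funext y
    ring
  rw [e3] at h1 h2
  refine ⟨h1, ?_⟩
  have h3 := le_abs_self (∫ y, om B ρ y * (|f y| * |g y|))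
  rw [mul_comm (√(∫ y, om B ρ y * f y ^ 2))]
  exact h3.trans h2

theorem Cot_Gn {B ρ p q : ℝ} (h : Slow B ρ) {f : ℝ → ℝ} (hf : Cl p q f) (hp : ρ < p) (hq : 0 < q) :
    √(∫ y, om B ρ y * f y ^ 2) ≤ √(Gn B ρ f) ∧ √(∫ y, om B ρ y * deriv f y ^ 2) ≤ √(Gn B ρ f) := by
  have i1 := Cot_om h (Cot_sq hf) hp hq
  have i2 := Cot_om h (Cot_sq (Cl_der hf)) hp hq
  have e : Gn B ρ f = (∫ y, om B ρ y * f y ^ 2) + ∫ y, om B ρ y * deriv f y ^ 2 := by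
    rw [← integral_add i1 i2]
    unfold Gn
    congr 1
    funext y
    ring
  have p1 : 0 ≤ ∫ y, om B ρ y * f y ^ 2 :=
    integral_nonneg fun y => mul_nonneg (om_pos B ρ y).le (sq_nonneg _)
  have p2 : 0 ≤ ∫ y, om B ρ y * deriv f y ^ 2 :=
    integral_nonneg fun y => mul_nonneg (om_pos B ρ y).le (sq_nonneg _)
  exact ⟨Real.sqrt_le_sqrt (by linarith), Real.sqrt_le_sqrt (by linarith)⟩

theorem Cot_sqd (a b : ℝ) : |a ^ 2 - b ^ 2| ≤ |a - b| * |a| + |a - b| * |b| := by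
  have e : a ^ 2 - b ^ 2 = (a - b) * (a + b) := by ring
  rw [e, abs_mul, ← mul_add]
  exact mul_le_mul_of_nonneg_left (abs_add_le _ _) (abs_nonneg _)

theorem CO_up (k : ℕ) (hk : 5 ≤ k) : ∃ C : ℝ, 0 < C ∧
    ∀ B ρ : ℝ, Slow B ρ → ∀ (p q : ℝ) (ε ε' : ℝ → ℝ), Adm ρ p q ε → Adm ρ p q ε' →
    (∀ y, |ε y| ≤ 1) → (∀ y, |ε' y| ≤ 1) →
    |Ef k B ρ ε - Ef k B ρ ε'| ≤
      C * √(Gn B ρ (fun y => ε y - ε' y)) * (√(Gn B ρ ε) + √(Gn B ρ ε')) := by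
  obtain ⟨C, hC, hl⟩ := bF_lip k (by omega)
  refine ⟨1 + 2 * C, by positivity, ?_⟩
  rintro B ρ hs p q ε ε' ⟨hp, hp2, hq, hq2, hε⟩ ⟨-, -, -, -, hε'⟩ h1 h1'
  have hρ := hs.2.1
  have hd : Cl p q (fun y => ε y - ε' y) := Cl_sub hε hε'
  have hdd : deriv (fun y => ε y - ε' y) = fun y => deriv ε y - deriv ε' y :=
    funext fun y => ((Cl_hd hε y).sub (Cl_hd hε' y)).deriv
  have hd' := Cl_der hd
  obtain ⟨ia, ca⟩ := Cot_cs hs hd hε hp hq
  obtain ⟨ib, cb⟩ := Cot_cs hs hd hε' hp hq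
  obtain ⟨ic, cc⟩ := Cot_cs hs hd' (Cl_der hε) hp hq
  obtain ⟨id, cd⟩ := Cot_cs hs hd' (Cl_der hε') hp hq
  obtain ⟨g1, g2⟩ := Cot_Gn hs hd hp hq
  obtain ⟨g3, g4⟩ := Cot_Gn hs hε hp hq
  obtain ⟨g5, g6⟩ := Cot_Gn hs hε' hp hq
  have iE : ∀ e : ℝ → ℝ, Cl p q e →
      Integrable (fun y => om B ρ y * ((deriv e y) ^ 2 + (e y) ^ 2 - 2 * bF k e y)) := by
    intro e he
    refine Cot_om hs ?_ hp hq
    refine Cl_sub (Cl_add (Cot_sq (Cl_der he)) (Cot_sq he)) (Cl_smul 2 ?_)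
    exact Cl_bF (by omega) (by linarith) hq.le (by linarith) (by linarith) he
  have eq1 : Ef k B ρ ε - Ef k B ρ ε' = 1 / 2 * ∫ y,
      (om B ρ y * ((deriv ε y) ^ 2 + (ε y) ^ 2 - 2 * bF k ε y)
        - om B ρ y * ((deriv ε' y) ^ 2 + (ε' y) ^ 2 - 2 * bF k ε' y)) := by
    rw [integral_sub (iE ε hε) (iE ε' hε')]
    unfold Ef
    ring
  have hb : ∀ y, ‖om B ρ y * ((deriv ε y) ^ 2 + (ε y) ^ 2 - 2 * bF k ε y)
        - om B ρ y * ((deriv ε' y) ^ 2 + (ε' y) ^ 2 - 2 * bF k ε' y)‖ ≤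
      (1 + 2 * C) * ((om B ρ y * (|ε y - ε' y| * |ε y|) + om B ρ y * (|ε y - ε' y| * |ε' y|))
        + (om B ρ y * (|deriv (fun y => ε y - ε' y) y| * |deriv ε y|)
        + om B ρ y * (|deriv (fun y => ε y - ε' y) y| * |deriv ε' y|))) := by
    intro y
    rw [hdd]
    have hom := (om_pos B ρ y).le
    have e1 : om B ρ y * ((deriv ε y) ^ 2 + (ε y) ^ 2 - 2 * bF k ε y)
        - om B ρ y * ((deriv ε' y) ^ 2 + (ε' y) ^ 2 - 2 * bF k ε' y) =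
        om B ρ y * (((deriv ε y) ^ 2 - (deriv ε' y) ^ 2) + ((ε y) ^ 2 - (ε' y) ^ 2)
          + (-2) * (bF k ε y - bF k ε' y)) := by ring
    rw [Real.norm_eq_abs, e1, abs_mul, abs_of_nonneg hom]
    have t1 := Cot_sqd (deriv ε y) (deriv ε' y)
    have t2 := Cot_sqd (ε y) (ε' y)
    have t3 := hl ε ε' y (h1 y) (h1' y)
    have t4 : |((deriv ε y) ^ 2 - (deriv ε' y) ^ 2) + ((ε y) ^ 2 - (ε' y) ^ 2)
          + (-2) * (bF k ε y - bF k ε' y)| ≤ |(deriv ε y) ^ 2 - (deriv ε' y) ^ 2|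
          + |(ε y) ^ 2 - (ε' y) ^ 2| + 2 * |bF k ε y - bF k ε' y| := by
      refine (abs_add_le _ _).trans ?_
      have : |(-2) * (bF k ε y - bF k ε' y)| = 2 * |bF k ε y - bF k ε' y| := by
        rw [abs_mul]
        norm_num
      rw [this]
      have := abs_add_le ((deriv ε y) ^ 2 - (deriv ε' y) ^ 2) ((ε y) ^ 2 - (ε' y) ^ 2)
      linarith
    have n1 : 0 ≤ |deriv ε y - deriv ε' y| * |deriv ε y| := by positivity
    have n2 : 0 ≤ |deriv ε y - deriv ε' y| * |deriv ε' y| := by positivity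
    have n3 : 0 ≤ C * (|deriv ε y - deriv ε' y| * |deriv ε y|) := by positivity
    have n4 : 0 ≤ C * (|deriv ε y - deriv ε' y| * |deriv ε' y|) := by positivity
    have t5 : |(deriv ε y) ^ 2 - (deriv ε' y) ^ 2|
          + |(ε y) ^ 2 - (ε' y) ^ 2| + 2 * |bF k ε y - bF k ε' y| ≤
        (1 + 2 * C) * ((|ε y - ε' y| * |ε y| + |ε y - ε' y| * |ε' y|)
          + (|deriv ε y - deriv ε' y| * |deriv ε y| + |deriv ε y - deriv ε' y| * |deriv ε' y|)) := by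
      (first | linarith only [n3, n4, t1, t2, t3] | nlinarith only [n3, n4, t1, t2, t3])
    have t6 := mul_le_mul_of_nonneg_left (t4.trans t5) hom
    refine t6.trans (le_of_eq ?_)
    ring
  have hI : Integrable (fun y => (1 + 2 * C) * ((om B ρ y * (|ε y - ε' y| * |ε y|)
        + om B ρ y * (|ε y - ε' y| * |ε' y|))
        + (om B ρ y * (|deriv (fun y => ε y - ε' y) y| * |deriv ε y|)
        + om B ρ y * (|deriv (fun y => ε y - ε' y) y| * |deriv ε' y|)))) :=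
    ((ia.add ib).add (ic.add id)).const_mul _
  have hfin := norm_integral_le_of_norm_le hI (Eventually.of_forall hb)
  have iab : Integrable (fun y => om B ρ y * (|ε y - ε' y| * |ε y|)
      + om B ρ y * (|ε y - ε' y| * |ε' y|)) := ia.add ib
  have icd : Integrable (fun y => om B ρ y * (|deriv (fun y => ε y - ε' y) y| * |deriv ε y|)
        + om B ρ y * (|deriv (fun y => ε y - ε' y) y| * |deriv ε' y|)) := ic.add id
  rw [integral_const_mul, integral_add iab icd, integral_add ia ib, integral_add ic id] at hfin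
  rw [Real.norm_eq_abs] at hfin
  rw [eq1, abs_mul, abs_of_pos (by norm_num : (0:ℝ) < 1 / 2)]
  have s0 := Real.sqrt_nonneg (Gn B ρ (fun y => ε y - ε' y))
  have s1 := Real.sqrt_nonneg (Gn B ρ ε)
  have s2 := Real.sqrt_nonneg (Gn B ρ ε')
  have ca' := ca.trans (mul_le_mul g1 g3 (Real.sqrt_nonneg _) s0)
  have cb' := cb.trans (mul_le_mul g1 g5 (Real.sqrt_nonneg _) s0)
  have cc' := cc.trans (mul_le_mul g2 g4 (Real.sqrt_nonneg _) s0)
  have cd' := cd.trans (mul_le_mul g2 g6 (Real.sqrt_nonneg _) s0)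
  have hsum : (∫ y, om B ρ y * (|ε y - ε' y| * |ε y|)) + (∫ y, om B ρ y * (|ε y - ε' y| * |ε' y|))
        + ((∫ y, om B ρ y * (|deriv (fun y => ε y - ε' y) y| * |deriv ε y|))
        + ∫ y, om B ρ y * (|deriv (fun y => ε y - ε' y) y| * |deriv ε' y|)) ≤
      2 * (√(Gn B ρ (fun y => ε y - ε' y)) * (√(Gn B ρ ε) + √(Gn B ρ ε'))) := by
    linarith
  have hm := mul_le_mul_of_nonneg_left hsum (by positivity : (0:ℝ) ≤ 1 + 2 * C)
  (first | linarith only [hfin, hm] | nlinarith only [hfin, hm])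

end H98KB
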