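import Pool.Agent.H98.KB.Vie
import Pool.Agent.H98.KB.IfG

/-!
# Cov : bounds for the virial functional `Vf`

`|Ψ| ≤ (1+η)ch ≤ 2 ch`, `∫ch v² ≤ C_δ∫ch ε² ≤ 8C_δ∫omε²` (`vf_wt0` with `W=ch B`, `ch_le_om`), constant independent of `B`.
Lipschitz: `Vf ε - Vf ε' = (1/2)∫Ψ(v-v')(v+v')`, `v-v' = vf(ε-ε')`.
`Vf_even`: for `ε` even, `L ε` is even, `Sm δ` preserves parity (`Sm_refl`), `Ψ` is odd, so `Vf = 0`.
-/

open MeasureTheory Filter Topology Set
open scoped ContDiff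

namespace H98KB

theorem Cov_ch_pos (B y : ℝ) : 0 < ch B y := by
  rw [ch_eq']
  exact se2_pos _ _

theorem Cov_ch2 {δ B : ℝ} (hδ : 0 < δ) (hδ' : δ ≤ 1 / 16) (hB : 16 ≤ B) (y : ℝ) :
    δ * |deriv (deriv (ch B)) y| ≤ ch B y / 4 := by
  have h1 := ch2_le (by linarith : (1 : ℝ) ≤ B) y
  have hc := (Cov_ch_pos B y).le
  have h2 : 8 / B ^ 2 ≤ 1 := by
    rw [div_le_one (by positivity)]
    nlinarith
  have h3 : |deriv (deriv (ch B)) y| ≤ ch B y :=
    h1.trans (mul_le_of_le_one_left hc h2)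
  calc δ * |deriv (deriv (ch B)) y| ≤ 1 / 16 * ch B y :=
        mul_le_mul hδ' h3 (abs_nonneg _) (by norm_num)
    _ ≤ ch B y / 4 := by linarith

theorem Cov_Gn_int {B ρ p q : ℝ} {f : ℝ → ℝ} (h : Slow B ρ) (hp : ρ < p) (hq : 0 < q)
    (hf : Cl p q f) : Integrable (fun y => om B ρ y * (f y) ^ 2) ∧
      Integrable (fun y => om B ρ y * (deriv f y) ^ 2) := by
  obtain ⟨hB, -, hρ, -⟩ := Wts_slow h
  have h1 : 0 < 2 * p + -(2 * ρ) := by linarith
  have h2 : 0 < 2 * q + (2 * ρ + 1 / B) := by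
    have : 0 < 1 / B := by positivity
    linarith
  exact ⟨Smb_int hf (Cl_om hB ρ) h1 h2, Smb_int (Cl_der hf) (Cl_om hB ρ) h1 h2⟩

theorem Cov_Gn_eq {B ρ p q : ℝ} {f : ℝ → ℝ} (h : Slow B ρ) (hp : ρ < p) (hq : 0 < q)
    (hf : Cl p q f) : Gn B ρ f = (∫ y, om B ρ y * (f y) ^ 2) + ∫ y, om B ρ y * (deriv f y) ^ 2 := by
  obtain ⟨h1, h2⟩ := Cov_Gn_int h hp hq hf
  unfold Gn
  rw [← integral_add h1 h2]
  refine integral_congr_ae (Eventually.of_forall fun y => ?_)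
  simp only
  ring

theorem Cov_Gn_nonneg (B ρ : ℝ) (f : ℝ → ℝ) : 0 ≤ Gn B ρ f := by
  unfold Gn
  refine integral_nonneg fun y => ?_
  have := (om_pos B ρ y).le
  positivity

theorem Cov_Gn_add {B ρ p q : ℝ} {f g : ℝ → ℝ} (h : Slow B ρ) (hp : ρ < p) (hq : 0 < q)
    (hf : Cl p q f) (hg : Cl p q g) :
    Gn B ρ (fun y => f y + g y) ≤ 2 * Gn B ρ f + 2 * Gn B ρ g := by
  obtain ⟨f1, f2⟩ := Cov_Gn_int h hp hq hf
  obtain ⟨g1, g2⟩ := Cov_Gn_int h hp hq hg
  obtain ⟨s1, s2⟩ := Cov_Gn_int h hp hq (Cl_add hf hg)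
  rw [Cov_Gn_eq h hp hq hf, Cov_Gn_eq h hp hq hg, Cov_Gn_eq h hp hq (Cl_add hf hg)]
  have a1 : ∫ y, om B ρ y * (f y + g y) ^ 2 ≤
      2 * (∫ y, om B ρ y * (f y) ^ 2) + 2 * ∫ y, om B ρ y * (g y) ^ 2 := by
    rw [← integral_const_mul, ← integral_const_mul, ← integral_add (f1.const_mul 2)
      (g1.const_mul 2)]
    refine integral_mono s1 ((f1.const_mul 2).add (g1.const_mul 2)) fun y => ?_
    have := (om_pos B ρ y).le
    simp only [Pi.add_apply]
    nlinarith [mul_nonneg this (sq_nonneg (f y - g y))]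
  have a2 : ∫ y, om B ρ y * (deriv (fun y => f y + g y) y) ^ 2 ≤
      2 * (∫ y, om B ρ y * (deriv f y) ^ 2) + 2 * ∫ y, om B ρ y * (deriv g y) ^ 2 := by
    rw [← integral_const_mul, ← integral_const_mul, ← integral_add (f2.const_mul 2)
      (g2.const_mul 2)]
    refine integral_mono s2 ((f2.const_mul 2).add (g2.const_mul 2)) fun y => ?_
    have := (om_pos B ρ y).le
    have e : deriv (fun y => f y + g y) y = deriv f y + deriv g y :=
      ((Cl_hd hf y).add (Cl_hd hg y)).deriv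
    simp only [Pi.add_apply]
    rw [e]
    nlinarith [mul_nonneg this (sq_nonneg (deriv f y - deriv g y))]
  linarith

theorem Cov_chom {B ρ p q : ℝ} {f : ℝ → ℝ} (h : Slow B ρ) (hp : ρ < p) (hq : 0 < q)
    (hf : Cl p q f) : ∫ y, ch B y * (f y) ^ 2 ≤ 8 * Gn B ρ f := by
  obtain ⟨hB, hB16, hρ, -⟩ := Wts_slow h
  obtain ⟨f1, f2⟩ := Cov_Gn_int h hp hq hf
  have hB2 : 0 < 2 / B := by positivity
  have hc : Integrable (fun y => ch B y * (f y) ^ 2) :=
    Smb_int hf (Cl_ch hB) (by linarith) (by linarith)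
  have h1 : ∫ y, ch B y * (f y) ^ 2 ≤ 8 * ∫ y, om B ρ y * (f y) ^ 2 := by
    rw [← integral_const_mul]
    refine integral_mono hc (f1.const_mul 8) fun y => ?_
    have := mul_le_mul_of_nonneg_right (ch_le_om h y) (sq_nonneg (f y))
    linarith
  have h2 : 0 ≤ ∫ y, om B ρ y * (deriv f y) ^ 2 := by
    refine integral_nonneg fun y => ?_
    have := (om_pos B ρ y).le
    positivity
  rw [Cov_Gn_eq h hp hq hf]
  linarith

theorem Cov_psi2 {k : ℕ} {η : ℝ} (hη : 0 < η) (hη' : η ≤ 1) (γ y : ℝ) : |psi k η γ y| ≤ 2 :=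
  (psi_abs hη.le γ y).trans (by linarith)

theorem Cov_sub {k : ℕ} (hk : 1 ≤ k) {δ p q : ℝ} {ε ε' : ℝ → ℝ} (hδ : 0 < δ) (hδ' : δ ≤ 1 / 16)
    (hp : |p| ≤ 2) (hq : |q| ≤ 2) (hε : Cl p q ε) (hε' : Cl p q ε') (y : ℝ) :
    vf k δ (fun y => ε y - ε' y) y = vf k δ ε y - vf k δ ε' y := by
  have h1 := vf_add hk hδ hδ' hp hq hε (Cl_smul (-1) hε') y
  have h2 := vf_smul (δ := δ) hk (-1) hε' y
  have e : (fun y => ε y - ε' y) = fun y => ε y + -1 * ε' y := by
    funext y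
    ring
  rw [e, h1, h2]
  ring

theorem Cov_sqrt {C a b X Y d : ℝ} (hC : 0 < C) (ha : 0 ≤ a) (hb : 0 ≤ b) (hd : 0 ≤ d)
    (hX : X ≤ 8 * C * d) (hY : Y ≤ 64 * C * (a + b)) :
    1 / 2 * (√X * √Y) ≤ 16 * C * √d * (√a + √b) := by
  have h1 : √X ≤ √(8 * C) * √d := by
    rw [← Real.sqrt_mul (by positivity)]
    exact Real.sqrt_le_sqrt hX
  have h2 : √Y ≤ √(8 * C) * (3 * (√a + √b)) := by
    have h3 : 64 * C * (a + b) ≤ (8 * C) * (3 * (√a + √b)) ^ 2 := by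
      have ha' := Real.sq_sqrt ha
      have hb' := Real.sq_sqrt hb
      have hab := mul_nonneg (Real.sqrt_nonneg a) (Real.sqrt_nonneg b)
      have h4 : a + b ≤ (√a + √b) ^ 2 := by
        nlinarith
      have h5 : 64 * C * (a + b) ≤ 64 * C * (√a + √b) ^ 2 :=
        mul_le_mul_of_nonneg_left h4 (by positivity)
      have h6 : 0 ≤ 8 * C * (√a + √b) ^ 2 := by positivity
      nlinarith
    calc √Y ≤ √((8 * C) * (3 * (√a + √b)) ^ 2) := Real.sqrt_le_sqrt (hY.trans h3)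
      _ = √(8 * C) * (3 * (√a + √b)) := by
        rw [Real.sqrt_mul (by positivity), Real.sqrt_sq (by positivity)]
  have h3 : √X * √Y ≤ (√(8 * C) * √d) * (√(8 * C) * (3 * (√a + √b))) :=
    mul_le_mul h1 h2 (Real.sqrt_nonneg _) (by positivity)
  have h4 : (√(8 * C) * √d) * (√(8 * C) * (3 * (√a + √b))) =
      24 * C * (√d * (√a + √b)) := by
    have := Real.mul_self_sqrt (by positivity : 0 ≤ 8 * C)
    calc (√(8 * C) * √d) * (√(8 * C) * (3 * (√a + √b))) =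
        (√(8 * C) * √(8 * C)) * (3 * (√d * (√a + √b))) := by ring
      _ = 24 * C * (√d * (√a + √b)) := by
        rw [this]
        ring
  have h5 : 0 ≤ C * (√d * (√a + √b)) := by positivity
  calc 1 / 2 * (√X * √Y) ≤ 1 / 2 * (24 * C * (√d * (√a + √b))) := by
        rw [← h4]
        linarith
    _ ≤ 16 * C * √d * (√a + √b) := by
        nlinarith

theorem CV (k : ℕ) (hk : 5 ≤ k) (γ η δ : ℝ) (hη : 0 < η) (hη' : η ≤ 1) (hδ : 0 < δ) (hδ' : δ ≤ 1 / 16) :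
    ∃ C : ℝ, 0 < C ∧ ∀ B ρ : ℝ, Slow B ρ → ∀ (p q : ℝ) (ε ε' : ℝ → ℝ), Adm ρ p q ε → Adm ρ p q ε' →
    |Vf k η γ B δ ε| ≤ C * Gn B ρ ε ∧
    |Vf k η γ B δ ε - Vf k η γ B δ ε'| ≤
      C * √(Gn B ρ (fun y => ε y - ε' y)) * (√(Gn B ρ ε) + √(Gn B ρ ε')) := by
  have hk1 : 1 ≤ k := by omega
  obtain ⟨Cd, hCd, hW⟩ := vf_wt0 k hk1 δ hδ hδ'
  refine ⟨16 * Cd, by positivity, ?_⟩
  intro B ρ hS p q ε ε' hε hε'
  obtain ⟨hB, hB16, hρ, -⟩ := Wts_slow hS
  obtain ⟨hp, hp', hq, hq', hcl⟩ := hε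
  obtain ⟨-, -, -, -, hcl'⟩ := hε'
  have hap : |p| ≤ 2 := by
    rw [abs_of_pos (by linarith)]
    linarith
  have haq : |q| ≤ 2 := by
    rw [abs_of_pos hq]
    linarith
  have hB2 : 0 < 2 / B := by positivity
  have c1 : 0 < 2 * p + 2 / B := by linarith
  have c2 : 0 < 2 * q + 2 / B := by linarith
  -- the basic bound
  have key : ∀ f : ℝ → ℝ, Cl p q f → ∫ y, ch B y * (vf k δ f y) ^ 2 ≤ 8 * Cd * Gn B ρ f := by
    intro f hf
    have h1 := hW p q (2 / B) (2 / B) f (ch B) hap haq hf (Cl_ch hB) (fun y => Cov_ch_pos B y)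
      (fun y => Cov_ch2 hδ hδ' hB16 y) c1 c2
    have h2 := mul_le_mul_of_nonneg_left (Cov_chom hS hp hq hf) hCd.le
    linarith
  have hint : ∀ f : ℝ → ℝ, Cl p q f → Integrable (fun y => ch B y * (vf k δ f y) ^ 2) :=
    fun f hf => Smb_int (Cl_vf hk1 hδ hδ' hap haq hf) (Cl_ch hB) c1 c2
  have hintP : ∀ f : ℝ → ℝ, Cl p q f → Integrable (fun y => Psi k η γ B y * (vf k δ f y) ^ 2) :=
    fun f hf => Smb_int (Cl_vf hk1 hδ hδ' hap haq hf) (Cl_Psi k η γ hB) c1 c2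
  have hpsi : ∀ y, |psi k η γ y| ≤ 2 := fun y => Cov_psi2 hη hη' γ y
  have hG := Cov_Gn_nonneg B ρ ε
  have hG' := Cov_Gn_nonneg B ρ ε'
  refine ⟨?_, ?_⟩
  · have h1 : |∫ y, Psi k η γ B y * (vf k δ ε y) ^ 2| ≤ 2 * ∫ y, ch B y * (vf k δ ε y) ^ 2 := by
      rw [← integral_const_mul]
      refine (abs_integral_le_integral_abs).trans ?_
      refine integral_mono (hintP ε hcl).abs ((hint ε hcl).const_mul 2) fun y => ?_
      have h2 := (Cov_ch_pos B y).le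
      have h3 := hpsi y
      show |Psi k η γ B y * (vf k δ ε y) ^ 2| ≤ 2 * (ch B y * (vf k δ ε y) ^ 2)
      rw [Psi, abs_mul, abs_mul, abs_of_nonneg h2, abs_of_nonneg (sq_nonneg (vf k δ ε y)), mul_assoc]
      exact mul_le_mul_of_nonneg_right h3 (by positivity)
    have h2 := key ε hcl
    unfold Vf
    rw [abs_mul, abs_of_pos (by norm_num : (0 : ℝ) < 1 / 2)]
    nlinarith [mul_nonneg hCd.le hG]
  · -- the Lipschitz bound
    have hv := Cl_vf hk1 hδ hδ' hap haq hcl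
    have hv' := Cl_vf hk1 hδ hδ' hap haq hcl'
    set F : ℝ → ℝ := fun y => √(ch B y) * (vf k δ ε y - vf k δ ε' y) with hF
    set G : ℝ → ℝ := fun y => √(ch B y) * psi k η γ y * (vf k δ ε y + vf k δ ε' y) with hGd
    have hsq : ∀ y, √(ch B y) ^ 2 = ch B y := fun y => Real.sq_sqrt (Cov_ch_pos B y).le
    have hF2 : ∀ y, F y ^ 2 = ch B y * (vf k δ (fun y => ε y - ε' y) y) ^ 2 := by
      intro y
      rw [hF, Cov_sub hk1 hδ hδ' hap haq hcl hcl']
      simp only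
      rw [mul_pow, hsq]
    have hG2 : ∀ y, G y ^ 2 = ch B y * (psi k η γ y * vf k δ (fun y => ε y + ε' y) y) ^ 2 := by
      intro y
      rw [hGd, vf_add hk1 hδ hδ' hap haq hcl hcl']
      simp only
      rw [mul_pow, mul_pow, mul_pow, hsq]
      ring
    have hsum := Cl_vf hk1 hδ hδ' hap haq (Cl_add hcl hcl')
    have hpv : Cl p q (fun y => psi k η γ y * vf k δ (fun y => ε y + ε' y) y) :=
      Cl_mul0 (Cl_psi k η γ) hsum
    have iF2 : Integrable (fun y => F y ^ 2) := by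
      simp only [hF2]
      exact hint _ (Cl_sub hcl hcl')
    have iG2 : Integrable (fun y => G y ^ 2) := by
      simp only [hG2]
      exact Smb_int hpv (Cl_ch hB) c1 c2
    have cch : Continuous (fun y => √(ch B y)) := Real.continuous_sqrt.comp (Cl_cont (Cl_ch hB))
    have cF : Continuous F := cch.mul ((Cl_cont hv).sub (Cl_cont hv'))
    have cG : Continuous G :=
      (cch.mul (Cl_cont (Cl_psi k η γ))).mul ((Cl_cont hv).add (Cl_cont hv'))
    have hCS := (cs_int cF cG iF2 iG2).2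
    have hX : ∫ y, F y ^ 2 ≤ 8 * Cd * Gn B ρ (fun y => ε y - ε' y) := by
      simp only [hF2]
      exact key _ (Cl_sub hcl hcl')
    have hY : ∫ y, G y ^ 2 ≤ 64 * Cd * (Gn B ρ ε + Gn B ρ ε') := by
      have h1 : ∫ y, G y ^ 2 ≤ 4 * ∫ y, ch B y * (vf k δ (fun y => ε y + ε' y) y) ^ 2 := by
        rw [← integral_const_mul]
        refine integral_mono iG2 ((hint _ (Cl_add hcl hcl')).const_mul 4) fun y => ?_
        show G y ^ 2 ≤ 4 * (ch B y * (vf k δ (fun y => ε y + ε' y) y) ^ 2)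
        rw [hG2, mul_pow]
        have h2 : psi k η γ y ^ 2 ≤ 4 := by
          have h3 := pow_le_pow_left₀ (abs_nonneg _) (hpsi y) 2
          rw [sq_abs] at h3
          linarith
        have h4 : 0 ≤ ch B y * (vf k δ (fun y => ε y + ε' y) y) ^ 2 :=
          mul_nonneg (Cov_ch_pos B y).le (sq_nonneg _)
        have h5 := mul_le_mul_of_nonneg_right h2 h4
        linarith
      have h2 := key _ (Cl_add hcl hcl')
      have h3 := Cov_Gn_add hS hp hq hcl hcl'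
      have h4 := mul_le_mul_of_nonneg_left h3 hCd.le
      linarith
    have hdiff : Vf k η γ B δ ε - Vf k η γ B δ ε' = 1 / 2 * ∫ y, F y * G y := by
      unfold Vf
      rw [← mul_sub, ← integral_sub (hintP ε hcl) (hintP ε' hcl')]
      congr 1
      refine integral_congr_ae (Eventually.of_forall fun y => ?_)
      have := hsq y
      rw [hF, hGd]
      simp only
      rw [Psi]
      calc psi k η γ y * ch B y * (vf k δ ε y) ^ 2 - psi k η γ y * ch B y * (vf k δ ε' y) ^ 2 =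
          ch B y * (psi k η γ y * (vf k δ ε y ^ 2 - vf k δ ε' y ^ 2)) := by ring
        _ = √(ch B y) ^ 2 * (psi k η γ y * (vf k δ ε y ^ 2 - vf k δ ε' y ^ 2)) := by rw [this]
        _ = _ := by ring
    rw [hdiff, abs_mul, abs_of_pos (by norm_num : (0 : ℝ) < 1 / 2)]
    refine (mul_le_mul_of_nonneg_left hCS (by norm_num)).trans ?_
    exact Cov_sqrt hCd hG hG' (Cov_Gn_nonneg B ρ _) hX hY

theorem Vf_even (k : ℕ) (γ η δ B : ℝ) (ε : ℝ → ℝ) (hε : ∀ y, ε (-y) = ε y) :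
    Vf k η γ B δ ε = 0 := by
  have hd : ∀ g : ℝ → ℝ, ∀ y, deriv (fun x => g (-x)) y = -deriv g (-y) := fun g y =>
    deriv_comp_neg g y
  have e0 : (fun y => ε (-y)) = ε := funext hε
  have h1 : ∀ y, deriv ε (-y) = -deriv ε y := by
    intro y
    have := hd ε y
    rw [e0] at this
    linarith
  have h2 : ∀ y, deriv (deriv ε) (-y) = deriv (deriv ε) y := by
    intro y
    have h3 := hd (deriv ε) y
    have e1 : (fun x => deriv ε (-x)) = fun x => -deriv ε x := funext h1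
    rw [e1, deriv.fun_neg] at h3
    linarith
  have hL : (fun y => Lop k ε (-y)) = Lop k ε := by
    funext y
    unfold Lop
    rw [h2, hε, Qf_neg]
  have hv : ∀ y, vf k δ ε (-y) = vf k δ ε y := by
    intro y
    unfold vf
    rw [← Sm_refl, hL]
  have hch : ∀ y, ch B (-y) = ch B y := by
    intro y
    rw [ch_eq', ch_eq', se2_neg]
  have hpsi : ∀ y, psi k η γ (-y) = -psi k η γ y := by
    intro y
    unfold psi
    rw [th_neg, mul_neg, Real.tanh_neg]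
    ring
  have h0 : ∫ y, Psi k η γ B y * (vf k δ ε y) ^ 2 = 0 := by
    refine Sol2_odd fun y => ?_
    unfold Psi
    rw [hpsi, hch, hv]
    ring
  unfold Vf
  rw [h0, mul_zero]

end H98KB
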