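import Pool.Agent.H98.KB.Nlb
import Pool.Agent.H98.KB.Wts
import Pool.Agent.H98.KB.Sol2
import Pool.Agent.H98.KB.IfG

/-!
# Dxa : the gradient norm, identity

`(ε',ζ') = -∫ε''ζ`, `ζ = g'+N-e'`, `g'=-ε'''+ε'-D'`, `D' = (Q+ε)^k(Q'+ε')-Q^kQ'`:
* `-∫ε''(-ε'''+ε') = 0`;
* `∫ε''D' = ∫ε''(Q+ε)^kε' + ∫ε''((Q+ε)^k-Q^k)Q' = -(k/2)∫(Q+ε)^{k-1}(Q'+ε')ε'² + ∫ε''((Q+ε)^k-Q^k)Q'`;
* `-∫ε''N = b∫ε''ΛQ - m∫ε''Q' - l∫ε''Q'' + b∫ε''Λε - 0 - l∫ε''²`, `∫ε''Λε = -(2/k)∫ε'²+∫yε'ε'' = -(2/k+1/2)∫ε'² = -(1-s_c)X`;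
* `+∫ε''e'`.
-/

open MeasureTheory Filter Topology Set
open scoped ContDiff

namespace H98KB

theorem Dxa_add {F f : ℝ → ℝ} {A : ℝ} (hF : Integrable F ∧ ∫ y, F y = A) (hf : Integrable f)
    (c : ℝ) : Integrable (fun y => F y + c * f y) ∧
      ∫ y, (F y + c * f y) = A + c * ∫ y, f y := by
  have h1 : Integrable (fun y => c * f y) := hf.const_mul c
  refine ⟨hF.1.add h1, ?_⟩
  rw [integral_add hF.1 h1, integral_const_mul, hF.2]

theorem Dxa_gf {k : ℕ} (hk : 1 ≤ k) {p q : ℝ} {ε : ℝ → ℝ} (hε : Cl p q ε) (y : ℝ) :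
    HasDerivAt (gf k ε) (-deriv (deriv (deriv ε)) y + deriv ε y -
      ((Qf k y + ε y) ^ k * (deriv (Qf k) y + deriv ε y) - Qf k y ^ k * deriv (Qf k) y)) y := by
  have h0 := Cl_hd hε y
  have h2 := Cl_hd (Cl_der (Cl_der hε)) y
  have hQ := Nlb_Qhd hk y
  have h3 := Nlb_fl_hd k (hQ.add h0)
  have h4 := Nlb_fl_hd k hQ
  exact (h2.neg.add h0).sub (h3.sub h4)

theorem Dxa_H {k : ℕ} (hk : 1 ≤ k) {p q : ℝ} {ε : ℝ → ℝ} (hε : Cl p q ε) (b m : ℝ) (y : ℝ) :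
    HasDerivAt (fun y => 1 / 2 * (deriv (deriv ε) y * deriv (deriv ε) y)
      + (-1 / 2 - m / 2) * (deriv ε y * deriv ε y)
      + 1 / 2 * ((Qf k y + ε y) ^ k * (deriv ε y * deriv ε y))
      + b * (2 / (k : ℝ)) * (ε y * deriv ε y)
      + b / 2 * (y * (deriv ε y * deriv ε y)))
      (deriv (deriv ε) y * deriv (deriv (deriv ε)) y
        + (-1 - m) * (deriv ε y * deriv (deriv ε) y)
        + ((k : ℝ) / 2 * ((Qf k y + ε y) ^ (k - 1) * (deriv (Qf k) y + deriv ε y) * (deriv ε y) ^ 2)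
          + (Qf k y + ε y) ^ k * (deriv ε y * deriv (deriv ε) y))
        + b * (2 / (k : ℝ)) * ((deriv ε y) ^ 2 + ε y * deriv (deriv ε) y)
        + b / 2 * ((deriv ε y) ^ 2 + 2 * (y * (deriv ε y * deriv (deriv ε) y)))) y := by
  have h0 := Cl_hd hε y
  have h1 := Cl_hd (Cl_der hε) y
  have h2 := Cl_hd (Cl_der (Cl_der hε)) y
  have hQ := Nlb_Qhd hk y
  have h3 := ((hQ.add h0).pow k).mul (h1.mul h1)
  have h4 := (h2.mul h2).const_mul (1 / 2 : ℝ)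
  have h5 := (h1.mul h1).const_mul (-1 / 2 - m / 2 : ℝ)
  have h6 := h3.const_mul (1 / 2 : ℝ)
  have h7 := (h0.mul h1).const_mul (b * (2 / (k : ℝ)))
  have h8 := ((hasDerivAt_id y).mul (h1.mul h1)).const_mul (b / 2)
  refine ((((h4.add h5).add h6).add h7).add h8).congr_deriv ?_
  simp only [Pi.add_apply, Pi.mul_apply, Pi.pow_apply, id]
  ring

theorem Dxa_Hcl {k : ℕ} (hk : 1 ≤ k) {p q : ℝ} {ε : ℝ → ℝ} (hp : 0 < p) (hq : 0 < q)
    (hε : Cl p q ε) (b m : ℝ) :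
    Cl p q (fun y => 1 / 2 * (deriv (deriv ε) y * deriv (deriv ε) y)
      + (-1 / 2 - m / 2) * (deriv ε y * deriv ε y)
      + 1 / 2 * ((Qf k y + ε y) ^ k * (deriv ε y * deriv ε y))
      + b * (2 / (k : ℝ)) * (ε y * deriv ε y)
      + b / 2 * (y * (deriv ε y * deriv ε y))) := by
  have h1 := Cl_der hε
  have h2 := Cl_der h1
  have h11 := Cl_mul h1 h1
  have h11' : Cl p q (fun y => deriv ε y * deriv ε y) :=
    Cl_mono h11 (by linarith) (by linarith)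
  have h22 : Cl p q (fun y => deriv (deriv ε) y * deriv (deriv ε) y) :=
    Cl_mono (Cl_mul h2 h2) (by linarith) (by linarith)
  have h01 : Cl p q (fun y => ε y * deriv ε y) :=
    Cl_mono (Cl_mul hε h1) (by linarith) (by linarith)
  have hQ := Cl_pow0 (Nla_Qe hk hp.le hq.le hε) k
  have h3 := Cl_mul0 hQ h11'
  have hc : 0 < min p q := lt_min hp hq
  have h4 : Cl p q (fun y => y * (deriv ε y * deriv ε y)) :=
    Cl_mono (Cl_mul (Cl_id hc) h11) (by linarith [min_le_left p q])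
      (by linarith [min_le_right p q])
  exact Cl_add (Cl_add (Cl_add (Cl_add (Cl_smul _ h22) (Cl_smul _ h11')) (Cl_smul _ h3))
    (Cl_smul _ h01)) (Cl_smul _ h4)

theorem DX_id (k : ℕ) (hk : 5 ≤ k) {p q : ℝ} {ε e : ℝ → ℝ} (hp : 0 < p) (hq : 0 < q) (hp1 : p ≤ 1)
    (hq1 : q ≤ 1) (hε : Cl p q ε) (he : Cl p q e) (b m l : ℝ) :
    ip (deriv ε) (deriv (zeta k b m l ε e)) = -b * (1 - sc k) * Xn ε
      - l * (∫ y, (deriv (deriv ε) y) ^ 2)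
      - (k : ℝ) / 2 * (∫ y, (Qf k y + ε y) ^ (k - 1) * (deriv (Qf k) y + deriv ε y) * (deriv ε y) ^ 2)
      + (∫ y, deriv (deriv ε) y * (((Qf k y + ε y) ^ k - Qf k y ^ k) * deriv (Qf k) y))
      + b * (∫ y, deriv (deriv ε) y * Lam k (Qf k) y) - m * (∫ y, deriv (deriv ε) y * deriv (Qf k) y)
      - l * (∫ y, deriv (deriv ε) y * deriv (deriv (Qf k)) y)
      + ∫ y, deriv (deriv ε) y * deriv e y := by
  have hk1 : 1 ≤ k := by omega
  have hk0 : (k : ℝ) ≠ 0 := by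
    have : 0 < k := by omega
    positivity
  have z0 : Cl 0 0 ε := Cl_mono hε hp.le hq.le
  have h1 := Cl_der hε
  have h2 := Cl_der h1
  have h10 : Cl 0 0 (deriv ε) := Cl_mono h1 hp.le hq.le
  have hQ0 := Nla_Q hk1
  have hQ1 : Cl 0 0 (deriv (Qf k)) := Cl_der hQ0
  have hQ2 : Cl 0 0 (deriv (deriv (Qf k))) := Cl_der hQ1
  have hQe := Nla_Qe hk1 hp.le hq.le hε
  have hL : Cl 0 0 (Lam k (Qf k)) := Cl_LamQ hk1 (by norm_num)
  have he1 : Cl 0 0 (deriv e) := Cl_mono (Cl_der he) hp.le hq.le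
  have g1 : Cl p q (fun y => (deriv ε y) ^ 2) := Cl_pow' h1 hp.le hq.le 2 (by norm_num)
  have g2 : Cl p q (fun y => (deriv (deriv ε) y) ^ 2) := Cl_pow' h2 hp.le hq.le 2 (by norm_num)
  have g3 : Cl p q (fun y => (Qf k y + ε y) ^ (k - 1) * (deriv (Qf k) y + deriv ε y) *
      (deriv ε y) ^ 2) := Cl_mul0 (Nla_mulr (Cl_pow0 hQe (k - 1)) (Cl_add hQ1 h10)) g1
  have g4 : Cl p q (fun y => deriv (deriv ε) y *
      (((Qf k y + ε y) ^ k - Qf k y ^ k) * deriv (Qf k) y)) :=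
    Nla_mulr h2 (Nla_mulr (Cl_sub (Cl_pow0 hQe k) (Cl_pow0 hQ0 k)) hQ1)
  have g5 : Cl p q (fun y => deriv (deriv ε) y * Lam k (Qf k) y) := Nla_mulr h2 hL
  have g6 : Cl p q (fun y => deriv (deriv ε) y * deriv (Qf k) y) := Nla_mulr h2 hQ1
  have g7 : Cl p q (fun y => deriv (deriv ε) y * deriv (deriv (Qf k)) y) := Nla_mulr h2 hQ2
  have g8 : Cl p q (fun y => deriv (deriv ε) y * deriv e y) := Nla_mulr h2 he1
  have s0 : Integrable (fun _ : ℝ => (0 : ℝ)) ∧ ∫ _ : ℝ, (0 : ℝ) = 0 :=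
    ⟨integrable_zero _ _ _, integral_zero _ _⟩
  have S := Dxa_add (Dxa_add (Dxa_add (Dxa_add (Dxa_add (Dxa_add (Dxa_add (Dxa_add s0
    (Cl_int g1 hp hq) (-b * (1 - sc k))) (Cl_int g2 hp hq) (-l))
    (Cl_int g3 hp hq) (-((k : ℝ) / 2))) (Cl_int g4 hp hq) 1) (Cl_int g5 hp hq) b)
    (Cl_int g6 hp hq) (-m)) (Cl_int g7 hp hq) (-l)) (Cl_int g8 hp hq) 1
  have hz : Cl (p / 2) (q / 2) (zeta k b m l ε e) :=
    Cl_zeta hk1 hp hq hp1 hq1 hε he b m l (by linarith) (by linarith)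
  have hibp := Cl_ibp h1 hz (by linarith) (by linarith)
  have hzi : Integrable (fun y => -1 * (deriv (deriv ε) y * zeta k b m l ε e y)) :=
    Cl_int (Cl_smul (-1) (Cl_mul h2 hz)) (by linarith) (by linarith)
  have hmain := Cl_int_eq hzi S.1 (Dxa_Hcl hk1 hp hq hε b m) hp hq (by
    intro y
    rw [(Dxa_H hk1 hε b m y).deriv]
    unfold zeta
    rw [(Dxa_gf hk1 hε y).deriv]
    unfold Nf sc
    simp only [Lam]
    field_simp
    ring)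
  rw [S.2, integral_const_mul, hibp] at hmain
  unfold ip Xn
  linarith

end H98KB
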