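import Pool.Agent.H98.KB.Dxa
import Pool.Agent.H98.KB.Bmt

/-!
# Dxb : the gradient norm, estimate (uses the statement `DX_id`)

`Z := ∫ε''²`, `τ := Tn+ln`, `e^{-|y|/2} ≤ 4B om'` and `≤ loc`; constants may depend on `B`.
* `-(k/2)∫(Q+ε)^{k-1}Q'ε'²`: `≤ C∫Qε'² ≤ C ln`.
* `-(k/2)∫(Q+ε)^{k-1}ε'³`: `|Q+ε|^{k-1} ≤ 2^{k-2}(Q^{k-1}+|ε|^{k-1})`.
   - `∫Q^{k-1}|ε'|³ ≤ sup(Q^{1/2}|ε'|)·∫Q^{k-3/2}ε'²`; `sup(Qε'^2) ≤ ∫|(Qε'²)'| ≤ C∫Q(ε'²+ε''²) ≤ C Tn`; so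
     `≤ C√Tn·ln ≤ C√Tn√ln ≤ Cτ` (`ln ≤ c ≤ 1`).
   - `∫|ε|^{k-1}|ε'|³ ≤ S^{k-1} sup|ε'| X`, `S = sup|ε|`, `sup|ε'|² ≤ 2√X√Z` (`sup_le`), so it is
     `≤ √2 S^{k-1}X^{5/4}Z^{1/4} = √2 (S^{4(k-1)}X⁵ Z)^{1/4} ≤ √2 (l⁷Z)^{1/4} = √2 (l⁶·lZ)^{1/4}`
     `≤ small·lZ + C l²` (Young: `a^{3/4}b^{1/4} ≤ C_θ a + θ b`, `a=l²`, `b = lZ`).  Hypothesis: `|ε y|^{4(k-1)}X⁵ ≤ l⁷` for
     all `y`: it gives `(|ε|^{k-1}|ε'| ...)` pointwise: `|ε y|^{k-1} ≤ (l⁷/X⁵)^{1/4}` (if `X=0` then `ε=0`).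
* `|(Q+ε)^k-Q^k| ≤ C|ε|`: `∫|ε''||ε|Q ≤ Cτ`.
* `(|b|+|m|+l)∫|ε''|(1+|y|)Q ≤ C(|b|+|m|+l)√Tn ≤ Cτ + C(b²+m²+l²)`, `b ≤ 2κl`, `m² ≤ C(ln+Gn e)` (`BM_st`).
* `∫ε''e' ≤ (l/4)Z+(1/l)Xn e`.
-/

open MeasureTheory Filter Topology Set
open scoped ContDiff

namespace H98KB

theorem Dxb_A {k : ℕ} (hk : 1 ≤ k) : ∃ A : ℝ, 1 ≤ A ∧
    (∀ y, Qf k y ≤ A * Real.exp (-(|y| / 2))) ∧
    (∀ y, |deriv (Qf k) y| ≤ A * Real.exp (-(|y| / 2))) ∧ (∀ y, Qf k y ≤ A) := by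
  obtain ⟨C, hC, h⟩ := Qf_hi (k := k) hk
  have h1 : ∀ y : ℝ, Real.exp (-|y|) ≤ Real.exp (-(|y| / 2)) := fun y => by
    apply Real.exp_le_exp.2
    have := abs_nonneg y
    linarith
  have h2 : ∀ y : ℝ, Real.exp (-(|y| / 2)) ≤ 1 := fun y => by
    rw [Real.exp_le_one_iff]
    have := abs_nonneg y
    linarith
  have h3 : ∀ y, Qf k y ≤ (C + 1) * Real.exp (-(|y| / 2)) := fun y => by
    have e1 := h y
    have e2 := mul_le_mul_of_nonneg_left (h1 y) hC.le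
    have e3 := Real.exp_pos (-(|y| / 2))
    linarith
  refine ⟨C + 1, by linarith, h3, fun y => ?_, fun y => ?_⟩
  · have e0 : deriv (Qf k) y = -(th k y) * Qf k y := by rw [Qf_deriv hk]
    have e1 := th_abs_lt k y
    have e2 := Qf_pos k y
    rw [e0, abs_mul, abs_neg, abs_of_pos e2]
    have e3 : |th k y| * Qf k y ≤ 1 * Qf k y := mul_le_mul_of_nonneg_right e1.le e2.le
    have e4 := h3 y
    linarith
  · have e1 := h3 y
    have e2 := mul_le_mul_of_nonneg_left (h2 y) (by linarith : (0 : ℝ) ≤ C + 1)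
    linarith

theorem Dxb_young {t a w : ℝ} (ha : 0 ≤ a) (hw : 0 ≤ w) (h : t ^ 4 ≤ 256 * a * w ^ 3) :
    t ≤ a + 3 * w := by
  have h1 : 256 * a * w ^ 3 ≤ (a + 3 * w) ^ 4 := by
    have h2 : (a + 3 * w) ^ 4 - 256 * a * w ^ 3 =
        (a - w) ^ 2 * (a ^ 2 + 14 * a * w + 81 * w ^ 2) := by ring
    have h3 : 0 ≤ (a - w) ^ 2 * (a ^ 2 + 14 * a * w + 81 * w ^ 2) := by positivity
    linarith
  have h4 : t ^ 4 ≤ (a + 3 * w) ^ 4 := h.trans h1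
  by_contra hcon
  push Not at hcon
  have h5 : 0 ≤ a + 3 * w := by positivity
  have h6 := pow_lt_pow_left₀ hcon h5 (by norm_num : (4 : ℕ) ≠ 0)
  linarith

theorem Dxb_pt {A w u d h h1 MX T4 : ℝ} {j : ℕ} (hA : 1 ≤ A) (hu0 : 0 ≤ u) (huA : u ≤ A)
    (huw : u ≤ A * w) (hw : 0 < w) (hd : |d| ≤ A * w) (hh : |h| ≤ 1) (hT : u * h1 ^ 2 ≤ T4)
    (hT0 : 0 ≤ T4) (hM : |h| ^ (j + 2) * |h1| * h1 ^ 2 ≤ MX * h1 ^ 2) :
    |(u + h) ^ (j + 2) * (d + h1) * h1 ^ 2| ≤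
      ((A + 1) ^ (j + 2) * A + 2 ^ (j + 1) * A ^ (j + 1) * ((1 + A * T4) / 2)) * (w * h1 ^ 2) +
        2 ^ (j + 1) * (MX * h1 ^ 2) := by
  have hA0 : 0 ≤ A := by linarith
  have q0 : 0 ≤ h1 ^ 2 := sq_nonneg h1
  have s1 : |u + h| ^ (j + 2) ≤ (A + 1) ^ (j + 2) := by
    refine pow_le_pow_left₀ (abs_nonneg _) ?_ _
    refine (abs_add_le _ _).trans ?_
    rw [abs_of_nonneg hu0]
    linarith
  have s2 : |u + h| ^ (j + 2) ≤ 2 ^ (j + 1) * (u ^ (j + 2) + |h| ^ (j + 2)) := by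
    have e1 : |u + h| ^ (j + 2) ≤ (u + |h|) ^ (j + 2) := by
      refine pow_le_pow_left₀ (abs_nonneg _) ?_ _
      refine (abs_add_le _ _).trans ?_
      rw [abs_of_nonneg hu0]
    exact e1.trans (add_pow_le hu0 (abs_nonneg h) (j + 2))
  have s3 : u ^ (j + 2) * |h1| ≤ A ^ (j + 1) * w * ((1 + A * T4) / 2) := by
    have e1 : u ^ (j + 1) ≤ A ^ (j + 1) * w := by
      have e2 : u ^ j ≤ A ^ j := pow_le_pow_left₀ hu0 huA j
      calc u ^ (j + 1) = u ^ j * u := pow_succ u j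
        _ ≤ A ^ j * (A * w) := mul_le_mul e2 huw hu0 (by positivity)
        _ = A ^ (j + 1) * w := by ring
    have e3 : u * |h1| ≤ (1 + A * T4) / 2 := by
      have e4 : (u * |h1|) ^ 2 ≤ A * T4 := by
        rw [mul_pow, sq_abs]
        calc u ^ 2 * h1 ^ 2 = u * (u * h1 ^ 2) := by ring
          _ ≤ A * T4 := mul_le_mul huA hT (by positivity) hA0
      (first | linarith only [sq_nonneg (u * |h1| - 1), e4] | nlinarith only [sq_nonneg (u * |h1| - 1), e4])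
    calc u ^ (j + 2) * |h1| = u ^ (j + 1) * (u * |h1|) := by ring
      _ ≤ (A ^ (j + 1) * w) * ((1 + A * T4) / 2) :=
        mul_le_mul e1 e3 (by positivity) (by positivity)
  have s4 : |(u + h) ^ (j + 2) * (d + h1) * h1 ^ 2| ≤
      |u + h| ^ (j + 2) * |d| * h1 ^ 2 + |u + h| ^ (j + 2) * |h1| * h1 ^ 2 := by
    rw [abs_mul, abs_mul, abs_pow, abs_of_nonneg q0]
    have e1 : |d + h1| ≤ |d| + |h1| := abs_add_le _ _
    have e2 : |u + h| ^ (j + 2) * |d + h1| ≤ |u + h| ^ (j + 2) * (|d| + |h1|) :=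
      mul_le_mul_of_nonneg_left e1 (by positivity)
    have e3 := mul_le_mul_of_nonneg_right e2 q0
    linarith
  have s5 : |u + h| ^ (j + 2) * |d| * h1 ^ 2 ≤ (A + 1) ^ (j + 2) * (A * w) * h1 ^ 2 :=
    mul_le_mul_of_nonneg_right (mul_le_mul s1 hd (abs_nonneg _) (by positivity)) q0
  have s6 : |u + h| ^ (j + 2) * |h1| * h1 ^ 2 ≤
      2 ^ (j + 1) * (u ^ (j + 2) + |h| ^ (j + 2)) * |h1| * h1 ^ 2 :=
    mul_le_mul_of_nonneg_right (mul_le_mul_of_nonneg_right s2 (abs_nonneg _)) q0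
  have s7 : 2 ^ (j + 1) * (u ^ (j + 2) + |h| ^ (j + 2)) * |h1| * h1 ^ 2 =
      2 ^ (j + 1) * (u ^ (j + 2) * |h1| * h1 ^ 2) + 2 ^ (j + 1) * (|h| ^ (j + 2) * |h1| * h1 ^ 2) := by
    ring
  have s8 : (2 : ℝ) ^ (j + 1) * (u ^ (j + 2) * |h1| * h1 ^ 2) ≤
      2 ^ (j + 1) * (A ^ (j + 1) * w * ((1 + A * T4) / 2) * h1 ^ 2) :=
    mul_le_mul_of_nonneg_left (mul_le_mul_of_nonneg_right s3 q0) (by positivity)
  have s9 : (2 : ℝ) ^ (j + 1) * (|h| ^ (j + 2) * |h1| * h1 ^ 2) ≤ 2 ^ (j + 1) * (MX * h1 ^ 2) :=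
    mul_le_mul_of_nonneg_left hM (by positivity)
  calc _ ≤ _ := s4
    _ ≤ (A + 1) ^ (j + 2) * (A * w) * h1 ^ 2 +
        (2 ^ (j + 1) * (A ^ (j + 1) * w * ((1 + A * T4) / 2) * h1 ^ 2) +
          2 ^ (j + 1) * (MX * h1 ^ 2)) := by linarith
    _ = _ := by ring

section
variable {k : ℕ} {B ρ p q γ : ℝ} {ε : ℝ → ℝ}

theorem Dxb_p (hs : Slow B ρ) (hε : Adm ρ p q ε) : 0 < p := by
  have h1 := hs.2.1
  have h2 := hε.1
  linarith

theorem Dxb_i1 (hs : Slow B ρ) (hε : Adm ρ p q ε) {f g : ℝ → ℝ} (hf : Cl p q f)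
    (hg : Cl p q g) : Integrable (fun y => deriv (om B ρ) y * (f y * g y)) := by
  have hB : 0 < B := by linarith [hs.1]
  have h1 := hs.2.1
  have h2 := hε.1
  have h3 := hε.2.2.1
  refine Cl_int (Cl_mul (Cl_der (Cl_om hB ρ)) (Cl_mul hf hg)) ?_ ?_
  · linarith
  · have : 0 < 1 / B := by positivity
    linarith

theorem Dxb_i2 (hs : Slow B ρ) (hε : Adm ρ p q ε) (hγ : 0 < γ) {f g : ℝ → ℝ} (hf : Cl p q f)
    (hg : Cl p q g) : Integrable (fun y => loc γ B y * (f y * g y)) := by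
  have hB : 0 < B := by linarith [hs.1]
  have h1 := Dxb_p hs hε
  have h3 := hε.2.2.1
  have hl : Cl (2 * γ + 2 / B) (2 * γ + 2 / B) (loc γ B) := Cl_mul (Cl_se2 hγ) (Cl_ch hB)
  have h4 : 0 < 2 / B := by positivity
  refine Cl_int (Cl_mul hl (Cl_mul hf hg)) ?_ ?_
  · linarith
  · linarith

theorem Dxb_i3 (hs : Slow B ρ) (hε : Adm ρ p q ε) {f g : ℝ → ℝ} (hf : Cl p q f)
    (hg : Cl p q g) : Integrable (fun y => f y * g y) := by
  have h1 := Dxb_p hs hε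
  have h3 := hε.2.2.1
  exact Cl_int (Cl_mul hf hg) (by linarith) (by linarith)

theorem Dxb_iT (hs : Slow B ρ) (hε : Adm ρ p q ε) : Integrable (fun y =>
    deriv (om B ρ) y * ((ε y) ^ 2 + (deriv ε y) ^ 2 + (deriv (deriv ε) y) ^ 2)) := by
  have c0 := hε.2.2.2.2
  have c1 := Cl_der c0
  have c2 := Cl_der c1
  refine (((Dxb_i1 hs hε c0 c0).add (Dxb_i1 hs hε c1 c1)).add (Dxb_i1 hs hε c2 c2)).congr
    (Eventually.of_forall fun y => ?_)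
  simp only [Pi.add_apply]
  ring

theorem Dxb_iL (hs : Slow B ρ) (hε : Adm ρ p q ε) (hγ : 0 < γ) : Integrable (fun y =>
    loc γ B y * ((ε y) ^ 2 + (deriv ε y) ^ 2)) := by
  have c0 := hε.2.2.2.2
  have c1 := Cl_der c0
  refine ((Dxb_i2 hs hε hγ c0 c0).add (Dxb_i2 hs hε hγ c1 c1)).congr
    (Eventually.of_forall fun y => ?_)
  simp only [Pi.add_apply]
  ring

theorem Dxb_iS (hs : Slow B ρ) (hε : Adm ρ p q ε) {f : ℝ → ℝ} (hf : Cl p q f) :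
    Integrable (fun y => (f y) ^ 2) := by
  refine (Dxb_i3 hs hε hf hf).congr (Eventually.of_forall fun y => ?_)
  simp only [pow_two]

theorem Dxb_cmp (hs : Slow B ρ) (hε : Adm ρ p q ε) (hγ : 0 < γ) {F : ℝ → ℝ} (hF : Integrable F)
    (a1 a2 a3 a4 : ℝ) (h : ∀ y, F y ≤
      a1 * (deriv (om B ρ) y * ((ε y) ^ 2 + (deriv ε y) ^ 2 + (deriv (deriv ε) y) ^ 2)) +
      a2 * (loc γ B y * ((ε y) ^ 2 + (deriv ε y) ^ 2)) + a3 * (deriv ε y) ^ 2 + a4 * bd 1 1 y) :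
    ∫ y, F y ≤ a1 * Tn B ρ ε + a2 * ln γ B ε + a3 * Xn ε + a4 * ∫ y, bd 1 1 y := by
  have j1 := (Dxb_iT hs hε).const_mul a1
  have j2 := (Dxb_iL hs hε hγ).const_mul a2
  have j3 := (Dxb_iS hs hε (Cl_der hε.2.2.2.2)).const_mul a3
  have j4 : Integrable (fun y => a4 * bd 1 1 y) := (bd_int one_pos one_pos).const_mul a4
  have h1 := integral_mono hF (((j1.add j2).add j3).add j4) h
  refine h1.trans (le_of_eq ?_)
  have e1 : ∫ y, (a1 * (deriv (om B ρ) y *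
        ((ε y) ^ 2 + (deriv ε y) ^ 2 + (deriv (deriv ε) y) ^ 2)) +
      a2 * (loc γ B y * ((ε y) ^ 2 + (deriv ε y) ^ 2)) + a3 * (deriv ε y) ^ 2 + a4 * bd 1 1 y) =
      a1 * Tn B ρ ε + a2 * ln γ B ε + a3 * Xn ε + a4 * ∫ y, bd 1 1 y := by
    have k12 : Integrable (fun y => a1 * (deriv (om B ρ) y *
        ((ε y) ^ 2 + (deriv ε y) ^ 2 + (deriv (deriv ε) y) ^ 2)) +
      a2 * (loc γ B y * ((ε y) ^ 2 + (deriv ε y) ^ 2))) := j1.add j2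
    have k123 : Integrable (fun y => a1 * (deriv (om B ρ) y *
        ((ε y) ^ 2 + (deriv ε y) ^ 2 + (deriv (deriv ε) y) ^ 2)) +
      a2 * (loc γ B y * ((ε y) ^ 2 + (deriv ε y) ^ 2)) + a3 * (deriv ε y) ^ 2) := k12.add j3
    rw [integral_add k123 j4, integral_add k12 j3, integral_add j1 j2, integral_const_mul,
      integral_const_mul, integral_const_mul, integral_const_mul]
    rfl
  exact e1

theorem Dxb_sup (hk : 1 ≤ k) (hs : Slow B ρ) (hε : Adm ρ p q ε) {A : ℝ} (hA : 1 ≤ A)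
    (hQ : ∀ y, Qf k y ≤ A * Real.exp (-(|y| / 2)))
    (hQ' : ∀ y, |deriv (Qf k) y| ≤ A * Real.exp (-(|y| / 2))) (y : ℝ) :
    Qf k y * (deriv ε y) ^ 2 ≤ 8 * A * B * Tn B ρ ε := by
  have hp := Dxb_p hs hε
  have hq := hε.2.2.1
  have hB : 0 < B := by linarith [hs.1]
  have c1 := Cl_der hε.2.2.2.2
  have cf : Cl (1 + p) (1 + q) (fun z => Qf k z * (deriv ε z) ^ 2) :=
    Cl_mul (Cl_Qf hk) (Cl_pow' c1 hp.le hq.le 2 (by norm_num))
  have cf' := Cl_der cf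
  have hi' := Cl_int cf' (by linarith) (by linarith)
  have hT := (Dxb_iT hs hε).const_mul (8 * A * B)
  have h1 := integral_Iic_of_hasDerivAt_of_tendsto' (a := y) (fun x _ => Cl_hd cf x)
    hi'.integrableOn (Cl_tendsto_bot cf (by linarith))
  simp only [sub_zero] at h1
  rw [← h1]
  have hpt : ∀ z, deriv (fun z => Qf k z * (deriv ε z) ^ 2) z ≤ 8 * A * B *
      (deriv (om B ρ) z * ((ε z) ^ 2 + (deriv ε z) ^ 2 + (deriv (deriv ε) z) ^ 2)) := by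
    intro z
    have d1 := (Cl_hd (Cl_Qf hk) z).mul ((Cl_hd c1 z).pow 2)
    have d2 : deriv (fun z => Qf k z * (deriv ε z) ^ 2) z =
        deriv (Qf k) z * (deriv ε z) ^ 2 + Qf k z * (2 * deriv ε z * deriv (deriv ε) z) := by
      have := d1.deriv
      refine Eq.trans ?_ (this.trans ?_)
      · rfl
      · simp only [Pi.pow_apply]
        push_cast
        ring
    rw [d2]
    have w1 := ex_le_om1 hs z
    have w0 := Real.exp_pos (-(|z| / 2))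
    have e1 : deriv (Qf k) z * (deriv ε z) ^ 2 ≤ A * Real.exp (-(|z| / 2)) * (deriv ε z) ^ 2 :=
      mul_le_mul_of_nonneg_right ((le_abs_self _).trans (hQ' z)) (sq_nonneg _)
    have e2 : Qf k z * (2 * deriv ε z * deriv (deriv ε) z) ≤
        A * Real.exp (-(|z| / 2)) * ((deriv ε z) ^ 2 + (deriv (deriv ε) z) ^ 2) := by
      have e3 : Qf k z * (2 * deriv ε z * deriv (deriv ε) z) ≤
          Qf k z * ((deriv ε z) ^ 2 + (deriv (deriv ε) z) ^ 2) :=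
        mul_le_mul_of_nonneg_left (by (first | linarith only [sq_nonneg (deriv ε z - deriv (deriv ε) z)] | nlinarith only [sq_nonneg (deriv ε z - deriv (deriv ε) z)]))
          (Qf_pos k z).le
      exact e3.trans (mul_le_mul_of_nonneg_right (hQ z) (by positivity))
    have e4 : A * Real.exp (-(|z| / 2)) ≤ 4 * A * B * deriv (om B ρ) z := by
      have := mul_le_mul_of_nonneg_left w1 (by linarith : (0 : ℝ) ≤ A)
      linarith
    have o1 := om1_pos hs z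
    have e5 : A * Real.exp (-(|z| / 2)) * (deriv ε z) ^ 2 ≤
        4 * A * B * deriv (om B ρ) z * (deriv ε z) ^ 2 :=
      mul_le_mul_of_nonneg_right e4 (sq_nonneg _)
    have e6 : A * Real.exp (-(|z| / 2)) * ((deriv ε z) ^ 2 + (deriv (deriv ε) z) ^ 2) ≤
        4 * A * B * deriv (om B ρ) z * ((deriv ε z) ^ 2 + (deriv (deriv ε) z) ^ 2) :=
      mul_le_mul_of_nonneg_right e4 (by positivity)
    have e7 : 0 ≤ 4 * A * B * deriv (om B ρ) z * (2 * (ε z) ^ 2 + (deriv (deriv ε) z) ^ 2) := by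
      positivity
    linarith
  have h2 : ∫ z in Iic y, deriv (fun z => Qf k z * (deriv ε z) ^ 2) z ≤ ∫ z in Iic y,
      8 * A * B * (deriv (om B ρ) z * ((ε z) ^ 2 + (deriv ε z) ^ 2 + (deriv (deriv ε) z) ^ 2)) :=
    integral_mono hi'.integrableOn hT.integrableOn hpt
  have h3 : ∫ z in Iic y, 8 * A * B * (deriv (om B ρ) z *
      ((ε z) ^ 2 + (deriv ε z) ^ 2 + (deriv (deriv ε) z) ^ 2)) ≤ ∫ z, 8 * A * B *
      (deriv (om B ρ) z * ((ε z) ^ 2 + (deriv ε z) ^ 2 + (deriv (deriv ε) z) ^ 2)) := by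
    refine setIntegral_le_integral hT (Eventually.of_forall fun z => ?_)
    have o1 := om1_pos hs z
    positivity
  refine (h2.trans h3).trans (le_of_eq ?_)
  rw [integral_const_mul]
  rfl

theorem Dxb_M (hs : Slow B ρ) (hε : Adm ρ p q ε) {l : ℝ} (hl : 0 < l)
    (hX : ∀ y, |ε y| ^ (4 * (k - 1)) * (Xn ε) ^ 5 ≤ l ^ 7) {D : ℝ} (hD : 1 ≤ D) (y : ℝ) :
    |ε y| ^ (k - 1) * |deriv ε y| * Xn ε ≤
      1 / D * (l * ∫ z, (deriv (deriv ε) z) ^ 2) + 3 * (D * l ^ 2) := by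
  have hp := Dxb_p hs hε
  have hq := hε.2.2.1
  have c1 := Cl_der hε.2.2.2.2
  have hX0 : 0 ≤ Xn ε := integral_nonneg fun z => sq_nonneg _
  have hZ0 : 0 ≤ ∫ z, (deriv (deriv ε) z) ^ 2 := integral_nonneg fun z => sq_nonneg _
  have h1 : deriv ε y ^ 2 ≤ 2 * √(Xn ε) * √(∫ z, (deriv (deriv ε) z) ^ 2) :=
    sup_le c1 hp hq y
  set X := Xn ε with hXd
  set Z := ∫ z, (deriv (deriv ε) z) ^ 2 with hZd
  have h2 : (deriv ε y ^ 2) ^ 2 ≤ 4 * X * Z := by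
    calc (deriv ε y ^ 2) ^ 2 ≤ (2 * √X * √Z) ^ 2 := pow_le_pow_left₀ (sq_nonneg _) h1 2
      _ = 4 * (√X ^ 2) * (√Z ^ 2) := by ring
      _ = 4 * X * Z := by rw [Real.sq_sqrt hX0, Real.sq_sqrt hZ0]
  have hD0 : 0 < D := by linarith
  refine Dxb_young (by positivity) (by positivity) ?_
  have h3 : (|ε y| ^ (k - 1) * |deriv ε y| * X) ^ 4 =
      |ε y| ^ (4 * (k - 1)) * (deriv ε y ^ 2) ^ 2 * X ^ 4 := by
    rw [mul_pow, mul_pow, ← pow_mul, mul_comm (k - 1) 4, ← sq_abs (deriv ε y)]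
    ring
  have h4 : |ε y| ^ (4 * (k - 1)) * (deriv ε y ^ 2) ^ 2 * X ^ 4 ≤
      |ε y| ^ (4 * (k - 1)) * (4 * X * Z) * X ^ 4 :=
    mul_le_mul_of_nonneg_right (mul_le_mul_of_nonneg_left h2 (by positivity)) (by positivity)
  have h5 : |ε y| ^ (4 * (k - 1)) * (4 * X * Z) * X ^ 4 =
      4 * Z * (|ε y| ^ (4 * (k - 1)) * X ^ 5) := by ring
  have h6 : 4 * Z * (|ε y| ^ (4 * (k - 1)) * X ^ 5) ≤ 4 * Z * l ^ 7 :=
    mul_le_mul_of_nonneg_left (hX y) (by positivity)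
  have h7 : 256 * (1 / D * (l * Z)) * (D * l ^ 2) ^ 3 = 256 * D ^ 2 * (Z * l ^ 7) := by
    field_simp
  rw [h3, h7]
  have h8 : 1 ≤ D ^ 2 := one_le_pow₀ hD
  have h9 : 0 ≤ Z * l ^ 7 := by positivity
  have h10 : 4 * (Z * l ^ 7) ≤ 256 * D ^ 2 * (Z * l ^ 7) :=
    mul_le_mul_of_nonneg_right (by linarith) h9
  linarith

end

/-- linear terms -/
theorem Dxb_lin {k : ℕ} {B ρ p q γ : ℝ} {ε φ : ℝ → ℝ} (hs : Slow B ρ) (hε : Adm ρ p q ε)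
    (hγ : 0 < γ) (hφ : Cl (3 / 4) (3 / 4) φ) {K : ℝ} (hK : 0 ≤ K)
    (hb : ∀ y, |φ y| ≤ K * bd (3 / 4) (3 / 4) y) (x : ℝ) :
    x * (∫ y, deriv (deriv ε) y * φ y) ≤
      Tn B ρ ε + (B * K ^ 2 * ∫ y, bd 1 1 y) * x ^ 2 := by
  have hp := Dxb_p hs hε
  have hq := hε.2.2.1
  have hB : 0 < B := by linarith [hs.1]
  have c2 := Cl_der (Cl_der hε.2.2.2.2)
  have hF : Integrable (fun y => deriv (deriv ε) y * φ y) :=
    Cl_int (Cl_mul c2 hφ) (by linarith) (by linarith)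
  have h := Dxb_cmp hs hε hγ (hF.const_mul x) 1 0 0 (B * K ^ 2 * x ^ 2) (fun y => ?_)
  · rw [integral_const_mul] at h
    linarith
  · have o1 := om1_pos hs y
    have w1 := ex_le_om1 hs y
    have e1 : bd (3 / 4) (3 / 4) y = Real.exp (-(3 / 4 * |y|)) := bd_abs _ _
    have e2 : bd 1 1 y = Real.exp (-(1 * |y|)) := bd_abs _ _
    have hE0 := Real.exp_pos (-(|y| / 4))
    have f1 : Real.exp (-(|y| / 4)) ^ 2 = Real.exp (-(|y| / 2)) := by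
      rw [← Real.exp_nat_mul]
      congr 1
      push_cast
      ring
    have f2 : bd (3 / 4) (3 / 4) y = Real.exp (-(|y| / 4)) * Real.exp (-(|y| / 2)) := by
      rw [e1, ← Real.exp_add]
      congr 1
      ring
    have f3 : Real.exp (-(|y| / 2)) ^ 2 = bd 1 1 y := by
      rw [e2, ← Real.exp_nat_mul]
      congr 1
      push_cast
      ring
    have g1 : x * (deriv (deriv ε) y * φ y) ≤
        (Real.exp (-(|y| / 4)) * |deriv (deriv ε) y|) * (|x| * K * Real.exp (-(|y| / 2))) := by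
      have a1 : x * (deriv (deriv ε) y * φ y) ≤ |x| * (|deriv (deriv ε) y| * |φ y|) := by
        rw [← abs_mul, ← abs_mul]
        exact le_abs_self _
      have a2 : |x| * (|deriv (deriv ε) y| * |φ y|) ≤
          |x| * (|deriv (deriv ε) y| * (K * bd (3 / 4) (3 / 4) y)) :=
        mul_le_mul_of_nonneg_left (mul_le_mul_of_nonneg_left (hb y) (abs_nonneg _)) (abs_nonneg _)
      rw [f2] at a2
      linarith
    have g2 : (Real.exp (-(|y| / 4)) * |deriv (deriv ε) y|) *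
        (|x| * K * Real.exp (-(|y| / 2))) ≤
        (Real.exp (-(|y| / 4)) * |deriv (deriv ε) y|) ^ 2 / (4 * B) +
          B * (|x| * K * Real.exp (-(|y| / 2))) ^ 2 := by
      have a1 : 0 ≤ ((Real.exp (-(|y| / 4)) * |deriv (deriv ε) y|) -
          2 * B * (|x| * K * Real.exp (-(|y| / 2)))) ^ 2 := sq_nonneg _
      rw [div_add' _ _ _ (by positivity), le_div_iff₀ (by positivity)]
      linarith
    have g3 : (Real.exp (-(|y| / 4)) * |deriv (deriv ε) y|) ^ 2 / (4 * B) ≤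
        deriv (om B ρ) y * (deriv (deriv ε) y) ^ 2 := by
      rw [mul_pow, f1, sq_abs, div_le_iff₀ (by positivity)]
      have := mul_le_mul_of_nonneg_right w1 (sq_nonneg (deriv (deriv ε) y))
      linarith
    have g4 : B * (|x| * K * Real.exp (-(|y| / 2))) ^ 2 = B * K ^ 2 * x ^ 2 * bd 1 1 y := by
      rw [mul_pow, mul_pow, sq_abs, f3]
      ring
    have g5 : 0 ≤ deriv (om B ρ) y * ((ε y) ^ 2 + (deriv ε y) ^ 2) := by positivity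
    rw [g4] at g2
    linarith

/-- the first cubic term -/
theorem Dxb_I1 {k : ℕ} (hk : 5 ≤ k) {B ρ p q γ : ℝ} {ε : ℝ → ℝ} (hs : Slow B ρ)
    (hε : Adm ρ p q ε) (hγ : 0 < γ) (hγ' : γ ≤ 1 / 8) {A : ℝ} (hA : 1 ≤ A)
    (hQ : ∀ y, Qf k y ≤ A * Real.exp (-(|y| / 2)))
    (hQ' : ∀ y, |deriv (Qf k) y| ≤ A * Real.exp (-(|y| / 2))) (hQA : ∀ y, Qf k y ≤ A)
    (hε1 : ∀ y, |ε y| ≤ 1) (hL : ln γ B ε ≤ 1) {l : ℝ} (hl : 0 < l)
    (hX : ∀ y, |ε y| ^ (4 * (k - 1)) * (Xn ε) ^ 5 ≤ l ^ 7) {D : ℝ} (hD : 1 ≤ D) :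
    -(∫ y, (Qf k y + ε y) ^ (k - 1) * (deriv (Qf k) y + deriv ε y) * (deriv ε y) ^ 2) ≤
      ((A + 1) ^ (k - 1) * A + 2 ^ (k - 2) * A ^ (k - 2)) * ln γ B ε +
      (2 ^ (k - 2) * A ^ (k - 2) * (8 * A ^ 2 * B)) * Tn B ρ ε +
      2 ^ (k - 2) * (1 / D * (l * ∫ z, (deriv (deriv ε) z) ^ 2) + 3 * (D * l ^ 2)) := by
  obtain ⟨j, hj⟩ : ∃ j, k - 1 = j + 2 := ⟨k - 3, by omega⟩
  have hj2 : k - 2 = j + 1 := by omega
  have hk1 : 1 ≤ k := by omega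
  have hp := Dxb_p hs hε
  have hq := hε.2.2.1
  have hB : 0 < B := by linarith [hs.1]
  have c0 := hε.2.2.2.2
  have c1 := Cl_der c0
  have hL0 : 0 ≤ ln γ B ε := integral_nonneg fun z => mul_nonneg (loc_pos γ B z).le
    (by positivity)
  have hT0 : 0 ≤ Tn B ρ ε := integral_nonneg fun z => mul_nonneg (om1_pos hs z).le
    (by positivity)
  have hZ0 : 0 ≤ ∫ z, (deriv (deriv ε) z) ^ 2 := integral_nonneg fun z => sq_nonneg _
  have hX0 : 0 ≤ Xn ε := integral_nonneg fun z => sq_nonneg _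
  have hD0 : 0 < D := by linarith
  set M := 1 / D * (l * ∫ z, (deriv (deriv ε) z) ^ 2) + 3 * (D * l ^ 2) with hM
  have hM0 : 0 ≤ M := by positivity
  have hMy : ∀ y, |ε y| ^ (j + 2) * |deriv ε y| * Xn ε ≤ M := by
    intro y
    have h := Dxb_M (k := k) hs hε hl hX hD y
    rwa [hj] at h
  set T4 := 8 * A * B * Tn B ρ ε with hT4
  have hT40 : 0 ≤ T4 := by positivity
  have hsup : ∀ y, Qf k y * (deriv ε y) ^ 2 ≤ T4 := fun y => Dxb_sup hk1 hs hε hA hQ hQ' y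
  have hMX : ∀ y, |ε y| ^ (j + 2) * |deriv ε y| * (deriv ε y) ^ 2 ≤
      (M / Xn ε) * (deriv ε y) ^ 2 := by
    intro y
    rcases hX0.lt_or_eq with hpos | hzero
    · refine mul_le_mul_of_nonneg_right ?_ (sq_nonneg _)
      rw [le_div_iff₀ hpos]
      exact hMy y
    · have h1 : (fun z => (deriv ε z) ^ 2) = 0 := by
        have h2 : ∫ z, (deriv ε z) ^ 2 = 0 := hzero.symm
        have h3 := (integral_eq_zero_iff_of_nonneg (fun z => sq_nonneg (deriv ε z))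
          (Dxb_iS hs hε c1)).1 h2
        exact Continuous.ae_eq_iff_eq volume ((Cl_cont c1).pow 2) continuous_zero |>.1 h3
      have h4 : (deriv ε y) ^ 2 = 0 := congrFun h1 y
      rw [h4]
      simp
  -- integrability
  have iF : Integrable (fun y => (Qf k y + ε y) ^ (k - 1) * (deriv (Qf k) y + deriv ε y) *
      (deriv ε y) ^ 2) := by
    have a0 : Cl 0 0 (fun y => Qf k y + ε y) :=
      Cl_add (Cl_mono (Cl_Qf hk1) zero_le_one zero_le_one) (Cl_mono c0 hp.le hq.le)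
    have a1 : Cl 0 0 (fun y => deriv (Qf k) y + deriv ε y) :=
      Cl_add (Cl_mono (Cl_der (Cl_Qf hk1)) zero_le_one zero_le_one) (Cl_mono c1 hp.le hq.le)
    have a2 : Cl 0 0 (fun y => (Qf k y + ε y) ^ (k - 1) * (deriv (Qf k) y + deriv ε y)) :=
      Cl_mul0 (Cl_pow0 a0 (k - 1)) a1
    exact Cl_int (Cl_mul0 a2 (Cl_pow' c1 hp.le hq.le 2 (by norm_num))) hp hq
  have h := Dxb_cmp hs hε hγ iF.neg 0
    ((A + 1) ^ (j + 2) * A + 2 ^ (j + 1) * A ^ (j + 1) * ((1 + A * T4) / 2))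
    (2 ^ (j + 1) * (M / Xn ε)) 0 (fun y => ?_)
  · simp only [Pi.neg_apply] at h
    rw [integral_neg] at h
    have e1 : (M / Xn ε) * Xn ε ≤ M := by
      rcases hX0.lt_or_eq with hpos | hzero
      · rw [div_mul_cancel₀ _ hpos.ne']
      · rw [← hzero]
        simpa using hM0
    have e2 : (2 : ℝ) ^ (j + 1) * ((M / Xn ε) * Xn ε) ≤ 2 ^ (j + 1) * M :=
      mul_le_mul_of_nonneg_left e1 (by positivity)
    have hP : (0 : ℝ) ≤ 2 ^ (j + 1) * A ^ (j + 1) := by positivity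
    have e3 : 2 ^ (j + 1) * A ^ (j + 1) * ((1 + A * T4) / 2) * ln γ B ε ≤
        2 ^ (j + 1) * A ^ (j + 1) * ln γ B ε + 2 ^ (j + 1) * A ^ (j + 1) * (A * T4) := by
      have e4 : (1 + A * T4) / 2 * ln γ B ε ≤ ln γ B ε + A * T4 := by
        have e5 : 0 ≤ A * T4 := by positivity
        (first | linarith only [e5, hL, hL0, hγ, hγ'] | nlinarith only [e5, hL, hL0, hγ, hγ'])
      have := mul_le_mul_of_nonneg_left e4 hP
      linarith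
    have e6 : 2 ^ (j + 1) * A ^ (j + 1) * (A * T4) =
        2 ^ (j + 1) * A ^ (j + 1) * (8 * A ^ 2 * B) * Tn B ρ ε := by
      rw [hT4]
      ring
    rw [hj2]
    rw [e6] at e3
    have e7 : ((A + 1) ^ (j + 2) * A + 2 ^ (j + 1) * A ^ (j + 1) * ((1 + A * T4) / 2)) *
        ln γ B ε = (A + 1) ^ (j + 2) * A * ln γ B ε +
        2 ^ (j + 1) * A ^ (j + 1) * ((1 + A * T4) / 2) * ln γ B ε := by ring
    rw [e7] at h
    simp only [hj] at h ⊢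
    linarith
  · simp only [Pi.neg_apply, hj]
    have w0 := Real.exp_pos (-(|y| / 2))
    have w1 := ex_le_loc (B := B) hγ hγ' hs.1 y
    have e0 := Dxb_pt (A := A) (w := Real.exp (-(|y| / 2))) (u := Qf k y) (d := deriv (Qf k) y)
      (h := ε y) (h1 := deriv ε y) (MX := M / Xn ε) (T4 := T4) (j := j) hA (Qf_pos k y).le
      (hQA y) (hQ y) w0 (hQ' y) (hε1 y) (hsup y) hT40 (hMX y)
    have e1 := neg_le_abs ((Qf k y + ε y) ^ (j + 2) * (deriv (Qf k) y + deriv ε y) *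
      (deriv ε y) ^ 2)
    have e2 : Real.exp (-(|y| / 2)) * (deriv ε y) ^ 2 ≤
        loc γ B y * ((ε y) ^ 2 + (deriv ε y) ^ 2) := by
      have a1 := mul_le_mul_of_nonneg_right w1 (sq_nonneg (deriv ε y))
      have a2 : 0 ≤ loc γ B y * (ε y) ^ 2 := mul_nonneg (loc_pos γ B y).le (sq_nonneg _)
      linarith
    have e3 : ((A + 1) ^ (j + 2) * A + 2 ^ (j + 1) * A ^ (j + 1) * ((1 + A * T4) / 2)) *
        (Real.exp (-(|y| / 2)) * (deriv ε y) ^ 2) ≤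
        ((A + 1) ^ (j + 2) * A + 2 ^ (j + 1) * A ^ (j + 1) * ((1 + A * T4) / 2)) *
        (loc γ B y * ((ε y) ^ 2 + (deriv ε y) ^ 2)) :=
      mul_le_mul_of_nonneg_left e2 (by positivity)
    linarith

/-- the second nonlinear term -/
theorem Dxb_I2 {k : ℕ} (hk : 5 ≤ k) {B ρ p q γ : ℝ} {ε : ℝ → ℝ} (hs : Slow B ρ)
    (hε : Adm ρ p q ε) (hγ : 0 < γ) {A : ℝ} (hA : 1 ≤ A)
    (hQ' : ∀ y, |deriv (Qf k) y| ≤ A * Real.exp (-(|y| / 2))) (hQA : ∀ y, Qf k y ≤ A)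
    (hε1 : ∀ y, |ε y| ≤ 1) :
    (∫ y, deriv (deriv ε) y * (((Qf k y + ε y) ^ k - Qf k y ^ k) * deriv (Qf k) y)) ≤
      (4 * A * B * ((k : ℝ) * (A + 1) ^ (k - 1))) * Tn B ρ ε := by
  have hk1 : 1 ≤ k := by omega
  have hp := Dxb_p hs hε
  have hq := hε.2.2.1
  have hB : 0 < B := by linarith [hs.1]
  have c0 := hε.2.2.2.2
  have c2 := Cl_der (Cl_der c0)
  have q0 : Cl 0 0 (Qf k) := Cl_mono (Cl_Qf hk1) zero_le_one zero_le_one
  have iF : Integrable (fun y => deriv (deriv ε) y *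
      (((Qf k y + ε y) ^ k - Qf k y ^ k) * deriv (Qf k) y)) := by
    have a0 : Cl 0 0 (fun y => Qf k y + ε y) := Cl_add q0 (Cl_mono c0 hp.le hq.le)
    have a1 : Cl 0 0 (fun y => (Qf k y + ε y) ^ k - Qf k y ^ k) :=
      Cl_sub (Cl_pow0 a0 k) (Cl_pow0 q0 k)
    have a2 : Cl 0 0 (fun y => ((Qf k y + ε y) ^ k - Qf k y ^ k) * deriv (Qf k) y) :=
      Cl_mul0 a1 (Cl_mono (Cl_der (Cl_Qf hk1)) zero_le_one zero_le_one)
    exact Cl_int (Cl_mul c2 a2) (by linarith) (by linarith)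
  have h := Dxb_cmp hs hε hγ iF (4 * A * B * ((k : ℝ) * (A + 1) ^ (k - 1))) 0 0 0 (fun y => ?_)
  · linarith
  · have o1 := om1_pos hs y
    have w1 := ex_le_om1 hs y
    have e1 : |(Qf k y + ε y) ^ k - Qf k y ^ k| ≤ |ε y| * ((k : ℝ) * (A + 1) ^ (k - 1)) := by
      have a1 := abs_pow_sub_pow_le (Qf k y + ε y) (Qf k y) k
      have a2 : Qf k y + ε y - Qf k y = ε y := by ring
      rw [a2] at a1
      have a3 : max |Qf k y + ε y| |Qf k y| ^ (k - 1) ≤ (A + 1) ^ (k - 1) := by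
        refine pow_le_pow_left₀ (le_max_of_le_left (abs_nonneg _)) ?_ _
        refine max_le ((abs_add_le _ _).trans ?_) ?_
        · rw [abs_of_pos (Qf_pos k y)]
          linarith [hQA y, hε1 y]
        · rw [abs_of_pos (Qf_pos k y)]
          linarith [hQA y]
      have a4 := mul_le_mul_of_nonneg_left a3 (by positivity : 0 ≤ |ε y| * (k : ℝ))
      linarith
    have e2 : deriv (deriv ε) y * (((Qf k y + ε y) ^ k - Qf k y ^ k) * deriv (Qf k) y) ≤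
        |deriv (deriv ε) y| * ((|ε y| * ((k : ℝ) * (A + 1) ^ (k - 1))) *
          (A * Real.exp (-(|y| / 2)))) := by
      refine (le_abs_self _).trans ?_
      rw [abs_mul, abs_mul]
      exact mul_le_mul_of_nonneg_left (mul_le_mul e1 (hQ' y) (abs_nonneg _) (by positivity))
        (abs_nonneg _)
    have e3 : |deriv (deriv ε) y| * |ε y| ≤ (ε y) ^ 2 + (deriv ε y) ^ 2 +
        (deriv (deriv ε) y) ^ 2 := by
      have a1 := sq_nonneg (|deriv (deriv ε) y| - |ε y|)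
      have a2 := sq_abs (deriv (deriv ε) y)
      have a3 := sq_abs (ε y)
      have a4 := sq_nonneg (deriv ε y)
      (first | linarith only [sq_nonneg (ε y), sq_nonneg (deriv (deriv ε) y), a2, a3] | nlinarith only [sq_nonneg (ε y), sq_nonneg (deriv (deriv ε) y), a2, a3])
    have e4 : A * Real.exp (-(|y| / 2)) ≤ A * (4 * B * deriv (om B ρ) y) :=
      mul_le_mul_of_nonneg_left w1 (by linarith)
    have e5 : |deriv (deriv ε) y| * ((|ε y| * ((k : ℝ) * (A + 1) ^ (k - 1))) *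
          (A * Real.exp (-(|y| / 2)))) =
        ((k : ℝ) * (A + 1) ^ (k - 1)) * ((|deriv (deriv ε) y| * |ε y|) *
          (A * Real.exp (-(|y| / 2)))) := by ring
    have e6 : (|deriv (deriv ε) y| * |ε y|) * (A * Real.exp (-(|y| / 2))) ≤
        ((ε y) ^ 2 + (deriv ε y) ^ 2 + (deriv (deriv ε) y) ^ 2) *
          (A * (4 * B * deriv (om B ρ) y)) :=
      mul_le_mul e3 e4 (by positivity) (by positivity)
    have e7 := mul_le_mul_of_nonneg_left e6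
      (by positivity : (0 : ℝ) ≤ (k : ℝ) * (A + 1) ^ (k - 1))
    rw [e5] at e2
    linarith

theorem Dxb_fin {b m l X Z T L G Xe sck kc C1 C2 C3 C4 C5 Km Cm κ I1 I2 I3 I4 I5 I6 : ℝ}
    (hl : 0 < l) (hl1 : l ≤ 1) (hZ : 0 ≤ Z) (hT : 0 ≤ T) (hL : 0 ≤ L) (hG : 0 ≤ G)
    (hXe : 0 ≤ Xe) (hC1 : 0 ≤ C1) (hC2 : 0 ≤ C2) (hC3 : 0 ≤ C3) (hC4 : 0 ≤ C4) (hC5 : 0 ≤ C5)
    (hKm : 0 ≤ Km) (hb : b ^ 2 ≤ 4 * κ ^ 2 * l ^ 2) (hm : m ^ 2 ≤ 2 * Cm ^ 2 * (L + G))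
    (h1 : -(kc * I1) ≤ C1 * L + C2 * T + 1 / 8 * (l * Z) + C3 * l ^ 2) (h2 : I2 ≤ C4 * T)
    (h3 : b * I3 ≤ T + C5 * b ^ 2) (h4 : -m * I4 ≤ T + Km * m ^ 2)
    (h5 : -l * I5 ≤ T + C5 * l ^ 2) (h6 : I6 ≤ l / 4 * Z + 1 / l * Xe) :
    -b * (1 - sck) * X - l * Z - kc * I1 + I2 + b * I3 - m * I4 - l * I5 + I6 ≤
      -b * (1 - sck) * X +
      (C1 + C2 + C3 + C4 + 3 + 4 * κ ^ 2 * C5 + C5 + 2 * Km * Cm ^ 2 + 1) * (T + L) +
      (C1 + C2 + C3 + C4 + 3 + 4 * κ ^ 2 * C5 + C5 + 2 * Km * Cm ^ 2 + 1) * l ^ 2 +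
      (C1 + C2 + C3 + C4 + 3 + 4 * κ ^ 2 * C5 + C5 + 2 * Km * Cm ^ 2 + 1) * G +
      (C1 + C2 + C3 + C4 + 3 + 4 * κ ^ 2 * C5 + C5 + 2 * Km * Cm ^ 2 + 1) / l * Xe := by
  set C := C1 + C2 + C3 + C4 + 3 + 4 * κ ^ 2 * C5 + C5 + 2 * Km * Cm ^ 2 + 1 with hC
  have a1 : 0 ≤ 4 * κ ^ 2 * C5 := by positivity
  have a2 : 0 ≤ 2 * Km * Cm ^ 2 := by positivity
  have t1 : (C1 + 2 * Km * Cm ^ 2) * L ≤ C * L := mul_le_mul_of_nonneg_right (by linarith) hL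
  have t2 : (C2 + C4 + 3) * T ≤ C * T := mul_le_mul_of_nonneg_right (by linarith) hT
  have t3 : (C3 + 4 * κ ^ 2 * C5 + C5) * l ^ 2 ≤ C * l ^ 2 :=
    mul_le_mul_of_nonneg_right (by linarith) (sq_nonneg l)
  have t4 : (2 * Km * Cm ^ 2) * G ≤ C * G := mul_le_mul_of_nonneg_right (by linarith) hG
  have t5 : 1 / l * Xe ≤ C / l * Xe :=
    mul_le_mul_of_nonneg_right (div_le_div_of_nonneg_right (by linarith) hl.le) hXe
  have t6 : C5 * b ^ 2 ≤ C5 * (4 * κ ^ 2 * l ^ 2) := mul_le_mul_of_nonneg_left hb hC5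
  have t7 : Km * m ^ 2 ≤ Km * (2 * Cm ^ 2 * (L + G)) := mul_le_mul_of_nonneg_left hm hKm
  have t8 : 0 ≤ l * Z := by positivity
  linarith

theorem DX_st (k : ℕ) (hk : 5 ≤ k) (B : ℝ) (hB : 16 ≤ B) : ∃ c C : ℝ, 0 < c ∧ c ≤ 1 ∧ 0 < C ∧
    ∀ γ : ℝ, 0 < γ → γ ≤ 1 / 8 → ∀ ρ : ℝ, Slow B ρ → ∀ l, 0 < l → l ≤ 1 → ∀ (p q : ℝ) (ε e : ℝ → ℝ),
    Adm ρ p q ε → Adm ρ p q e → (∀ y, |ε y| ≤ 1) → ln γ B ε ≤ c → Gn B ρ e ≤ 1 →
    (∀ y, |ε y| ^ (4 * (k - 1)) * (Xn ε) ^ 5 ≤ l ^ 7) →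
    ∀ b m, 0 ≤ b → b ≤ 2 * kap k * l → Orth k b m l ε e →
    ip (deriv ε) (deriv (zeta k b m l ε e)) ≤ -b * (1 - sc k) * Xn ε
      + C * (Tn B ρ ε + ln γ B ε) + C * l ^ 2 + C * Gn B ρ e + C / l * Xn e := by
  have hk1 : 1 ≤ k := by omega
  have hB0 : 0 < B := by linarith
  obtain ⟨c, Cm, hc, hc1, hCm, hBM⟩ := BM_st k hk
  obtain ⟨A, hA, hQ, hQ', hQA⟩ := Dxb_A (k := k) hk1
  have hJ : 0 ≤ ∫ y, bd 1 1 y := integral_nonneg fun y => (bd_pos 1 1 y).le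
  have cL : Cl (3 / 4) (3 / 4) (Lam k (Qf k)) := Cl_LamQ hk1 (by norm_num)
  have cQ1 : Cl (3 / 4) (3 / 4) (deriv (Qf k)) :=
    Cl_mono (Cl_der (Cl_Qf hk1)) (by norm_num) (by norm_num)
  have cQ2 : Cl (3 / 4) (3 / 4) (deriv (deriv (Qf k))) :=
    Cl_mono (Cl_der (Cl_der (Cl_Qf hk1))) (by norm_num) (by norm_num)
  obtain ⟨K3, hK3, hb3⟩ := Cl_bnd cL
  obtain ⟨K4, hK4, hb4⟩ := Cl_bnd cQ1
  obtain ⟨K5, hK5, hb5⟩ := Cl_bnd cQ2
  set D : ℝ := (k : ℝ) * 2 ^ k with hD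
  have hkr : (5 : ℝ) ≤ (k : ℝ) := by exact_mod_cast hk
  have hD1 : 1 ≤ D := by
    have : (1 : ℝ) ≤ 2 ^ k := one_le_pow₀ (by norm_num)
    (first | linarith only [hkr, this] | nlinarith only [hkr, this])
  set C1 : ℝ := (k : ℝ) / 2 * ((A + 1) ^ (k - 1) * A + 2 ^ (k - 2) * A ^ (k - 2)) with hC1
  set C2 : ℝ := (k : ℝ) / 2 * (2 ^ (k - 2) * A ^ (k - 2) * (8 * A ^ 2 * B)) with hC2
  set C3 : ℝ := (k : ℝ) / 2 * (2 ^ (k - 2) * (3 * D)) with hC3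
  set C4 : ℝ := 4 * A * B * ((k : ℝ) * (A + 1) ^ (k - 1)) with hC4
  set C5 : ℝ := B * K3 ^ 2 * (∫ y, bd 1 1 y) + B * K5 ^ 2 * ∫ y, bd 1 1 y with hC5
  set Km : ℝ := B * K4 ^ 2 * ∫ y, bd 1 1 y with hKm
  have p1 : 0 ≤ C1 := by positivity
  have p2 : 0 ≤ C2 := by positivity
  have p3 : 0 ≤ C3 := by positivity
  have p4 : 0 ≤ C4 := by positivity
  have p5 : 0 ≤ C5 := by positivity
  have pm : 0 ≤ Km := by positivity
  refine ⟨c, C1 + C2 + C3 + C4 + 3 + 4 * (kap k) ^ 2 * C5 + C5 + 2 * Km * Cm ^ 2 + 1, hc, hc1,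
    by positivity, ?_⟩
  intro γ hγ hγ' ρ hs l hl hl1 p q ε e hε he hε1 hLc hGe hX b m hb0 hbl ho
  have hp := Dxb_p hs hε
  have hq := hε.2.2.1
  have c0 := hε.2.2.2.2
  have c2 := Cl_der (Cl_der c0)
  have ce := he.2.2.2.2
  have hp1 : p ≤ 1 := by linarith [hε.2.1]
  have hq1 : q ≤ 1 := by linarith [hε.2.2.2.1]
  have hL0 : 0 ≤ ln γ B ε := integral_nonneg fun z => mul_nonneg (loc_pos γ B z).le
    (by positivity)
  have hT0 : 0 ≤ Tn B ρ ε := integral_nonneg fun z => mul_nonneg (om1_pos hs z).le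
    (by positivity)
  have hG0 : 0 ≤ Gn B ρ e := integral_nonneg fun z => mul_nonneg (om_pos B ρ z).le
    (by positivity)
  have hZ0 : 0 ≤ ∫ z, (deriv (deriv ε) z) ^ 2 := integral_nonneg fun z => sq_nonneg _
  have hXe0 : 0 ≤ Xn e := integral_nonneg fun z => sq_nonneg _
  have hbm := (hBM γ hγ hγ' B ρ hs l hl hl1 p q ε e hε he hε1 hLc hGe b m ho).2
  have hm2 : m ^ 2 ≤ 2 * Cm ^ 2 * (ln γ B ε + Gn B ρ e) := by
    have e1 : m ^ 2 ≤ (Cm * (√(ln γ B ε) + √(Gn B ρ e))) ^ 2 := by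
      rw [← sq_abs m]
      exact pow_le_pow_left₀ (abs_nonneg _) hbm 2
    have e2 : (√(ln γ B ε) + √(Gn B ρ e)) ^ 2 ≤ 2 * (ln γ B ε + Gn B ρ e) := by
      have a1 := Real.sq_sqrt hL0
      have a2 := Real.sq_sqrt hG0
      (first | linarith only [sq_nonneg (√(ln γ B ε) - √(Gn B ρ e)), a1, a2] | nlinarith only [sq_nonneg (√(ln γ B ε) - √(Gn B ρ e)), a1, a2])
    rw [mul_pow] at e1
    have e3 := mul_le_mul_of_nonneg_left e2 (sq_nonneg Cm)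
    linarith
  have hb2 : b ^ 2 ≤ 4 * (kap k) ^ 2 * l ^ 2 := by
    have e1 := pow_le_pow_left₀ hb0 hbl 2
    calc b ^ 2 ≤ (2 * kap k * l) ^ 2 := e1
      _ = 4 * (kap k) ^ 2 * l ^ 2 := by ring
  rw [DX_id k hk hp hq hp1 hq1 c0 ce b m l]
  have hI1 := Dxb_I1 hk hs hε hγ hγ' hA hQ hQ' hQA hε1 (hLc.trans hc1) hl hX hD1
  have hI1' : -((k : ℝ) / 2 * ∫ y, (Qf k y + ε y) ^ (k - 1) * (deriv (Qf k) y + deriv ε y) *
      (deriv ε y) ^ 2) ≤ C1 * ln γ B ε + C2 * Tn B ρ ε +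
        1 / 8 * (l * ∫ z, (deriv (deriv ε) z) ^ 2) + C3 * l ^ 2 := by
    have e1 := mul_le_mul_of_nonneg_left hI1 (by positivity : (0 : ℝ) ≤ (k : ℝ) / 2)
    have e2 : (k : ℝ) / 2 * (2 ^ (k - 2) * (1 / D)) = 1 / 8 := by
      have e3 : (2 : ℝ) ^ k = 2 ^ (k - 2) * 4 := by
        have : k = (k - 2) + 2 := by omega
        conv_lhs => rw [this]
        rw [pow_add]
        norm_num
      rw [hD, e3]
      have h2 : (2 : ℝ) ^ (k - 2) ≠ 0 := by positivity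
      have h3 : (k : ℝ) ≠ 0 := by positivity
      field_simp
      norm_num
    have e4 : (k : ℝ) / 2 * (((A + 1) ^ (k - 1) * A + 2 ^ (k - 2) * A ^ (k - 2)) * ln γ B ε +
      (2 ^ (k - 2) * A ^ (k - 2) * (8 * A ^ 2 * B)) * Tn B ρ ε +
      2 ^ (k - 2) * (1 / D * (l * ∫ z, (deriv (deriv ε) z) ^ 2) + 3 * (D * l ^ 2))) =
      C1 * ln γ B ε + C2 * Tn B ρ ε +
        ((k : ℝ) / 2 * (2 ^ (k - 2) * (1 / D))) * (l * ∫ z, (deriv (deriv ε) z) ^ 2) +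
        C3 * l ^ 2 := by
      rw [hC1, hC2, hC3]
      ring
    rw [e4, e2] at e1
    linarith
  have hI2 := Dxb_I2 hk hs hε hγ hA hQ' hQA hε1
  have hI3 := Dxb_lin (k := k) hs hε hγ cL hK3 hb3 b
  have hI4 := Dxb_lin (k := k) hs hε hγ cQ1 hK4 hb4 (-m)
  have hI5 := Dxb_lin (k := k) hs hε hγ cQ2 hK5 hb5 (-l)
  have hI6 : ∫ y, deriv (deriv ε) y * deriv e y ≤
      l / 4 * (∫ z, (deriv (deriv ε) z) ^ 2) + 1 / l * Xn e := by
    have j1 : Integrable (fun y => deriv (deriv ε) y * deriv e y) :=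
      Dxb_i3 hs hε c2 (Cl_der ce)
    have j2 := (Dxb_iS hs hε c2).const_mul (l / 4)
    have j3 := (Dxb_iS hs hε (Cl_der ce)).const_mul (1 / l)
    have h := integral_mono j1 (j2.add j3) (fun y => ?_)
    · have h' : ∫ y, (l / 4 * (deriv (deriv ε) y) ^ 2 + 1 / l * (deriv e y) ^ 2) =
          l / 4 * (∫ z, (deriv (deriv ε) z) ^ 2) + 1 / l * Xn e := by
        rw [integral_add j2 j3, integral_const_mul, integral_const_mul]
        rfl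
      exact h.trans (le_of_eq h')
    · simp only [Pi.add_apply]
      have a1 : 0 ≤ (l * deriv (deriv ε) y - 2 * deriv e y) ^ 2 := sq_nonneg _
      have a2 : l / 4 * (deriv (deriv ε) y) ^ 2 + 1 / l * (deriv e y) ^ 2 -
          deriv (deriv ε) y * deriv e y = (l * deriv (deriv ε) y - 2 * deriv e y) ^ 2 / (4 * l) := by
        field_simp
        ring
      have a3 : 0 ≤ (l * deriv (deriv ε) y - 2 * deriv e y) ^ 2 / (4 * l) := by positivity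
      linarith
  have hsq : 0 ≤ ∫ y, bd 1 1 y := hJ
  refine Dxb_fin (κ := kap k) (Km := Km) (Cm := Cm) (C1 := C1) (C2 := C2) (C3 := C3) (C4 := C4)
    (C5 := C5) hl hl1 hZ0 hT0 hL0 hG0 hXe0 p1 p2 p3 p4 p5 pm hb2 hm2 hI1' hI2 ?_ ?_ ?_ hI6
  · refine hI3.trans ?_
    have a1 : 0 ≤ B * K5 ^ 2 * (∫ y, bd 1 1 y) * b ^ 2 := by positivity
    rw [hC5]
    linarith
  · rw [neg_sq] at hI4
    exact hI4
  · rw [neg_sq] at hI5
    refine hI5.trans ?_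
    have a1 : 0 ≤ B * K3 ^ 2 * (∫ y, bd 1 1 y) * l ^ 2 := by positivity
    rw [hC5]
    linarith

end H98KB
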