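import Pool.Agent.H98.KB.Eie

/-!
# Emb : the source terms, `ε'`, `ε''`, `e'` in the energy (uses the statements of `Eid`, `Wts`, `Nla`)

Local bound used everywhere: for `φ` with `|φ| ≤ C e^{-3|y|/4}` (up to a factor `e^{|y|/32}`):
`∫|ε||φ| ≤ C(∫loc ε²)^{1/2}` since `loc ≥ e^{-3|y|/8}`-ish (`ex_le_loc`: `loc ≥ e^{-|y|/2}`, `φ²/loc ≤ C e^{-|y|}·e^{...}`
integrable) ; constants independent of `B, γ, ρ`.
* `ET2`: by definition of `EE` with `ζ = ΛQ`, `Q''` (no derivative falls on `ε'`), `|D| ≤ C|ε|`, `om ≤ e^{|y|/32}`.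
* `ET3`: `EE_Qd`, `om' ≤ (2/B)e^{|y|/32}`, `|R| ≤ C s|ε|`.
* `ET5`: `EE_d`, `|bF| ≤ Cε²`, `∫om|R||Q'| ≤ C∫ e^{|y|/32}e^{-|y|}ε² ≤ C ln`.
* `ET6`: `EE_dd`; `|om''| ≤ (2/B)om'`; `∫om|D||ε''| ≤ ∫om 2^k(Q^k+s^k)|ε||ε''| ≤ ∫om ε''² + C∫omQ^{2k}ε²+C s^{2k}∫omε²`.
* `ET7`: `EE_g`; `∫om'g² ≤ C Tn`, `om² ≤ om·om'/(2ρ)` (`om1_ge`), `om' ≤ om`, Cauchy-Schwarz.
-/

open MeasureTheory Filter Topology Set
open scoped ContDiff

namespace H98KB

theorem Emb_key : ∃ K : ℝ, 0 < K ∧ ∀ γ : ℝ, 0 < γ → γ ≤ 1 / 8 → ∀ B ρ : ℝ, Slow B ρ →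
    ∀ (p q : ℝ) (ε : ℝ → ℝ), Adm ρ p q ε → ∀ (A : ℝ) (f : ℝ → ℝ), 0 ≤ A →
    (∀ y, |f y| ≤ A * (Real.exp (-(23 / 32 * |y|)) * (|ε y| + |deriv ε y|))) →
    |∫ y, f y| ≤ A * K * √(ln γ B ε) := by
  refine ⟨√(∫ y, bd (15 / 16) (15 / 16) y) * √2 + 1, by positivity, ?_⟩
  intro γ hγ hγ' B ρ hs p q ε hε A f hA hf
  obtain ⟨hp1, -, hq, -, hC⟩ := hε
  have hρ := hs.2.1
  have hp : 0 < p := hρ.trans hp1
  have hB16 := hs.1
  have hB : 0 < B := by linarith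
  have hC' := Cl_der hC
  have h2 : Cl (2 * p) (2 * q) (fun y => ε y ^ 2) := by
    have h := Cl_pow hC 2
    norm_num at h
    exact h
  have h2' : Cl (2 * p) (2 * q) (fun y => deriv ε y ^ 2) := by
    have h := Cl_pow hC' 2
    norm_num at h
    exact h
  have hE := Cl_add h2 h2'
  have hFc : Continuous (fun y => |ε y| + |deriv ε y|) :=
    (Cl_cont hC).abs.add (Cl_cont hC').abs
  have hW : ∀ y, bd (1 / 2) (1 / 2) y ≤ 1 := by
    intro y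
    rw [bd_abs]
    exact Real.exp_le_one_iff.2 (by have := abs_nonneg y; linarith)
  have hsq : ∀ y, (|ε y| + |deriv ε y|) ^ 2 ≤ 2 * (ε y ^ 2 + deriv ε y ^ 2) := by
    intro y
    have h1 := sq_abs (ε y)
    have h3 := sq_abs (deriv ε y)
    nlinarith [sq_nonneg (|ε y| - |deriv ε y|)]
  have hWF : Integrable (fun y => bd (1 / 2) (1 / 2) y * (|ε y| + |deriv ε y|) ^ 2) := by
    obtain ⟨C, hC0, hCb⟩ := Cl_bnd hE
    refine int_of_bd (p := 2 * p) (q := 2 * q) ((bd_cont _ _).mul (hFc.pow 2)) (by linarith)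
      (by linarith) ⟨2 * C, fun y => ?_⟩
    have hb := (bd_pos (1 / 2) (1 / 2) y).le
    rw [abs_of_nonneg (mul_nonneg hb (sq_nonneg _))]
    calc _ ≤ 1 * (2 * (ε y ^ 2 + deriv ε y ^ 2)) :=
          mul_le_mul (hW y) (hsq y) (sq_nonneg _) zero_le_one
      _ ≤ 2 * (C * bd (2 * p) (2 * q) y) := by
          rw [one_mul]
          exact mul_le_mul_of_nonneg_left ((le_abs_self _).trans (hCb y)) (by norm_num)
      _ = _ := by ring
  have hφ2 : ∀ y, bd (23 / 32) (23 / 32) y ^ 2 / bd (1 / 2) (1 / 2) y = bd (15 / 16) (15 / 16) y := by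
    intro y
    have hb := (bd_pos (1 / 2) (1 / 2) y).ne'
    rw [div_eq_iff hb, bd_mul, pow_two, bd_mul]
    norm_num
  have hI : Integrable (fun y => bd (23 / 32) (23 / 32) y ^ 2 / bd (1 / 2) (1 / 2) y) := by
    simp only [hφ2]
    exact bd_int (by norm_num) (by norm_num)
  obtain ⟨hint, hcs⟩ := cs_wt (F := fun y => |ε y| + |deriv ε y|) (φ := bd (23 / 32) (23 / 32))
    (W := bd (1 / 2) (1 / 2)) hFc (bd_cont _ _) (bd_cont _ _) (fun y => bd_pos _ _ y) hWF hI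
  simp only [hφ2] at hcs
  have hln : ∫ y, bd (1 / 2) (1 / 2) y * (|ε y| + |deriv ε y|) ^ 2 ≤ 2 * ln γ B ε := by
    unfold ln
    rw [← integral_const_mul]
    refine integral_mono hWF ?_ fun y => ?_
    · refine Integrable.const_mul ?_ 2
      have h5 := Cl_mul (Cl_mul (Cl_se2 hγ) (Cl_ch hB)) hE
      have hB' : 0 < 2 / B := by positivity
      exact Cl_int h5 (by linarith) (by linarith)
    · show bd (1 / 2) (1 / 2) y * (|ε y| + |deriv ε y|) ^ 2 ≤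
        2 * (loc γ B y * (ε y ^ 2 + deriv ε y ^ 2))
      have h6 : bd (1 / 2) (1 / 2) y ≤ loc γ B y := by
        rw [bd_abs]
        refine le_trans (le_of_eq ?_) (ex_le_loc hγ hγ' hB16 y)
        congr 1
        ring
      calc _ ≤ loc γ B y * (2 * (ε y ^ 2 + deriv ε y ^ 2)) :=
            mul_le_mul h6 (hsq y) (sq_nonneg _) (loc_pos γ B y).le
        _ = _ := by ring
  have h7 : |∫ y, f y| ≤ ∫ y, A * ((|ε y| + |deriv ε y|) * bd (23 / 32) (23 / 32) y) := by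
    rw [← Real.norm_eq_abs]
    refine norm_integral_le_of_norm_le (hint.const_mul A) (Eventually.of_forall fun y => ?_)
    rw [Real.norm_eq_abs]
    refine (hf y).trans (le_of_eq ?_)
    rw [bd_abs]
    ring
  rw [integral_const_mul] at h7
  refine h7.trans ?_
  have h8 : ∫ y, (|ε y| + |deriv ε y|) * bd (23 / 32) (23 / 32) y ≤
      √(∫ y, bd (15 / 16) (15 / 16) y) * √(2 * ln γ B ε) := by
    refine (le_abs_self _).trans (hcs.trans ?_)
    exact mul_le_mul_of_nonneg_left (Real.sqrt_le_sqrt hln) (Real.sqrt_nonneg _)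
  rw [Real.sqrt_mul (by norm_num : (0 : ℝ) ≤ 2)] at h8
  have h9 := Real.sqrt_nonneg (ln γ B ε)
  calc _ ≤ A * (√(∫ y, bd (15 / 16) (15 / 16) y) * (√2 * √(ln γ B ε))) :=
        mul_le_mul_of_nonneg_left h8 hA
    _ ≤ A * (√(∫ y, bd (15 / 16) (15 / 16) y) * (√2 * √(ln γ B ε))) + A * √(ln γ B ε) := by
        have := mul_nonneg hA h9
        linarith
    _ = _ := by ring

theorem Emb_exp (y : ℝ) : Real.exp (|y| / 32) * bd (3 / 4) (3 / 4) y =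
    Real.exp (-(23 / 32 * |y|)) := by
  rw [bd_abs, ← Real.exp_add]
  congr 1
  ring

theorem Emb_D (k : ℕ) (hk : 1 ≤ k) : ∃ C : ℝ, 0 < C ∧ ∀ (ε : ℝ → ℝ) (y : ℝ), |ε y| ≤ 1 →
    |Df k ε y| ≤ C * |ε y| := by
  obtain ⟨M, hM, hQM, -⟩ := Nlb_max hk
  refine ⟨2 ^ k * (M ^ k + 1), by positivity, fun ε y hε => ?_⟩
  refine (D_le k ε y).trans (mul_le_mul_of_nonneg_right ?_ (abs_nonneg _))
  refine mul_le_mul_of_nonneg_left ?_ (by positivity)
  exact add_le_add (pow_le_pow_left₀ (Qf_pos k y).le (hQM y) k)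
    (pow_le_one₀ (abs_nonneg _) hε)

theorem Emb_EE (k : ℕ) (hk : 1 ≤ k) {ζ : ℝ → ℝ} (hζ : Cl (3 / 4) (3 / 4) ζ) : ∃ C : ℝ, 0 < C ∧
    ∀ γ : ℝ, 0 < γ → γ ≤ 1 / 8 →
    ∀ B ρ : ℝ, Slow B ρ → ∀ (p q : ℝ) (ε : ℝ → ℝ), Adm ρ p q ε → (∀ y, |ε y| ≤ 1) →
    |EE k B ρ ε ζ| ≤ C * √(ln γ B ε) := by
  obtain ⟨K, hK, hkey⟩ := Emb_key
  obtain ⟨CD, hCD, hD⟩ := Emb_D k hk
  obtain ⟨C0, hC0, hz0⟩ := Cl_bnd hζ
  obtain ⟨C1, hC1, hz1⟩ := Cl_bnd (Cl_der hζ)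
  refine ⟨((C0 + C1) * (1 + CD)) * K + 1, by positivity, ?_⟩
  intro γ hγ hγ' B ρ hs p q ε hε h1
  have h := hkey γ hγ hγ' B ρ hs p q ε hε ((C0 + C1) * (1 + CD))
    (fun y => om B ρ y * (deriv ε y * deriv ζ y + (ε y - Df k ε y) * ζ y)) (by positivity) ?_
  · unfold EE
    refine h.trans ?_
    have := Real.sqrt_nonneg (ln γ B ε)
    nlinarith
  · intro y
    have ho := om_hi hs y
    have hop := (om_pos B ρ y).le
    have hb := (bd_pos (3 / 4) (3 / 4) y).le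
    have a0 := abs_nonneg (ε y)
    have a1 := abs_nonneg (deriv ε y)
    have hin : |deriv ε y * deriv ζ y + (ε y - Df k ε y) * ζ y| ≤
        (C0 + C1) * (1 + CD) * (bd (3 / 4) (3 / 4) y * (|ε y| + |deriv ε y|)) := by
      have e1 : |deriv ε y * deriv ζ y| ≤ |deriv ε y| * (C1 * bd (3 / 4) (3 / 4) y) := by
        rw [abs_mul]
        exact mul_le_mul_of_nonneg_left (hz1 y) a1
      have e2 : |(ε y - Df k ε y) * ζ y| ≤ ((1 + CD) * |ε y|) * (C0 * bd (3 / 4) (3 / 4) y) := by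
        rw [abs_mul]
        refine mul_le_mul ?_ (hz0 y) (abs_nonneg _) (by positivity)
        have e3 := hD ε y (h1 y)
        have e4 := abs_sub (ε y) (Df k ε y)
        linarith
      refine (abs_add_le _ _).trans ((add_le_add e1 e2).trans ?_)
      have n1 : 0 ≤ CD * C1 * |deriv ε y| * bd (3 / 4) (3 / 4) y := by positivity
      have n2 : 0 ≤ C0 * |deriv ε y| * bd (3 / 4) (3 / 4) y * (1 + CD) := by positivity
      have n3 : 0 ≤ C1 * |ε y| * bd (3 / 4) (3 / 4) y * (1 + CD) := by positivity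
      nlinarith
    show |om B ρ y * (deriv ε y * deriv ζ y + (ε y - Df k ε y) * ζ y)| ≤ _
    rw [abs_mul, abs_of_nonneg hop]
    refine (mul_le_mul ho hin (abs_nonneg _) (Real.exp_pos _).le).trans (le_of_eq ?_)
    rw [← Emb_exp y]
    ring

theorem ET2 (k : ℕ) (hk : 5 ≤ k) : ∃ C : ℝ, 0 < C ∧ ∀ γ : ℝ, 0 < γ → γ ≤ 1 / 8 →
    ∀ B ρ : ℝ, Slow B ρ → ∀ (p q : ℝ) (ε : ℝ → ℝ), Adm ρ p q ε → (∀ y, |ε y| ≤ 1) →
    |EE k B ρ ε (Lam k (Qf k))| ≤ C * √(ln γ B ε) ∧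
    |EE k B ρ ε (deriv (deriv (Qf k)))| ≤ C * √(ln γ B ε) := by
  have hk1 : 1 ≤ k := by omega
  obtain ⟨C1, hC1, h1⟩ := Emb_EE k hk1 (Cl_LamQ hk1 (c := 3 / 4) (by norm_num))
  obtain ⟨C2, hC2, h2⟩ := Emb_EE k hk1 (ζ := deriv (deriv (Qf k)))
    (Cl_mono (Cl_der (Cl_der (Cl_Qf hk1))) (by norm_num) (by norm_num))
  refine ⟨C1 + C2, by positivity, ?_⟩
  intro γ hγ hγ' B ρ hs p q ε hε hb
  have e1 := h1 γ hγ hγ' B ρ hs p q ε hε hb
  have e2 := h2 γ hγ hγ' B ρ hs p q ε hε hb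
  have := Real.sqrt_nonneg (ln γ B ε)
  constructor
  · nlinarith
  · nlinarith

theorem ET3 (k : ℕ) (hk : 5 ≤ k) : ∃ C : ℝ, 0 < C ∧ ∀ γ : ℝ, 0 < γ → γ ≤ 1 / 8 →
    ∀ B ρ : ℝ, Slow B ρ → ∀ (p q s : ℝ) (ε : ℝ → ℝ), Adm ρ p q ε → s ≤ 1 → (∀ y, |ε y| ≤ s) →
    |EE k B ρ ε (deriv (Qf k))| ≤ C * (1 / B + s) * √(ln γ B ε) := by
  have hk1 : 1 ≤ k := by omega
  obtain ⟨K, hK, hkey⟩ := Emb_key
  obtain ⟨CR, hCR, hR⟩ := R_le k (by omega)
  have hQ1 : Cl (3 / 4) (3 / 4) (deriv (Qf k)) :=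
    Cl_mono (Cl_der (Cl_Qf hk1)) (by norm_num) (by norm_num)
  obtain ⟨C1, hC1, hz1⟩ := Cl_bnd hQ1
  obtain ⟨C2, hC2, hz2⟩ := Cl_bnd (Cl_der hQ1)
  refine ⟨2 * C2 * K + CR * C1 * K + 1, by positivity, ?_⟩
  intro γ hγ hγ' B ρ hs p q s ε hε hs1 hb
  have hB16 := hs.1
  have hB : 0 < B := by linarith
  have hs0 : 0 ≤ s := (abs_nonneg _).trans (hb 0)
  rw [EE_Qd hk1 hs hε]
  have h1 := hkey γ hγ hγ' B ρ hs p q ε hε (2 / B * C2)
    (fun y => deriv (om B ρ) y * (ε y * deriv (deriv (Qf k)) y)) (by positivity) (by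
      intro y
      have ho := om1_hi hs y
      have hop := (om1_pos hs y).le
      have a1 := abs_nonneg (deriv ε y)
      show |deriv (om B ρ) y * (ε y * deriv (deriv (Qf k)) y)| ≤ _
      rw [abs_mul, abs_of_nonneg hop, abs_mul]
      have e1 : |ε y| * |deriv (deriv (Qf k)) y| ≤
          (|ε y| + |deriv ε y|) * (C2 * bd (3 / 4) (3 / 4) y) :=
        mul_le_mul (by linarith) (hz2 y) (abs_nonneg _) (by positivity)
      refine (mul_le_mul ho e1 (by positivity) (by positivity)).trans (le_of_eq ?_)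
      rw [← Emb_exp y]
      ring)
  have h2 := hkey γ hγ hγ' B ρ hs p q ε hε (CR * s * C1)
    (fun y => om B ρ y * (Rf k ε y * deriv (Qf k) y)) (by positivity) (by
      intro y
      have ho := om_hi hs y
      have hop := (om_pos B ρ y).le
      have a0 := abs_nonneg (ε y)
      have a1 := abs_nonneg (deriv ε y)
      show |om B ρ y * (Rf k ε y * deriv (Qf k) y)| ≤ _
      rw [abs_mul, abs_of_nonneg hop, abs_mul]
      have e0 : |Rf k ε y| ≤ CR * s * (|ε y| + |deriv ε y|) := by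
        refine (hR ε y ((hb y).trans hs1)).trans ?_
        rw [mul_assoc]
        refine mul_le_mul_of_nonneg_left ?_ hCR.le
        rw [← sq_abs, pow_two]
        exact mul_le_mul (hb y) (by linarith) a0 hs0
      have e1 : |Rf k ε y| * |deriv (Qf k) y| ≤
          (CR * s * (|ε y| + |deriv ε y|)) * (C1 * bd (3 / 4) (3 / 4) y) :=
        mul_le_mul e0 (hz1 y) (abs_nonneg _) (by positivity)
      refine (mul_le_mul ho e1 (by positivity) (by positivity)).trans (le_of_eq ?_)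
      rw [← Emb_exp y]
      ring)
  have h3 := Real.sqrt_nonneg (ln γ B ε)
  have hB' : 0 < 1 / B := by positivity
  have h4 : |-(∫ y, deriv (om B ρ) y * (ε y * deriv (deriv (Qf k)) y)) -
      ∫ y, om B ρ y * (Rf k ε y * deriv (Qf k) y)| ≤
      2 / B * C2 * K * √(ln γ B ε) + CR * s * C1 * K * √(ln γ B ε) := by
    refine (abs_sub _ _).trans ?_
    rw [abs_neg]
    exact add_le_add h1 h2
  refine h4.trans ?_
  have e : 2 / B = 2 * (1 / B) := by ring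
  rw [e]
  have n1 : 0 ≤ 2 * C2 * K * s * √(ln γ B ε) := by positivity
  have n2 : 0 ≤ CR * C1 * K * (1 / B) * √(ln γ B ε) := by positivity
  have n3 : 0 ≤ (1 / B + s) * √(ln γ B ε) := by positivity
  nlinarith

end H98KB
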