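import Pool.Agent.H98.KB.Eie

/-!
# Emd (second half of Emb) : the source terms, `ε'`, `ε''`, `e'` in the energy (uses the statements of `Eid`, `Wts`, `Nla`)

Local bound used everywhere: for `φ` with `|φ| ≤ C e^{-3|y|/4}` (up to a factor `e^{|y|/32}`):
`∫|ε||φ| ≤ C(∫loc ε²)^{1/2}` since `loc ≥ e^{-3|y|/8}`-ish (`ex_le_loc`: `loc ≥ e^{-|y|/2}`, `φ²/loc ≤ C e^{-|y|}·e^{...}`
integrable) ; constants independent of `B, γ, ρ`.
* `ET2`: by definition of `EE` with `ζ = ΛQ`, `Q''` (no derivative falls on `ε'`), `|D| ≤ C|ε|`, `om ≤ e^{|y|/32}`.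
* `ET3`: `EE_Qd`, `om' ≤ (2/B)e^{|y|/32}`, `|R| ≤ C s|ε|`.
* `ET5`: `EE_d`, `|bF| ≤ Cε²`, `∫om|R||Q'| ≤ C∫ e^{|y|/32}e^{-|y|}ε² ≤ C ln`.
* `ET6`: `EE_dd`; `|om''| ≤ (2/B)om'`; `∫om|D||ε''| ≤ ∫om 2^k(Q^k+s^k)|ε||ε''| ≤ ∫om ε''² + C∫omQ^{2k}ε²+C s^{2k}∫omε²`.
* `ET7`: `EE_g`; `∫om'g² ≤ C Tn`, `om² ≤ om·om'/(2ρ)` (`om1_ge`), `om' ≤ om`, Cauchy-Schwarz.
-/

open MeasureTheory Filter Topology Set
open scoped ContDiff

namespace H98KB

theorem Emd_sq {p q : ℝ} {f g : ℝ → ℝ} (hf : Cl p q f) (hg : Cl p q g) :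
    Cl (2 * p) (2 * q) (fun y => f y * g y) :=
  Cl_mono (Cl_mul hf hg) (by linarith) (by linarith)

theorem Emd_sq' {p q : ℝ} {f : ℝ → ℝ} (hf : Cl p q f) :
    Cl (2 * p) (2 * q) (fun y => f y ^ 2) := by
  have h := Emd_sq hf hf
  have e : (fun y => f y ^ 2) = fun y => f y * f y := by funext y; ring
  rw [e]; exact h

theorem Emd_int {B ρ p q γ : ℝ} {ε F : ℝ → ℝ} (hs : Slow B ρ) (hε : Adm ρ p q ε) (hγ : 0 < γ)
    (hF : Cl (2 * p) (2 * q) F) :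
    Integrable (fun y => om B ρ y * F y) ∧ Integrable (fun y => deriv (om B ρ) y * F y) ∧
      Integrable (fun y => deriv (deriv (om B ρ)) y * F y) ∧
      Integrable (fun y => loc γ B y * F y) := by
  obtain ⟨h1, h2, h3⟩ := hs
  obtain ⟨a1, a2, a3, a4, a5⟩ := hε
  have hB : 0 < B := by linarith
  have hBi : 0 < 1 / B := by positivity
  have c0 := Cl_om hB ρ
  have c1 := Cl_der c0
  have c2 := Cl_der c1
  have cl : Cl (2 * γ + 2 / B) (2 * γ + 2 / B) (loc γ B) := Cl_mul (Cl_se2 hγ) (Cl_ch hB)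
  have hB2 : 0 < 2 / B := by positivity
  exact ⟨Cl_int (Cl_mul c0 hF) (by linarith) (by linarith),
    Cl_int (Cl_mul c1 hF) (by linarith) (by linarith),
    Cl_int (Cl_mul c2 hF) (by linarith) (by linarith),
    Cl_int (Cl_mul cl hF) (by linarith) (by linarith)⟩

theorem Emd_omQ (k : ℕ) (hk : 1 ≤ k) : ∃ C : ℝ, 0 < C ∧ ∀ γ : ℝ, 0 < γ → γ ≤ 1 / 8 →
    ∀ B ρ : ℝ, Slow B ρ → ∀ y, om B ρ y * Qf k y ≤ C * loc γ B y := by
  obtain ⟨C, hC, hQ⟩ := Qf_hi hk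
  refine ⟨C, hC, fun γ hγ hγ' B ρ hs y => ?_⟩
  have h1 := om_hi hs y
  have h2 := ex_le_loc hγ hγ' hs.1 y
  have h3 : om B ρ y * Qf k y ≤ Real.exp (|y| / 32) * (C * Real.exp (-|y|)) :=
    mul_le_mul h1 (hQ y) (Qf_pos k y).le (Real.exp_pos _).le
  have h4 : Real.exp (|y| / 32) * (C * Real.exp (-|y|)) = C * Real.exp (|y| / 32 + -|y|) := by
    rw [Real.exp_add]; ring
  have h5 : Real.exp (|y| / 32 + -|y|) ≤ Real.exp (-(|y| / 2)) :=
    Real.exp_le_exp.2 (by linarith [abs_nonneg y])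
  calc _ ≤ _ := h3
    _ = _ := h4
    _ ≤ C * Real.exp (-(|y| / 2)) := mul_le_mul_of_nonneg_left h5 hC.le
    _ ≤ _ := mul_le_mul_of_nonneg_left h2 hC.le

theorem Emd_Tn {B ρ p q : ℝ} {ε : ℝ → ℝ} (hs : Slow B ρ) (hε : Adm ρ p q ε) :
    (∫ y, deriv (om B ρ) y * ((deriv ε y) ^ 2 + (ε y) ^ 2)) ≤ Tn B ρ ε ∧
    (∫ y, deriv (om B ρ) y * (ε y) ^ 2) ≤ Tn B ρ ε ∧
    0 ≤ ∫ y, deriv (om B ρ) y * ((deriv ε y) ^ 2 + (ε y) ^ 2) := by
  have c := hε.2.2.2.2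
  have s0 := Emd_sq' c
  have s1 := Emd_sq' (Cl_der c)
  have s2 := Emd_sq' (Cl_der (Cl_der c))
  have i0 := (Emd_int hs hε (γ := 1) one_pos s0).2.1
  have i1 := (Emd_int hs hε (γ := 1) one_pos (Cl_add s1 s0)).2.1
  have i2 := (Emd_int hs hε (γ := 1) one_pos (Cl_add (Cl_add s0 s1) s2)).2.1
  refine ⟨integral_mono i1 i2 fun y => ?_, integral_mono i0 i2 fun y => ?_,
    integral_nonneg fun y => ?_⟩
  · refine mul_le_mul_of_nonneg_left ?_ (om1_pos hs y).le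
    nlinarith [sq_nonneg (deriv (deriv ε) y)]
  · refine mul_le_mul_of_nonneg_left ?_ (om1_pos hs y).le
    nlinarith [sq_nonneg (deriv (deriv ε) y), sq_nonneg (deriv ε y)]
  · exact mul_nonneg (om1_pos hs y).le (by positivity)

theorem Emd_ln {γ B ρ p q : ℝ} {ε : ℝ → ℝ} (hγ : 0 < γ) (hs : Slow B ρ) (hε : Adm ρ p q ε) :
    (∫ y, loc γ B y * (ε y) ^ 2) ≤ ln γ B ε := by
  have c := hε.2.2.2.2
  have s0 := Emd_sq' c
  have s1 := Emd_sq' (Cl_der c)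
  refine integral_mono (Emd_int hs hε hγ s0).2.2.2 (Emd_int hs hε hγ (Cl_add s0 s1)).2.2.2
    fun y => ?_
  refine mul_le_mul_of_nonneg_left ?_ (loc_pos γ B y).le
  nlinarith [sq_nonneg (deriv ε y)]

theorem Emd_Gn {B ρ p q : ℝ} {ε : ℝ → ℝ} (hs : Slow B ρ) (hε : Adm ρ p q ε) :
    (∫ y, om B ρ y * (ε y) ^ 2) ≤ Gn B ρ ε := by
  have c := hε.2.2.2.2
  have s0 := Emd_sq' c
  have s1 := Emd_sq' (Cl_der c)
  refine integral_mono (Emd_int hs hε (γ := 1) one_pos s0).1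
    (Emd_int hs hε (γ := 1) one_pos (Cl_add s0 s1)).1 fun y => ?_
  refine mul_le_mul_of_nonneg_left ?_ (om_pos B ρ y).le
  nlinarith [sq_nonneg (deriv ε y)]

theorem Emd_Qd (k : ℕ) (hk : 1 ≤ k) (y : ℝ) : |deriv (Qf k) y| ≤ Qf k y := by
  rw [Qf_deriv hk, abs_mul, abs_neg, abs_of_pos (Qf_pos k y)]
  nlinarith [th_abs_lt k y, Qf_pos k y]

theorem ET5 (k : ℕ) (hk : 5 ≤ k) : ∃ C : ℝ, 0 < C ∧ ∀ γ : ℝ, 0 < γ → γ ≤ 1 / 8 →
    ∀ B ρ : ℝ, Slow B ρ → ∀ (p q : ℝ) (ε : ℝ → ℝ), Adm ρ p q ε → (∀ y, |ε y| ≤ 1) →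
    |EE k B ρ ε (deriv ε)| ≤ C * (Tn B ρ ε + ln γ B ε) := by
  have hk1 : 1 ≤ k := by omega
  obtain ⟨C1, hC1, hQ1⟩ := Emd_omQ k hk1
  obtain ⟨C2, hC2, hb⟩ := bF_le k (by omega)
  obtain ⟨C3, hC3, hR⟩ := R_le k (by omega)
  obtain ⟨M, hM, hQM, -⟩ := Nlb_max (k := k) hk1
  refine ⟨1 + C2 * (M ^ k + 1) + C3 * C1, by positivity, fun γ hγ hγ' B ρ hs p q ε hε hb1 => ?_⟩
  have c := hε.2.2.2.2
  have s0 := Emd_sq' c
  obtain ⟨a1, a2, a3, a4, -⟩ := hε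
  have hε : Adm ρ p q ε := ⟨a1, a2, a3, a4, c⟩
  have a5 : 0 < p := by linarith [hs.2.1]
  obtain ⟨T1, T2, T3⟩ := Emd_Tn hs hε
  have L1 := Emd_ln hγ hs hε
  rw [EE_d hk1 hs hε]
  -- the term with `bF`
  have cb : Cl (2 * p) (2 * q) (bF k ε) := Cl_bF hk1 a5.le a3.le (by linarith) (by linarith) c
  have ib := (Emd_int hs hε hγ cb).2.1
  have i0 := (Emd_int hs hε hγ s0).2.1
  have hbF : |∫ y, deriv (om B ρ) y * bF k ε y| ≤ C2 * (M ^ k + 1) * Tn B ρ ε := by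
    have h1 : |∫ y, deriv (om B ρ) y * bF k ε y| ≤
        ∫ y, C2 * (M ^ k + 1) * (deriv (om B ρ) y * (ε y) ^ 2) := by
      rw [← Real.norm_eq_abs]
      refine norm_integral_le_of_norm_le (i0.const_mul _) (Eventually.of_forall fun y => ?_)
      rw [Real.norm_eq_abs, abs_mul, abs_of_pos (om1_pos hs y)]
      have h2 : |bF k ε y| ≤ C2 * (M ^ k + 1) * (ε y) ^ 2 := by
        refine (hb ε y).trans ?_
        have h3 : Qf k y ^ k ≤ M ^ k := pow_le_pow_left₀ (Qf_pos k y).le (hQM y) k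
        have h4 : |ε y| ^ k ≤ 1 := pow_le_one₀ (abs_nonneg _) (hb1 y)
        refine mul_le_mul_of_nonneg_right ?_ (sq_nonneg _)
        exact mul_le_mul_of_nonneg_left (by linarith) hC2.le
      calc _ ≤ deriv (om B ρ) y * (C2 * (M ^ k + 1) * (ε y) ^ 2) :=
            mul_le_mul_of_nonneg_left h2 (om1_pos hs y).le
        _ = _ := by ring
    rw [integral_const_mul] at h1
    exact h1.trans (mul_le_mul_of_nonneg_left T2 (by positivity))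
  -- the term with `R Q'`
  have il := (Emd_int hs hε hγ s0).2.2.2
  have hRQ : |∫ y, om B ρ y * (Rf k ε y * deriv (Qf k) y)| ≤ C3 * C1 * ln γ B ε := by
    have h1 : |∫ y, om B ρ y * (Rf k ε y * deriv (Qf k) y)| ≤
        ∫ y, C3 * C1 * (loc γ B y * (ε y) ^ 2) := by
      rw [← Real.norm_eq_abs]
      refine norm_integral_le_of_norm_le (il.const_mul _) (Eventually.of_forall fun y => ?_)
      rw [Real.norm_eq_abs, abs_mul, abs_mul, abs_of_pos (om_pos B ρ y)]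
      have h2 := hR ε y (hb1 y)
      have h3 := Emd_Qd k hk1 y
      have h4 := hQ1 γ hγ hγ' B ρ hs y
      have h5 : |Rf k ε y| * |deriv (Qf k) y| ≤ (C3 * (ε y) ^ 2) * Qf k y :=
        mul_le_mul h2 h3 (abs_nonneg _) (by positivity)
      calc om B ρ y * (|Rf k ε y| * |deriv (Qf k) y|)
          ≤ om B ρ y * ((C3 * (ε y) ^ 2) * Qf k y) :=
            mul_le_mul_of_nonneg_left h5 (om_pos B ρ y).le
        _ = (C3 * (ε y) ^ 2) * (om B ρ y * Qf k y) := by ring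
        _ ≤ (C3 * (ε y) ^ 2) * (C1 * loc γ B y) :=
            mul_le_mul_of_nonneg_left h4 (by positivity)
        _ = _ := by ring
    rw [integral_const_mul] at h1
    exact h1.trans (mul_le_mul_of_nonneg_left L1 (by positivity))
  have hTn : 0 ≤ Tn B ρ ε := T3.trans T1
  have hln : 0 ≤ ln γ B ε :=
    (integral_nonneg fun y => mul_nonneg (loc_pos γ B y).le (sq_nonneg _)).trans L1
  have f1 : |(-(1 / 2) * (∫ y, deriv (om B ρ) y * ((deriv ε y) ^ 2 + (ε y) ^ 2)))| ≤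
      1 * Tn B ρ ε := by
    rw [abs_mul, abs_of_nonneg T3, abs_neg, abs_of_pos (by norm_num : (0 : ℝ) < 1 / 2)]
    linarith
  refine (abs_add_le _ _).trans ((add_le_add (abs_add_le _ _) le_rfl).trans ?_)
  have g1 : 0 ≤ C2 * (M ^ k + 1) * ln γ B ε := by positivity
  have g2 : 0 ≤ C3 * C1 * Tn B ρ ε := by positivity
  (first | linarith only [f1, g1, g2, hRQ, hbF, hln] | nlinarith only [f1, g1, g2, hRQ, hbF, hln])

theorem ET6 (k : ℕ) (hk : 5 ≤ k) : ∃ C : ℝ, 0 < C ∧ ∀ γ : ℝ, 0 < γ → γ ≤ 1 / 8 →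
    ∀ B ρ : ℝ, Slow B ρ → ∀ (p q s : ℝ) (ε : ℝ → ℝ), Adm ρ p q ε → s ≤ 1 → (∀ y, |ε y| ≤ s) →
    EE k B ρ ε (deriv (deriv ε)) ≤ C * (Tn B ρ ε + ln γ B ε) + C * s * Gn B ρ ε := by
  have hk1 : 1 ≤ k := by omega
  obtain ⟨C1, hC1, hQ1⟩ := Emd_omQ k hk1
  obtain ⟨M, hM, hQM, -⟩ := Nlb_max (k := k) hk1
  refine ⟨1 + (2 ^ k) ^ 2 * (M ^ (2 * k) * C1) + (2 ^ k) ^ 2, by positivity,
    fun γ hγ hγ' B ρ hs p q s ε hε hs1 hb1 => ?_⟩
  have c := hε.2.2.2.2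
  have s0 := Emd_sq' c
  have s1 := Emd_sq' (Cl_der c)
  have s2 := Emd_sq' (Cl_der (Cl_der c))
  obtain ⟨a1, a2, a3, a4, -⟩ := hε
  have hε : Adm ρ p q ε := ⟨a1, a2, a3, a4, c⟩
  have a5 : 0 < p := by linarith [hs.2.1]
  have hsn : 0 ≤ s := (abs_nonneg _).trans (hb1 0)
  obtain ⟨T1, T2, T3⟩ := Emd_Tn hs hε
  have L1 := Emd_ln hγ hs hε
  have G1 := Emd_Gn hs hε
  rw [EE_dd hk1 hs hε]
  have hB : 0 < B := by linarith [hs.1]
  have hTn : 0 ≤ Tn B ρ ε := T3.trans T1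
  have hln : 0 ≤ ln γ B ε :=
    (integral_nonneg fun y => mul_nonneg (loc_pos γ B y).le (sq_nonneg _)).trans L1
  have hGn : 0 ≤ Gn B ρ ε :=
    (integral_nonneg fun y => mul_nonneg (om_pos B ρ y).le (sq_nonneg _)).trans G1
  -- second derivative of the weight
  have h2 : (∫ y, deriv (deriv (om B ρ)) y * ((deriv ε y) ^ 2 + (ε y) ^ 2)) ≤ Tn B ρ ε := by
    have j1 := (Emd_int hs hε hγ (Cl_add s1 s0)).2.2.1
    have j2 := (Emd_int hs hε hγ (Cl_add s1 s0)).2.1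
    refine (integral_mono j1 j2 fun y => ?_).trans T1
    refine mul_le_mul_of_nonneg_right ?_ (by positivity)
    refine (le_abs_self _).trans ((om2_le hs y).trans ?_)
    have h3 : 2 / B ≤ 1 := by rw [div_le_one hB]; linarith [hs.1]
    (first | linarith only [om1_pos hs y, h3, hs, hγ, hγ'] | nlinarith only [om1_pos hs y, h3, hs, hγ, hγ'])
  have h3 : 0 ≤ ∫ y, om B ρ y * (deriv ε y) ^ 2 :=
    integral_nonneg fun y => mul_nonneg (om_pos B ρ y).le (sq_nonneg _)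
  -- the nonlinear term
  have cD : Cl p q (Df k ε) := Cl_Df hk1 a5.le a3.le c
  have iD := (Emd_int hs hε hγ (Emd_sq cD (Cl_der (Cl_der c)))).1
  have i2 := (Emd_int hs hε hγ s2).1
  have i0 := (Emd_int hs hε hγ s0).1
  have il := (Emd_int hs hε hγ s0).2.2.2
  have h4 : -(∫ y, om B ρ y * (Df k ε y * deriv (deriv ε) y)) ≤
      (∫ y, om B ρ y * (deriv (deriv ε) y) ^ 2)
      + ((2 ^ k) ^ 2 * (M ^ (2 * k) * C1) * (∫ y, loc γ B y * (ε y) ^ 2)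
      + (2 ^ k) ^ 2 * s * ∫ y, om B ρ y * (ε y) ^ 2) := by
    have j3 : Integrable (fun y => (2 ^ k) ^ 2 * (M ^ (2 * k) * C1) * (loc γ B y * (ε y) ^ 2)
        + (2 ^ k) ^ 2 * s * (om B ρ y * (ε y) ^ 2)) := (il.const_mul _).add (i0.const_mul _)
    rw [← integral_neg, ← integral_const_mul, ← integral_const_mul,
      ← integral_add (il.const_mul _) (i0.const_mul _), ← integral_add i2 j3]
    refine integral_mono iD.neg (i2.add j3) fun y => ?_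
    have g1 := D_le k ε y
    have g2 := hQ1 γ hγ hγ' B ρ hs y
    have g3 := om_pos B ρ y
    have hQp := Qf_pos k y
    -- `D² ≤ 2 · 4^k (Q^{2k} + s) ε²`
    have g4 : |ε y| ^ k ≤ 1 := pow_le_one₀ (abs_nonneg _) ((hb1 y).trans hs1)
    have g5 : |ε y| ^ k ≤ s := by
      have : |ε y| ^ k ≤ |ε y| ^ 1 :=
        pow_le_pow_of_le_one (abs_nonneg _) ((hb1 y).trans hs1) hk1
      rw [pow_one] at this
      exact this.trans (hb1 y)
    have g6 : (|ε y| ^ k) ^ 2 ≤ s := by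
      have h0 : 0 ≤ |ε y| ^ k := by positivity
      (first | linarith only [g4, g5, h0, hγ, hγ'] | nlinarith only [g4, g5, h0, hγ, hγ'])
    have g7 : (Qf k y ^ k) ^ 2 ≤ M ^ (2 * k) * Qf k y := by
      have e1 : (Qf k y ^ k) ^ 2 = Qf k y ^ (2 * k - 1) * Qf k y := by
        rw [← pow_mul, ← pow_succ]; congr 1; omega
      have e2 : Qf k y ^ (2 * k - 1) ≤ M ^ (2 * k - 1) := pow_le_pow_left₀ hQp.le (hQM y) _
      have e3 : M ^ (2 * k - 1) ≤ M ^ (2 * k) := pow_le_pow_right₀ hM (by omega)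
      rw [e1]
      exact mul_le_mul_of_nonneg_right (e2.trans e3) hQp.le
    have g8 : (Df k ε y) ^ 2 ≤ 2 * ((2 ^ k) ^ 2 * (M ^ (2 * k) * Qf k y + s) * (ε y) ^ 2) := by
      have e1 := pow_le_pow_left₀ (abs_nonneg _) g1 2
      rw [sq_abs] at e1
      have e2 : (2 ^ k * (Qf k y ^ k + |ε y| ^ k) * |ε y|) ^ 2 =
          (2 ^ k) ^ 2 * (Qf k y ^ k + |ε y| ^ k) ^ 2 * (ε y) ^ 2 := by
        rw [mul_pow, mul_pow, sq_abs]
      rw [e2] at e1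
      refine e1.trans ?_
      have e3 : (Qf k y ^ k + |ε y| ^ k) ^ 2 ≤ 2 * (M ^ (2 * k) * Qf k y + s) := by
        (first | linarith only [sq_nonneg (Qf k y ^ k - |ε y| ^ k), g6, g7] | nlinarith only [sq_nonneg (Qf k y ^ k - |ε y| ^ k), g6, g7])
      calc (2 ^ k) ^ 2 * (Qf k y ^ k + |ε y| ^ k) ^ 2 * (ε y) ^ 2
          ≤ (2 ^ k) ^ 2 * (2 * (M ^ (2 * k) * Qf k y + s)) * (ε y) ^ 2 := by gcongr
        _ = _ := by ring
    have g9 : -(Df k ε y * deriv (deriv ε) y) ≤ (deriv (deriv ε) y) ^ 2 + 1 / 2 * (Df k ε y) ^ 2 := by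
      (first | linarith only [sq_nonneg (Df k ε y + deriv (deriv ε) y), sq_nonneg (deriv (deriv ε) y)] | nlinarith only [sq_nonneg (Df k ε y + deriv (deriv ε) y), sq_nonneg (deriv (deriv ε) y)])
    have g10 : -(Df k ε y * deriv (deriv ε) y) ≤ (deriv (deriv ε) y) ^ 2 +
        (2 ^ k) ^ 2 * (M ^ (2 * k) * Qf k y + s) * (ε y) ^ 2 := by linarith
    have g11 := mul_le_mul_of_nonneg_left g10 g3.le
    have g12 : (2 ^ k) ^ 2 * M ^ (2 * k) * (ε y) ^ 2 * (om B ρ y * Qf k y) ≤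
        (2 ^ k) ^ 2 * M ^ (2 * k) * (ε y) ^ 2 * (C1 * loc γ B y) :=
      mul_le_mul_of_nonneg_left g2 (by positivity)
    simp only [Pi.add_apply]
    calc -(om B ρ y * (Df k ε y * deriv (deriv ε) y))
        = om B ρ y * (-(Df k ε y * deriv (deriv ε) y)) := by ring
      _ ≤ _ := g11
      _ = om B ρ y * (deriv (deriv ε) y) ^ 2 +
          ((2 ^ k) ^ 2 * M ^ (2 * k) * (ε y) ^ 2 * (om B ρ y * Qf k y)
          + (2 ^ k) ^ 2 * s * (om B ρ y * (ε y) ^ 2)) := by ring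
      _ ≤ om B ρ y * (deriv (deriv ε) y) ^ 2 +
          ((2 ^ k) ^ 2 * M ^ (2 * k) * (ε y) ^ 2 * (C1 * loc γ B y)
          + (2 ^ k) ^ 2 * s * (om B ρ y * (ε y) ^ 2)) := by linarith
      _ = _ := by ring
  have h5 : (2 ^ k) ^ 2 * (M ^ (2 * k) * C1) * (∫ y, loc γ B y * (ε y) ^ 2) ≤
      (2 ^ k) ^ 2 * (M ^ (2 * k) * C1) * ln γ B ε :=
    mul_le_mul_of_nonneg_left L1 (by positivity)
  have h6 : (2 ^ k) ^ 2 * s * (∫ y, om B ρ y * (ε y) ^ 2) ≤ (2 ^ k) ^ 2 * s * Gn B ρ ε :=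
    mul_le_mul_of_nonneg_left G1 (by positivity)
  have k1 : 0 ≤ (2 ^ k) ^ 2 * (M ^ (2 * k) * C1) * Tn B ρ ε := by positivity
  have k2 : 0 ≤ (2 ^ k) ^ 2 * (M ^ (2 * k) * C1) * (s * Gn B ρ ε) := by positivity
  have k3 : 0 ≤ ((2 : ℝ) ^ k) ^ 2 * (Tn B ρ ε + ln γ B ε) := by positivity
  have k4 : 0 ≤ s * Gn B ρ ε := by positivity
  (first | linarith only [T1, T3, h2, h3, h4, h5, h6, hln, k1, k2, k3, k4] | nlinarith only [T1, T3, h2, h3, h4, h5, h6, hln, k1, k2, k3, k4])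

end H98KB
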