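import Pool.Agent.H98.KB.Eie

/-!
# Eme (second half of Emb) : the source terms, `ε'`, `ε''`, `e'` in the energy (uses the statements of `Eid`, `Wts`, `Nla`)

Local bound used everywhere: for `φ` with `|φ| ≤ C e^{-3|y|/4}` (up to a factor `e^{|y|/32}`):
`∫|ε||φ| ≤ C(∫loc ε²)^{1/2}` since `loc ≥ e^{-3|y|/8}`-ish (`ex_le_loc`: `loc ≥ e^{-|y|/2}`, `φ²/loc ≤ C e^{-|y|}·e^{...}`
integrable) ; constants independent of `B, γ, ρ`.
* `ET2`: by definition of `EE` with `ζ = ΛQ`, `Q''` (no derivative falls on `ε'`), `|D| ≤ C|ε|`, `om ≤ e^{|y|/32}`.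
* `ET3`: `EE_Qd`, `om' ≤ (2/B)e^{|y|/32}`, `|R| ≤ C s|ε|`.
* `ET5`: `EE_d`, `|bF| ≤ Cε²`, `∫om|R||Q'| ≤ C∫ e^{|y|/32}e^{-|y|}ε² ≤ C ln`.
* `ET6`: `EE_dd`; `|om''| ≤ (2/B)om'`; `∫om|D||ε''| ≤ ∫om 2^k(Q^k+s^k)|ε||ε''| ≤ ∫om ε''² + C∫omQ^{2k}ε²+C s^{2k}∫omε²`.
* `ET7`: `EE_g`; `∫om'g² ≤ C Tn`, `om² ≤ om·om'/(2ρ)` (`om1_ge`), `om' ≤ om`, Cauchy-Schwarz.
-/

open MeasureTheory Filter Topology Set
open scoped ContDiff

namespace H98KB

theorem Eme_g (k : ℕ) (hk : 5 ≤ k) : ∃ C : ℝ, 0 < C ∧ ∀ (ε : ℝ → ℝ) (y : ℝ), |ε y| ≤ 1 →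
    (gf k ε y) ^ 2 ≤ C * ((ε y) ^ 2 + (deriv ε y) ^ 2 + (deriv (deriv ε) y) ^ 2) := by
  obtain ⟨M, hM, hQ, -⟩ := Nlb_max (k := k) (by omega)
  refine ⟨2 * (1 + (1 + 2 ^ k * (M ^ k + 1)) ^ 2), by positivity, fun ε y h1 => ?_⟩
  have hD := D_le k ε y
  have hQk : Qf k y ^ k ≤ M ^ k := pow_le_pow_left₀ (Qf_pos k y).le (hQ y) k
  have hek : |ε y| ^ k ≤ 1 := pow_le_one₀ (abs_nonneg _) h1
  have hD2 : |Df k ε y| ≤ 2 ^ k * (M ^ k + 1) * |ε y| := by
    refine hD.trans ?_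
    apply mul_le_mul_of_nonneg_right _ (abs_nonneg _)
    apply mul_le_mul_of_nonneg_left _ (by positivity)
    linarith
  set K : ℝ := 2 ^ k * (M ^ k + 1) with hK
  have hK0 : 0 ≤ K := by rw [hK]; positivity
  have hg : |gf k ε y| ≤ |deriv (deriv ε) y| + (1 + K) * |ε y| := by
    unfold gf
    have e1 : |(-deriv (deriv ε) y + ε y - Df k ε y)| ≤ |deriv (deriv ε) y| + |ε y| + |Df k ε y| := by
      have a1 := abs_sub (-deriv (deriv ε) y + ε y) (Df k ε y)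
      have a2 := abs_add_le (-deriv (deriv ε) y) (ε y)
      rw [abs_neg] at a2
      linarith
    linarith
  have hg2 : (gf k ε y) ^ 2 ≤ (|deriv (deriv ε) y| + (1 + K) * |ε y|) ^ 2 := by
    rw [← sq_abs (gf k ε y)]
    exact pow_le_pow_left₀ (abs_nonneg _) hg 2
  have s1 := sq_abs (deriv (deriv ε) y)
  have s2 := sq_abs (ε y)
  have t1 : (|deriv (deriv ε) y| + (1 + K) * |ε y|) ^ 2
      ≤ 2 * (deriv (deriv ε) y) ^ 2 + 2 * (1 + K) ^ 2 * (ε y) ^ 2 := by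
    rw [← s1, ← s2]
    (first | linarith only [sq_nonneg (|deriv (deriv ε) y| - (1 + K) * |ε y|)] | nlinarith only [sq_nonneg (|deriv (deriv ε) y| - (1 + K) * |ε y|)])
  have t2 : 0 ≤ (1 + K) ^ 2 * (deriv (deriv ε) y) ^ 2 := by positivity
  have t3 : 0 ≤ (1 + K) ^ 2 * (deriv ε y) ^ 2 := by positivity
  have t4 : 0 ≤ (ε y) ^ 2 := by positivity
  have t5 : 0 ≤ (deriv ε y) ^ 2 := by positivity
  (first | linarith only [hg2, t1, t2, t3] | nlinarith only [hg2, t1, t2, t3])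

theorem Eme_cs {F φ W V : ℝ → ℝ} (hF : Continuous F) (hφ : Continuous φ) (hW : Continuous W)
    (hWp : ∀ y, 0 < W y) (hF2 : Integrable (fun y => W y * F y ^ 2))
    (hV : Integrable V) (hVφ : ∀ y, φ y ^ 2 / W y ≤ V y) :
    |∫ y, F y * φ y| ≤ √(∫ y, V y) * √(∫ y, W y * F y ^ 2) := by
  have hc : Continuous fun y => φ y ^ 2 / W y := (hφ.pow 2).div₀ hW fun y => (hWp y).ne'
  have hi : Integrable (fun y => φ y ^ 2 / W y) := by
    refine hV.mono' hc.aestronglyMeasurable (ae_of_all _ fun y => ?_)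
    rw [Real.norm_eq_abs, abs_of_nonneg (div_nonneg (sq_nonneg _) (hWp y).le)]
    exact hVφ y
  refine (cs_wt hF hφ hW hWp hF2 hi).2.trans ?_
  exact mul_le_mul_of_nonneg_right (Real.sqrt_le_sqrt (integral_mono hi hV hVφ)) (Real.sqrt_nonneg _)

theorem ET7 (k : ℕ) (hk : 5 ≤ k) : ∃ C : ℝ, 0 < C ∧
    ∀ B ρ : ℝ, Slow B ρ → ∀ (p q : ℝ) (ε e : ℝ → ℝ), Adm ρ p q ε → Adm ρ p q e → (∀ y, |ε y| ≤ 1) →
    |EE k B ρ ε (deriv e)| ≤ C * √(Tn B ρ ε) * √(Gn B ρ e / ρ) := by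
  obtain ⟨C, hC0, hC⟩ := Eme_g k hk
  refine ⟨√C + 1, by positivity, fun B ρ hs p q ε e hε he h1 => ?_⟩
  obtain ⟨hρp, hp2, hq0, hq2, cε⟩ := hε
  obtain ⟨-, -, -, -, ce⟩ := he
  have hB16 : 16 ≤ B := hs.1
  have hρ : 0 < ρ := hs.2.1
  have hρB : 4 * ρ * B ≤ 1 := hs.2.2
  have hB : 0 < B := by linarith
  have hp0 : 0 < p := hρ.trans hρp
  have hρ1 : ρ ≤ 1 := by nlinarith
  have hinvB : 0 < 1 / B := by positivity
  have com := Cl_om hB ρ
  have com1 := Cl_der com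
  have cg : Cl p q (gf k ε) := Cl_gf (by omega) hp0.le hq0.le cε
  have cε1 := Cl_der cε
  have cε2 := Cl_der cε1
  have ce1 := Cl_der ce
  rw [EE_g (by omega) hs ⟨hρp, hp2, hq0, hq2, cε⟩ ce1 (by linarith) (by linarith)]
  -- integrability
  have pos1 : 0 < -(2 * ρ) + (2 : ℕ) * p := by push_cast; linarith
  have pos2 : 0 < 2 * ρ + 1 / B + (2 : ℕ) * q := by push_cast; linarith
  have i1 : ∀ {w f : ℝ → ℝ}, Cl (-(2 * ρ)) (2 * ρ + 1 / B) w → Cl p q f →
      Integrable (fun y => w y * f y ^ 2) := fun hw hf =>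
    Cl_int (Cl_mul hw (Cl_pow hf 2)) pos1 pos2
  have iTn : Integrable (fun y => deriv (om B ρ) y *
      ((ε y) ^ 2 + (deriv ε y) ^ 2 + (deriv (deriv ε) y) ^ 2)) := by
    have := ((i1 com1 cε).add (i1 com1 cε1)).add (i1 com1 cε2)
    refine this.congr (ae_of_all _ fun y => ?_)
    simp only [Pi.add_apply]
    ring
  have iGn : Integrable (fun y => om B ρ y * ((e y) ^ 2 + (deriv e y) ^ 2)) := by
    have := (i1 com ce).add (i1 com ce1)
    refine this.congr (ae_of_all _ fun y => ?_)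
    simp only [Pi.add_apply]
    ring
  have hTn0 : 0 ≤ Tn B ρ ε := integral_nonneg fun y =>
    mul_nonneg (om1_pos hs y).le (by positivity)
  have hGn0 : 0 ≤ Gn B ρ e := integral_nonneg fun y =>
    mul_nonneg (om_pos B ρ y).le (by positivity)
  have iV : Integrable (fun y => om B ρ y * ((e y) ^ 2 + (deriv e y) ^ 2) / ρ) := iGn.div_const ρ
  have eV : ∫ y, om B ρ y * ((e y) ^ 2 + (deriv e y) ^ 2) / ρ = Gn B ρ e / ρ := by
    rw [integral_div]
    rfl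
  -- first term
  have T1 : |∫ y, om B ρ y * (gf k ε y * deriv e y)| ≤ √(Gn B ρ e / ρ) * √(C * Tn B ρ ε) := by
    have h := Eme_cs (F := gf k ε) (φ := fun y => om B ρ y * deriv e y) (W := deriv (om B ρ))
      (V := fun y => om B ρ y * ((e y) ^ 2 + (deriv e y) ^ 2) / ρ) (Cl_cont cg)
      ((Cl_cont com).mul (Cl_cont ce1)) (Cl_cont com1) (om1_pos hs) (i1 com1 cg) iV (fun y => by
        have a1 := om1_ge hs y
        have a2 := om_pos B ρ y
        have a3 := om1_pos hs y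
        rw [div_le_div_iff₀ a3 hρ]
        have a4 : ρ * om B ρ y ≤ deriv (om B ρ) y := by nlinarith
        have a5 : 0 ≤ om B ρ y * (deriv e y) ^ 2 := by positivity
        have a6 := mul_le_mul_of_nonneg_left a4 a5
        have a7 : 0 ≤ om B ρ y * (e y) ^ 2 * deriv (om B ρ) y := by positivity
        nlinarith)
    rw [eV] at h
    have e1 : ∫ y, om B ρ y * (gf k ε y * deriv e y) = ∫ y, gf k ε y * (om B ρ y * deriv e y) := by
      congr 1
      funext y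
      ring
    rw [e1]
    refine h.trans (mul_le_mul_of_nonneg_left (Real.sqrt_le_sqrt ?_) (Real.sqrt_nonneg _))
    have e2 : C * Tn B ρ ε = ∫ y, C * (deriv (om B ρ) y *
        ((ε y) ^ 2 + (deriv ε y) ^ 2 + (deriv (deriv ε) y) ^ 2)) := by
      rw [integral_const_mul]
      rfl
    rw [e2]
    refine integral_mono (i1 com1 cg) (iTn.const_mul C) fun y => ?_
    have b1 := hC ε y (h1 y)
    have b2 := (om1_pos hs y).le
    have b3 := mul_le_mul_of_nonneg_left b1 b2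
    show deriv (om B ρ) y * gf k ε y ^ 2 ≤ _
    linarith
  -- second term
  have T2 : |∫ y, deriv (om B ρ) y * (deriv ε y * deriv e y)| ≤ √(Gn B ρ e / ρ) * √(Tn B ρ ε) := by
    have h := Eme_cs (F := deriv ε) (φ := fun y => deriv (om B ρ) y * deriv e y)
      (W := deriv (om B ρ))
      (V := fun y => om B ρ y * ((e y) ^ 2 + (deriv e y) ^ 2) / ρ) (Cl_cont cε1)
      ((Cl_cont com1).mul (Cl_cont ce1)) (Cl_cont com1) (om1_pos hs) (i1 com1 cε1) iV (fun y => by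
        have a1 := om1_le hs y
        have a2 := om_pos B ρ y
        have a3 := om1_pos hs y
        have a4 : 2 / B ≤ 1 := by
          rw [div_le_one hB]
          linarith
        have a5 : deriv (om B ρ) y ≤ om B ρ y := by nlinarith
        rw [div_le_div_iff₀ a3 hρ]
        have c1 : ρ * deriv (om B ρ) y ≤ om B ρ y := by nlinarith
        have c2 : 0 ≤ deriv (om B ρ) y * (deriv e y) ^ 2 := by positivity
        have c3 := mul_le_mul_of_nonneg_left c1 c2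
        have c4 : 0 ≤ om B ρ y * (e y) ^ 2 * deriv (om B ρ) y := by positivity
        (first | linarith only [c3, c4] | nlinarith only [c3, c4]))
    rw [eV] at h
    have e1 : ∫ y, deriv (om B ρ) y * (deriv ε y * deriv e y)
        = ∫ y, deriv ε y * (deriv (om B ρ) y * deriv e y) := by
      congr 1
      funext y
      ring
    rw [e1]
    refine h.trans (mul_le_mul_of_nonneg_left (Real.sqrt_le_sqrt ?_) (Real.sqrt_nonneg _))
    refine integral_mono (i1 com1 cε1) iTn fun y => ?_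
    have b2 := (om1_pos hs y).le
    have b3 : 0 ≤ deriv (om B ρ) y * ((ε y) ^ 2 + (deriv (deriv ε) y) ^ 2) := by positivity
    show deriv (om B ρ) y * deriv ε y ^ 2 ≤ _
    nlinarith
  rw [Real.sqrt_mul hC0.le] at T1
  have fin := abs_sub (∫ y, om B ρ y * (gf k ε y * deriv e y))
    (∫ y, deriv (om B ρ) y * (deriv ε y * deriv e y))
  calc _ ≤ _ := fin
    _ ≤ √(Gn B ρ e / ρ) * (√C * √(Tn B ρ ε)) + √(Gn B ρ e / ρ) * √(Tn B ρ ε) := add_le_add T1 T2
    _ = (√C + 1) * √(Tn B ρ ε) * √(Gn B ρ e / ρ) := by ring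

end H98KB
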