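import Pool.Agent.H98.KB.Ema
import Pool.Agent.H98.KB.Emb
import Pool.Agent.H98.KB.Emc
import Pool.Agent.H98.KB.Emd
import Pool.Agent.H98.KB.Eme

/-!
# Efi : differential inequality for the energy (uses the statements of `Ema`, `Emb`, `Emc`, `Eid`)

`EE` is linear in `ζ` and `ζ = g' - bΛQ + mQ' + lQ'' - bΛε + mε' + lε'' - e'` (`zeta`, `Nf`; all pieces in `Cl`).
`DE = EE(ζ) - bρ∫y om(...)`.  Sum of `ET1` (`-(1/4)Tn`), `ET4` with `ς=1/16`, `ET7`: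
`C√Tn√(Gn e/ρ) ≤ (1/16)Tn + 4C²Gn e/ρ`, `ET2`, `ET3`, `ET5`, `ET6`.  `s` = bound for `|ε|`, `s ≤ ν`.
-/

open MeasureTheory Filter Topology Set
open scoped ContDiff

namespace H98KB

theorem Efi_int {k : ℕ} {B ρ p q p' q' : ℝ} {ε ζ : ℝ → ℝ} (hk : 1 ≤ k) (hB : 0 < B) (hρ : 0 ≤ ρ)
    (hp : 0 ≤ p) (hq : 0 ≤ q) (hε : Cl p q ε) (h1 : 2 * ρ < p + p') (h2 : 0 < q + q')
    (hζ : Cl p' q' ζ) :
    Integrable (fun y => om B ρ y * (deriv ε y * deriv ζ y + (ε y - Df k ε y) * ζ y)) := by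
  have a1 := Cl_mul (Cl_der hε) (Cl_der hζ)
  have a2 := Cl_mul (Cl_sub hε (Cl_Df hk hp hq hε)) hζ
  have a3 := Cl_mul (Cl_om hB ρ) (Cl_add a1 a2)
  have h3 : 0 < 1 / B := by positivity
  exact Cl_int a3 (by linarith) (by linarith)

theorem Efi_lin {k : ℕ} {B ρ p q p' q' : ℝ} {ε ζ₀ ζ₁ : ℝ → ℝ} (hk : 1 ≤ k) (hB : 0 < B) (hρ : 0 ≤ ρ)
    (hp : 0 ≤ p) (hq : 0 ≤ q) (hε : Cl p q ε) (h1 : 2 * ρ < p + p') (h2 : 0 < q + q') (c : ℝ)
    (h₀ : Cl p' q' ζ₀) (h₁ : Cl p' q' ζ₁) :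
    EE k B ρ ε (fun y => ζ₀ y + c * ζ₁ y) = EE k B ρ ε ζ₀ + c * EE k B ρ ε ζ₁ := by
  have i0 := Efi_int hk hB hρ hp hq hε h1 h2 h₀
  have i1 := Efi_int hk hB hρ hp hq hε h1 h2 h₁
  unfold EE
  rw [← integral_const_mul, ← integral_add i0 (i1.const_mul c)]
  refine integral_congr_ae (Eventually.of_forall fun y => ?_)
  simp only
  have e1 : deriv (fun y => ζ₀ y + c * ζ₁ y) y = deriv ζ₀ y + c * deriv ζ₁ y :=
    ((Cl_hd h₀ y).add ((Cl_hd h₁ y).const_mul c)).deriv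
  rw [e1]
  ring

theorem Efi_Tn {B ρ : ℝ} (h : Slow B ρ) (ε : ℝ → ℝ) : 0 ≤ Tn B ρ ε :=
  integral_nonneg fun y => mul_nonneg (om1_pos h y).le (by positivity)

theorem Efi_Gn (B ρ : ℝ) (ε : ℝ → ℝ) : 0 ≤ Gn B ρ ε :=
  integral_nonneg fun y => mul_nonneg (om_pos B ρ y).le (by positivity)

theorem Efi_ln (γ B : ℝ) (ε : ℝ → ℝ) : 0 ≤ ln γ B ε :=
  integral_nonneg fun y => mul_nonneg (loc_pos γ B y).le (by positivity)

/-- the real arithmetic of the assembly -/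
theorem Efi_arith {C1 C2 C3 C4 C5 C6 C7 T G L sL B b l m s Rl Ge Y E1 E2 E2' E3 E4 E5 E6 E7 : ℝ}
    (hC1 : 0 < C1) (hC2 : 0 < C2) (hC3 : 0 < C3) (hC4 : 0 < C4) (hC5 : 0 < C5) (hC6 : 0 < C6)
    (_hC7 : 0 < C7) (hT : 0 ≤ T) (hG : 0 ≤ G) (hL : 0 ≤ L) (hsL : 0 ≤ sL) (hB : 0 < B)
    (hb : 0 ≤ b) (hl : 0 < l) (hs : 0 ≤ s) (hRl : 0 < Rl) (hGe : 0 ≤ Ge)
    (h1 : E1 ≤ -(1 / 4) * T + C1 / B * L) (h2 : |E2| ≤ C2 * sL) (h2' : |E2'| ≤ C2 * sL)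
    (h3 : |E3| ≤ C3 * (1 / B + s) * sL)
    (h4 : -b * E4 - Y ≤ b * G + C4 * b * L + 1 / 16 * T)
    (h5 : |E5| ≤ C5 * (T + L)) (h6 : E6 ≤ C6 * (T + L) + C6 * s * G)
    (h7 : |E7| ≤ C7 * √T * √(Ge / Rl)) :
    E1 - b * E2 + m * E3 + l * E2' - b * E4 + m * E5 + l * E6 - E7 - Y ≤
      -(1 / 8) * T + (C1 + C2 + C3 + C4 + C5 + C6 + 4 * C7 ^ 2) / B * L
      + b * G + (C1 + C2 + C3 + C4 + C5 + C6 + 4 * C7 ^ 2) * (b + l) * sL
      + (C1 + C2 + C3 + C4 + C5 + C6 + 4 * C7 ^ 2) * |m| * (1 / B + s) * sL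
      + (C1 + C2 + C3 + C4 + C5 + C6 + 4 * C7 ^ 2) * (|m| + b + l) * (T + L)
      + (C1 + C2 + C3 + C4 + C5 + C6 + 4 * C7 ^ 2) * l * s * G
      + (C1 + C2 + C3 + C4 + C5 + C6 + 4 * C7 ^ 2) / Rl * Ge := by
  set K := C1 + C2 + C3 + C4 + C5 + C6 + 4 * C7 ^ 2 with hK
  have h70 : 0 ≤ 4 * C7 ^ 2 := by positivity
  have hm := abs_nonneg m
  have hTL : 0 ≤ T + L := add_nonneg hT hL
  have hBs : 0 ≤ 1 / B + s := by positivity
  -- E7
  have e7 : -E7 ≤ 1 / 16 * T + 4 * C7 ^ 2 * (Ge / Rl) := by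
    have a1 := neg_abs_le E7
    have a2 : √T ^ 2 = T := Real.sq_sqrt hT
    have a3 : √(Ge / Rl) ^ 2 = Ge / Rl := Real.sq_sqrt (by positivity)
    (first | linarith only [sq_nonneg (√T / 4 - 2 * (C7 * √(Ge / Rl))), a1, a2, a3, h7] | nlinarith only [sq_nonneg (√T / 4 - 2 * (C7 * √(Ge / Rl))), a1, a2, a3, h7])
  have e7' : 4 * C7 ^ 2 * (Ge / Rl) ≤ K / Rl * Ge := by
    have : K / Rl * Ge = K * (Ge / Rl) := by ring
    rw [this]
    exact mul_le_mul_of_nonneg_right (by linarith) (by positivity)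
  have e1 : C1 / B * L ≤ K / B * L :=
    mul_le_mul_of_nonneg_right (div_le_div_of_nonneg_right (by linarith) hB.le) hL
  have e2 : -b * E2 + l * E2' ≤ K * (b + l) * sL := by
    have a1 : -b * E2 ≤ b * (C2 * sL) := by
      have := mul_le_mul_of_nonneg_left ((neg_le_abs E2).trans h2) hb
      linarith
    have a2 : l * E2' ≤ l * (C2 * sL) := mul_le_mul_of_nonneg_left ((le_abs_self E2').trans h2') hl.le
    have a3 : C2 * ((b + l) * sL) ≤ K * ((b + l) * sL) :=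
      mul_le_mul_of_nonneg_right (by linarith) (by positivity)
    linarith
  have hmul : ∀ E A : ℝ, |E| ≤ A → m * E ≤ |m| * A := by
    intro E A h
    calc m * E ≤ |m * E| := le_abs_self _
      _ = |m| * |E| := abs_mul _ _
      _ ≤ |m| * A := mul_le_mul_of_nonneg_left h hm
  have e3 : m * E3 ≤ K * |m| * (1 / B + s) * sL := by
    have a1 := hmul _ _ h3
    have a3 : C3 * (|m| * (1 / B + s) * sL) ≤ K * (|m| * (1 / B + s) * sL) :=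
      mul_le_mul_of_nonneg_right (by linarith) (by positivity)
    linarith
  have e4 : C4 * b * L ≤ K * (b * (T + L)) := by
    have a1 : C4 * (b * L) ≤ K * (b * L) := mul_le_mul_of_nonneg_right (by linarith) (by positivity)
    have a2 : 0 ≤ K * (b * T) := by
      have : 0 ≤ K := by linarith
      positivity
    linarith
  have e5 : m * E5 ≤ K * (|m| * (T + L)) := by
    have a1 := hmul _ _ h5
    have a3 : C5 * (|m| * (T + L)) ≤ K * (|m| * (T + L)) :=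
      mul_le_mul_of_nonneg_right (by linarith) (by positivity)
    linarith
  have e6 : l * E6 ≤ K * (l * (T + L)) + K * l * s * G := by
    have a1 := mul_le_mul_of_nonneg_left h6 hl.le
    have a2 : C6 * (l * (T + L)) ≤ K * (l * (T + L)) :=
      mul_le_mul_of_nonneg_right (by linarith) (by positivity)
    have a3 : C6 * (l * s * G) ≤ K * (l * s * G) :=
      mul_le_mul_of_nonneg_right (by linarith) (by positivity)
    linarith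
  linarith

theorem DE_le (k : ℕ) (hk : 5 ≤ k) : ∃ ν C : ℝ, 0 < ν ∧ ν ≤ 1 ∧ 0 < C ∧ ∀ γ : ℝ, 0 < γ → γ ≤ 1 / 8 →
    ∀ B : ℝ, 16 ≤ B → ∀ R : ℝ, 1 ≤ R → ∀ Cb : ℝ, 0 < Cb → ∃ l₁ : ℝ, 0 < l₁ ∧ l₁ ≤ 1 ∧ ∀ l : ℝ, 0 < l →
    l ≤ l₁ → Slow B (R * l) ∧ ∀ (p q s : ℝ) (ε e : ℝ → ℝ), Adm (R * l) p q ε → Adm (R * l) p q e →
    s ≤ ν → (∀ y, |ε y| ≤ s) → ∀ b m : ℝ, 0 ≤ b → b ≤ Cb * l →
    DE k B (R * l) b ε (zeta k b m l ε e) ≤ -(1 / 8) * Tn B (R * l) ε + C / B * ln γ B ε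
      + b * Gn B (R * l) ε + C * (b + l) * √(ln γ B ε) + C * |m| * (1 / B + s) * √(ln γ B ε)
      + C * (|m| + b + l) * (Tn B (R * l) ε + ln γ B ε) + C * l * s * Gn B (R * l) ε
      + C / (R * l) * Gn B (R * l) e := by
  have hk1 : 1 ≤ k := by omega
  obtain ⟨ν1, C1, hν1, hν1', hC1, H1⟩ := ET1 k hk
  obtain ⟨C2, hC2, H2⟩ := ET2 k hk
  obtain ⟨C3, hC3, H3⟩ := ET3 k hk
  obtain ⟨ν4, C4, hν4, hν4', hC4, H4⟩ := ET4 k hk
  obtain ⟨C5, hC5, H5⟩ := ET5 k hk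
  obtain ⟨C6, hC6, H6⟩ := ET6 k hk
  obtain ⟨C7, hC7, H7⟩ := ET7 k hk
  refine ⟨min ν1 ν4, C1 + C2 + C3 + C4 + C5 + C6 + 4 * C7 ^ 2, lt_min hν1 hν4,
    (min_le_left _ _).trans hν1', by positivity, ?_⟩
  intro γ hγ hγ' B hB R hR Cb hCb
  obtain ⟨l1, hl1, hl1', H4'⟩ := H4 γ hγ hγ' B hB R (1 / 16) Cb hR (by norm_num) hCb
  refine ⟨l1, hl1, hl1', ?_⟩
  intro l hl hll
  obtain ⟨hS, H4''⟩ := H4' l hl hll
  refine ⟨hS, ?_⟩
  intro p q s ε e hε he hsν hs b m hb hbC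
  have hB0 : 0 < B := by linarith
  have hρ : 0 < R * l := hS.2.1
  have hs0 : 0 ≤ s := (abs_nonneg (ε 0)).trans (hs 0)
  have hsν1 : s ≤ ν1 := hsν.trans (min_le_left _ _)
  have hsν4 : s ≤ ν4 := hsν.trans (min_le_right _ _)
  have hs1 : s ≤ 1 := hsν1.trans hν1'
  obtain ⟨hp1, hp2, hq1, hq2, hcl⟩ := hε
  have hε' : Adm (R * l) p q ε := ⟨hp1, hp2, hq1, hq2, hcl⟩
  obtain ⟨-, -, -, -, hcle⟩ := id he
  have hp0 : 0 ≤ p := by linarith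
  -- the common class
  set p' := (p + R * l) / 2 with hp'
  set q' := q / 2 with hq'
  have hpp : p' ≤ p := by rw [hp']; linarith
  have hqq : q' ≤ q := by rw [hq']; linarith
  have h1 : 2 * (R * l) < p + p' := by rw [hp']; linarith
  have h2 : 0 < q + q' := by rw [hq']; linarith
  have hp'1 : p' < 1 / 2 := by rw [hp']; linarith
  have hq'1 : q' < 1 / 2 := by rw [hq']; linarith
  have cg : Cl p' q' (deriv (gf k ε)) := Cl_mono (Cl_der (Cl_gf hk1 hp0 hq1.le hcl)) hpp hqq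
  have cL : Cl p' q' (Lam k (Qf k)) :=
    Cl_mono (Cl_LamQ hk1 (c := 3 / 4) (by norm_num)) (by linarith) (by linarith)
  have cQ1 : Cl p' q' (deriv (Qf k)) :=
    Cl_mono (Cl_der (Cl_Qf hk1)) (by linarith) (by linarith)
  have cQ2 : Cl p' q' (deriv (deriv (Qf k))) :=
    Cl_mono (Cl_der (Cl_der (Cl_Qf hk1))) (by linarith) (by linarith)
  have cLe : Cl p' q' (Lam k ε) := by
    have hc : 0 < min (p - p') (q - q') := by
      refine lt_min ?_ ?_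
      · rw [hp']; linarith
      · rw [hq']; linarith
    refine Cl_mono (Cl_Lam k hcl hc) ?_ ?_
    · have := min_le_left (p - p') (q - q')
      linarith
    · have := min_le_right (p - p') (q - q')
      linarith
  have ce1 : Cl p' q' (deriv ε) := Cl_mono (Cl_der hcl) hpp hqq
  have ce2 : Cl p' q' (deriv (deriv ε)) := Cl_mono (Cl_der (Cl_der hcl)) hpp hqq
  have cee : Cl p' q' (deriv e) := Cl_mono (Cl_der hcle) hpp hqq
  -- the decomposition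
  have hlin : ∀ (c : ℝ) (ζ₀ ζ₁ : ℝ → ℝ), Cl p' q' ζ₀ → Cl p' q' ζ₁ →
      EE k B (R * l) ε (fun y => ζ₀ y + c * ζ₁ y) = EE k B (R * l) ε ζ₀ + c * EE k B (R * l) ε ζ₁ :=
    fun c ζ₀ ζ₁ a0 a1 => Efi_lin hk1 hB0 hρ.le hp0 hq1.le hcl h1 h2 c a0 a1
  have ez : zeta k b m l ε e = fun y => (fun y => (fun y => (fun y => (fun y => (fun y => (fun y =>
      deriv (gf k ε) y + (-b) * Lam k (Qf k) y) y + m * deriv (Qf k) y) y
      + l * deriv (deriv (Qf k)) y) y + (-b) * Lam k ε y) y + m * deriv ε y) y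
      + l * deriv (deriv ε) y) y + (-1) * deriv e y := by
    funext y
    unfold zeta Nf
    ring
  have d1 := Cl_add cg (Cl_smul (-b) cL)
  have d2 := Cl_add d1 (Cl_smul m cQ1)
  have d3 := Cl_add d2 (Cl_smul l cQ2)
  have d4 := Cl_add d3 (Cl_smul (-b) cLe)
  have d5 := Cl_add d4 (Cl_smul m ce1)
  have d6 := Cl_add d5 (Cl_smul l ce2)
  have eE : EE k B (R * l) ε (zeta k b m l ε e) = EE k B (R * l) ε (deriv (gf k ε))
      - b * EE k B (R * l) ε (Lam k (Qf k)) + m * EE k B (R * l) ε (deriv (Qf k))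
      + l * EE k B (R * l) ε (deriv (deriv (Qf k))) - b * EE k B (R * l) ε (Lam k ε)
      + m * EE k B (R * l) ε (deriv ε) + l * EE k B (R * l) ε (deriv (deriv ε))
      - EE k B (R * l) ε (deriv e) := by
    rw [ez, hlin _ _ _ d6 cee, hlin _ _ _ d5 ce2, hlin _ _ _ d4 ce1, hlin _ _ _ d3 cLe,
      hlin _ _ _ d2 cQ2, hlin _ _ _ d1 cQ1, hlin _ _ _ cg cL]
    ring
  have eD : DE k B (R * l) b ε (zeta k b m l ε e) = EE k B (R * l) ε (zeta k b m l ε e)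
      - b * (R * l) * (∫ y, y * om B (R * l) y * ((deriv ε y) ^ 2 + (ε y) ^ 2 - 2 * bF k ε y)) := rfl
  have hsy1 : ∀ y, |ε y| ≤ 1 := fun y => (hs y).trans hs1
  have K1 := H1 γ hγ hγ' B (R * l) hS p q ε hε' fun y => (hs y).trans hsν1
  have K2 := H2 γ hγ hγ' B (R * l) hS p q ε hε' hsy1
  have K3 := H3 γ hγ hγ' B (R * l) hS p q s ε hε' hs1 hs
  have K4 := H4'' p q ε hε' (fun y => (hs y).trans hsν4) b hb hbC
  have K5 := H5 γ hγ hγ' B (R * l) hS p q ε hε' hsy1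
  have K6 := H6 γ hγ hγ' B (R * l) hS p q s ε hε' hs1 hs
  have K7 := H7 B (R * l) hS p q ε e hε' he hsy1
  have hfin := Efi_arith (m := m) hC1 hC2 hC3 hC4 hC5 hC6 hC7 (Efi_Tn hS ε) (Efi_Gn B (R * l) ε)
    (Efi_ln γ B ε) (Real.sqrt_nonneg (ln γ B ε)) hB0 hb hl hs0 hρ (Efi_Gn B (R * l) e)
    K1 K2.1 K2.2 K3 K4 K5 K6 K7
  rw [eD, eE]
  exact hfin

end H98KB
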