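import Pool.Agent.H98.KB.Nlb
import Pool.Agent.H98.KB.Wts
import Pool.Agent.H98.KB.Sol2
import Pool.Agent.H98.KB.IfG

/-!
# Eid : identities for `EE ζ = ∫ om(ε'ζ' + (ε-D)ζ)`

`g = -ε''+ε-D`.  All products below are in `Cl (>0) (>0)`: `om ∈ Cl (-2ρ) (2ρ+1/B)` and `ε ∈ Cl p q` with `p > ρ`.
* `EE_g`: `ε'ζ'om = (om ε'ζ)' - om'ε'ζ - om ε''ζ`.
* `EE_main`: `ζ=g'`: `om g g' = (om g²/2)' - om'g²/2`; `om'ε'g' = (om'ε'g)' - om''ε'g - om'ε''g` and `ε''=ε-D-g`: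
  result `-(3/2)∫om'g²+∫om'(ε-D)g+∫om''ε'g`.
* `EE_Qd`: `LQ'=0`: result `-∫om'εQ'' - ∫om R Q'`.
* `EE_d`: `-(1/2)∫om'(ε'²+ε²)+∫om' bF+∫om R Q'` (`bF_hd`).
* `EE_dd`: `-∫omε''²+(1/2)∫om''(ε'²+ε²)-∫omε'²-∫om D ε''`.
* `EE_Lam`: with `Tp = om' - 2ρ om` :
 `EE(Λε)+ρ∫y om(ε'²+ε²-2bF) = (1-s_c)∫omε'²-s_c∫omε²-(2/k)∫om D ε+∫om bF+∫om y R Q'-(1/2)∫y Tp (ε'²+ε²-2bF)`
 from `ε'(Λε)' = (2/k+1)ε'²+yε'ε''`, `yomε'ε'' = (y om ε'²/2)'-(1/2)(om+y om')ε'²`, `εΛε=(2/k)ε²+yεε'`,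
 `y om Dε' = (y om bF)' - (om + y om')bF - y om R Q'`; `2/k+1/2 = 1-s_c`, `2/k-1/2=-s_c`.
-/

open MeasureTheory Filter Topology Set
open scoped ContDiff

namespace H98KB

/-- the energy pairing -/
noncomputable def EE (k : ℕ) (B ρ : ℝ) (ε ζ : ℝ → ℝ) : ℝ :=
  ∫ y, om B ρ y * (deriv ε y * deriv ζ y + (ε y - Df k ε y) * ζ y)

variable {k : ℕ} {B ρ p q p' q' : ℝ} {ε ζ : ℝ → ℝ}

theorem Eid_B (hs : Slow B ρ) : 0 < B := by have := hs.1; linarith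

theorem Eid_pos (hs : Slow B ρ) (hε : Adm ρ p q ε) : 0 < p ∧ 0 < q ∧ 0 < ρ ∧ ρ < p ∧ 0 < 1 / B ∧ p ≤ 1 / 2 :=
  ⟨lt_trans hs.2.1 hε.1, hε.2.2.1, hs.2.1, hε.1, one_div_pos.mpr (Eid_B hs), hε.2.1⟩

theorem Eid_gcl (hk : 1 ≤ k) (hs : Slow B ρ) (hε : Adm ρ p q ε) : Cl p q (gf k ε) :=
  Cl_gf hk (Eid_pos hs hε).1.le hε.2.2.1.le hε.2.2.2.2

theorem Eid_Dcl (hk : 1 ≤ k) (hs : Slow B ρ) (hε : Adm ρ p q ε) : Cl p q (fun y => ε y - Df k ε y) :=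
  Cl_sub hε.2.2.2.2 (Cl_Df hk (Eid_pos hs hε).1.le hε.2.2.1.le hε.2.2.2.2)

theorem Eid_Ecl (hk : 1 ≤ k) (hs : Slow B ρ) (hε : Adm ρ p q ε) (hζ : Cl p' q' ζ) :
    Cl (p + p') (q + q') (fun y => deriv ε y * deriv ζ y + (ε y - Df k ε y) * ζ y) :=
  Cl_add (Cl_mul (Cl_der hε.2.2.2.2) (Cl_der hζ)) (Cl_mul (Eid_Dcl hk hs hε) hζ)

theorem EE_g (hk : 1 ≤ k) (hs : Slow B ρ) (hε : Adm ρ p q ε) (hζ : Cl p' q' ζ)
    (h1 : 2 * ρ < p + p') (h2 : 0 < q + q') :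
    EE k B ρ ε ζ = (∫ y, om B ρ y * (gf k ε y * ζ y)) - ∫ y, deriv (om B ρ) y * (deriv ε y * ζ y) := by
  obtain ⟨hp0, hq0, hρ, hρp, hB1, hp2⟩ := Eid_pos hs hε
  have hC := hε.2.2.2.2
  have hO := Cl_om (Eid_B hs) ρ
  have P1 : 0 < -(2 * ρ) + (p + p') := by linarith
  have P2 : 0 < 2 * ρ + 1 / B + (q + q') := by linarith
  have i1 : Integrable (fun y => om B ρ y * (gf k ε y * ζ y)) :=
    Cl_int (Cl_mul hO (Cl_mul (Eid_gcl hk hs hε) hζ)) P1 P2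
  have i2 : Integrable (fun y => deriv (om B ρ) y * (deriv ε y * ζ y)) :=
    Cl_int (Cl_mul (Cl_der hO) (Cl_mul (Cl_der hC) hζ)) P1 P2
  have i3 : Integrable (fun y => om B ρ y * (deriv ε y * deriv ζ y + (ε y - Df k ε y) * ζ y)) :=
    Cl_int (Cl_mul hO (Eid_Ecl hk hs hε hζ)) P1 P2
  rw [← integral_sub i1 i2, EE]
  refine Cl_int_eq i3 (i1.sub i2) (Cl_mul hO (Cl_mul (Cl_der hC) hζ)) P1 P2 fun y => ?_
  have hd := ((Cl_hd hO y).mul ((Cl_hd (Cl_der hC) y).mul (Cl_hd hζ y))).deriv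
  have e : deriv (fun z => om B ρ z * (deriv ε z * ζ z)) y = deriv (om B ρ) y * (deriv ε y * ζ y)
      + om B ρ y * (deriv (deriv ε) y * ζ y + deriv ε y * deriv ζ y) := hd
  rw [e]
  simp only [gf]
  ring

theorem EE_main (hk : 1 ≤ k) (hs : Slow B ρ) (hε : Adm ρ p q ε) :
    EE k B ρ ε (deriv (gf k ε)) = -(3 / 2) * (∫ y, deriv (om B ρ) y * (gf k ε y) ^ 2)
      + (∫ y, deriv (om B ρ) y * ((ε y - Df k ε y) * gf k ε y))
      + ∫ y, deriv (deriv (om B ρ)) y * (deriv ε y * gf k ε y) := by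
  obtain ⟨hp0, hq0, hρ, hρp, hB1, hp2⟩ := Eid_pos hs hε
  have hC := hε.2.2.2.2
  have hO := Cl_om (Eid_B hs) ρ
  have hg := Eid_gcl hk hs hε
  have hg' := Cl_der hg
  have P1 : 0 < -(2 * ρ) + (p + p) := by linarith
  have P2 : 0 < 2 * ρ + 1 / B + (q + q) := by linarith
  have hgg : Cl (p + p) (q + q) (fun y => (gf k ε y) ^ 2) := by
    have := Cl_mul hg hg
    simpa only [pow_two] using this
  have i1 : Integrable (fun y => deriv (om B ρ) y * (gf k ε y) ^ 2) :=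
    Cl_int (Cl_mul (Cl_der hO) hgg) P1 P2
  have i2 : Integrable (fun y => deriv (om B ρ) y * ((ε y - Df k ε y) * gf k ε y)) :=
    Cl_int (Cl_mul (Cl_der hO) (Cl_mul (Eid_Dcl hk hs hε) hg)) P1 P2
  have i3 : Integrable (fun y => deriv (deriv (om B ρ)) y * (deriv ε y * gf k ε y)) :=
    Cl_int (Cl_mul (Cl_der (Cl_der hO)) (Cl_mul (Cl_der hC) hg)) P1 P2
  have i4 : Integrable (fun y => om B ρ y * (deriv ε y * deriv (deriv (gf k ε)) y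
      + (ε y - Df k ε y) * deriv (gf k ε) y)) :=
    Cl_int (Cl_mul hO (Eid_Ecl hk hs hε hg')) P1 P2
  have i12 := (i1.const_mul (-(3 / 2))).add i2
  rw [EE, ← integral_const_mul, ← integral_add (i1.const_mul (-(3 / 2))) i2]
  have e3 : (∫ y, (-(3 / 2) * (deriv (om B ρ) y * (gf k ε y) ^ 2)
      + deriv (om B ρ) y * ((ε y - Df k ε y) * gf k ε y)))
      + ∫ y, deriv (deriv (om B ρ)) y * (deriv ε y * gf k ε y)
      = ∫ y, ((-(3 / 2) * (deriv (om B ρ) y * (gf k ε y) ^ 2)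
      + deriv (om B ρ) y * ((ε y - Df k ε y) * gf k ε y))
      + deriv (deriv (om B ρ)) y * (deriv ε y * gf k ε y)) := (integral_add i12 i3).symm
  rw [e3]
  have hH : Cl (-(2 * ρ) + (p + p)) (2 * ρ + 1 / B + (q + q))
      (fun y => (om B ρ y * (deriv ε y * deriv (gf k ε) y) + 1 / 2 * (om B ρ y * (gf k ε y) ^ 2))
        - deriv (om B ρ) y * (deriv ε y * gf k ε y)) :=
    Cl_sub (Cl_add (Cl_mul hO (Cl_mul (Cl_der hC) hg')) (Cl_smul (1 / 2) (Cl_mul hO hgg)))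
      (Cl_mul (Cl_der hO) (Cl_mul (Cl_der hC) hg))
  refine Cl_int_eq i4 (i12.add i3) hH P1 P2 fun y => ?_
  have hd : HasDerivAt (fun y => (om B ρ y * (deriv ε y * deriv (gf k ε) y)
      + 1 / 2 * (om B ρ y * (gf k ε y) ^ 2)) - deriv (om B ρ) y * (deriv ε y * gf k ε y))
      (((deriv (om B ρ) y * (deriv ε y * deriv (gf k ε) y) + om B ρ y *
          (deriv (deriv ε) y * deriv (gf k ε) y + deriv ε y * deriv (deriv (gf k ε)) y))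
        + 1 / 2 * (deriv (om B ρ) y * (gf k ε y) ^ 2 + om B ρ y * (2 * gf k ε y * deriv (gf k ε) y)))
        - (deriv (deriv (om B ρ)) y * (deriv ε y * gf k ε y) + deriv (om B ρ) y *
          (deriv (deriv ε) y * gf k ε y + deriv ε y * deriv (gf k ε) y))) y := by
    have a1 := (Cl_hd hO y).mul ((Cl_hd (Cl_der hC) y).mul (Cl_hd hg' y))
    have a2 := ((Cl_hd hO y).mul ((Cl_hd hg y).pow 2)).const_mul (1 / 2 : ℝ)
    have a3 := (Cl_hd (Cl_der hO) y).mul ((Cl_hd (Cl_der hC) y).mul (Cl_hd hg y))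
    refine ((a1.add a2).sub a3).congr_deriv ?_
    simp
  rw [hd.deriv]
  have hgy : gf k ε y = -deriv (deriv ε) y + ε y - Df k ε y := rfl
  have h3 : deriv (deriv ε) y = ε y - Df k ε y - gf k ε y := by rw [hgy]; ring
  rw [h3]
  ring

theorem EE_Qd (hk : 1 ≤ k) (hs : Slow B ρ) (hε : Adm ρ p q ε) :
    EE k B ρ ε (deriv (Qf k)) = -(∫ y, deriv (om B ρ) y * (ε y * deriv (deriv (Qf k)) y))
      - ∫ y, om B ρ y * (Rf k ε y * deriv (Qf k) y) := by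
  obtain ⟨hp0, hq0, hρ, hρp, hB1, hp2⟩ := Eid_pos hs hε
  have hC := hε.2.2.2.2
  have hO := Cl_om (Eid_B hs) ρ
  have hQ := Cl_Qf hk
  have P1 : 0 < -(2 * ρ) + (p + 1) := by linarith
  have P2 : 0 < 2 * ρ + 1 / B + (q + 1) := by linarith
  have i1 : Integrable (fun y => deriv (om B ρ) y * (ε y * deriv (deriv (Qf k)) y)) :=
    Cl_int (Cl_mul (Cl_der hO) (Cl_mul hC (Cl_der (Cl_der hQ)))) P1 P2
  have i2 : Integrable (fun y => om B ρ y * (Rf k ε y * deriv (Qf k) y)) :=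
    Cl_int (Cl_mul hO (Cl_mul (Cl_Rf hk hp0.le hq0.le hC) (Cl_der hQ))) P1 P2
  have i4 : Integrable (fun y => om B ρ y * (deriv ε y * deriv (deriv (Qf k)) y
      + (ε y - Df k ε y) * deriv (Qf k) y)) :=
    Cl_int (Cl_mul hO (Eid_Ecl hk hs hε (Cl_der hQ))) P1 P2
  have e2 : -(∫ y, deriv (om B ρ) y * (ε y * deriv (deriv (Qf k)) y))
      - ∫ y, om B ρ y * (Rf k ε y * deriv (Qf k) y)
      = ∫ y, (-(deriv (om B ρ) y * (ε y * deriv (deriv (Qf k)) y))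
        - om B ρ y * (Rf k ε y * deriv (Qf k) y)) := by
    rw [← integral_neg]
    exact (integral_sub i1.neg i2).symm
  rw [EE, e2]
  refine Cl_int_eq i4 (i1.neg.sub i2) (Cl_mul hO (Cl_mul hC (Cl_der (Cl_der hQ)))) P1 P2 fun y => ?_
  have hd := ((Cl_hd hO y).mul ((Cl_hd hC y).mul (Cl_hd (Cl_der (Cl_der hQ)) y))).deriv
  have e : deriv (fun z => om B ρ z * (ε z * deriv (deriv (Qf k)) z)) y
      = deriv (om B ρ) y * (ε y * deriv (deriv (Qf k)) y)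
      + om B ρ y * (deriv ε y * deriv (deriv (Qf k)) y + ε y * deriv (deriv (deriv (Qf k))) y) := hd
  rw [e]
  have hL := L_Qd hk y
  simp only [Lop] at hL
  have h3 : deriv (deriv (deriv (Qf k))) y = deriv (Qf k) y - (Qf k y) ^ k * deriv (Qf k) y := by linarith
  rw [h3]
  simp only [Rf]
  ring

end H98KB
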