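import Pool.Agent.H98.KB.Eid

/-!
# Eie (second half of Eid) : identities for `EE ζ = ∫ om(ε'ζ' + (ε-D)ζ)`

`g = -ε''+ε-D`.  All products below are in `Cl (>0) (>0)`: `om ∈ Cl (-2ρ) (2ρ+1/B)` and `ε ∈ Cl p q` with `p > ρ`.
* `EE_g`: `ε'ζ'om = (om ε'ζ)' - om'ε'ζ - om ε''ζ`.
* `EE_main`: `ζ=g'`: `om g g' = (om g²/2)' - om'g²/2`; `om'ε'g' = (om'ε'g)' - om''ε'g - om'ε''g` and `ε''=ε-D-g`:
  result `-(3/2)∫om'g²+∫om'(ε-D)g+∫om''ε'g`.
* `EE_Qd`: `LQ'=0`: result `-∫om'εQ'' - ∫om R Q'`.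
* `EE_d`: `-(1/2)∫om'(ε'²+ε²)+∫om' bF+∫om R Q'` (`bF_hd`).
* `EE_dd`: `-∫omε''²+(1/2)∫om''(ε'²+ε²)-∫omε'²-∫om D ε''`.
* `EE_Lam`: with `Tp = om' - 2ρ om` :
 `EE(Λε)+ρ∫y om(ε'²+ε²-2bF) = (1-s_c)∫omε'²-s_c∫omε²-(2/k)∫om D ε+∫om bF+∫om y R Q'-(1/2)∫y Tp (ε'²+ε²-2bF)`
 from `ε'(Λε)' = (2/k+1)ε'²+yε'ε''`, `yomε'ε'' = (y om ε'²/2)'-(1/2)(om+y om')ε'²`, `εΛε=(2/k)ε²+yεε'`,
 `y om Dε' = (y om bF)' - (om + y om')bF - y om R Q'`; `2/k+1/2 = 1-s_c`, `2/k-1/2=-s_c`.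
-/

open MeasureTheory Filter Topology Set
open scoped ContDiff

namespace H98KB

/-- decaying at both ends -/
def Eie_P (f : ℝ → ℝ) : Prop := ∃ p q : ℝ, 0 < p ∧ 0 < q ∧ Cl p q f

/-- decaying fast enough to be multiplied with `om` -/
def Eie_W (ρ : ℝ) (f : ℝ → ℝ) : Prop := ∃ p q : ℝ, 2 * ρ < p ∧ 0 < q ∧ Cl p q f

variable {k : ℕ} {B ρ p q p' q' : ℝ} {ε ζ : ℝ → ℝ}

theorem Eie_P_int {f : ℝ → ℝ} (h : Eie_P f) : Integrable f := by
  obtain ⟨p, q, hp, hq, hf⟩ := h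
  exact Cl_int hf hp hq

theorem Eie_P_der {f : ℝ → ℝ} (h : Eie_P f) : ∫ y, deriv f y = 0 := by
  obtain ⟨p, q, hp, hq, hf⟩ := h
  exact Cl_int_deriv hf hp hq

theorem Eie_P_add {f g : ℝ → ℝ} (hf : Eie_P f) (hg : Eie_P g) : Eie_P (fun y => f y + g y) := by
  obtain ⟨p, q, hp, hq, hf⟩ := hf
  obtain ⟨p', q', hp', hq', hg⟩ := hg
  exact ⟨min p p', min q q', lt_min hp hp', lt_min hq hq',
    Cl_add (Cl_mono hf (min_le_left _ _) (min_le_left _ _))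
      (Cl_mono hg (min_le_right _ _) (min_le_right _ _))⟩

theorem Eie_P_smul (c : ℝ) {f : ℝ → ℝ} (hf : Eie_P f) : Eie_P (fun y => c * f y) := by
  obtain ⟨p, q, hp, hq, hf⟩ := hf
  exact ⟨p, q, hp, hq, Cl_smul c hf⟩

theorem Eie_W_add {f g : ℝ → ℝ} (hf : Eie_W ρ f) (hg : Eie_W ρ g) :
    Eie_W ρ (fun y => f y + g y) := by
  obtain ⟨p, q, hp, hq, hf⟩ := hf
  obtain ⟨p', q', hp', hq', hg⟩ := hg
  exact ⟨min p p', min q q', lt_min hp hp', lt_min hq hq',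
    Cl_add (Cl_mono hf (min_le_left _ _) (min_le_left _ _))
      (Cl_mono hg (min_le_right _ _) (min_le_right _ _))⟩

theorem Eie_W_sub {f g : ℝ → ℝ} (hf : Eie_W ρ f) (hg : Eie_W ρ g) :
    Eie_W ρ (fun y => f y - g y) := by
  obtain ⟨p, q, hp, hq, hf⟩ := hf
  obtain ⟨p', q', hp', hq', hg⟩ := hg
  exact ⟨min p p', min q q', lt_min hp hp', lt_min hq hq',
    Cl_sub (Cl_mono hf (min_le_left _ _) (min_le_left _ _))
      (Cl_mono hg (min_le_right _ _) (min_le_right _ _))⟩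

theorem Eie_W_smul (c : ℝ) {f : ℝ → ℝ} (hf : Eie_W ρ f) : Eie_W ρ (fun y => c * f y) := by
  obtain ⟨p, q, hp, hq, hf⟩ := hf
  exact ⟨p, q, hp, hq, Cl_smul c hf⟩

theorem Eie_W_y {f : ℝ → ℝ} (hf : Eie_W ρ f) : Eie_W ρ (fun y => y * f y) := by
  obtain ⟨p, q, hp, hq, hf⟩ := hf
  have hc : 0 < min ((p - 2 * ρ) / 2) (q / 2) := lt_min (by linarith) (by linarith)
  have h1 := min_le_left ((p - 2 * ρ) / 2) (q / 2)
  have h2 := min_le_right ((p - 2 * ρ) / 2) (q / 2)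
  exact ⟨_, _, by linarith, by linarith, Cl_mul (Cl_id hc) hf⟩

theorem Eie_om (hs : Slow B ρ) {w f : ℝ → ℝ} (hw : Cl (-(2 * ρ)) (2 * ρ + 1 / B) w)
    (hf : Eie_W ρ f) : Eie_P (fun y => w y * f y) := by
  obtain ⟨p, q, hp, hq, hf⟩ := hf
  obtain ⟨hB, hρ, -⟩ := hs
  have hB' : 0 < 1 / B := by positivity
  exact ⟨_, _, by linarith, by linarith, Cl_mul hw hf⟩

theorem Eie_om0 (hs : Slow B ρ) : Cl (-(2 * ρ)) (2 * ρ + 1 / B) (om B ρ) :=
  Cl_om (by linarith [hs.1]) ρ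

theorem Eie_om1 (hs : Slow B ρ) : Cl (-(2 * ρ)) (2 * ρ + 1 / B) (deriv (om B ρ)) :=
  Cl_der (Eie_om0 hs)

theorem Eie_om2 (hs : Slow B ρ) : Cl (-(2 * ρ)) (2 * ρ + 1 / B) (deriv (deriv (om B ρ))) :=
  Cl_der (Eie_om1 hs)

/-- products of two functions of the class of `ε` -/
theorem Eie_quad (hε : Adm ρ p q ε) {f g : ℝ → ℝ} (hf : Cl p q f) (hg : Cl p q g) :
    Eie_W ρ (fun y => f y * g y) := by
  obtain ⟨h1, h2, h3, h4, h5⟩ := hε
  exact ⟨_, _, by linarith, by linarith, Cl_mul hf hg⟩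

theorem Eie_sq (hε : Adm ρ p q ε) {f : ℝ → ℝ} (hf : Cl p q f) :
    Eie_W ρ (fun y => f y ^ 2) := by
  have h := Eie_quad hε hf hf
  have e : (fun y => f y ^ 2) = fun y => f y * f y := by
    funext y
    ring
  rw [e]
  exact h

theorem Eie_bF (hk : 1 ≤ k) (hs : Slow B ρ) (hε : Adm ρ p q ε) : Eie_W ρ (bF k ε) := by
  have hρ := hs.2.1
  obtain ⟨h1, h2, h3, h4, h5⟩ := hε
  exact ⟨_, _, by linarith, by linarith,
    Cl_bF hk (by linarith) h3.le (by linarith) (by linarith) h5⟩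

theorem Eie_RQ (hk : 1 ≤ k) (hs : Slow B ρ) (hε : Adm ρ p q ε) :
    Eie_W ρ (fun y => Rf k ε y * deriv (Qf k) y) := by
  have hρ := hs.2.1
  obtain ⟨h1, h2, h3, h4, h5⟩ := hε
  exact ⟨_, _, by linarith, by linarith,
    Cl_mul (Cl_Rf hk (by linarith) h3.le h5) (Cl_der (Cl_Qf hk))⟩

theorem Eie_cl (hε : Adm ρ p q ε) : Cl p q ε := hε.2.2.2.2

theorem Eie_D (hk : 1 ≤ k) (hs : Slow B ρ) (hε : Adm ρ p q ε) : Cl p q (Df k ε) := by
  have hρ := hs.2.1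
  obtain ⟨h1, h2, h3, h4, h5⟩ := hε
  exact Cl_Df hk (by linarith) h3.le h5

theorem Eie_ia {f g : ℝ → ℝ} (hf : Integrable f) (hg : Integrable g) :
    Integrable (fun y => f y + g y) := hf.add hg

theorem Eie_is {f g : ℝ → ℝ} (hf : Integrable f) (hg : Integrable g) :
    Integrable (fun y => f y - g y) := hf.sub hg

/-- integral identity from a primitive -/
theorem Eie_eq {F G H : ℝ → ℝ} (hG : Integrable G) (hH : Eie_P H)
    (h : ∀ y, F y = G y + deriv H y) : ∫ y, F y = ∫ y, G y := by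
  obtain ⟨p, q, hp, hq, hH'⟩ := hH
  have hi : Integrable (deriv H) := Cl_int (Cl_der hH') hp hq
  have e : F = fun y => G y + deriv H y := funext h
  rw [e, integral_add hG hi, Cl_int_deriv hH' hp hq, add_zero]

theorem EE_d (hk : 1 ≤ k) (hs : Slow B ρ) (hε : Adm ρ p q ε) :
    EE k B ρ ε (deriv ε) = -(1 / 2) * (∫ y, deriv (om B ρ) y * ((deriv ε y) ^ 2 + (ε y) ^ 2))
      + (∫ y, deriv (om B ρ) y * bF k ε y) + ∫ y, om B ρ y * (Rf k ε y * deriv (Qf k) y) := by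
  have c0 := Eie_cl hε
  have c1 := Cl_der c0
  have w1 : Eie_W ρ (fun y => (deriv ε y) ^ 2 + (ε y) ^ 2) := Eie_W_add (Eie_sq hε c1) (Eie_sq hε c0)
  have w2 := Eie_bF hk hs hε
  have w3 := Eie_RQ hk hs hε
  have P1 : Integrable (fun y => deriv (om B ρ) y * ((deriv ε y) ^ 2 + (ε y) ^ 2)) :=
    Eie_P_int (Eie_om hs (Eie_om1 hs) w1)
  have P2 : Integrable (fun y => deriv (om B ρ) y * bF k ε y) := Eie_P_int (Eie_om hs (Eie_om1 hs) w2)
  have P3 : Integrable (fun y => om B ρ y * (Rf k ε y * deriv (Qf k) y)) :=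
    Eie_P_int (Eie_om hs (Eie_om0 hs) w3)
  have hH : Eie_P (fun y => om B ρ y * (1 / 2 * ((deriv ε y) ^ 2 + (ε y) ^ 2) - bF k ε y)) :=
    Eie_om hs (Eie_om0 hs) (Eie_W_sub (Eie_W_smul (1 / 2) w1) w2)
  have hG : Integrable (fun y => (-(1 / 2)) * (deriv (om B ρ) y * ((deriv ε y) ^ 2 + (ε y) ^ 2))
      + deriv (om B ρ) y * bF k ε y + om B ρ y * (Rf k ε y * deriv (Qf k) y)) :=
    Eie_ia (Eie_ia (P1.const_mul _) P2) P3
  unfold EE
  rw [Eie_eq hG hH]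
  · rw [integral_add (Eie_ia (P1.const_mul _) P2) P3]
    congr 1
    rw [integral_add (P1.const_mul _) P2, integral_const_mul]
  · intro y
    have d1 := Cl_hd (Eie_om0 hs) y
    have d2 := (Cl_hd c1 y).pow 2
    have d3 := (Cl_hd c0 y).pow 2
    have d4 := bF_hd hk c0 y
    have hd := d1.mul (((d2.add d3).const_mul (1 / 2)).sub d4)
    have e1 : deriv (fun y => om B ρ y * (1 / 2 * ((deriv ε y) ^ 2 + (ε y) ^ 2) - bF k ε y)) y = _ :=
      hd.deriv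
    rw [e1]
    simp only [Pi.pow_apply, Pi.add_apply, Pi.sub_apply]
    ring

theorem EE_dd (hk : 1 ≤ k) (hs : Slow B ρ) (hε : Adm ρ p q ε) :
    EE k B ρ ε (deriv (deriv ε)) = -(∫ y, om B ρ y * (deriv (deriv ε) y) ^ 2)
      + 1 / 2 * (∫ y, deriv (deriv (om B ρ)) y * ((deriv ε y) ^ 2 + (ε y) ^ 2))
      - (∫ y, om B ρ y * (deriv ε y) ^ 2) - ∫ y, om B ρ y * (Df k ε y * deriv (deriv ε) y) := by
  have c0 := Eie_cl hε
  have c1 := Cl_der c0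
  have c2 := Cl_der c1
  have cD := Eie_D hk hs hε
  have w0 := Eie_sq hε c0
  have w1 := Eie_sq hε c1
  have w2 := Eie_sq hε c2
  have w3 : Eie_W ρ (fun y => (deriv ε y) ^ 2 + (ε y) ^ 2) := Eie_W_add w1 w0
  have P1 : Integrable (fun y => om B ρ y * (deriv (deriv ε) y) ^ 2) :=
    Eie_P_int (Eie_om hs (Eie_om0 hs) w2)
  have P2 : Integrable (fun y => deriv (deriv (om B ρ)) y * ((deriv ε y) ^ 2 + (ε y) ^ 2)) :=
    Eie_P_int (Eie_om hs (Eie_om2 hs) w3)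
  have P3 : Integrable (fun y => om B ρ y * (deriv ε y) ^ 2) :=
    Eie_P_int (Eie_om hs (Eie_om0 hs) w1)
  have P4 : Integrable (fun y => om B ρ y * (Df k ε y * deriv (deriv ε) y)) :=
    Eie_P_int (Eie_om hs (Eie_om0 hs) (Eie_quad hε cD c2))
  have hH : Eie_P (fun y => om B ρ y * (deriv ε y * deriv (deriv ε) y + ε y * deriv ε y) +
      deriv (om B ρ) y * (-(1 / 2) * ((deriv ε y) ^ 2 + (ε y) ^ 2))) :=
    Eie_P_add (Eie_om hs (Eie_om0 hs) (Eie_W_add (Eie_quad hε c1 c2) (Eie_quad hε c0 c1)))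
      (Eie_om hs (Eie_om1 hs) (Eie_W_smul _ w3))
  have Q1 : Integrable (fun y => -(om B ρ y * (deriv (deriv ε) y) ^ 2)) := P1.neg
  have Q2 : Integrable (fun y => 1 / 2 * (deriv (deriv (om B ρ)) y * ((deriv ε y) ^ 2 + (ε y) ^ 2))) :=
    P2.const_mul _
  have Q12 := Eie_ia Q1 Q2
  have Q123 := Eie_is Q12 P3
  have hG : Integrable (fun y => -(om B ρ y * (deriv (deriv ε) y) ^ 2) +
      1 / 2 * (deriv (deriv (om B ρ)) y * ((deriv ε y) ^ 2 + (ε y) ^ 2)) -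
      om B ρ y * (deriv ε y) ^ 2 - om B ρ y * (Df k ε y * deriv (deriv ε) y)) := Q123.sub P4
  unfold EE
  rw [Eie_eq hG hH]
  · rw [integral_sub Q123 P4]
    congr 1
    rw [integral_sub Q12 P3]
    congr 1
    rw [integral_add Q1 Q2, integral_neg, integral_const_mul]
  · intro y
    have d0 := Cl_hd (Eie_om0 hs) y
    have d1 := Cl_hd (Eie_om1 hs) y
    have e0 := Cl_hd c0 y
    have e1 := Cl_hd c1 y
    have e2 := Cl_hd c2 y
    have hd := (d0.mul ((e1.mul e2).add (e0.mul e1))).add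
      (d1.mul (((e1.pow 2).add (e0.pow 2)).const_mul (-(1 / 2))))
    have f1 : deriv (fun y => om B ρ y * (deriv ε y * deriv (deriv ε) y + ε y * deriv ε y) +
      deriv (om B ρ) y * (-(1 / 2) * ((deriv ε y) ^ 2 + (ε y) ^ 2))) y = _ := hd.deriv
    rw [f1]
    simp only [Pi.pow_apply, Pi.add_apply, Pi.mul_apply]
    ring

theorem EE_Lam (hk : 1 ≤ k) (hs : Slow B ρ) (hε : Adm ρ p q ε) :
    EE k B ρ ε (Lam k ε) + ρ * (∫ y, y * om B ρ y * ((deriv ε y) ^ 2 + (ε y) ^ 2 - 2 * bF k ε y)) =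
      (1 - sc k) * (∫ y, om B ρ y * (deriv ε y) ^ 2) - sc k * (∫ y, om B ρ y * (ε y) ^ 2)
      - 2 / (k : ℝ) * (∫ y, om B ρ y * (Df k ε y * ε y)) + (∫ y, om B ρ y * bF k ε y)
      + (∫ y, om B ρ y * (y * (Rf k ε y * deriv (Qf k) y)))
      - 1 / 2 * ∫ y, y * (deriv (om B ρ) y - 2 * ρ * om B ρ y) *
          ((deriv ε y) ^ 2 + (ε y) ^ 2 - 2 * bF k ε y) := by
  have c0 := Eie_cl hε
  have c1 := Cl_der c0
  have c2 := Cl_der c1
  have cD := Eie_D hk hs hε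
  have w0 := Eie_sq hε c0
  have w1 := Eie_sq hε c1
  have wb := Eie_bF hk hs hε
  have wq : Eie_W ρ (fun y => (deriv ε y) ^ 2 + (ε y) ^ 2 - 2 * bF k ε y) :=
    Eie_W_sub (Eie_W_add w1 w0) (Eie_W_smul 2 wb)
  have wyq := Eie_W_y wq
  have wL : Cl p q (fun y => ε y - Df k ε y) := Cl_sub c0 cD
  -- the integrand of `EE`
  have hLam : ∀ y, HasDerivAt (Lam k ε) ((2 / (k : ℝ) + 1) * deriv ε y + y * deriv (deriv ε) y) y := by
    intro y
    have h1 := ((Cl_hd c0 y).const_mul (2 / (k : ℝ))).add ((hasDerivAt_id' y).mul (Cl_hd c1 y))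
    refine h1.congr_deriv ?_
    ring
  have hEE : ∀ y, om B ρ y * (deriv ε y * deriv (Lam k ε) y + (ε y - Df k ε y) * Lam k ε y) =
      om B ρ y * ((2 / (k : ℝ) + 1) * (deriv ε y) ^ 2 + y * (deriv ε y * deriv (deriv ε) y) +
        (2 / (k : ℝ) * ((ε y - Df k ε y) * ε y) + y * ((ε y - Df k ε y) * deriv ε y))) := by
    intro y
    rw [(hLam y).deriv, Lam]
    ring
  have PE : Integrable (fun y => om B ρ y *
      (deriv ε y * deriv (Lam k ε) y + (ε y - Df k ε y) * Lam k ε y)) := by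
    have h1 : Eie_P (fun y => om B ρ y * ((2 / (k : ℝ) + 1) * (deriv ε y) ^ 2 +
        y * (deriv ε y * deriv (deriv ε) y) +
        (2 / (k : ℝ) * ((ε y - Df k ε y) * ε y) + y * ((ε y - Df k ε y) * deriv ε y)))) :=
      Eie_om hs (Eie_om0 hs) (Eie_W_add (Eie_W_add (Eie_W_smul _ w1) (Eie_W_y (Eie_quad hε c1 c2)))
        (Eie_W_add (Eie_W_smul _ (Eie_quad hε wL c0)) (Eie_W_y (Eie_quad hε wL c1))))
    have h2 := Eie_P_int h1
    refine h2.congr (Eventually.of_forall fun y => (hEE y).symm)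
  have Pρ : Integrable (fun y => y * om B ρ y * ((deriv ε y) ^ 2 + (ε y) ^ 2 - 2 * bF k ε y)) := by
    refine (Eie_P_int (Eie_om hs (Eie_om0 hs) wyq)).congr (Eventually.of_forall fun y => ?_)
    simp only
    ring
  have P1 : Integrable (fun y => om B ρ y * (deriv ε y) ^ 2) :=
    Eie_P_int (Eie_om hs (Eie_om0 hs) w1)
  have P2 : Integrable (fun y => om B ρ y * (ε y) ^ 2) :=
    Eie_P_int (Eie_om hs (Eie_om0 hs) w0)
  have P3 : Integrable (fun y => om B ρ y * (Df k ε y * ε y)) :=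
    Eie_P_int (Eie_om hs (Eie_om0 hs) (Eie_quad hε cD c0))
  have P4 : Integrable (fun y => om B ρ y * bF k ε y) :=
    Eie_P_int (Eie_om hs (Eie_om0 hs) wb)
  have P5 : Integrable (fun y => om B ρ y * (y * (Rf k ε y * deriv (Qf k) y))) :=
    Eie_P_int (Eie_om hs (Eie_om0 hs) (Eie_W_y (Eie_RQ hk hs hε)))
  have P6 : Integrable (fun y => y * (deriv (om B ρ) y - 2 * ρ * om B ρ y) *
      ((deriv ε y) ^ 2 + (ε y) ^ 2 - 2 * bF k ε y)) := by
    have h1 := Eie_P_int (Eie_om hs (Eie_om1 hs) wyq)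
    have h2 := (Eie_P_int (Eie_om hs (Eie_om0 hs) wyq)).const_mul (2 * ρ)
    refine (h1.sub h2).congr (Eventually.of_forall fun y => ?_)
    simp only [Pi.sub_apply]
    ring
  have hH : Eie_P (fun y => om B ρ y *
      (1 / 2 * (y * ((deriv ε y) ^ 2 + (ε y) ^ 2 - 2 * bF k ε y)))) :=
    Eie_om hs (Eie_om0 hs) (Eie_W_smul _ wyq)
  -- split both sides
  have Q1 : Integrable (fun y => (1 - sc k) * (om B ρ y * (deriv ε y) ^ 2)) := P1.const_mul _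
  have Q2 : Integrable (fun y => sc k * (om B ρ y * (ε y) ^ 2)) := P2.const_mul _
  have Q3 : Integrable (fun y => 2 / (k : ℝ) * (om B ρ y * (Df k ε y * ε y))) := P3.const_mul _
  have Q6 : Integrable (fun y => 1 / 2 * (y * (deriv (om B ρ) y - 2 * ρ * om B ρ y) *
      ((deriv ε y) ^ 2 + (ε y) ^ 2 - 2 * bF k ε y))) := P6.const_mul _
  have Qρ : Integrable (fun y => ρ * (y * om B ρ y *
      ((deriv ε y) ^ 2 + (ε y) ^ 2 - 2 * bF k ε y))) := Pρ.const_mul _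
  have R1 := Eie_is Q1 Q2
  have R2 := Eie_is R1 Q3
  have R3 := Eie_ia R2 P4
  have R4 := Eie_ia R3 P5
  have R5 : Integrable (fun y => (1 - sc k) * (om B ρ y * (deriv ε y) ^ 2) -
      sc k * (om B ρ y * (ε y) ^ 2) - 2 / (k : ℝ) * (om B ρ y * (Df k ε y * ε y)) +
      om B ρ y * bF k ε y + om B ρ y * (y * (Rf k ε y * deriv (Qf k) y)) -
      1 / 2 * (y * (deriv (om B ρ) y - 2 * ρ * om B ρ y) *
      ((deriv ε y) ^ 2 + (ε y) ^ 2 - 2 * bF k ε y))) := R4.sub Q6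
  have eL : EE k B ρ ε (Lam k ε) +
      ρ * (∫ y, y * om B ρ y * ((deriv ε y) ^ 2 + (ε y) ^ 2 - 2 * bF k ε y)) =
      ∫ y, (om B ρ y * (deriv ε y * deriv (Lam k ε) y + (ε y - Df k ε y) * Lam k ε y) +
        ρ * (y * om B ρ y * ((deriv ε y) ^ 2 + (ε y) ^ 2 - 2 * bF k ε y))) := by
    unfold EE
    rw [integral_add PE Qρ, integral_const_mul]
  rw [eL, Eie_eq R5 hH]
  · rw [integral_sub R4 Q6, integral_const_mul]
    congr 1
    rw [integral_add R3 P5]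
    congr 1
    rw [integral_add R2 P4]
    congr 1
    rw [integral_sub R1 Q3, integral_const_mul]
    congr 1
    rw [integral_sub Q1 Q2, integral_const_mul, integral_const_mul]
  · intro y
    have d0 := Cl_hd (Eie_om0 hs) y
    have e0 := Cl_hd c0 y
    have e1 := Cl_hd c1 y
    have d4 := bF_hd hk c0 y
    have hd := d0.mul (((hasDerivAt_id' y).mul
      ((((e1.pow 2).add (e0.pow 2)).sub (d4.const_mul 2)))).const_mul (1 / 2))
    have f1 : deriv (fun y => om B ρ y *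
      (1 / 2 * (y * ((deriv ε y) ^ 2 + (ε y) ^ 2 - 2 * bF k ε y)))) y = _ := hd.deriv
    rw [f1, hEE, sc]
    simp only [Pi.pow_apply, Pi.add_apply, Pi.mul_apply, Pi.sub_apply]
    ring

end H98KB
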