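import Pool.Agent.H98.KB.Eid

/-!
# Ema : the main energy dissipation (uses `EE_main`, weights, `D_le`)

Write `g = g₀ - D`, `g₀ = ε-ε''`.  `(3/2)g²-(ε-D)g = (3/2)g₀²-εg₀+D(ε-2g₀)+(1/2)D²`.
`∫om'((3/2)g₀²-εg₀)-∫om''ε'g₀ = ∫[(1/2)om'ε²+2om'ε'²+(3/2)om'ε''²-(1/2)om'''(ε²+ε'²)]`
(potential: `-2om'εε''=-2(om'εε')'+2om'ε'²+2om''εε'`; total first order terms: `2om''εε'-om''εε'+om''ε'ε''`
`= (1/2)(om''(ε²+ε'²))'-(1/2)om'''(ε²+ε'²)`).
`|om'''| ≤ (8/B²)om' ≤ om'/32`.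
Error: `≥ -∫om'|D|(|ε|+2|g₀|) - ∫|om''||ε'||D| ≥ -∫om'|D|(3|ε|+2|ε''|+|ε'|)`, `|D| ≤ A(Q^k+|ε|^k)|ε|`, `A=2^k`.
`|ε|^k`-part: `≤ Aν^k∫om'(5ε²+ε''²+ε'²)` (small).  `Q^k`-part:
`AQ^k|ε|(3|ε|+2|ε''|+|ε'|) ≤ (1/8)(ε''²+ε'²)+C Q^kε²`.  Total:
`EE(g') ≤ -(1/4)∫om'(ε²+ε'²+ε''²) + C∫om'Q^kε²`; `om'Q^k ≤ (2/B)e^{|y|/32}C e^{-k|y|} ≤ (C/B)e^{-|y|/2} ≤ (C/B)loc`.
-/

open MeasureTheory Filter Topology Set
open scoped ContDiff

namespace H98KB

private theorem Ema_alg {P Pm a b c : ℝ} (hP : 0 ≤ P) (hPm : P ≤ Pm) (ha : 0 ≤ a) (hb : 0 ≤ b)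
    (hc : 0 ≤ c) : (P + 1 / 100) * a * (a + b + 2 * c) ≤
      1 / 100 * (5 / 2 * a ^ 2 + 1 / 2 * b ^ 2 + c ^ 2) + 1 / 8 * (b ^ 2 + c ^ 2)
        + (1 + 10 * Pm) * P * a ^ 2 := by
  have h1 : P * a * b ≤ 1 / 8 * b ^ 2 + 2 * P ^ 2 * a ^ 2 := by nlinarith [sq_nonneg (b - 4 * P * a)]
  have h2 : 2 * P * a * c ≤ 1 / 8 * c ^ 2 + 8 * P ^ 2 * a ^ 2 := by
    nlinarith [sq_nonneg (c - 8 * P * a)]
  have h3 : P ^ 2 * a ^ 2 ≤ Pm * P * a ^ 2 := by
    have : P ^ 2 ≤ Pm * P := by nlinarith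
    exact mul_le_mul_of_nonneg_right this (sq_nonneg a)
  have h4 : a * b ≤ 1 / 2 * (a ^ 2 + b ^ 2) := by nlinarith [sq_nonneg (a - b)]
  have h5 : a * c ≤ 1 / 2 * (a ^ 2 + c ^ 2) := by nlinarith [sq_nonneg (a - c)]
  have h6 : (P + 1 / 100) * a * (a + b + 2 * c) = P * a ^ 2 + P * a * b + 2 * P * a * c
      + 1 / 100 * (a ^ 2 + a * b + 2 * (a * c)) := by ring
  rw [h6]
  (first | linarith only [h1, h2, h3, h4, h5] | nlinarith only [h1, h2, h3, h4, h5])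

private theorem Ema_pt {w1 w2 w3 e e1 e2 D P Pm : ℝ} (hw1 : 0 ≤ w1) (hw2 : |w2| ≤ w1)
    (hw3 : |w3| ≤ 1 / 32 * w1) (hP : 0 ≤ P) (hPm : P ≤ Pm) (hD : |D| ≤ (P + 1 / 100) * |e|) :
    -(3 / 2) * (w1 * (-e2 + e - D) ^ 2) + w1 * ((e - D) * (-e2 + e - D))
        + w2 * (e1 * (-e2 + e - D)) ≤
      -(1 / 4) * (w1 * (e ^ 2 + e1 ^ 2 + e2 ^ 2)) + (1 + 10 * Pm) * P * (w1 * e ^ 2)
        + ((2 * (w2 * (e * e1)) + 2 * (w1 * (e1 * e1)) + 2 * (w1 * (e * e2)))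
          - 1 / 2 * (w3 * (e ^ 2 + e1 ^ 2) + w2 * (2 * (e * e1) + 2 * (e1 * e2)))) := by
  have hid : -(3 / 2) * (w1 * (-e2 + e - D) ^ 2) + w1 * ((e - D) * (-e2 + e - D))
        + w2 * (e1 * (-e2 + e - D)) =
      -(w1 * (1 / 2 * e ^ 2 + 2 * e1 ^ 2 + 3 / 2 * e2 ^ 2)) + 1 / 2 * (w3 * (e ^ 2 + e1 ^ 2))
        + ((2 * (w2 * (e * e1)) + 2 * (w1 * (e1 * e1)) + 2 * (w1 * (e * e2)))
          - 1 / 2 * (w3 * (e ^ 2 + e1 ^ 2) + w2 * (2 * (e * e1) + 2 * (e1 * e2))))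
        + (w1 * (D * (e - 2 * e2)) - w1 * (1 / 2 * D ^ 2)) - w2 * e1 * D := by ring
  rw [hid]
  have hw3' : w3 * (e ^ 2 + e1 ^ 2) ≤ 1 / 32 * w1 * (e ^ 2 + e1 ^ 2) :=
    mul_le_mul_of_nonneg_right ((le_abs_self _).trans hw3) (by positivity)
  have hD2 : 0 ≤ w1 * (1 / 2 * D ^ 2) := by positivity
  have hE1 : D * (e - 2 * e2) ≤ |D| * (|e| + 2 * |e2|) := by
    calc D * (e - 2 * e2) ≤ |D * (e - 2 * e2)| := le_abs_self _
      _ = |D| * |e - 2 * e2| := abs_mul _ _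
      _ ≤ |D| * (|e| + 2 * |e2|) := by
        apply mul_le_mul_of_nonneg_left _ (abs_nonneg _)
        calc |e - 2 * e2| ≤ |e| + |2 * e2| := abs_sub _ _
          _ = |e| + 2 * |e2| := by rw [abs_mul, abs_two]
  have hE2 : -(w2 * e1 * D) ≤ w1 * (|D| * |e1|) := by
    calc -(w2 * e1 * D) ≤ |w2 * e1 * D| := neg_le_abs _
      _ = |w2| * (|D| * |e1|) := by rw [abs_mul, abs_mul]; ring
      _ ≤ w1 * (|D| * |e1|) := mul_le_mul_of_nonneg_right hw2 (by positivity)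
  have hE3 : |D| * (|e| + |e1| + 2 * |e2|) ≤ 1 / 100 * (5 / 2 * e ^ 2 + 1 / 2 * e1 ^ 2 + e2 ^ 2)
      + 1 / 8 * (e1 ^ 2 + e2 ^ 2) + (1 + 10 * Pm) * P * e ^ 2 := by
    have h1 := Ema_alg hP hPm (abs_nonneg e) (abs_nonneg e1) (abs_nonneg e2)
    rw [sq_abs, sq_abs, sq_abs] at h1
    refine le_trans ?_ h1
    exact mul_le_mul_of_nonneg_right hD (by positivity)
  have hE4 := mul_le_mul_of_nonneg_left hE3 hw1
  have hE1' := mul_le_mul_of_nonneg_left hE1 hw1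
  have hs0 : 0 ≤ w1 * e ^ 2 := by positivity
  have hs1 : 0 ≤ w1 * e1 ^ 2 := by positivity
  have hs2 : 0 ≤ w1 * e2 ^ 2 := by positivity
  have hE5 : w1 * (|D| * (|e| + |e1| + 2 * |e2|)) =
      w1 * (|D| * (|e| + 2 * |e2|)) + w1 * (|D| * |e1|) := by ring
  have hE6 : w1 * (1 / 100 * (5 / 2 * e ^ 2 + 1 / 2 * e1 ^ 2 + e2 ^ 2)
      + 1 / 8 * (e1 ^ 2 + e2 ^ 2) + (1 + 10 * Pm) * P * e ^ 2) =
      1 / 40 * (w1 * e ^ 2) + 1 / 200 * (w1 * e1 ^ 2) + 1 / 100 * (w1 * e2 ^ 2)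
        + 1 / 8 * (w1 * e1 ^ 2) + 1 / 8 * (w1 * e2 ^ 2) + (1 + 10 * Pm) * P * (w1 * e ^ 2) := by
    ring
  (first | linarith only [hD2, hE1', hE2, hE4, hs0, hs1, hs2, hw3'] | nlinarith only [hD2, hE1', hE2, hE4, hs0, hs1, hs2, hw3'])

private theorem Ema_cl {B ρ p q : ℝ} (hB : 0 < B) (hρ : 0 < ρ) {w f g : ℝ → ℝ}
    (hw : Cl (-(2 * ρ)) (2 * ρ + 1 / B) w) (hf : Cl p q f) (hg : Cl p q g) :
    Cl (2 * p - 2 * ρ) (2 * q) (fun y => w y * (f y * g y)) := by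
  refine Cl_mono (Cl_mul hw (Cl_mul hf hg)) (by linarith) ?_
  have : 0 < 1 / B := by positivity
  linarith

theorem ET1 (k : ℕ) (hk : 5 ≤ k) : ∃ ν C : ℝ, 0 < ν ∧ ν ≤ 1 ∧ 0 < C ∧ ∀ γ : ℝ, 0 < γ → γ ≤ 1 / 8 →
    ∀ B ρ : ℝ, Slow B ρ → ∀ (p q : ℝ) (ε : ℝ → ℝ), Adm ρ p q ε → (∀ y, |ε y| ≤ ν) →
    EE k B ρ ε (deriv (gf k ε)) ≤ -(1 / 4) * Tn B ρ ε + C / B * ln γ B ε := by
  have hk1 : 1 ≤ k := by omega
  obtain ⟨C1, hC1, hQ⟩ := Qf_hi hk1
  set A : ℝ := 2 ^ k with hA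
  have hA1 : 1 ≤ A := one_le_pow₀ (by norm_num)
  have hA0 : 0 < A := by linarith
  set K : ℝ := C1 ^ k with hK
  have hK0 : 0 < K := by positivity
  have hQk : ∀ y, Qf k y ^ k ≤ K * Real.exp (-|y|) := by
    intro y
    have h1 : Qf k y ^ k ≤ (C1 * Real.exp (-|y|)) ^ k :=
      pow_le_pow_left₀ (Qf_pos k y).le (hQ y) k
    rw [mul_pow] at h1
    have h2 : Real.exp (-|y|) ^ k ≤ Real.exp (-|y|) :=
      pow_le_of_le_one (Real.exp_pos _).le (Real.exp_le_one_iff.2 (by linarith [abs_nonneg y]))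
        (by omega)
    exact h1.trans (mul_le_mul_of_nonneg_left h2 hK0.le)
  have hQk' : ∀ y, Qf k y ^ k ≤ K := by
    intro y
    refine (hQk y).trans ?_
    have : Real.exp (-|y|) ≤ 1 := Real.exp_le_one_iff.2 (by linarith [abs_nonneg y])
    nlinarith
  refine ⟨1 / (100 * A), (1 + 10 * (A * K)) * A * (2 * K), by positivity, ?_, by positivity, ?_⟩
  · rw [div_le_one (by positivity)]; linarith
  intro γ hγ hγ' B ρ hs p q ε hε hεν
  obtain ⟨hB, hρ, hρB⟩ := hs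
  have hs : Slow B ρ := ⟨hB, hρ, hρB⟩
  obtain ⟨hp1, hp2, hq1, hq2, hcl⟩ := hε
  have hε' : Adm ρ p q ε := ⟨hp1, hp2, hq1, hq2, hcl⟩
  have hB0 : 0 < B := by linarith
  have hp0 : 0 < p := hρ.trans hp1
  have hc1 : Cl p q (deriv ε) := Cl_der hcl
  have hc2 : Cl p q (deriv (deriv ε)) := Cl_der hc1
  have hcD : Cl p q (Df k ε) := Cl_Df hk1 hp0.le hq1.le hcl
  have hcg : Cl p q (gf k ε) := Cl_gf hk1 hp0.le hq1.le hcl
  have hw0 : Cl (-(2 * ρ)) (2 * ρ + 1 / B) (om B ρ) := Cl_om hB0 ρ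
  have hw1 : Cl (-(2 * ρ)) (2 * ρ + 1 / B) (deriv (om B ρ)) := Cl_der hw0
  have hw2 : Cl (-(2 * ρ)) (2 * ρ + 1 / B) (deriv (deriv (om B ρ))) := Cl_der hw1
  have hPp : 0 < 2 * p - 2 * ρ := by linarith
  have hQp : 0 < 2 * q := by linarith
  -- integrability of the pieces
  have i1 : Integrable (fun y => deriv (om B ρ) y * (gf k ε y) ^ 2) := by
    have := Cl_int (Ema_cl hB0 hρ hw1 hcg hcg) hPp hQp
    refine this.congr (Eventually.of_forall fun y => ?_)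
    simp only; ring
  have i2 : Integrable (fun y => deriv (om B ρ) y * ((ε y - Df k ε y) * gf k ε y)) :=
    Cl_int (Ema_cl hB0 hρ hw1 (Cl_sub hcl hcD) hcg) hPp hQp
  have i3 : Integrable (fun y => deriv (deriv (om B ρ)) y * (deriv ε y * gf k ε y)) :=
    Cl_int (Ema_cl hB0 hρ hw2 hc1 hcg) hPp hQp
  have sqi : ∀ f : ℝ → ℝ, Cl p q f → Integrable (fun y => deriv (om B ρ) y * (f y) ^ 2) := by
    intro f hf
    have := Cl_int (Ema_cl hB0 hρ hw1 hf hf) hPp hQp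
    refine this.congr (Eventually.of_forall fun y => ?_)
    simp only; ring
  have iT : Integrable (fun y => deriv (om B ρ) y *
      ((ε y) ^ 2 + (deriv ε y) ^ 2 + (deriv (deriv ε) y) ^ 2)) := by
    refine (((sqi _ hcl).add (sqi _ hc1)).add (sqi _ hc2)).congr (Eventually.of_forall fun y => ?_)
    simp only [Pi.add_apply]; ring
  have hloc : Cl 0 0 (loc γ B) := by
    have h := Cl_mul (Cl_se2 hγ) (Cl_ch hB0)
    exact Cl_mono h (by positivity) (by positivity)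
  have sql : ∀ f : ℝ → ℝ, Cl p q f → Integrable (fun y => loc γ B y * (f y) ^ 2) := by
    intro f hf
    have h1 : Cl (0 + (p + p)) (0 + (q + q)) (fun y => loc γ B y * (f y * f y)) :=
      Cl_mul hloc (Cl_mul hf hf)
    refine (Cl_int h1 (by linarith) (by linarith)).congr (Eventually.of_forall fun y => ?_)
    simp only; ring
  have iL : Integrable (fun y => loc γ B y * ((ε y) ^ 2 + (deriv ε y) ^ 2)) := by
    refine ((sql _ hcl).add (sql _ hc1)).congr (Eventually.of_forall fun y => ?_)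
    simp only [Pi.add_apply]; ring
  -- the primitive
  set H : ℝ → ℝ := fun y => 2 * (deriv (om B ρ) y * (ε y * deriv ε y))
    - 1 / 2 * (deriv (deriv (om B ρ)) y * (ε y * ε y)
      + deriv (deriv (om B ρ)) y * (deriv ε y * deriv ε y)) with hH
  have hHcl : Cl (2 * p - 2 * ρ) (2 * q) H :=
    Cl_sub (Cl_smul 2 (Ema_cl hB0 hρ hw1 hcl hc1))
      (Cl_smul (1 / 2) (Cl_add (Ema_cl hB0 hρ hw2 hcl hcl) (Ema_cl hB0 hρ hw2 hc1 hc1)))
  have hHd : ∀ y, deriv H y = (2 * (deriv (deriv (om B ρ)) y * (ε y * deriv ε y))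
      + 2 * (deriv (om B ρ) y * (deriv ε y * deriv ε y))
      + 2 * (deriv (om B ρ) y * (ε y * deriv (deriv ε) y)))
      - 1 / 2 * (deriv (deriv (deriv (om B ρ))) y * ((ε y) ^ 2 + (deriv ε y) ^ 2)
        + deriv (deriv (om B ρ)) y * (2 * (ε y * deriv ε y)
          + 2 * (deriv ε y * deriv (deriv ε) y))) := by
    intro y
    have d0 := Cl_hd hcl y
    have d1 := Cl_hd hc1 y
    have w1 := Cl_hd hw1 y
    have w2 := Cl_hd hw2 y
    have hd : HasDerivAt H _ y :=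
      ((w1.mul (d0.mul d1)).const_mul 2).sub
        (((w2.mul (d0.mul d0)).add (w2.mul (d1.mul d1))).const_mul (1 / 2))
    rw [hd.deriv]
    simp only [Pi.mul_apply]
    ring
  -- pointwise estimate
  have hF : Integrable (fun y => -(3 / 2) * (deriv (om B ρ) y * (gf k ε y) ^ 2)
      + deriv (om B ρ) y * ((ε y - Df k ε y) * gf k ε y)
      + deriv (deriv (om B ρ)) y * (deriv ε y * gf k ε y)) :=
    ((i1.const_mul _).add i2).add i3
  have hG : Integrable (fun y => -(1 / 4) * (deriv (om B ρ) y *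
      ((ε y) ^ 2 + (deriv ε y) ^ 2 + (deriv (deriv ε) y) ^ 2))
      + (1 + 10 * (A * K)) * A * (2 * K) / B * (loc γ B y * ((ε y) ^ 2 + (deriv ε y) ^ 2))) :=
    (iT.const_mul _).add (iL.const_mul _)
  have hle := Cl_int_le hF hG hHcl hPp hQp ?_
  · have hEE := EE_main hk1 hs hε'
    have e1 : (∫ y, (-(3 / 2) * (deriv (om B ρ) y * (gf k ε y) ^ 2)
      + deriv (om B ρ) y * ((ε y - Df k ε y) * gf k ε y)
      + deriv (deriv (om B ρ)) y * (deriv ε y * gf k ε y))) =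
      -(3 / 2) * (∫ y, deriv (om B ρ) y * (gf k ε y) ^ 2)
      + (∫ y, deriv (om B ρ) y * ((ε y - Df k ε y) * gf k ε y))
      + ∫ y, deriv (deriv (om B ρ)) y * (deriv ε y * gf k ε y) := by
      have i12 : Integrable (fun y => -(3 / 2) * (deriv (om B ρ) y * (gf k ε y) ^ 2)
          + deriv (om B ρ) y * ((ε y - Df k ε y) * gf k ε y)) := (i1.const_mul _).add i2
      rw [integral_add i12 i3, integral_add (i1.const_mul _) i2, integral_const_mul]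
    have e2 : (∫ y, (-(1 / 4) * (deriv (om B ρ) y *
      ((ε y) ^ 2 + (deriv ε y) ^ 2 + (deriv (deriv ε) y) ^ 2))
      + (1 + 10 * (A * K)) * A * (2 * K) / B * (loc γ B y * ((ε y) ^ 2 + (deriv ε y) ^ 2)))) =
      -(1 / 4) * Tn B ρ ε + (1 + 10 * (A * K)) * A * (2 * K) / B * ln γ B ε := by
      rw [integral_add (iT.const_mul _) (iL.const_mul _), integral_const_mul, integral_const_mul]
      rfl
    rw [hEE, ← e1, ← e2]
    exact hle
  · intro y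
    rw [hHd]
    have hP : 0 ≤ A * Qf k y ^ k := mul_nonneg hA0.le (pow_nonneg (Qf_pos k y).le k)
    have hPm : A * Qf k y ^ k ≤ A * K := mul_le_mul_of_nonneg_left (hQk' y) hA0.le
    have hw1' : 0 ≤ deriv (om B ρ) y := (om1_pos hs y).le
    have hB2 : 2 / B ≤ 1 := by rw [div_le_one hB0]; linarith
    have hw2' : |deriv (deriv (om B ρ)) y| ≤ deriv (om B ρ) y := by
      refine (om2_le hs y).trans ?_
      calc 2 / B * deriv (om B ρ) y ≤ 1 * deriv (om B ρ) y :=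
            mul_le_mul_of_nonneg_right hB2 hw1'
        _ = _ := one_mul _
    have hw3' : |deriv (deriv (deriv (om B ρ))) y| ≤ 1 / 32 * deriv (om B ρ) y := by
      refine (om3_le hs y).trans (mul_le_mul_of_nonneg_right ?_ hw1')
      rw [div_le_div_iff₀ (by positivity) (by norm_num)]
      (first | linarith only [hB] | nlinarith only [hB])
    have hDle : |Df k ε y| ≤ (A * Qf k y ^ k + 1 / 100) * |ε y| := by
      refine (D_le k ε y).trans (mul_le_mul_of_nonneg_right ?_ (abs_nonneg _))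
      have h1 : |ε y| ^ k ≤ 1 / (100 * A) := by
        have hle1 : |ε y| ≤ 1 := (hεν y).trans (by rw [div_le_one (by positivity)]; linarith)
        exact (pow_le_of_le_one (abs_nonneg _) hle1 (by omega)).trans (hεν y)
      have h2 : A * |ε y| ^ k ≤ 1 / 100 := by
        calc A * |ε y| ^ k ≤ A * (1 / (100 * A)) := mul_le_mul_of_nonneg_left h1 hA0.le
          _ = 1 / 100 := by field_simp
      rw [← hA, mul_add]
      linarith
    have hpt := Ema_pt (e1 := deriv ε y) (e2 := deriv (deriv ε) y) hw1' hw2' hw3' hP hPm hDle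
    have hgf : gf k ε y = -deriv (deriv ε) y + ε y - Df k ε y := rfl
    rw [hgf]
    refine hpt.trans ?_
    have hlast : (1 + 10 * (A * K)) * (A * Qf k y ^ k) * (deriv (om B ρ) y * ε y ^ 2) ≤
        (1 + 10 * (A * K)) * A * (2 * K) / B * (loc γ B y * ((ε y) ^ 2 + (deriv ε y) ^ 2)) := by
      have h1 : Qf k y ^ k * deriv (om B ρ) y ≤ 2 * K / B * loc γ B y := by
        calc Qf k y ^ k * deriv (om B ρ) y
            ≤ (K * Real.exp (-|y|)) * (2 / B * Real.exp (|y| / 32)) :=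
              mul_le_mul (hQk y) (om1_hi hs y) hw1' (by positivity)
          _ = 2 * K / B * (Real.exp (-|y|) * Real.exp (|y| / 32)) := by ring
          _ ≤ 2 * K / B * loc γ B y := by
              apply mul_le_mul_of_nonneg_left _ (by positivity)
              refine le_trans ?_ (ex_le_loc hγ hγ' hB y)
              rw [← Real.exp_add]
              apply Real.exp_le_exp.2
              linarith [abs_nonneg y]
      have h2 : (Qf k y ^ k * deriv (om B ρ) y) * ε y ^ 2 ≤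
          (2 * K / B * loc γ B y) * ((ε y) ^ 2 + (deriv ε y) ^ 2) := by
        apply mul_le_mul h1 _ (by positivity) (by have := (loc_pos γ B y).le; positivity)
        (first | linarith only [sq_nonneg (deriv ε y)] | nlinarith only [sq_nonneg (deriv ε y)])
      calc (1 + 10 * (A * K)) * (A * Qf k y ^ k) * (deriv (om B ρ) y * ε y ^ 2)
          = ((1 + 10 * (A * K)) * A) * ((Qf k y ^ k * deriv (om B ρ) y) * ε y ^ 2) := by ring
        _ ≤ ((1 + 10 * (A * K)) * A) * ((2 * K / B * loc γ B y) *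
            ((ε y) ^ 2 + (deriv ε y) ^ 2)) := mul_le_mul_of_nonneg_left h2 (by positivity)
        _ = _ := by ring
    linarith

end H98KB
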