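import Pool.Agent.H98.KB.Cos
import Pool.Agent.H98.KB.Cot
import Pool.Agent.H98.KB.Cov
import Pool.Agent.H98.KB.Sol2

/-!
# Ini : initial data `ε = a n`

`Ef(an) = a²·(1/2)∫om(n'²+n²-Q^kn²) - ∫om(bF(an)-(1/2)Q^ka²n²)`, last term `O(|a|³)` (`bF_cub`, `|a n| ≤ 1` is needed: for
`|a| ≤ c` with `c sup|n| ≤ 1`).  For an even integrable `h` (here `h=n'²+n²-Q^kn²`, `|h| ≤ Ce^{-|y|}`): `∫Th h = (1/2)∫h`
(`Th_neg`), `|om - Th| ≤ |e^{2ρy}-1| ≤ 2ρ|y|e^{|y|/32}`.  `∫h = ip (L n) n < 0` (`ip_L`, `ip_Ln_n`).  `Vf (an)=0` (`Vf_even`).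
`cn = -(M/4) ip (L n) n`.
`ip_n_ph0`: if `(n,φ₀)=0`, then, since `(n,Q')=0`, `L_ge_one` gives `(Ln,n) ≥ ∫n² ≥ 0`, contradiction.
-/

open MeasureTheory Filter Topology Set
open scoped ContDiff

namespace H98KB

theorem Ini_n (k : ℕ) (hk : 1 ≤ k) : Cl (1 / 2) (1 / 2) (nf k) := Cl_nf hk (by norm_num)

/-- the quadratic form density of `n` -/
noncomputable def Ini_h (k : ℕ) (y : ℝ) : ℝ :=
  (deriv (nf k) y) ^ 2 + (nf k y) ^ 2 - Qf k y ^ k * (nf k y) ^ 2

theorem Ini_Clh (k : ℕ) (hk : 1 ≤ k) : Cl 1 1 (Ini_h k) := by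
  have hn := Ini_n k hk
  have hd := Cl_der hn
  have h1 : Cl 1 1 (fun y => deriv (nf k) y * deriv (nf k) y) :=
    Cl_mono (Cl_mul hd hd) (by norm_num) (by norm_num)
  have h2 : Cl 1 1 (fun y => nf k y * nf k y) :=
    Cl_mono (Cl_mul hn hn) (by norm_num) (by norm_num)
  have h3 : Cl 1 1 (fun y => Qf k y ^ k * (nf k y * nf k y)) :=
    Cl_mono (Cl_mul (Cl_Qk hk) h2) (by have : (0 : ℝ) ≤ (k : ℝ) := by positivity
                                       linarith)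
      (by have : (0 : ℝ) ≤ (k : ℝ) := by positivity
          linarith)
  have h4 := Cl_sub (Cl_add h1 h2) h3
  have e : Ini_h k = fun y => deriv (nf k) y * deriv (nf k) y + nf k y * nf k y -
      Qf k y ^ k * (nf k y * nf k y) := by
    funext y
    unfold Ini_h
    ring
  rw [e]
  exact h4

theorem Ini_dneg (k : ℕ) (hk : 1 ≤ k) (y : ℝ) : deriv (nf k) (-y) = -deriv (nf k) y := by
  have e : nf k = fun y => nf k (-y) := by
    funext y
    rw [nf_neg hk]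
  have h1 : deriv (fun y => nf k (-y)) y = -deriv (nf k) (-y) := deriv_comp_neg _ _
  rw [← e] at h1
  rw [h1]
  ring

theorem Ini_hneg (k : ℕ) (hk : 1 ≤ k) (y : ℝ) : Ini_h k (-y) = Ini_h k y := by
  unfold Ini_h
  rw [Ini_dneg k hk, nf_neg hk, Qf_neg]
  ring

theorem Ini_hint (k : ℕ) (hk : 1 ≤ k) : ∫ y, Ini_h k y = ip (Lop k (nf k)) (nf k) := by
  rw [ip_L hk (by norm_num) (by norm_num) (Ini_n k hk)]
  rfl

theorem Ini_half (k : ℕ) (hk : 1 ≤ k) {B : ℝ} (hB : 0 < B) :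
    ∫ y, Th B y * Ini_h k y = 1 / 2 * ∫ y, Ini_h k y := by
  have hh := Ini_Clh k hk
  have i1 : Integrable (fun y => Th B y * Ini_h k y) :=
    Cl_int (Cl_mul (Cl_Th hB) hh) (by norm_num) (by positivity)
  have i2 : Integrable (fun y => Ini_h k y) := Cl_int hh one_pos one_pos
  have e1 : ∫ y, Th B y * Ini_h k y = ∫ y, Th B (-y) * Ini_h k (-y) :=
    (integral_neg_eq_self (fun y => Th B y * Ini_h k y) volume).symm
  have e2 : ∫ y, Th B (-y) * Ini_h k (-y) = ∫ y, (Ini_h k y - Th B y * Ini_h k y) := by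
    congr 1
    funext y
    have := Th_neg hB y
    rw [Ini_hneg k hk]
    have h3 : Th B (-y) = 1 - Th B y := by linarith
    rw [h3]
    ring
  have e3 : ∫ y, (Ini_h k y - Th B y * Ini_h k y) =
      (∫ y, Ini_h k y) - ∫ y, Th B y * Ini_h k y := integral_sub i2 i1
  rw [e2, e3] at e1
  linarith

theorem Ini_exp (x : ℝ) (c : ℝ) (hc : |x| ≤ c) : |Real.exp x - 1| ≤ |x| * Real.exp c := by
  have hc0 : 0 ≤ c := (abs_nonneg x).trans hc
  have h1 : 1 ≤ Real.exp c := Real.one_le_exp hc0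
  rw [abs_le]
  constructor
  · have h2 := Real.add_one_le_exp x
    have h3 := neg_abs_le x
    nlinarith [abs_nonneg x]
  · have h2 : Real.exp x - 1 ≤ x * Real.exp x := by
      have h4 := Real.add_one_le_exp (-x)
      have h5 : Real.exp x * Real.exp (-x) = 1 := by
        rw [← Real.exp_add]
        simp
      nlinarith [Real.exp_pos x]
    have h6 : x * Real.exp x ≤ |x| * Real.exp c := by
      have h7 : Real.exp x ≤ Real.exp c := Real.exp_le_exp.2 ((le_abs_self x).trans hc)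
      have h8 := le_abs_self x
      calc x * Real.exp x ≤ |x| * Real.exp x := mul_le_mul_of_nonneg_right h8 (Real.exp_pos x).le
        _ ≤ |x| * Real.exp c := mul_le_mul_of_nonneg_left h7 (abs_nonneg x)
    linarith

theorem Ini_J : 0 ≤ ∫ y, bd (1 / 2) (1 / 2) y := integral_nonneg fun y => (bd_pos _ _ y).le

theorem Ini_main (k : ℕ) (hk : 1 ≤ k) : ∃ K : ℝ, 0 ≤ K ∧ ∀ B ρ : ℝ, Slow B ρ →
    |(∫ y, om B ρ y * Ini_h k y) - 1 / 2 * ∫ y, Ini_h k y| ≤ K * ρ := by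
  have hh := Ini_Clh k hk
  obtain ⟨C, hC0, hC⟩ := Cl_bnd hh
  refine ⟨8 * C * ∫ y, bd (1 / 2) (1 / 2) y, by have := Ini_J; positivity, ?_⟩
  intro B ρ hs
  obtain ⟨hB16, hρ, hρB⟩ := hs
  have hB : 0 < B := by linarith
  have hρ64 : ρ ≤ 1 / 64 := by nlinarith
  have i1 : Integrable (fun y => Th B y * Ini_h k y) :=
    Cl_int (Cl_mul (Cl_Th hB) hh) (by norm_num) (by positivity)
  have i2 : Integrable (fun y => om B ρ y * Ini_h k y) :=
    Cl_int (Cl_mul (Cl_om hB ρ) hh) (by linarith) (by positivity)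
  rw [← Ini_half k hk hB, ← integral_sub i2 i1]
  have hg : Integrable (fun y => 8 * C * ρ * bd (1 / 2) (1 / 2) y) :=
    (bd_int (by norm_num) (by norm_num)).const_mul _
  have h1 := norm_integral_le_of_norm_le (f := fun y => om B ρ y * Ini_h k y -
    Th B y * Ini_h k y) hg (Eventually.of_forall fun y => ?_)
  · rw [Real.norm_eq_abs, integral_const_mul] at h1
    refine h1.trans (le_of_eq ?_)
    ring
  · rw [Real.norm_eq_abs]
    have e1 : om B ρ y * Ini_h k y - Th B y * Ini_h k y =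
        Th B y * ((Real.exp (2 * ρ * y) - 1) * Ini_h k y) := by
      unfold om
      ring
    rw [e1, abs_mul, abs_mul, abs_of_pos (Th_pos B y)]
    have h2 : |Real.exp (2 * ρ * y) - 1| ≤ |2 * ρ * y| * Real.exp (|y| / 32) := by
      apply Ini_exp
      rw [abs_mul, abs_of_pos (by positivity : (0 : ℝ) < 2 * ρ)]
      nlinarith [abs_nonneg y]
    have h3 := hC y
    have h4 : Th B y ≤ 1 := (Th_lt_one B y).le
    have h5 : |2 * ρ * y| = 2 * ρ * |y| := by
      rw [abs_mul, abs_of_pos (by positivity : (0 : ℝ) < 2 * ρ)]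
    rw [h5] at h2
    have h6 : |y| ≤ 4 * Real.exp (|y| / 4) := by
      have := Real.add_one_le_exp (|y| / 4)
      linarith
    have h7 : |Real.exp (2 * ρ * y) - 1| * |Ini_h k y| ≤
        (2 * ρ * |y| * Real.exp (|y| / 32)) * (C * bd 1 1 y) :=
      mul_le_mul h2 h3 (abs_nonneg _) (by positivity)
    have h8 : Th B y * (|Real.exp (2 * ρ * y) - 1| * |Ini_h k y|) ≤
        |Real.exp (2 * ρ * y) - 1| * |Ini_h k y| :=
      mul_le_of_le_one_left (by positivity) h4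
    refine h8.trans (h7.trans ?_)
    have h9 : Real.exp (|y| / 4) * Real.exp (|y| / 32) * bd 1 1 y ≤ bd (1 / 2) (1 / 2) y := by
      rw [bd_abs, bd_abs, ← Real.exp_add, ← Real.exp_add, Real.exp_le_exp]
      nlinarith [abs_nonneg y]
    have h10 := bd_pos 1 1 y
    calc (2 * ρ * |y| * Real.exp (|y| / 32)) * (C * bd 1 1 y) =
        2 * ρ * C * (|y| * (Real.exp (|y| / 32) * bd 1 1 y)) := by ring
      _ ≤ 2 * ρ * C * ((4 * Real.exp (|y| / 4)) * (Real.exp (|y| / 32) * bd 1 1 y)) := by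
          refine mul_le_mul_of_nonneg_left ?_ (by positivity)
          exact mul_le_mul_of_nonneg_right h6 (by positivity)
      _ = 8 * C * ρ * (Real.exp (|y| / 4) * Real.exp (|y| / 32) * bd 1 1 y) := by ring
      _ ≤ 8 * C * ρ * bd (1 / 2) (1 / 2) y :=
          mul_le_mul_of_nonneg_left h9 (by positivity)

/-- the cubic remainder density -/
noncomputable def Ini_r (k : ℕ) (a y : ℝ) : ℝ :=
  bF k (fun y => a * nf k y) y - 1 / 2 * (Qf k y ^ k * (a * nf k y) ^ 2)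

theorem Ini_Clr (k : ℕ) (hk : 1 ≤ k) (a : ℝ) : Cl 1 1 (Ini_r k a) := by
  have hn := Ini_n k hk
  have ha : Cl (1 / 2) (1 / 2) (fun y => a * nf k y) := Cl_smul a hn
  have h1 : Cl 1 1 (bF k (fun y => a * nf k y)) :=
    Cl_mono (Cl_bF hk (by norm_num) (by norm_num) (by norm_num) (by norm_num) ha)
      (by norm_num) (by norm_num)
  have h2 : Cl 1 1 (fun y => (a * nf k y) * (a * nf k y)) :=
    Cl_mono (Cl_mul ha ha) (by norm_num) (by norm_num)
  have h3 : Cl 1 1 (fun y => Qf k y ^ k * ((a * nf k y) * (a * nf k y))) :=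
    Cl_mono (Cl_mul (Cl_Qk hk) h2) (by have : (0 : ℝ) ≤ (k : ℝ) := by positivity
                                       linarith)
      (by have : (0 : ℝ) ≤ (k : ℝ) := by positivity
          linarith)
  have h4 := Cl_sub h1 (Cl_smul (1 / 2) h3)
  have e : Ini_r k a = fun y => bF k (fun y => a * nf k y) y -
      1 / 2 * (Qf k y ^ k * ((a * nf k y) * (a * nf k y))) := by
    funext y
    unfold Ini_r
    ring
  rw [e]
  exact h4

theorem Ini_rem (k : ℕ) (hk : 2 ≤ k) : ∃ c K : ℝ, 0 < c ∧ c ≤ 1 ∧ 0 ≤ K ∧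
    ∀ B ρ : ℝ, Slow B ρ → ∀ a : ℝ, |a| ≤ c →
    |∫ y, om B ρ y * Ini_r k a y| ≤ K * |a| ^ 3 := by
  have hk1 : 1 ≤ k := by omega
  have hn := Ini_n k hk1
  obtain ⟨C, hC0, hC⟩ := Cl_bnd hn
  obtain ⟨D, hD0, hD⟩ := bF_cub k hk
  have hb1 : ∀ y, bd (1 / 2) (1 / 2) y ≤ 1 := by
    intro y
    have h0 : bd (1 / 2) (1 / 2) y ≤ bd 0 0 y := bd_mono (by norm_num) (by norm_num) y
    exact h0.trans (bd_zero y).le
  refine ⟨1 / (C + 1), D * C ^ 3 * ∫ y, bd (1 / 2) (1 / 2) y, by positivity, ?_,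
    by have := Ini_J; positivity, ?_⟩
  · rw [div_le_one (by positivity)]
    linarith
  intro B ρ hs a ha
  have hg : Integrable (fun y => D * C ^ 3 * |a| ^ 3 * bd (1 / 2) (1 / 2) y) :=
    (bd_int (by norm_num) (by norm_num)).const_mul _
  have h1 := norm_integral_le_of_norm_le (f := fun y => om B ρ y * Ini_r k a y) hg
    (Eventually.of_forall fun y => ?_)
  · rw [Real.norm_eq_abs, integral_const_mul] at h1
    refine h1.trans (le_of_eq ?_)
    ring
  · rw [Real.norm_eq_abs, abs_mul, abs_of_pos (om_pos B ρ y)]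
    have h2 : |a * nf k y| ≤ 1 := by
      rw [abs_mul]
      have h3 : |nf k y| ≤ C := (hC y).trans (mul_le_of_le_one_right hC0 (hb1 y))
      calc |a| * |nf k y| ≤ 1 / (C + 1) * C := mul_le_mul ha h3 (abs_nonneg _) (by positivity)
        _ ≤ 1 := by
          rw [div_mul_eq_mul_div, one_mul, div_le_one (by positivity)]
          linarith
    have h4 : |Ini_r k a y| ≤ D * |a * nf k y| ^ 3 := hD (fun y => a * nf k y) y h2
    have h5 : |a * nf k y| ^ 3 ≤ |a| ^ 3 * (C * bd (1 / 2) (1 / 2) y) ^ 3 := by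
      rw [abs_mul, mul_pow]
      exact mul_le_mul_of_nonneg_left (pow_le_pow_left₀ (abs_nonneg _) (hC y) 3) (by positivity)
    have h6 := om_hi hs y
    have h7 : Real.exp (|y| / 32) * (bd (1 / 2) (1 / 2) y) ^ 3 ≤ bd (1 / 2) (1 / 2) y := by
      rw [bd_abs, ← Real.exp_nat_mul, ← Real.exp_add, Real.exp_le_exp]
      push_cast
      nlinarith [abs_nonneg y]
    have h8 := bd_pos (1 / 2) (1 / 2) y
    calc om B ρ y * |Ini_r k a y| ≤ Real.exp (|y| / 32) *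
          (D * (|a| ^ 3 * (C * bd (1 / 2) (1 / 2) y) ^ 3)) := by
          refine mul_le_mul h6 (h4.trans ?_) (abs_nonneg _) (Real.exp_pos _).le
          exact mul_le_mul_of_nonneg_left h5 hD0.le
      _ = D * C ^ 3 * |a| ^ 3 * (Real.exp (|y| / 32) * (bd (1 / 2) (1 / 2) y) ^ 3) := by ring
      _ ≤ D * C ^ 3 * |a| ^ 3 * bd (1 / 2) (1 / 2) y :=
          mul_le_mul_of_nonneg_left h7 (by positivity)

theorem Ini_Ef (k : ℕ) (hk : 1 ≤ k) {B ρ : ℝ} (hs : Slow B ρ) (a : ℝ) :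
    Ef k B ρ (fun y => a * nf k y) =
      a ^ 2 / 2 * (∫ y, om B ρ y * Ini_h k y) - ∫ y, om B ρ y * Ini_r k a y := by
  obtain ⟨hB16, hρ, hρB⟩ := hs
  have hB : 0 < B := by linarith
  have hρ64 : ρ ≤ 1 / 64 := by nlinarith
  have i1 : Integrable (fun y => om B ρ y * Ini_h k y) :=
    Cl_int (Cl_mul (Cl_om hB ρ) (Ini_Clh k hk)) (by linarith) (by positivity)
  have i2 : Integrable (fun y => om B ρ y * Ini_r k a y) :=
    Cl_int (Cl_mul (Cl_om hB ρ) (Ini_Clr k hk a)) (by linarith) (by positivity)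
  have hn := Ini_n k hk
  have hd : ∀ y, deriv (fun y => a * nf k y) y = a * deriv (nf k) y := fun y =>
    ((Cl_hd hn y).const_mul a).deriv
  have e1 : ∫ y, om B ρ y * ((deriv (fun y => a * nf k y) y) ^ 2 + (a * nf k y) ^ 2 -
      2 * bF k (fun y => a * nf k y) y) =
      ∫ y, (a ^ 2 * (om B ρ y * Ini_h k y) - 2 * (om B ρ y * Ini_r k a y)) := by
    congr 1
    funext y
    rw [hd y]
    unfold Ini_h Ini_r
    ring
  have e2 : ∫ y, (a ^ 2 * (om B ρ y * Ini_h k y) - 2 * (om B ρ y * Ini_r k a y)) =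
      a ^ 2 * (∫ y, om B ρ y * Ini_h k y) - 2 * ∫ y, om B ρ y * Ini_r k a y := by
    rw [← integral_const_mul, ← integral_const_mul]
    exact integral_sub (i1.const_mul _) (i2.const_mul _)
  unfold Ef
  rw [e1, e2]
  ring

theorem IN_st (k : ℕ) (hk : 5 ≤ k) (M : ℝ) (hM : 0 < M) : ∃ c C cn : ℝ, 0 < c ∧ c ≤ 1 ∧ 0 < C ∧ 0 < cn ∧
    ∀ γ η δ B ρ : ℝ, Slow B ρ → ∀ a : ℝ, |a| ≤ c →
    |LL k η γ δ M B ρ (fun y => a * nf k y) + cn * a ^ 2| ≤ C * (ρ * a ^ 2 + |a| ^ 3) := by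
  have hk1 : 1 ≤ k := by omega
  obtain ⟨K, hK0, hK⟩ := Ini_main k hk1
  obtain ⟨c, K', hc, hc1, hK'0, hK'⟩ := Ini_rem k (by omega)
  have hneg := ip_Ln_n hk
  refine ⟨c, M * (K + K') + 1, -(M / 4) * ip (Lop k (nf k)) (nf k), hc, hc1, by positivity,
    by nlinarith, ?_⟩
  intro γ η δ B ρ hs a ha
  have h1 := hK B ρ hs
  have h2 := hK' B ρ hs a ha
  have h3 : Vf k η γ B δ (fun y => a * nf k y) = 0 :=
    Vf_even k γ η δ B _ fun y => by simp only [nf_neg hk1]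
  have hρ : 0 < ρ := hs.2.1
  unfold LL
  rw [h3, Ini_Ef k hk1 hs a]
  rw [Ini_hint k hk1] at h1
  generalize (∫ y, om B ρ y * Ini_h k y) = X at *
  generalize (∫ y, om B ρ y * Ini_r k a y) = Y at *
  generalize ip (Lop k (nf k)) (nf k) = I at *
  have e : M * (a ^ 2 / 2 * X - Y) + 0 + -(M / 4) * I * a ^ 2 =
      M * (a ^ 2 / 2 * (X - 1 / 2 * I)) + -(M * Y) := by ring
  rw [e]
  refine (abs_add_le _ _).trans ?_
  rw [abs_neg, abs_mul, abs_mul M Y, abs_mul, abs_of_pos hM,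
    abs_of_nonneg (by positivity : (0 : ℝ) ≤ a ^ 2 / 2)]
  have ha2 : 0 ≤ a ^ 2 := sq_nonneg a
  have h4 : a ^ 2 / 2 * |X - 1 / 2 * I| ≤ a ^ 2 / 2 * (K * ρ) :=
    mul_le_mul_of_nonneg_left h1 (by positivity)
  have h5 : M * (a ^ 2 / 2 * |X - 1 / 2 * I|) ≤ M * (K * (ρ * a ^ 2)) := by
    refine mul_le_mul_of_nonneg_left (h4.trans ?_) hM.le
    have : 0 ≤ K * (ρ * a ^ 2) := by positivity
    nlinarith
  have h6 : M * |Y| ≤ M * (K' * |a| ^ 3) := mul_le_mul_of_nonneg_left h2 hM.le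
  have p1 : 0 ≤ ρ * a ^ 2 := by positivity
  have p2 : 0 ≤ |a| ^ 3 := by positivity
  have p3 : 0 ≤ M * K := by positivity
  have p4 : 0 ≤ M * K' := by positivity
  (first | linarith only [mul_nonneg p3 p2, mul_nonneg p4 p1, h5, h6, p1, p2, p3, p4] | nlinarith only [mul_nonneg p3 p2, mul_nonneg p4 p1, h5, h6, p1, p2, p3, p4])

theorem ip_n_ph0 (k : ℕ) (hk : 5 ≤ k) : ip (nf k) (ph0 k) ≠ 0 := by
  intro h0
  have hk1 : 1 ≤ k := by omega
  have h1 := L_ge_one (k := k) (by omega) (by norm_num) (by norm_num) (Ini_n k hk1) h0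
    (ip_n_Qd hk1)
  have h2 := ip_Ln_n hk
  have h3 : 0 ≤ ∫ y, (nf k y) ^ 2 := integral_nonneg fun y => sq_nonneg _
  linarith

theorem thmN : ThmN := by
  intro k hk
  have hk1 : 1 ≤ k := by omega
  exact ⟨Ini_n k hk1, ip_n_Q hk1, ip_n_Qd hk1, ip_n_ph0 k hk⟩

end H98KB
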