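import Pool.Agent.H98.KB.Vfi
import Pool.Agent.H98.KB.Efi
import Pool.Agent.H98.KB.Bmt
import Pool.Agent.H98.KB.Ini
import Pool.Agent.H98.KB.Dxb

/-!
# Goo : assembly of the static part (`ThmG`)

Constants: `(γ,η,δ,c₁,C₁,B₀)` from `DV_le`; `C_m, c_m` from `BM_st`; `(ν,C_E)` from `DE_le` (`Cb = 2κ`); `(ν',c_L,C_L,B₁)` from
`CO_E`; `C_V` from `CV`.
`M := max (64 C₁) (4C_V/c_L)` (so `M/16 ≥ 2C₁`... and `M c_L - C_V ≥ (M/2)c_L`).
`B := max(B₀,B₁)` and so large that `M C_E/B ≤ c₁/16` and `2M C_E C_m/B ≤ c₁/16`.  `C₂ = C₂(B)` from `DV_le`.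
ML: `M DE + DV ≤ M[-(1/8)Tn + (C_E/B)ln + bGn + C_E(b+l)√ln + C_E|m|(1/B+s)√ln + C_E(|m|+b+l)(Tn+ln) + C_E l s Gn`
`+ C_E/(Rl) Gn e] - c₁ln + C₁Tn + C₁(p₀²+q₀²) + C₁(b²+l²) + C₂(s+l+b+|m|)(Tn+ln) + C₂Gn e`.
`M/8-C₁ ≥ M/16`.  `C_E M(b+l)√ln ≤ (c₁/16)ln + C(b²+l²)`, `b ≤ 2κl`.
`|m|√ln ≤ C_m(√ln+√Gn e)√ln ≤ 2C_m(ln+Gn e)`; with `s := c` small, `M C_E·2C_m(1/B+s) ≤ c₁/8`.
`(|m|+b+l+s)` is small (`≤` any prescribed number) if `c`, `l₁` are small: `|m| ≤ C_m(√c+√c)`; absorb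
`(M C_E + C₂)(...)(Tn+ln)` in `-(M/64)Tn - (c₁/16)ln`.
`Tn ≥ 2ρGn-type`: `Tn B ρ ε ≥ 2ρ ∫om(ε²+ε'²) = 2ρ Gn` (`om1_ge`), `ρ = R l`; so `-(M/32)Tn ≤ -(M/64)Tn - (M/32)R l Gn`, and
`bGn·M + M C_E l s Gn ≤ M(2κ+C_E) l Gn ≤ (M/64)R l Gn` if `R ≥ 64(2κ+C_E)`.
The constant `C` of `Good` is the maximum of everything (also `≥ 64(2κ+C_E)`), `c` the minimum.
CO: `LL = M Ef + Vf ≥ M c_L Gn - M C_L(...) - C_V Gn ≥ (M c_L/2)Gn - M C_L(...)`; `|LL| ≤ C Gn`: `CO_up` with `ε'=0`, `CV`.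
BM, DL (with `BM`'s bound for `m`, and `|m| ≤ 1` for small `c`), DX, LN, LIP (`CO_up`, `CV`), IN from the statements.
-/

open MeasureTheory Filter Topology Set
open scoped ContDiff

namespace H98KB

theorem Goo_G_nonneg {B ρ : ℝ} (f : ℝ → ℝ) : 0 ≤ Gn B ρ f :=
  integral_nonneg fun y => mul_nonneg (om_pos B ρ y).le (by positivity)

theorem Goo_T_nonneg {B ρ : ℝ} (h : Slow B ρ) (f : ℝ → ℝ) : 0 ≤ Tn B ρ f :=
  integral_nonneg fun y => mul_nonneg (om1_pos h y).le (by positivity)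

theorem Goo_l_nonneg (γ B : ℝ) (f : ℝ → ℝ) : 0 ≤ ln γ B f :=
  integral_nonneg fun y => mul_nonneg (loc_pos γ B y).le (by positivity)

theorem Goo_X_nonneg (f : ℝ → ℝ) : 0 ≤ Xn f :=
  integral_nonneg fun y => sq_nonneg _

theorem Goo_sq {p q : ℝ} {f : ℝ → ℝ} (h : Cl p q f) : Cl (p + p) (q + q) (fun y => (f y) ^ 2) := by
  have h1 := Cl_mul h h
  have h2 : (fun y => f y * f y) = fun y => (f y) ^ 2 := by
    funext y
    ring
  rw [h2] at h1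
  exact h1

theorem Goo_TG {B ρ p q : ℝ} {ε : ℝ → ℝ} (h : Slow B ρ) (hA : Adm ρ p q ε) :
    2 * ρ * Gn B ρ ε ≤ Tn B ρ ε := by
  obtain ⟨a1, a2, a3, a4, a5⟩ := hA
  obtain ⟨s1, s2, s3⟩ := h
  have hB : 0 < B := by linarith
  have hom := Cl_om hB ρ
  have c0 := Goo_sq a5
  have c1 := Goo_sq (Cl_der a5)
  have c2 := Goo_sq (Cl_der (Cl_der a5))
  have e1 : 0 < -(2 * ρ) + (p + p) := by linarith
  have e2 : 0 < 2 * ρ + 1 / B + (q + q) := by positivity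
  have hG : Integrable (fun y => 2 * ρ * (om B ρ y * ((ε y) ^ 2 + (deriv ε y) ^ 2))) :=
    (Cl_int (Cl_mul hom (Cl_add c0 c1)) e1 e2).const_mul _
  have hT : Integrable (fun y => deriv (om B ρ) y *
      ((ε y) ^ 2 + (deriv ε y) ^ 2 + (deriv (deriv ε) y) ^ 2)) :=
    Cl_int (Cl_mul (Cl_der hom) (Cl_add (Cl_add c0 c1) c2)) e1 e2
  unfold Gn Tn
  rw [← integral_const_mul]
  refine integral_mono hG hT fun y => ?_
  have h1 := om1_ge ⟨s1, s2, s3⟩ y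
  have h2 := (om1_pos (B := B) (ρ := ρ) ⟨s1, s2, s3⟩ y).le
  have h3 : 0 ≤ (ε y) ^ 2 + (deriv ε y) ^ 2 := by positivity
  have h4 := mul_le_mul_of_nonneg_right h1 h3
  have h5 : 0 ≤ deriv (om B ρ) y * (deriv (deriv ε) y) ^ 2 := mul_nonneg h2 (sq_nonneg _)
  show 2 * ρ * (om B ρ y * ((ε y) ^ 2 + (deriv ε y) ^ 2)) ≤
    deriv (om B ρ) y * ((ε y) ^ 2 + (deriv ε y) ^ 2 + (deriv (deriv ε) y) ^ 2)
  calc 2 * ρ * (om B ρ y * ((ε y) ^ 2 + (deriv ε y) ^ 2))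
      = 2 * ρ * om B ρ y * ((ε y) ^ 2 + (deriv ε y) ^ 2) := by ring
    _ ≤ deriv (om B ρ) y * ((ε y) ^ 2 + (deriv ε y) ^ 2) := h4
    _ ≤ deriv (om B ρ) y * ((ε y) ^ 2 + (deriv ε y) ^ 2) +
        deriv (om B ρ) y * (deriv (deriv ε) y) ^ 2 := by linarith
    _ = _ := by ring

theorem Goo_Adm_zero {ρ p q : ℝ} {ε : ℝ → ℝ} (hA : Adm ρ p q ε) :
    Adm ρ p q (fun _ => (0 : ℝ)) := by
  obtain ⟨a1, a2, a3, a4, a5⟩ := hA
  refine ⟨a1, a2, a3, a4, ?_⟩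
  have h := Cl_smul 0 a5
  have h2 : (fun y => 0 * ε y) = fun _ => (0 : ℝ) := by
    funext y
    ring
  rw [h2] at h
  exact h

theorem Goo_G_zero (B ρ : ℝ) : Gn B ρ (fun _ => (0 : ℝ)) = 0 := by
  unfold Gn
  simp

theorem Goo_E_zero (k : ℕ) (B ρ : ℝ) : Ef k B ρ (fun _ => (0 : ℝ)) = 0 := by
  unfold Ef bF
  simp

/-- upper bound for the energy -/
theorem Goo_E_up {k : ℕ} {C B ρ p q : ℝ} {ε : ℝ → ℝ} (hA : Adm ρ p q ε)
    (h : |Ef k B ρ ε - Ef k B ρ (fun _ => (0 : ℝ))| ≤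
      C * √(Gn B ρ (fun y => ε y - (fun _ => (0 : ℝ)) y)) *
        (√(Gn B ρ ε) + √(Gn B ρ (fun _ => (0 : ℝ))))) :
    |Ef k B ρ ε| ≤ C * Gn B ρ ε := by
  rw [Goo_E_zero, Goo_G_zero] at h
  simp only [sub_zero, Real.sqrt_zero, add_zero] at h
  rw [mul_assoc, Real.mul_self_sqrt (Goo_G_nonneg ε)] at h
  exact h

theorem Goo_s1 {A c₁ K b l x L : ℝ} (hA : 0 < A) (hc₁ : 0 < c₁) (hK : 0 < K) (hl : 0 < l)
    (hbl : b ≤ K * l) (hx : 0 ≤ x) (hxx : x * x = L) :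
    A * (b + l) * x ≤ c₁ / 16 * L + 4 / c₁ * (A * (K + 1)) ^ 2 * l ^ 2 := by
  have h1 : b + l ≤ (K + 1) * l := by linarith
  have h2 : A * (b + l) * x ≤ A * ((K + 1) * l) * x :=
    mul_le_mul_of_nonneg_right (mul_le_mul_of_nonneg_left h1 hA.le) hx
  have h6 : c₁ / 16 * (x * x) + 4 / c₁ * (A * ((K + 1) * l)) ^ 2 - A * ((K + 1) * l) * x =
      (c₁ * x / 4 - 2 * (A * ((K + 1) * l))) ^ 2 / c₁ := by
    field_simp
    ring
  have h7 : 0 ≤ (c₁ * x / 4 - 2 * (A * ((K + 1) * l))) ^ 2 / c₁ := by positivity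
  have h8 : 4 / c₁ * (A * ((K + 1) * l)) ^ 2 = 4 / c₁ * (A * (K + 1)) ^ 2 * l ^ 2 := by ring
  rw [← hxx, ← h8]
  linarith

theorem Goo_s2 {A Cm c₁ t x y L Ge m : ℝ} (hA : 0 < A) (hCm : 0 < Cm) (ht : 0 ≤ t)
    (hx : 0 ≤ x) (hxx : x * x = L) (hyy : y * y = Ge) (hm : |m| ≤ Cm * (x + y))
    (hB2 : 2 * (A * Cm) * t ≤ c₁ / 8) :
    A * |m| * t * x ≤ c₁ / 8 * L + c₁ / 16 * Ge := by
  have h2 := mul_le_mul_of_nonneg_right hm hx
  have h3 : (x + y) * x ≤ 2 * (x * x) + y * y := by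
    have := sq_nonneg (x - y)
    have h4 := mul_self_nonneg x
    have h5 := mul_self_nonneg y
    have h6 : (x - y) ^ 2 = x * x - 2 * (x * y) + y * y := by ring
    have h7 : (x + y) * x = x * x + x * y := by ring
    rw [h6] at this
    rw [h7]
    linarith
  have h4 := mul_le_mul_of_nonneg_left h3 hCm.le
  have h5 : |m| * x ≤ Cm * (2 * (x * x) + y * y) := by
    have : Cm * (x + y) * x = Cm * ((x + y) * x) := by ring
    linarith
  have h6 : 0 ≤ A * t := mul_nonneg hA.le ht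
  have h7 := mul_le_mul_of_nonneg_left h5 h6
  have h8 : 0 ≤ 2 * (x * x) + y * y := by
    have h4 := mul_self_nonneg x
    have h5 := mul_self_nonneg y
    linarith
  have h9 := mul_le_mul_of_nonneg_right hB2 h8
  rw [← hxx, ← hyy]
  have e1 : A * |m| * t * x = A * t * (|m| * x) := by ring
  have e2 : A * t * (Cm * (2 * (x * x) + y * y)) =
      1 / 2 * (2 * (A * Cm) * t * (2 * (x * x) + y * y)) := by ring
  rw [e1]
  rw [e2] at h7
  linarith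

theorem Goo_s3 {A C₂ M c₁ σ s T L : ℝ} (hA : 0 < A) (hs0 : 0 ≤ s) (hT : 0 ≤ T) (hL : 0 ≤ L)
    (hσ1 : (A + C₂) * (σ + s) ≤ M / 64) (hσ2 : (A + C₂) * (σ + s) ≤ c₁ / 16) :
    A * σ * (T + L) + C₂ * (σ + s) * (T + L) ≤ M / 64 * T + c₁ / 16 * L := by
  have h3 := mul_le_mul_of_nonneg_right hσ1 hT
  have h4 := mul_le_mul_of_nonneg_right hσ2 hL
  have h5 : 0 ≤ A * s * (T + L) := mul_nonneg (mul_nonneg hA.le hs0) (by linarith)
  have e1 : A * σ * (T + L) + C₂ * (σ + s) * (T + L) =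
    (A + C₂) * (σ + s) * T + (A + C₂) * (σ + s) * L - A * s * (T + L) := by ring
  linarith

theorem Goo_s4 {M CE K R b l s G : ℝ} (hM : 0 < M) (hCE : 0 < CE) (hl : 0 < l) (hG : 0 ≤ G)
    (hbl : b ≤ K * l) (hs1 : s ≤ 1) (hR : 64 * (K + CE) ≤ R) :
    M * (b * G) + M * (CE * l * s * G) ≤ M / 64 * (R * l * G) := by
  have hlG : 0 ≤ l * G := mul_nonneg hl.le hG
  have h1 : b * G ≤ K * (l * G) := by
    have := mul_le_mul_of_nonneg_right hbl hG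
    linarith
  have h2 : CE * l * s * G ≤ CE * (l * G) := by
    have h3 := mul_le_mul_of_nonneg_left hs1 (mul_nonneg hCE.le hlG)
    linarith
  have h4 : (K + CE) * (l * G) ≤ R / 64 * (l * G) :=
    mul_le_mul_of_nonneg_right (by linarith) hlG
  have h5 := mul_le_mul_of_nonneg_left (add_le_add h1 h2) hM.le
  have h6 := mul_le_mul_of_nonneg_left h4 hM.le
  linarith

theorem Goo_s5 {M CE C₂ c₁ R l Ge : ℝ} (hM : 0 < M) (hCE : 0 < CE) (hC₂ : 0 < C₂) (hc₁ : 0 < c₁)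
    (hR : 1 ≤ R) (hl : 0 < l) (hl1 : l ≤ 1) (hGe : 0 ≤ Ge) :
    M * (CE / (R * l) * Ge) + C₂ * Ge + c₁ / 16 * Ge ≤ (M * CE + C₂ + c₁ / 16) / l * Ge := by
  have hR0 : 0 < R := by linarith
  have h1 : CE / (R * l) ≤ CE / l := by
    apply div_le_div_of_nonneg_left hCE.le hl
    exact le_mul_of_one_le_left hl.le hR
  have h2 : C₂ ≤ C₂ / l := by
    rw [le_div_iff₀ hl]
    exact mul_le_of_le_one_right hC₂.le hl1
  have h3 : c₁ / 16 ≤ c₁ / 16 / l := by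
    rw [le_div_iff₀ hl]
    exact mul_le_of_le_one_right (by positivity) hl1
  have h4 : (M * CE + C₂ + c₁ / 16) / l = M * (CE / l) + C₂ / l + c₁ / 16 / l := by
    field_simp
  rw [h4]
  have h5 := mul_le_mul_of_nonneg_left (mul_le_mul_of_nonneg_right h1 hGe) hM.le
  have h6 := mul_le_mul_of_nonneg_right h2 hGe
  have h7 := mul_le_mul_of_nonneg_right h3 hGe
  have e : (M * (CE / l) + C₂ / l + c₁ / 16 / l) * Ge =
    M * (CE / l * Ge) + C₂ / l * Ge + c₁ / 16 / l * Ge := by ring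
  rw [e]
  linarith

theorem Goo_s6 {C₁ K b l : ℝ} (hC₁ : 0 < C₁) (hb : 0 ≤ b) (hbl : b ≤ K * l) :
    C₁ * (b ^ 2 + l ^ 2) ≤ C₁ * (K ^ 2 + 1) * l ^ 2 := by
  have h1 : b ^ 2 ≤ (K * l) ^ 2 := pow_le_pow_left₀ hb hbl 2
  have h2 : b ^ 2 + l ^ 2 ≤ (K ^ 2 + 1) * l ^ 2 := by
    have : (K ^ 2 + 1) * l ^ 2 = (K * l) ^ 2 + l ^ 2 := by ring
    rw [this]
    linarith
  have h3 := mul_le_mul_of_nonneg_left h2 hC₁.le
  rw [mul_assoc]
  exact h3

/-- the main inequality in real numbers -/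
theorem Goo_num {M CE C₁ C₂ Cm c₁ K R B l b m s T L G Ge P DE' DV' : ℝ}
    (hM0 : 0 < M) (hCE : 0 < CE) (hC₁ : 0 < C₁) (hC₂ : 0 < C₂) (hCm : 0 < Cm) (hc₁ : 0 < c₁)
    (hK : 0 < K) (hR1 : 1 ≤ R) (hB : 0 < B) (hl : 0 < l) (hl1 : l ≤ 1) (hb : 0 ≤ b)
    (hbl : b ≤ K * l) (hs0 : 0 ≤ s) (hs1 : s ≤ 1) (hT : 0 ≤ T) (hL : 0 ≤ L) (hG : 0 ≤ G)
    (hGe : 0 ≤ Ge)
    (hDE : DE' ≤ -(1 / 8) * T + CE / B * L + b * G + CE * (b + l) * √L
      + CE * |m| * (1 / B + s) * √L + CE * (|m| + b + l) * (T + L) + CE * l * s * G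
      + CE / (R * l) * Ge)
    (hDV : DV' ≤ -c₁ * L + C₁ * T + C₁ * P + C₁ * (b ^ 2 + l ^ 2)
      + C₂ * (s + l + b + |m|) * (T + L) + C₂ * Ge)
    (hm : |m| ≤ Cm * (√L + √Ge)) (hTG : 2 * (R * l) * G ≤ T)
    (hσ1 : (M * CE + C₂) * (|m| + b + l + s) ≤ M / 64)
    (hσ2 : (M * CE + C₂) * (|m| + b + l + s) ≤ c₁ / 16)
    (hMC : 64 * C₁ ≤ M) (hB1 : M * CE / B ≤ c₁ / 16)
    (hB2 : 2 * (M * CE * Cm) * (1 / B + s) ≤ c₁ / 8) (hR : 64 * (K + CE) ≤ R) :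
    M * DE' + DV' ≤ -(M / 32) * T - c₁ / 2 * L - M / 32 * (R * l * G)
      + (4 / c₁ * (M * CE * (K + 1)) ^ 2 + C₁ * (K ^ 2 + 1)) * l ^ 2 + C₁ * P
      + (M * CE + C₂ + c₁ / 16) / l * Ge := by
  have hx := Real.sqrt_nonneg L
  have hxx : √L * √L = L := Real.mul_self_sqrt hL
  have hyy : √Ge * √Ge = Ge := Real.mul_self_sqrt hGe
  have hMCE : 0 < M * CE := mul_pos hM0 hCE
  have hBs : 0 ≤ 1 / B + s := by positivity
  have s1 := Goo_s1 hMCE hc₁ hK hl hbl hx hxx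
  have s2 := Goo_s2 hMCE hCm hBs hx hxx hyy hm hB2
  have s3 := Goo_s3 hMCE hs0 hT hL hσ1 hσ2
  have s4 := Goo_s4 hM0 hCE hl hG hbl hs1 hR
  have s5 := Goo_s5 hM0 hCE hC₂ hc₁ hR1 hl hl1 hGe
  have s6 := Goo_s6 (C₁ := C₁) hC₁ hb hbl
  have s7 := mul_le_mul_of_nonneg_right hB1 hL
  have s8 : C₁ * T ≤ M / 64 * T := mul_le_mul_of_nonneg_right (by linarith) hT
  have s9 : M / 64 * (2 * (R * l) * G) ≤ M / 64 * T :=
    mul_le_mul_of_nonneg_left hTG (by positivity)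
  have hRlG : 0 ≤ R * l * G := mul_nonneg (mul_nonneg (by linarith) hl.le) hG
  have hMR : 0 ≤ M * (R * l * G) := mul_nonneg hM0.le hRlG
  have hME := mul_le_mul_of_nonneg_left hDE hM0.le
  have e1 : M * (-(1 / 8) * T + CE / B * L + b * G + CE * (b + l) * √L
      + CE * |m| * (1 / B + s) * √L + CE * (|m| + b + l) * (T + L) + CE * l * s * G
      + CE / (R * l) * Ge) = -(M / 8) * T + M * CE / B * L + M * (b * G)
      + M * CE * (b + l) * √L + M * CE * |m| * (1 / B + s) * √L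
      + M * CE * (|m| + b + l) * (T + L) + M * (CE * l * s * G) + M * (CE / (R * l) * Ge) := by
    ring
  have e2 : C₂ * (s + l + b + |m|) * (T + L) = C₂ * (|m| + b + l + s) * (T + L) := by ring
  rw [e1] at hME
  rw [e2] at hDV
  have hMT : 0 ≤ M * T := mul_nonneg hM0.le hT
  have hcL : 0 ≤ c₁ * L := mul_nonneg hc₁.le hL
  linarith

theorem Goo_kap_nonneg {k : ℕ} (hk : 5 ≤ k) : 0 ≤ kap k := by
  unfold kap sc
  have h5 : (5 : ℝ) ≤ k := by exact_mod_cast hk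
  have h0 : (0 : ℝ) < k := by linarith
  have h1 : 0 ≤ 1 / 2 - 2 / (k : ℝ) := by
    rw [sub_nonneg, div_le_div_iff₀ h0 (by norm_num)]
    linarith
  exact div_nonneg (integral_nonneg fun y => sq_nonneg _)
    (mul_nonneg h1 (integral_nonneg fun y => sq_nonneg _))

theorem Goo_min (l : List ℝ) (h : ∀ x ∈ l, 0 < x) : ∃ c : ℝ, 0 < c ∧ ∀ x ∈ l, c ≤ x := by
  induction l with
  | nil => exact ⟨1, one_pos, by simp⟩
  | cons a l ih =>
    obtain ⟨c, hc, h2⟩ := ih fun x hx => h x (List.mem_cons_of_mem _ hx)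
    refine ⟨min a c, lt_min (h a List.mem_cons_self) hc, fun x hx => ?_⟩
    rcases List.mem_cons.1 hx with rfl | hx
    · exact min_le_left _ _
    · exact (min_le_right _ _).trans (h2 x hx)

theorem Goo_max (l : List ℝ) : ∃ c : ℝ, 1 ≤ c ∧ ∀ x ∈ l, x ≤ c := by
  induction l with
  | nil => exact ⟨1, le_rfl, by simp⟩
  | cons a l ih =>
    obtain ⟨c, hc, h2⟩ := ih
    refine ⟨max a c, hc.trans (le_max_right _ _), fun x hx => ?_⟩
    rcases List.mem_cons.1 hx with rfl | hx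
    · exact le_max_left _ _
    · exact (h2 x hx).trans (le_max_right _ _)

theorem Goo_small {a b : ℝ} (ha : 0 ≤ a) (hb : 0 < b) :
    ∃ c₀ : ℝ, 0 < c₀ ∧ ∀ c, c ≤ c₀ → a * √c ≤ b := by
  have ha1 : 0 < a + 1 := by linarith
  refine ⟨(b / (a + 1)) ^ 2, by positivity, fun c hc => ?_⟩
  have h1 : √c ≤ b / (a + 1) := by
    rw [Real.sqrt_le_left (by positivity)]
    exact hc
  have h2 : a * √c ≤ (a + 1) * √c :=
    mul_le_mul_of_nonneg_right (by linarith) (Real.sqrt_nonneg c)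
  have h3 := mul_le_mul_of_nonneg_left h1 ha1.le
  have h4 : (a + 1) * (b / (a + 1)) = b := by field_simp
  linarith

theorem Goo_CO {M cL CL CV' Cup C G E V x : ℝ} (hM : 0 < M) (hcL : 0 < cL) (hG : 0 ≤ G)
    (hx : 0 ≤ x) (hC0 : 0 ≤ C) (h1 : cL * G ≤ E + CL * x) (hV : |V| ≤ CV' * G)
    (hE : |E| ≤ Cup * G) (hM3 : 4 * CV' ≤ M * cL) (hCa : 2 / (M * cL) ≤ C) (hCb : M * CL ≤ C)
    (hCc : M * Cup + CV' ≤ C) :
    G ≤ C * (M * E + V + C * x) ∧ |M * E + V| ≤ C * G := by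
  have hMc : 0 < M * cL := mul_pos hM hcL
  constructor
  · have h2 := mul_le_mul_of_nonneg_left h1 hM.le
    have h3 : 4 * CV' * G ≤ M * cL * G := mul_le_mul_of_nonneg_right hM3 hG
    have h4 := (abs_le.1 hV).1
    have h5 : 0 ≤ M * cL * G := mul_nonneg hMc.le hG
    have h6 : M * cL / 2 * G ≤ M * E + V + M * CL * x := by
      have e1 : M * (cL * G) = M * cL * G := by ring
      have e2 : M * (E + CL * x) = M * E + M * CL * x := by ring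
      rw [e1, e2] at h2
      linarith
    have h7 : 0 ≤ M * E + V + M * CL * x := by
      have : 0 ≤ M * cL / 2 * G := by positivity
      linarith
    have h8 : M * E + V + M * CL * x ≤ M * E + V + C * x := by
      have := mul_le_mul_of_nonneg_right hCb hx
      linarith
    calc G = 2 / (M * cL) * (M * cL / 2 * G) := by field_simp
      _ ≤ 2 / (M * cL) * (M * E + V + M * CL * x) :=
        mul_le_mul_of_nonneg_left h6 (by positivity)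
      _ ≤ C * (M * E + V + M * CL * x) := mul_le_mul_of_nonneg_right hCa h7
      _ ≤ C * (M * E + V + C * x) := mul_le_mul_of_nonneg_left h8 hC0
  · have h2 := mul_le_mul_of_nonneg_right hCc hG
    have h3 : |M * E| ≤ M * (Cup * G) := by
      rw [abs_mul, abs_of_pos hM]
      exact mul_le_mul_of_nonneg_left hE hM.le
    have h4 := abs_add_le (M * E) V
    have e : (M * Cup + CV') * G = M * (Cup * G) + CV' * G := by ring
    rw [e] at h2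
    linarith

theorem Goo_LIP {M Cup CV' C x y E E' V V' : ℝ} (hM : 0 < M) (hx : 0 ≤ x) (hy : 0 ≤ y)
    (hE : |E - E'| ≤ Cup * x * y) (hV : |V - V'| ≤ CV' * x * y) (hCc : M * Cup + CV' ≤ C) :
    |M * E + V - (M * E' + V')| ≤ C * x * y := by
  have e1 : M * E + V - (M * E' + V') = M * (E - E') + (V - V') := by ring
  rw [e1]
  have h1 := abs_add_le (M * (E - E')) (V - V')
  have h2 : |M * (E - E')| ≤ M * (Cup * x * y) := by
    rw [abs_mul, abs_of_pos hM]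
    exact mul_le_mul_of_nonneg_left hE hM.le
  have h3 := mul_le_mul_of_nonneg_right hCc (mul_nonneg hx hy)
  have e2 : (M * Cup + CV') * (x * y) = M * (Cup * x * y) + CV' * x * y := by ring
  rw [e2, ← mul_assoc] at h3
  linarith

/-- comparison of constants in the main inequality -/
theorem Goo_cmp {M c c₁ X C₁ Y C T L R l G Ge p q D : ℝ} (hl : 0 < l) (hT : 0 ≤ T) (hL : 0 ≤ L)
    (hRG : 0 ≤ R * l * G) (hGe : 0 ≤ Ge)
    (h : D ≤ -(M / 32) * T - c₁ / 2 * L - M / 32 * (R * l * G)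
      + X * l ^ 2 + C₁ * (p ^ 2 + q ^ 2) + Y / l * Ge)
    (hc1 : c ≤ M / 32) (hc2 : c ≤ c₁ / 2) (hX : X ≤ C) (hC₁ : C₁ ≤ C) (hY : Y ≤ C) :
    D ≤ -c * (T + L) - c * R * l * G + C * (l ^ 2 + p ^ 2 + q ^ 2) + C / l * Ge := by
  have s1 := mul_le_mul_of_nonneg_right hc1 hT
  have s2 := mul_le_mul_of_nonneg_right hc2 hL
  have s3 := mul_le_mul_of_nonneg_right hc1 hRG
  have s4 := mul_le_mul_of_nonneg_right hX (sq_nonneg l)
  have s5 := mul_le_mul_of_nonneg_right hC₁ (add_nonneg (sq_nonneg p) (sq_nonneg q))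
  have s6 := mul_le_mul_of_nonneg_right (div_le_div_of_nonneg_right hY hl.le) hGe
  have e1 : -c * (T + L) - c * R * l * G + C * (l ^ 2 + p ^ 2 + q ^ 2) + C / l * Ge =
    -(c * T) - c * L - c * (R * l * G) + C * l ^ 2 + C * (p ^ 2 + q ^ 2) + C / l * Ge := by ring
  rw [e1]
  linarith

theorem Goo_tau {A Cm K c l m b τ x y : ℝ} (hA : 0 < A) (hCm : 0 < Cm) (hm : |m| ≤ Cm * (x + y))
    (hx : x ≤ √c) (hy : y ≤ √c) (hbl : b ≤ K * l)
    (h1 : A * (2 * Cm) * √c ≤ τ / 4) (h2 : A * c ≤ τ / 4) (h3 : A * (K + 1) * l ≤ τ / 2) :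
    A * (|m| + b + l + c) ≤ τ := by
  have h4 : Cm * (x + y) ≤ Cm * (√c + √c) := mul_le_mul_of_nonneg_left (by linarith) hCm.le
  have h5 : |m| + b + l + c ≤ 2 * Cm * √c + (K + 1) * l + c := by
    have e1 : Cm * (√c + √c) = 2 * Cm * √c := by ring
    have e2 : (K + 1) * l = K * l + l := by ring
    linarith
  have h6 := mul_le_mul_of_nonneg_left h5 hA.le
  have e3 : A * (2 * Cm * √c + (K + 1) * l + c) =
    A * (2 * Cm) * √c + A * (K + 1) * l + A * c := by ring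
  linarith

theorem thmG : ThmG := by
  intro k hk
  obtain ⟨γ, η, δ, c₁, C₁, B₀, hγ, hγ8, hη, hη1, hδ, hδ16, hc₁, hC₁, hB₀, hDV0⟩ := DV_le k hk
  obtain ⟨ν, CE, hν, hν1, hCE, hDE0⟩ := DE_le k hk
  obtain ⟨cm, Cm, hcm, hcm1, hCm, hBM0⟩ := BM_st k hk
  obtain ⟨ν', cL, CL, B₁, hν', hν'1, hcL, hCL, hB₁, hCO0⟩ := CO_E k hk
  obtain ⟨Cup, hCup, hUp0⟩ := CO_up k hk
  obtain ⟨CV', hCV, hCV0⟩ := CV k hk γ η δ hη hη1 hδ hδ16
  obtain ⟨CD, hCD, hDL0⟩ := DL_st k hk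
  obtain ⟨CN, hCN, hLN0⟩ := LN_st k hk
  have hkap := Goo_kap_nonneg hk
  obtain ⟨K, hKdef⟩ : ∃ K : ℝ, K = 2 * kap k + 1 := ⟨_, rfl⟩
  have hK : 0 < K := by linarith
  have hK2 : 2 * kap k ≤ K := by linarith
  obtain ⟨M, hM1, hMl⟩ := Goo_max [64 * C₁, 4 * CV' / cL]
  have hM : 0 < M := by linarith
  have hM2 : 64 * C₁ ≤ M := hMl _ (by simp)
  have hM3 : 4 * CV' ≤ M * cL := by
    have := hMl (4 * CV' / cL) (by simp)
    rwa [div_le_iff₀ hcL] at this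
  obtain ⟨B, -, hBl⟩ := Goo_max [16, B₀, B₁, M * CE * 16 / c₁, 2 * (M * CE * Cm) * 16 / c₁]
  have hB16 : 16 ≤ B := hBl _ (by simp)
  have hB : 0 < B := by linarith
  have hBB₀ : B₀ ≤ B := hBl _ (by simp)
  have hBB₁ : B₁ ≤ B := hBl _ (by simp)
  have hB1 : M * CE / B ≤ c₁ / 16 := by
    have := hBl (M * CE * 16 / c₁) (by simp)
    rw [div_le_iff₀ hc₁] at this
    rw [div_le_div_iff₀ hB (by norm_num)]
    linarith
  have hB2 : 2 * (M * CE * Cm) * (1 / B) ≤ c₁ / 16 := by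
    have := hBl (2 * (M * CE * Cm) * 16 / c₁) (by simp)
    rw [div_le_iff₀ hc₁] at this
    rw [mul_one_div, div_le_div_iff₀ hB (by norm_num)]
    linarith
  obtain ⟨C₂, hC₂, hDV⟩ := hDV0 B hBB₀
  obtain ⟨cX, CX, hcX, hcX1, hCX, hDX0⟩ := DX_st k hk B hB16
  obtain ⟨cI, CI, cn, hcI, hcI1, hCI, hcn, hIN0⟩ := IN_st k hk M hM
  have hA : 0 < M * CE + C₂ := by positivity
  obtain ⟨τ, hτ, hτl⟩ := Goo_min [M / 64, c₁ / 16] (by
    intro x hx
    rcases List.mem_cons.1 hx with rfl | hx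
    · positivity
    rcases List.mem_cons.1 hx with rfl | hx
    · positivity
    · simp at hx)
  have hτ1 : τ ≤ M / 64 := hτl _ (by simp)
  have hτ2 : τ ≤ c₁ / 16 := hτl _ (by simp)
  obtain ⟨d₁, hd₁, hd₁'⟩ := Goo_small (a := (M * CE + C₂) * (2 * Cm)) (b := τ / 4)
    (by positivity) (by positivity)
  obtain ⟨d₂, hd₂, hd₂'⟩ := Goo_small (a := 2 * Cm) (b := 1) (by positivity) one_pos
  obtain ⟨c, hc, hcl⟩ := Goo_min [1, ν, ν', cm, cX, cI, M / 32, c₁ / 2, d₁, d₂,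
    τ / 4 / (M * CE + C₂), c₁ / 16 / (2 * (M * CE * Cm))] (by
    intro x hx
    simp only [List.mem_cons, List.not_mem_nil, or_false] at hx
    rcases hx with rfl | rfl | rfl | rfl | rfl | rfl | rfl | rfl | rfl | rfl | rfl | rfl <;>
    positivity)
  have hc1 : c ≤ 1 := hcl _ (by simp)
  have hcν : c ≤ ν := hcl _ (by simp)
  have hcν' : c ≤ ν' := hcl _ (by simp)
  have hccm : c ≤ cm := hcl _ (by simp)
  have hccX : c ≤ cX := hcl _ (by simp)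
  have hccI : c ≤ cI := hcl _ (by simp)
  have hcM : c ≤ M / 32 := hcl _ (by simp)
  have hcc₁ : c ≤ c₁ / 2 := hcl _ (by simp)
  have hcd₁ := hd₁' c (hcl _ (by simp))
  have hcd₂ := hd₂' c (hcl _ (by simp))
  have hcA : (M * CE + C₂) * c ≤ τ / 4 := by
    have := hcl (τ / 4 / (M * CE + C₂)) (by simp)
    rw [le_div_iff₀ hA] at this
    linarith
  have hcB : 2 * (M * CE * Cm) * c ≤ c₁ / 16 := by
    have := hcl (c₁ / 16 / (2 * (M * CE * Cm))) (by simp)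
    rw [le_div_iff₀ (by positivity)] at this
    linarith
  obtain ⟨C, hC1, hCl⟩ := Goo_max [64 * (K + CE), C₁,
    4 / c₁ * (M * CE * (K + 1)) ^ 2 + C₁ * (K ^ 2 + 1), M * CE + C₂ + c₁ / 16, Cm,
    2 / (M * cL), M * CL, M * Cup + CV', CD * (1 + Cm), CX, CN, CI]
  have hCa : 64 * (K + CE) ≤ C := hCl _ (by simp)
  have hCb : C₁ ≤ C := hCl _ (by simp)
  have hCc : 4 / c₁ * (M * CE * (K + 1)) ^ 2 + C₁ * (K ^ 2 + 1) ≤ C := hCl _ (by simp)
  have hCd : M * CE + C₂ + c₁ / 16 ≤ C := hCl _ (by simp)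
  have hCe : Cm ≤ C := hCl _ (by simp)
  have hCf : 2 / (M * cL) ≤ C := hCl _ (by simp)
  have hCg : M * CL ≤ C := hCl _ (by simp)
  have hCh : M * Cup + CV' ≤ C := hCl _ (by simp)
  have hCi : CD * (1 + Cm) ≤ C := hCl _ (by simp)
  have hCj : CX ≤ C := hCl _ (by simp)
  have hCk : CN ≤ C := hCl _ (by simp)
  have hCn : CI ≤ C := hCl _ (by simp)
  have hC0 : 0 ≤ C := by linarith
  refine ⟨γ, η, δ, M, B, c, C, hγ, hη, hδ, hM, hB16, hc, hc1, hC1, ?_, ?_, ?_, ?_, ?_, ?_, ?_,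
    ?_⟩
  · -- ML
    intro R hR
    have hR1 : 1 ≤ R := hC1.trans hR
    obtain ⟨l₁, hl₁, hl₁1, hE⟩ := hDE0 γ hγ hγ8 B hB16 R hR1 K hK
    obtain ⟨l₂, hl₂, hl₂l⟩ := Goo_min [1, l₁, 1 / K, τ / 2 / ((M * CE + C₂) * (K + 1))] (by
      intro x hx
      simp only [List.mem_cons, List.not_mem_nil, or_false] at hx
      rcases hx with rfl | rfl | rfl | rfl <;> positivity)
    refine ⟨l₂, hl₂, hl₂l _ (by simp), ?_⟩
    intro l hl hll p q ε e hAε hAe hε hln hGe b m hb hbl hO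
    have hl1 : l ≤ 1 := hll.trans (hl₂l _ (by simp))
    obtain ⟨hS, hE'⟩ := hE l hl (hll.trans (hl₂l _ (by simp)))
    have hbK : b ≤ K * l := hbl.trans (mul_le_mul_of_nonneg_right hK2 hl.le)
    have hb1 : b ≤ 1 := by
      have h1 : l ≤ 1 / K := hll.trans (hl₂l _ (by simp))
      rw [le_div_iff₀ hK] at h1
      linarith
    have hl3 : (M * CE + C₂) * (K + 1) * l ≤ τ / 2 := by
      have h1 : l ≤ τ / 2 / ((M * CE + C₂) * (K + 1)) := hll.trans (hl₂l _ (by simp))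
      rw [le_div_iff₀ (by positivity)] at h1
      linarith
    have DE := hE' p q c ε e hAε hAe hcν hε b m hb hbK
    have DV := hDV (R * l) hS p q ε e hAε hAe c hc1 hε b m l hb hb1 hl hl1
    have BM := (hBM0 γ hγ hγ8 B (R * l) hS l hl hl1 p q ε e hAε hAe
      (fun y => (hε y).trans hc1) (hln.trans hccm) (hGe.trans hc1) b m hO).2
    have nT := Goo_T_nonneg hS ε
    have nL := Goo_l_nonneg γ B ε
    have nG := Goo_G_nonneg (B := B) (ρ := R * l) ε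
    have nGe := Goo_G_nonneg (B := B) (ρ := R * l) e
    have hxc : √(ln γ B ε) ≤ √c := Real.sqrt_le_sqrt hln
    have hyc : √(Gn B (R * l) e) ≤ √c := Real.sqrt_le_sqrt hGe
    have hσ := Goo_tau hA hCm BM hxc hyc hbK hcd₁ hcA hl3
    have key := Goo_num (K := K) hM hCE hC₁ hC₂ hCm hc₁ hK hR1 hB hl hl1 hb hbK hc.le hc1 nT nL
      nG nGe DE DV BM (Goo_TG hS hAε) (hσ.trans hτ1) (hσ.trans hτ2) hM2 hB1
      (by rw [mul_add]; linarith) (hCa.trans hR)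
    exact Goo_cmp hl nT nL (mul_nonneg (mul_nonneg (by linarith) hl.le) nG) nGe key hcM hcc₁
      hCc hCb hCd
  · -- BM
    intro ρ hS l hl hl1 p q ε e hAε hAe hε hln hGe b m hO
    obtain ⟨h1, h2⟩ := hBM0 γ hγ hγ8 B ρ hS l hl hl1 p q ε e hAε hAe
      (fun y => (hε y).trans hc1) (hln.trans hccm) (hGe.trans hc1) b m hO
    have nL := Goo_l_nonneg γ B ε
    refine ⟨h1.trans (mul_le_mul_of_nonneg_right hCe (by positivity)),
      h2.trans (mul_le_mul_of_nonneg_right hCe (by positivity))⟩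
  · -- CO
    intro ρ hS p q ε hAε hε
    have hε1 : ∀ y, |ε y| ≤ 1 := fun y => (hε y).trans hc1
    have hA0 := Goo_Adm_zero hAε
    have hE := Goo_E_up (C := Cup) hAε (hUp0 B ρ hS p q ε (fun _ => (0 : ℝ)) hAε hA0 hε1
      (fun y => by simp))
    exact Goo_CO hM hcL (Goo_G_nonneg ε) (by positivity) hC0
      (hCO0 B ρ hS hBB₁ p q ε hAε fun y => (hε y).trans hcν')
      (hCV0 B ρ hS p q ε ε hAε hAε).1 hE hM3 hCf hCg hCh
  · -- DL
    intro ρ hS l hl hl1 p q ε e hAε hAe hε hln hGe b m hb hbl hO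
    have hε1 : ∀ y, |ε y| ≤ 1 := fun y => (hε y).trans hc1
    obtain ⟨-, h2⟩ := hBM0 γ hγ hγ8 B ρ hS l hl hl1 p q ε e hAε hAe hε1
      (hln.trans hccm) (hGe.trans hc1) b m hO
    have hxc : √(ln γ B ε) ≤ √c := Real.sqrt_le_sqrt hln
    have hyc : √(Gn B ρ e) ≤ √c := Real.sqrt_le_sqrt hGe
    have hm1 : |m| ≤ 1 := by
      have h3 : Cm * (√(ln γ B ε) + √(Gn B ρ e)) ≤ Cm * (√c + √c) :=
        mul_le_mul_of_nonneg_left (by linarith) hCm.le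
      have e1 : Cm * (√c + √c) = 2 * Cm * √c := by ring
      linarith
    have h3 := hDL0 γ hγ hγ8 B ρ hS l hl hl1 p q ε e hAε hAe hε1 (hln.trans hc1)
      (hGe.trans hc1) b m (by rw [abs_of_nonneg hb]; exact hbl) hm1
    have nx := Real.sqrt_nonneg (ln γ B ε)
    have ny := Real.sqrt_nonneg (Gn B ρ e)
    have h4 : √(ln γ B ε) + l + |m| + √(Gn B ρ e) ≤
        (1 + Cm) * (√(ln γ B ε) + l + √(Gn B ρ e)) := by
      have e2 : (1 + Cm) * (√(ln γ B ε) + l + √(Gn B ρ e)) =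
        √(ln γ B ε) + l + √(Gn B ρ e) + Cm * (√(ln γ B ε) + √(Gn B ρ e)) + Cm * l := by ring
      have := mul_pos hCm hl
      rw [e2]
      linarith
    calc |ip (zeta k b m l ε e) (ph0 k)| ≤ CD * (√(ln γ B ε) + l + |m| + √(Gn B ρ e)) := h3
      _ ≤ CD * ((1 + Cm) * (√(ln γ B ε) + l + √(Gn B ρ e))) :=
        mul_le_mul_of_nonneg_left h4 hCD.le
      _ = CD * (1 + Cm) * (√(ln γ B ε) + l + √(Gn B ρ e)) := by ring
      _ ≤ C * (√(ln γ B ε) + l + √(Gn B ρ e)) :=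
        mul_le_mul_of_nonneg_right hCi (by positivity)
  · -- DX
    intro ρ hS l hl hl1 p q ε e hAε hAe hε hln hGe hX b m hb hbl hO
    have hε1 : ∀ y, |ε y| ≤ 1 := fun y => (hε y).trans hc1
    have h1 := hDX0 γ hγ hγ8 ρ hS l hl hl1 p q ε e hAε hAe hε1 (hln.trans hccX)
      (hGe.trans hc1) hX b m hb hbl hO
    have nT := Goo_T_nonneg hS ε
    have nL := Goo_l_nonneg γ B ε
    have nGe := Goo_G_nonneg (B := B) (ρ := ρ) e
    have s1 := mul_le_mul_of_nonneg_right hCj (add_nonneg nT nL)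
    have s2 := mul_le_mul_of_nonneg_right hCj (sq_nonneg l)
    have s3 := mul_le_mul_of_nonneg_right hCj nGe
    have s4 := mul_le_mul_of_nonneg_right (div_le_div_of_nonneg_right hCj hl.le)
      (Goo_X_nonneg e)
    linarith
  · -- LN
    intro ρ hS p q ε hAε
    obtain ⟨h1, h2, h3, h4⟩ := hLN0 γ hγ hγ8 B ρ hS p q ε hAε
    have hs := Real.sqrt_nonneg (ln γ B ε)
    exact ⟨h1.trans (mul_le_mul_of_nonneg_right hCk (Goo_G_nonneg ε)),
      h2.trans (mul_le_mul_of_nonneg_right hCk hs), h3.trans (mul_le_mul_of_nonneg_right hCk hs),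
      h4.trans (mul_le_mul_of_nonneg_right hCk hs)⟩
  · -- LIP
    intro ρ hS p q ε ε' hAε hAε' hε hε'
    exact Goo_LIP hM (Real.sqrt_nonneg _) (add_nonneg (Real.sqrt_nonneg _) (Real.sqrt_nonneg _))
      (hUp0 B ρ hS p q ε ε' hAε hAε' (fun y => (hε y).trans hc1) fun y => (hε' y).trans hc1)
      (hCV0 B ρ hS p q ε ε' hAε hAε').2 hCh
  · -- IN
    refine ⟨cn, hcn, fun ρ hS a ha => ?_⟩
    have hρ : 0 < ρ := hS.2.1
    exact (hIN0 γ η δ B ρ hS a (ha.trans hccI)).trans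
      (mul_le_mul_of_nonneg_right hCn (by positivity))

end H98KB
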