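import Pool.Agent.H98.KB.Defs

/-!
# Interface of part A (Theorem A of the note): owner helper37
-/

open MeasureTheory Filter Topology Set
open scoped ContDiff

namespace H98KB

/-- Statement of Theorem A.  `K` does not depend on `ν`; the constants in `App.bound` and in the
Lipschitz bounds may depend on `ν`. -/
def ThmA : Prop :=
  ∀ (k : ℕ) (_ : 5 ≤ k) (l₀ T α a₁ : ℝ) (_ : 0 < l₀) (_ : l₀ ≤ 1) (_ : 0 < T) (_ : 1 ≤ α)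
    (_ : 8 * α * l₀ ≤ 1) (_ : 0 < a₁) (_ : a₁ ≤ 1)
    (u p : ℝ → ℝ → ℝ → ℝ)
    (_ : ∀ a ∈ Icc (-a₁) a₁, IsGlobalSol k (dat k l₀ a) (u a) (p a)),
    ∃ K : ℝ, 0 < K ∧ ∀ ν : ℝ, 0 < ν → ∃ U e : ℝ → ℝ → ℝ → ℝ,
      (∀ a ∈ Icc (-a₁) a₁, App k T α (U a) (e a) ∧
        (∀ t ∈ Icc 0 T, nw α (U a t) ≤ K ∧ nw α (e a t) ≤ ν) ∧
        nw α (fun x => U a 0 x - dat k l₀ a x) ≤ ν) ∧
      (∀ j : ℕ, ∃ C : ℝ, ∀ a ∈ Icc (-a₁) a₁, ∀ a' ∈ Icc (-a₁) a₁, ∀ t ∈ Icc 0 T, ∀ x,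
        |iteratedDeriv j (U a t) x - iteratedDeriv j (U a' t) x| ≤
            C * |a - a'| * bd (α / 2) (1 / 16) x ∧
        |iteratedDeriv j (e a t) x - iteratedDeriv j (e a' t) x| ≤
            C * |a - a'| * bd (α / 2) (1 / 16) x)

end H98KB
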