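import Pool.Agent.H98.KB.Som

/-!
# Sma : the smoothing operator `Sm δ = (1-δ∂²)^{-1}` on the class `Cl`

`s = √δ ≤ 1/4`, `K(z) = e^{-|z|/s}/(2s)`, `∫K=1`, `Sm δ f y = ∫ K(z) f(y-z) dz`.
`bd p q (y-z) ≤ bd p q y · e^{2|z|}` if `|p|,|q| ≤ 2`, and `K(z)e^{2|z|}` is integrable (`1/s ≥ 4`), so
differentiation under the integral sign is allowed: `(Sm f)' = Sm f'`, `Sm f ∈ Cl p q`.
`Sm_eq`: integrate by parts on each half line: `∫ K(z) f''(y-z) dz = (1/δ)(Sm f y - f y)`: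
on `z>0` : `∫_0^∞ K f''(y-z) = K(0)f'(y) - (1/s)K(0) f(y) + (1/s²)∫_0^∞ K f(y-z)`, on `z<0` similarly with
`-K(0)f'(y) - (1/s)K(0)f(y) + (1/s²)∫_{-∞}^0 K f(y-z)`, and `2K(0)/s = 1/δ`.
`Sm_symm`: Fubini, or from `Sm_eq` : `f = a - δa''`, `g = b - δ b''` (`a=Sm f`, `b = Sm g`),
`∫ a g = ∫ a b - δ∫ a b'' = ∫ a b - δ ∫ a'' b = ∫ f b` (needs `0<p+p'`, `0<q+q'` only, by `Cl_ibp` twice).
`Sm_wt`: with `v = Sm f`: multiply `v - δv'' = f` by `W v`:
`∫Wv² + δ∫Wv'² - (δ/2)∫W''v² = ∫ W f v ≤ (1/2)∫Wf² + (1/2)∫Wv²`, and `δ|W''| ≤ W/4`.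
-/

open MeasureTheory Filter Topology Set
open scoped ContDiff

namespace H98KB

variable {δ p q p' q' : ℝ} {f g : ℝ → ℝ}

/-- the kernel -/
private noncomputable def Sma_K (δ z : ℝ) : ℝ := Real.exp (-|z| / √δ) / (2 * √δ)

private theorem Sma_def (δ : ℝ) (f : ℝ → ℝ) (y : ℝ) :
    Sm δ f y = ∫ z, Sma_K δ z * f (y - z) := rfl

private theorem Sma_Kcont (δ : ℝ) : Continuous (Sma_K δ) := by
  unfold Sma_K
  fun_prop

private theorem Sma_Knn (δ z : ℝ) : 0 ≤ Sma_K δ z := by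
  unfold Sma_K
  positivity

private theorem Sma_sq (hδ : 0 < δ) : √δ * √δ = δ := Real.mul_self_sqrt hδ.le

private theorem Sma_s (hδ' : δ ≤ 1 / 16) : √δ ≤ 1 / 4 := by
  rw [Real.sqrt_le_left (by norm_num)]
  norm_num
  linarith

private theorem Sma_bd (hp : |p| ≤ 2) (hq : |q| ≤ 2) (y z : ℝ) :
    bd p q (y - z) ≤ bd p q y * Real.exp (2 * |z|) := by
  unfold bd
  rw [← Real.exp_add, Real.exp_le_exp]
  set a := max y 0 - max (y - z) 0 with ha
  set b := max (-y) 0 - max (-(y - z)) 0 with hb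
  have h1 : |a| + |b| ≤ |z| := by
    rcases le_total y 0 with h | h <;> rcases le_total (y - z) 0 with h' | h' <;>
    rcases le_total z 0 with h'' | h'' <;>
    simp only [ha, hb, max_eq_left, max_eq_right, h, h', neg_nonneg, Left.neg_nonpos_iff,
      abs_of_nonneg, abs_of_nonpos, h''] <;>
    first
    | (rw [abs_of_nonneg (by linarith), abs_of_nonneg (by linarith)]; linarith)
    | (rw [abs_of_nonneg (by linarith), abs_of_nonpos (by linarith)]; linarith)
    | (rw [abs_of_nonpos (by linarith), abs_of_nonneg (by linarith)]; linarith)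
  have h2 : p * a ≤ 2 * |a| := by
    calc p * a ≤ |p * a| := le_abs_self _
      _ = |p| * |a| := abs_mul _ _
      _ ≤ 2 * |a| := by gcongr
  have h3 : q * b ≤ 2 * |b| := by
    calc q * b ≤ |q * b| := le_abs_self _
      _ = |q| * |b| := abs_mul _ _
      _ ≤ 2 * |b| := by gcongr
  have h4 : -(p * max (y - z) 0) - q * max (-(y - z)) 0 =
      -(p * max y 0) - q * max (-y) 0 + (p * a + q * b) := by
    simp only [ha, hb]; ring
  linarith

private theorem Sma_K4 (hδ : 0 < δ) (hδ' : δ ≤ 1 / 16) (z : ℝ) :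
    Sma_K δ z ≤ Real.exp (-(4 * |z|)) / (2 * √δ) := by
  have hs := Sma_s hδ'
  have hs0 : 0 < √δ := Real.sqrt_pos.2 hδ
  unfold Sma_K
  apply div_le_div_of_nonneg_right _ (by positivity)
  rw [Real.exp_le_exp, neg_div, neg_le_neg_iff, le_div_iff₀ hs0]
  nlinarith [abs_nonneg z]

private theorem Sma_dom (hδ : 0 < δ) (hδ' : δ ≤ 1 / 16) (hp : |p| ≤ 2) (hq : |q| ≤ 2) {C : ℝ}
    (hC : 0 ≤ C) (hf : ∀ y, |f y| ≤ C * bd p q y) (y z : ℝ) :
    |Sma_K δ z * f (y - z)| ≤ C * bd p q y / (2 * √δ) * bd 2 2 z := by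
  have hs0 : 0 < √δ := Real.sqrt_pos.2 hδ
  rw [abs_mul, abs_of_nonneg (Sma_Knn δ z)]
  have h1 : |f (y - z)| ≤ C * (bd p q y * Real.exp (2 * |z|)) :=
    (hf _).trans (mul_le_mul_of_nonneg_left (Sma_bd hp hq y z) hC)
  calc Sma_K δ z * |f (y - z)| ≤ (Real.exp (-(4 * |z|)) / (2 * √δ)) *
        (C * (bd p q y * Real.exp (2 * |z|))) :=
        mul_le_mul (Sma_K4 hδ hδ' z) h1 (abs_nonneg _) (by positivity)
    _ = C * bd p q y / (2 * √δ) * (Real.exp (-(4 * |z|)) * Real.exp (2 * |z|)) := by ring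
    _ = C * bd p q y / (2 * √δ) * bd 2 2 z := by
        rw [bd_abs, ← Real.exp_add]; ring_nf

private theorem Sma_intg (hδ : 0 < δ) (hδ' : δ ≤ 1 / 16) (hp : |p| ≤ 2) (hq : |q| ≤ 2)
    (hf : Cl p q f) (y : ℝ) : Integrable (fun z => Sma_K δ z * f (y - z)) := by
  obtain ⟨C, hC, hb⟩ := Cl_bnd hf
  have hc := Cl_cont hf
  refine int_of_bd (p := 2) (q := 2) ?_ (by norm_num) (by norm_num)
    ⟨C * bd p q y / (2 * √δ), fun z => Sma_dom hδ hδ' hp hq hC hb y z⟩
  have := Sma_Kcont δ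
  fun_prop

private theorem Sma_bound (hδ : 0 < δ) (hδ' : δ ≤ 1 / 16) (hp : |p| ≤ 2) (hq : |q| ≤ 2)
    (hf : Cl p q f) : ∃ C : ℝ, ∀ y, |Sm δ f y| ≤ C * bd p q y := by
  obtain ⟨C, hC, hb⟩ := Cl_bnd hf
  refine ⟨C / (2 * √δ) * ∫ z, bd 2 2 z, fun y => ?_⟩
  rw [Sma_def]
  have h2 : Integrable (bd 2 2) := bd_int (by norm_num) (by norm_num)
  calc |∫ z, Sma_K δ z * f (y - z)| ≤ ∫ z, |Sma_K δ z * f (y - z)| :=
        abs_integral_le_integral_abs
    _ ≤ ∫ z, C * bd p q y / (2 * √δ) * bd 2 2 z :=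
        integral_mono (Sma_intg hδ hδ' hp hq hf y).abs (h2.const_mul _)
          (fun z => Sma_dom hδ hδ' hp hq hC hb y z)
    _ = C / (2 * √δ) * (∫ z, bd 2 2 z) * bd p q y := by
        rw [integral_const_mul]; ring

private theorem Sma_hd (hδ : 0 < δ) (hδ' : δ ≤ 1 / 16) (hp : |p| ≤ 2) (hq : |q| ≤ 2)
    (hf : Cl p q f) (y : ℝ) : HasDerivAt (Sm δ f) (Sm δ (deriv f) y) y := by
  have hf' := Cl_der hf
  obtain ⟨C, hC, hb⟩ := Cl_bnd hf'
  have hc := Cl_cont hf
  have hc' := Cl_cont hf'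
  have hK := Sma_Kcont δ
  have h2 : Integrable (bd 2 2) := bd_int (by norm_num) (by norm_num)
  have key := hasDerivAt_integral_of_dominated_loc_of_deriv_le (μ := volume)
    (F := fun (x z : ℝ) => Sma_K δ z * f (x - z))
    (F' := fun (x z : ℝ) => Sma_K δ z * deriv f (x - z)) (x₀ := y) (s := Metric.ball y 1)
    (bound := fun z => C * (bd p q y * Real.exp 2) / (2 * √δ) * bd 2 2 z)
    (Metric.ball_mem_nhds y one_pos)
    (Filter.Eventually.of_forall fun x => (by fun_prop : Continuous _).aestronglyMeasurable)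
    (Sma_intg hδ hδ' hp hq hf y)
    ((by fun_prop : Continuous _).aestronglyMeasurable)
    (Filter.Eventually.of_forall fun z x hx => by
      rw [Real.norm_eq_abs]
      refine (Sma_dom hδ hδ' hp hq hC hb x z).trans ?_
      have h3 : bd p q x ≤ bd p q y * Real.exp 2 := by
        have h4 := Sma_bd hp hq y (y - x)
        rw [sub_sub_cancel] at h4
        refine h4.trans (mul_le_mul_of_nonneg_left ?_ (bd_pos _ _ _).le)
        rw [Real.exp_le_exp]
        rw [Metric.mem_ball, Real.dist_eq, abs_sub_comm] at hx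
        linarith
      have h5 := (bd_pos 2 2 z).le
      gcongr)
    (h2.const_mul _)
    (Filter.Eventually.of_forall fun z x hx => by
      have h6 : HasDerivAt (fun x => f (x - z)) (deriv f (x - z)) x := by
        have := (Cl_hd hf (x - z)).comp x ((hasDerivAt_id x).sub_const z)
        exact this.congr_deriv (mul_one _)
      exact h6.const_mul _)
  exact key.2

private theorem Sma_dv (hδ : 0 < δ) (hδ' : δ ≤ 1 / 16) (hp : |p| ≤ 2) (hq : |q| ≤ 2)
    (hf : Cl p q f) : deriv (Sm δ f) = Sm δ (deriv f) :=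
  funext fun y => (Sma_hd hδ hδ' hp hq hf y).deriv

private theorem Sma_it (hδ : 0 < δ) (hδ' : δ ≤ 1 / 16) (hp : |p| ≤ 2) (hq : |q| ≤ 2) (j : ℕ) :
    ∀ f : ℝ → ℝ, Cl p q f → iteratedDeriv j (Sm δ f) = Sm δ (iteratedDeriv j f) := by
  induction j with
  | zero => intro f hf; simp
  | succ j ih =>
    intro f hf
    rw [iteratedDeriv_succ', iteratedDeriv_succ', Sma_dv hδ hδ' hp hq hf, ih _ (Cl_der hf)]

private theorem Sma_Clit (j : ℕ) : ∀ f : ℝ → ℝ, Cl p q f → Cl p q (iteratedDeriv j f) := by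
  induction j with
  | zero => intro f hf; simpa using hf
  | succ j ih =>
    intro f hf
    rw [iteratedDeriv_succ']
    exact ih _ (Cl_der hf)

theorem Cl_Sm (hδ : 0 < δ) (hδ' : δ ≤ 1 / 16) (hp : |p| ≤ 2) (hq : |q| ≤ 2) (hf : Cl p q f) :
    Cl p q (Sm δ f) := by
  refine ⟨?_, fun j => ?_⟩
  · refine contDiff_of_differentiable_iteratedDeriv (fun m _ => ?_)
    rw [Sma_it hδ hδ' hp hq m f hf]
    exact fun y => (Sma_hd hδ hδ' hp hq (Sma_Clit m f hf) y).differentiableAt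
  · rw [Sma_it hδ hδ' hp hq j f hf]
    exact Sma_bound hδ hδ' hp hq (Sma_Clit j f hf)

theorem Sm_deriv (hδ : 0 < δ) (hδ' : δ ≤ 1 / 16) (hp : |p| ≤ 2) (hq : |q| ≤ 2) (hf : Cl p q f) :
    deriv (Sm δ f) = Sm δ (deriv f) := Sma_dv hδ hδ' hp hq hf

private theorem Sma_lim (hδ : 0 < δ) (hδ' : δ ≤ 1 / 16) (hp : |p| ≤ 2) (hq : |q| ≤ 2)
    (hf : Cl p q f) (y : ℝ) :
    Tendsto (fun z => Sma_K δ z * f (y - z)) atTop (𝓝 0) ∧
    Tendsto (fun z => Sma_K δ z * f (y - z)) atBot (𝓝 0) := by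
  obtain ⟨C, hC, hb⟩ := Cl_bnd hf
  have h2 : Cl 2 2 (fun z : ℝ => (0:ℝ)) := Cl_zero
  have hT : Tendsto (fun z : ℝ => C * bd p q y / (2 * √δ) * bd 2 2 z) atTop (𝓝 0) := by
    have : Tendsto (fun z : ℝ => bd 2 2 z) atTop (𝓝 0) := by
      have h : Tendsto (fun z : ℝ => Real.exp (-(2 * z))) atTop (𝓝 0) := by
        apply Real.tendsto_exp_neg_atTop_nhds_zero.comp
        exact tendsto_id.const_mul_atTop (by norm_num)
      refine h.congr' ?_
      filter_upwards [eventually_ge_atTop 0] with z hz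
      rw [bd_of_nonneg hz]
    simpa using this.const_mul (C * bd p q y / (2 * √δ))
  have hB : Tendsto (fun z : ℝ => C * bd p q y / (2 * √δ) * bd 2 2 z) atBot (𝓝 0) := by
    have : Tendsto (fun z : ℝ => bd 2 2 z) atBot (𝓝 0) := by
      have h : Tendsto (fun z : ℝ => Real.exp (2 * z)) atBot (𝓝 0) := by
        apply Real.tendsto_exp_atBot.comp
        exact tendsto_id.const_mul_atBot (by norm_num)
      refine h.congr' ?_
      filter_upwards [eventually_le_atBot 0] with z hz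
      rw [bd_of_nonpos hz]
    simpa using this.const_mul (C * bd p q y / (2 * √δ))
  exact ⟨squeeze_zero_norm (fun z => Sma_dom hδ hδ' hp hq hC hb y z) hT,
    squeeze_zero_norm (fun z => Sma_dom hδ hδ' hp hq hC hb y z) hB⟩

private theorem Sma_half (hδ : 0 < δ) (hδ' : δ ≤ 1 / 16) (hp : |p| ≤ 2) (hq : |q| ≤ 2)
    (hf : Cl p q f) (y : ℝ) :
    ∫ z, Sma_K δ z * (deriv (deriv f) (y - z) - 1 / δ * f (y - z)) = -(f y / δ) := by
  have hs0 : 0 < √δ := Real.sqrt_pos.2 hδ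
  have hss := Sma_sq hδ
  have hf1 := Cl_der hf
  have hf2 := Cl_der hf1
  have hI : Integrable (fun z => Sma_K δ z * (deriv (deriv f) (y - z) - 1 / δ * f (y - z))) := by
    have h := (Sma_intg hδ hδ' hp hq hf2 y).sub
      ((Sma_intg hδ hδ' hp hq hf y).const_mul (1 / δ))
    refine h.congr (Filter.Eventually.of_forall fun z => ?_)
    simp only [Pi.sub_apply]
    ring
  have hdf : ∀ z, HasDerivAt (fun z => f (y - z)) (-deriv f (y - z)) z := by
    intro z
    have := (Cl_hd hf (y - z)).comp z ((hasDerivAt_id z).const_sub y)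
    exact this.congr_deriv (by ring)
  have hdf1 : ∀ z, HasDerivAt (fun z => deriv f (y - z)) (-deriv (deriv f) (y - z)) z := by
    intro z
    have := (Cl_hd hf1 (y - z)).comp z ((hasDerivAt_id z).const_sub y)
    exact this.congr_deriv (by ring)
  obtain ⟨l1, l1'⟩ := Sma_lim hδ hδ' hp hq hf y
  obtain ⟨l2, l2'⟩ := Sma_lim hδ hδ' hp hq hf1 y
  -- right half
  have hR : ∫ z in Ioi (0:ℝ), Sma_K δ z * (deriv (deriv f) (y - z) - 1 / δ * f (y - z)) =
      0 - (-(1 / (2 * √δ)) * deriv f y + 1 / √δ * (1 / (2 * √δ) * f y)) := by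
    have hcR : ContinuousWithinAt (fun z => -(Sma_K δ z * deriv f (y - z)) +
        1 / √δ * (Sma_K δ z * f (y - z))) (Ici 0) 0 := by
      have hc := Cl_cont hf
      have hc' := Cl_cont hf1
      have hK := Sma_Kcont δ
      exact (by fun_prop : Continuous _).continuousWithinAt
    have hv : -(Sma_K δ 0 * deriv f (y - 0)) + 1 / √δ * (Sma_K δ 0 * f (y - 0)) =
        (-(1 / (2 * √δ)) * deriv f y + 1 / √δ * (1 / (2 * √δ) * f y)) := by
      simp [Sma_K]
    rw [← hv]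
    refine integral_Ioi_of_hasDerivAt_of_tendsto hcR (fun z hz => ?_) hI.integrableOn ?_
    · have hz0 : (0:ℝ) < z := hz
      have hK' : HasDerivAt (Sma_K δ) (-(1 / √δ) * Sma_K δ z) z := by
        have h1 : HasDerivAt (fun z : ℝ => Real.exp (-z / √δ) / (2 * √δ))
            (Real.exp (-z / √δ) * (-1 / √δ) / (2 * √δ)) z :=
          ((((hasDerivAt_id z).neg).div_const (√δ)).exp).div_const _
        have h2 : Sma_K δ =ᶠ[𝓝 z] fun z : ℝ => Real.exp (-z / √δ) / (2 * √δ) := by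
          filter_upwards [lt_mem_nhds hz0] with w hw
          simp only [Sma_K, abs_of_pos hw]
        refine (h1.congr_of_eventuallyEq h2).congr_deriv ?_
        rw [h2.eq_of_nhds]
        ring
      have h3 := ((hK'.mul (hdf1 z)).neg).add ((hK'.mul (hdf z)).const_mul (1 / √δ))
      refine h3.congr_deriv ?_
      have e1 : 1 / √δ * (1 / √δ) = 1 / δ := by
        rw [div_mul_div_comm, hss, one_mul]
      linear_combination (-(Sma_K δ z * f (y - z))) * e1
    · have := (l2.neg).add (l1.const_mul (1 / √δ))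
      simpa using this
  -- left half
  have hL : ∫ z in Iic (0:ℝ), Sma_K δ z * (deriv (deriv f) (y - z) - 1 / δ * f (y - z)) =
      (-(1 / (2 * √δ)) * deriv f y - 1 / √δ * (1 / (2 * √δ) * f y)) - 0 := by
    have hcL : ContinuousWithinAt (fun z => -(Sma_K δ z * deriv f (y - z)) -
        1 / √δ * (Sma_K δ z * f (y - z))) (Iic 0) 0 := by
      have hc := Cl_cont hf
      have hc' := Cl_cont hf1
      have hK := Sma_Kcont δ
      exact (by fun_prop : Continuous _).continuousWithinAt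
    have hv : -(Sma_K δ 0 * deriv f (y - 0)) - 1 / √δ * (Sma_K δ 0 * f (y - 0)) =
        (-(1 / (2 * √δ)) * deriv f y - 1 / √δ * (1 / (2 * √δ) * f y)) := by
      simp [Sma_K]
    rw [← hv]
    refine integral_Iic_of_hasDerivAt_of_tendsto hcL (fun z hz => ?_) hI.integrableOn ?_
    · have hz0 : z < (0:ℝ) := hz
      have hK' : HasDerivAt (Sma_K δ) (1 / √δ * Sma_K δ z) z := by
        have h1 : HasDerivAt (fun z : ℝ => Real.exp (-(-z) / √δ) / (2 * √δ))
            (Real.exp (-(-z) / √δ) * (-(-1) / √δ) / (2 * √δ)) z :=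
          ((((hasDerivAt_id z).neg).neg.div_const (√δ)).exp).div_const _
        have h2 : Sma_K δ =ᶠ[𝓝 z] fun z : ℝ => Real.exp (-(-z) / √δ) / (2 * √δ) := by
          filter_upwards [gt_mem_nhds hz0] with w hw
          simp only [Sma_K, abs_of_neg hw]
        refine (h1.congr_of_eventuallyEq h2).congr_deriv ?_
        rw [h2.eq_of_nhds]
        ring
      have h3 := ((hK'.mul (hdf1 z)).neg).sub ((hK'.mul (hdf z)).const_mul (1 / √δ))
      refine h3.congr_deriv ?_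
      have e1 : 1 / √δ * (1 / √δ) = 1 / δ := by
        rw [div_mul_div_comm, hss, one_mul]
      linear_combination (-(Sma_K δ z * f (y - z))) * e1
    · have := (l2'.neg).sub (l1'.const_mul (1 / √δ))
      simpa using this
  rw [← intervalIntegral.integral_Iic_add_Ioi hI.integrableOn hI.integrableOn, hL, hR]
  have e1 : 1 / √δ * (1 / √δ) = 1 / δ := by
    rw [div_mul_div_comm, hss, one_mul]
  have e2 : 1 / (2 * √δ) = 1 / 2 * (1 / √δ) := by rw [div_mul_div_comm, one_mul]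
  rw [e2]
  linear_combination (-(f y)) * e1

theorem Sm_eq (hδ : 0 < δ) (hδ' : δ ≤ 1 / 16) (hp : |p| ≤ 2) (hq : |q| ≤ 2) (hf : Cl p q f) (y : ℝ) :
    Sm δ f y - δ * deriv (deriv (Sm δ f)) y = f y := by
  have hf1 := Cl_der hf
  have hf2 := Cl_der hf1
  rw [Sma_dv hδ hδ' hp hq hf, Sma_dv hδ hδ' hp hq hf1, Sma_def, Sma_def]
  have h := Sma_half hδ hδ' hp hq hf y
  have h1 : ∫ z, Sma_K δ z * (deriv (deriv f) (y - z) - 1 / δ * f (y - z)) =
      (∫ z, Sma_K δ z * deriv (deriv f) (y - z)) - 1 / δ * ∫ z, Sma_K δ z * f (y - z) := by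
    rw [← integral_const_mul, ← integral_sub (Sma_intg hδ hδ' hp hq hf2 y)
      ((Sma_intg hδ hδ' hp hq hf y).const_mul _)]
    congr 1
    funext z
    ring
  rw [h1] at h
  have hd : δ ≠ 0 := hδ.ne'
  field_simp at h
  linarith

theorem Sm_add (hδ : 0 < δ) (hδ' : δ ≤ 1 / 16) (hp : |p| ≤ 2) (hq : |q| ≤ 2) (hp' : |p'| ≤ 2)
    (hq' : |q'| ≤ 2) (hf : Cl p q f) (hg : Cl p' q' g) (y : ℝ) :
    Sm δ (fun y => f y + g y) y = Sm δ f y + Sm δ g y := by
  rw [Sma_def, Sma_def, Sma_def, ← integral_add (Sma_intg hδ hδ' hp hq hf y)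
    (Sma_intg hδ hδ' hp' hq' hg y)]
  congr 1
  funext z
  ring

theorem Sm_smul (c : ℝ) (y : ℝ) : Sm δ (fun y => c * f y) y = c * Sm δ f y := by
  rw [Sma_def, Sma_def, ← integral_const_mul]
  congr 1
  funext z
  ring

theorem Sm_zero (y : ℝ) : Sm δ (fun _ => 0) y = 0 := by
  rw [Sma_def]
  simp

/-- parity -/
theorem Sm_refl (f : ℝ → ℝ) (y : ℝ) : Sm δ (fun y => f (-y)) y = Sm δ f (-y) := by
  rw [Sma_def, Sma_def, ← integral_neg_eq_self]
  congr 1
  funext z
  have : Sma_K δ (-z) = Sma_K δ z := by simp [Sma_K]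
  rw [this]
  congr 2
  ring

theorem Sm_symm (hδ : 0 < δ) (hδ' : δ ≤ 1 / 16) (hp : |p| ≤ 2) (hq : |q| ≤ 2) (hp' : |p'| ≤ 2)
    (hq' : |q'| ≤ 2) (hf : Cl p q f) (hg : Cl p' q' g) (h1 : 0 < p + p') (h2 : 0 < q + q') :
    ip (Sm δ f) g = ip f (Sm δ g) := by
  have ha := Cl_Sm hδ hδ' hp hq hf
  have hb := Cl_Sm hδ hδ' hp' hq' hg
  have ha1 := Cl_der ha
  have hb1 := Cl_der hb
  have ha2 := Cl_der ha1
  have hb2 := Cl_der hb1
  unfold ip
  have e1 : ∫ y, Sm δ f y * g y = (∫ y, Sm δ f y * Sm δ g y) -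
      δ * ∫ y, Sm δ f y * deriv (deriv (Sm δ g)) y := by
    rw [← integral_const_mul, ← integral_sub (Cl_int (Cl_mul ha hb) h1 h2)
      ((Cl_int (Cl_mul ha hb2) h1 h2).const_mul _)]
    congr 1
    funext y
    rw [← Sm_eq hδ hδ' hp' hq' hg y]
    ring
  have e2 : ∫ y, f y * Sm δ g y = (∫ y, Sm δ f y * Sm δ g y) -
      δ * ∫ y, deriv (deriv (Sm δ f)) y * Sm δ g y := by
    rw [← integral_const_mul, ← integral_sub (Cl_int (Cl_mul ha hb) h1 h2)
      ((Cl_int (Cl_mul ha2 hb) h1 h2).const_mul _)]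
    congr 1
    funext y
    rw [← Sm_eq hδ hδ' hp hq hf y]
    ring
  rw [e1, e2, Cl_ibp ha1 hb h1 h2]
  have e3 := Cl_ibp ha hb1 h1 h2
  rw [e3]
  ring

theorem Sm_wt {W : ℝ → ℝ} {pw qw : ℝ} (hδ : 0 < δ) (hδ' : δ ≤ 1 / 16) (hp : |p| ≤ 2) (hq : |q| ≤ 2)
    (hf : Cl p q f) (hW : Cl pw qw W) (hWp : ∀ y, 0 < W y)
    (hW2 : ∀ y, δ * |deriv (deriv W) y| ≤ W y / 4) (h1 : 0 < 2 * p + pw) (h2 : 0 < 2 * q + qw) :
    (∫ y, W y * (Sm δ f y) ^ 2) ≤ 4 / 3 * ∫ y, W y * (f y) ^ 2 ∧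
    δ * (∫ y, W y * (deriv (Sm δ f) y) ^ 2) ≤ ∫ y, W y * (f y) ^ 2 := by
  have hv := Cl_Sm hδ hδ' hp hq hf
  have hE := Sm_eq hδ hδ' hp hq hf
  set v := Sm δ f with hvdef
  have hv1 := Cl_der hv
  have hv2 := Cl_der hv1
  have hW1 := Cl_der hW
  have hWW := Cl_der hW1
  have aux : ∀ {a b : ℝ → ℝ}, Cl p q a → Cl p q b → ∀ {w : ℝ → ℝ}, Cl pw qw w →
      Cl (2 * p + pw) (2 * q + qw) (fun y => w y * (a y * b y)) := by
    intro a b ha hb w hw
    have := Cl_mul hw (Cl_mul ha hb)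
    have e1 : pw + (p + p) = 2 * p + pw := by ring
    have e2 : qw + (q + q) = 2 * q + qw := by ring
    rwa [e1, e2] at this
  have hH1 := aux hv hv1 hW
  have hH2 := aux hv hv hW1
  have hH : Cl (2 * p + pw) (2 * q + qw)
      (fun y => δ * (W y * (v y * deriv v y)) - δ / 2 * (deriv W y * (v y * v y))) :=
    Cl_sub (Cl_smul δ hH1) (Cl_smul (δ / 2) hH2)
  have hdH : ∀ y, deriv (fun y => δ * (W y * (v y * deriv v y)) -
      δ / 2 * (deriv W y * (v y * v y))) y =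
      δ * (W y * (deriv v y) ^ 2) + δ * (W y * v y * deriv (deriv v) y) -
        δ / 2 * (deriv (deriv W) y * (v y) ^ 2) := by
    intro y
    have a1 := (Cl_hd hW y).mul ((Cl_hd hv y).mul (Cl_hd hv1 y))
    have a2 := (Cl_hd hW1 y).mul ((Cl_hd hv y).mul (Cl_hd hv y))
    have a3 := (a1.const_mul δ).sub (a2.const_mul (δ / 2))
    refine (HasDerivAt.deriv (f := fun y => δ * (W y * (v y * deriv v y)) -
      δ / 2 * (deriv W y * (v y * v y))) a3).trans ?_
    simp only [Pi.mul_apply]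
    ring
  have iv : Integrable (fun y => W y * (v y) ^ 2) := by
    have := Cl_int (aux hv hv hW) h1 h2
    refine this.congr (Filter.Eventually.of_forall fun y => ?_)
    simp only; ring
  have iv1 : Integrable (fun y => W y * (deriv v y) ^ 2) := by
    have := Cl_int (aux hv1 hv1 hW) h1 h2
    refine this.congr (Filter.Eventually.of_forall fun y => ?_)
    simp only; ring
  have iF : Integrable (fun y => W y * (f y) ^ 2) := by
    have := Cl_int (aux hf hf hW) h1 h2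
    refine this.congr (Filter.Eventually.of_forall fun y => ?_)
    simp only; ring
  have key := Cl_int_le (F := fun y => 3 / 8 * (W y * (v y) ^ 2) + δ * (W y * (deriv v y) ^ 2))
    (G := fun y => 1 / 2 * (W y * (f y) ^ 2))
    ((iv.const_mul _).add (iv1.const_mul _)) (iF.const_mul _) hH h1 h2 (fun y => by
      rw [hdH y]
      have w0 := hWp y
      have w2 := hW2 y
      have e := hE y
      have w3 : δ * deriv (deriv W) y ≤ W y / 4 := by
        refine le_trans ?_ w2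
        exact mul_le_mul_of_nonneg_left (le_abs_self _) hδ.le
      have w4 : δ * deriv (deriv W) y * v y ^ 2 ≤ W y / 4 * v y ^ 2 :=
        mul_le_mul_of_nonneg_right w3 (sq_nonneg _)
      have w5 : 0 ≤ W y * (f y - v y) ^ 2 := by positivity
      have e' : δ * deriv (deriv v) y = v y - f y := by linarith
      have e'' : δ * (W y * v y * deriv (deriv v) y) = W y * v y * (v y - f y) := by
        rw [← e']; ring
      rw [e'']
      nlinarith)
  rw [integral_add (iv.const_mul _) (iv1.const_mul _), integral_const_mul, integral_const_mul,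
    integral_const_mul] at key
  have n1 : 0 ≤ ∫ y, W y * (v y) ^ 2 :=
    integral_nonneg fun y => mul_nonneg (hWp y).le (sq_nonneg _)
  have n2 : 0 ≤ δ * ∫ y, W y * (deriv v y) ^ 2 :=
    mul_nonneg hδ.le (integral_nonneg fun y => mul_nonneg (hWp y).le (sq_nonneg _))
  have n3 : 0 ≤ ∫ y, W y * (f y) ^ 2 :=
    integral_nonneg fun y => mul_nonneg (hWp y).le (sq_nonneg _)
  constructor
  · linarith
  · linarith

end H98KB
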