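import Pool.Agent.H98.KB.Sma
import Pool.Agent.H98.KB.Sol2

/-!
# Smb : the function `v = vf k δ ε = Sm δ (L ε)`

`L ε = -ε''+ε-Q^kε`, `Sm δ ε'' = (Sm δ ε)'' = (Sm δ ε - ε)/δ`, so
`v = ε/δ + (1-1/δ) Sm ε - Sm (Q^k ε)`   (`vf_eq`), `v - δ v'' = L ε` (`vf_L`), `v' = ε'/δ+(1-1/δ)Sm ε'-Sm((Q^kε)')`.
`vf_wt`: by `Sm_wt` (applied to `ε, ε', Q^kε, (Q^kε)'`, all in `Cl p q`); `Q^k ≤ C0`, `|(Q^k)'| ≤ k C0`.
`vf_wt0`: only `∫W h²` on the right for `Sm δ (L h)` itself.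
`vf_Qd`: `L Q' = 0`;  `vf_LamQ`: `L ΛQ=-2Q`.
`ip_vf`: `(v, ΛQ - δ(ΛQ)'') = (v-δv'', ΛQ) = (Lε, ΛQ) = (ε, LΛQ) = -2(ε,Q)`.
-/

open MeasureTheory Filter Topology Set
open scoped ContDiff

namespace H98KB

variable {k : ℕ} {δ p q : ℝ} {ε : ℝ → ℝ}

theorem Cl_vf (hk : 1 ≤ k) (hδ : 0 < δ) (hδ' : δ ≤ 1 / 16) (hp : |p| ≤ 2) (hq : |q| ≤ 2)
    (hε : Cl p q ε) : Cl p q (vf k δ ε) :=
  Cl_Sm hδ hδ' hp hq (Cl_Lop hk hε)

theorem Smb_QE (hk : 1 ≤ k) (hε : Cl p q ε) : Cl p q (fun y => Qf k y ^ k * ε y) := by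
  have hk0 : (0 : ℝ) ≤ k := Nat.cast_nonneg k
  exact Cl_mono (Cl_mul (Cl_Qk hk) hε) (by linarith) (by linarith)

theorem vf_eq (hk : 1 ≤ k) (hδ : 0 < δ) (hδ' : δ ≤ 1 / 16) (hp : |p| ≤ 2) (hq : |q| ≤ 2)
    (hε : Cl p q ε) (y : ℝ) :
    vf k δ ε y = ε y / δ + (1 - 1 / δ) * Sm δ ε y - Sm δ (fun y => Qf k y ^ k * ε y) y := by
  have h2 := Cl_der (Cl_der hε)
  have hQ := Smb_QE hk hε
  have hL : Lop k ε = fun y => ((-1) * deriv (deriv ε) y + ε y) +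
      (-1) * (Qf k y ^ k * ε y) := by
    funext y
    unfold Lop
    ring
  have e1 : vf k δ ε y = (-1) * Sm δ (deriv (deriv ε)) y + Sm δ ε y +
      (-1) * Sm δ (fun y => Qf k y ^ k * ε y) y := by
    unfold vf
    rw [hL, Sm_add hδ hδ' hp hq hp hq (Cl_add (Cl_smul (-1) h2) hε) (Cl_smul (-1) hQ),
      Sm_add hδ hδ' hp hq hp hq (Cl_smul (-1) h2) hε, Sm_smul, Sm_smul]
  have e2 : deriv (deriv (Sm δ ε)) = Sm δ (deriv (deriv ε)) := by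
    rw [Sm_deriv hδ hδ' hp hq hε, Sm_deriv hδ hδ' hp hq (Cl_der hε)]
  have e3 := Sm_eq hδ hδ' hp hq hε y
  rw [e2] at e3
  rw [e1]
  field_simp
  linarith

theorem vf_L (hk : 1 ≤ k) (hδ : 0 < δ) (hδ' : δ ≤ 1 / 16) (hp : |p| ≤ 2) (hq : |q| ≤ 2)
    (hε : Cl p q ε) (y : ℝ) :
    vf k δ ε y - δ * deriv (deriv (vf k δ ε)) y = Lop k ε y :=
  Sm_eq hδ hδ' hp hq (Cl_Lop hk hε) y

theorem vf_add (hk : 1 ≤ k) {ε' : ℝ → ℝ} (hδ : 0 < δ) (hδ' : δ ≤ 1 / 16) (hp : |p| ≤ 2)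
    (hq : |q| ≤ 2) (hε : Cl p q ε) (hε' : Cl p q ε') (y : ℝ) :
    vf k δ (fun y => ε y + ε' y) y = vf k δ ε y + vf k δ ε' y := by
  have d1 : deriv (fun y => ε y + ε' y) = fun y => deriv ε y + deriv ε' y := by
    funext z
    exact ((Cl_hd hε z).add (Cl_hd hε' z)).deriv
  have d2 : deriv (fun y => deriv ε y + deriv ε' y) =
      fun y => deriv (deriv ε) y + deriv (deriv ε') y := by
    funext z
    exact ((Cl_hd (Cl_der hε) z).add (Cl_hd (Cl_der hε') z)).deriv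
  have hL : Lop k (fun y => ε y + ε' y) = fun y => Lop k ε y + Lop k ε' y := by
    funext z
    unfold Lop
    rw [d1, d2]
    ring
  unfold vf
  rw [hL, Sm_add hδ hδ' hp hq hp hq (Cl_Lop hk hε) (Cl_Lop hk hε')]

theorem vf_smul (hk : 1 ≤ k) (c : ℝ) (hε : Cl p q ε) (y : ℝ) :
    vf k δ (fun y => c * ε y) y = c * vf k δ ε y := by
  have d1 : deriv (fun y => c * ε y) = fun y => c * deriv ε y := by
    funext z
    exact ((Cl_hd hε z).const_mul c).deriv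
  have d2 : deriv (fun y => c * deriv ε y) = fun y => c * deriv (deriv ε) y := by
    funext z
    exact ((Cl_hd (Cl_der hε) z).const_mul c).deriv
  have hL : Lop k (fun y => c * ε y) = fun y => c * Lop k ε y := by
    funext z
    unfold Lop
    rw [d1, d2]
    ring
  unfold vf
  rw [hL, Sm_smul]

theorem vf_Qd (hk : 1 ≤ k) (δ : ℝ) (y : ℝ) : vf k δ (deriv (Qf k)) y = 0 := by
  have hL : Lop k (deriv (Qf k)) = fun _ => 0 := funext (fun z => L_Qd hk z)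
  unfold vf
  rw [hL, Sm_zero]

theorem vf_LamQ (hk : 1 ≤ k) (δ : ℝ) (y : ℝ) :
    vf k δ (Lam k (Qf k)) y = -2 * Sm δ (Qf k) y := by
  have hL : Lop k (Lam k (Qf k)) = fun y => -2 * Qf k y := funext (fun z => L_LamQ hk z)
  unfold vf
  rw [hL, Sm_smul]

theorem ip_vf (hk : 1 ≤ k) (hδ : 0 < δ) (hδ' : δ ≤ 1 / 16) (hp : 0 < p) (hp' : p ≤ 2) (hq : 0 < q)
    (hq' : q ≤ 2) (hε : Cl p q ε) :
    ip (vf k δ ε) (fun y => Lam k (Qf k) y - δ * deriv (deriv (Lam k (Qf k))) y) =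
      -2 * ip ε (Qf k) := by
  have hpa : |p| ≤ 2 := by rw [abs_of_pos hp]; exact hp'
  have hqa : |q| ≤ 2 := by rw [abs_of_pos hq]; exact hq'
  have hv := Cl_vf hk hδ hδ' hpa hqa hε
  have hΛ : Cl (1 / 2) (1 / 2) (Lam k (Qf k)) := Cl_LamQ hk (by norm_num)
  have i1 : ∫ y, deriv (deriv (Lam k (Qf k))) y * vf k δ ε y =
      -∫ y, deriv (Lam k (Qf k)) y * deriv (vf k δ ε) y :=
    Cl_ibp (Cl_der hΛ) hv (by linarith) (by linarith)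
  have i2 : ∫ y, deriv (Lam k (Qf k)) y * deriv (vf k δ ε) y =
      -∫ y, Lam k (Qf k) y * deriv (deriv (vf k δ ε)) y :=
    Cl_ibp hΛ (Cl_der hv) (by linarith) (by linarith)
  have n1 : Integrable (fun y => vf k δ ε y * Lam k (Qf k) y) :=
    Cl_int (Cl_mul hv hΛ) (by linarith) (by linarith)
  have n2 : Integrable (fun y => deriv (deriv (Lam k (Qf k))) y * vf k δ ε y) :=
    Cl_int (Cl_mul (Cl_der (Cl_der hΛ)) hv) (by linarith) (by linarith)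
  have n3 : Integrable (fun y => Lam k (Qf k) y * deriv (deriv (vf k δ ε)) y) :=
    Cl_int (Cl_mul hΛ (Cl_der (Cl_der hv))) (by linarith) (by linarith)
  have s1 : ip (vf k δ ε) (fun y => Lam k (Qf k) y - δ * deriv (deriv (Lam k (Qf k))) y) =
      (∫ y, vf k δ ε y * Lam k (Qf k) y) -
        δ * ∫ y, deriv (deriv (Lam k (Qf k))) y * vf k δ ε y := by
    rw [← integral_const_mul, ← integral_sub n1 (n2.const_mul δ)]
    unfold ip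
    congr 1
    funext y
    ring
  have s2 : ip (Lop k ε) (Lam k (Qf k)) = (∫ y, vf k δ ε y * Lam k (Qf k) y) -
        δ * ∫ y, Lam k (Qf k) y * deriv (deriv (vf k δ ε)) y := by
    rw [← integral_const_mul, ← integral_sub n1 (n3.const_mul δ)]
    unfold ip
    congr 1
    funext y
    rw [← vf_L hk hδ hδ' hpa hqa hε y]
    ring
  have s3 := Lop_symm hk hε hΛ (by linarith) (by linarith)
  have s4 : ip ε (Lop k (Lam k (Qf k))) = -2 * ip ε (Qf k) := by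
    unfold ip
    rw [← integral_const_mul]
    congr 1
    funext y
    rw [L_LamQ hk]
    ring
  rw [s1, i1, i2, neg_neg, ← s2, s3, s4]

theorem Smb_int {f W : ℝ → ℝ} {pw qw : ℝ} (hf : Cl p q f) (hW : Cl pw qw W)
    (h1 : 0 < 2 * p + pw) (h2 : 0 < 2 * q + qw) : Integrable (fun y => W y * (f y) ^ 2) := by
  have h := Cl_int (Cl_mul hW (Cl_mul hf hf)) (by linarith) (by linarith)
  refine h.congr (Eventually.of_forall fun y => ?_)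
  change W y * (f y * f y) = W y * f y ^ 2
  ring

theorem Smb_gen {f h W : ℝ → ℝ} {pw qw : ℝ} (hδ : 0 < δ) (hδ' : δ ≤ 1 / 16) (hp : |p| ≤ 2)
    (hq : |q| ≤ 2) (hf : Cl p q f) (hh : Cl p q h) (hW : Cl pw qw W) (hWp : ∀ y, 0 < W y)
    (hW2 : ∀ y, δ * |deriv (deriv W) y| ≤ W y / 4) (h1 : 0 < 2 * p + pw) (h2 : 0 < 2 * q + qw)
    (a b : ℝ) :
    ∫ y, W y * (a * f y + b * Sm δ f y - Sm δ h y) ^ 2 ≤
      (3 * a ^ 2 + 4 * b ^ 2) * (∫ y, W y * (f y) ^ 2) + 4 * ∫ y, W y * (h y) ^ 2 := by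
  have hSf := Cl_Sm hδ hδ' hp hq hf
  have hSh := Cl_Sm hδ hδ' hp hq hh
  have n1 := Smb_int hf hW h1 h2
  have n2 := Smb_int hSf hW h1 h2
  have n3 := Smb_int hSh hW h1 h2
  have n4 := Smb_int (Cl_sub (Cl_add (Cl_smul a hf) (Cl_smul b hSf)) hSh) hW h1 h2
  have w1 := (Sm_wt hδ hδ' hp hq hf hW hWp hW2 h1 h2).1
  have w2 := (Sm_wt hδ hδ' hp hq hh hW hWp hW2 h1 h2).1
  have m1 : ∫ y, W y * (a * f y + b * Sm δ f y - Sm δ h y) ^ 2 ≤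
      ∫ y, ((3 * a ^ 2) * (W y * (f y) ^ 2) + (3 * b ^ 2) * (W y * (Sm δ f y) ^ 2)) +
        3 * (W y * (Sm δ h y) ^ 2) := by
    refine integral_mono n4 (((n1.const_mul _).add (n2.const_mul _)).add (n3.const_mul _)) ?_
    intro y
    change W y * (a * f y + b * Sm δ f y - Sm δ h y) ^ 2 ≤
      ((3 * a ^ 2) * (W y * (f y) ^ 2) + (3 * b ^ 2) * (W y * (Sm δ f y) ^ 2)) +
        3 * (W y * (Sm δ h y) ^ 2)
    have e : (a * f y + b * Sm δ f y - Sm δ h y) ^ 2 ≤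
        3 * a ^ 2 * (f y) ^ 2 + 3 * b ^ 2 * (Sm δ f y) ^ 2 + 3 * (Sm δ h y) ^ 2 := by
      nlinarith [sq_nonneg (a * f y - b * Sm δ f y), sq_nonneg (a * f y + Sm δ h y),
        sq_nonneg (b * Sm δ f y + Sm δ h y)]
    have e2 := mul_le_mul_of_nonneg_left e (hWp y).le
    linarith
  have n12 : Integrable (fun y => (3 * a ^ 2) * (W y * (f y) ^ 2) +
      (3 * b ^ 2) * (W y * (Sm δ f y) ^ 2)) := (n1.const_mul _).add (n2.const_mul _)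
  rw [integral_add n12 (n3.const_mul _),
    integral_add (n1.const_mul _) (n2.const_mul _), integral_const_mul, integral_const_mul,
    integral_const_mul] at m1
  have e1 : 3 * b ^ 2 * (∫ y, W y * (Sm δ f y) ^ 2) ≤
      3 * b ^ 2 * (4 / 3 * ∫ y, W y * (f y) ^ 2) :=
    mul_le_mul_of_nonneg_left w1 (by positivity)
  linarith

theorem Smb_C0 (k : ℕ) : 0 < C0 k := by
  unfold C0
  positivity

theorem Smb_Qk (hk : 1 ≤ k) (y : ℝ) : 0 ≤ Qf k y ^ k ∧ Qf k y ^ k ≤ C0 k := by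
  have h0 := Qf_pow hk y
  have h1 := abs_lt.1 (th_abs_lt k y)
  have h2 : th k y ^ 2 ≤ 1 := by nlinarith
  have h3 := Smb_C0 k
  refine ⟨(pow_pos (Qf_pos k y) k).le, ?_⟩
  rw [h0]
  nlinarith [sq_nonneg (th k y)]

theorem Smb_QEd (hk : 1 ≤ k) (hε : Cl p q ε) (y : ℝ) :
    deriv (fun y => Qf k y ^ k * ε y) y =
      (-(k : ℝ) * th k y * Qf k y ^ k) * ε y + Qf k y ^ k * deriv ε y :=
  ((Qk_hd hk y).mul (Cl_hd hε y)).deriv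

theorem Smb_n1 {W : ℝ → ℝ} {pw qw : ℝ} (hk : 1 ≤ k) (hε : Cl p q ε) (hW : Cl pw qw W)
    (hWp : ∀ y, 0 < W y) (h1 : 0 < 2 * p + pw) (h2 : 0 < 2 * q + qw) :
    ∫ y, W y * (Qf k y ^ k * ε y) ^ 2 ≤ C0 k ^ 2 * ∫ y, W y * (ε y) ^ 2 := by
  rw [← integral_const_mul]
  refine integral_mono (Smb_int (Smb_QE hk hε) hW h1 h2)
    ((Smb_int hε hW h1 h2).const_mul _) ?_
  intro y
  change W y * (Qf k y ^ k * ε y) ^ 2 ≤ C0 k ^ 2 * (W y * ε y ^ 2)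
  obtain ⟨a1, a2⟩ := Smb_Qk hk y
  have e1 : (Qf k y ^ k) ^ 2 ≤ C0 k ^ 2 := pow_le_pow_left₀ a1 a2 2
  have e2 : 0 ≤ W y * ε y ^ 2 := mul_nonneg (hWp y).le (sq_nonneg _)
  have e3 := mul_le_mul_of_nonneg_right e1 e2
  have e4 : W y * (Qf k y ^ k * ε y) ^ 2 = (Qf k y ^ k) ^ 2 * (W y * ε y ^ 2) := by ring
  rw [e4]
  exact e3

theorem Smb_n2 {W : ℝ → ℝ} {pw qw : ℝ} (hk : 1 ≤ k) (hε : Cl p q ε) (hW : Cl pw qw W)
    (hWp : ∀ y, 0 < W y) (h1 : 0 < 2 * p + pw) (h2 : 0 < 2 * q + qw) :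
    ∫ y, W y * (deriv (fun y => Qf k y ^ k * ε y) y) ^ 2 ≤
      2 * (k : ℝ) ^ 2 * C0 k ^ 2 * (∫ y, W y * (ε y) ^ 2) +
        2 * C0 k ^ 2 * ∫ y, W y * (deriv ε y) ^ 2 := by
  have n1 := Smb_int hε hW h1 h2
  have n2 := Smb_int (Cl_der hε) hW h1 h2
  rw [← integral_const_mul, ← integral_const_mul, ← integral_add (n1.const_mul _)
    (n2.const_mul _)]
  refine integral_mono (Smb_int (Cl_der (Smb_QE hk hε)) hW h1 h2)
    ((n1.const_mul _).add (n2.const_mul _)) ?_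
  intro y
  change W y * (deriv (fun y => Qf k y ^ k * ε y) y) ^ 2 ≤
    2 * (k : ℝ) ^ 2 * C0 k ^ 2 * (W y * ε y ^ 2) + 2 * C0 k ^ 2 * (W y * deriv ε y ^ 2)
  rw [Smb_QEd hk hε]
  obtain ⟨a1, a2⟩ := Smb_Qk hk y
  have hth := abs_lt.1 (th_abs_lt k y)
  have ht2 : th k y ^ 2 ≤ 1 := by nlinarith
  set Qk := Qf k y ^ k with hQk
  have e1 : Qk ^ 2 ≤ C0 k ^ 2 := pow_le_pow_left₀ a1 a2 2
  have e0 : (-(k : ℝ) * th k y * Qk * ε y + Qk * deriv ε y) ^ 2 ≤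
      2 * (k : ℝ) ^ 2 * (th k y ^ 2) * (Qk ^ 2 * ε y ^ 2) + 2 * (Qk ^ 2 * deriv ε y ^ 2) := by
    nlinarith [sq_nonneg (-(k : ℝ) * th k y * Qk * ε y - Qk * deriv ε y)]
  have e2 : 0 ≤ 2 * (k : ℝ) ^ 2 * (Qk ^ 2 * ε y ^ 2) := by positivity
  have e3 : 2 * (k : ℝ) ^ 2 * (th k y ^ 2) * (Qk ^ 2 * ε y ^ 2) ≤
      2 * (k : ℝ) ^ 2 * (Qk ^ 2 * ε y ^ 2) := by
    have := mul_le_mul_of_nonneg_right ht2 e2
    linarith
  have e4 : 2 * (k : ℝ) ^ 2 * (Qk ^ 2 * ε y ^ 2) ≤ 2 * (k : ℝ) ^ 2 * (C0 k ^ 2 * ε y ^ 2) :=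
    mul_le_mul_of_nonneg_left (mul_le_mul_of_nonneg_right e1 (sq_nonneg _)) (by positivity)
  have e5 : Qk ^ 2 * deriv ε y ^ 2 ≤ C0 k ^ 2 * deriv ε y ^ 2 :=
    mul_le_mul_of_nonneg_right e1 (sq_nonneg _)
  have e6 : (-(k : ℝ) * th k y * Qk * ε y + Qk * deriv ε y) ^ 2 ≤
      2 * (k : ℝ) ^ 2 * (C0 k ^ 2 * ε y ^ 2) + 2 * (C0 k ^ 2 * deriv ε y ^ 2) := by linarith
  have e7 := mul_le_mul_of_nonneg_left e6 (hWp y).le
  linarith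

/-- weighted bound `∫W(v²+v'²) ≤ C_δ ∫W(ε²+ε'²)` -/
theorem vf_wt (k : ℕ) (hk : 1 ≤ k) (δ : ℝ) (hδ : 0 < δ) (hδ' : δ ≤ 1 / 16) : ∃ C : ℝ, 0 < C ∧
    ∀ (p q pw qw : ℝ) (ε W : ℝ → ℝ), |p| ≤ 2 → |q| ≤ 2 → Cl p q ε → Cl pw qw W →
    (∀ y, 0 < W y) → (∀ y, δ * |deriv (deriv W) y| ≤ W y / 4) → 0 < 2 * p + pw → 0 < 2 * q + qw →
    ∫ y, W y * ((vf k δ ε y) ^ 2 + (deriv (vf k δ ε) y) ^ 2) ≤
      C * ∫ y, W y * ((ε y) ^ 2 + (deriv ε y) ^ 2) := by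
  have hC0 := Smb_C0 k
  refine ⟨(3 * (1 / δ) ^ 2 + 4 * (1 - 1 / δ) ^ 2) + 12 * C0 k ^ 2 + 8 * (k : ℝ) ^ 2 * C0 k ^ 2,
    by positivity, ?_⟩
  intro p q pw qw ε W hp hq hε hW hWp hW2 h1 h2
  have hε' := Cl_der hε
  have hQ := Smb_QE hk hε
  have hv := Cl_vf hk hδ hδ' hp hq hε
  have n1 := Smb_int hε hW h1 h2
  have n2 := Smb_int hε' hW h1 h2
  have n3 := Smb_int hv hW h1 h2
  have n4 := Smb_int (Cl_der hv) hW h1 h2
  have g1 := Smb_gen hδ hδ' hp hq hε hQ hW hWp hW2 h1 h2 (1 / δ) (1 - 1 / δ)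
  have g2 := Smb_gen hδ hδ' hp hq hε' (Cl_der hQ) hW hWp hW2 h1 h2 (1 / δ) (1 - 1 / δ)
  have f1 : ∀ y, vf k δ ε y = 1 / δ * ε y + (1 - 1 / δ) * Sm δ ε y -
      Sm δ (fun y => Qf k y ^ k * ε y) y := by
    intro y
    rw [vf_eq hk hδ hδ' hp hq hε y]
    ring
  have f2 : ∀ y, deriv (vf k δ ε) y = 1 / δ * deriv ε y + (1 - 1 / δ) * Sm δ (deriv ε) y -
      Sm δ (deriv (fun y => Qf k y ^ k * ε y)) y := by
    intro y
    have e : vf k δ ε = fun y => 1 / δ * ε y + (1 - 1 / δ) * Sm δ ε y -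
      Sm δ (fun y => Qf k y ^ k * ε y) y := funext f1
    rw [e, ← Sm_deriv hδ hδ' hp hq hε, ← Sm_deriv hδ hδ' hp hq hQ]
    exact ((((Cl_hd hε y).const_mul (1 / δ)).add
      ((Cl_hd (Cl_Sm hδ hδ' hp hq hε) y).const_mul (1 - 1 / δ))).sub
      (Cl_hd (Cl_Sm hδ hδ' hp hq hQ) y)).deriv
  have s1 : ∫ y, W y * ((vf k δ ε y) ^ 2 + (deriv (vf k δ ε) y) ^ 2) =
      (∫ y, W y * (vf k δ ε y) ^ 2) + ∫ y, W y * (deriv (vf k δ ε) y) ^ 2 := by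
    rw [← integral_add n3 n4]
    congr 1
    funext y
    ring
  have s2 : ∫ y, W y * ((ε y) ^ 2 + (deriv ε y) ^ 2) =
      (∫ y, W y * (ε y) ^ 2) + ∫ y, W y * (deriv ε y) ^ 2 := by
    rw [← integral_add n1 n2]
    congr 1
    funext y
    ring
  simp only [← f1] at g1
  simp only [← f2] at g2
  rw [s1, s2]
  have q1 := Smb_n1 hk hε hW hWp h1 h2
  have q2 := Smb_n2 hk hε hW hWp h1 h2
  have p1 : 0 ≤ ∫ y, W y * (ε y) ^ 2 :=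
    integral_nonneg fun y => mul_nonneg (hWp y).le (sq_nonneg _)
  have p2 : 0 ≤ ∫ y, W y * (deriv ε y) ^ 2 :=
    integral_nonneg fun y => mul_nonneg (hWp y).le (sq_nonneg _)
  set I1 := ∫ y, W y * (ε y) ^ 2
  set I2 := ∫ y, W y * (deriv ε y) ^ 2
  have r1 : 0 ≤ C0 k ^ 2 * I1 := by positivity
  have r2 : 0 ≤ C0 k ^ 2 * I2 := by positivity
  have r3 : 0 ≤ (k : ℝ) ^ 2 * C0 k ^ 2 * I2 := by positivity
  nlinarith

/-- weighted bound without derivatives -/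
theorem vf_wt0 (k : ℕ) (hk : 1 ≤ k) (δ : ℝ) (hδ : 0 < δ) (hδ' : δ ≤ 1 / 16) : ∃ C : ℝ, 0 < C ∧
    ∀ (p q pw qw : ℝ) (ε W : ℝ → ℝ), |p| ≤ 2 → |q| ≤ 2 → Cl p q ε → Cl pw qw W →
    (∀ y, 0 < W y) → (∀ y, δ * |deriv (deriv W) y| ≤ W y / 4) → 0 < 2 * p + pw → 0 < 2 * q + qw →
    ∫ y, W y * (vf k δ ε y) ^ 2 ≤ C * ∫ y, W y * (ε y) ^ 2 := by
  have hC0 := Smb_C0 k
  refine ⟨(3 * (1 / δ) ^ 2 + 4 * (1 - 1 / δ) ^ 2) + 4 * C0 k ^ 2, by positivity, ?_⟩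
  intro p q pw qw ε W hp hq hε hW hWp hW2 h1 h2
  have hQ := Smb_QE hk hε
  have g1 := Smb_gen hδ hδ' hp hq hε hQ hW hWp hW2 h1 h2 (1 / δ) (1 - 1 / δ)
  have f1 : ∀ y, vf k δ ε y = 1 / δ * ε y + (1 - 1 / δ) * Sm δ ε y -
      Sm δ (fun y => Qf k y ^ k * ε y) y := by
    intro y
    rw [vf_eq hk hδ hδ' hp hq hε y]
    ring
  simp only [← f1] at g1
  have q1 := Smb_n1 hk hε hW hWp h1 h2
  linarith

end H98KB
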