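import Pool.Agent.H98.KB.Tan
import Pool.Agent.H98.KB.Clb

/-!
# Sol : the soliton

Write `t = th k y`, `κ = k/2`, `C0 = (k+1)(k+2)/2`; `t' = κ(1-t²)`.
* `Q' = -tQ` : `Q = A cosh(κy)^{-2/k}` (rpow), derivative `A (-(2/k)) cosh^{-2/k-1} sinh κ = -t Q`.
* `Q^k = C0 cosh(κ y)^{-2} = C0 (1-t²)` (`Real.rpow_natCast`, `Real.rpow_mul`).
* `Q'' = -t'Q + t²Q = (t² - κ(1-t²)) Q = Q - Q^{k+1}/(k+1)` since `C0/(k+1) = (k+2)/2 = 1+κ`.
* bounds: `e^{|κy|}/2 ≤ cosh(κy) ≤ e^{|κy|}` so `A e^{-|y|} ≤ Q ≤ A 2^{2/k} e^{-|y|}`.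
* `Cl_Qf`: `Cl_of_deriv`-type bootstrap: `Q' = -t Q` with `t ∈ Cl 0 0`: every iterated derivative of `Q` is
  (an element of `Cl 0 0`) times `Q` (induction).
-/

open MeasureTheory Filter Topology Set
open scoped ContDiff

namespace H98KB

/-- `C0 = (k+1)(k+2)/2` -/
noncomputable def C0 (k : ℕ) : ℝ := ((k : ℝ) + 1) * ((k : ℝ) + 2) / 2

variable {k : ℕ}

theorem Sol_C0_pos (k : ℕ) : 0 < C0 k := by
  unfold C0
  positivity

theorem Sol_Qf (k : ℕ) (y : ℝ) : Qf k y = C0 k ^ (1 / (k : ℝ)) *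
    (Real.cosh ((k : ℝ) * y / 2)) ^ (-(2 / (k : ℝ))) := rfl

theorem Sol_A_pos (k : ℕ) : 0 < C0 k ^ (1 / (k : ℝ)) := Real.rpow_pos_of_pos (Sol_C0_pos k) _

theorem Qf_pos (k : ℕ) (y : ℝ) : 0 < Qf k y := by
  rw [Sol_Qf]
  exact mul_pos (Sol_A_pos k) (Real.rpow_pos_of_pos (Real.cosh_pos _) _)

theorem Qf_neg (k : ℕ) (y : ℝ) : Qf k (-y) = Qf k y := by
  rw [Sol_Qf, Sol_Qf]
  have e : (k : ℝ) * -y / 2 = -((k : ℝ) * y / 2) := by ring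
  rw [e, Real.cosh_neg]

theorem Sol_cosh_hd (k : ℕ) (y : ℝ) : HasDerivAt (fun y => Real.cosh ((k : ℝ) * y / 2))
    (Real.sinh ((k : ℝ) * y / 2) * ((k : ℝ) / 2)) y := by
  have e0 : HasDerivAt (fun y : ℝ => (k : ℝ) * y / 2) ((k : ℝ) / 2) y := by
    have := ((hasDerivAt_id' y).const_mul (k : ℝ)).div_const 2
    rw [mul_one] at this
    exact this
  exact e0.cosh

theorem Qf_hd (hk : 1 ≤ k) (y : ℝ) : HasDerivAt (Qf k) (-(th k y) * Qf k y) y := by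
  have hk0 : (k : ℝ) ≠ 0 := by
    have : (1 : ℝ) ≤ k := by exact_mod_cast hk
    linarith
  have hc : Real.cosh ((k : ℝ) * y / 2) ≠ 0 := (Real.cosh_pos _).ne'
  have h1 := ((Sol_cosh_hd k y).rpow_const (p := -(2 / (k : ℝ))) (Or.inl hc)).const_mul
    (C0 k ^ (1 / (k : ℝ)))
  refine h1.congr_deriv ?_
  rw [Real.rpow_sub_one hc, Sol_Qf, th, Real.tanh_eq_sinh_div_cosh]
  field_simp

theorem Qf_deriv (hk : 1 ≤ k) : deriv (Qf k) = fun y => -(th k y) * Qf k y := by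
  funext y
  exact (Qf_hd hk y).deriv

theorem Sol_one_sub (k : ℕ) (y : ℝ) : 1 - th k y ^ 2 = (Real.cosh ((k : ℝ) * y / 2) ^ 2)⁻¹ := by
  have hc : Real.cosh ((k : ℝ) * y / 2) ≠ 0 := (Real.cosh_pos _).ne'
  have h2 := Real.cosh_sq ((k : ℝ) * y / 2)
  rw [th, Real.tanh_eq_sinh_div_cosh]
  field_simp
  rw [h2]
  ring

theorem Qf_pow (hk : 1 ≤ k) (y : ℝ) : Qf k y ^ k = C0 k * (1 - th k y ^ 2) := by
  have hk0 : (k : ℝ) ≠ 0 := by
    have : (1 : ℝ) ≤ k := by exact_mod_cast hk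
    linarith
  have hc := Real.cosh_pos ((k : ℝ) * y / 2)
  have hA : (C0 k ^ (1 / (k : ℝ))) ^ k = C0 k := by
    rw [one_div]
    exact Real.rpow_inv_natCast_pow (Sol_C0_pos k).le (by omega)
  have hB : (Real.cosh ((k : ℝ) * y / 2) ^ (-(2 / (k : ℝ)))) ^ k =
      (Real.cosh ((k : ℝ) * y / 2) ^ 2)⁻¹ := by
    rw [← Real.rpow_natCast, ← Real.rpow_mul hc.le]
    have e : -(2 / (k : ℝ)) * (k : ℝ) = -(2 : ℕ) := by
      push_cast
      field_simp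
    rw [e, Real.rpow_neg hc.le, Real.rpow_natCast]
  rw [Sol_Qf, mul_pow, hA, hB, Sol_one_sub]

theorem Qf_deriv2 (hk : 1 ≤ k) (y : ℝ) : deriv (deriv (Qf k)) y =
    (th k y ^ 2 - (k : ℝ) / 2 * (1 - th k y ^ 2)) * Qf k y := by
  rw [Qf_deriv hk]
  have h1 := ((th_hd k y).neg).mul (Qf_hd hk y)
  have h2 : HasDerivAt (fun y => -(th k y) * Qf k y)
      ((th k y ^ 2 - (k : ℝ) / 2 * (1 - th k y ^ 2)) * Qf k y) y := by
    refine h1.congr_deriv ?_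
    simp only [Pi.neg_apply]
    ring
  exact h2.deriv

theorem Qf_eq (hk : 1 ≤ k) (y : ℝ) : deriv (deriv (Qf k)) y = Qf k y - fl k (Qf k y) := by
  rw [Qf_deriv2 hk, fl, pow_succ (Qf k y) k, Qf_pow hk, C0]
  have h1 : (k : ℝ) + 1 ≠ 0 := by positivity
  field_simp
  ring

theorem Sol_exp (hk : 1 ≤ k) (y : ℝ) :
    Real.exp |(k : ℝ) * y / 2| ^ (-(2 / (k : ℝ))) = Real.exp (-|y|) := by
  have hk1 : (0 : ℝ) < k := by
    have : (1 : ℝ) ≤ k := by exact_mod_cast hk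
    linarith
  rw [← Real.exp_mul, abs_div, abs_mul, abs_of_pos hk1, abs_of_pos (by norm_num : (0 : ℝ) < 2)]
  congr 1
  field_simp

theorem Sol_r (hk : 1 ≤ k) : -(2 / (k : ℝ)) ≤ 0 := by
  have : 0 ≤ 2 / (k : ℝ) := by positivity
  linarith

theorem Qf_lo (hk : 1 ≤ k) : ∃ c : ℝ, 0 < c ∧ ∀ y, c * Real.exp (-|y|) ≤ Qf k y := by
  refine ⟨C0 k ^ (1 / (k : ℝ)), Sol_A_pos k, fun y => ?_⟩
  rw [Sol_Qf, ← Sol_exp hk]
  apply mul_le_mul_of_nonneg_left _ (Sol_A_pos k).le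
  apply Real.rpow_le_rpow_of_nonpos (Real.cosh_pos _) _ (Sol_r hk)
  rw [← Real.cosh_abs, Real.cosh_eq]
  have h1 : Real.exp (-|(k : ℝ) * y / 2|) ≤ Real.exp |(k : ℝ) * y / 2| :=
    Real.exp_le_exp.2 (by linarith [abs_nonneg ((k : ℝ) * y / 2)])
  linarith

theorem Qf_hi (hk : 1 ≤ k) : ∃ C : ℝ, 0 < C ∧ ∀ y, Qf k y ≤ C * Real.exp (-|y|) := by
  refine ⟨C0 k ^ (1 / (k : ℝ)) * (1 / 2 : ℝ) ^ (-(2 / (k : ℝ))), ?_, fun y => ?_⟩
  · exact mul_pos (Sol_A_pos k) (Real.rpow_pos_of_pos (by norm_num) _)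
  · rw [Sol_Qf, ← Sol_exp hk, mul_assoc]
    apply mul_le_mul_of_nonneg_left _ (Sol_A_pos k).le
    rw [← Real.mul_rpow (by norm_num) (Real.exp_pos _).le]
    apply Real.rpow_le_rpow_of_nonpos (by positivity) _ (Sol_r hk)
    rw [← Real.cosh_abs, Real.cosh_eq]
    have h1 := Real.exp_pos (-|(k : ℝ) * y / 2|)
    linarith

theorem Sol_iter (hk : 1 ≤ k) (j : ℕ) :
    ∃ g : ℝ → ℝ, Cl 0 0 g ∧ iteratedDeriv j (Qf k) = fun y => g y * Qf k y := by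
  induction j with
  | zero =>
    refine ⟨fun _ => 1, Cl_const 1, ?_⟩
    rw [iteratedDeriv_zero]
    funext y
    rw [one_mul]
  | succ j ih =>
    obtain ⟨g, hg, hj⟩ := ih
    refine ⟨fun y => deriv g y - th k y * g y, Cl_sub (Cl_der hg) (Cl_mul0 (Cl_th k) hg), ?_⟩
    rw [iteratedDeriv_succ, hj]
    funext y
    have h1 := (Cl_hd hg y).mul (Qf_hd hk y)
    have h2 : HasDerivAt (fun y => g y * Qf k y) ((deriv g y - th k y * g y) * Qf k y) y := by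
      refine h1.congr_deriv ?_
      ring
    exact h2.deriv

theorem Cl_Qf (hk : 1 ≤ k) : Cl 1 1 (Qf k) := by
  constructor
  · have h1 : ContDiff ℝ ∞ (fun y : ℝ => Real.cosh ((k : ℝ) * y / 2)) := by
      fun_prop
    have h2 : ContDiff ℝ ∞ (fun y : ℝ => Real.cosh ((k : ℝ) * y / 2) ^ (-(2 / (k : ℝ)))) :=
      h1.rpow_const_of_ne fun y => (Real.cosh_pos _).ne'
    exact contDiff_const.mul h2
  · intro j
    obtain ⟨g, hg, hj⟩ := Sol_iter hk j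
    obtain ⟨C, hC, hC'⟩ := Qf_hi hk
    obtain ⟨C2, hC2, hC2'⟩ := Cl_bnd hg
    refine ⟨C2 * C, fun y => ?_⟩
    rw [hj, bd_abs, one_mul]
    simp only
    rw [abs_mul, abs_of_pos (Qf_pos k y)]
    have h1 := hC2' y
    rw [bd_zero, mul_one] at h1
    calc |g y| * Qf k y ≤ C2 * (C * Real.exp (-|y|)) :=
          mul_le_mul h1 (hC' y) (Qf_pos k y).le hC2
      _ = C2 * C * Real.exp (-|y|) := by ring

theorem Cl_Qk (hk : 1 ≤ k) : Cl k k (fun y => Qf k y ^ k) := by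
  have := Cl_pow (Cl_Qf hk) k
  rwa [mul_one] at this

/-- `(Q^k)' = -k t Q^k` -/
theorem Qk_hd (hk : 1 ≤ k) (y : ℝ) :
    HasDerivAt (fun y => Qf k y ^ k) (-(k : ℝ) * th k y * Qf k y ^ k) y := by
  have h1 := (Qf_hd hk y).pow k
  refine h1.congr_deriv ?_
  obtain ⟨n, rfl⟩ : ∃ n, k = n + 1 := ⟨k - 1, by omega⟩
  rw [Nat.add_sub_cancel, pow_succ]
  ring

end H98KB
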