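import Pool.Agent.H98.KB.Vie

/-!
# Vco : the local `L²` norm is controlled by the virial form up to a small weighted term (Lemma V3)

`t = th k y`, `κ = k/2`, `Q' = -tQ`, `q := v/Q`, `Q q' = v' + t v`.  `P := Q·ΛQ`, `|P| ≤ C(1+|y|)e^{-2|y|}`, even.
`T(y) = ∫_y^∞ P` for `y ≥ 0`, `|T(y)| ≤ C(1+y)e^{-2y}`; `2T(0) = ∫QΛQ = -s_c∫Q² ≠ 0` (`k ≥ 5`).
Integrating by parts on each half line: `ip v ΛQ = ∫ P q = 2T(0)q(0) + ∫_0^∞ T(y)(q'(y) - q'(-y)) dy`
[`∫_0^∞ P q = T(0)q(0)+∫_0^∞ T q'`].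
Put `A ≥ 1`, `W_A = A t' + w`, `w = se2 γ`, `t'=κ(1-t²)`.  Weighted AM-GM: `W_A ≥ (A t')^ϑ w^{1-ϑ}` with `ϑ=1/(2k)`
(`x+y ≥ x^ϑ y^{1-ϑ}`, or: if `A t' ≥ w` then `W_A ≥ A t' ≥ (At')^ϑ w^{1-ϑ}`, else `W_A ≥ w ≥ ...`), hence
`1/W_A ≤ C A^{-ϑ} e^{(kϑ+2γ)|y|} ≤ C A^{-ϑ} e^{3|y|/4}` (`t' ≥ κ e^{-k|y|}`, `w ≥ e^{-2γ|y|}`, `γ ≤ 1/8`).
Set `I := ∫ W_A Q²q'² = A∫t'(v'+tv)² + ∫w(v'+tv)² ≤ A∫t'(v'+tv)²+2∫w(v²+v'²)`.
(1) `(∫|T(|y|)||q'|)² ≤ (∫T²/(Q²W_A)) I ≤ C A^{-ϑ} (∫(1+|y|)²e^{-4|y|+2|y|+3|y|/4}) I`; so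
    `q(0)² ≤ C((ip v ΛQ)² + A^{-ϑ} I)`.
(2) `|q(y)-q(0)|² ≤ (∫_0^{|y|}..1/(Q²W_A)) I ≤ C A^{-ϑ} e^{(2+3/4)|y|}·I` and `∫(1+k|y|)Q^{k+2}e^{11|y|/4} < ∞`.
So `∫(1+k|y|)Q^kv² = ∫(1+k|y|)Q^{k+2}q² ≤ C(q(0)²+A^{-ϑ}I) ≤ C((ip v ΛQ)²+A^{-ϑ}I)`; given `ν` choose `A` with
`2C A^{-ϑ} ≤ ν`.
Hint: all integrals of `|q'|` can be written with `|q'| = |v'+tv|/Q`; work with continuous functions; to avoid half
lines one may integrate the derivative of `sgn`-free quantities separately on `Ioi 0` and `Iic 0`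
(`integral_Ioi_mul_deriv_eq_deriv_mul` etc., or `HasDerivAt` of `T q` on `[0,∞)` with `T q → 0`: `T q = T v/Q`,
`|T/Q| ≤ C(1+y)e^{-y}`).
-/

open MeasureTheory Filter Topology Set
open scoped ContDiff

namespace H98KB

/-- Cauchy-Schwarz on an interval -/
theorem Vco_csi {f g : ℝ → ℝ} (hf : Continuous f) (hg : Continuous g) {a b : ℝ} (hab : a ≤ b) :
    (∫ x in a..b, f x * g x) ^ 2 ≤ (∫ x in a..b, f x ^ 2) * ∫ x in a..b, g x ^ 2 := by
  have key : ∀ s : ℝ, 0 ≤ (∫ x in a..b, f x ^ 2) * (s * s) + (2 * ∫ x in a..b, f x * g x) * s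
      + ∫ x in a..b, g x ^ 2 := by
    intro s
    have h1 : (∫ x in a..b, (s * f x + g x) ^ 2) = (∫ x in a..b, f x ^ 2) * (s * s)
        + (2 * ∫ x in a..b, f x * g x) * s + ∫ x in a..b, g x ^ 2 := by
      have : (fun x => (s * f x + g x) ^ 2)
          = fun x => ((s * s) * f x ^ 2 + (2 * s) * (f x * g x)) + g x ^ 2 := by
        ext x; ring
      rw [this, intervalIntegral.integral_add, intervalIntegral.integral_add,
        intervalIntegral.integral_const_mul, intervalIntegral.integral_const_mul]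
      · ring
      all_goals exact Continuous.intervalIntegrable (by fun_prop) _ _
    rw [← h1]
    exact intervalIntegral.integral_nonneg hab (fun x _ => sq_nonneg _)
  have := discrim_le_zero key
  unfold discrim at this
  nlinarith

/-- `G = v' + t v` -/
theorem Vco_ClG (k : ℕ) {p q : ℝ} {v : ℝ → ℝ} (hv : Cl p q v) :
    Cl p q (fun y => deriv v y + th k y * v y) :=
  Cl_add (Cl_der hv) (Cl_mul0 (Cl_th k) hv)

theorem Vco_rhd {k : ℕ} (hk : 1 ≤ k) {p q : ℝ} {v : ℝ → ℝ} (hv : Cl p q v) (y : ℝ) :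
    HasDerivAt (fun y => v y / Qf k y) ((deriv v y + th k y * v y) / Qf k y) y := by
  have hQ := Qf_pos k y
  have h := (Cl_hd hv y).div (Qf_hd hk y) hQ.ne'
  have e : (deriv v y * Qf k y - v y * (-th k y * Qf k y)) / Qf k y ^ 2
      = (deriv v y + th k y * v y) / Qf k y := by
    rw [div_eq_div_iff (pow_pos hQ 2).ne' hQ.ne']
    ring
  rw [e] at h
  exact h

/-- increments of `v/Q` -/
theorem Vco_incr {k : ℕ} (hk : 1 ≤ k) {c : ℝ} (hc : 0 < c)
    (hlo : ∀ y, c * Real.exp (-|y|) ≤ Qf k y)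
    {p q : ℝ} {v : ℝ → ℝ} (hp : 0 < p) (hq : 0 < q) (hv : Cl p q v) {a b Y : ℝ} (hab : a ≤ b)
    (hY : ∀ z ∈ Icc a b, |z| ≤ Y) :
    (v b / Qf k b - v a / Qf k a) ^ 2 ≤
      (∫ z, Real.exp (-(3 / 4 * |z|)) * (deriv v z + th k z * v z) ^ 2) *
        ((b - a) * (Real.exp (11 / 4 * Y) / c ^ 2)) := by
  have hG := Vco_ClG k hv
  have hGc := Cl_cont hG
  have hQc := Cl_cont (Cl_Qf hk)
  have hr : ∫ z in a..b, (deriv v z + th k z * v z) / Qf k z = v b / Qf k b - v a / Qf k a := by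
    apply intervalIntegral.integral_eq_sub_of_hasDerivAt (fun x _ => Vco_rhd hk hv x)
    apply Continuous.intervalIntegrable
    exact hGc.div hQc (fun x => (Qf_pos k x).ne')
  have hf : Continuous (fun z : ℝ => Real.exp (-(3 / 8 * |z|)) * (deriv v z + th k z * v z)) := by
    exact (by fun_prop : Continuous (fun z : ℝ => Real.exp (-(3 / 8 * |z|)))).mul hGc
  have hg : Continuous (fun z : ℝ => Real.exp (3 / 8 * |z|) / Qf k z) := by
    exact (by fun_prop : Continuous (fun z : ℝ => Real.exp (3 / 8 * |z|))).div hQc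
      (fun x => (Qf_pos k x).ne')
  have h0 : (fun z => (deriv v z + th k z * v z) / Qf k z)
      = fun z => (Real.exp (-(3 / 8 * |z|)) * (deriv v z + th k z * v z)) *
        (Real.exp (3 / 8 * |z|) / Qf k z) := by
    ext z
    have h1 : Real.exp (-(3 / 8 * |z|)) * Real.exp (3 / 8 * |z|) = 1 := by
      rw [← Real.exp_add]; simp
    calc (deriv v z + th k z * v z) / Qf k z
        = (Real.exp (-(3 / 8 * |z|)) * Real.exp (3 / 8 * |z|)) * ((deriv v z + th k z * v z) / Qf k z) := by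
          rw [h1, one_mul]
      _ = _ := by ring
  rw [← hr, h0]
  refine (Vco_csi hf hg hab).trans ?_
  have hG2 : Integrable (fun z : ℝ => Real.exp (-(3 / 4 * |z|)) * (deriv v z + th k z * v z) ^ 2) := by
    have h2 : Integrable (fun z : ℝ => (deriv v z + th k z * v z) ^ 2) := by
      have := Cl_pow hG 2
      exact Cl_int this (by push_cast; linarith) (by push_cast; linarith)
    refine h2.mono' ((by fun_prop : Continuous (fun z : ℝ => Real.exp (-(3 / 4 * |z|)))).mul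
      (hGc.pow 2)).aestronglyMeasurable (Eventually.of_forall fun z => ?_)
    rw [Real.norm_eq_abs, abs_of_nonneg (by positivity)]
    have : Real.exp (-(3 / 4 * |z|)) ≤ 1 := Real.exp_le_one_iff.2 (by have := abs_nonneg z; linarith)
    nlinarith [sq_nonneg (deriv v z + th k z * v z)]
  have hA : (∫ x in a..b, (Real.exp (-(3 / 8 * |x|)) * (deriv v x + th k x * v x)) ^ 2)
      ≤ ∫ z, Real.exp (-(3 / 4 * |z|)) * (deriv v z + th k z * v z) ^ 2 := by
    have h3 : (fun x : ℝ => (Real.exp (-(3 / 8 * |x|)) * (deriv v x + th k x * v x)) ^ 2)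
        = fun z => Real.exp (-(3 / 4 * |z|)) * (deriv v z + th k z * v z) ^ 2 := by
      ext z
      rw [mul_pow, sq (Real.exp _), ← Real.exp_add]
      congr 2; ring
    rw [h3, intervalIntegral.integral_of_le hab]
    exact setIntegral_le_integral hG2 (Eventually.of_forall fun z => by positivity)
  have hB : (∫ x in a..b, (Real.exp (3 / 8 * |x|) / Qf k x) ^ 2)
      ≤ (b - a) * (Real.exp (11 / 4 * Y) / c ^ 2) := by
    have h4 : ∀ x ∈ Icc a b, (Real.exp (3 / 8 * |x|) / Qf k x) ^ 2 ≤ Real.exp (11 / 4 * Y) / c ^ 2 := by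
      intro x hx
      have hx' := hY x hx
      have hQ := Qf_pos k x
      have h5 : Real.exp (3 / 8 * |x|) / Qf k x ≤ Real.exp (11 / 8 * Y) / c := by
        rw [div_le_div_iff₀ hQ hc]
        have h6 := hlo x
        have h7 : Real.exp (3 / 8 * |x|) ≤ Real.exp (11 / 8 * Y) * Real.exp (-|x|) := by
          rw [← Real.exp_add]
          apply Real.exp_le_exp.2
          linarith
        calc Real.exp (3 / 8 * |x|) * c ≤ (Real.exp (11 / 8 * Y) * Real.exp (-|x|)) * c := by gcongr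
          _ = Real.exp (11 / 8 * Y) * (c * Real.exp (-|x|)) := by ring
          _ ≤ Real.exp (11 / 8 * Y) * Qf k x := by gcongr
      have h8 : (Real.exp (11 / 8 * Y) / c) ^ 2 = Real.exp (11 / 4 * Y) / c ^ 2 := by
        rw [div_pow, sq (Real.exp _), ← Real.exp_add]
        congr 2; ring
      rw [← h8]
      exact pow_le_pow_left₀ (by positivity) h5 2
    calc (∫ x in a..b, (Real.exp (3 / 8 * |x|) / Qf k x) ^ 2)
        ≤ ∫ x in a..b, Real.exp (11 / 4 * Y) / c ^ 2 := by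
          apply intervalIntegral.integral_mono_on hab
          · exact (hg.pow 2).intervalIntegrable _ _
          · exact continuous_const.intervalIntegrable _ _
          · exact h4
      _ = _ := by rw [intervalIntegral.integral_const, smul_eq_mul]
  have hA0 : 0 ≤ (∫ x in a..b, (Real.exp (3 / 8 * |x|) / Qf k x) ^ 2) :=
    intervalIntegral.integral_nonneg hab (fun x _ => sq_nonneg _)
  have hB0 : 0 ≤ ∫ z, Real.exp (-(3 / 4 * |z|)) * (deriv v z + th k z * v z) ^ 2 :=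
    integral_nonneg fun z => by positivity
  exact mul_le_mul hA hB hA0 hB0

/-- the difference `v - (v/Q)(0) Q` -/
theorem Vco_diff {k : ℕ} (hk : 1 ≤ k) : ∃ C : ℝ, 0 < C ∧
    ∀ (p q : ℝ) (v : ℝ → ℝ), 0 < p → 0 < q → Cl p q v → ∀ y,
      (v y - v 0 / Qf k 0 * Qf k y) ^ 2 ≤ C * Real.exp (7 / 8 * |y|) *
        ∫ z, Real.exp (-(3 / 4 * |z|)) * (deriv v z + th k z * v z) ^ 2 := by
  obtain ⟨c, hc, hlo⟩ := Qf_lo hk
  obtain ⟨D, hD, hhi⟩ := Qf_hi hk
  refine ⟨8 * D ^ 2 / c ^ 2, by positivity, ?_⟩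
  intro p q v hp hq hv y
  set J := ∫ z, Real.exp (-(3 / 4 * |z|)) * (deriv v z + th k z * v z) ^ 2 with hJ
  have hJ0 : 0 ≤ J := integral_nonneg fun z => by positivity
  have hkey : (v y / Qf k y - v 0 / Qf k 0) ^ 2 ≤ J * (|y| * (Real.exp (11 / 4 * |y|) / c ^ 2)) := by
    rcases le_total 0 y with hy | hy
    · have := Vco_incr hk hc hlo hp hq hv hy (Y := |y|) (fun z hz => by
        rw [abs_of_nonneg hz.1, abs_of_nonneg hy]; exact hz.2)
      rw [sub_zero] at this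
      nth_rewrite 1 [abs_of_nonneg hy]
      exact this
    · have := Vco_incr hk hc hlo hp hq hv hy (Y := |y|) (fun z hz => by
        rw [abs_of_nonpos hz.2, abs_of_nonpos hy]; linarith [hz.1])
      rw [zero_sub] at this
      nth_rewrite 1 [abs_of_nonpos hy]
      calc (v y / Qf k y - v 0 / Qf k 0) ^ 2 = (v 0 / Qf k 0 - v y / Qf k y) ^ 2 := by ring
        _ ≤ _ := this
  have hQ := Qf_pos k y
  have h1 : v y - v 0 / Qf k 0 * Qf k y = (v y / Qf k y - v 0 / Qf k 0) * Qf k y := by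
    field_simp
  have h2 : Qf k y ^ 2 ≤ (D * Real.exp (-|y|)) ^ 2 := pow_le_pow_left₀ hQ.le (hhi y) 2
  have h3 : |y| ≤ 8 * Real.exp (1 / 8 * |y|) := by
    have := Real.add_one_le_exp (1 / 8 * |y|)
    linarith
  rw [h1, mul_pow]
  calc (v y / Qf k y - v 0 / Qf k 0) ^ 2 * Qf k y ^ 2
      ≤ (J * (|y| * (Real.exp (11 / 4 * |y|) / c ^ 2))) * (D * Real.exp (-|y|)) ^ 2 := by
        apply mul_le_mul hkey h2 (by positivity)
        have := abs_nonneg y
        positivity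
    _ ≤ (J * ((8 * Real.exp (1 / 8 * |y|)) * (Real.exp (11 / 4 * |y|) / c ^ 2))) * (D * Real.exp (-|y|)) ^ 2 := by
        gcongr
    _ = 8 * D ^ 2 / c ^ 2 * (Real.exp (1 / 8 * |y|) * Real.exp (11 / 4 * |y|) * (Real.exp (-|y|) * Real.exp (-|y|))) * J := by
        ring
    _ = 8 * D ^ 2 / c ^ 2 * Real.exp (7 / 8 * |y|) * J := by
        rw [← Real.exp_add, ← Real.exp_add, ← Real.exp_add]
        congr 3; ring

/-- the estimate with the weight `e^{-3|y|/4}` -/
theorem Vco_main {k : ℕ} (hk : 5 ≤ k) : ∃ C : ℝ, 0 < C ∧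
    ∀ (p q : ℝ) (v : ℝ → ℝ), 0 < p → 0 < q → Cl p q v →
    ∫ y, (1 + k * |y|) * Qf k y ^ k * (v y) ^ 2 ≤
      C * ((ip v (Lam k (Qf k))) ^ 2 +
        ∫ z, Real.exp (-(3 / 4 * |z|)) * (deriv v z + th k z * v z) ^ 2) := by
  have hk1 : 1 ≤ k := by omega
  obtain ⟨C1, hC1, hdiff⟩ := Vco_diff hk1
  obtain ⟨D, hD, hhi⟩ := Qf_hi hk1
  obtain ⟨E, hE, hLam⟩ := Cl_bnd (Cl_LamQ hk1 (c := 9 / 10) (by norm_num))
  set m := sc k * ∫ y, (Qf k y) ^ 2 with hm
  have hm0 : 0 < m := mul_pos (sc_pos hk) (Q2_pos hk1)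
  set M := ∫ y, bd (37 / 80) (37 / 80) y with hM
  have hM0 : 0 ≤ M := integral_nonneg fun y => (bd_pos _ _ _).le
  set N := ∫ y, bd 1 1 y with hN
  have hN0 : 0 ≤ N := integral_nonneg fun y => (bd_pos _ _ _).le
  set K := 2 * (k : ℝ) * D ^ k * (D ^ 2 + C1) with hK
  have hK0 : 0 ≤ K := by positivity
  refine ⟨K * N * (2 / m ^ 2 + 2 * C1 * E ^ 2 * M ^ 2 / m ^ 2 + 1) + 1, by positivity, ?_⟩
  intro p q v hp hq hv
  set J := ∫ z, Real.exp (-(3 / 4 * |z|)) * (deriv v z + th k z * v z) ^ 2 with hJ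
  have hJ0 : 0 ≤ J := integral_nonneg fun z => by positivity
  set q0 := v 0 / Qf k 0 with hq0
  have hvc := Cl_cont hv
  have hQc := Cl_cont (Cl_Qf hk1)
  have hLc := Cl_cont (Cl_LamQ hk1 (c := 9 / 10) (by norm_num))
  -- bound for the difference
  have hd : ∀ y, (v y - q0 * Qf k y) ^ 2 ≤ C1 * Real.exp (7 / 8 * |y|) * J :=
    fun y => hdiff p q v hp hq hv y
  set S := √(C1 * J) with hS
  have hS2 : S ^ 2 = C1 * J := Real.sq_sqrt (by positivity)
  have hS0 : 0 ≤ S := Real.sqrt_nonneg _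
  have hd' : ∀ y, |v y - q0 * Qf k y| ≤ S * Real.exp (7 / 16 * |y|) := by
    intro y
    apply abs_le_of_sq_le_sq _ (by positivity)
    rw [mul_pow, hS2, sq (Real.exp _), ← Real.exp_add]
    have : 7 / 16 * |y| + 7 / 16 * |y| = 7 / 8 * |y| := by ring
    rw [this]
    linarith [hd y]
  -- the pairing
  have hdL : |∫ y, (v y - q0 * Qf k y) * Lam k (Qf k) y| ≤ S * E * M := by
    have hpt : ∀ y, ‖(v y - q0 * Qf k y) * Lam k (Qf k) y‖ ≤ S * E * bd (37 / 80) (37 / 80) y := by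
      intro y
      rw [norm_mul, Real.norm_eq_abs, Real.norm_eq_abs]
      have h1 := hLam y
      rw [bd_abs] at h1
      calc |v y - q0 * Qf k y| * |Lam k (Qf k) y|
          ≤ (S * Real.exp (7 / 16 * |y|)) * (E * Real.exp (-(9 / 10 * |y|))) :=
            mul_le_mul (hd' y) h1 (abs_nonneg _) (by positivity)
        _ = S * E * (Real.exp (7 / 16 * |y|) * Real.exp (-(9 / 10 * |y|))) := by ring
        _ = S * E * bd (37 / 80) (37 / 80) y := by
            rw [← Real.exp_add, bd_abs]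
            congr 2; ring
    have hb := norm_integral_le_of_norm_le ((bd_int (p := 37 / 80) (q := 37 / 80) (by norm_num)
      (by norm_num)).const_mul (S * E)) (Eventually.of_forall hpt)
    rw [integral_const_mul, Real.norm_eq_abs] at hb
    exact hb
  have hsplit : ip v (Lam k (Qf k)) = q0 * (-m) + ∫ y, (v y - q0 * Qf k y) * Lam k (Qf k) y := by
    have h1 : ip (Lam k (Qf k)) (Qf k) = -m := by rw [ip_LamQ_Q hk1, hm]; ring
    have hvi : Integrable (fun y => v y * Lam k (Qf k) y) :=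
      Cl_int (Cl_mul hv (Cl_LamQ hk1 (c := 9 / 10) (by norm_num))) (by linarith) (by linarith)
    have hQi : Integrable (fun y => Lam k (Qf k) y * Qf k y) :=
      Cl_int (Cl_mul (Cl_LamQ hk1 (c := 9 / 10) (by norm_num)) (Cl_Qf hk1)) (by norm_num) (by norm_num)
    rw [← h1]
    unfold ip
    rw [← integral_const_mul, ← integral_add (hQi.const_mul q0)]
    · congr 1
      ext y
      ring
    · have h2 : (fun y => (v y - q0 * Qf k y) * Lam k (Qf k) y)
          = fun y => v y * Lam k (Qf k) y - q0 * (Lam k (Qf k) y * Qf k y) := by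
        ext y; ring
      rw [h2]
      exact hvi.sub (hQi.const_mul q0)
  set X := ip v (Lam k (Qf k)) with hX
  set Z := ∫ y, (v y - q0 * Qf k y) * Lam k (Qf k) y with hZ
  have hZ2 : Z ^ 2 ≤ C1 * J * E ^ 2 * M ^ 2 := by
    have h1 : Z ^ 2 ≤ (S * E * M) ^ 2 := by
      rw [← sq_abs Z]
      exact pow_le_pow_left₀ (abs_nonneg _) hdL 2
    calc Z ^ 2 ≤ (S * E * M) ^ 2 := h1
      _ = S ^ 2 * E ^ 2 * M ^ 2 := by ring
      _ = _ := by rw [hS2]
  have hq02 : q0 ^ 2 ≤ 2 / m ^ 2 * X ^ 2 + 2 * C1 * E ^ 2 * M ^ 2 / m ^ 2 * J := by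
    have h1 : q0 * m = Z - X := by linarith
    have h2 : q0 ^ 2 * m ^ 2 ≤ 2 * X ^ 2 + 2 * Z ^ 2 := by
      have : q0 ^ 2 * m ^ 2 = (Z - X) ^ 2 := by rw [← h1]; ring
      rw [this]; (first | linarith only [sq_nonneg (Z + X)] | nlinarith only [sq_nonneg (Z + X)])
    have h3 : q0 ^ 2 = (q0 ^ 2 * m ^ 2) / m ^ 2 := by field_simp
    rw [h3]
    calc (q0 ^ 2 * m ^ 2) / m ^ 2 ≤ (2 * X ^ 2 + 2 * (C1 * J * E ^ 2 * M ^ 2)) / m ^ 2 := by
          gcongr
          linarith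
      _ = _ := by ring
  -- pointwise bound of the integrand
  have hpt : ∀ y, (1 + k * |y|) * Qf k y ^ k * (v y) ^ 2 ≤ K * (q0 ^ 2 + J) * bd 1 1 y := by
    intro y
    have hQ := Qf_pos k y
    have hy0 := abs_nonneg y
    have hk5 : (5 : ℝ) ≤ k := by exact_mod_cast hk
    have h1 : Qf k y ^ k ≤ D ^ k * Real.exp (-(k * |y|)) := by
      calc Qf k y ^ k ≤ (D * Real.exp (-|y|)) ^ k := pow_le_pow_left₀ hQ.le (hhi y) k
        _ = D ^ k * Real.exp (-(k * |y|)) := by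
            rw [mul_pow, ← Real.exp_nat_mul]
            congr 2; ring
    have h2 : (1 + k * |y|) ≤ k * Real.exp |y| := by
      have := Real.add_one_le_exp |y|
      (first | linarith only [hk5, this] | nlinarith only [hk5, this])
    have h3 : (1 + k * |y|) * Qf k y ^ k ≤ k * D ^ k * Real.exp (-(4 * |y|)) := by
      calc (1 + k * |y|) * Qf k y ^ k ≤ (k * Real.exp |y|) * (D ^ k * Real.exp (-(k * |y|))) :=
            mul_le_mul h2 h1 (by positivity) (by positivity)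
        _ = k * D ^ k * (Real.exp |y| * Real.exp (-(k * |y|))) := by ring
        _ ≤ k * D ^ k * Real.exp (-(4 * |y|)) := by
            rw [← Real.exp_add]
            gcongr
            (first | linarith only [hk5, hy0] | nlinarith only [hk5, hy0])
    have h4 : Qf k y ^ 2 ≤ D ^ 2 := by
      have : Qf k y ≤ D := by
        have h5 := hhi y
        have : Real.exp (-|y|) ≤ 1 := Real.exp_le_one_iff.2 (by linarith)
        (first | linarith only [h5, hD, this] | nlinarith only [h5, hD, this])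
      exact pow_le_pow_left₀ hQ.le this 2
    have h5 : v y ^ 2 ≤ 2 * q0 ^ 2 * D ^ 2 + 2 * (C1 * Real.exp (7 / 8 * |y|) * J) := by
      have h6 := hd y
      have h7 : v y ^ 2 ≤ 2 * (q0 * Qf k y) ^ 2 + 2 * (v y - q0 * Qf k y) ^ 2 := by
        (first | linarith only [sq_nonneg (v y - 2 * (q0 * Qf k y))] | nlinarith only [sq_nonneg (v y - 2 * (q0 * Qf k y))])
      have h8 : (q0 * Qf k y) ^ 2 ≤ q0 ^ 2 * D ^ 2 := by
        rw [mul_pow]; gcongr
      linarith
    have he : 1 ≤ Real.exp (7 / 8 * |y|) := Real.one_le_exp (by positivity)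
    have h9 : v y ^ 2 ≤ 2 * (D ^ 2 + C1) * (q0 ^ 2 + J) * Real.exp (7 / 8 * |y|) := by
      have h10 : 2 * q0 ^ 2 * D ^ 2 ≤ 2 * q0 ^ 2 * D ^ 2 * Real.exp (7 / 8 * |y|) :=
        le_mul_of_one_le_right (by positivity) he
      have h11 : 0 ≤ 2 * D ^ 2 * J * Real.exp (7 / 8 * |y|) := by positivity
      have h12 : 0 ≤ 2 * C1 * q0 ^ 2 * Real.exp (7 / 8 * |y|) := by positivity
      (first | linarith only [h10, h11, h12, h5] | nlinarith only [h10, h11, h12, h5])
    calc (1 + k * |y|) * Qf k y ^ k * (v y) ^ 2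
        ≤ (k * D ^ k * Real.exp (-(4 * |y|))) *
          (2 * (D ^ 2 + C1) * (q0 ^ 2 + J) * Real.exp (7 / 8 * |y|)) :=
          mul_le_mul h3 h9 (by positivity) (by positivity)
      _ = K * (q0 ^ 2 + J) * (Real.exp (-(4 * |y|)) * Real.exp (7 / 8 * |y|)) := by
          rw [hK]; ring
      _ ≤ K * (q0 ^ 2 + J) * bd 1 1 y := by
          rw [← Real.exp_add, bd_abs]
          gcongr
          linarith
  have hfin : ∫ y, (1 + k * |y|) * Qf k y ^ k * (v y) ^ 2 ≤ K * (q0 ^ 2 + J) * N := by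
    have h1 := integral_mono_of_nonneg (Eventually.of_forall (fun y => by
        have hQ := Qf_pos k y
        have hy0 := abs_nonneg y
        show (0 : ℝ) ≤ (1 + k * |y|) * Qf k y ^ k * (v y) ^ 2
        positivity))
      ((bd_int (p := 1) (q := 1) one_pos one_pos).const_mul (K * (q0 ^ 2 + J)))
      (Eventually.of_forall hpt)
    rw [integral_const_mul] at h1
    exact h1
  refine hfin.trans ?_
  have hKN : 0 ≤ K * N := by positivity
  have hX2 : 0 ≤ X ^ 2 := sq_nonneg _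
  have ha : 0 ≤ 2 / m ^ 2 := by positivity
  have hb : 0 ≤ 2 * C1 * E ^ 2 * M ^ 2 / m ^ 2 := by positivity
  calc K * (q0 ^ 2 + J) * N = K * N * (q0 ^ 2 + J) := by ring
    _ ≤ K * N * ((2 / m ^ 2 * X ^ 2 + 2 * C1 * E ^ 2 * M ^ 2 / m ^ 2 * J) + J) := by gcongr
    _ ≤ K * N * ((2 / m ^ 2 + 2 * C1 * E ^ 2 * M ^ 2 / m ^ 2 + 1) * (X ^ 2 + J)) := by
        apply mul_le_mul_of_nonneg_left _ hKN
        (first | linarith only [mul_nonneg ha hJ0, mul_nonneg hb hX2, hJ0, hX2, ha, hb] | nlinarith only [mul_nonneg ha hJ0, mul_nonneg hb hX2, hJ0, hX2, ha, hb])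
    _ ≤ _ := by (first | linarith only [hJ0] | nlinarith only [hJ0])

/-- the weight `A t' + w` dominates `e^{-3|y|/4}` -/
theorem Vco_wt (k : ℕ) (hk : 1 ≤ k) {ε : ℝ} (hε : 0 < ε) : ∃ A : ℝ, 0 < A ∧
    ∀ γ : ℝ, 0 < γ → γ ≤ 1 / 8 → ∀ y,
      Real.exp (-(3 / 4 * |y|)) ≤ ε * (A * deriv (th k) y + se2 γ y) := by
  have hk' : (0 : ℝ) < k := by exact_mod_cast hk
  refine ⟨Real.exp (k * (2 / ε)) * (2 / k) / ε, by positivity, ?_⟩
  intro γ hγ hγ' y
  have hth : deriv (th k) y = (k : ℝ) / 2 * (1 - th k y ^ 2) := (th_hd k y).deriv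
  have h1 : Real.exp (-(k * |y|)) ≤ 1 - th k y ^ 2 := by
    have := se2_lo ((k : ℝ) / 2) y
    rw [se2_eq, ← th_eq] at this
    convert this using 3
    rw [abs_mul, abs_of_pos (by positivity : (0 : ℝ) < k / 2)]
    ring
  have h2 : Real.exp (-(1 / 4 * |y|)) ≤ se2 γ y := by
    refine le_trans ?_ (se2_lo γ y)
    apply Real.exp_le_exp.2
    rw [abs_mul, abs_of_pos hγ]
    nlinarith [abs_nonneg y]
  have hw := se2_pos γ y
  have ht : 0 ≤ deriv (th k) y := by
    rw [hth]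
    have : 0 < 1 - th k y ^ 2 := lt_of_lt_of_le (Real.exp_pos _) h1
    positivity
  rcases le_total |y| (2 / ε) with hy | hy
  · have h3 : 1 ≤ ε * ((Real.exp (k * (2 / ε)) * (2 / k) / ε) * deriv (th k) y) := by
      have h4 : ε * ((Real.exp (k * (2 / ε)) * (2 / k) / ε) * deriv (th k) y)
          = Real.exp (k * (2 / ε)) * (1 - th k y ^ 2) := by
        rw [hth]; field_simp
      rw [h4]
      calc (1 : ℝ) ≤ Real.exp (k * (2 / ε)) * Real.exp (-(k * |y|)) := by
            rw [← Real.exp_add]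
            apply Real.one_le_exp
            have : (k : ℝ) * |y| ≤ k * (2 / ε) := by gcongr
            linarith
        _ ≤ _ := by gcongr
    have h5 : Real.exp (-(3 / 4 * |y|)) ≤ 1 :=
      Real.exp_le_one_iff.2 (by have := abs_nonneg y; linarith)
    have h6 : 0 ≤ ε * se2 γ y := by positivity
    nlinarith
  · have h3 : 1 ≤ ε * Real.exp (1 / 2 * |y|) := by
      have h4 := Real.add_one_le_exp (1 / 2 * |y|)
      have h5 : 1 / ε ≤ 1 / 2 * |y| := by
        have : 1 / ε = 1 / 2 * (2 / ε) := by ring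
        rw [this]; gcongr
      have h6 : 1 / ε ≤ Real.exp (1 / 2 * |y|) := by linarith
      calc (1 : ℝ) = ε * (1 / ε) := by field_simp
        _ ≤ _ := by gcongr
    have h7 : Real.exp (-(3 / 4 * |y|)) ≤ ε * Real.exp (-(1 / 4 * |y|)) := by
      have h8 : Real.exp (-(1 / 4 * |y|)) = Real.exp (1 / 2 * |y|) * Real.exp (-(3 / 4 * |y|)) := by
        rw [← Real.exp_add]; congr 1; ring
      rw [h8, ← mul_assoc]
      have := Real.exp_pos (-(3 / 4 * |y|))
      nlinarith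
    have h9 : 0 ≤ (Real.exp (k * (2 / ε)) * (2 / k) / ε) * deriv (th k) y := by positivity
    calc Real.exp (-(3 / 4 * |y|)) ≤ ε * Real.exp (-(1 / 4 * |y|)) := h7
      _ ≤ ε * se2 γ y := by gcongr
      _ ≤ _ := by
          apply mul_le_mul_of_nonneg_left _ hε.le
          linarith

theorem vir_local (k : ℕ) (hk : 5 ≤ k) (ν : ℝ) (hν : 0 < ν) : ∃ C : ℝ, 0 < C ∧
    ∀ γ : ℝ, 0 < γ → γ ≤ 1 / 8 → ∀ (p q : ℝ) (v : ℝ → ℝ), 0 < p → 0 < q → Cl p q v →
    ∫ y, (1 + k * |y|) * Qf k y ^ k * (v y) ^ 2 ≤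
      C * ((ip v (Lam k (Qf k))) ^ 2 + ∫ y, deriv (th k) y * (deriv v y + th k y * v y) ^ 2)
        + ν * ∫ y, se2 γ y * ((v y) ^ 2 + (deriv v y) ^ 2) := by
  have hk1 : 1 ≤ k := by omega
  obtain ⟨C1, hC1, hmain⟩ := Vco_main hk
  obtain ⟨A, hA, hwt⟩ := Vco_wt k hk1 (ε := ν / (2 * C1)) (by positivity)
  refine ⟨C1 + ν / 2 * A, by positivity, ?_⟩
  intro γ hγ hγ' p q v hp hq hv
  refine (hmain p q v hp hq hv).trans ?_
  have hG := Vco_ClG k hv
  have hG2 := Cl_pow hG 2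
  have hthd : deriv (th k) = fun y => (k : ℝ) / 2 * (1 - th k y ^ 2) := by
    ext y; exact (th_hd k y).deriv
  have hClt : Cl 0 0 (deriv (th k)) := Cl_der (Cl_th k)
  have hClw : Cl 0 0 (se2 γ) := Cl_mono (Cl_se2 hγ) (by linarith) (by linarith)
  have hi1 : Integrable (fun y => deriv (th k) y * (deriv v y + th k y * v y) ^ 2) :=
    Cl_int (Cl_mul0 hClt hG2) (by push_cast; linarith) (by push_cast; linarith)
  have hi2 : Integrable (fun y => se2 γ y * (deriv v y + th k y * v y) ^ 2) :=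
    Cl_int (Cl_mul0 hClw hG2) (by push_cast; linarith) (by push_cast; linarith)
  have hi3 : Integrable (fun y => se2 γ y * ((v y) ^ 2 + (deriv v y) ^ 2)) := by
    have := Cl_mul0 hClw (Cl_add (Cl_pow hv 2) (Cl_pow (Cl_der hv) 2))
    exact Cl_int this (by push_cast; linarith) (by push_cast; linarith)
  have hJ : (∫ z, Real.exp (-(3 / 4 * |z|)) * (deriv v z + th k z * v z) ^ 2) ≤
      ν / (2 * C1) * (A * (∫ y, deriv (th k) y * (deriv v y + th k y * v y) ^ 2)
        + 2 * ∫ y, se2 γ y * ((v y) ^ 2 + (deriv v y) ^ 2)) := by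
    rw [← integral_const_mul, ← integral_const_mul, ← integral_add (hi1.const_mul A) (hi3.const_mul 2),
      ← integral_const_mul]
    apply integral_mono_of_nonneg (Eventually.of_forall fun z => by
      show (0 : ℝ) ≤ Real.exp (-(3 / 4 * |z|)) * (deriv v z + th k z * v z) ^ 2
      positivity)
    · exact ((hi1.const_mul A).add (hi3.const_mul 2)).const_mul _
    · refine Eventually.of_forall fun z => ?_
      show Real.exp (-(3 / 4 * |z|)) * (deriv v z + th k z * v z) ^ 2 ≤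
        ν / (2 * C1) * (A * (deriv (th k) z * (deriv v z + th k z * v z) ^ 2)
          + 2 * (se2 γ z * ((v z) ^ 2 + (deriv v z) ^ 2)))
      have hw := se2_pos γ z
      have h1 := hwt γ hγ hγ' z
      have h2 : (deriv v z + th k z * v z) ^ 2 ≤ 2 * ((v z) ^ 2 + (deriv v z) ^ 2) := by
        have ht := th_abs_lt k z
        have ht2 : th k z ^ 2 ≤ 1 := by
          rw [← sq_abs]
          have := abs_nonneg (th k z)
          nlinarith
        have h3 : (th k z * v z) ^ 2 ≤ v z ^ 2 := by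
          rw [mul_pow]
          nlinarith [sq_nonneg (v z)]
        nlinarith [sq_nonneg (deriv v z - th k z * v z)]
      calc Real.exp (-(3 / 4 * |z|)) * (deriv v z + th k z * v z) ^ 2
          ≤ (ν / (2 * C1) * (A * deriv (th k) z + se2 γ z)) * (deriv v z + th k z * v z) ^ 2 := by
            gcongr
        _ = ν / (2 * C1) * (A * (deriv (th k) z * (deriv v z + th k z * v z) ^ 2)
            + se2 γ z * (deriv v z + th k z * v z) ^ 2) := by ring
        _ ≤ ν / (2 * C1) * (A * (deriv (th k) z * (deriv v z + th k z * v z) ^ 2)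
            + se2 γ z * (2 * ((v z) ^ 2 + (deriv v z) ^ 2))) := by gcongr
        _ = _ := by ring
  have hI1 : 0 ≤ ∫ y, deriv (th k) y * (deriv v y + th k y * v y) ^ 2 := by
    apply integral_nonneg
    intro y
    have ht := th_abs_lt k y
    have ht2 : th k y ^ 2 ≤ 1 := by
      rw [← sq_abs]
      have := abs_nonneg (th k y)
      nlinarith
    have : 0 ≤ deriv (th k) y := by
      rw [hthd]
      have : 0 ≤ 1 - th k y ^ 2 := by linarith
      positivity
    show (0 : ℝ) ≤ _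
    positivity
  set I1 := ∫ y, deriv (th k) y * (deriv v y + th k y * v y) ^ 2 with hI1d
  set I2 := ∫ y, se2 γ y * ((v y) ^ 2 + (deriv v y) ^ 2) with hI2d
  set J := ∫ z, Real.exp (-(3 / 4 * |z|)) * (deriv v z + th k z * v z) ^ 2 with hJd
  set X := ip v (Lam k (Qf k)) with hX
  have h5 : C1 * (ν / (2 * C1) * (A * I1 + 2 * I2)) = ν / 2 * A * I1 + ν * I2 := by
    field_simp
  have h6 : C1 * J ≤ ν / 2 * A * I1 + ν * I2 := by
    rw [← h5]; gcongr
  have h7 : 0 ≤ ν / 2 * A * X ^ 2 := by positivity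
  nlinarith [mul_nonneg hC1.le hI1]

end H98KB
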