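import Pool.Agent.H98.KB.Vco

/-!
# Vcp : coercivity of the virial form (Lemmas V2, V4; uses the statement of `Vco`)

V2: `W₂ = tanh(γy)`, `W₂' = γ w`, `|W₂'''| ≤ 4γ³ w`, `(W₂Q^k)' = γ w Q^k - k t tanh(γy) Q^k`,
`|(W₂Q^k)'| ≤ γ(1+k|y|)Q^k`.  For `γ ≤ 1/8`, `η ≥ 0`, `σ=ηγ`:
`Hf k (η W₂) v ≥ σ∫w((3/2)v'²+(3/8)v²) - (σ/2)∫(1+k|y|)Q^kv²`  (`(1/2)(1-4γ²) ≥ 3/8`).
V4: `Hf k ψ v = Hf k t v + Hf k (ηW₂) v = (3/2)J + ...`, `J = ∫t'(v'+tv)²` (`vir_tanh`).
Vco with `ν=1/8`: `∫(1+k|y|)Q^kv² ≤ C((ip v ΛQ)²+J)+(1/8)∫w(v²+v'²)`.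
`(ip v ΛQ)² ≤ 2(ip v G_δ)² + 2δ²(∫ v (ΛQ)'')² ≤ 2(ip v G_δ)²+ C'δ²∫w v²` (`((ΛQ)'')²/w` integrable).
So `Hf k ψ v ≥ (3/2 - σC/2)J + σ∫w((3/2)v'²+(3/8)v²) - (σ/16)∫w(v²+v'²) - (σC/2)(2(ip v G_δ)²+C'δ²∫wv²)`.
Choose `σ ≤ 3/C` i.e. `η = 1/(Cγ)`-ish (any `η` with `ηγ C ≤ 3` works, e.g. `η = min 1 (1/(γ C))`... take `η=1/(γ(C+1))`
or smaller) and `δ₀` with `C C'δ₀² ≤ 1/8`.
-/

open MeasureTheory Filter Topology Set
open scoped ContDiff

namespace H98KB

theorem Vcp_psi_d (k : ℕ) (η γ : ℝ) :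
    deriv (psi k η γ) = fun y => deriv (th k) y + η * γ * se2 γ y := by
  funext y
  have h1 : HasDerivAt (th k) (deriv (th k) y) y := Cl_hd (Cl_th k) y
  have h2 := (tanh_hd γ y).const_mul η
  have h3 := (h1.add h2).deriv
  have e : psi k η γ = (th k + fun y => η * Real.tanh (γ * y)) := rfl
  rw [e, h3, se2_eq]
  ring

theorem Vcp_psi_ddd (k : ℕ) (η γ : ℝ) (y : ℝ) :
    deriv (deriv (deriv (psi k η γ))) y =
      deriv (deriv (deriv (th k))) y + η * γ * (γ ^ 2 * se2 γ y * (4 - 6 * se2 γ y)) := by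
  have c1 := Cl_der (Cl_th k)
  have c2 := Cl_der c1
  have e1 : deriv (deriv (psi k η γ)) =
      fun y => deriv (deriv (th k)) y + η * γ * (-2 * γ * Real.tanh (γ * y) * se2 γ y) := by
    rw [Vcp_psi_d]
    funext y
    exact ((Cl_hd c1 y).add ((se2_hd γ y).const_mul (η * γ))).deriv
  rw [e1]
  have h1 := ((tanh_hd γ y).const_mul (-2 * γ)).mul (se2_hd γ y)
  have h2 := ((Cl_hd c2 y).add (h1.const_mul (η * γ))).deriv
  refine Eq.trans h2 ?_
  have hs := se2_eq γ y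
  have ht : Real.tanh (γ * y) ^ 2 = 1 - se2 γ y := by rw [hs]; ring
  have e3 : -2 * γ * (γ * (1 - Real.tanh (γ * y) ^ 2)) * se2 γ y +
      -2 * γ * Real.tanh (γ * y) * (-2 * γ * Real.tanh (γ * y) * se2 γ y) =
      -2 * γ ^ 2 * (1 - Real.tanh (γ * y) ^ 2) * se2 γ y
        + 4 * γ ^ 2 * (Real.tanh (γ * y) ^ 2) * se2 γ y := by ring
  rw [e3, ht]
  ring

theorem Vcp_psi_Q (k : ℕ) (hk : 1 ≤ k) (η γ : ℝ) (y : ℝ) :
    deriv (fun z => psi k η γ z * Qf k z ^ k) y =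
      deriv (fun z => th k z * Qf k z ^ k) y
        + η * (γ * se2 γ y * Qf k y ^ k + Real.tanh (γ * y) * (-(k : ℝ) * th k y * Qf k y ^ k)) := by
  have h0 := Qk_hd hk y
  have h1 : HasDerivAt (fun z => th k z * Qf k z ^ k) _ y := (Cl_hd (Cl_th k) y).mul h0
  have h2 : HasDerivAt (fun z => η * (Real.tanh (γ * z) * Qf k z ^ k)) _ y :=
    ((tanh_hd γ y).mul h0).const_mul η
  have e : (fun z => psi k η γ z * Qf k z ^ k) =
      (fun z => th k z * Qf k z ^ k) + fun z => η * (Real.tanh (γ * z) * Qf k z ^ k) := by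
    funext z
    simp only [psi, Pi.add_apply]
    ring
  rw [e, (h1.add h2).deriv, h1.deriv, se2_eq]

theorem Vcp_tanh_le (x : ℝ) : |Real.tanh x| ≤ |x| := by
  have key : ∀ x : ℝ, 0 ≤ x → Real.tanh x ≤ x := by
    intro x hx
    have hmono : Monotone (fun z : ℝ => z - Real.tanh (1 * z)) := by
      refine monotone_of_deriv_nonneg ?_ ?_
      · intro z
        exact ((hasDerivAt_id z).sub (tanh_hd 1 z)).differentiableAt
      · intro z
        have := ((hasDerivAt_id z).sub (tanh_hd 1 z)).deriv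
        have e : (fun z : ℝ => z - Real.tanh (1 * z)) = (id - fun y => Real.tanh (1 * y)) := rfl
        rw [e, this]
        nlinarith [sq_nonneg (Real.tanh (1 * z))]
    have := hmono hx
    simp only [one_mul, Real.tanh_zero, sub_zero] at this
    linarith
  rcases le_total 0 x with h | h
  · have h1 := key x h
    have h2 : 0 ≤ Real.tanh x := by
      rw [Real.tanh_eq_sinh_div_cosh]
      exact div_nonneg (Real.sinh_nonneg_iff.mpr h) (Real.cosh_pos x).le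
    rw [abs_of_nonneg h, abs_of_nonneg h2]
    exact h1
  · have h1 := key (-x) (by linarith)
    have h2 : 0 ≤ Real.tanh (-x) := by
      rw [Real.tanh_eq_sinh_div_cosh]
      exact div_nonneg (Real.sinh_nonneg_iff.mpr (by linarith)) (Real.cosh_pos _).le
    rw [Real.tanh_neg] at h1 h2
    rw [abs_of_nonpos h, abs_of_nonpos (by linarith)]
    exact h1

/-- pointwise lower bound (V2) -/
theorem Vcp_point (k : ℕ) (hk : 1 ≤ k) (η γ : ℝ) (hη : 0 ≤ η) (hγ : 0 < γ) (hγ' : γ ≤ 1 / 8)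
    (a b y : ℝ) :
    (3 / 2 * deriv (th k) y * b ^ 2
      + 1 / 2 * (deriv (th k) y - deriv (deriv (deriv (th k))) y) * a ^ 2
      - 1 / 2 * deriv (fun z => th k z * Qf k z ^ k) y * a ^ 2)
    + η * γ * (3 / 2 * (se2 γ y * b ^ 2) + 3 / 8 * (se2 γ y * a ^ 2))
    - η * γ / 2 * ((1 + k * |y|) * Qf k y ^ k * a ^ 2) ≤
    3 / 2 * deriv (psi k η γ) y * b ^ 2
      + 1 / 2 * (deriv (psi k η γ) y - deriv (deriv (deriv (psi k η γ))) y) * a ^ 2
      - 1 / 2 * deriv (fun z => psi k η γ z * Qf k z ^ k) y * a ^ 2 := by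
  rw [Vcp_psi_ddd k η γ, Vcp_psi_Q k hk, Vcp_psi_d]
  have hs := se2_pos γ y
  have hs1 := se2_le_one γ y
  have hQ : 0 ≤ Qf k y ^ k := pow_nonneg (Qf_pos k y).le k
  have ht : |Real.tanh (γ * y)| ≤ γ * |y| := by
    refine (Vcp_tanh_le _).trans (le_of_eq ?_)
    rw [abs_mul, abs_of_pos hγ]
  have ht' : |th k y| ≤ 1 := (th_abs_lt k y).le
  have hp : γ * se2 γ y * Qf k y ^ k + Real.tanh (γ * y) * (-(k : ℝ) * th k y * Qf k y ^ k) ≤
      γ * ((1 + k * |y|) * Qf k y ^ k) := by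
    have h1 : γ * se2 γ y * Qf k y ^ k ≤ γ * 1 * Qf k y ^ k := by gcongr
    have h2 : Real.tanh (γ * y) * (-(k : ℝ) * th k y * Qf k y ^ k) ≤ γ * |y| * ((k : ℝ) * 1 * Qf k y ^ k) := by
      refine (le_abs_self _).trans ?_
      rw [abs_mul, abs_mul, abs_mul, abs_neg, Nat.abs_cast, abs_of_nonneg hQ]
      gcongr
    calc _ ≤ γ * 1 * Qf k y ^ k + γ * |y| * ((k : ℝ) * 1 * Qf k y ^ k) := add_le_add h1 h2
      _ = _ := by ring
  have hηγ : 0 ≤ η * γ := mul_nonneg hη hγ.le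
  have h3 : η * (γ * se2 γ y * Qf k y ^ k + Real.tanh (γ * y) * (-(k : ℝ) * th k y * Qf k y ^ k)) * a ^ 2
      ≤ η * γ * ((1 + k * |y|) * Qf k y ^ k * a ^ 2) := by
    calc _ ≤ η * (γ * ((1 + k * |y|) * Qf k y ^ k)) * a ^ 2 := by gcongr
      _ = _ := by ring
  have h4 : η * γ * (3 / 8 * (se2 γ y * a ^ 2)) ≤
      1 / 2 * (η * γ * se2 γ y - η * γ * (γ ^ 2 * se2 γ y * (4 - 6 * se2 γ y))) * a ^ 2 := by
    have h5 : γ ^ 2 * (4 - 6 * se2 γ y) ≤ 1 / 4 := by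
      have h6 : γ ^ 2 ≤ 1 / 64 := by nlinarith
      nlinarith [sq_nonneg γ, mul_nonneg (sq_nonneg γ) hs.le]
    have h7 : 0 ≤ η * γ * (se2 γ y * a ^ 2) := by positivity
    nlinarith
  linarith

theorem vir_coer (k : ℕ) (hk : 5 ≤ k) (γ : ℝ) (hγ : 0 < γ) (hγ' : γ ≤ 1 / 8) :
    ∃ η δ₀ C : ℝ, 0 < η ∧ η ≤ 1 ∧ 0 < δ₀ ∧ δ₀ ≤ 1 / 16 ∧ 0 < C ∧
    ∀ δ : ℝ, 0 < δ → δ ≤ δ₀ → ∀ (p q : ℝ) (v : ℝ → ℝ), 0 < p → 0 < q → Cl p q v →
    η * γ / 4 * (∫ y, se2 γ y * ((v y) ^ 2 + (deriv v y) ^ 2)) ≤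
      Hf k (psi k η γ) v + C * (ip v (Gd k δ)) ^ 2 := by
  have hk1 : 1 ≤ k := by omega
  obtain ⟨CV, hCV, hV⟩ := vir_local k hk (1 / 8) (by norm_num)
  -- the function `(ΛQ)''`
  set φ : ℝ → ℝ := deriv (deriv (Lam k (Qf k))) with hφ
  have cL : Cl (3 / 4) (3 / 4) (Lam k (Qf k)) := Cl_LamQ hk1 (by norm_num)
  have cφ : Cl (3 / 4) (3 / 4) φ := Cl_der (Cl_der cL)
  have cs : Cl (2 * γ) (2 * γ) (se2 γ) := Cl_se2 hγ
  have hsc : Continuous (se2 γ) := Cl_cont cs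
  have hφw : Integrable (fun y => φ y ^ 2 / se2 γ y) := by
    obtain ⟨C, hC, hb⟩ := Cl_bnd cφ
    refine int_of_bd (p := 1) (q := 1) (((Cl_cont cφ).pow 2).div hsc fun y => (se2_pos γ y).ne')
      one_pos one_pos ⟨C ^ 2, fun y => ?_⟩
    have h1 := hb y
    have h2 := se2_lo γ y
    have h3 := se2_pos γ y
    rw [abs_of_nonneg (by positivity), div_le_iff₀ h3, bd_abs]
    rw [bd_abs] at h1
    have h4 : φ y ^ 2 ≤ (C * Real.exp (-(3 / 4 * |y|))) ^ 2 := by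
      rw [← sq_abs]
      exact pow_le_pow_left₀ (abs_nonneg _) h1 2
    have h5 : Real.exp (-(|y| / 4)) ≤ se2 γ y := by
      refine le_trans (Real.exp_le_exp.mpr ?_) h2
      rw [abs_mul, abs_of_pos hγ]
      nlinarith [abs_nonneg y]
    calc φ y ^ 2 ≤ (C * Real.exp (-(3 / 4 * |y|))) ^ 2 := h4
      _ = C ^ 2 * Real.exp (-(3 / 2 * |y|)) := by
          rw [mul_pow, ← Real.exp_nat_mul]
          congr 2
          push_cast
          ring
      _ ≤ C ^ 2 * Real.exp (-(1 * |y|) + -(|y| / 4)) := by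
          apply mul_le_mul_of_nonneg_left _ (by positivity)
          apply Real.exp_le_exp.mpr
          linarith [abs_nonneg y]
      _ = C ^ 2 * Real.exp (-(1 * |y|)) * Real.exp (-(|y| / 4)) := by
          rw [Real.exp_add]; ring
      _ ≤ C ^ 2 * Real.exp (-(1 * |y|)) * se2 γ y := by gcongr
  set K : ℝ := ∫ y, φ y ^ 2 / se2 γ y with hK
  have hK0 : 0 ≤ K := integral_nonneg fun y => div_nonneg (sq_nonneg _) (se2_pos γ y).le
  refine ⟨min 1 (3 / (γ * CV)), min (1 / 16) (1 / (16 * (CV * K + 1))), 3 * CV, ?_, min_le_left _ _, ?_,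
    min_le_left _ _, by positivity, ?_⟩
  · exact lt_min one_pos (by positivity)
  · exact lt_min (by norm_num) (by positivity)
  intro δ hδ hδ₀ p q v hp hq hv
  set η : ℝ := min 1 (3 / (γ * CV)) with hη
  have hη0 : 0 < η := lt_min one_pos (by positivity)
  have hη1 : η ≤ 1 := min_le_left _ _
  have hσ : η * γ * CV ≤ 3 := by
    have h1 : η ≤ 3 / (γ * CV) := min_le_right _ _
    have h2 : 0 < γ * CV := by positivity
    rw [le_div_iff₀ h2] at h1
    linarith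
  have hδ16 : δ ≤ 1 / 16 := hδ₀.trans (min_le_left _ _)
  have hδK : CV * K * δ ^ 2 ≤ 1 / 16 := by
    have h1 : δ ≤ 1 / (16 * (CV * K + 1)) := hδ₀.trans (min_le_right _ _)
    have h0 : 0 ≤ CV * K := by positivity
    have h2 : (0 : ℝ) < 16 * (CV * K + 1) := by positivity
    rw [le_div_iff₀ h2] at h1
    have h3 : CV * K * δ ≤ 1 / 16 := by nlinarith
    calc CV * K * δ ^ 2 = (CV * K * δ) * δ := by ring
      _ ≤ (1 / 16) * 1 := by gcongr; linarith
      _ = 1 / 16 := by ring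
  -- classes and integrability
  have cv' := Cl_der hv
  have cv2 : Cl (p + p) (q + q) (fun y => v y * v y) := Cl_mul hv hv
  have cvd2 : Cl (p + p) (q + q) (fun y => deriv v y * deriv v y) := Cl_mul cv' cv'
  have hpp : 0 < p + p := by linarith
  have hqq : 0 < q + q := by linarith
  have i0 : Integrable (fun y => se2 γ y * (v y) ^ 2) := by
    have := Cl_int (Cl_mul cs cv2) (by linarith) (by linarith)
    refine this.congr (Eventually.of_forall fun y => ?_)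
    show se2 γ y * (v y * v y) = se2 γ y * (v y) ^ 2
    ring
  have i1 : Integrable (fun y => se2 γ y * (deriv v y) ^ 2) := by
    have := Cl_int (Cl_mul cs cvd2) (by linarith) (by linarith)
    refine this.congr (Eventually.of_forall fun y => ?_)
    show se2 γ y * (deriv v y * deriv v y) = se2 γ y * (deriv v y) ^ 2
    ring
  have iA : Integrable (fun y => (1 + k * |y|) * Qf k y ^ k * (v y) ^ 2) := by
    obtain ⟨C, hC, hQ⟩ := Qf_hi hk1
    have iv : Integrable (fun y => C ^ k * (v y * v y)) := (Cl_int cv2 hpp hqq).const_mul _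
    have hc : Continuous (fun y => (1 + k * |y|) * Qf k y ^ k * (v y) ^ 2) := by
      have h1 := Cl_cont (Cl_Qf hk1)
      have h2 := Cl_cont hv
      fun_prop
    refine iv.mono' hc.aestronglyMeasurable (Eventually.of_forall fun y => ?_)
    have h1 : (1 + k * |y|) * Qf k y ^ k ≤ C ^ k := by
      have h2 : Qf k y ^ k ≤ (C * Real.exp (-|y|)) ^ k :=
        pow_le_pow_left₀ (Qf_pos k y).le (hQ y) k
      have h3 : (C * Real.exp (-|y|)) ^ k = C ^ k * Real.exp (-(k * |y|)) := by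
        rw [mul_pow, ← Real.exp_nat_mul]
        congr 2
        ring
      rw [h3] at h2
      have h4 : 1 + k * |y| ≤ Real.exp (k * |y|) := by
        have := Real.add_one_le_exp ((k : ℝ) * |y|)
        linarith
      have h5 : (0 : ℝ) ≤ 1 + k * |y| := by positivity
      calc (1 + k * |y|) * Qf k y ^ k ≤ Real.exp (k * |y|) * (C ^ k * Real.exp (-(k * |y|))) := by
            have := pow_nonneg (Qf_pos k y).le k
            gcongr
        _ = C ^ k * (Real.exp (k * |y|) * Real.exp (-(k * |y|))) := by ring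
        _ = C ^ k := by rw [← Real.exp_add, add_neg_cancel, Real.exp_zero, mul_one]
    have h6 : 0 ≤ (1 + k * |y|) * Qf k y ^ k * (v y) ^ 2 := by
      have := pow_nonneg (Qf_pos k y).le k
      positivity
    rw [Real.norm_eq_abs, abs_of_nonneg h6]
    calc _ ≤ C ^ k * (v y) ^ 2 := by gcongr
      _ = _ := by ring
  have ct := Cl_th k
  have ct1 := Cl_der ct
  have ct3 := Cl_der (Cl_der ct1)
  have cQk : Cl k k (fun y => Qf k y ^ k) := Cl_Qk hk1
  have cQ0 : Cl 0 0 (fun y => Qf k y ^ k) := Cl_mono cQk (by positivity) (by positivity)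
  have ctQ : Cl 0 0 (deriv (fun z => th k z * Qf k z ^ k)) := Cl_der (Cl_mul0 ct cQ0)
  have iH : ∀ {W1 W3 WQ : ℝ → ℝ}, Cl 0 0 W1 → Cl 0 0 W3 → Cl 0 0 WQ →
      Integrable (fun y => 3 / 2 * W1 y * (deriv v y) ^ 2 + 1 / 2 * (W1 y - W3 y) * (v y) ^ 2
        - 1 / 2 * WQ y * (v y) ^ 2) := by
    intro W1 W3 WQ h1 h3 hQ
    have a1 := (Cl_int (Cl_mul0 h1 cvd2) hpp hqq).const_mul (3 / 2 : ℝ)
    have a2 := (Cl_int (Cl_mul0 (Cl_sub h1 h3) cv2) hpp hqq).const_mul (1 / 2 : ℝ)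
    have a3 := (Cl_int (Cl_mul0 hQ cv2) hpp hqq).const_mul (1 / 2 : ℝ)
    refine ((a1.add a2).sub a3).congr (Eventually.of_forall fun y => ?_)
    simp only [Pi.add_apply, Pi.sub_apply]
    ring
  have iT : Integrable (fun y => 3 / 2 * deriv (th k) y * (deriv v y) ^ 2
      + 1 / 2 * (deriv (th k) y - deriv (deriv (deriv (th k))) y) * (v y) ^ 2
      - 1 / 2 * deriv (fun z => th k z * Qf k z ^ k) y * (v y) ^ 2) := iH ct1 ct3 ctQ
  have cpsi : Cl 0 0 (psi k η γ) := Cl_psi k η γ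
  have iP : Integrable (fun y => 3 / 2 * deriv (psi k η γ) y * (deriv v y) ^ 2
      + 1 / 2 * (deriv (psi k η γ) y - deriv (deriv (deriv (psi k η γ))) y) * (v y) ^ 2
      - 1 / 2 * deriv (fun z => psi k η γ z * Qf k z ^ k) y * (v y) ^ 2) :=
    iH (Cl_der cpsi) (Cl_der (Cl_der (Cl_der cpsi))) (Cl_der (Cl_mul0 cpsi cQ0))
  set S0 : ℝ := ∫ y, se2 γ y * (v y) ^ 2 with hS0
  set S1 : ℝ := ∫ y, se2 γ y * (deriv v y) ^ 2 with hS1
  set A : ℝ := ∫ y, (1 + k * |y|) * Qf k y ^ k * (v y) ^ 2 with hA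
  have hS00 : 0 ≤ S0 := integral_nonneg fun y => mul_nonneg (se2_pos γ y).le (sq_nonneg _)
  have hS10 : 0 ≤ S1 := integral_nonneg fun y => mul_nonneg (se2_pos γ y).le (sq_nonneg _)
  have hS : ∫ y, se2 γ y * ((v y) ^ 2 + (deriv v y) ^ 2) = S0 + S1 := by
    rw [hS0, hS1, ← integral_add i0 i1]
    congr 1
    funext y
    ring
  -- the integrated form of V2
  have key : Hf k (th k) v + η * γ * (3 / 2 * S1 + 3 / 8 * S0) - η * γ / 2 * A ≤
      Hf k (psi k η γ) v := by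
    have i2 : Integrable (fun y => 3 / 2 * (se2 γ y * (deriv v y) ^ 2) + 3 / 8 * (se2 γ y * (v y) ^ 2)) :=
      (i1.const_mul _).add (i0.const_mul _)
    have i3 : Integrable (fun y => η * γ * (3 / 2 * (se2 γ y * (deriv v y) ^ 2)
      + 3 / 8 * (se2 γ y * (v y) ^ 2))) := i2.const_mul _
    have i4 := iT.add i3
    have i5 : Integrable (fun y => η * γ / 2 * ((1 + k * |y|) * Qf k y ^ k * (v y) ^ 2)) :=
      iA.const_mul _
    have h1 := integral_mono (i4.sub i5) iP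
      (fun y => Vcp_point k hk1 η γ hη0.le hγ hγ' (v y) (deriv v y) y)
    rw [integral_sub' i4 i5, integral_add' iT i3] at h1
    rw [integral_const_mul (η * γ), integral_const_mul (η * γ / 2),
      integral_add (i1.const_mul (3 / 2 : ℝ)) (i0.const_mul (3 / 8 : ℝ)),
      integral_const_mul, integral_const_mul] at h1
    exact h1
  rw [vir_tanh hk1 hv hp hq] at key
  set J : ℝ := ∫ y, deriv (th k) y * (deriv v y + th k y * v y) ^ 2 with hJ
  have hJ0 : 0 ≤ J := by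
    refine integral_nonneg fun y => mul_nonneg ?_ (sq_nonneg _)
    rw [(th_hd k y).deriv]
    have := th_abs_lt k y
    have h2 : th k y ^ 2 ≤ 1 := by
      rw [← sq_abs]
      (first | linarith only [abs_nonneg (th k y), hδ, hδ16, this] | nlinarith only [abs_nonneg (th k y), hδ, hδ16, this])
    have h3 : (0 : ℝ) ≤ (k : ℝ) / 2 := by positivity
    exact mul_nonneg h3 (by linarith)
  have hVv := hV γ hγ hγ' p q v hp hq hv
  rw [hS] at hVv
  -- the inner product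
  have hip : ip v (Lam k (Qf k)) = ip v (Gd k δ) + δ * ∫ y, v y * φ y := by
    have cG : Cl (3 / 4) (3 / 4) (Gd k δ) := Cl_Gd hk1 δ (by norm_num)
    have j1 : Integrable (fun y => v y * Gd k δ y) := Cl_int (Cl_mul hv cG) (by linarith) (by linarith)
    have j2 : Integrable (fun y => v y * φ y) := Cl_int (Cl_mul hv cφ) (by linarith) (by linarith)
    unfold ip
    rw [← integral_const_mul, ← integral_add j1 (j2.const_mul δ)]
    congr 1
    funext y
    simp only [Gd, hφ]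
    ring
  have hcs := (cs_wt (F := v) (φ := φ) (W := se2 γ) (Cl_cont hv) (Cl_cont cφ) hsc (fun y => se2_pos γ y) i0
    hφw).2
  have hcs2 : (∫ y, v y * φ y) ^ 2 ≤ K * S0 := by
    rw [← sq_abs]
    calc |∫ y, v y * φ y| ^ 2 ≤ (√K * √S0) ^ 2 := pow_le_pow_left₀ (abs_nonneg _) hcs 2
      _ = K * S0 := by rw [mul_pow, Real.sq_sqrt hK0, Real.sq_sqrt hS00]
  have hL2 : (ip v (Lam k (Qf k))) ^ 2 ≤ 2 * (ip v (Gd k δ)) ^ 2 + 2 * δ ^ 2 * (K * S0) := by
    rw [hip]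
    have h1 : (ip v (Gd k δ) + δ * ∫ y, v y * φ y) ^ 2 ≤
        2 * (ip v (Gd k δ)) ^ 2 + 2 * (δ * ∫ y, v y * φ y) ^ 2 := by
      (first | linarith only [sq_nonneg (ip v (Gd k δ) - δ * ∫ y, v y * φ y)] | nlinarith only [sq_nonneg (ip v (Gd k δ) - δ * ∫ y, v y * φ y)])
    have h2 : 2 * (δ * ∫ y, v y * φ y) ^ 2 ≤ 2 * δ ^ 2 * (K * S0) := by
      rw [mul_pow]
      (first | linarith only [sq_nonneg δ, hcs2] | nlinarith only [sq_nonneg δ, hcs2])
    linarith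
  rw [hS]
  set G : ℝ := (ip v (Gd k δ)) ^ 2 with hG
  have hG0 : 0 ≤ G := sq_nonneg _
  have hσ0 : 0 < η * γ := by positivity
  set σ : ℝ := η * γ with hσd
  have hA2 : A ≤ CV * (2 * G + 2 * δ ^ 2 * (K * S0) + J) + 1 / 8 * (S0 + S1) := by
    refine hVv.trans ?_
    have : CV * ((ip v (Lam k (Qf k))) ^ 2 + J) ≤ CV * (2 * G + 2 * δ ^ 2 * (K * S0) + J) := by
      gcongr
    linarith
  have h1 : σ / 2 * A ≤ σ / 2 * (CV * (2 * G + 2 * δ ^ 2 * (K * S0) + J) + 1 / 8 * (S0 + S1)) := by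
    gcongr
  have h2 : σ / 2 * (CV * J) ≤ 3 / 2 * J := by
    have : σ * CV * J ≤ 3 * J := mul_le_mul_of_nonneg_right hσ hJ0
    linarith
  have h3 : σ / 2 * (CV * (2 * δ ^ 2 * (K * S0))) ≤ σ * (1 / 16) * S0 := by
    have h4 : CV * K * δ ^ 2 * (σ * S0) ≤ 1 / 16 * (σ * S0) :=
      mul_le_mul_of_nonneg_right hδK (mul_nonneg hσ0.le hS00)
    calc _ = CV * K * δ ^ 2 * (σ * S0) := by ring
      _ ≤ _ := h4
      _ = _ := by ring
  have h5 : σ / 2 * (CV * (2 * G)) ≤ 3 * CV * G := by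
    have hσ1 : σ ≤ 3 := by
      have : σ ≤ 1 * (1 / 8) := by rw [hσd]; gcongr
      linarith
    have : σ * (CV * G) ≤ 3 * (CV * G) := mul_le_mul_of_nonneg_right hσ1 (by positivity)
    linarith
  have h6 : 0 ≤ σ * S1 := mul_nonneg hσ0.le hS10
  have h7 : 0 ≤ σ * S0 := mul_nonneg hσ0.le hS00
  (first | linarith only [h1, h2, h3, h5, h6, key] | nlinarith only [h1, h2, h3, h5, h6, key])

end H98KB
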