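import Pool.Agent.H98.KB.Vie
import Pool.Agent.H98.KB.Nlb

/-!
# Vra : the terms `R'`, `ΛQ`, `Q''` in the virial functional

`v = vf k δ ε`, `|Ψ| ≤ (1+η)χ ≤ 1+η`.
* `VR`: `|∫Ψ v vf(R')| ≤ (1+η)(∫χv²)^{1/2}(∫χ (vf R')²)^{1/2}`; `vf_wt0`, `vf_wt` with `W=ch B`
  (`|ch''| ≤ (8/B²)ch`, `δ ≤ 1/16`), `|R'| ≤ C|ε|(|ε|+|ε'|) ≤ C s(|ε|+|ε'|)` (`Rd_le`).
* `VQ`: `|∫Ψ v h| ≤ (1+η)(∫loc v²)^{1/2}(∫ (χ/w)h²)^{1/2}`, `h = vf k δ ΛQ` or `vf k δ Q''` in `Cl (3/4)(3/4)`, `1/w ≤ e^{|y|/4}`,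
  `χ ≤ 1`: the constant is independent of `B`.
-/

open MeasureTheory Filter Topology Set
open scoped ContDiff

namespace H98KB

private theorem Vra_ch_pos (B y : ℝ) : 0 < ch B y := by
  rw [ch_eq']; exact se2_pos _ _

private theorem Vra_ch_le_one (B y : ℝ) : ch B y ≤ 1 := by
  rw [ch_eq']; exact se2_le_one _ _

private theorem Vra_psi_sq {k : ℕ} {η : ℝ} (hη : 0 ≤ η) (γ y : ℝ) :
    psi k η γ y ^ 2 ≤ (1 + η) ^ 2 := by
  have h := psi_abs (k := k) hη γ y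
  have h1 := abs_nonneg (psi k η γ y)
  rw [← sq_abs]
  exact pow_le_pow_left₀ h1 h 2

private theorem Vra_chW {δ B : ℝ} (hδ : 0 < δ) (hδ' : δ ≤ 1 / 16) (hB : 16 ≤ B) (y : ℝ) :
    δ * |deriv (deriv (ch B)) y| ≤ ch B y / 4 := by
  have h := ch2_le (B := B) (by linarith) y
  have h1 := Vra_ch_pos B y
  have h2 : 8 / B ^ 2 ≤ 1 := by
    rw [div_le_one (by positivity)]
    nlinarith
  have h3 : |deriv (deriv (ch B)) y| ≤ ch B y := by
    refine h.trans ?_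
    calc 8 / B ^ 2 * ch B y ≤ 1 * ch B y := by gcongr
      _ = ch B y := one_mul _
  calc δ * |deriv (deriv (ch B)) y| ≤ 1 / 16 * ch B y := by
        apply mul_le_mul hδ' h3 (abs_nonneg _) (by norm_num)
    _ ≤ ch B y / 4 := by linarith

/-- Cauchy–Schwarz against a weight `W` with `ch² ≤ c · W · w`. -/
private theorem Vra_int2 {p q pw qw : ℝ} {a W : ℝ → ℝ} (ha : Cl p q a) (hW : Cl pw qw W)
    (h1 : 0 < 2 * p + pw) (h2 : 0 < 2 * q + qw) : Integrable (fun y => W y * (a y) ^ 2) := by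
  have h := Cl_mul hW (Cl_mul ha ha)
  have e1 : pw + (p + p) = 2 * p + pw := by ring
  have e2 : qw + (q + q) = 2 * q + qw := by ring
  rw [e1, e2] at h
  refine (Cl_int h h1 h2).congr (Filter.Eventually.of_forall fun y => ?_)
  simp only
  ring

theorem VR (k : ℕ) (hk : 2 ≤ k) (γ η δ : ℝ) (hη : 0 ≤ η) (hδ : 0 < δ) (hδ' : δ ≤ 1 / 16) :
    ∃ C : ℝ, 0 < C ∧ ∀ B : ℝ, 16 ≤ B → ∀ (p q s : ℝ) (ε : ℝ → ℝ), 0 < p → p ≤ 1 → 0 < q → q ≤ 1 →
    Cl p q ε → s ≤ 1 → (∀ y, |ε y| ≤ s) →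
    |∫ y, Psi k η γ B y * (vf k δ ε y * vf k δ (deriv (Rf k ε)) y)| ≤
      C * s * ∫ y, ch B y * ((ε y) ^ 2 + (deriv ε y) ^ 2) := by
  have hk1 : 1 ≤ k := by omega
  obtain ⟨C1, hC1, H1⟩ := vf_wt0 k hk1 δ hδ hδ'
  obtain ⟨C2, hC2, H2⟩ := Rd_le k hk
  refine ⟨√((1 + η) ^ 2 * (C1 * (2 * C2 ^ 2))) * √C1, by positivity, ?_⟩
  intro B hB p q s ε hp hp1 hq hq1 hε hs1 hs
  have hB0 : 0 < B := by linarith
  have hp2 : |p| ≤ 2 := by rw [abs_of_pos hp]; linarith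
  have hq2 : |q| ≤ 2 := by rw [abs_of_pos hq]; linarith
  have hs0 : 0 ≤ s := (abs_nonneg _).trans (hs 0)
  have hB2 : 0 < 2 / B := by positivity
  have hR : Cl p q (deriv (Rf k ε)) := Cl_der (Cl_Rf hk1 hp.le hq.le hε)
  have hv : Cl p q (vf k δ ε) := Cl_vf hk1 hδ hδ' hp2 hq2 hε
  have hw : Cl p q (vf k δ (deriv (Rf k ε))) := Cl_vf hk1 hδ hδ' hp2 hq2 hR
  have hε1 := Cl_der hε
  have hch := Cl_ch hB0
  have hi1 : 0 < 2 * p + 2 / B := by linarith
  have hi2 : 0 < 2 * q + 2 / B := by linarith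
  have iv := Vra_int2 hv hch hi1 hi2
  have iw := Vra_int2 hw hch hi1 hi2
  have ie := Vra_int2 hε hch hi1 hi2
  have ie1 := Vra_int2 hε1 hch hi1 hi2
  have iR := Vra_int2 hR hch hi1 hi2
  have iN : Integrable (fun y => ch B y * ((ε y) ^ 2 + (deriv ε y) ^ 2)) := by
    refine (ie.add ie1).congr (Filter.Eventually.of_forall fun y => ?_)
    simp only [Pi.add_apply]; ring
  set N := ∫ y, ch B y * ((ε y) ^ 2 + (deriv ε y) ^ 2) with hN
  have hN0 : 0 ≤ N := integral_nonneg fun y => mul_nonneg (Vra_ch_pos B y).le (by positivity)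
  have hA : ∫ y, ch B y * (vf k δ ε y) ^ 2 ≤ C1 * N := by
    refine (H1 p q _ _ ε (ch B) hp2 hq2 hε hch (Vra_ch_pos B) (Vra_chW hδ hδ' hB) hi1 hi2).trans ?_
    refine mul_le_mul_of_nonneg_left (integral_mono ie iN fun y => ?_) hC1.le
    have := Vra_ch_pos B y
    have h2 := sq_nonneg (deriv ε y)
    nlinarith
  have hD : ∫ y, ch B y * (vf k δ (deriv (Rf k ε)) y) ^ 2 ≤ C1 * (2 * C2 ^ 2 * s ^ 2 * N) := by
    refine (H1 p q _ _ _ (ch B) hp2 hq2 hR hch (Vra_ch_pos B) (Vra_chW hδ hδ' hB) hi1 hi2).trans ?_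
    refine mul_le_mul_of_nonneg_left ?_ hC1.le
    rw [hN, ← integral_const_mul]
    refine integral_mono iR (iN.const_mul _) fun y => ?_
    have h1 := H2 p q ε hε y ((hs y).trans hs1)
    have h2 : |deriv (Rf k ε) y| ≤ C2 * s * (|ε y| + |deriv ε y|) := by
      refine h1.trans ?_
      have := hs y
      gcongr
    have h3 : (deriv (Rf k ε) y) ^ 2 ≤ 2 * C2 ^ 2 * s ^ 2 * ((ε y) ^ 2 + (deriv ε y) ^ 2) := by
      rw [← sq_abs]
      calc |deriv (Rf k ε) y| ^ 2 ≤ (C2 * s * (|ε y| + |deriv ε y|)) ^ 2 :=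
            pow_le_pow_left₀ (abs_nonneg _) h2 2
        _ = (C2 ^ 2 * s ^ 2) * (|ε y| + |deriv ε y|) ^ 2 := by ring
        _ ≤ (C2 ^ 2 * s ^ 2) * (2 * (|ε y| ^ 2 + |deriv ε y| ^ 2)) := by
            apply mul_le_mul_of_nonneg_left _ (by positivity)
            (first | linarith only [sq_nonneg (|ε y| - |deriv ε y|)] | nlinarith only [sq_nonneg (|ε y| - |deriv ε y|)])
        _ = _ := by rw [sq_abs, sq_abs]; ring
    have h4 := (Vra_ch_pos B y).le
    calc ch B y * deriv (Rf k ε) y ^ 2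
        ≤ ch B y * (2 * C2 ^ 2 * s ^ 2 * ((ε y) ^ 2 + (deriv ε y) ^ 2)) :=
          mul_le_mul_of_nonneg_left h3 h4
      _ = _ := by ring
  -- Cauchy-Schwarz
  have hψ : Continuous (psi k η γ) := Cl_cont (Cl_psi k η γ)
  have hcc : Continuous (ch B) := Cl_cont hch
  have hvc := Cl_cont hv
  have hwc := Cl_cont hw
  have key := cs_wt (F := vf k δ ε)
    (φ := fun y => psi k η γ y * ch B y * vf k δ (deriv (Rf k ε)) y) (W := ch B) hvc
    (by fun_prop) hcc (Vra_ch_pos B) iv (by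
      refine Integrable.mono' (iw.const_mul ((1 + η) ^ 2)) ?_
        (Filter.Eventually.of_forall fun y => ?_)
      · exact (Continuous.div (by fun_prop) hcc fun y => (Vra_ch_pos B y).ne').aestronglyMeasurable
      · have h0 := Vra_ch_pos B y
        rw [Real.norm_eq_abs, abs_of_nonneg (by positivity)]
        have e : (psi k η γ y * ch B y * vf k δ (deriv (Rf k ε)) y) ^ 2 / ch B y =
            psi k η γ y ^ 2 * (ch B y * vf k δ (deriv (Rf k ε)) y ^ 2) := by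
          field_simp
        rw [e]
        exact mul_le_mul_of_nonneg_right (Vra_psi_sq hη γ y) (by positivity))
  have e1 : ∫ y, Psi k η γ B y * (vf k δ ε y * vf k δ (deriv (Rf k ε)) y) =
      ∫ y, vf k δ ε y * (psi k η γ y * ch B y * vf k δ (deriv (Rf k ε)) y) := by
    congr 1
    funext y
    simp only [Psi]
    ring
  rw [e1]
  refine key.2.trans ?_
  have e2 : ∫ y, (psi k η γ y * ch B y * vf k δ (deriv (Rf k ε)) y) ^ 2 / ch B y ≤
      (1 + η) ^ 2 * (C1 * (2 * C2 ^ 2)) * (s ^ 2 * N) := by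
    calc ∫ y, (psi k η γ y * ch B y * vf k δ (deriv (Rf k ε)) y) ^ 2 / ch B y
        ≤ ∫ y, (1 + η) ^ 2 * (ch B y * vf k δ (deriv (Rf k ε)) y ^ 2) := by
          refine integral_mono_of_nonneg (Filter.Eventually.of_forall fun y => ?_)
            (iw.const_mul _) (Filter.Eventually.of_forall fun y => ?_)
          · have h0 := Vra_ch_pos B y
            simp only [Pi.zero_apply]
            positivity
          · have h0 := Vra_ch_pos B y
            have e : (psi k η γ y * ch B y * vf k δ (deriv (Rf k ε)) y) ^ 2 / ch B y =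
                psi k η γ y ^ 2 * (ch B y * vf k δ (deriv (Rf k ε)) y ^ 2) := by
              field_simp
            simp only [e]
            exact mul_le_mul_of_nonneg_right (Vra_psi_sq hη γ y) (by positivity)
      _ = (1 + η) ^ 2 * ∫ y, ch B y * vf k δ (deriv (Rf k ε)) y ^ 2 := integral_const_mul _ _
      _ ≤ (1 + η) ^ 2 * (C1 * (2 * C2 ^ 2 * s ^ 2 * N)) :=
          mul_le_mul_of_nonneg_left hD (by positivity)
      _ = _ := by ring
  calc √(∫ y, (psi k η γ y * ch B y * vf k δ (deriv (Rf k ε)) y) ^ 2 / ch B y) *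
        √(∫ y, ch B y * vf k δ ε y ^ 2)
      ≤ √((1 + η) ^ 2 * (C1 * (2 * C2 ^ 2)) * (s ^ 2 * N)) * √(C1 * N) :=
        mul_le_mul (Real.sqrt_le_sqrt e2) (Real.sqrt_le_sqrt hA) (Real.sqrt_nonneg _)
          (Real.sqrt_nonneg _)
    _ = √((1 + η) ^ 2 * (C1 * (2 * C2 ^ 2))) * √C1 * s * (√N * √N) := by
        rw [Real.sqrt_mul (by positivity), Real.sqrt_mul (by positivity) N,
          Real.sqrt_sq hs0, Real.sqrt_mul hC1.le]
        ring
    _ = _ := by rw [Real.mul_self_sqrt hN0]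

private theorem Vra_h (k : ℕ) (γ η : ℝ) (hγ : 0 < γ) (hγ' : γ ≤ 1 / 8) (hη : 0 ≤ η) {h : ℝ → ℝ}
    (hh : Cl (3 / 4) (3 / 4) h) :
    ∃ C : ℝ, 0 < C ∧ ∀ B : ℝ, 16 ≤ B → ∀ (p q : ℝ) (v : ℝ → ℝ), 0 < p → 0 < q → Cl p q v →
    |∫ y, Psi k η γ B y * (v y * h y)| ≤ C * √(∫ y, loc γ B y * (v y) ^ 2) := by
  obtain ⟨C, hC, hb⟩ := Cl_bnd hh
  have hbi : Integrable (bd (5 / 4) (5 / 4)) := bd_int (by norm_num) (by norm_num)
  have hI0 : 0 ≤ ∫ y, bd (5 / 4) (5 / 4) y := integral_nonneg fun y => (bd_pos _ _ y).le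
  refine ⟨√((1 + η) ^ 2 * C ^ 2 * ∫ y, bd (5 / 4) (5 / 4) y) + 1, by positivity, ?_⟩
  intro B hB p q v hp hq hv
  have hB0 : 0 < B := by linarith
  have hψ : Continuous (psi k η γ) := Cl_cont (Cl_psi k η γ)
  have hch := Cl_ch hB0
  have hcc : Continuous (ch B) := Cl_cont hch
  have hse : Continuous (se2 γ) := Cl_cont (Cl_se2 hγ)
  have hvc := Cl_cont hv
  have hhc := Cl_cont hh
  have hlc : Continuous (loc γ B) := by
    unfold loc
    exact hse.mul hcc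
  have hpt : ∀ y, (psi k η γ y * ch B y * h y) ^ 2 / loc γ B y ≤
      (1 + η) ^ 2 * C ^ 2 * bd (5 / 4) (5 / 4) y := by
    intro y
    have h0 := Vra_ch_pos B y
    have h1 := se2_pos γ y
    have h2 := se2_lo γ y
    have h3 := Vra_ch_le_one B y
    have e : (psi k η γ y * ch B y * h y) ^ 2 / loc γ B y =
        psi k η γ y ^ 2 * ch B y * (h y ^ 2 / se2 γ y) := by
      unfold loc
      field_simp
    rw [e]
    have h4 : h y ^ 2 / se2 γ y ≤ C ^ 2 * bd (5 / 4) (5 / 4) y := by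
      rw [div_le_iff₀ h1]
      have h5 : h y ^ 2 ≤ (C * bd (3 / 4) (3 / 4) y) ^ 2 := by
        rw [← sq_abs]
        exact pow_le_pow_left₀ (abs_nonneg _) (hb y) 2
      have h6 : (bd (3 / 4) (3 / 4) y) ^ 2 ≤ bd (5 / 4) (5 / 4) y * se2 γ y := by
        calc (bd (3 / 4) (3 / 4) y) ^ 2 = Real.exp (-(3 / 2 * |y|)) := by
              rw [bd_abs, ← Real.exp_nat_mul]; congr 1; push_cast; ring
          _ ≤ Real.exp (-(5 / 4 * |y|)) * Real.exp (-(2 * |γ * y|)) := by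
              rw [← Real.exp_add, Real.exp_le_exp, abs_mul, abs_of_pos hγ]
              nlinarith [abs_nonneg y]
          _ ≤ Real.exp (-(5 / 4 * |y|)) * se2 γ y :=
              mul_le_mul_of_nonneg_left h2 (Real.exp_pos _).le
          _ = _ := by rw [bd_abs]
      calc h y ^ 2 ≤ (C * bd (3 / 4) (3 / 4) y) ^ 2 := h5
        _ = C ^ 2 * (bd (3 / 4) (3 / 4) y) ^ 2 := by ring
        _ ≤ C ^ 2 * (bd (5 / 4) (5 / 4) y * se2 γ y) :=
            mul_le_mul_of_nonneg_left h6 (by positivity)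
        _ = _ := by ring
    calc psi k η γ y ^ 2 * ch B y * (h y ^ 2 / se2 γ y)
        ≤ ((1 + η) ^ 2 * 1) * (C ^ 2 * bd (5 / 4) (5 / 4) y) := by
          apply mul_le_mul _ h4 (by positivity) (by positivity)
          exact mul_le_mul (Vra_psi_sq hη γ y) h3 h0.le (by positivity)
      _ = _ := by ring
  have key := cs_wt (F := v) (φ := fun y => psi k η γ y * ch B y * h y) (W := loc γ B) hvc
    (by fun_prop) hlc (loc_pos γ B) (by
      have iv : Integrable (fun y => 1 * (v y) ^ 2) :=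
        Vra_int2 hv (Cl_const 1) (by linarith) (by linarith)
      refine Integrable.mono' iv (by fun_prop : Continuous _).aestronglyMeasurable
        (Filter.Eventually.of_forall fun y => ?_)
      have h0 := loc_pos γ B y
      rw [Real.norm_eq_abs, abs_of_nonneg (by positivity)]
      exact mul_le_mul_of_nonneg_right (loc_le_one γ B y) (sq_nonneg _)) (by
      refine Integrable.mono' (hbi.const_mul ((1 + η) ^ 2 * C ^ 2)) ?_
        (Filter.Eventually.of_forall fun y => ?_)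
      · exact (Continuous.div (by fun_prop) hlc fun y => (loc_pos γ B y).ne').aestronglyMeasurable
      · have h0 := loc_pos γ B y
        rw [Real.norm_eq_abs, abs_of_nonneg (by positivity)]
        exact hpt y)
  have e1 : ∫ y, Psi k η γ B y * (v y * h y) =
      ∫ y, v y * (psi k η γ y * ch B y * h y) := by
    congr 1
    funext y
    simp only [Psi]
    ring
  rw [e1]
  refine key.2.trans (mul_le_mul_of_nonneg_right ?_ (Real.sqrt_nonneg _))
  have e2 : ∫ y, (psi k η γ y * ch B y * h y) ^ 2 / loc γ B y ≤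
      (1 + η) ^ 2 * C ^ 2 * ∫ y, bd (5 / 4) (5 / 4) y := by
    rw [← integral_const_mul]
    refine integral_mono_of_nonneg (Filter.Eventually.of_forall fun y => ?_)
      (hbi.const_mul _) (Filter.Eventually.of_forall hpt)
    have h0 := loc_pos γ B y
    simp only [Pi.zero_apply]
    positivity
  have := Real.sqrt_le_sqrt e2
  linarith

theorem VQ (k : ℕ) (hk : 2 ≤ k) (γ η δ : ℝ) (hγ : 0 < γ) (hγ' : γ ≤ 1 / 8) (hη : 0 ≤ η) (hδ : 0 < δ)
    (hδ' : δ ≤ 1 / 16) :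
    ∃ C : ℝ, 0 < C ∧ ∀ B : ℝ, 16 ≤ B → ∀ (p q : ℝ) (ε : ℝ → ℝ), 0 < p → p ≤ 1 → 0 < q → q ≤ 1 →
    Cl p q ε →
    |∫ y, Psi k η γ B y * (vf k δ ε y * vf k δ (Lam k (Qf k)) y)| ≤
      C * √(∫ y, loc γ B y * (vf k δ ε y) ^ 2) ∧
    |∫ y, Psi k η γ B y * (vf k δ ε y * vf k δ (deriv (deriv (Qf k))) y)| ≤
      C * √(∫ y, loc γ B y * (vf k δ ε y) ^ 2) := by
  have hk1 : 1 ≤ k := by omega
  have h34 : |(3 / 4 : ℝ)| ≤ 2 := by rw [abs_of_pos (by norm_num)]; norm_num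
  have hA : Cl (3 / 4) (3 / 4) (vf k δ (Lam k (Qf k))) :=
    Cl_vf hk1 hδ hδ' h34 h34 (Cl_LamQ hk1 (by norm_num))
  have hD : Cl (3 / 4) (3 / 4) (vf k δ (deriv (deriv (Qf k)))) :=
    Cl_vf hk1 hδ hδ' h34 h34
      (Cl_mono (Cl_der (Cl_der (Cl_Qf hk1))) (by norm_num) (by norm_num))
  obtain ⟨C1, hC1, H1⟩ := Vra_h k γ η hγ hγ' hη hA
  obtain ⟨C2, hC2, H2⟩ := Vra_h k γ η hγ hγ' hη hD
  refine ⟨max C1 C2, lt_max_of_lt_left hC1, ?_⟩
  intro B hB p q ε hp hp1 hq hq1 hε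
  have hp2 : |p| ≤ 2 := by rw [abs_of_pos hp]; linarith
  have hq2 : |q| ≤ 2 := by rw [abs_of_pos hq]; linarith
  have hv : Cl p q (vf k δ ε) := Cl_vf hk1 hδ hδ' hp2 hq2 hε
  exact ⟨(H1 B hB p q _ hp hq hv).trans
      (mul_le_mul_of_nonneg_right (le_max_left _ _) (Real.sqrt_nonneg _)),
    (H2 B hB p q _ hp hq hv).trans
      (mul_le_mul_of_nonneg_right (le_max_right _ _) (Real.sqrt_nonneg _))⟩

end H98KB
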