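import Pool.Agent.H98.KB.Vie
import Pool.Agent.H98.KB.Nlb

/-!
# Vrb : the terms `ε'`, `ε''`, `e'` in the virial functional

`v = vf k δ ε`, `|ψ| ≤ 1+η`, `|ψ'| ≤ C w`, `|Ψ'| ≤ C wχ + (2(1+η)/B)χ`, `|Ψ''| ≤ Cχ`.
* `L ε' = (Lε)' + (Q^k)'ε`, so `vf ε' = v' + Sm((Q^k)'ε)`; `∫Ψvv' = -(1/2)∫Ψ'v²`;
  `|∫Ψ v Sm h| ≤ (1+η)(∫wχv²)^{1/2}(∫(χ/w)(Sm h)²)^{1/2}`, weight `W=χ cosh²(γy)` as in `Vcu`, `h=(Q^k)'ε`,
  `W h² ≤ C wχε²`.
* `L ε'' = (Lε)'' + (Q^k)''ε + 2(Q^k)'ε'`, `vf ε'' = v'' + Sm(...)`; `∫Ψvv'' = -∫Ψv'²+(1/2)∫Ψ''v²`; then `Sm_wt`, `vf_wt`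
  with `W=ch B`.
* `e'`: Cauchy-Schwarz, `vf_wt0` with `W = ch B`.
-/

open MeasureTheory Filter Topology Set
open scoped ContDiff

namespace H98KB

private lemma Vrb_dom {F G : ℝ → ℝ} (hG : Integrable G) (h : ∀ y, |F y| ≤ G y) :
    |∫ y, F y| ≤ ∫ y, G y := by
  have h1 := norm_integral_le_of_norm_le (f := F) hG (Eventually.of_forall fun y => by
    rw [Real.norm_eq_abs]; exact h y)
  rwa [Real.norm_eq_abs] at h1

private lemma Vrb_int {a b c d : ℝ} {W f : ℝ → ℝ} (hW : Cl c d W) (hf : Cl a b f)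
    (h1 : 0 < 2 * a + c) (h2 : 0 < 2 * b + d) : Integrable (fun y => W y * (f y) ^ 2) := by
  refine Cl_int (Cl_mul hW (Cl_pow hf 2)) ?_ ?_
  · push_cast
    linarith
  · push_cast
    linarith

private lemma Vrb_ch2 {δ B : ℝ} (hδ : 0 < δ) (hδ' : δ ≤ 1 / 16) (hB : 16 ≤ B) (y : ℝ) :
    δ * |deriv (deriv (ch B)) y| ≤ ch B y / 4 := by
  have h1 := ch2_le (B := B) (by linarith) y
  have h2 : 0 < ch B y := by rw [ch_eq']; exact se2_pos _ _
  have h3 : 8 / B ^ 2 ≤ 1 := by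
    rw [div_le_one (by positivity)]
    nlinarith
  have h4 : |deriv (deriv (ch B)) y| ≤ ch B y :=
    h1.trans (by nlinarith)
  have h5 := mul_le_mul hδ' h4 (abs_nonneg _) (by norm_num)
  linarith

private lemma Vrb_Qk0 {k : ℕ} (hk : 1 ≤ k) : Cl 0 0 (deriv (fun y => Qf k y ^ k)) :=
  Cl_mono (Cl_der (Cl_Qk hk)) (Nat.cast_nonneg k) (Nat.cast_nonneg k)

/-- `vf ε' = (vf ε)' + Sm ((Q^k)' ε)` -/
private lemma Vrb_id {k : ℕ} (hk : 1 ≤ k) {δ p q : ℝ} {ε : ℝ → ℝ} (hδ : 0 < δ)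
    (hδ' : δ ≤ 1 / 16) (hp : |p| ≤ 2) (hq : |q| ≤ 2) (hε : Cl p q ε) (y : ℝ) :
    vf k δ (deriv ε) y = deriv (vf k δ ε) y +
      Sm δ (fun y => deriv (fun y => Qf k y ^ k) y * ε y) y := by
  have h1 : Lop k (deriv ε) = fun y => deriv (Lop k ε) y +
      deriv (fun y => Qf k y ^ k) y * ε y := by
    funext z
    have e1 := Cl_hd (Cl_der (Cl_der hε)) z
    have e2 := Cl_hd hε z
    have e3 := Cl_hd (Cl_Qk hk) z
    have e4 : HasDerivAt (Lop k ε) (-deriv (deriv (deriv ε)) z + deriv ε z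
        - (deriv (fun y => Qf k y ^ k) z * ε z + Qf k z ^ k * deriv ε z)) z :=
      (e1.neg.add e2).sub (e3.mul e2)
    rw [e4.deriv]
    unfold Lop
    ring
  have hL := Cl_Lop hk hε
  have hh : Cl p q (fun y => deriv (fun y => Qf k y ^ k) y * ε y) := Cl_mul0 (Vrb_Qk0 hk) hε
  show Sm δ (Lop k (deriv ε)) y = deriv (Sm δ (Lop k ε)) y + _
  rw [h1, Sm_add hδ hδ' hp hq hp hq (Cl_der hL) hh, Sm_deriv hδ hδ' hp hq hL]

private lemma Vrb_psi_hd (k : ℕ) (η γ y : ℝ) : HasDerivAt (psi k η γ)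
    ((k : ℝ) / 2 * (1 - th k y ^ 2) + η * (γ * (1 - Real.tanh (γ * y) ^ 2))) y :=
  (th_hd k y).add ((tanh_hd γ y).const_mul η)

private lemma Vrb_exp {k : ℕ} (hk : 5 ≤ k) {γ : ℝ} (hγ : 0 < γ) (hγ' : γ ≤ 1 / 8) (y : ℝ) :
    Real.exp (-((k : ℝ) * |y|)) ≤ se2 γ y := by
  refine le_trans ?_ (se2_lo γ y)
  rw [Real.exp_le_exp, abs_mul, abs_of_pos hγ]
  have h1 : (5 : ℝ) ≤ k := by exact_mod_cast hk
  have h2 := abs_nonneg y
  nlinarith

private lemma Vrb_psi1 {k : ℕ} (hk : 5 ≤ k) {γ η : ℝ} (hγ : 0 < γ) (hγ' : γ ≤ 1 / 8)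
    (hη : 0 ≤ η) (y : ℝ) : |deriv (psi k η γ) y| ≤ (2 * k + η) * se2 γ y := by
  have hk0 : (0 : ℝ) ≤ k := Nat.cast_nonneg k
  rw [(Vrb_psi_hd k η γ y).deriv, th_eq, ← se2_eq, ← se2_eq]
  have h1 := se2_pos ((k : ℝ) / 2) y
  have h2 := se2_pos γ y
  have h3 : se2 ((k : ℝ) / 2) y ≤ 4 * se2 γ y := by
    refine (se2_hi _ y).trans ?_
    have h4 := Vrb_exp hk hγ hγ' y
    have h5 : 2 * |(k : ℝ) / 2 * y| = (k : ℝ) * |y| := by
      rw [abs_mul, abs_of_nonneg (by positivity)]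
      ring
    rw [h5]
    linarith
  rw [abs_of_nonneg (by positivity)]
  have h6 : (k : ℝ) / 2 * se2 ((k : ℝ) / 2) y ≤ (k : ℝ) / 2 * (4 * se2 γ y) :=
    mul_le_mul_of_nonneg_left h3 (by positivity)
  have h7 : η * (γ * se2 γ y) ≤ η * (1 * se2 γ y) :=
    mul_le_mul_of_nonneg_left (mul_le_mul_of_nonneg_right (by linarith) h2.le) hη
  (first | linarith only [h6, h7] | nlinarith only [h6, h7])

private lemma Vrb_Psi1 {k : ℕ} (hk : 5 ≤ k) {γ η B : ℝ} (hγ : 0 < γ) (hγ' : γ ≤ 1 / 8)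
    (hη : 0 ≤ η) (hB : 16 ≤ B) (y : ℝ) : |deriv (Psi k η γ B) y| ≤
      (2 * k + η) * loc γ B y + 2 * (1 + η) / B * ch B y := by
  have hB0 : 0 < B := by linarith
  have h1 : HasDerivAt (Psi k η γ B) (deriv (psi k η γ) y * ch B y +
      psi k η γ y * deriv (ch B) y) y :=
    (Cl_hd (Cl_psi k η γ) y).mul (Cl_hd (Cl_ch hB0) y)
  have hc : 0 < ch B y := by rw [ch_eq']; exact se2_pos _ _
  rw [h1.deriv]
  refine (abs_add_le _ _).trans ?_
  rw [abs_mul, abs_mul, abs_of_pos hc]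
  have h2 := mul_le_mul_of_nonneg_right (Vrb_psi1 hk hγ hγ' hη y) hc.le
  have h3 := mul_le_mul (psi_abs (k := k) hη γ y) (ch1_le (B := B) (by linarith) y) (abs_nonneg _)
    (by linarith)
  have h4 : (2 * (k : ℝ) + η) * se2 γ y * ch B y = (2 * k + η) * loc γ B y := by
    unfold loc
    ring
  have h5 : (1 + η) * (2 / B * ch B y) = 2 * (1 + η) / B * ch B y := by ring
  rw [h4] at h2
  rw [h5] at h3
  linarith

private lemma Vrb_Psi_abs {k : ℕ} {γ η B : ℝ} (hη : 0 ≤ η) (y : ℝ) :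
    |Psi k η γ B y| ≤ (1 + η) * ch B y := by
  have hc : 0 < ch B y := by rw [ch_eq']; exact se2_pos _ _
  unfold Psi
  rw [abs_mul, abs_of_pos hc]
  exact mul_le_mul_of_nonneg_right (psi_abs hη γ y) hc.le

private lemma Vrb_chpos (B y : ℝ) : 0 < ch B y := by
  rw [ch_eq']
  exact se2_pos _ _

/-- the weight `χ cosh²(γ y)` -/
private noncomputable def Vrb_W (γ B y : ℝ) : ℝ := ch B y * Real.cosh (γ * y) ^ 2

private lemma Vrb_ClW {γ B : ℝ} (hγ : 0 < γ) (hB : 0 < B) :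
    Cl (2 / B + -(2 * γ)) (2 / B + -(2 * γ)) (Vrb_W γ B) := by
  have h1 : Cl (-(2 * γ)) (-(2 * γ)) (fun y => Real.cosh (γ * y) ^ 2) := by
    have e : (fun y => Real.cosh (γ * y) ^ 2) = fun y =>
        (1 / 4 * Real.exp (2 * γ * y) + 1 / 4 * Real.exp (-(2 * γ) * y)) + 1 / 2 := by
      funext y
      rw [Real.cosh_eq]
      have e1 : Real.exp (2 * γ * y) = Real.exp (γ * y) * Real.exp (γ * y) := by
        rw [← Real.exp_add]
        congr 1
        ring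
      have e2 : Real.exp (-(2 * γ) * y) = Real.exp (-(γ * y)) * Real.exp (-(γ * y)) := by
        rw [← Real.exp_add]
        congr 1
        ring
      have e3 : Real.exp (γ * y) * Real.exp (-(γ * y)) = 1 := by
        rw [← Real.exp_add, add_neg_cancel, Real.exp_zero]
      rw [e1, e2]
      linear_combination (1 / 2) * e3
    rw [e]
    refine Cl_add (Cl_add (Cl_smul _ ?_) (Cl_smul _ ?_)) ?_
    · exact Cl_mono (Cl_exp (2 * γ)) le_rfl (by linarith)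
    · exact Cl_mono (Cl_exp (-(2 * γ))) (by linarith) le_rfl
    · exact Cl_mono (Cl_const _) (by linarith) (by linarith)
  exact Cl_mul (Cl_ch hB) h1

private lemma Vrb_W2 {γ B δ : ℝ} (hγ : 0 < γ) (hγ' : γ ≤ 1 / 8) (hB : 16 ≤ B) (hδ : 0 < δ)
    (hδ' : δ ≤ 1 / 16) (y : ℝ) : δ * |deriv (deriv (Vrb_W γ B)) y| ≤ Vrb_W γ B y / 4 := by
  have hB0 : 0 < B := by linarith
  -- logarithmic derivative
  let a : ℝ → ℝ := fun y => -(2 / B) * Real.tanh (1 / B * y) + 2 * γ * Real.tanh (γ * y)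
  have hW1 : ∀ y, HasDerivAt (Vrb_W γ B) (Vrb_W γ B y * a y) y := by
    intro y
    have e1 : HasDerivAt (ch B) (-2 * (1 / B) * Real.tanh (1 / B * y) * ch B y) y := by
      have h := se2_hd (1 / B) y
      have h' : ch B = se2 (1 / B) := by
        funext z
        exact ch_eq' B z
      rw [h']
      exact h
    have e2 : HasDerivAt (fun y => Real.cosh (γ * y)) (Real.sinh (γ * y) * γ) y := by
      have h0 : HasDerivAt (fun y : ℝ => γ * y) γ y := by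
        simpa using (hasDerivAt_id y).const_mul γ
      exact h0.cosh
    have e3 : HasDerivAt (Vrb_W γ B) (-2 * (1 / B) * Real.tanh (1 / B * y) * ch B y *
        Real.cosh (γ * y) ^ 2 + ch B y * (((2 : ℕ) : ℝ) * Real.cosh (γ * y) ^ (2 - 1) *
        (Real.sinh (γ * y) * γ))) y := e1.mul (e2.pow 2)
    have hc : Real.cosh (γ * y) ≠ 0 := (Real.cosh_pos _).ne'
    refine e3.congr_deriv ?_
    show _ = ch B y * Real.cosh (γ * y) ^ 2 *
      (-(2 / B) * Real.tanh (1 / B * y) + 2 * γ * Real.tanh (γ * y))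
    rw [Real.tanh_eq_sinh_div_cosh (γ * y)]
    field_simp
    ring
  have ha : ∀ y, HasDerivAt a (-(2 / B) * (1 / B * (1 - Real.tanh (1 / B * y) ^ 2)) +
      2 * γ * (γ * (1 - Real.tanh (γ * y) ^ 2))) y := fun y =>
    ((tanh_hd (1 / B) y).const_mul _).add ((tanh_hd γ y).const_mul _)
  have hd1 : deriv (Vrb_W γ B) = fun y => Vrb_W γ B y * a y := funext fun y => (hW1 y).deriv
  have hd2 : deriv (deriv (Vrb_W γ B)) y = Vrb_W γ B y * (a y * a y +
      (-(2 / B) * (1 / B * (1 - Real.tanh (1 / B * y) ^ 2)) +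
      2 * γ * (γ * (1 - Real.tanh (γ * y) ^ 2)))) := by
    rw [hd1]
    refine (((hW1 y).mul (ha y)).deriv).trans ?_
    ring
  have hWp : 0 < Vrb_W γ B y := mul_pos (Vrb_chpos B y) (pow_pos (Real.cosh_pos _) 2)
  have t1 := abs_lt.1 (tanh_abs_lt (1 / B * y))
  have t2 := abs_lt.1 (tanh_abs_lt (γ * y))
  have b1 : 2 / B ≤ 1 / 8 := by
    rw [div_le_div_iff₀ hB0 (by norm_num)]
    linarith
  have b0 : 0 < 2 / B := by positivity
  have b2 : 1 / B ≤ 1 / 16 := by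
    rw [div_le_div_iff₀ hB0 (by norm_num)]
    linarith
  have b3 : 0 < 1 / B := by positivity
  have ha1 : |a y| ≤ 1 := by
    show |-(2 / B) * Real.tanh (1 / B * y) + 2 * γ * Real.tanh (γ * y)| ≤ 1
    have f1 : |2 / B * Real.tanh (1 / B * y)| ≤ 1 / 8 * 1 := by
      rw [abs_mul, abs_of_pos b0]
      exact mul_le_mul b1 (tanh_abs_lt _).le (abs_nonneg _) (by norm_num)
    have f2 : |2 * γ * Real.tanh (γ * y)| ≤ 1 / 4 * 1 := by
      rw [abs_mul, abs_of_pos (by positivity)]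
      exact mul_le_mul (by linarith) (tanh_abs_lt _).le (abs_nonneg _) (by norm_num)
    rw [abs_le] at f1 f2 ⊢
    constructor
    · linarith [f1.2, f2.1]
    · linarith [f1.1, f2.2]
  have ha2 : |a y * a y| ≤ 1 := by
    rw [abs_mul]
    have := mul_le_mul ha1 ha1 (abs_nonneg _) (by norm_num)
    linarith
  have hs1 : 0 ≤ 1 - Real.tanh (1 / B * y) ^ 2 ∧ 1 - Real.tanh (1 / B * y) ^ 2 ≤ 1 := by
    constructor
    · (first | linarith only [t1.1, t1.2, hδ, hδ', t1] | nlinarith only [t1.1, t1.2, hδ, hδ', t1])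
    · linarith [sq_nonneg (Real.tanh (1 / B * y))]
  have hs2 : 0 ≤ 1 - Real.tanh (γ * y) ^ 2 ∧ 1 - Real.tanh (γ * y) ^ 2 ≤ 1 := by
    constructor
    · (first | linarith only [t2.1, t2.2, hδ, hδ', t2] | nlinarith only [t2.1, t2.2, hδ, hδ', t2])
    · linarith [sq_nonneg (Real.tanh (γ * y))]
  have g1 : 2 / B * (1 / B * (1 - Real.tanh (1 / B * y) ^ 2)) ≤ 1 / 8 * (1 / 16 * 1) := by
    apply mul_le_mul b1 _ (mul_nonneg b3.le hs1.1) (by norm_num)
    exact mul_le_mul b2 hs1.2 hs1.1 (by norm_num)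
  have g1' : 0 ≤ 2 / B * (1 / B * (1 - Real.tanh (1 / B * y) ^ 2)) :=
    mul_nonneg b0.le (mul_nonneg b3.le hs1.1)
  have g2 : 2 * γ * (γ * (1 - Real.tanh (γ * y) ^ 2)) ≤ 1 / 4 * (1 / 8 * 1) := by
    apply mul_le_mul (by linarith) _ (mul_nonneg hγ.le hs2.1) (by norm_num)
    exact mul_le_mul hγ' hs2.2 hs2.1 (by norm_num)
  have g2' : 0 ≤ 2 * γ * (γ * (1 - Real.tanh (γ * y) ^ 2)) :=
    mul_nonneg (by linarith) (mul_nonneg hγ.le hs2.1)
  have hfin : |a y * a y + (-(2 / B) * (1 / B * (1 - Real.tanh (1 / B * y) ^ 2)) +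
      2 * γ * (γ * (1 - Real.tanh (γ * y) ^ 2)))| ≤ 2 := by
    rw [abs_le] at ha2 ⊢
    constructor
    · linarith [ha2.1]
    · linarith [ha2.2]
  rw [hd2, abs_mul, abs_of_pos hWp]
  have hm : Vrb_W γ B y * |a y * a y + (-(2 / B) * (1 / B * (1 - Real.tanh (1 / B * y) ^ 2)) +
      2 * γ * (γ * (1 - Real.tanh (γ * y) ^ 2)))| ≤ Vrb_W γ B y * 2 :=
    mul_le_mul_of_nonneg_left hfin hWp.le
  have hm2 := mul_le_mul hδ' hm (mul_nonneg hWp.le (abs_nonneg _)) (by norm_num)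
  linarith

theorem VM (k : ℕ) (hk : 5 ≤ k) (γ η δ : ℝ) (hγ : 0 < γ) (hγ' : γ ≤ 1 / 8) (hη : 0 ≤ η) (hδ : 0 < δ)
    (hδ' : δ ≤ 1 / 16) :
    ∃ C : ℝ, 0 < C ∧ ∀ B : ℝ, 16 ≤ B → ∀ (p q : ℝ) (ε : ℝ → ℝ), 0 < p → p ≤ 1 → 0 < q → q ≤ 1 →
    Cl p q ε →
    |∫ y, Psi k η γ B y * (vf k δ ε y * vf k δ (deriv ε) y)| ≤
      C * ((∫ y, loc γ B y * ((vf k δ ε y) ^ 2 + (ε y) ^ 2))
        + 1 / B * ∫ y, ch B y * (vf k δ ε y) ^ 2) := by
  have hk1 : 1 ≤ k := by omega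
  have hkR : (5 : ℝ) ≤ k := by exact_mod_cast hk
  obtain ⟨Cq, hCq0, hCq⟩ := Cl_bnd (Cl_der (Cl_Qk hk1))
  have hQ : ∀ y, |deriv (fun y => Qf k y ^ k) y| ≤ Cq * se2 γ y := by
    intro y
    refine (hCq y).trans (mul_le_mul_of_nonneg_left ?_ hCq0)
    rw [bd_abs]
    exact Vrb_exp hk hγ hγ' y
  refine ⟨(2 * k + η) + (1 + η) + (1 + η) * (4 / 3 * Cq ^ 2), by positivity, ?_⟩
  intro B hB p q ε hp hp1 hq hq1 hε
  have hB0 : 0 < B := by linarith
  have hp2 : |p| ≤ 2 := by rw [abs_of_pos hp]; linarith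
  have hq2 : |q| ≤ 2 := by rw [abs_of_pos hq]; linarith
  have h2B : 0 < 2 / B := by positivity
  obtain ⟨v, hv⟩ : ∃ v, v = vf k δ ε := ⟨_, rfl⟩
  obtain ⟨h, hh⟩ : ∃ h : ℝ → ℝ, h = fun y => deriv (fun y => Qf k y ^ k) y * ε y := ⟨_, rfl⟩
  have hvC : Cl p q v := by rw [hv]; exact Cl_vf hk1 hδ hδ' hp2 hq2 hε
  have hhC : Cl 1 1 h := by
    rw [hh]
    exact Cl_mono (Cl_mul (Cl_der (Cl_Qk hk1)) hε) (by linarith) (by linarith)
  have hSC : Cl 1 1 (Sm δ h) := Cl_Sm hδ hδ' (by norm_num) (by norm_num) hhC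
  have hlocC : Cl (2 * γ + 2 / B) (2 * γ + 2 / B) (loc γ B) := Cl_mul (Cl_se2 hγ) (Cl_ch hB0)
  have hWC := Vrb_ClW (B := B) hγ hB0
  have hPC := Cl_Psi k η γ hB0
  -- integrability
  have i1 : Integrable (fun y => loc γ B y * (v y) ^ 2) :=
    Vrb_int hlocC hvC (by linarith) (by linarith)
  have i2 : Integrable (fun y => loc γ B y * (ε y) ^ 2) :=
    Vrb_int hlocC hε (by linarith) (by linarith)
  have i3 : Integrable (fun y => ch B y * (v y) ^ 2) :=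
    Vrb_int (Cl_ch hB0) hvC (by linarith) (by linarith)
  have i4 : Integrable (fun y => Vrb_W γ B y * (Sm δ h y) ^ 2) :=
    Vrb_int hWC hSC (by linarith) (by linarith)
  have i5 : Integrable (fun y => Vrb_W γ B y * (h y) ^ 2) :=
    Vrb_int hWC hhC (by linarith) (by linarith)
  -- splitting
  have hsplit : (fun y => Psi k η γ B y * (vf k δ ε y * vf k δ (deriv ε) y)) =
      fun y => Psi k η γ B y * (v y * deriv v y) + Psi k η γ B y * (v y * Sm δ h y) := by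
    funext y
    rw [Vrb_id hk1 hδ hδ' hp2 hq2 hε y, ← hh, hv]
    ring
  have i6 : Integrable (fun y => Psi k η γ B y * (v y * deriv v y)) :=
    Cl_int (Cl_mul hPC (Cl_mul hvC (Cl_der hvC))) (by linarith) (by linarith)
  have i7 : Integrable (fun y => Psi k η γ B y * (v y * Sm δ h y)) :=
    Cl_int (Cl_mul hPC (Cl_mul hvC hSC)) (by linarith) (by linarith)
  -- first part
  have hA : |∫ y, Psi k η γ B y * (v y * deriv v y)| ≤
      1 / 2 * ((2 * k + η) * (∫ y, loc γ B y * (v y) ^ 2)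
        + 2 * (1 + η) / B * ∫ y, ch B y * (v y) ^ 2) := by
    have e1 : ∫ y, deriv (Psi k η γ B) y * (v y * v y) =
        -∫ y, Psi k η γ B y * deriv (fun y => v y * v y) y :=
      Cl_ibp hPC (Cl_mul hvC hvC) (by linarith) (by linarith)
    have e2 : (fun y => Psi k η γ B y * deriv (fun y => v y * v y) y) =
        fun y => 2 * (Psi k η γ B y * (v y * deriv v y)) := by
      funext y
      have e3 : HasDerivAt (fun y => v y * v y) (deriv v y * v y + v y * deriv v y) y :=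
        (Cl_hd hvC y).mul (Cl_hd hvC y)
      rw [e3.deriv]
      ring
    rw [e2, integral_const_mul] at e1
    have e4 : ∫ y, Psi k η γ B y * (v y * deriv v y) =
        -(1 / 2) * ∫ y, deriv (Psi k η γ B) y * (v y * v y) := by linarith
    rw [e4, abs_mul, abs_neg, abs_of_pos (by norm_num : (0 : ℝ) < 1 / 2)]
    refine mul_le_mul_of_nonneg_left ?_ (by norm_num)
    refine (Vrb_dom (G := fun y => (2 * k + η) * (loc γ B y * (v y) ^ 2) +
      2 * (1 + η) / B * (ch B y * (v y) ^ 2)) ((i1.const_mul _).add (i3.const_mul _)) ?_).trans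
      (le_of_eq ?_)
    · intro y
      rw [abs_mul, abs_mul_self]
      have e5 := mul_le_mul_of_nonneg_right (Vrb_Psi1 hk hγ hγ' hη hB y) (mul_self_nonneg (v y))
      refine e5.trans (le_of_eq ?_)
      ring
    · rw [integral_add (i1.const_mul _) (i3.const_mul _), integral_const_mul, integral_const_mul]
  -- second part
  have hBq : |∫ y, Psi k η γ B y * (v y * Sm δ h y)| ≤
      (1 + η) / 2 * ((∫ y, loc γ B y * (v y) ^ 2) + 4 / 3 * (Cq ^ 2 *
        ∫ y, loc γ B y * (ε y) ^ 2)) := by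
    have e1 : ∫ y, Vrb_W γ B y * (Sm δ h y) ^ 2 ≤ 4 / 3 * ∫ y, Vrb_W γ B y * (h y) ^ 2 :=
      (Sm_wt hδ hδ' (by norm_num) (by norm_num) hhC hWC
        (fun y => mul_pos (Vrb_chpos B y) (pow_pos (Real.cosh_pos _) 2))
        (Vrb_W2 hγ hγ' hB hδ hδ') (by linarith) (by linarith)).1
    have e2 : ∫ y, Vrb_W γ B y * (h y) ^ 2 ≤ Cq ^ 2 * ∫ y, loc γ B y * (ε y) ^ 2 := by
      rw [← integral_const_mul]
      apply integral_mono i5 (i2.const_mul _)
      intro y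
      show Vrb_W γ B y * (h y) ^ 2 ≤ Cq ^ 2 * (loc γ B y * (ε y) ^ 2)
      have f1 := hQ y
      have f2 : (deriv (fun y => Qf k y ^ k) y) ^ 2 ≤ (Cq * se2 γ y) ^ 2 := by
        rw [← sq_abs (deriv (fun y => Qf k y ^ k) y)]
        exact pow_le_pow_left₀ (abs_nonneg _) f1 2
      have f3 : 0 ≤ Vrb_W γ B y * (ε y) ^ 2 :=
        mul_nonneg (mul_nonneg (Vrb_chpos B y).le (by positivity)) (sq_nonneg _)
      have f4 := mul_le_mul_of_nonneg_left f2 f3
      have f5 : Real.cosh (γ * y) ^ 2 * se2 γ y = 1 := by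
        unfold se2
        have hc : Real.cosh (γ * y) ≠ 0 := (Real.cosh_pos _).ne'
        field_simp
      calc Vrb_W γ B y * (h y) ^ 2
          = Vrb_W γ B y * (ε y) ^ 2 * (deriv (fun y => Qf k y ^ k) y) ^ 2 := by
            rw [hh]
            ring
        _ ≤ Vrb_W γ B y * (ε y) ^ 2 * (Cq * se2 γ y) ^ 2 := f4
        _ = Cq ^ 2 * (loc γ B y * (ε y) ^ 2) * (Real.cosh (γ * y) ^ 2 * se2 γ y) := by
            unfold Vrb_W loc
            ring
        _ = Cq ^ 2 * (loc γ B y * (ε y) ^ 2) := by rw [f5, mul_one]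
    have e3 := Vrb_dom (F := fun y => Psi k η γ B y * (v y * Sm δ h y))
      (G := fun y => (1 + η) / 2 * (loc γ B y * (v y) ^ 2 + Vrb_W γ B y * (Sm δ h y) ^ 2))
      ((i1.add i4).const_mul _) (by
        intro y
        show |Psi k η γ B y * (v y * Sm δ h y)| ≤ _
        rw [abs_mul, abs_mul]
        have g1 := mul_le_mul_of_nonneg_right (Vrb_Psi_abs (k := k) (γ := γ) (B := B) hη y)
          (mul_nonneg (abs_nonneg (v y)) (abs_nonneg (Sm δ h y)))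
        refine g1.trans ?_
        have hc : 0 < Real.cosh (γ * y) := Real.cosh_pos _
        have g2 : 2 * (|v y| * |Sm δ h y|) ≤ se2 γ y * (v y) ^ 2 +
            Real.cosh (γ * y) ^ 2 * (Sm δ h y) ^ 2 := by
          have g3 := sq_nonneg (1 / Real.cosh (γ * y) * |v y| - Real.cosh (γ * y) * |Sm δ h y|)
          have g4 : 1 / Real.cosh (γ * y) * Real.cosh (γ * y) = 1 := by field_simp
          have g5 : (1 / Real.cosh (γ * y) * |v y| - Real.cosh (γ * y) * |Sm δ h y|) ^ 2 =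
              (1 / Real.cosh (γ * y)) ^ 2 * |v y| ^ 2 +
              Real.cosh (γ * y) ^ 2 * |Sm δ h y| ^ 2 -
              2 * (1 / Real.cosh (γ * y) * Real.cosh (γ * y)) * (|v y| * |Sm δ h y|) := by ring
          rw [g5, g4, sq_abs, sq_abs] at g3
          unfold se2
          linarith
        have g6 := mul_le_mul_of_nonneg_left g2
          (mul_nonneg (by linarith : (0 : ℝ) ≤ 1 + η) (Vrb_chpos B y).le)
        have g7 : (1 + η) / 2 * (loc γ B y * (v y) ^ 2 + Vrb_W γ B y * (Sm δ h y) ^ 2) =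
            1 / 2 * ((1 + η) * ch B y * (se2 γ y * (v y) ^ 2 +
            Real.cosh (γ * y) ^ 2 * (Sm δ h y) ^ 2)) := by
          unfold loc Vrb_W
          ring
        rw [g7]
        linarith)
    refine e3.trans ?_
    rw [integral_const_mul, integral_add i1 i4]
    refine mul_le_mul_of_nonneg_left ?_ (by linarith)
    linarith
  have hI1 : 0 ≤ ∫ y, loc γ B y * (v y) ^ 2 :=
    integral_nonneg fun y => mul_nonneg (loc_pos γ B y).le (sq_nonneg _)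
  have hI2 : 0 ≤ ∫ y, loc γ B y * (ε y) ^ 2 :=
    integral_nonneg fun y => mul_nonneg (loc_pos γ B y).le (sq_nonneg _)
  have hI3 : 0 ≤ ∫ y, ch B y * (v y) ^ 2 :=
    integral_nonneg fun y => mul_nonneg (Vrb_chpos B y).le (sq_nonneg _)
  have hsum : ∫ y, loc γ B y * ((vf k δ ε y) ^ 2 + (ε y) ^ 2) =
      (∫ y, loc γ B y * (v y) ^ 2) + ∫ y, loc γ B y * (ε y) ^ 2 := by
    rw [← integral_add i1 i2, hv]
    congr 1
    funext y
    ring
  rw [hsplit, integral_add i6 i7, hsum, ← hv]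
  refine (abs_add_le _ _).trans ((add_le_add hA hBq).trans ?_)
  generalize (∫ y, loc γ B y * (v y) ^ 2) = I1 at hI1 ⊢
  generalize (∫ y, loc γ B y * (ε y) ^ 2) = I2 at hI2 ⊢
  generalize (∫ y, ch B y * (v y) ^ 2) = I3 at hI3 ⊢
  have hk0 : (0 : ℝ) ≤ 2 * k + η := by positivity
  have hb : 0 < 1 / B := by positivity
  have m1 := mul_nonneg hk0 hI1
  have m2 := mul_nonneg hk0 hI2
  have m3 := mul_nonneg (mul_nonneg hk0 hb.le) hI3
  have m4 := mul_nonneg (by linarith : (0 : ℝ) ≤ 1 + η) hI1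
  have m5 := mul_nonneg (by linarith : (0 : ℝ) ≤ 1 + η) hI2
  have m6 : 0 ≤ (1 + η) * (4 / 3 * Cq ^ 2) * I1 := by positivity
  have m7 : 0 ≤ (1 + η) * (4 / 3 * Cq ^ 2) * I2 := by positivity
  have m8 : 0 ≤ (1 + η) * (4 / 3 * Cq ^ 2) * (1 / B * I3) := by positivity
  have e1 : 1 / 2 * ((2 * (k : ℝ) + η) * I1 + 2 * (1 + η) / B * I3) =
      1 / 2 * ((2 * k + η) * I1) + (1 + η) * (1 / B * I3) := by ring
  rw [e1]
  have m3' : 0 ≤ (2 * (k : ℝ) + η) * (1 / B * I3) := by positivity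
  (first | linarith only [m1, m2, m3, m4, m5, m6, m7, m8] | nlinarith only [m1, m2, m3, m4, m5, m6, m7, m8])

theorem VL (k : ℕ) (hk : 5 ≤ k) (γ η δ : ℝ) (hγ : 0 < γ) (hγ' : γ ≤ 1 / 8) (hη : 0 ≤ η) (hδ : 0 < δ)
    (hδ' : δ ≤ 1 / 16) :
    ∃ C : ℝ, 0 < C ∧ ∀ B : ℝ, 16 ≤ B → ∀ (p q : ℝ) (ε : ℝ → ℝ), 0 < p → p ≤ 1 → 0 < q → q ≤ 1 →
    Cl p q ε →
    |∫ y, Psi k η γ B y * (vf k δ ε y * vf k δ (deriv (deriv ε)) y)| ≤
      C * ∫ y, ch B y * ((ε y) ^ 2 + (deriv ε y) ^ 2) := by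
  have hk1 : 1 ≤ k := by omega
  have hkR : (5 : ℝ) ≤ k := by exact_mod_cast hk
  obtain ⟨Cq, hCq0, hCq⟩ := Cl_bnd (Vrb_Qk0 hk1)
  have hQ : ∀ y, (deriv (fun y => Qf k y ^ k) y) ^ 2 ≤ Cq ^ 2 := by
    intro y
    have h1 := hCq y
    rw [bd_zero, mul_one] at h1
    rw [← sq_abs]
    exact pow_le_pow_left₀ (abs_nonneg _) h1 2
  obtain ⟨Cv, hCv0, hCv⟩ := vf_wt k hk1 δ hδ hδ'
  obtain ⟨D, hD⟩ : ∃ D : ℝ, D = 2 * k + η + (1 + η) := ⟨_, rfl⟩
  have hD0 : 0 < D := by rw [hD]; positivity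
  refine ⟨(D + (1 + η)) * Cv + (1 + η) * (Cv + Cq ^ 2 / δ) + (1 + η) * (Cv + 4 / 3 * Cq ^ 2),
    by positivity, ?_⟩
  intro B hB p q ε hp hp1 hq hq1 hε
  have hB0 : 0 < B := by linarith
  have hp2 : |p| ≤ 2 := by rw [abs_of_pos hp]; linarith
  have hq2 : |q| ≤ 2 := by rw [abs_of_pos hq]; linarith
  have h2B : 0 < 2 / B := by positivity
  have h2B1 : 2 / B ≤ 1 := by rw [div_le_one hB0]; linarith
  obtain ⟨v, hv⟩ : ∃ v, v = vf k δ ε := ⟨_, rfl⟩
  obtain ⟨h, hh⟩ : ∃ h : ℝ → ℝ, h = fun y => deriv (fun y => Qf k y ^ k) y * ε y := ⟨_, rfl⟩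
  obtain ⟨g, hg⟩ : ∃ g : ℝ → ℝ, g = fun y => deriv (fun y => Qf k y ^ k) y * deriv ε y := ⟨_, rfl⟩
  have hvC : Cl p q v := by rw [hv]; exact Cl_vf hk1 hδ hδ' hp2 hq2 hε
  have hv1C := Cl_der hvC
  have hv2C := Cl_der hv1C
  have hhC : Cl p q h := by rw [hh]; exact Cl_mul0 (Vrb_Qk0 hk1) hε
  have hgC : Cl p q g := by rw [hg]; exact Cl_mul0 (Vrb_Qk0 hk1) (Cl_der hε)
  have hShC : Cl p q (Sm δ h) := Cl_Sm hδ hδ' hp2 hq2 hhC
  have hSgC : Cl p q (Sm δ g) := Cl_Sm hδ hδ' hp2 hq2 hgC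
  have hSh1C := Cl_der hShC
  have hχ := Cl_ch hB0
  have hPC := Cl_Psi k η γ hB0
  have w1 : 0 < 2 * p + 2 / B := by linarith
  have w2 : 0 < 2 * q + 2 / B := by linarith
  have iv := Vrb_int hχ hvC w1 w2
  have iv1 := Vrb_int hχ hv1C w1 w2
  have ie := Vrb_int hχ hε w1 w2
  have ie1 := Vrb_int hχ (Cl_der hε) w1 w2
  have ih := Vrb_int hχ hhC w1 w2
  have ig := Vrb_int hχ hgC w1 w2
  have ish := Vrb_int hχ hSh1C w1 w2
  have isg := Vrb_int hχ hSgC w1 w2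
  have hchw := Vrb_ch2 hδ hδ' hB
  obtain ⟨J, hJ⟩ : ∃ J, J = ∫ y, ch B y * ((ε y) ^ 2 + (deriv ε y) ^ 2) := ⟨_, rfl⟩
  have nn : ∀ f : ℝ → ℝ, 0 ≤ ∫ y, ch B y * (f y) ^ 2 := fun f =>
    integral_nonneg fun y => mul_nonneg (Vrb_chpos B y).le (sq_nonneg _)
  have hJs : J = (∫ y, ch B y * (ε y) ^ 2) + ∫ y, ch B y * (deriv ε y) ^ 2 := by
    rw [hJ, ← integral_add ie ie1]
    congr 1
    funext y
    ring
  have hJ0 : 0 ≤ J := by
    rw [hJs]
    exact add_nonneg (nn _) (nn _)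
  have hvJ : (∫ y, ch B y * (v y) ^ 2) + (∫ y, ch B y * (deriv v y) ^ 2) ≤ Cv * J := by
    have h1 := hCv p q (2 / B) (2 / B) ε (ch B) hp2 hq2 hε hχ (Vrb_chpos B) hchw w1 w2
    rw [← hv, ← hJ] at h1
    refine le_trans (le_of_eq ?_) h1
    rw [← integral_add iv iv1]
    congr 1
    funext y
    ring
  have hvJ1 : ∫ y, ch B y * (v y) ^ 2 ≤ Cv * J := by
    have := nn (deriv v)
    linarith
  have hhJ : ∫ y, ch B y * (h y) ^ 2 ≤ Cq ^ 2 * J := by
    have e1 : ∫ y, ch B y * (h y) ^ 2 ≤ Cq ^ 2 * ∫ y, ch B y * (ε y) ^ 2 := by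
      rw [← integral_const_mul]
      apply integral_mono ih (ie.const_mul _)
      intro y
      show ch B y * (h y) ^ 2 ≤ Cq ^ 2 * (ch B y * (ε y) ^ 2)
      have f3 : 0 ≤ ch B y * (ε y) ^ 2 := mul_nonneg (Vrb_chpos B y).le (sq_nonneg _)
      have f4 := mul_le_mul_of_nonneg_right (hQ y) f3
      refine le_trans (le_of_eq ?_) f4
      rw [hh]
      ring
    have e2 := mul_nonneg (sq_nonneg Cq) (nn (deriv ε))
    rw [hJs]
    linarith
  have hgJ : ∫ y, ch B y * (g y) ^ 2 ≤ Cq ^ 2 * J := by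
    have e1 : ∫ y, ch B y * (g y) ^ 2 ≤ Cq ^ 2 * ∫ y, ch B y * (deriv ε y) ^ 2 := by
      rw [← integral_const_mul]
      apply integral_mono ig (ie1.const_mul _)
      intro y
      show ch B y * (g y) ^ 2 ≤ Cq ^ 2 * (ch B y * (deriv ε y) ^ 2)
      have f3 : 0 ≤ ch B y * (deriv ε y) ^ 2 := mul_nonneg (Vrb_chpos B y).le (sq_nonneg _)
      have f4 := mul_le_mul_of_nonneg_right (hQ y) f3
      refine le_trans (le_of_eq ?_) f4
      rw [hg]
      ring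
    have e2 := mul_nonneg (sq_nonneg Cq) (nn ε)
    rw [hJs]
    linarith
  have hShJ : ∫ y, ch B y * (deriv (Sm δ h) y) ^ 2 ≤ Cq ^ 2 / δ * J := by
    have e1 := (Sm_wt hδ hδ' hp2 hq2 hhC hχ (Vrb_chpos B) hchw w1 w2).2
    have e2 : ∫ y, ch B y * (deriv (Sm δ h) y) ^ 2 ≤ (Cq ^ 2 * J) / δ := by
      rw [le_div_iff₀ hδ]
      linarith
    refine e2.trans (le_of_eq ?_)
    ring
  have hSgJ : ∫ y, ch B y * (Sm δ g y) ^ 2 ≤ 4 / 3 * Cq ^ 2 * J := by
    have e1 := (Sm_wt hδ hδ' hp2 hq2 hgC hχ (Vrb_chpos B) hchw w1 w2).1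
    linarith
  -- splitting
  have hid1 : vf k δ (deriv ε) = fun y => deriv v y + Sm δ h y := by
    funext y
    rw [Vrb_id hk1 hδ hδ' hp2 hq2 hε y, ← hh, hv]
  have hid2 : ∀ y, vf k δ (deriv (deriv ε)) y =
      deriv (deriv v) y + deriv (Sm δ h) y + Sm δ g y := by
    intro y
    rw [Vrb_id hk1 hδ hδ' hp2 hq2 (Cl_der hε) y, ← hg, hid1]
    have e1 : HasDerivAt (fun y => deriv v y + Sm δ h y)
        (deriv (deriv v) y + deriv (Sm δ h) y) y := (Cl_hd hv1C y).add (Cl_hd hShC y)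
    rw [e1.deriv]
  have hsplit : (fun y => Psi k η γ B y * (vf k δ ε y * vf k δ (deriv (deriv ε)) y)) =
      fun y => (Psi k η γ B y * (v y * deriv (deriv v) y) +
        Psi k η γ B y * (v y * deriv (Sm δ h) y)) + Psi k η γ B y * (v y * Sm δ g y) := by
    funext y
    rw [hid2 y, hv]
    ring
  have j1 : Integrable (fun y => Psi k η γ B y * (v y * deriv (deriv v) y)) :=
    Cl_int (Cl_mul hPC (Cl_mul hvC hv2C)) (by linarith) (by linarith)
  have j2 : Integrable (fun y => Psi k η γ B y * (v y * deriv (Sm δ h) y)) :=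
    Cl_int (Cl_mul hPC (Cl_mul hvC hSh1C)) (by linarith) (by linarith)
  have j3 : Integrable (fun y => Psi k η γ B y * (v y * Sm δ g y)) :=
    Cl_int (Cl_mul hPC (Cl_mul hvC hSgC)) (by linarith) (by linarith)
  -- general Young estimate
  have young : ∀ f : ℝ → ℝ, Cl p q f → |∫ y, Psi k η γ B y * (v y * f y)| ≤
      (1 + η) * ((∫ y, ch B y * (v y) ^ 2) + ∫ y, ch B y * (f y) ^ 2) := by
    intro f hf
    have i1 := Vrb_int hχ hf w1 w2
    refine (Vrb_dom (G := fun y => (1 + η) * (ch B y * (v y) ^ 2 + ch B y * (f y) ^ 2))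
      ((iv.add i1).const_mul _) ?_).trans (le_of_eq ?_)
    · intro y
      rw [abs_mul]
      have g1 := mul_le_mul_of_nonneg_right (Vrb_Psi_abs (k := k) (γ := γ) (B := B) hη y)
        (abs_nonneg (v y * f y))
      refine g1.trans ?_
      have g2 : |v y * f y| ≤ (v y) ^ 2 + (f y) ^ 2 := by
        rw [abs_le]
        constructor
        · (first | linarith only [sq_nonneg (v y + f y), sq_nonneg (v y), sq_nonneg (f y)] | nlinarith only [sq_nonneg (v y + f y), sq_nonneg (v y), sq_nonneg (f y)])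
        · (first | linarith only [sq_nonneg (v y - f y), sq_nonneg (v y), sq_nonneg (f y)] | nlinarith only [sq_nonneg (v y - f y), sq_nonneg (v y), sq_nonneg (f y)])
      have g3 := mul_le_mul_of_nonneg_left g2
        (mul_nonneg (by linarith : (0 : ℝ) ≤ 1 + η) (Vrb_chpos B y).le)
      refine g3.trans (le_of_eq ?_)
      ring
    · rw [integral_const_mul, integral_add iv i1]
  -- first term
  have T1 : |∫ y, Psi k η γ B y * (v y * deriv (deriv v) y)| ≤ (D + (1 + η)) * (Cv * J) := by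
    have e0 : (fun y => Psi k η γ B y * (v y * deriv (deriv v) y)) =
        fun y => deriv (deriv v) y * (Psi k η γ B y * v y) := by
      funext y
      ring
    have e1 : ∫ y, deriv (deriv v) y * (Psi k η γ B y * v y) =
        -∫ y, deriv v y * deriv (fun y => Psi k η γ B y * v y) y :=
      Cl_ibp hv1C (Cl_mul hPC hvC) (by linarith) (by linarith)
    have e2 : ∀ y, deriv (fun y => Psi k η γ B y * v y) y =
        deriv (Psi k η γ B) y * v y + Psi k η γ B y * deriv v y := fun y =>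
      ((Cl_hd hPC y).mul (Cl_hd hvC y)).deriv
    rw [e0, e1, abs_neg]
    refine (Vrb_dom (G := fun y => (D + (1 + η)) * (ch B y * (v y) ^ 2 +
      ch B y * (deriv v y) ^ 2)) ((iv.add iv1).const_mul _) ?_).trans ?_
    · intro y
      rw [e2 y]
      have c0 := Vrb_chpos B y
      have g1 : |deriv (Psi k η γ B) y| ≤ D * ch B y := by
        refine (Vrb_Psi1 hk hγ hγ' hη hB y).trans ?_
        have g2 := mul_le_mul_of_nonneg_left (loc_le_ch γ B y) (by positivity : (0 : ℝ) ≤ 2 * k + η)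
        have g3 : 2 * (1 + η) / B * ch B y ≤ (1 + η) * ch B y := by
          apply mul_le_mul_of_nonneg_right _ c0.le
          have g4 := mul_le_mul_of_nonneg_left h2B1 (by linarith : (0 : ℝ) ≤ 1 + η)
          refine le_trans (le_of_eq ?_) (g4.trans (le_of_eq (mul_one _)))
          ring
        rw [hD]
        linarith
      have g5 := Vrb_Psi_abs (k := k) (γ := γ) (B := B) hη y
      have g6 : |deriv v y * (deriv (Psi k η γ B) y * v y + Psi k η γ B y * deriv v y)| ≤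
          |deriv (Psi k η γ B) y| * |v y * deriv v y| + |Psi k η γ B y| * (deriv v y) ^ 2 := by
        have e3 : deriv v y * (deriv (Psi k η γ B) y * v y + Psi k η γ B y * deriv v y) =
            deriv (Psi k η γ B) y * (v y * deriv v y) + Psi k η γ B y * (deriv v y) ^ 2 := by ring
        rw [e3]
        refine (abs_add_le _ _).trans ?_
        rw [abs_mul, abs_mul (Psi k η γ B y), abs_of_nonneg (sq_nonneg (deriv v y))]
      have g7 : |v y * deriv v y| ≤ (v y) ^ 2 + (deriv v y) ^ 2 := by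
        rw [abs_le]
        constructor
        · (first | linarith only [sq_nonneg (v y + deriv v y), sq_nonneg (v y), sq_nonneg (deriv v y)] | nlinarith only [sq_nonneg (v y + deriv v y), sq_nonneg (v y), sq_nonneg (deriv v y)])
        · (first | linarith only [sq_nonneg (v y - deriv v y), sq_nonneg (v y), sq_nonneg (deriv v y)] | nlinarith only [sq_nonneg (v y - deriv v y), sq_nonneg (v y), sq_nonneg (deriv v y)])
      have g8 := mul_le_mul g1 g7 (abs_nonneg _) (by positivity)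
      have g9 := mul_le_mul_of_nonneg_right g5 (sq_nonneg (deriv v y))
      have g10 : 0 ≤ (1 + η) * (ch B y * (v y) ^ 2) := by positivity
      refine g6.trans ((add_le_add g8 g9).trans ?_)
      linarith
    · rw [integral_const_mul, integral_add iv iv1]
      exact mul_le_mul_of_nonneg_left hvJ (by positivity)
  have T2 := young _ hSh1C
  have T3 := young _ hSgC
  have j12 : Integrable (fun y => Psi k η γ B y * (v y * deriv (deriv v) y) +
      Psi k η γ B y * (v y * deriv (Sm δ h) y)) := j1.add j2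
  rw [hsplit, integral_add j12 j3, integral_add j1 j2, ← hJ]
  refine (abs_add_le _ _).trans ?_
  have T4 := abs_add_le (∫ y, Psi k η γ B y * (v y * deriv (deriv v) y))
    (∫ y, Psi k η γ B y * (v y * deriv (Sm δ h) y))
  have T2' : (1 + η) * ((∫ y, ch B y * (v y) ^ 2) + ∫ y, ch B y * (deriv (Sm δ h) y) ^ 2) ≤
      (1 + η) * (Cv * J + Cq ^ 2 / δ * J) :=
    mul_le_mul_of_nonneg_left (add_le_add hvJ1 hShJ) (by linarith)
  have T3' : (1 + η) * ((∫ y, ch B y * (v y) ^ 2) + ∫ y, ch B y * (Sm δ g y) ^ 2) ≤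
      (1 + η) * (Cv * J + 4 / 3 * Cq ^ 2 * J) :=
    mul_le_mul_of_nonneg_left (add_le_add hvJ1 hSgJ) (by linarith)
  have T5 : ((D + (1 + η)) * Cv + (1 + η) * (Cv + Cq ^ 2 / δ) +
      (1 + η) * (Cv + 4 / 3 * Cq ^ 2)) * J = (D + (1 + η)) * (Cv * J) +
      (1 + η) * (Cv * J + Cq ^ 2 / δ * J) + (1 + η) * (Cv * J + 4 / 3 * Cq ^ 2 * J) := by ring
  rw [T5]
  linarith

theorem VE (k : ℕ) (hk : 5 ≤ k) (γ η δ : ℝ) (hη : 0 ≤ η) (hδ : 0 < δ) (hδ' : δ ≤ 1 / 16) :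
    ∃ C : ℝ, 0 < C ∧ ∀ B : ℝ, 16 ≤ B → ∀ (p q : ℝ) (ε e : ℝ → ℝ), 0 < p → p ≤ 1 → 0 < q → q ≤ 1 →
    Cl p q ε → Cl p q e →
    |∫ y, Psi k η γ B y * (vf k δ ε y * vf k δ (deriv e) y)| ≤
      C * √(∫ y, ch B y * (ε y) ^ 2) * √(∫ y, ch B y * (deriv e y) ^ 2) := by
  have hk1 : 1 ≤ k := by omega
  obtain ⟨Cv, hCv0, hCv⟩ := vf_wt0 k hk1 δ hδ hδ'
  refine ⟨(1 + η) * Cv, by positivity, ?_⟩
  intro B hB p q ε e hp hp1 hq hq1 hε he
  have hB0 : 0 < B := by linarith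
  have hp2 : |p| ≤ 2 := by rw [abs_of_pos hp]; linarith
  have hq2 : |q| ≤ 2 := by rw [abs_of_pos hq]; linarith
  have h2B : 0 < 2 / B := by positivity
  have w1 : 0 < 2 * p + 2 / B := by linarith
  have w2 : 0 < 2 * q + 2 / B := by linarith
  have hχ := Cl_ch hB0
  have hchw := Vrb_ch2 hδ hδ' hB
  obtain ⟨v, hv⟩ : ∃ v, v = vf k δ ε := ⟨_, rfl⟩
  obtain ⟨u, hu⟩ : ∃ u, u = vf k δ (deriv e) := ⟨_, rfl⟩
  have hvC : Cl p q v := by rw [hv]; exact Cl_vf hk1 hδ hδ' hp2 hq2 hε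
  have huC : Cl p q u := by rw [hu]; exact Cl_vf hk1 hδ hδ' hp2 hq2 (Cl_der he)
  have iv := Vrb_int hχ hvC w1 w2
  have iu := Vrb_int hχ huC w1 w2
  have e1 : ∫ y, ch B y * (v y) ^ 2 ≤ Cv * ∫ y, ch B y * (ε y) ^ 2 := by
    rw [hv]
    exact hCv p q (2 / B) (2 / B) ε (ch B) hp2 hq2 hε hχ (Vrb_chpos B) hchw w1 w2
  have e2 : ∫ y, ch B y * (u y) ^ 2 ≤ Cv * ∫ y, ch B y * (deriv e y) ^ 2 := by
    rw [hu]
    exact hCv p q (2 / B) (2 / B) (deriv e) (ch B) hp2 hq2 (Cl_der he) hχ (Vrb_chpos B) hchw w1 w2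
  have hρ : Continuous (fun y : ℝ => 1 / Real.cosh (y / B)) := by
    apply Continuous.div continuous_const (Real.continuous_cosh.comp (continuous_id.div_const B))
    intro y
    exact (Real.cosh_pos _).ne'
  have hρ2 : ∀ y, (1 / Real.cosh (y / B)) ^ 2 = ch B y := fun y => rfl
  have hψc : Continuous (psi k η γ) := Cl_cont (Cl_psi k η γ)
  have a1 : (fun y => (1 / Real.cosh (y / B) * v y) ^ 2) = fun y => ch B y * (v y) ^ 2 := by
    funext y
    rw [mul_pow, hρ2]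
  have a2 : (fun y => (psi k η γ y * (1 / Real.cosh (y / B) * u y)) ^ 2) =
      fun y => (psi k η γ y) ^ 2 * (ch B y * (u y) ^ 2) := by
    funext y
    rw [mul_pow, mul_pow, hρ2]
  have hψ2 : ∀ y, (psi k η γ y) ^ 2 ≤ (1 + η) ^ 2 := by
    intro y
    rw [← sq_abs]
    exact pow_le_pow_left₀ (abs_nonneg _) (psi_abs hη γ y) 2
  have iG : Integrable (fun y => (psi k η γ y) ^ 2 * (ch B y * (u y) ^ 2)) :=
    Cl_int (Cl_mul0 (Cl_pow0 (Cl_psi k η γ) 2) (Cl_mul hχ (Cl_pow huC 2)))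
      (by push_cast; linarith) (by push_cast; linarith)
  have hcs := (cs_int (F := fun y => 1 / Real.cosh (y / B) * v y)
    (G := fun y => psi k η γ y * (1 / Real.cosh (y / B) * u y))
    (hρ.mul (Cl_cont hvC)) (hψc.mul (hρ.mul (Cl_cont huC)))
    (by rw [a1]; exact iv) (by rw [a2]; exact iG)).2
  have a3 : (fun y => Psi k η γ B y * (v y * u y)) = fun y =>
      (1 / Real.cosh (y / B) * v y) * (psi k η γ y * (1 / Real.cosh (y / B) * u y)) := by
    funext y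
    unfold Psi
    rw [← hρ2]
    ring
  rw [← hv, ← hu, a3]
  refine hcs.trans ?_
  rw [a1, a2]
  have b1 : ∫ y, (psi k η γ y) ^ 2 * (ch B y * (u y) ^ 2) ≤
      (1 + η) ^ 2 * ∫ y, ch B y * (u y) ^ 2 := by
    rw [← integral_const_mul]
    apply integral_mono iG (iu.const_mul _)
    intro y
    exact mul_le_mul_of_nonneg_right (hψ2 y) (mul_nonneg (Vrb_chpos B y).le (sq_nonneg _))
  have c1 : √(∫ y, ch B y * (v y) ^ 2) ≤ √Cv * √(∫ y, ch B y * (ε y) ^ 2) := by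
    rw [← Real.sqrt_mul hCv0.le]
    exact Real.sqrt_le_sqrt e1
  have c2 : √(∫ y, (psi k η γ y) ^ 2 * (ch B y * (u y) ^ 2)) ≤
      (1 + η) * (√Cv * √(∫ y, ch B y * (deriv e y) ^ 2)) := by
    have b2 : ∫ y, (psi k η γ y) ^ 2 * (ch B y * (u y) ^ 2) ≤
        (1 + η) ^ 2 * (Cv * ∫ y, ch B y * (deriv e y) ^ 2) :=
      b1.trans (mul_le_mul_of_nonneg_left e2 (sq_nonneg _))
    refine (Real.sqrt_le_sqrt b2).trans (le_of_eq ?_)
    rw [Real.sqrt_mul (sq_nonneg _), Real.sqrt_sq (by linarith), Real.sqrt_mul hCv0.le]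
  refine (mul_le_mul c1 c2 (Real.sqrt_nonneg _) (by positivity)).trans (le_of_eq ?_)
  have c3 : √Cv * √Cv = Cv := Real.mul_self_sqrt hCv0.le
  calc √Cv * √(∫ y, ch B y * (ε y) ^ 2) * ((1 + η) * (√Cv * √(∫ y, ch B y * (deriv e y) ^ 2)))
      = (1 + η) * (√Cv * √Cv) * √(∫ y, ch B y * (ε y) ^ 2) *
          √(∫ y, ch B y * (deriv e y) ^ 2) := by ring
    _ = (1 + η) * Cv * √(∫ y, ch B y * (ε y) ^ 2) * √(∫ y, ch B y * (deriv e y) ^ 2) := by
        rw [c3]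

end H98KB
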