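import Pool.Agent.H98.KB.Vie
import Pool.Agent.H98.KB.Nlb

/-!
# Vrc : the scaling term `Λε` in the virial functional

`v = vf k δ ε`.  Commutators: `-∂²Λ = Λ(-∂²) - 2∂²`, so
`L Λε = Λ L ε - 2ε'' + y(Q^k)'ε = ΛLε + 2(Lε - ε + Q^kε) + y(Q^k)'ε`;
`Sm Λ h = Λ Sm h + 2δ(Sm Sm h)''` (apply `1-δ∂²`: `(1-δ∂²)Λa = Λ(1-δ∂²)a - 2δa''` with `a=Sm h`, and
`Sm(a'') = (Sm a)''`), and `δ(Sm a)'' = Sm a - a` (`Sm_eq`).  With `h = Lε`, `a = v`:
`vf k δ (Λε) = Λv + 2(Sm v - v) + 2v + Sm(-2ε+2Q^kε+y(Q^k)'ε)`.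
`∫Ψ v Λv = (2/k)∫Ψv² + ∫Ψ y v v' = (2/k-1/2)∫Ψv² - (1/2)∫yΨ'v²`; `|Ψ|, |yΨ'| ≤ C(1+|y|)ch ≤ C·48B²om'` (`ych_le_om1`).
The other terms: Cauchy-Schwarz with weight `ch` (`|Ψ| ≤ (1+η)ch`), `Sm_wt`, `vf_wt` with `W = ch B` and
`ch ≤ 16B om'`.
-/

open MeasureTheory Filter Topology Set
open scoped ContDiff

namespace H98KB

theorem Vrc_Sm_inv {δ p q : ℝ} {x : ℝ → ℝ} (hδ : 0 < δ) (hδ' : δ ≤ 1 / 16) (hp : |p| ≤ 2)
    (hq : |q| ≤ 2) (hx : Cl p q x) (y : ℝ) :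
    Sm δ (fun z => x z - δ * deriv (deriv x) z) y = x y := by
  have hx1 := Cl_der hx
  have hx2 := Cl_der hx1
  have e1 : (fun z => x z - δ * deriv (deriv x) z) = (fun z => x z + (-δ) * deriv (deriv x) z) := by
    funext z; ring
  rw [e1, Sm_add hδ hδ' hp hq hp hq hx (Cl_smul (-δ) hx2) y, Sm_smul]
  have h3 := Sm_eq hδ hδ' hp hq hx y
  have h4 := Sm_deriv hδ hδ' hp hq hx
  have h5 := Sm_deriv hδ hδ' hp hq hx1
  rw [h4, h5] at h3
  linarith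

theorem Vrc_Lam_hd (k : ℕ) {p q : ℝ} {f : ℝ → ℝ} (hf : Cl p q f) (y : ℝ) :
    HasDerivAt (Lam k f) (Lam k (deriv f) y + deriv f y) y := by
  have h1 := Cl_hd hf y
  have h2 := Cl_hd (Cl_der hf) y
  have h3 := (h1.const_mul (2 / (k : ℝ))).fun_add ((hasDerivAt_id y).fun_mul h2)
  have h4 : HasDerivAt (fun y => 2 / (k : ℝ) * f y + y * deriv f y)
      (Lam k (deriv f) y + deriv f y) y := by
    refine h3.congr_deriv ?_
    simp only [Lam, id]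
    ring
  exact h4

theorem Vrc_Lam_deriv (k : ℕ) {p q : ℝ} {f : ℝ → ℝ} (hf : Cl p q f) :
    deriv (Lam k f) = fun y => Lam k (deriv f) y + deriv f y := by
  funext y; exact (Vrc_Lam_hd k hf y).deriv

theorem Vrc_Lam_deriv2 (k : ℕ) {p q : ℝ} {f : ℝ → ℝ} (hf : Cl p q f) :
    deriv (deriv (Lam k f)) = fun y => Lam k (deriv (deriv f)) y + 2 * deriv (deriv f) y := by
  rw [Vrc_Lam_deriv k hf]
  funext y
  have h1 := Vrc_Lam_hd k (Cl_der hf) y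
  have h2 := Cl_hd (Cl_der hf) y
  rw [(h1.fun_add h2).deriv]
  ring

theorem Vrc_Lop_hd {k : ℕ} (hk : 1 ≤ k) {p q : ℝ} {f : ℝ → ℝ} (hf : Cl p q f) (y : ℝ) :
    HasDerivAt (Lop k f) (-deriv (deriv (deriv f)) y + deriv f y
      - (deriv (fun z => Qf k z ^ k) y * f y + Qf k y ^ k * deriv f y)) y := by
  have h0 := Cl_hd hf y
  have h2 := Cl_hd (Cl_der (Cl_der hf)) y
  have h3 := Cl_hd (Cl_Qk hk) y
  have h4 := (h2.fun_neg.fun_add h0).fun_sub (h3.fun_mul h0)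
  exact h4

theorem Vrc_comm {k : ℕ} (hk : 1 ≤ k) {p q : ℝ} {f : ℝ → ℝ} (hf : Cl p q f) (y : ℝ) :
    Lop k (Lam k f) y = Lam k (Lop k f) y + (2 * Lop k f y
      + (-2 * f y + 2 * (Qf k y ^ k * f y) + y * (deriv (fun z => Qf k z ^ k) y * f y))) := by
  have h1 : deriv (deriv (Lam k f)) y = Lam k (deriv (deriv f)) y + 2 * deriv (deriv f) y := by
    rw [Vrc_Lam_deriv2 k hf]
  have h2 := (Vrc_Lop_hd hk hf y).deriv
  have h3 : Lam k (Lop k f) y = 2 / (k : ℝ) * Lop k f y + y * deriv (Lop k f) y := rfl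
  rw [h3, h2]
  unfold Lop
  rw [h1]
  unfold Lam
  ring

theorem Vrc_Sm_Lam (k : ℕ) {δ p q : ℝ} {h : ℝ → ℝ} (hδ : 0 < δ) (hδ' : δ ≤ 1 / 16)
    (hp : |p| ≤ 1) (hq : |q| ≤ 1) (hh : Cl p q h) (y : ℝ) :
    Sm δ (Lam k h) y = Lam k (Sm δ h) y + 2 * (Sm δ (Sm δ h) y - Sm δ h y) := by
  have hp2 : |p| ≤ 2 := by linarith
  have hq2 : |q| ≤ 2 := by linarith
  have hp1 : |p - 1| ≤ 2 := by
    rw [abs_le] at hp ⊢; constructor <;> linarith
  have hq1 : |q - 1| ≤ 2 := by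
    rw [abs_le] at hq ⊢; constructor <;> linarith
  have ha : Cl p q (Sm δ h) := Cl_Sm hδ hδ' hp2 hq2 hh
  have ha1 := Cl_der ha
  have ha2 := Cl_der ha1
  have hx : Cl (p - 1) (q - 1) (Lam k (Sm δ h)) := Cl_Lam k ha one_pos
  have heq : ∀ z, h z = Sm δ h z - δ * deriv (deriv (Sm δ h)) z := fun z =>
    (Sm_eq hδ hδ' hp2 hq2 hh z).symm
  have hfun : h = fun z => Sm δ h z - δ * deriv (deriv (Sm δ h)) z := funext heq
  have hd : ∀ z, deriv h z = deriv (Sm δ h) z - δ * deriv (deriv (deriv (Sm δ h))) z := by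
    intro z
    have h1 := (Cl_hd ha z).fun_sub ((Cl_hd ha2 z).const_mul δ)
    have h2 : HasDerivAt h (deriv (Sm δ h) z - δ * deriv (deriv (deriv (Sm δ h))) z) z := by
      refine h1.congr_of_eventuallyEq ?_
      filter_upwards with w
      exact heq w
    exact h2.deriv
  have e1 : Lam k h = fun z => (Lam k (Sm δ h) z - δ * deriv (deriv (Lam k (Sm δ h))) z)
      + (2 * δ) * deriv (deriv (Sm δ h)) z := by
    funext z
    rw [Vrc_Lam_deriv2 k ha]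
    have : Lam k h z = 2 / (k : ℝ) * h z + z * deriv h z := rfl
    rw [this, hd z, heq z]
    simp only [Lam]
    ring
  have hx2 := Cl_der (Cl_der hx)
  have hxx : Cl (p - 1) (q - 1) (fun z => Lam k (Sm δ h) z
      - δ * deriv (deriv (Lam k (Sm δ h))) z) := Cl_sub hx (Cl_smul δ hx2)
  rw [e1, Sm_add hδ hδ' hp1 hq1 hp2 hq2 hxx (Cl_smul (2 * δ) ha2) y, Sm_smul,
    Vrc_Sm_inv hδ hδ' hp1 hq1 hx y]
  -- δ Sm(a'') = Sm a - a
  have e2 : Sm δ (Sm δ h) y = Sm δ h y + δ * Sm δ (deriv (deriv (Sm δ h))) y := by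
    have e3 : Sm δ h = fun z => h z + δ * deriv (deriv (Sm δ h)) z := by
      funext z
      have := Sm_eq hδ hδ' hp2 hq2 hh z
      linarith
    have e4 : Sm δ (Sm δ h) y = Sm δ (fun z => h z + δ * deriv (deriv (Sm δ h)) z) y :=
      congrArg (fun f => Sm δ f y) e3
    rw [e4, Sm_add hδ hδ' hp2 hq2 hp2 hq2 hh (Cl_smul δ ha2) y, Sm_smul]
  rw [e2]
  ring

theorem Vrc_P {k : ℕ} (hk : 1 ≤ k) :
    Cl 0 0 (fun z => -2 + 2 * Qf k z ^ k + z * deriv (fun z => Qf k z ^ k) z) := by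
  have hk1 : (1 : ℝ) ≤ k := by exact_mod_cast hk
  have hF := Cl_Qk hk
  have hG := Cl_der hF
  have h1 : Cl 0 0 (fun z => Qf k z ^ k) := Cl_mono hF (by linarith) (by linarith)
  have h2 : Cl (-1 + (k : ℝ)) (-1 + (k : ℝ)) (fun z => z * deriv (fun z => Qf k z ^ k) z) :=
    Cl_mul (Cl_id one_pos) hG
  have h3 : Cl 0 0 (fun z => z * deriv (fun z => Qf k z ^ k) z) :=
    Cl_mono h2 (by linarith) (by linarith)
  exact Cl_add (Cl_add (Cl_const (-2)) (Cl_smul 2 h1)) h3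

theorem Vrc_g {k : ℕ} (hk : 1 ≤ k) {p q : ℝ} {ε : ℝ → ℝ} (hε : Cl p q ε) :
    Cl p q (fun z => -2 * ε z + 2 * (Qf k z ^ k * ε z)
          + z * (deriv (fun z => Qf k z ^ k) z * ε z)) := by
  have h := Cl_mul0 (Vrc_P hk) hε
  have e : (fun z => -2 * ε z + 2 * (Qf k z ^ k * ε z)
          + z * (deriv (fun z => Qf k z ^ k) z * ε z)) =
      fun z => (-2 + 2 * Qf k z ^ k + z * deriv (fun z => Qf k z ^ k) z) * ε z := by
    funext z; ring
  rw [e]; exact h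

/-- the commutator formula -/
theorem vf_Lam (k : ℕ) (hk : 1 ≤ k) {δ p q : ℝ} {ε : ℝ → ℝ} (hδ : 0 < δ) (hδ' : δ ≤ 1 / 16)
    (hp : |p| ≤ 1) (hq : |q| ≤ 1) (hε : Cl p q ε) (y : ℝ) :
    vf k δ (Lam k ε) y = Lam k (vf k δ ε) y + 2 * Sm δ (vf k δ ε) y
      + Sm δ (fun z => -2 * ε z + 2 * (Qf k z ^ k * ε z)
          + z * (deriv (fun z => Qf k z ^ k) z * ε z)) y := by
  have hp2 : |p| ≤ 2 := by linarith
  have hq2 : |q| ≤ 2 := by linarith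
  have hp1 : |p - 1| ≤ 2 := by
    rw [abs_le] at hp ⊢; constructor <;> linarith
  have hq1 : |q - 1| ≤ 2 := by
    rw [abs_le] at hq ⊢; constructor <;> linarith
  have hL : Cl p q (Lop k ε) := Cl_Lop hk hε
  have hLam : Cl (p - 1) (q - 1) (Lam k (Lop k ε)) := Cl_Lam k hL one_pos
  have hg := Vrc_g hk hε
  have e1 : Lop k (Lam k ε) = fun y => Lam k (Lop k ε) y + (2 * Lop k ε y
      + (-2 * ε y + 2 * (Qf k y ^ k * ε y) + y * (deriv (fun z => Qf k z ^ k) y * ε y))) := by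
    funext y; exact Vrc_comm hk hε y
  have e2 : vf k δ (Lam k ε) y = Sm δ (Lop k (Lam k ε)) y := rfl
  have e3 : vf k δ ε = Sm δ (Lop k ε) := rfl
  rw [e2, e1, Sm_add hδ hδ' hp1 hq1 hp2 hq2 hLam (Cl_add (Cl_smul 2 hL) hg) y,
    Sm_add hδ hδ' hp2 hq2 hp2 hq2 (Cl_smul 2 hL) hg y, Sm_smul,
    Vrc_Sm_Lam k hδ hδ' hp hq hL y, e3]
  ring

theorem Vrc_int2 {pw qw p q : ℝ} {W f : ℝ → ℝ} (hW : Cl pw qw W) (hf : Cl p q f)
    (h1 : 0 < 2 * p + pw) (h2 : 0 < 2 * q + qw) : Integrable (fun y => W y * (f y) ^ 2) := by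
  have h := Cl_int (Cl_mul hW (Cl_mul hf hf)) (by linarith) (by linarith)
  refine h.congr ?_
  filter_upwards with y
  ring

theorem Vrc_quad (a b c d : ℝ) :
    a * (a + b + 2 * c + d) ≤ 3 * (a ^ 2 + b ^ 2) + c ^ 2 + d ^ 2 := by
  have h1 := sq_nonneg (a - c)
  have h2 := sq_nonneg (a - b)
  have h3 := sq_nonneg (a - d)
  have h4 := sq_nonneg b
  have h5 := sq_nonneg d
  nlinarith

theorem Vrc_lin (t a b c d L X : ℝ) (ht : 0 ≤ t) (ha : 0 ≤ a) (hb : 0 ≤ b) (hc : 0 ≤ c) (hd : 0 ≤ d)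
    (hL : L ≤ a + t * b) (hX : X ≤ L + 2 * c + d) :
    X ≤ (1 + t) * (a + b + 2 * c + d) := by
  have b1 := mul_nonneg ht ha
  have b3 := mul_nonneg ht hc
  have b4 := mul_nonneg ht hd
  have e : (1 + t) * (a + b + 2 * c + d) = a + b + 2 * c + d + t * a + t * b + 2 * (t * c) + t * d := by
    ring
  rw [e]
  linarith

theorem Vrc_pt (k : ℕ) (hk : 5 ≤ k) {γ η B ρ y a b c d L X V : ℝ} (hη : 0 ≤ η) (hS : Slow B ρ)
    (hL : L = 2 / (k : ℝ) * a + y * b) (hX : X = L + 2 * c + d) (hV : V = a * X) :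
    |Psi k η γ B y * V| ≤
      48 * B ^ 2 * (1 + η) * (3 * (deriv (om B ρ) y * (a ^ 2 + b ^ 2))
        + deriv (om B ρ) y * c ^ 2 + deriv (om B ρ) y * d ^ 2) := by
  have hWp := om1_pos hS y
  have hchp : 0 < ch B y := by
    rw [ch_eq']; exact se2_pos _ _
  have hpsi := psi_abs (k := k) hη γ y
  have hych := ych_le_om1 hS y
  have hk5 : (5 : ℝ) ≤ k := by exact_mod_cast hk
  have hk2 : 2 / (k : ℝ) ≤ 1 := by
    rw [div_le_one (by linarith)]; linarith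
  have hk0 : 0 ≤ 2 / (k : ℝ) := by positivity
  have h1 : |L| ≤ |a| + |y| * |b| := by
    rw [hL]
    calc |2 / (k : ℝ) * a + y * b| ≤ |2 / (k : ℝ) * a| + |y * b| := abs_add_le _ _
      _ = 2 / (k : ℝ) * |a| + |y| * |b| := by
          rw [abs_mul, abs_mul, abs_of_nonneg hk0]
      _ ≤ |a| + |y| * |b| := by
          have : 2 / (k : ℝ) * |a| ≤ 1 * |a| := mul_le_mul_of_nonneg_right hk2 (abs_nonneg _)
          linarith
  have h2 : |X| ≤ |L| + 2 * |c| + |d| := by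
    rw [hX]
    calc |L + 2 * c + d| ≤ |L + 2 * c| + |d| := abs_add_le _ _
      _ ≤ |L| + |2 * c| + |d| := by
          have := abs_add_le L (2 * c)
          linarith
      _ = _ := by rw [abs_mul, abs_two]
  have hXX : |X| ≤ (1 + |y|) * (|a| + |b| + 2 * |c| + |d|) :=
    Vrc_lin _ _ _ _ _ _ _ (abs_nonneg y) (abs_nonneg a) (abs_nonneg b) (abs_nonneg c)
      (abs_nonneg d) h1 h2
  have hPsi : |Psi k η γ B y| ≤ (1 + η) * ch B y := by
    unfold Psi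
    rw [abs_mul, abs_of_pos hchp]
    exact mul_le_mul_of_nonneg_right hpsi hchp.le
  have hY : |a| * (|a| + |b| + 2 * |c| + |d|) ≤ 3 * (a ^ 2 + b ^ 2) + c ^ 2 + d ^ 2 := by
    have := Vrc_quad |a| |b| |c| |d|
    rwa [sq_abs, sq_abs, sq_abs, sq_abs] at this
  have hY0 : 0 ≤ |a| * (|a| + |b| + 2 * |c| + |d|) := by positivity
  have h1η : 0 ≤ 1 + η := by linarith
  rw [hV]
  calc |Psi k η γ B y * (a * X)|
      = |Psi k η γ B y| * (|a| * |X|) := by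
        rw [abs_mul, abs_mul]
    _ ≤ ((1 + η) * ch B y) * (|a| * ((1 + |y|) * (|a| + |b| + 2 * |c| + |d|))) := by
        refine mul_le_mul hPsi (mul_le_mul_of_nonneg_left hXX (abs_nonneg a)) (by positivity)
          (mul_nonneg h1η hchp.le)
    _ = (1 + η) * ((1 + |y|) * ch B y) * (|a| * (|a| + |b| + 2 * |c| + |d|)) := by ring
    _ ≤ (1 + η) * (48 * B ^ 2 * deriv (om B ρ) y) * (|a| * (|a| + |b| + 2 * |c| + |d|)) := by
        refine mul_le_mul_of_nonneg_right ?_ hY0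
        exact mul_le_mul_of_nonneg_left hych h1η
    _ ≤ (1 + η) * (48 * B ^ 2 * deriv (om B ρ) y) *
          (3 * (a ^ 2 + b ^ 2) + c ^ 2 + d ^ 2) := by
        refine mul_le_mul_of_nonneg_left hY ?_
        positivity
    _ = _ := by ring

theorem VS (k : ℕ) (hk : 5 ≤ k) (γ η δ : ℝ) (hγ : 0 < γ) (hγ' : γ ≤ 1 / 8) (hη : 0 ≤ η) (hδ : 0 < δ)
    (hδ' : δ ≤ 1 / 16) (B : ℝ) (hB : 16 ≤ B) :
    ∃ C : ℝ, 0 < C ∧ ∀ ρ, Slow B ρ → ∀ (p q : ℝ) (ε : ℝ → ℝ), ρ < p → p ≤ 1 / 2 → 0 < q → q ≤ 1 / 2 →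
    Cl p q ε →
    |∫ y, Psi k η γ B y * (vf k δ ε y * vf k δ (Lam k ε) y)| ≤
      C * ∫ y, deriv (om B ρ) y * ((ε y) ^ 2 + (deriv ε y) ^ 2) := by
  have hk1 : 1 ≤ k := by omega
  obtain ⟨C1, hC1, H1⟩ := vf_wt k hk1 δ hδ hδ'
  obtain ⟨CP, hCP, HP⟩ := Cl_bnd (Vrc_P hk1)
  refine ⟨48 * B ^ 2 * (1 + η) * (5 * C1 + 2 * CP ^ 2), by positivity, ?_⟩
  intro ρ hS p q ε hρp hp' hq hq' hε
  obtain ⟨hB16, hρ, h4⟩ := id hS
  have hBpos : 0 < B := by linarith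
  have hp : 0 < p := by linarith
  have hpa : |p| ≤ 1 := by rw [abs_le]; constructor <;> linarith
  have hqa : |q| ≤ 1 := by rw [abs_le]; constructor <;> linarith
  have hp2 : |p| ≤ 2 := by linarith
  have hq2 : |q| ≤ 2 := by linarith
  have hW : Cl (-(2 * ρ)) (2 * ρ + 1 / B) (deriv (om B ρ)) := Cl_der (Cl_om hBpos ρ)
  have hWp : ∀ y, 0 < deriv (om B ρ) y := om1_pos hS
  have hW2 : ∀ y, δ * |deriv (deriv (deriv (om B ρ))) y| ≤ deriv (om B ρ) y / 4 := by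
    intro y
    have h1 := om3_le hS y
    have h2 : 8 / B ^ 2 ≤ 1 := by
      rw [div_le_one (by positivity)]
      nlinarith
    have h3 : |deriv (deriv (deriv (om B ρ))) y| ≤ deriv (om B ρ) y := by
      calc |deriv (deriv (deriv (om B ρ))) y| ≤ 8 / B ^ 2 * deriv (om B ρ) y := h1
        _ ≤ 1 * deriv (om B ρ) y := mul_le_mul_of_nonneg_right h2 (hWp y).le
        _ = _ := one_mul _
    calc δ * |deriv (deriv (deriv (om B ρ))) y| ≤ 1 / 16 * deriv (om B ρ) y :=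
          mul_le_mul hδ' h3 (abs_nonneg _) (by norm_num)
      _ ≤ deriv (om B ρ) y / 4 := by nlinarith [hWp y]
  have hBinv : 0 < 1 / B := by positivity
  have hc1 : 0 < 2 * p + -(2 * ρ) := by linarith
  have hc2 : 0 < 2 * q + (2 * ρ + 1 / B) := by linarith
  set v : ℝ → ℝ := vf k δ ε with hv
  have hvC : Cl p q v := Cl_vf hk1 hδ hδ' hp2 hq2 hε
  have hv1 : Cl p q (deriv v) := Cl_der hvC
  have hsv : Cl p q (Sm δ v) := Cl_Sm hδ hδ' hp2 hq2 hvC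
  set g : ℝ → ℝ := fun z => -2 * ε z + 2 * (Qf k z ^ k * ε z)
          + z * (deriv (fun z => Qf k z ^ k) z * ε z) with hg
  have hgC : Cl p q g := Vrc_g hk1 hε
  have hsg : Cl p q (Sm δ g) := Cl_Sm hδ hδ' hp2 hq2 hgC
  have hε1 := Cl_der hε
  -- the weighted integrals
  have Iv := Vrc_int2 hW hvC hc1 hc2
  have Iv1 := Vrc_int2 hW hv1 hc1 hc2
  have Isv := Vrc_int2 hW hsv hc1 hc2
  have Isg := Vrc_int2 hW hsg hc1 hc2
  have Ig := Vrc_int2 hW hgC hc1 hc2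
  have Ie := Vrc_int2 hW hε hc1 hc2
  have Ie1 := Vrc_int2 hW hε1 hc1 hc2
  have E1 : ∫ y, deriv (om B ρ) y * ((v y) ^ 2 + (deriv v y) ^ 2) ≤
      C1 * ∫ y, deriv (om B ρ) y * ((ε y) ^ 2 + (deriv ε y) ^ 2) :=
    H1 p q _ _ ε _ hp2 hq2 hε hW hWp hW2 hc1 hc2
  have E2 := (Sm_wt hδ hδ' hp2 hq2 hvC hW hWp hW2 hc1 hc2).1
  have E3 := (Sm_wt hδ hδ' hp2 hq2 hgC hW hWp hW2 hc1 hc2).1
  have E4 : ∫ y, deriv (om B ρ) y * (g y) ^ 2 ≤ CP ^ 2 * ∫ y, deriv (om B ρ) y * (ε y) ^ 2 := by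
    rw [← integral_const_mul]
    refine integral_mono Ig (Ie.const_mul _) ?_
    intro y
    have h1 : |-2 + 2 * Qf k y ^ k + y * deriv (fun z => Qf k z ^ k) y| ≤ CP := by
      have := HP y
      rwa [bd_zero, mul_one] at this
    have h2 : g y = (-2 + 2 * Qf k y ^ k + y * deriv (fun z => Qf k z ^ k) y) * ε y := by
      simp only [hg]; ring
    have h3 : (g y) ^ 2 ≤ CP ^ 2 * (ε y) ^ 2 := by
      rw [h2, mul_pow]
      refine mul_le_mul_of_nonneg_right ?_ (sq_nonneg _)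
      rw [← sq_abs]
      exact pow_le_pow_left₀ (abs_nonneg _) h1 2
    calc deriv (om B ρ) y * (g y) ^ 2 ≤ deriv (om B ρ) y * (CP ^ 2 * (ε y) ^ 2) :=
          mul_le_mul_of_nonneg_left h3 (hWp y).le
      _ = CP ^ 2 * (deriv (om B ρ) y * (ε y) ^ 2) := by ring
  have E5 : ∫ y, deriv (om B ρ) y * (ε y) ^ 2 ≤
      ∫ y, deriv (om B ρ) y * ((ε y) ^ 2 + (deriv ε y) ^ 2) := by
    refine integral_mono Ie ?_ ?_
    · refine (Ie.add Ie1).congr ?_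
      filter_upwards with y
      simp only [Pi.add_apply]
      ring
    · intro y
      have := hWp y
      have h2 : 0 ≤ deriv (om B ρ) y * (deriv ε y) ^ 2 := by positivity
      show deriv (om B ρ) y * (ε y) ^ 2 ≤ deriv (om B ρ) y * ((ε y) ^ 2 + (deriv ε y) ^ 2)
      (first | linarith only [h2] | nlinarith only [h2])
  have Ivv : Integrable (fun y => deriv (om B ρ) y * ((v y) ^ 2 + (deriv v y) ^ 2)) := by
    refine (Iv.add Iv1).congr ?_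
    filter_upwards with y
    simp only [Pi.add_apply]
    ring
  have E6 : ∫ y, deriv (om B ρ) y * (v y) ^ 2 ≤
      ∫ y, deriv (om B ρ) y * ((v y) ^ 2 + (deriv v y) ^ 2) := by
    refine integral_mono Iv Ivv ?_
    intro y
    have := hWp y
    have h2 : 0 ≤ deriv (om B ρ) y * (deriv v y) ^ 2 := by positivity
    show deriv (om B ρ) y * (v y) ^ 2 ≤ deriv (om B ρ) y * ((v y) ^ 2 + (deriv v y) ^ 2)
    (first | linarith only [h2] | nlinarith only [h2])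
  -- pointwise bound
  have hPt : ∀ y, |Psi k η γ B y * (v y * vf k δ (Lam k ε) y)| ≤
      48 * B ^ 2 * (1 + η) * (3 * (deriv (om B ρ) y * ((v y) ^ 2 + (deriv v y) ^ 2))
        + deriv (om B ρ) y * (Sm δ v y) ^ 2 + deriv (om B ρ) y * (Sm δ g y) ^ 2) := by
    intro y
    have hF := vf_Lam k hk1 hδ hδ' hpa hqa hε y
    have hF' : vf k δ (Lam k ε) y = Lam k v y + 2 * Sm δ v y + Sm δ g y := hF
    exact Vrc_pt k hk hη hS (L := Lam k v y) rfl rfl (by rw [hF'])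
  have Ibd : Integrable (fun y => 48 * B ^ 2 * (1 + η) * (3 * (deriv (om B ρ) y *
        ((v y) ^ 2 + (deriv v y) ^ 2))
        + deriv (om B ρ) y * (Sm δ v y) ^ 2 + deriv (om B ρ) y * (Sm δ g y) ^ 2)) :=
    (((Ivv.const_mul 3).add Isv).add Isg).const_mul _
  have F1 : |∫ y, Psi k η γ B y * (v y * vf k δ (Lam k ε) y)| ≤
      ∫ y, 48 * B ^ 2 * (1 + η) * (3 * (deriv (om B ρ) y *
        ((v y) ^ 2 + (deriv v y) ^ 2))
        + deriv (om B ρ) y * (Sm δ v y) ^ 2 + deriv (om B ρ) y * (Sm δ g y) ^ 2) := by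
    have := norm_integral_le_of_norm_le (μ := volume)
      (f := fun y => Psi k η γ B y * (v y * vf k δ (Lam k ε) y)) Ibd
      (by filter_upwards with y; rw [Real.norm_eq_abs]; exact hPt y)
    rwa [Real.norm_eq_abs] at this
  have F2 : (∫ y, 48 * B ^ 2 * (1 + η) * (3 * (deriv (om B ρ) y *
        ((v y) ^ 2 + (deriv v y) ^ 2))
        + deriv (om B ρ) y * (Sm δ v y) ^ 2 + deriv (om B ρ) y * (Sm δ g y) ^ 2)) =
      48 * B ^ 2 * (1 + η) * (3 * (∫ y, deriv (om B ρ) y * ((v y) ^ 2 + (deriv v y) ^ 2))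
        + (∫ y, deriv (om B ρ) y * (Sm δ v y) ^ 2) + ∫ y, deriv (om B ρ) y * (Sm δ g y) ^ 2) := by
    rw [integral_const_mul]
    congr 1
    have hI1 : Integrable (fun y => 3 * (deriv (om B ρ) y * ((v y) ^ 2 + (deriv v y) ^ 2))) :=
      Ivv.const_mul 3
    have hI2 : Integrable (fun y => 3 * (deriv (om B ρ) y * ((v y) ^ 2 + (deriv v y) ^ 2))
        + deriv (om B ρ) y * (Sm δ v y) ^ 2) := hI1.add Isv
    have e1 := integral_add hI2 Isg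
    have e2 := integral_add hI1 Isv
    have e3 : ∫ y, 3 * (deriv (om B ρ) y * ((v y) ^ 2 + (deriv v y) ^ 2)) =
        3 * ∫ y, deriv (om B ρ) y * ((v y) ^ 2 + (deriv v y) ^ 2) := integral_const_mul _ _
    rw [e1, e2, e3]
  have hT0 : 0 ≤ ∫ y, deriv (om B ρ) y * ((ε y) ^ 2 + (deriv ε y) ^ 2) := by
    refine integral_nonneg ?_
    intro y
    have := hWp y
    show 0 ≤ deriv (om B ρ) y * ((ε y) ^ 2 + (deriv ε y) ^ 2)
    positivity
  set T := ∫ y, deriv (om B ρ) y * ((ε y) ^ 2 + (deriv ε y) ^ 2) with hT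
  have F3 : 3 * (∫ y, deriv (om B ρ) y * ((v y) ^ 2 + (deriv v y) ^ 2))
        + (∫ y, deriv (om B ρ) y * (Sm δ v y) ^ 2) + (∫ y, deriv (om B ρ) y * (Sm δ g y) ^ 2)
      ≤ (5 * C1 + 2 * CP ^ 2) * T := by
    have G1 : (∫ y, deriv (om B ρ) y * (Sm δ v y) ^ 2) ≤ 4 / 3 * (C1 * T) := by linarith
    have G2 : (∫ y, deriv (om B ρ) y * (g y) ^ 2) ≤ CP ^ 2 * T := by
      have := mul_le_mul_of_nonneg_left E5 (sq_nonneg CP)
      linarith
    have G3 : (∫ y, deriv (om B ρ) y * (Sm δ g y) ^ 2) ≤ 4 / 3 * (CP ^ 2 * T) := by linarith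
    have G4 : 0 ≤ C1 * T := by positivity
    have G5 : 0 ≤ CP ^ 2 * T := by positivity
    (first | linarith only [E1, E2, E3, E6, G2, G4, G5] | nlinarith only [E1, E2, E3, E6, G2, G4, G5])
  calc |∫ y, Psi k η γ B y * (v y * vf k δ (Lam k ε) y)| ≤ _ := F1
    _ = _ := F2
    _ ≤ 48 * B ^ 2 * (1 + η) * ((5 * C1 + 2 * CP ^ 2) * T) :=
        mul_le_mul_of_nonneg_left F3 (by positivity)
    _ = 48 * B ^ 2 * (1 + η) * (5 * C1 + 2 * CP ^ 2) * T := by ring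

end H98KB
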