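import Pool.Agent.H98.KB.Vli
import Pool.Agent.H98.KB.Vra
import Pool.Agent.H98.KB.Vrb
import Pool.Agent.H98.KB.Vrc
import Pool.Agent.H98.KB.Inv
import Pool.Agent.H98.KB.IfG

/-!
# Vfi : the differential inequality for the virial functional (uses the statements of
`Vli, Vra, Vrb, Vrc, Inv, Smb`)

`ζ = (Lε)' - R' - bΛQ + mQ' + lQ'' - bΛε + mε' + lε'' - e'` (`gf_eq`), `vf` is linear (`vf_add`, `vf_smul`; all summands are in a
common class `Cl p' q'`, `0<p'<p`, `0<q'<q`), `vf Q' = 0`.  So `DV = ∫Ψ v vf(Lε)' - ∫Ψ v vf R' - b∫Ψ v vf ΛQ + l∫Ψ v vf Q'' - ...`.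
`γ = γ₀` from `inv_loc`; `η, δ, c₀` from `vir_lin`; `B ≥ B₀ = max 16 (1/γ)`.
Weights: `∫ch(ε²+ε'²) ≤ 16B Tn`, `(1/B)∫ch(v²+v'²) ≤ (C/B)∫ch(ε²+ε'²) ≤ 16C Tn` (`vf_wt` with `W = ch B`, `ch_le_om1`),
`∫ch e'² ≤ 8 Gn e`.  `C√(∫loc v²)(|b|+l) ≤ (c₀/4)∫loc v² + C'(b²+l²)`.
`|m|∫loc(v²+ε²) ≤ C_δ|m|·∫ch... `: use `∫loc v² ≤ ∫ch(v²+v'^2) ≤ C·16B·Tn` (constant depending on `B` is allowed there).
`-(c₀/2)∫loc(v²+v'²) ≤ -c₁ ln + C(ip ε Q')²` (`inv_loc`).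
`C√(∫chε²)√(∫ch e'²) ≤ Tn + C_B Gn e`.
-/

open MeasureTheory Filter Topology Set
open scoped ContDiff

namespace H98KB

variable {k : ℕ} {δ p q : ℝ}

theorem Vfi_sq {p q : ℝ} {f : ℝ → ℝ} (hf : Cl p q f) : Cl (p + p) (q + q) (fun y => f y ^ 2) := by
  have h := Cl_mul hf hf
  have e : (fun y => f y ^ 2) = fun y => f y * f y := by
    funext y
    ring
  rw [e]
  exact h

theorem Vfi_int2 {pw qw p q : ℝ} {W f g : ℝ → ℝ} (hW : Cl pw qw W) (hf : Cl p q f) (hg : Cl p q g)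
    (h1 : 0 < pw + (p + p)) (h2 : 0 < qw + (q + q)) :
    Integrable (fun y => W y * ((f y) ^ 2 + (g y) ^ 2)) :=
  Cl_int (Cl_mul hW (Cl_add (Vfi_sq hf) (Vfi_sq hg))) h1 h2

theorem Vfi_int3 {pw qw p q : ℝ} {W f g h : ℝ → ℝ} (hW : Cl pw qw W) (hf : Cl p q f) (hg : Cl p q g)
    (hh : Cl p q h) (h1 : 0 < pw + (p + p)) (h2 : 0 < qw + (q + q)) :
    Integrable (fun y => W y * ((f y) ^ 2 + (g y) ^ 2 + (h y) ^ 2)) :=
  Cl_int (Cl_mul hW (Cl_add (Cl_add (Vfi_sq hf) (Vfi_sq hg)) (Vfi_sq hh))) h1 h2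

theorem Vfi_int1 {pw qw p q : ℝ} {W f : ℝ → ℝ} (hW : Cl pw qw W) (hf : Cl p q f)
    (h1 : 0 < pw + (p + p)) (h2 : 0 < qw + (q + q)) :
    Integrable (fun y => W y * (f y) ^ 2) :=
  Cl_int (Cl_mul hW (Vfi_sq hf)) h1 h2

theorem Vfi_loc {γ B : ℝ} (hγ : 0 < γ) (hB : 0 < B) :
    Cl (2 * γ + 2 / B) (2 * γ + 2 / B) (loc γ B) :=
  Cl_mul (Cl_se2 hγ) (Cl_ch hB)

theorem Vfi_ch_pos (B y : ℝ) : 0 < ch B y := by
  rw [ch_eq']
  exact se2_pos _ _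

/-- the pairing -/
noncomputable def Vfi_J (k : ℕ) (η γ B δ : ℝ) (v h : ℝ → ℝ) : ℝ :=
  ∫ y, Psi k η γ B y * (v y * vf k δ h y)

theorem Vfi_J_int (hk : 1 ≤ k) {η γ B δ p q p' q' : ℝ} {v h : ℝ → ℝ} (hB : 0 < B) (hδ : 0 < δ)
    (hδ' : δ ≤ 1 / 16) (hp : 0 < p) (hq : 0 < q) (hp' : 0 < p') (hp2 : p' ≤ 2) (hq' : 0 < q')
    (hq2 : q' ≤ 2) (hv : Cl p q v) (hh : Cl p' q' h) :
    Integrable (fun y => Psi k η γ B y * (v y * vf k δ h y)) := by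
  have h1 := Cl_vf hk hδ hδ' (abs_le.2 ⟨by linarith, hp2⟩) (abs_le.2 ⟨by linarith, hq2⟩) hh
  have hB2 : 0 < 2 / B := by positivity
  exact Cl_int (Cl_mul (Cl_Psi k η γ hB) (Cl_mul hv h1)) (by positivity) (by positivity)

theorem Vfi_J_lin (hk : 1 ≤ k) {η γ B δ p q p' q' : ℝ} {v f g : ℝ → ℝ} (c : ℝ) (hB : 0 < B)
    (hδ : 0 < δ)
    (hδ' : δ ≤ 1 / 16) (hp : 0 < p) (hq : 0 < q) (hp' : 0 < p') (hp2 : p' ≤ 2) (hq' : 0 < q')
    (hq2 : q' ≤ 2) (hv : Cl p q v) (hf : Cl p' q' f) (hg : Cl p' q' g) :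
    Vfi_J k η γ B δ v (fun y => f y + c * g y) =
      Vfi_J k η γ B δ v f + c * Vfi_J k η γ B δ v g := by
  unfold Vfi_J
  rw [← integral_const_mul, ← integral_add
    (Vfi_J_int hk hB hδ hδ' hp hq hp' hp2 hq' hq2 hv hf)
    ((Vfi_J_int hk hB hδ hδ' hp hq hp' hp2 hq' hq2 hv hg).const_mul c)]
  refine integral_congr_ae (Eventually.of_forall fun y => ?_)
  have hpa : |p'| ≤ 2 := abs_le.2 ⟨by linarith, hp2⟩
  have hqa : |q'| ≤ 2 := abs_le.2 ⟨by linarith, hq2⟩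
  have e1 := vf_add (k := k) hk hδ hδ' hpa hqa hf (Cl_smul c hg) y
  have e2 := vf_smul (k := k) (δ := δ) hk c hg y
  simp only
  rw [e1, e2]
  ring

theorem Vfi_zeta (hk : 1 ≤ k) {p q : ℝ} {ε e : ℝ → ℝ} (hp : 0 < p) (hq : 0 < q) (hε : Cl p q ε)
    (b m l : ℝ) :
    zeta k b m l ε e = fun y => ((((((((deriv (Lop k ε) y + (-1) * deriv (Rf k ε) y)
      + (-b) * Lam k (Qf k) y) + m * deriv (Qf k) y) + l * deriv (deriv (Qf k)) y)
      + (-b) * Lam k ε y) + m * deriv ε y) + l * deriv (deriv ε) y) + (-1) * deriv e y) := by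
  funext y
  have e1 : gf k ε = fun y => Lop k ε y - Rf k ε y := by
    funext z
    exact gf_eq k ε z
  have e2 : deriv (gf k ε) y = deriv (Lop k ε) y - deriv (Rf k ε) y := by
    rw [e1]
    exact ((Cl_hd (Cl_Lop hk hε) y).sub (Cl_hd (Cl_Rf hk hp.le hq.le hε) y)).deriv
  unfold zeta Nf
  rw [e2]
  ring

theorem Vfi_J_zeta (hk : 1 ≤ k) {η γ B δ p q : ℝ} {v ε e : ℝ → ℝ} (hB : 0 < B) (hδ : 0 < δ)
    (hδ' : δ ≤ 1 / 16) (hp : 0 < p) (hp1 : p ≤ 1 / 2) (hq : 0 < q) (hq1 : q ≤ 1 / 2)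
    (hv : Cl p q v) (hε : Cl p q ε) (he : Cl p q e) (b m l : ℝ) :
    Vfi_J k η γ B δ v (zeta k b m l ε e) =
      Vfi_J k η γ B δ v (deriv (Lop k ε)) - Vfi_J k η γ B δ v (deriv (Rf k ε))
      - b * Vfi_J k η γ B δ v (Lam k (Qf k)) + l * Vfi_J k η γ B δ v (deriv (deriv (Qf k)))
      - b * Vfi_J k η γ B δ v (Lam k ε) + m * Vfi_J k η γ B δ v (deriv ε)
      + l * Vfi_J k η γ B δ v (deriv (deriv ε)) - Vfi_J k η γ B δ v (deriv e) := by
  set p' := p / 2 with hp'd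
  set q' := q / 2 with hq'd
  have hp' : 0 < p' := by positivity
  have hq' : 0 < q' := by positivity
  have hp2 : p' ≤ 2 := by linarith
  have hq2 : q' ≤ 2 := by linarith
  have hpp : p' ≤ p := by linarith
  have hqq : q' ≤ q := by linarith
  have c1 : Cl p' q' (deriv (Lop k ε)) := Cl_mono (Cl_der (Cl_Lop hk hε)) hpp hqq
  have c2 : Cl p' q' (deriv (Rf k ε)) := Cl_mono (Cl_der (Cl_Rf hk hp.le hq.le hε)) hpp hqq
  have c3 : Cl p' q' (Lam k (Qf k)) :=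
    Cl_mono (Cl_LamQ hk (c := 1 / 2) (by norm_num)) (by linarith) (by linarith)
  have c4 : Cl p' q' (deriv (Qf k)) := Cl_mono (Cl_der (Cl_Qf hk)) (by linarith) (by linarith)
  have c5 : Cl p' q' (deriv (deriv (Qf k))) :=
    Cl_mono (Cl_der (Cl_der (Cl_Qf hk))) (by linarith) (by linarith)
  have hmin : 0 < min p q / 2 := by
    have : 0 < min p q := lt_min hp hq
    positivity
  have c6 : Cl p' q' (Lam k ε) := by
    refine Cl_mono (Cl_Lam k hε hmin) ?_ ?_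
    · have := min_le_left p q
      linarith
    · have := min_le_right p q
      linarith
  have c7 : Cl p' q' (deriv ε) := Cl_mono (Cl_der hε) hpp hqq
  have c8 : Cl p' q' (deriv (deriv ε)) := Cl_mono (Cl_der (Cl_der hε)) hpp hqq
  have c9 : Cl p' q' (deriv e) := Cl_mono (Cl_der he) hpp hqq
  have hz : Vfi_J k η γ B δ v (deriv (Qf k)) = 0 := by
    unfold Vfi_J
    have : (fun y => Psi k η γ B y * (v y * vf k δ (deriv (Qf k)) y)) = fun _ => (0 : ℝ) := by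
      funext y
      rw [vf_Qd hk δ y]
      ring
    rw [this, integral_zero]
  rw [Vfi_zeta hk hp hq hε b m l]
  have d2 := Cl_add c1 (Cl_smul (-1) c2)
  have d3 := Cl_add d2 (Cl_smul (-b) c3)
  have d4 := Cl_add d3 (Cl_smul m c4)
  have d5 := Cl_add d4 (Cl_smul l c5)
  have d6 := Cl_add d5 (Cl_smul (-b) c6)
  have d7 := Cl_add d6 (Cl_smul m c7)
  have d8 := Cl_add d7 (Cl_smul l c8)
  rw [Vfi_J_lin hk (-1) hB hδ hδ' hp hq hp' hp2 hq' hq2 hv d8 c9,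
    Vfi_J_lin hk l hB hδ hδ' hp hq hp' hp2 hq' hq2 hv d7 c8,
    Vfi_J_lin hk m hB hδ hδ' hp hq hp' hp2 hq' hq2 hv d6 c7,
    Vfi_J_lin hk (-b) hB hδ hδ' hp hq hp' hp2 hq' hq2 hv d5 c6,
    Vfi_J_lin hk l hB hδ hδ' hp hq hp' hp2 hq' hq2 hv d4 c5,
    Vfi_J_lin hk m hB hδ hδ' hp hq hp' hp2 hq' hq2 hv d3 c4,
    Vfi_J_lin hk (-b) hB hδ hδ' hp hq hp' hp2 hq' hq2 hv d2 c3,
    Vfi_J_lin hk (-1) hB hδ hδ' hp hq hp' hp2 hq' hq2 hv c1 c2, hz]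
  ring

/-- the arithmetic -/
theorem Vfi_arith {J I0 IR IQ IQ2 IS IM IL IE b m l s c0 Cv B CR CQ CS CM CL CE Cw Ci A1 Av X Y Y1 T L
    G E2 Xe P P' Ml Om : ℝ}
    (hc0 : 0 < c0) (hCv : 0 < Cv) (hB : 16 ≤ B) (hCR : 0 < CR) (hCQ : 0 < CQ) (hCS : 0 < CS)
    (hCM : 0 < CM) (hCL : 0 < CL) (hCE : 0 < CE) (hCw : 0 < Cw) (hCi : 0 < Ci)
    (hJ : J = I0 - IR - b * IQ + l * IQ2 - b * IS + m * IM + l * IL - IE)
    (hb : 0 ≤ b) (hb1 : b ≤ 1) (hl : 0 < l) (hl1 : l ≤ 1) (hs : 0 ≤ s)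
    (h0 : I0 ≤ -c0 * A1 + Cv / B * Y + Cv * P ^ 2)
    (hR : |IR| ≤ CR * s * X) (hQ : |IQ| ≤ CQ * √Av) (hQ2 : |IQ2| ≤ CQ * √Av)
    (hS : |IS| ≤ CS * Om) (hM : |IM| ≤ CM * (Ml + 1 / B * Y1)) (hL : |IL| ≤ CL * X)
    (hE : |IE| ≤ CE * √Xe * √E2)
    (hAv0 : 0 ≤ Av) (hAv : Av ≤ A1) (hX0 : 0 ≤ X) (hY : Y ≤ Cw * X) (hY0 : 0 ≤ Y1) (hY1 : Y1 ≤ Y)
    (hXT : X ≤ 16 * B * T) (hT : 0 ≤ T) (hOm : Om ≤ T) (hMl : Ml ≤ Y + X) (hXe0 : 0 ≤ Xe)
    (hXe : Xe ≤ X) (hE20 : 0 ≤ E2) (hE2 : E2 ≤ 8 * G) (hLn0 : 0 ≤ L) (hG : 0 ≤ G)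
    (hinv : L ≤ Ci * (A1 + P' ^ 2)) :
    J ≤ -(c0 / (2 * Ci)) * L + (16 * Cv * Cw + 1 + Cv + c0 + CQ ^ 2 / c0) * T
      + (16 * Cv * Cw + 1 + Cv + c0 + CQ ^ 2 / c0) * (P ^ 2 + P' ^ 2)
      + (16 * Cv * Cw + 1 + Cv + c0 + CQ ^ 2 / c0) * (b ^ 2 + l ^ 2)
      + (16 * B * (CR + CM * (2 * Cw + 1) + CL) + CS + 32 * B * CE ^ 2 + 1) * (s + l + b + |m|)
        * (T + L)
      + (16 * B * (CR + CM * (2 * Cw + 1) + CL) + CS + 32 * B * CE ^ 2 + 1) * G := by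
  have hB0 : 0 < B := by linarith
  have hm0 := abs_nonneg m
  -- pieces
  have t0 : Cv / B * Y ≤ 16 * Cv * Cw * T := by
    have e1 : Cv / B * Y ≤ Cv / B * (Cw * (16 * B * T)) := by
      refine mul_le_mul_of_nonneg_left ?_ (by positivity)
      exact hY.trans (mul_le_mul_of_nonneg_left hXT hCw.le)
    have e2 : Cv / B * (Cw * (16 * B * T)) = 16 * Cv * Cw * T := by
      field_simp
    linarith
  have tR : -IR ≤ 16 * B * CR * s * T := by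
    have e1 : CR * s * X ≤ CR * s * (16 * B * T) :=
      mul_le_mul_of_nonneg_left hXT (by positivity)
    have := (abs_le.1 hR).1
    have e2 : CR * s * (16 * B * T) = 16 * B * CR * s * T := by ring
    linarith
  have hsq : √Av ^ 2 = Av := Real.sq_sqrt hAv0
  have tQ : -(b * IQ) + l * IQ2 ≤ c0 / 2 * A1 + CQ ^ 2 / c0 * (b ^ 2 + l ^ 2) := by
    have e1 : -(b * IQ) ≤ b * (CQ * √Av) := by
      have h1 : -IQ ≤ CQ * √Av := by
        have := (abs_le.1 hQ).1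
        linarith
      have h2 := mul_le_mul_of_nonneg_left h1 hb
      have h3 : b * -IQ = -(b * IQ) := by ring
      linarith
    have e2 : l * IQ2 ≤ l * (CQ * √Av) := mul_le_mul_of_nonneg_left (abs_le.1 hQ2).2 hl.le
    have e3 : (b + l) * CQ * √Av ≤ c0 / 2 * Av + CQ ^ 2 / (2 * c0) * (b + l) ^ 2 := by
      have h1 : 0 ≤ (c0 * √Av - CQ * (b + l)) ^ 2 := sq_nonneg _
      have h2 : ∀ a : ℝ, c0 / 2 * a ^ 2 + CQ ^ 2 / (2 * c0) * (b + l) ^ 2 - (b + l) * CQ * a =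
          (c0 * a - CQ * (b + l)) ^ 2 / (2 * c0) := by
        intro a
        field_simp
        ring
      have h2' := h2 (√Av)
      rw [hsq] at h2'
      have h3 : 0 ≤ (c0 * √Av - CQ * (b + l)) ^ 2 / (2 * c0) := by positivity
      linarith
    have e4 : CQ ^ 2 / (2 * c0) * (b + l) ^ 2 ≤ CQ ^ 2 / c0 * (b ^ 2 + l ^ 2) := by
      have h1 : CQ ^ 2 / (2 * c0) = CQ ^ 2 / c0 / 2 := by
        field_simp
      rw [h1]
      have h2 : 0 ≤ CQ ^ 2 / c0 := by positivity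
      have h3 : 0 ≤ CQ ^ 2 / c0 * (b - l) ^ 2 := mul_nonneg h2 (sq_nonneg (b - l))
      have h4 : CQ ^ 2 / c0 * (b ^ 2 + l ^ 2) - CQ ^ 2 / c0 / 2 * (b + l) ^ 2 =
          CQ ^ 2 / c0 * (b - l) ^ 2 / 2 := by ring
      linarith
    have e5 : c0 / 2 * Av ≤ c0 / 2 * A1 := mul_le_mul_of_nonneg_left hAv (by positivity)
    have e6 : b * (CQ * √Av) + l * (CQ * √Av) = (b + l) * CQ * √Av := by ring
    linarith
  have tS : -(b * IS) ≤ CS * b * T := by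
    have e1 : -IS ≤ CS * T := by
      have := (abs_le.1 hS).1
      have h2 := mul_le_mul_of_nonneg_left hOm hCS.le
      linarith
    have e2 := mul_le_mul_of_nonneg_left e1 hb
    have e3 : b * -IS = -(b * IS) := by ring
    have e4 : b * (CS * T) = CS * b * T := by ring
    linarith
  have hMle : Ml + 1 / B * Y1 ≤ (2 * Cw + 1) * (16 * B * T) := by
    have h1 : 1 / B * Y1 ≤ Y := by
      have h2 : 1 / B ≤ 1 := by
        rw [div_le_one hB0]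
        linarith
      calc 1 / B * Y1 ≤ 1 * Y1 := mul_le_mul_of_nonneg_right h2 hY0
        _ ≤ Y := by linarith
    have h3 : Ml + 1 / B * Y1 ≤ (2 * Cw + 1) * X := by linarith
    exact h3.trans (mul_le_mul_of_nonneg_left hXT (by positivity))
  have tM : m * IM ≤ 16 * B * (CM * (2 * Cw + 1)) * |m| * T := by
    have h1 : |IM| ≤ CM * ((2 * Cw + 1) * (16 * B * T)) :=
      hM.trans (mul_le_mul_of_nonneg_left hMle hCM.le)
    have h2 : m * IM ≤ |m| * |IM| := by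
      rw [← abs_mul]
      exact le_abs_self _
    have h3 := mul_le_mul_of_nonneg_left h1 hm0
    have h4 : |m| * (CM * ((2 * Cw + 1) * (16 * B * T))) =
        16 * B * (CM * (2 * Cw + 1)) * |m| * T := by ring
    linarith
  have tL : l * IL ≤ 16 * B * CL * l * T := by
    have h1 : IL ≤ CL * (16 * B * T) :=
      ((abs_le.1 hL).2).trans (mul_le_mul_of_nonneg_left hXT hCL.le)
    have h2 := mul_le_mul_of_nonneg_left h1 hl.le
    have h3 : l * (CL * (16 * B * T)) = 16 * B * CL * l * T := by ring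
    linarith
  have tE : -IE ≤ T + 32 * B * CE ^ 2 * G := by
    have h1 : -IE ≤ CE * √Xe * √E2 := by
      have := (abs_le.1 hE).1
      linarith
    have hx : √Xe ^ 2 = Xe := Real.sq_sqrt hXe0
    have hy : √E2 ^ 2 = E2 := Real.sq_sqrt hE20
    have h2 : CE * √Xe * √E2 ≤ Xe / (16 * B) + 4 * B * CE ^ 2 * E2 := by
      have h3 : ∀ a c : ℝ, a ^ 2 / (16 * B) + 4 * B * CE ^ 2 * c ^ 2 - CE * a * c =
          (a - 8 * B * CE * c) ^ 2 / (16 * B) := by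
        intro a c
        field_simp
        ring
      have h3' := h3 (√Xe) (√E2)
      rw [hx, hy] at h3'
      have h4 : 0 ≤ (√Xe - 8 * B * CE * √E2) ^ 2 / (16 * B) := by positivity
      linarith
    have h5 : Xe / (16 * B) ≤ T := by
      rw [div_le_iff₀ (by positivity)]
      linarith
    have h6 : 4 * B * CE ^ 2 * E2 ≤ 4 * B * CE ^ 2 * (8 * G) :=
      mul_le_mul_of_nonneg_left hE2 (by positivity)
    linarith
  have tI : -(c0 / 2) * A1 ≤ -(c0 / (2 * Ci)) * L + c0 / 2 * P' ^ 2 := by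
    have h1 : c0 / (2 * Ci) * L ≤ c0 / (2 * Ci) * (Ci * (A1 + P' ^ 2)) :=
      mul_le_mul_of_nonneg_left hinv (by positivity)
    have h2 : c0 / (2 * Ci) * (Ci * (A1 + P' ^ 2)) = c0 / 2 * (A1 + P' ^ 2) := by
      field_simp
    linarith
  -- assemble
  have main : J ≤ -(c0 / (2 * Ci)) * L + c0 / 2 * P' ^ 2 + 16 * Cv * Cw * T + Cv * P ^ 2
      + 16 * B * CR * s * T + CQ ^ 2 / c0 * (b ^ 2 + l ^ 2) + CS * b * T
      + 16 * B * (CM * (2 * Cw + 1)) * |m| * T + 16 * B * CL * l * T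
      + (T + 32 * B * CE ^ 2 * G) := by
    rw [hJ]
    linarith
  set K1 := 16 * Cv * Cw + 1 + Cv + c0 + CQ ^ 2 / c0 with hK1
  set K2 := 16 * B * (CR + CM * (2 * Cw + 1) + CL) + CS + 32 * B * CE ^ 2 + 1 with hK2
  have q0 : 0 < CQ ^ 2 / c0 := by positivity
  have q1 : 16 * Cv * Cw * T + T ≤ K1 * T := by
    have : 0 ≤ (Cv + c0 + CQ ^ 2 / c0) * T := by positivity
    rw [hK1]
    linarith
  have q2 : c0 / 2 * P' ^ 2 + Cv * P ^ 2 ≤ K1 * (P ^ 2 + P' ^ 2) := by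
    have h1 : Cv ≤ K1 := by
      rw [hK1]
      have : 0 < 16 * Cv * Cw := by positivity
      linarith
    have h2 : c0 / 2 ≤ K1 := by
      rw [hK1]
      have : 0 < 16 * Cv * Cw := by positivity
      linarith
    have h3 := mul_le_mul_of_nonneg_right h1 (sq_nonneg P)
    have h4 := mul_le_mul_of_nonneg_right h2 (sq_nonneg P')
    linarith
  have q3 : CQ ^ 2 / c0 * (b ^ 2 + l ^ 2) ≤ K1 * (b ^ 2 + l ^ 2) := by
    refine mul_le_mul_of_nonneg_right ?_ (by positivity)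
    rw [hK1]
    have : 0 < 16 * Cv * Cw := by positivity
    linarith
  have hTL : T ≤ T + L := by linarith
  have r1 : 16 * B * CR ≤ K2 := by
    rw [hK2]
    have h1 : 0 < 16 * B * (CM * (2 * Cw + 1) + CL) := by positivity
    have h2 : 0 < 32 * B * CE ^ 2 := by positivity
    linarith
  have r2 : CS ≤ K2 := by
    rw [hK2]
    have h1 : 0 < 16 * B * (CR + CM * (2 * Cw + 1) + CL) := by positivity
    have h2 : 0 < 32 * B * CE ^ 2 := by positivity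
    linarith
  have r3 : 16 * B * (CM * (2 * Cw + 1)) ≤ K2 := by
    rw [hK2]
    have h1 : 0 < 16 * B * (CR + CL) := by positivity
    have h2 : 0 < 32 * B * CE ^ 2 := by positivity
    linarith
  have r4 : 16 * B * CL ≤ K2 := by
    rw [hK2]
    have h1 : 0 < 16 * B * (CR + CM * (2 * Cw + 1)) := by positivity
    have h2 : 0 < 32 * B * CE ^ 2 := by positivity
    linarith
  have r5 : 32 * B * CE ^ 2 ≤ K2 := by
    rw [hK2]
    have h1 : 0 < 16 * B * (CR + CM * (2 * Cw + 1) + CL) := by positivity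
    linarith
  have hK20 : 0 < K2 := lt_of_lt_of_le hCS r2
  have q4 : 16 * B * CR * s * T + CS * b * T + 16 * B * (CM * (2 * Cw + 1)) * |m| * T
      + 16 * B * CL * l * T ≤ K2 * (s + l + b + |m|) * (T + L) := by
    have g1 : 16 * B * CR * s * T ≤ K2 * s * T :=
      mul_le_mul_of_nonneg_right (mul_le_mul_of_nonneg_right r1 hs) hT
    have g2 : CS * b * T ≤ K2 * b * T :=
      mul_le_mul_of_nonneg_right (mul_le_mul_of_nonneg_right r2 hb) hT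
    have g3 : 16 * B * (CM * (2 * Cw + 1)) * |m| * T ≤ K2 * |m| * T :=
      mul_le_mul_of_nonneg_right (mul_le_mul_of_nonneg_right r3 hm0) hT
    have g4 : 16 * B * CL * l * T ≤ K2 * l * T :=
      mul_le_mul_of_nonneg_right (mul_le_mul_of_nonneg_right r4 hl.le) hT
    have g5 : K2 * (s + l + b + |m|) * T ≤ K2 * (s + l + b + |m|) * (T + L) :=
      mul_le_mul_of_nonneg_left hTL (by positivity)
    linarith
  have q5 : 32 * B * CE ^ 2 * G ≤ K2 * G := mul_le_mul_of_nonneg_right r5 hG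
  linarith

theorem DV_le (k : ℕ) (hk : 5 ≤ k) : ∃ γ η δ c₁ C₁ B₀ : ℝ, 0 < γ ∧ γ ≤ 1 / 8 ∧ 0 < η ∧ η ≤ 1 ∧ 0 < δ ∧
    δ ≤ 1 / 16 ∧ 0 < c₁ ∧ 0 < C₁ ∧ 16 ≤ B₀ ∧ ∀ B : ℝ, B₀ ≤ B → ∃ C₂ : ℝ, 0 < C₂ ∧ ∀ ρ, Slow B ρ →
    ∀ (p q : ℝ) (ε e : ℝ → ℝ), Adm ρ p q ε → Adm ρ p q e → ∀ s : ℝ, s ≤ 1 → (∀ y, |ε y| ≤ s) →
    ∀ b m l : ℝ, 0 ≤ b → b ≤ 1 → 0 < l → l ≤ 1 →
    DV k η γ B δ ε (zeta k b m l ε e) ≤ -c₁ * ln γ B ε + C₁ * Tn B ρ ε
      + C₁ * ((ip ε (Qf k)) ^ 2 + (ip ε (deriv (Qf k))) ^ 2) + C₁ * (b ^ 2 + l ^ 2)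
      + C₂ * (s + l + b + |m|) * (Tn B ρ ε + ln γ B ε) + C₂ * Gn B ρ e := by
  have hk1 : 1 ≤ k := by omega
  have hk2 : 2 ≤ k := by omega
  obtain ⟨γ, Ci, hγ, hγ8, hCi, hinv⟩ := inv_loc k hk2
  obtain ⟨η, δ, c₀, Cv, hη, hη1, hδ, hδ', hc₀, hCv, hvl⟩ := vir_lin k hk γ hγ hγ8
  obtain ⟨CR, hCR, hVR⟩ := VR k hk2 γ η δ hη.le hδ hδ'
  obtain ⟨CQ, hCQ, hVQ⟩ := VQ k hk2 γ η δ hγ hγ8 hη.le hδ hδ'
  obtain ⟨CM, hCM, hVM⟩ := VM k hk γ η δ hγ hγ8 hη.le hδ hδ'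
  obtain ⟨CL, hCL, hVL⟩ := VL k hk γ η δ hγ hγ8 hη.le hδ hδ'
  obtain ⟨CE, hCE, hVE⟩ := VE k hk γ η δ hη.le hδ hδ'
  obtain ⟨Cw, hCw, hwt⟩ := vf_wt k hk1 δ hδ hδ'
  refine ⟨γ, η, δ, c₀ / (2 * Ci), 16 * Cv * Cw + 1 + Cv + c₀ + CQ ^ 2 / c₀, max 16 (1 / γ), hγ, hγ8,
    hη, hη1, hδ, hδ', by positivity, by positivity, le_max_left _ _, ?_⟩
  intro B hB
  have hB16 : 16 ≤ B := (le_max_left _ _).trans hB
  have hBγ : 1 / γ ≤ B := (le_max_right _ _).trans hB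
  have hB0 : 0 < B := by linarith
  have h2B : 0 < 2 / B := by positivity
  obtain ⟨CS, hCS, hVS⟩ := VS k hk γ η δ hγ hγ8 hη.le hδ hδ' B hB16
  refine ⟨16 * B * (CR + CM * (2 * Cw + 1) + CL) + CS + 32 * B * CE ^ 2 + 1, by positivity, ?_⟩
  intro ρ hρ p q ε e hAε hAe s hs1 hs b m l hb hb1 hl hl1
  obtain ⟨hρp, hp2, hq, hq2, hε⟩ := hAε
  obtain ⟨-, -, -, -, he⟩ := hAe
  have hρ0 : 0 < ρ := hρ.2.1
  have hp : 0 < p := hρ0.trans hρp
  have hs0 : 0 ≤ s := (abs_nonneg _).trans (hs 0)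
  have hpa : |p| ≤ 2 := abs_le.2 ⟨by linarith, by linarith⟩
  have hqa : |q| ≤ 2 := abs_le.2 ⟨by linarith, by linarith⟩
  have hp1 : p ≤ 1 := by linarith
  have hq1 : q ≤ 1 := by linarith
  have hv : Cl p q (vf k δ ε) := Cl_vf hk1 hδ hδ' hpa hqa hε
  have hε1 : Cl p q (deriv ε) := Cl_der hε
  have hε2 : Cl p q (deriv (deriv ε)) := Cl_der hε1
  have hv1 : Cl p q (deriv (vf k δ ε)) := Cl_der hv
  have he1 : Cl p q (deriv e) := Cl_der he
  have hch : Cl (2 / B) (2 / B) (ch B) := Cl_ch hB0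
  have hloc : Cl (2 * γ + 2 / B) (2 * γ + 2 / B) (loc γ B) := Vfi_loc hγ hB0
  have hom : Cl (-(2 * ρ)) (2 * ρ + 1 / B) (om B ρ) := Cl_om hB0 ρ
  have hom1 := Cl_der hom
  have s1 : 0 < 2 / B + (p + p) := by positivity
  have s2 : 0 < 2 / B + (q + q) := by positivity
  have s3 : 0 < 2 * γ + 2 / B + (p + p) := by positivity
  have s4 : 0 < 2 * γ + 2 / B + (q + q) := by positivity
  have s5 : 0 < -(2 * ρ) + (p + p) := by linarith
  have s6 : 0 < 2 * ρ + 1 / B + (q + q) := by positivity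
  -- the integral inequalities
  have hXT : (∫ y, ch B y * ((ε y) ^ 2 + (deriv ε y) ^ 2)) ≤ 16 * B * Tn B ρ ε := by
    unfold Tn
    rw [← integral_const_mul]
    refine integral_mono (Vfi_int2 hch hε hε1 s1 s2)
      ((Vfi_int3 hom1 hε hε1 hε2 s5 s6).const_mul _) fun y => ?_
    have h1 := ch_le_om1 hρ y
    have h2 : 0 ≤ (ε y) ^ 2 + (deriv ε y) ^ 2 := by positivity
    have h3 := mul_le_mul_of_nonneg_right h1 h2
    have h4 : 0 ≤ 16 * B * deriv (om B ρ) y * (deriv (deriv ε) y) ^ 2 := by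
      have := om1_pos hρ y
      positivity
    simp only
    linarith
  have hT0 : 0 ≤ Tn B ρ ε := by
    unfold Tn
    refine integral_nonneg fun y => ?_
    have := om1_pos hρ y
    positivity
  have hOm : (∫ y, deriv (om B ρ) y * ((ε y) ^ 2 + (deriv ε y) ^ 2)) ≤ Tn B ρ ε := by
    unfold Tn
    refine integral_mono (Vfi_int2 hom1 hε hε1 s5 s6) (Vfi_int3 hom1 hε hε1 hε2 s5 s6) fun y => ?_
    have h4 : 0 ≤ deriv (om B ρ) y * (deriv (deriv ε) y) ^ 2 := by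
      have := om1_pos hρ y
      positivity
    simp only
    linarith
  have hX0 : 0 ≤ ∫ y, ch B y * ((ε y) ^ 2 + (deriv ε y) ^ 2) := by
    refine integral_nonneg fun y => ?_
    have := Vfi_ch_pos B y
    positivity
  have hAv0 : 0 ≤ ∫ y, loc γ B y * (vf k δ ε y) ^ 2 := by
    refine integral_nonneg fun y => ?_
    have := loc_pos γ B y
    positivity
  have hAv : (∫ y, loc γ B y * (vf k δ ε y) ^ 2) ≤
      ∫ y, loc γ B y * ((vf k δ ε y) ^ 2 + (deriv (vf k δ ε) y) ^ 2) := by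
    refine integral_mono (Vfi_int1 hloc hv s3 s4) (Vfi_int2 hloc hv hv1 s3 s4) fun y => ?_
    have h4 : 0 ≤ loc γ B y * (deriv (vf k δ ε) y) ^ 2 := by
      have := loc_pos γ B y
      positivity
    simp only
    linarith
  have hY : (∫ y, ch B y * ((vf k δ ε y) ^ 2 + (deriv (vf k δ ε) y) ^ 2)) ≤
      Cw * ∫ y, ch B y * ((ε y) ^ 2 + (deriv ε y) ^ 2) := by
    refine hwt p q (2 / B) (2 / B) ε (ch B) hpa hqa hε hch (fun y => Vfi_ch_pos B y) ?_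
      (by positivity) (by positivity)
    intro y
    have h1 := ch2_le (B := B) (by linarith) y
    have h2 := Vfi_ch_pos B y
    have h3 : 8 / B ^ 2 ≤ 1 := by
      rw [div_le_one (by positivity)]
      (first | linarith only [hB16, hδ, hδ'] | nlinarith only [hB16, hδ, hδ'])
    have h4 : |deriv (deriv (ch B)) y| ≤ 1 * ch B y :=
      h1.trans (mul_le_mul_of_nonneg_right h3 h2.le)
    have h5 : δ * |deriv (deriv (ch B)) y| ≤ 1 / 16 * (1 * ch B y) :=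
      mul_le_mul hδ' h4 (abs_nonneg _) (by norm_num)
    linarith
  have hY10 : 0 ≤ ∫ y, ch B y * (vf k δ ε y) ^ 2 := by
    refine integral_nonneg fun y => ?_
    have := Vfi_ch_pos B y
    positivity
  have hY1 : (∫ y, ch B y * (vf k δ ε y) ^ 2) ≤
      ∫ y, ch B y * ((vf k δ ε y) ^ 2 + (deriv (vf k δ ε) y) ^ 2) := by
    refine integral_mono (Vfi_int1 hch hv s1 s2) (Vfi_int2 hch hv hv1 s1 s2) fun y => ?_
    have h4 : 0 ≤ ch B y * (deriv (vf k δ ε) y) ^ 2 := by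
      have := Vfi_ch_pos B y
      positivity
    simp only
    linarith
  have hMl : (∫ y, loc γ B y * ((vf k δ ε y) ^ 2 + (ε y) ^ 2)) ≤
      (∫ y, ch B y * ((vf k δ ε y) ^ 2 + (deriv (vf k δ ε) y) ^ 2))
        + ∫ y, ch B y * ((ε y) ^ 2 + (deriv ε y) ^ 2) := by
    rw [← integral_add (Vfi_int2 hch hv hv1 s1 s2) (Vfi_int2 hch hε hε1 s1 s2)]
    refine integral_mono (Vfi_int2 hloc hv hε s3 s4)
      ((Vfi_int2 hch hv hv1 s1 s2).add (Vfi_int2 hch hε hε1 s1 s2)) fun y => ?_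
    have h1 := loc_le_ch γ B y
    have h2 : 0 ≤ (vf k δ ε y) ^ 2 + (ε y) ^ 2 := by positivity
    have h3 := mul_le_mul_of_nonneg_right h1 h2
    have h4 : 0 ≤ ch B y * ((deriv (vf k δ ε) y) ^ 2 + (deriv ε y) ^ 2) := by
      have := Vfi_ch_pos B y
      positivity
    simp only
    linarith
  have hXe0 : 0 ≤ ∫ y, ch B y * (ε y) ^ 2 := by
    refine integral_nonneg fun y => ?_
    have := Vfi_ch_pos B y
    positivity
  have hXe : (∫ y, ch B y * (ε y) ^ 2) ≤ ∫ y, ch B y * ((ε y) ^ 2 + (deriv ε y) ^ 2) := by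
    refine integral_mono (Vfi_int1 hch hε s1 s2) (Vfi_int2 hch hε hε1 s1 s2) fun y => ?_
    have h4 : 0 ≤ ch B y * (deriv ε y) ^ 2 := by
      have := Vfi_ch_pos B y
      positivity
    simp only
    linarith
  have hE20 : 0 ≤ ∫ y, ch B y * (deriv e y) ^ 2 := by
    refine integral_nonneg fun y => ?_
    have := Vfi_ch_pos B y
    positivity
  have hE2 : (∫ y, ch B y * (deriv e y) ^ 2) ≤ 8 * Gn B ρ e := by
    unfold Gn
    rw [← integral_const_mul]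
    refine integral_mono (Vfi_int1 hch he1 s1 s2)
      ((Vfi_int2 hom he he1 s5 s6).const_mul _) fun y => ?_
    have h1 := ch_le_om hρ y
    have h3 := mul_le_mul_of_nonneg_right h1 (sq_nonneg (deriv e y))
    have h4 : 0 ≤ 8 * (om B ρ y * (e y) ^ 2) := by
      have := om_pos B ρ y
      positivity
    simp only
    linarith
  have hL0 : 0 ≤ ln γ B ε := by
    unfold ln
    refine integral_nonneg fun y => ?_
    have := loc_pos γ B y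
    positivity
  have hG0 : 0 ≤ Gn B ρ e := by
    unfold Gn
    refine integral_nonneg fun y => ?_
    have := om_pos B ρ y
    positivity
  obtain ⟨hQ1, hQ2⟩ := hVQ B hB16 p q ε hp hp1 hq hq1 hε
  have hJ := Vfi_J_zeta (η := η) (γ := γ) hk1 hB0 hδ hδ' hp hp2 hq hq2 hv hε he b m l
  have hfin := Vfi_arith (s := s) (A1 := ∫ y, loc γ B y * ((vf k δ ε y) ^ 2 + (deriv (vf k δ ε) y) ^ 2))
    (P := ip ε (Qf k)) (P' := ip ε (deriv (Qf k)))
    hc₀ hCv hB16 hCR hCQ hCS hCM hCL hCE hCw hCi hJ hb hb1 hl hl1 hs0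
    (hvl B hB16 p q ε hp hp1 hq hq1 hε)
    (hVR B hB16 p q s ε hp hp1 hq hq1 hε hs1 hs) hQ1 hQ2
    (hVS ρ hρ p q ε hρp hp2 hq hq2 hε)
    (hVM B hB16 p q ε hp hp1 hq hq1 hε)
    (hVL B hB16 p q ε hp hp1 hq hq1 hε)
    (hVE B hB16 p q ε e hp hp1 hq hq1 hε he)
    hAv0 hAv hX0 hY hY10 hY1 hXT hT0 hOm hMl hXe0 hXe hE20 hE2 hL0 hG0
    (hinv γ B δ hγ le_rfl hB16 hBγ hδ hδ' p q ε hp hp1 hq hq1 hε)
  exact hfin

end H98KB
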