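import Pool.Agent.H98.KB.Smb
import Pool.Agent.H98.KB.Wts

/-!
# Vid : the virial form and its exact identities

`Hf k W v = ∫ (3/2)W'v'² + (1/2)(W'-W''')v² - (1/2)(W Q^k)' v²`.
* `vir_id`: `∫ W v L v' = ∫ W v(-v'''+v'-Q^kv') = -Hf k W v`
  (`W v v''' = (W v v'')' - W'v v'' - W v'v''`, etc.; the difference of the integrands is the derivative of
   `-(W v v'') + W' v v' ... `: find the primitive with coefficients
   `H = -W v v'' + W' v v' + (1/2) W v'² - (1/2) W'' v² + (1/2) W v² - (1/2) W Q^k v²` : check by `ring` that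
   `W v(-v'''+v'-Q^kv') + (3/2)W'v'²+(1/2)(W'-W''')v²-(1/2)(WQ^k)'v² = H'`).
* `vir_tanh`: with `t = th k`, `t'=κ(1-t²)`, `κ=k/2`, `Q^k=C0(1-t²)`, `C0=(k+1)(k+2)/2`:
  `(3/2)t'(v'+tv)² = (3/2)t'v'² + (3/2)(t't v²)' - (3/2)(t't)'v² + (3/2)t't²v²` and
  `-(3/2)(t't)'+(3/2)t't² = (1/2)(t'-t''') - (1/2)(tQ^k)'` is a polynomial identity in `t`
  (`t''=-2κ t t'`, `t'''=-2κ t'^2+4κ²t²t'`).
* `vir_split`: `vf k δ (Lε)' = L v' + Ed`, `v = vf k δ ε`, `Ed = δ Sm((Q^k)''v') - 2δ (Sm((Q^k)'v'))'`: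
  `(Lε) = v-δv''`, `L(w-δw'') = (Lw) - δ (Lw)'' - δ((Q^k)''w+2(Q^k)'w')` for `w=v'`, `Sm(x-δx'') = x`, and
  `(Q^k)''w+2(Q^k)'w' = 2((Q^k)'w)' - (Q^k)''w`.
-/

open MeasureTheory Filter Topology Set
open scoped ContDiff

namespace H98KB

/-- the virial quadratic form -/
noncomputable def Hf (k : ℕ) (W v : ℝ → ℝ) : ℝ :=
  ∫ y, (3 / 2 * deriv W y * (deriv v y) ^ 2 + 1 / 2 * (deriv W y - deriv (deriv (deriv W)) y) * (v y) ^ 2
    - 1 / 2 * deriv (fun z => W z * Qf k z ^ k) y * (v y) ^ 2)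

/-- the commutator error -/
noncomputable def Ed (k : ℕ) (δ : ℝ) (v : ℝ → ℝ) (y : ℝ) : ℝ :=
  δ * Sm δ (fun z => deriv (deriv (fun z => Qf k z ^ k)) z * deriv v z) y
    - 2 * δ * deriv (Sm δ (fun z => deriv (fun z => Qf k z ^ k) z * deriv v z)) y

/-- `G_δ = ΛQ - δ(ΛQ)''` -/
noncomputable def Gd (k : ℕ) (δ : ℝ) (y : ℝ) : ℝ :=
  Lam k (Qf k) y - δ * deriv (deriv (Lam k (Qf k))) y

variable {k : ℕ}

theorem Vid_L (hk : 1 ≤ k) {p q : ℝ} {w : ℝ → ℝ} (hw : Cl p q w) : Cl p q (Lop k w) := by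
  have hQ : Cl 0 0 (fun y => Qf k y ^ k) := Cl_mono (Cl_Qk hk) (by positivity) (by positivity)
  exact Cl_sub (Cl_add (Cl_neg (Cl_der (Cl_der hw))) hw) (Cl_mul0 hQ hw)

theorem Vid_R (hk : 1 ≤ k) {p q : ℝ} {w : ℝ → ℝ} (hw : Cl p q w) :
    Cl p q (fun z => w z * Qf k z ^ k) := by
  have hQ : Cl 0 0 (fun y => Qf k y ^ k) := Cl_mono (Cl_Qk hk) (by positivity) (by positivity)
  have h := Cl_mul hw hQ
  simpa only [add_zero] using h

/-- the integrand of `Hf` is in the class -/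
theorem Vid_G (hk : 1 ≤ k) {p q pw qw : ℝ} {W v : ℝ → ℝ} (hW : Cl pw qw W) (hv : Cl p q v) :
    Cl (pw + (p + p)) (qw + (q + q)) (fun y => 3 / 2 * deriv W y * (deriv v y) ^ 2 +
      1 / 2 * (deriv W y - deriv (deriv (deriv W)) y) * (v y) ^ 2
      - 1 / 2 * deriv (fun z => W z * Qf k z ^ k) y * (v y) ^ 2) := by
  have hv2 : Cl (p + p) (q + q) (fun y => v y * v y) := Cl_mul hv hv
  have hd2 : Cl (p + p) (q + q) (fun y => deriv v y * deriv v y) := Cl_mul (Cl_der hv) (Cl_der hv)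
  have h1 : Cl (pw + (p + p)) (qw + (q + q))
      (fun y => (3 / 2 * deriv W y) * (deriv v y * deriv v y)) :=
    Cl_mul (Cl_smul (3 / 2) (Cl_der hW)) hd2
  have h2 : Cl (pw + (p + p)) (qw + (q + q))
      (fun y => (1 / 2 * (deriv W y - deriv (deriv (deriv W)) y)) * (v y * v y)) :=
    Cl_mul (Cl_smul (1 / 2) (Cl_sub (Cl_der hW) (Cl_der (Cl_der (Cl_der hW))))) hv2
  have h3 : Cl (pw + (p + p)) (qw + (q + q))
      (fun y => (1 / 2 * deriv (fun z => W z * Qf k z ^ k) y) * (v y * v y)) :=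
    Cl_mul (Cl_smul (1 / 2) (Cl_der (Vid_R hk hW))) hv2
  have h4 := Cl_sub (Cl_add h1 h2) h3
  have e : (fun y => 3 / 2 * deriv W y * (deriv v y) ^ 2 +
      1 / 2 * (deriv W y - deriv (deriv (deriv W)) y) * (v y) ^ 2
      - 1 / 2 * deriv (fun z => W z * Qf k z ^ k) y * (v y) ^ 2) = (fun y =>
      (3 / 2 * deriv W y) * (deriv v y * deriv v y) +
      (1 / 2 * (deriv W y - deriv (deriv (deriv W)) y)) * (v y * v y) -
      (1 / 2 * deriv (fun z => W z * Qf k z ^ k) y) * (v y * v y)) := by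
    funext y
    ring
  rw [e]
  exact h4

theorem vir_id (hk : 1 ≤ k) {p q pw qw : ℝ} {W v : ℝ → ℝ} (hW : Cl pw qw W) (hv : Cl p q v)
    (h1 : 0 < 2 * p + pw) (h2 : 0 < 2 * q + qw) :
    ∫ y, W y * (v y * Lop k (deriv v) y) = -Hf k W v := by
  obtain ⟨R, hRdef⟩ : ∃ R : ℝ → ℝ, R = fun z => W z * Qf k z ^ k := ⟨_, rfl⟩
  have hR : Cl pw qw R := by
    rw [hRdef]
    exact Vid_R hk hW
  have hG := Vid_G hk hW hv
  have hp' : 0 < pw + (p + p) := by linarith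
  have hq' : 0 < qw + (q + q) := by linarith
  have hF : Cl (pw + (p + p)) (qw + (q + q)) (fun y => W y * (v y * Lop k (deriv v) y)) :=
    Cl_mul hW (Cl_mul hv (Vid_L hk (Cl_der hv)))
  have hv1 := Cl_der hv
  have hv2 := Cl_der hv1
  have hW1 := Cl_der hW
  have hW2 := Cl_der hW1
  have hH : Cl (pw + (p + p)) (qw + (q + q)) (fun y => -(W y * (v y * deriv (deriv v) y)) +
      deriv W y * (v y * deriv v y) + 1 / 2 * (W y * (deriv v y * deriv v y)) -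
      1 / 2 * (deriv (deriv W) y * (v y * v y)) + 1 / 2 * (W y * (v y * v y)) -
      1 / 2 * (R y * (v y * v y))) :=
    Cl_sub (Cl_add (Cl_sub (Cl_add (Cl_add (Cl_neg (Cl_mul hW (Cl_mul hv hv2)))
      (Cl_mul hW1 (Cl_mul hv hv1))) (Cl_smul (1 / 2) (Cl_mul hW (Cl_mul hv1 hv1))))
      (Cl_smul (1 / 2) (Cl_mul hW2 (Cl_mul hv hv)))) (Cl_smul (1 / 2) (Cl_mul hW (Cl_mul hv hv))))
      (Cl_smul (1 / 2) (Cl_mul hR (Cl_mul hv hv)))
  unfold Hf
  rw [← integral_neg]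
  refine Cl_int_eq (Cl_int hF hp' hq') (Cl_int (Cl_neg hG) hp' hq') hH hp' hq' fun y => ?_
  have dv := Cl_hd hv y
  have dv1 := Cl_hd hv1 y
  have dv2 := Cl_hd hv2 y
  have dW := Cl_hd hW y
  have dW1 := Cl_hd hW1 y
  have dW2 := Cl_hd hW2 y
  have dR := Cl_hd hR y
  have hd : HasDerivAt (fun y => -(W y * (v y * deriv (deriv v) y)) +
      deriv W y * (v y * deriv v y) + 1 / 2 * (W y * (deriv v y * deriv v y)) -
      1 / 2 * (deriv (deriv W) y * (v y * v y)) + 1 / 2 * (W y * (v y * v y)) -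
      1 / 2 * (R y * (v y * v y))) _ y :=
    ((((((dW.mul (dv.mul dv2)).neg).add (dW1.mul (dv.mul dv1))).add
      ((dW.mul (dv1.mul dv1)).const_mul (1 / 2))).sub
      ((dW2.mul (dv.mul dv)).const_mul (1 / 2))).add ((dW.mul (dv.mul dv)).const_mul (1 / 2))).sub
      ((dR.mul (dv.mul dv)).const_mul (1 / 2))
  rw [hd.deriv, ← hRdef]
  have hRy : R y = W y * Qf k y ^ k := congrFun hRdef y
  simp only [Pi.mul_apply]
  rw [hRy]
  unfold Lop
  ring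

theorem Vid_d1 (k : ℕ) : deriv (th k) = fun y => (k : ℝ) / 2 * (1 - th k y ^ 2) := by
  funext y
  exact (th_hd k y).deriv

theorem Vid_d2 (k : ℕ) : deriv (deriv (th k)) =
    fun y => -2 * ((k : ℝ) / 2) ^ 2 * th k y * (1 - th k y ^ 2) := by
  rw [Vid_d1]
  funext y
  have h : HasDerivAt (fun y => (k : ℝ) / 2 * (1 - th k y ^ 2)) _ y :=
    (((th_hd k y).pow 2).const_sub 1).const_mul ((k : ℝ) / 2)
  rw [h.deriv]
  ring

theorem Vid_d3 (k : ℕ) : deriv (deriv (deriv (th k))) =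
    fun y => -2 * ((k : ℝ) / 2) ^ 3 * (1 - th k y ^ 2) * (1 - 3 * th k y ^ 2) := by
  rw [Vid_d2]
  funext y
  have h : HasDerivAt (fun y => -2 * ((k : ℝ) / 2) ^ 2 * th k y * (1 - th k y ^ 2)) _ y :=
    ((th_hd k y).const_mul (-2 * ((k : ℝ) / 2) ^ 2)).mul (((th_hd k y).pow 2).const_sub 1)
  rw [h.deriv]
  simp only [Nat.cast_ofNat, Nat.add_one_sub_one, pow_one]
  ring

theorem Vid_d4 (hk : 1 ≤ k) (y : ℝ) : deriv (fun z => th k z * Qf k z ^ k) y =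
    C0 k * (1 - 3 * th k y ^ 2) * ((k : ℝ) / 2) * (1 - th k y ^ 2) := by
  have h : HasDerivAt (fun z => th k z * Qf k z ^ k) _ y := (th_hd k y).mul (Qk_hd hk y)
  rw [h.deriv, Qf_pow hk]
  ring

theorem vir_tanh (hk : 1 ≤ k) {p q : ℝ} {v : ℝ → ℝ} (hv : Cl p q v) (hp : 0 < p) (hq : 0 < q) :
    Hf k (th k) v = 3 / 2 * ∫ y, deriv (th k) y * (deriv v y + th k y * v y) ^ 2 := by
  have hG := Vid_G hk (Cl_th k) hv
  have hp' : 0 < 0 + (p + p) := by linarith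
  have hq' : 0 < 0 + (q + q) := by linarith
  have hv1 := Cl_der hv
  have hs : Cl p q (fun y => deriv v y + th k y * v y) := Cl_add hv1 (Cl_mul0 (Cl_th k) hv)
  have hF : Cl (0 + (p + p)) (0 + (q + q)) (fun y => 3 / 2 * (deriv (th k) y *
      ((deriv v y + th k y * v y) * (deriv v y + th k y * v y)))) :=
    Cl_smul (3 / 2) (Cl_mul (Cl_der (Cl_th k)) (Cl_mul hs hs))
  have hH : Cl (0 + (p + p)) (0 + (q + q)) (fun y => -(3 / 2) * (deriv (th k) y * th k y *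
      (v y * v y))) := by
    have h := Cl_smul (-(3 / 2)) (Cl_mul (Cl_mul (Cl_der (Cl_th k)) (Cl_th k)) (Cl_mul hv hv))
    simpa only [zero_add] using h
  unfold Hf
  rw [← integral_const_mul]
  have e : (fun y => 3 / 2 * (deriv (th k) y * (deriv v y + th k y * v y) ^ 2)) =
      (fun y => 3 / 2 * (deriv (th k) y *
      ((deriv v y + th k y * v y) * (deriv v y + th k y * v y)))) := by
    funext y
    ring
  rw [e]
  refine Cl_int_eq (Cl_int hG hp' hq') (Cl_int hF hp' hq') hH hp' hq' fun y => ?_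
  have dv := Cl_hd hv y
  have hd : HasDerivAt (fun y => -(3 / 2) * (deriv (th k) y * th k y * (v y * v y))) _ y :=
    (((Cl_hd (Cl_der (Cl_th k)) y).mul (Cl_hd (Cl_th k) y)).mul (dv.mul dv)).const_mul (-(3 / 2))
  rw [hd.deriv, Vid_d4 hk, Vid_d3, Vid_d2, Vid_d1]
  simp only [Pi.mul_apply]
  unfold C0
  ring

end H98KB
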