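import Pool.Agent.H98.KB.Vcp
import Pool.Agent.H98.KB.Vcv

/-!
# Vli : the linear virial estimate V7 (uses the statements of `Vid`, `Vcp`, `Vcu`, `Smb`)

`v = vf k δ ε`, `ṽ = rh B · v`, `Ψ=Psi`.  `vf k δ (Lε)' = L v' + Ed` (`vir_split`), so
`∫Ψ v vf(Lε)' = -Hf k Ψ v + ∫Ψ v Ed ≤ -Hf k ψ ṽ + (C/B)∫χ(v²+v'²) + C√δ∫loc(v²+v'²)`
`≤ -(ηγ/4)∫w(ṽ²+ṽ'²) + C(ip ṽ G)² + ...`; `(ip ṽ G)² ≤ 2(ip v G)²+(2C²/B²)∫wṽ²`, `ip v G = -2 ip ε Q` (`ip_vf`);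
`∫w ṽ² = ∫ loc v² ≤ ∫χ v²` so that term is `≤ (C/B)∫χ(v²+v'²)`; `∫w(ṽ²+ṽ'²) ≥ (1/3)∫loc(v²+v'²)`;
choose `δ` so small that `C√δ ≤ ηγ/24`; `c₀ = ηγ/24`.  `c₀` and `C` are independent of `B`.
(`η` comes from `vir_coer`, `δ ≤ δ₀`.)
-/

open MeasureTheory Filter Topology Set
open scoped ContDiff

namespace H98KB

theorem Vli_rh {B : ℝ} (hB : 0 < B) : Cl (1 / B) (1 / B) (rh B) := by
  have h := Cl_sech (c := 1 / B) (by positivity)
  have e : rh B = fun y => 1 / Real.cosh (1 / B * y) := by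
    funext y
    unfold rh
    congr 2
    ring
  rw [e]
  exact h

theorem Vli_loc {γ B : ℝ} (hγ : 0 < γ) (hB : 0 < B) : Cl 0 0 (loc γ B) := by
  have h := Cl_mul (Cl_se2 hγ) (Cl_ch hB)
  exact Cl_mono h (by positivity) (by positivity)

theorem Vli_sq {p q : ℝ} {f : ℝ → ℝ} (hf : Cl p q f) : Cl (2 * p) (2 * q) (fun y => f y ^ 2) := by
  have h := Cl_pow hf 2
  exact_mod_cast h

theorem vir_lin (k : ℕ) (hk : 5 ≤ k) (γ : ℝ) (hγ : 0 < γ) (hγ' : γ ≤ 1 / 8) :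
    ∃ η δ c₀ C : ℝ, 0 < η ∧ η ≤ 1 ∧ 0 < δ ∧ δ ≤ 1 / 16 ∧ 0 < c₀ ∧ 0 < C ∧
    ∀ B : ℝ, 16 ≤ B → ∀ (p q : ℝ) (ε : ℝ → ℝ), 0 < p → p ≤ 1 → 0 < q → q ≤ 1 → Cl p q ε →
    ∫ y, Psi k η γ B y * (vf k δ ε y * vf k δ (deriv (Lop k ε)) y) ≤
      -c₀ * (∫ y, loc γ B y * ((vf k δ ε y) ^ 2 + (deriv (vf k δ ε) y) ^ 2))
        + C / B * (∫ y, ch B y * ((vf k δ ε y) ^ 2 + (deriv (vf k δ ε) y) ^ 2))
        + C * (ip ε (Qf k)) ^ 2 := by
  have hk1 : 1 ≤ k := by omega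
  obtain ⟨η, δ₀, C1, hη, hη1, hδ₀, hδ₀', hC1, hcoer⟩ := vir_coer k hk γ hγ hγ'
  obtain ⟨C2, hC2, hcut⟩ := cut_H k hk1 η γ
  obtain ⟨C3, hC3, hip⟩ := cut_ip k hk1 γ hγ hγ'
  obtain ⟨C4, hC4, hEd⟩ := Ed_le k hk η γ hγ hγ'
  set r : ℝ := η * γ / (24 * C4) with hr
  have hr0 : 0 < r := by positivity
  set δ : ℝ := min δ₀ (r ^ 2) with hδd
  have hδ : 0 < δ := lt_min hδ₀ (by positivity)
  have hδδ₀ : δ ≤ δ₀ := min_le_left _ _
  have hδ' : δ ≤ 1 / 16 := hδδ₀.trans hδ₀'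
  have hsq : √δ ≤ r := by
    have h1 : √δ ≤ √(r ^ 2) := Real.sqrt_le_sqrt (min_le_right _ _)
    rwa [Real.sqrt_sq hr0.le] at h1
  have hC4r : C4 * √δ ≤ η * γ / 24 := by
    have h1 : C4 * √δ ≤ C4 * r := mul_le_mul_of_nonneg_left hsq hC4.le
    have h2 : C4 * r = η * γ / 24 := by
      rw [hr]
      field_simp
    linarith
  refine ⟨η, δ, η * γ / 24, C2 + 2 * C1 * C3 ^ 2 + 8 * C1, hη, hη1, hδ, hδ', by positivity,
    by positivity, ?_⟩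
  intro B hB p q ε hp hp1 hq hq1 hε
  have hB0 : 0 < B := by linarith
  have hpa : |p| ≤ 2 := by rw [abs_of_pos hp]; linarith
  have hqa : |q| ≤ 2 := by rw [abs_of_pos hq]; linarith
  set v := vf k δ ε with hv
  have hvC : Cl p q v := Cl_vf hk1 hδ hδ' hpa hqa hε
  have hPsi : Cl (2 / B) (2 / B) (Psi k η γ B) := Cl_Psi k η γ hB0
  have hrh : Cl (1 / B) (1 / B) (rh B) := Vli_rh hB0
  set w := fun y => rh B y * v y with hw
  have h1B : 0 ≤ 1 / B := by positivity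
  have h2B : 0 ≤ 2 / B := by positivity
  have hwC : Cl p q w := Cl_mono (Cl_mul hrh hvC) (by linarith) (by linarith)
  -- the integrals
  have hI1 : Integrable (fun y => Psi k η γ B y * (v y * Lop k (deriv v) y)) :=
    Cl_int (Cl_mul hPsi (Cl_mul hvC (Cl_Lop hk1 (Cl_der hvC)))) (by linarith) (by linarith)
  have hI2 : Integrable (fun y => Psi k η γ B y * (v y * Ed k δ v y)) :=
    Cl_int (Cl_mul hPsi (Cl_mul hvC (Cl_Ed hk1 hδ hδ' hpa hqa hvC))) (by linarith) (by linarith)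
  have hsplit : ∫ y, Psi k η γ B y * (v y * vf k δ (deriv (Lop k ε)) y) =
      -Hf k (Psi k η γ B) v + ∫ y, Psi k η γ B y * (v y * Ed k δ v y) := by
    rw [← vir_id hk1 hPsi hvC (by linarith) (by linarith), ← integral_add hI1 hI2]
    congr 1
    funext y
    rw [vir_split hk1 hδ hδ' hpa hqa hε y]
    ring
  have e1 := hcut B hB p q v hp hq hvC
  have e2 := hcoer δ hδ hδδ₀ p q w hp hq hwC
  have e3 := hip B hB δ hδ hδ' p q v hp hq hvC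
  have e4 := hEd B hB δ hδ hδ' p q v hp hp1 hq hq1 hvC
  have e5 := cut_loc hγ hB hp hq hvC
  have e6 : ip v (Gd k δ) = -2 * ip ε (Qf k) :=
    ip_vf hk1 hδ hδ' hp (by linarith) hq (by linarith) hε
  set X := ∫ y, loc γ B y * ((v y) ^ 2 + (deriv v y) ^ 2) with hX
  set Y := ∫ y, ch B y * ((v y) ^ 2 + (deriv v y) ^ 2) with hY
  set Z := ∫ y, se2 γ y * ((w y) ^ 2 + (deriv w y) ^ 2) with hZ
  have hchpos : ∀ y, 0 ≤ ch B y := fun y => by unfold ch; positivity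
  have hX0 : 0 ≤ X := integral_nonneg fun y => mul_nonneg (loc_pos γ B y).le (by positivity)
  have hY0 : 0 ≤ Y := integral_nonneg fun y => mul_nonneg (hchpos y) (by positivity)
  have hrhsq : ∀ y, rh B y ^ 2 = ch B y := fun y => rfl
  have e7 : ∫ y, se2 γ y * (rh B y * v y) ^ 2 ≤ Y := by
    have hv2 : Cl (2 * p) (2 * q) (fun y => v y ^ 2) := Vli_sq hvC
    have hd2 : Cl (2 * p) (2 * q) (fun y => deriv v y ^ 2) := Vli_sq (Cl_der hvC)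
    have hch0 : Cl 0 0 (ch B) := Cl_mono (Cl_ch hB0) h2B h2B
    have i1 : Integrable (fun y => se2 γ y * (rh B y * v y) ^ 2) := by
      have h := Cl_int (Cl_mul0 (Vli_loc hγ hB0) hv2) (by linarith) (by linarith)
      refine h.congr (Eventually.of_forall fun y => ?_)
      show loc γ B y * v y ^ 2 = se2 γ y * (rh B y * v y) ^ 2
      rw [mul_pow, hrhsq, loc]
      ring
    have i2 : Integrable (fun y => ch B y * ((v y) ^ 2 + (deriv v y) ^ 2)) :=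
      Cl_int (Cl_mul0 hch0 (Cl_add hv2 hd2)) (by linarith) (by linarith)
    refine integral_mono i1 i2 fun y => ?_
    show se2 γ y * (rh B y * v y) ^ 2 ≤ ch B y * ((v y) ^ 2 + (deriv v y) ^ 2)
    rw [mul_pow, hrhsq]
    have h1 : 0 ≤ ch B y * v y ^ 2 := mul_nonneg (hchpos y) (sq_nonneg _)
    have h2 : 0 ≤ ch B y * deriv v y ^ 2 := mul_nonneg (hchpos y) (sq_nonneg _)
    have h3 : se2 γ y * (ch B y * v y ^ 2) ≤ 1 * (ch B y * v y ^ 2) :=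
      mul_le_mul_of_nonneg_right (se2_le_one γ y) h1
    linarith
  have hse0 : 0 ≤ ∫ y, se2 γ y * (rh B y * v y) ^ 2 :=
    integral_nonneg fun y => mul_nonneg (se2_pos γ y).le (sq_nonneg _)
  -- the square of the pairing
  have e8 : (ip w (Gd k δ)) ^ 2 ≤ 8 * (ip ε (Qf k)) ^ 2 + 2 * (C3 ^ 2 / B ^ 2) * Y := by
    have h1 : (ip w (Gd k δ) - ip v (Gd k δ)) ^ 2 ≤ (C3 / B) ^ 2 *
        (∫ y, se2 γ y * (rh B y * v y) ^ 2) := by
      have h2 : |ip w (Gd k δ) - ip v (Gd k δ)| ^ 2 ≤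
          (C3 / B * √(∫ y, se2 γ y * (rh B y * v y) ^ 2)) ^ 2 :=
        pow_le_pow_left₀ (abs_nonneg _) e3 2
      rw [sq_abs, mul_pow, Real.sq_sqrt hse0] at h2
      exact h2
    have h3 : (C3 / B) ^ 2 * (∫ y, se2 γ y * (rh B y * v y) ^ 2) ≤ (C3 / B) ^ 2 * Y :=
      mul_le_mul_of_nonneg_left e7 (by positivity)
    have h4 : (ip w (Gd k δ)) ^ 2 ≤ 2 * (ip v (Gd k δ)) ^ 2 +
        2 * (ip w (Gd k δ) - ip v (Gd k δ)) ^ 2 := by
      (first | linarith only [sq_nonneg (2 * ip v (Gd k δ) - ip w (Gd k δ))] | nlinarith only [sq_nonneg (2 * ip v (Gd k δ) - ip w (Gd k δ))])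
    rw [e6] at h4
    have h5 : (C3 / B) ^ 2 = C3 ^ 2 / B ^ 2 := div_pow _ _ _
    rw [h5] at h3 h1
    rw [e6] at h1
    (first | linarith only [h1, h3, h4] | nlinarith only [h1, h3, h4])
  have hBB : C3 ^ 2 / B ^ 2 ≤ C3 ^ 2 / B := by
    apply div_le_div_of_nonneg_left (by positivity) hB0
    (first | linarith only [hB, hδ₀, hδ₀'] | nlinarith only [hB, hδ₀, hδ₀'])
  have e9 : C3 ^ 2 / B ^ 2 * Y ≤ C3 ^ 2 / B * Y := mul_le_mul_of_nonneg_right hBB hY0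
  have e10 : C4 * √δ * X ≤ η * γ / 24 * X := mul_le_mul_of_nonneg_right hC4r hX0
  have e1' := (abs_le.1 e1).1
  have e4' := (abs_le.1 e4).2
  have hZ' : η * γ / 4 * (X / 3) ≤ η * γ / 4 * Z :=
    mul_le_mul_of_nonneg_left (by linarith) (by positivity)
  have e11 : C1 * (ip w (Gd k δ)) ^ 2 ≤ C1 * (8 * (ip ε (Qf k)) ^ 2 + 2 * (C3 ^ 2 / B * Y)) :=
    mul_le_mul_of_nonneg_left (by linarith) hC1.le
  rw [hsplit]
  have hfin : -(η * γ / 24) * X + (C2 + 2 * C1 * C3 ^ 2 + 8 * C1) / B * Y +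
      (C2 + 2 * C1 * C3 ^ 2 + 8 * C1) * (ip ε (Qf k)) ^ 2 =
      -(η * γ / 24) * X + C2 / B * Y + C1 * (2 * (C3 ^ 2 / B * Y)) + 8 * C1 / B * Y +
      (C2 + 2 * C1 * C3 ^ 2) * (ip ε (Qf k)) ^ 2 + C1 * (8 * (ip ε (Qf k)) ^ 2) := by ring
  rw [hfin]
  have p1 : 0 ≤ 8 * C1 / B * Y := by positivity
  have p2 : 0 ≤ (C2 + 2 * C1 * C3 ^ 2) * (ip ε (Qf k)) ^ 2 := by positivity
  have e1'' : -Hf k (Psi k η γ B) v ≤ -Hf k (psi k η γ) w + C2 / B * Y := by linarith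
  (first | linarith only [e1', e10, e11, e2, e4', hZ', p1, p2] | nlinarith only [e1', e10, e11, e2, e4', hZ', p1, p2])

end H98KB
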